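import Pool.Agent.Pon30.Stmts

namespace Pool.Agent.Pon30

open Complex

lemma ω_re : ω.re = -1 / 2 := rfl
lemma ω_im : ω.im = √3 / 2 := rfl

lemma sq3 : √3 * √3 = (3 : ℝ) := Real.mul_self_sqrt (by norm_num)

lemma ω_sq : ω ^ 2 = (starRingEnd ℂ) ω := by
  have h := sq3
  apply Complex.ext
  · simp only [pow_two, mul_re, conj_re, ω_re, ω_im]; nlinarith
  · simp only [pow_two, mul_im, conj_im, ω_re, ω_im]; ring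

lemma ω_mul_cj : ω * (starRingEnd ℂ) ω = 1 := by
  have h := sq3
  apply Complex.ext
  · simp only [mul_re, conj_re, conj_im, ω_re, ω_im, one_re]; nlinarith
  · simp only [mul_im, conj_re, conj_im, ω_re, ω_im, one_im]; ring

lemma cj_mul_ω : (starRingEnd ℂ) ω * ω = 1 := by rw [mul_comm]; exact ω_mul_cj

lemma ω_sum : 1 + ω + (starRingEnd ℂ) ω = 0 := by
  apply Complex.ext
  · simp only [add_re, one_re, conj_re, ω_re, zero_re]; ring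
  · simp only [add_im, one_im, conj_im, ω_im, zero_im]; ring

lemma cj_ω_eq : (starRingEnd ℂ) ω = -1 - ω := by linear_combination ω_sum

lemma cjω_sq : ((starRingEnd ℂ) ω) ^ 2 = ω := by
  have h := congrArg (starRingEnd ℂ) ω_sq
  simpa using h

lemma ω_norm : ‖ω‖ = 1 := by
  have h : ‖ω‖ ^ 2 = 1 := by
    rw [← Complex.normSq_eq_norm_sq, Complex.normSq_apply, ω_re, ω_im]
    have := sq3; nlinarith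
  have h0 := norm_nonneg ω
  nlinarith

lemma ω_cube : ω ^ 3 = 1 := by
  have : ω ^ 3 = ω ^ 2 * ω := by ring
  rw [this, ω_sq, cj_mul_ω]

lemma nsq (z : ℂ) : ((‖z‖ ^ 2 : ℝ) : ℂ) = z * (starRingEnd ℂ) z := by
  rw [Complex.mul_conj, Complex.normSq_eq_norm_sq]

lemma nsq' (z : ℂ) : (‖z‖ : ℂ) ^ 2 = z * (starRingEnd ℂ) z := by
  rw [Complex.mul_conj, Complex.normSq_eq_norm_sq]; push_cast; rfl

lemma nsq_re (z : ℂ) : ‖z‖ ^ 2 = z.re ^ 2 + z.im ^ 2 := by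
  rw [← Complex.normSq_eq_norm_sq, Complex.normSq_apply]; ring

section dft
variable (w₀ w₁ w₂ : ℂ)

lemma w0_eq : w₀ = Gc w₀ w₁ w₂ + Pc w₀ w₁ w₂ + Rc w₀ w₁ w₂ := by
  unfold Gc Pc Rc; linear_combination (-(w₁ + w₂) / 3) * ω_sum

lemma w1_eq : w₁ = Gc w₀ w₁ w₂ + Pc w₀ w₁ w₂ * ω + Rc w₀ w₁ w₂ * (starRingEnd ℂ) ω := by
  unfold Gc Pc Rc
  linear_combination (-(w₀ + w₂) / 3) * ω_sum - (2 * w₁ / 3) * ω_mul_cj - (w₂ / 3) * ω_sq - (w₂ / 3) * cjω_sq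

lemma w2_eq : w₂ = Gc w₀ w₁ w₂ + Pc w₀ w₁ w₂ * (starRingEnd ℂ) ω + Rc w₀ w₁ w₂ * ω := by
  unfold Gc Pc Rc
  linear_combination (-(w₀ + w₁) / 3) * ω_sum - (2 * w₂ / 3) * ω_mul_cj - (w₁ / 3) * ω_sq - (w₁ / 3) * cjω_sq

variable (p q z₀ z₁ z₂ : ℂ)

lemma Gc_L : Gc (L p q z₀) (L p q z₁) (L p q z₂) = L p q (Gc z₀ z₁ z₂) := by
  unfold Gc L; simp only [map_div₀, map_add, map_ofNat]; ring

lemma Pc_L : Pc (L p q z₀) (L p q z₁) (L p q z₂) = p * Pc z₀ z₁ z₂ + q * (starRingEnd ℂ) (Rc z₀ z₁ z₂) := by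
  unfold Pc Rc L
  simp only [map_div₀, map_add, map_mul, map_ofNat, Complex.conj_conj]; ring

lemma Rc_L : Rc (L p q z₀) (L p q z₁) (L p q z₂) = p * Rc z₀ z₁ z₂ + q * (starRingEnd ℂ) (Pc z₀ z₁ z₂) := by
  unfold Pc Rc L
  simp only [map_div₀, map_add, map_mul, map_ofNat, Complex.conj_conj]; ring

lemma Gc_smul (c : ℂ) : Gc (c * w₀) (c * w₁) (c * w₂) = c * Gc w₀ w₁ w₂ := by unfold Gc; ring
lemma Pc_smul (c : ℂ) : Pc (c * w₀) (c * w₁) (c * w₂) = c * Pc w₀ w₁ w₂ := by unfold Pc; ring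
lemma Rc_smul (c : ℂ) : Rc (c * w₀) (c * w₁) (c * w₂) = c * Rc w₀ w₁ w₂ := by unfold Rc; ring

lemma Gc_sub (d : ℂ) : Gc (w₀ - d) (w₁ - d) (w₂ - d) = Gc w₀ w₁ w₂ - d := by unfold Gc; ring
lemma Pc_sub (d : ℂ) : Pc (w₀ - d) (w₁ - d) (w₂ - d) = Pc w₀ w₁ w₂ := by
  unfold Pc; linear_combination (-d / 3) * ω_sum
lemma Rc_sub (d : ℂ) : Rc (w₀ - d) (w₁ - d) (w₂ - d) = Rc w₀ w₁ w₂ := by
  unfold Rc; linear_combination (-d / 3) * ω_sum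

lemma Xh_smul (h : ℂ → ℂ) (c : ℂ) (hc : c ≠ 0) : Xh h (c * w₀) (c * w₁) (c * w₂) = c * Xh h w₀ w₁ w₂ := by
  unfold Xh
  rw [Gc_smul, Pc_smul, Rc_smul, mul_div_mul_left _ _ hc]; ring

lemma Xh_sub (h : ℂ → ℂ) (d : ℂ) : Xh h (w₀ - d) (w₁ - d) (w₂ - d) = Xh h w₀ w₁ w₂ - d := by
  unfold Xh
  rw [Gc_sub, Pc_sub, Rc_sub]; ring

end dft

lemma Gc_T (s : ℂ) : Gc (T0 s) (T1 s) (T2 s) = 0 := by
  unfold Gc T0 T1 T2; linear_combination ((1 + s) / 3) * ω_sum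

lemma Pc_T (s : ℂ) : Pc (T0 s) (T1 s) (T2 s) = 1 := by
  unfold Pc T0 T1 T2
  linear_combination (2 / 3) * ω_mul_cj + (s / 3) * cjω_sq + (s / 3) * ω_sq + (s / 3) * ω_sum

lemma Rc_T (s : ℂ) : Rc (T0 s) (T1 s) (T2 s) = s := by
  unfold Rc T0 T1 T2
  linear_combination (2 * s / 3) * ω_mul_cj + (1 / 3) * cjω_sq + (1 / 3) * ω_sq + (1 / 3) * ω_sum

lemma Xh_T (h : ℂ → ℂ) (s : ℂ) : Xh h (T0 s) (T1 s) (T2 s) = h s := by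
  unfold Xh; rw [Gc_T, Pc_T, Rc_T]; simp

lemma norm_PR_L (p q P R : ℂ) : ‖p * P + q * (starRingEnd ℂ) R‖ ^ 2 - ‖p * R + q * (starRingEnd ℂ) P‖ ^ 2 =
    (‖p‖ ^ 2 - ‖q‖ ^ 2) * (‖P‖ ^ 2 - ‖R‖ ^ 2) := by
  have h : (((‖p * P + q * (starRingEnd ℂ) R‖ ^ 2 - ‖p * R + q * (starRingEnd ℂ) P‖ ^ 2 : ℝ)) : ℂ) =
      (((‖p‖ ^ 2 - ‖q‖ ^ 2) * (‖P‖ ^ 2 - ‖R‖ ^ 2) : ℝ) : ℂ) := by
    push_cast
    rw [nsq', nsq', nsq', nsq', nsq', nsq']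
    simp only [map_add, map_mul, Complex.conj_conj]
    ring
  exact_mod_cast h

/-- a triple transformed by an orientation preserving map keeps its orientation -/
lemma or_L {p q z₀ z₁ z₂ : ℂ} (hpq : ‖q‖ < ‖p‖) (hz : ‖Rc z₀ z₁ z₂‖ < ‖Pc z₀ z₁ z₂‖) :
    ‖Rc (L p q z₀) (L p q z₁) (L p q z₂)‖ < ‖Pc (L p q z₀) (L p q z₁) (L p q z₂)‖ := by
  rw [Rc_L, Pc_L]
  have h := norm_PR_L p q (Pc z₀ z₁ z₂) (Rc z₀ z₁ z₂)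
  have h1 : 0 < (‖p‖ ^ 2 - ‖q‖ ^ 2) := by nlinarith [norm_nonneg q, norm_nonneg p]
  have h2 : 0 < (‖Pc z₀ z₁ z₂‖ ^ 2 - ‖Rc z₀ z₁ z₂‖ ^ 2) := by
    nlinarith [norm_nonneg (Rc z₀ z₁ z₂), norm_nonneg (Pc z₀ z₁ z₂)]
  have h3 := mul_pos h1 h2
  rw [← h] at h3
  exact lt_of_pow_lt_pow_left₀ 2 (norm_nonneg _) (by linarith)

section Tz
variable {F z₀ z₁ z₂ : ℂ}

lemma Tz.cj0 (h : Tz F z₀ z₁ z₂) : z₀ * (starRingEnd ℂ) z₀ = 1 := by rw [← nsq, h.n₀]; norm_num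
lemma Tz.cj1 (h : Tz F z₀ z₁ z₂) : z₁ * (starRingEnd ℂ) z₁ = 1 := by rw [← nsq, h.n₁]; norm_num
lemma Tz.cj2 (h : Tz F z₀ z₁ z₂) : z₂ * (starRingEnd ℂ) z₂ = 1 := by rw [← nsq, h.n₂]; norm_num

lemma Tz.lam_norm (h : Tz F z₀ z₁ z₂) : ‖z₀ * z₁ * z₂‖ = 1 := by
  rw [norm_mul, norm_mul, h.n₀, h.n₁, h.n₂]; norm_num

/-- `σ₁ = - λ F̄` -/
lemma Tz.s1 (h : Tz F z₀ z₁ z₂) : z₀ + z₁ + z₂ = - (z₀ * z₁ * z₂) * (starRingEnd ℂ) F := by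
  have h2 := congrArg (starRingEnd ℂ) h.s2
  simp only [map_add, map_mul, map_neg] at h2
  have e : -((starRingEnd ℂ) F) = (starRingEnd ℂ) z₀ * (starRingEnd ℂ) z₁ + (starRingEnd ℂ) z₀ * (starRingEnd ℂ) z₂ + (starRingEnd ℂ) z₁ * (starRingEnd ℂ) z₂ := h2.symm
  have e' : (starRingEnd ℂ) F = -((starRingEnd ℂ) z₀ * (starRingEnd ℂ) z₁ + (starRingEnd ℂ) z₀ * (starRingEnd ℂ) z₂ + (starRingEnd ℂ) z₁ * (starRingEnd ℂ) z₂) := by rw [← e]; ring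
  rw [e']
  linear_combination (-z₂ * (z₁ * (starRingEnd ℂ) z₁)) * h.cj0 - z₂ * h.cj1 - z₁ * (z₂ * (starRingEnd ℂ) z₂) * h.cj0 - z₁ * h.cj2 -
    z₀ * (z₂ * (starRingEnd ℂ) z₂) * h.cj1 - z₀ * h.cj2

lemma Tz.G_eq (h : Tz F z₀ z₁ z₂) : Gc z₀ z₁ z₂ = - (z₀ * z₁ * z₂) * (starRingEnd ℂ) F / 3 := by
  unfold Gc; rw [h.s1]

/-- `F = 3 (P R - G²)` -/
lemma Tz.F_eq (h : Tz F z₀ z₁ z₂) : F = 3 * (Pc z₀ z₁ z₂ * Rc z₀ z₁ z₂ - Gc z₀ z₁ z₂ ^ 2) := by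
  have e : F = -(z₀ * z₁ + z₀ * z₂ + z₁ * z₂) := by rw [h.s2]; ring
  rw [e]
  unfold Pc Rc Gc
  have a1 := ω_mul_cj
  have a2 := ω_sq
  have a3 := cjω_sq
  have a4 := ω_sum
  linear_combination (-(z₁ ^ 2 + z₂ ^ 2) / 3) * a1 - (z₁ * z₂ / 3) * a2 - (z₁ * z₂ / 3) * a3 -
    ((z₀ * z₁ + z₀ * z₂ + z₁ * z₂) / 3) * a4

/-- Parseval -/
lemma Tz.parseval (h : Tz F z₀ z₁ z₂) :
    ‖Pc z₀ z₁ z₂‖ ^ 2 + ‖Rc z₀ z₁ z₂‖ ^ 2 + ‖Gc z₀ z₁ z₂‖ ^ 2 = 1 := by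
  have e : (((‖Pc z₀ z₁ z₂‖ ^ 2 + ‖Rc z₀ z₁ z₂‖ ^ 2 + ‖Gc z₀ z₁ z₂‖ ^ 2 : ℝ)) : ℂ) = 1 := by
    push_cast
    rw [nsq', nsq', nsq']
    unfold Pc Rc Gc
    simp only [map_add, map_mul, map_div₀, map_ofNat, Complex.conj_conj]
    have a1 := ω_mul_cj
    have a2 := ω_sq
    have a3 := cjω_sq
    have a4 := ω_sum
    linear_combination (1 / 3) * h.cj0 + (1 / 3) * h.cj1 + (1 / 3) * h.cj2 +
      (2 * (z₁ * (starRingEnd ℂ) z₁ + z₂ * (starRingEnd ℂ) z₂) / 9) * a1 +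
      ((z₁ * (starRingEnd ℂ) z₂ + z₂ * (starRingEnd ℂ) z₁) / 9) * (a2 + a3) +
      ((z₀ * (starRingEnd ℂ) z₁ + z₀ * (starRingEnd ℂ) z₂ + z₁ * (starRingEnd ℂ) z₀ + z₂ * (starRingEnd ℂ) z₀) / 9 + (z₁ * (starRingEnd ℂ) z₂ + z₂ * (starRingEnd ℂ) z₁) / 9 ) * a4
  exact_mod_cast e

end Tz

end Pool.Agent.Pon30
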