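import Pool.Agent.Pon30.StmtsP34
import Pool.Agent.Pon30.Basic

/-!
# Row AB of MP_02df19_gt: the simplified coefficients
-/

set_option autoImplicit false

namespace Pool.Agent.Pon30

open Complex

lemma ab_a37 {κ s t z w n : ℂ} (hn : n ≠ 0) (hd : 1 - z * w ≠ 0) (he : 1 - s * t ≠ 0) (ha : 1 - z ^ 3 ≠ 0) :
    (-(1 - κ) * ((1 - s * w) * (n / (1 - z * w) ^ 2)) * (3 * (w - z ^ 2) / (1 - z ^ 3)) / 3 +
      κ * ((1 - s * w) * (n / (1 - z * w) ^ 2)) * ((t - w) * (n / (1 - z * w) ^ 2)) *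
        ((1 - s * w) * (n / (1 - z * w) ^ 2) + (3 * (w - z ^ 2) / (1 - z ^ 3)) * ((s - z) * (n / (1 - z * w) ^ 2))) /
        (((1 - s * w) * (n / (1 - z * w) ^ 2)) * ((1 - t * z) * (n / (1 - z * w) ^ 2)) -
          ((s - z) * (n / (1 - z * w) ^ 2)) * ((t - w) * (n / (1 - z * w) ^ 2)))) * ((1 - z ^ 3) / n) =
    -(1 - κ) * (1 - s * w) * (w - z ^ 2) / (1 - z * w) ^ 2 +
      κ * (1 - s * w) * (t - w) * ((1 - s * w) * (1 - z ^ 3) + 3 * (w - z ^ 2) * (s - z)) /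
        ((1 - s * t) * (1 - z * w) ^ 3) := by
  have hden : ((1 - s * w) * (n / (1 - z * w) ^ 2)) * ((1 - t * z) * (n / (1 - z * w) ^ 2)) -
      ((s - z) * (n / (1 - z * w) ^ 2)) * ((t - w) * (n / (1 - z * w) ^ 2)) =
      (n / (1 - z * w) ^ 2) ^ 2 * ((1 - s * t) * (1 - z * w)) := by ring
  rw [hden]
  field_simp

lemma ab_b37 {κ s t z w n : ℂ} (hn : n ≠ 0) (hd : 1 - z * w ≠ 0) (he : 1 - s * t ≠ 0) (hb : 1 - w ^ 3 ≠ 0) :
    (-(1 - κ) * ((s - z) * (n / (1 - z * w) ^ 2)) * (3 * (z - w ^ 2) / (1 - w ^ 3)) / 3 -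
      κ * ((1 - t * z) * (n / (1 - z * w) ^ 2)) * ((s - z) * (n / (1 - z * w) ^ 2)) *
        ((s - z) * (n / (1 - z * w) ^ 2) + (3 * (z - w ^ 2) / (1 - w ^ 3)) * ((1 - s * w) * (n / (1 - z * w) ^ 2))) /
        (((1 - s * w) * (n / (1 - z * w) ^ 2)) * ((1 - t * z) * (n / (1 - z * w) ^ 2)) -
          ((s - z) * (n / (1 - z * w) ^ 2)) * ((t - w) * (n / (1 - z * w) ^ 2)))) * ((1 - w ^ 3) / n) =
    -(1 - κ) * (s - z) * (z - w ^ 2) / (1 - z * w) ^ 2 -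
      κ * (1 - t * z) * (s - z) * ((s - z) * (1 - w ^ 3) + 3 * (z - w ^ 2) * (1 - s * w)) /
        ((1 - s * t) * (1 - z * w) ^ 3) := by
  have hden : ((1 - s * w) * (n / (1 - z * w) ^ 2)) * ((1 - t * z) * (n / (1 - z * w) ^ 2)) -
      ((s - z) * (n / (1 - z * w) ^ 2)) * ((t - w) * (n / (1 - z * w) ^ 2)) =
      (n / (1 - z * w) ^ 2) ^ 2 * ((1 - s * t) * (1 - z * w)) := by ring
  rw [hden]
  field_simp

lemma one_sub_ne37 {z : ℂ} (hz : ‖z‖ < 1) : (1 : ℂ) - z ≠ 0 := by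
  intro h
  have : z = 1 := by linear_combination - h
  rw [this, norm_one] at hz
  exact lt_irrefl _ hz

/-- Row AB -/
theorem abP37 : AbP := by
  intro κ s ζ hs hζ
  have hζ1 : ‖ζ‖ < 1 := by linarith
  have h3 : (1 : ℂ) - ζ ^ 3 ≠ 0 := one_sub_ne37 (by
    rw [norm_pow]
    exact pow_lt_one₀ (norm_nonneg _) hζ1 (by norm_num))
  have h3' : (1 : ℂ) - (starRingEnd ℂ) ζ ^ 3 ≠ 0 := one_sub_ne37 (by
    rw [norm_pow, norm_conj]
    exact pow_lt_one₀ (norm_nonneg _) hζ1 (by norm_num))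
  have hd : (1 : ℂ) - ζ * (starRingEnd ℂ) ζ ≠ 0 := one_sub_ne37 (by
    rw [norm_mul, norm_conj]
    nlinarith [norm_nonneg ζ])
  have he : (1 : ℂ) - s * (starRingEnd ℂ) s ≠ 0 := one_sub_ne37 (by
    rw [norm_mul, norm_conj]
    nlinarith [norm_nonneg s])
  have hn : ((‖1 - ζ ^ 3‖ : ℝ) : ℂ) ≠ 0 := by
    exact_mod_cast (norm_pos_iff.2 h3).ne'
  have hK : ((Kz ζ : ℝ) : ℂ) = ((‖1 - ζ ^ 3‖ : ℝ) : ℂ) / (1 - ζ * (starRingEnd ℂ) ζ) ^ 2 := by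
    unfold Kz
    rw [Complex.ofReal_div, Complex.ofReal_pow, Complex.ofReal_sub, nsq, Complex.ofReal_one]
  have cF : (starRingEnd ℂ) (Fz ζ) = 3 * ((starRingEnd ℂ) ζ - ζ ^ 2) / (1 - ζ ^ 3) := by
    unfold Fz
    simp only [map_div₀, map_mul, map_sub, map_pow, map_one, map_ofNat, Complex.conj_conj]
  have cp : (starRingEnd ℂ) (pz s ζ) = (1 - (starRingEnd ℂ) s * ζ) * ((Kz ζ : ℝ) : ℂ) := by
    unfold pz
    simp only [map_mul, map_sub, map_one, Complex.conj_conj, Complex.conj_ofReal]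
  have cq : (starRingEnd ℂ) (qz s ζ) = ((starRingEnd ℂ) s - (starRingEnd ℂ) ζ) * ((Kz ζ : ℝ) : ℂ) := by
    unfold qz
    simp only [map_mul, map_sub, Complex.conj_ofReal]
  have cl : (starRingEnd ℂ) (lz ζ) = (1 - (starRingEnd ℂ) ζ ^ 3) / ((‖1 - ζ ^ 3‖ : ℝ) : ℂ) := by
    unfold lz
    simp only [map_div₀, map_sub, map_pow, map_one, Complex.conj_ofReal]
  constructor
  · unfold aκ Aκ
    rw [cF, cp, cq]
    unfold pz qz lz
    rw [hK]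
    exact ab_a37 hn hd he h3
  · unfold bκ Bκ
    rw [cp, cq, cl]
    unfold pz qz Fz
    rw [hK]
    exact ab_b37 hn hd he h3'

end Pool.Agent.Pon30
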