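import Mathlib

/-!
# MP_02df19_gt, arbitrary centre functions (helper46): three lemmas on functions of one real variable
-/

set_option autoImplicit false

namespace Pool.Agent.Pon30

open Filter Topology

/-- one step of the growth lemma -/
private lemma growth_step46 (B δ D η x y a a' : ℝ) (hδ : 0 < δ) (hη : 0 < η) (hBδ : B * δ = 4 * η) (hD : 1 ≤ D)
    (hDη : D * η = 1 / 200) (hDδ : D * δ ≤ η / 10) (hx : 0 < x) (hxδ : 3 * x < δ)
    (hy1 : y ≤ 2 * x + D * x ^ 2) (hy2 : 2 * x - D * x ^ 2 ≤ y) (ha : 0 ≤ a) (haη : a ≤ η) (ha' : 0 ≤ a')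
    (haη' : a' ≤ η) (hB' : a' ≤ B * (y - y ^ 2 / (4 * δ))) (hr : 2 * a ≤ a' + D * (x ^ 2 + a ^ 2 + a' ^ 2)) :
    a ≤ B * (x - x ^ 2 / (4 * δ)) := by
  have hB : 0 < B := by
    by_contra h
    have h1 : B ≤ 0 := not_lt.mp h
    have h2 : B * δ ≤ 0 := mul_nonpos_of_nonpos_of_nonneg h1 hδ.le
    linarith
  have hη1 : η ≤ 1 / 200 := by
    have : 1 * η ≤ D * η := by gcongr
    linarith
  have hDx : D * x ≤ 1 / 2000 := by
    have : D * x ≤ D * δ := by gcongr; linarith
    linarith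
  have hDx2 : D * x ^ 2 ≤ 1 / 2000 * x := by
    have : D * x * x ≤ 1 / 2000 * x := by gcongr
    linarith
  have u4 : y ≤ 21 / 10 * x := by linarith
  have u5 : 19 / 10 * x ≤ y := by linarith
  have hBx : 0 < B * x := mul_pos hB hx
  have ha'B : a' ≤ 21 / 10 * (B * x) := by
    have h6 : 0 ≤ y ^ 2 / (4 * δ) := by positivity
    have h7 : B * (y - y ^ 2 / (4 * δ)) ≤ B * (21 / 10 * x) := by
      gcongr
      linarith
    linarith
  -- first bound
  have b1 : a ≤ 3 / 2 * (B * x) := by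
    have h7 : D * a ^ 2 ≤ 1 / 200 * a := by
      have : D * a * a ≤ D * η * a := by gcongr
      rw [hDη] at this
      linarith
    have h8 : D * a' ^ 2 ≤ 1 / 200 * a' := by
      have : D * a' * a' ≤ D * η * a' := by gcongr
      rw [hDη] at this
      linarith
    have h9 : D * x ^ 2 ≤ 1 / 100 * (B * x) := by
      have h12 : D * δ ≤ 1 / 100 * B := by
        have h11 : D * δ * δ ≤ 1 / 100 * (B * δ) := by
          rw [hBδ]
          have h13 : D * δ * δ ≤ η / 10 * δ := by gcongr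
          have h14 : δ ≤ 1 / 100 := by
            have : 1 * δ ≤ D * δ := by gcongr
            linarith
          have h15 : η / 10 * δ ≤ η / 10 * (1 / 100) := by gcongr
          linarith
        exact le_of_mul_le_mul_right (by linarith) hδ
      have h16 : D * x ≤ 1 / 100 * B := by
        have : D * x ≤ D * δ := by gcongr; linarith
        linarith
      have h17 : D * x * x ≤ 1 / 100 * B * x := by gcongr
      linarith
    linarith
  have b2 : a ^ 2 ≤ 9 / 4 * (B * x) ^ 2 := by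
    have : a ^ 2 ≤ (3 / 2 * (B * x)) ^ 2 := pow_le_pow_left₀ ha b1 2
    linarith
  have b3 : a' ^ 2 ≤ 441 / 100 * (B * x) ^ 2 := by
    have : a' ^ 2 ≤ (21 / 10 * (B * x)) ^ 2 := pow_le_pow_left₀ ha' ha'B 2
    linarith
  have b4 : a ≤ 1 / 2 * a' + D / 2 * (1 + 7 * B ^ 2) * x ^ 2 := by
    have h1 : x ^ 2 + a ^ 2 + a' ^ 2 ≤ (1 + 7 * B ^ 2) * x ^ 2 := by
      have : 0 ≤ (B * x) ^ 2 := by positivity
      linarith
    have h2 : D * (x ^ 2 + a ^ 2 + a' ^ 2) ≤ D * ((1 + 7 * B ^ 2) * x ^ 2) := by gcongr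
    linarith
  -- comparison of the two majorants
  have hx2 : 0 < x ^ 2 := by positivity
  have c1 : 1 / 2 * (y - y ^ 2 / (4 * δ)) + (161 / 800 / δ - D / 2) * x ^ 2 ≤ x - x ^ 2 / (4 * δ) := by
    have hy3 : (361 / 100) * x ^ 2 ≤ y ^ 2 := by
      have : (19 / 10 * x) ^ 2 ≤ y ^ 2 := pow_le_pow_left₀ (by positivity) u5 2
      linarith
    have e2 : (361 / 100 * x ^ 2) / (4 * δ) ≤ y ^ 2 / (4 * δ) := by gcongr
    have e3 : (361 / 100 * x ^ 2) / (4 * δ) = 361 / 400 * (x ^ 2 / δ) := by field_simp; ring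
    have e4 : x ^ 2 / (4 * δ) = 1 / 4 * (x ^ 2 / δ) := by field_simp
    have e5 : (161 / 800 / δ - D / 2) * x ^ 2 = 161 / 800 * (x ^ 2 / δ) - D / 2 * x ^ 2 := by field_simp
    rw [e3] at e2
    rw [e4, e5]
    linarith
  have c2 : D / 2 * (1 + 7 * B ^ 2) ≤ B * (161 / 800 / δ - D / 2) := by
    have hd2 : 0 < δ ^ 2 := by positivity
    have e1 : B * (161 / 800 / δ - D / 2) * δ ^ 2 = (B * δ) * (161 / 800 - D / 2 * δ) := by
      field_simp
    have e2 : D / 2 * (1 + 7 * B ^ 2) * δ ^ 2 = D / 2 * δ ^ 2 + 7 * D / 2 * (B * δ) ^ 2 := by ring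
    have e3 : D / 2 * (1 + 7 * B ^ 2) * δ ^ 2 ≤ B * (161 / 800 / δ - D / 2) * δ ^ 2 := by
      rw [e1, e2, hBδ]
      have k1 : D / 2 * δ ^ 2 ≤ 1 / 20 * η * δ := by
        have : D * δ * δ ≤ η / 10 * δ := by gcongr
        linarith
      have k2 : 7 * D / 2 * (4 * η) ^ 2 = 56 * (D * η) * η := by ring
      have k3 : δ ≤ 1 / 100 := by
        have : 1 * δ ≤ D * δ := by gcongr
        linarith
      have k4 : 1 / 20 * η * δ ≤ 1 / 20 * η * (1 / 100) := by gcongr
      have k5 : 4 * η * (D / 2 * δ) ≤ 4 * η * (1 / 1000) := by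
        gcongr
        linarith
      rw [k2, hDη]
      linarith
    exact le_of_mul_le_mul_right e3 hd2
  calc a ≤ 1 / 2 * a' + D / 2 * (1 + 7 * B ^ 2) * x ^ 2 := b4
    _ ≤ 1 / 2 * (B * (y - y ^ 2 / (4 * δ))) + (B * (161 / 800 / δ - D / 2)) * x ^ 2 := by
        gcongr
    _ = B * (1 / 2 * (y - y ^ 2 / (4 * δ)) + (161 / 800 / δ - D / 2) * x ^ 2) := by ring
    _ ≤ B * (x - x ^ 2 / (4 * δ)) := by gcongr

/-- growth: `M (U v) + 2 M v` is of second order and `U v` is close to `-2 v`; then `M v = O(v)` -/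
theorem growth46 (M U : ℝ → ℝ) (C ρ : ℝ) (hC : 0 ≤ C) (hρ : 0 < ρ) (hM : Tendsto M (𝓝 0) (𝓝 0))
    (hU : ∀ v, |v| < ρ → |U v + 2 * v| ≤ C * v ^ 2)
    (hrel : ∀ v, |v| < ρ → |M (U v) + 2 * M v| ≤ C * (v ^ 2 + M v ^ 2 + M (U v) ^ 2)) :
    ∃ K > 0, ∃ δ > 0, ∀ v, |v| < δ → |M v| ≤ K * |v| := by
  -- replace `C` by `D = C + 1`
  set D : ℝ := C + 1 with hD
  have hD1 : 1 ≤ D := by linarith
  have hU' : ∀ v, |v| < ρ → |U v + 2 * v| ≤ D * v ^ 2 := fun v hv =>
    (hU v hv).trans (by nlinarith [sq_nonneg v])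
  have hrel' : ∀ v, |v| < ρ → |M (U v) + 2 * M v| ≤ D * (v ^ 2 + M v ^ 2 + M (U v) ^ 2) := fun v hv =>
    (hrel v hv).trans (by
      have : 0 ≤ v ^ 2 + M v ^ 2 + M (U v) ^ 2 := by positivity
      nlinarith)
  set η : ℝ := 1 / (200 * D) with hη
  have hη0 : 0 < η := by positivity
  have hDη : D * η = 1 / 200 := by rw [hη]; field_simp
  obtain ⟨δ₁, hδ₁, hMη⟩ : ∃ δ₁ > 0, ∀ v : ℝ, |v| < δ₁ → |M v| < η := by
    obtain ⟨d, hd, h⟩ := Metric.tendsto_nhds_nhds.mp hM η hη0
    refine ⟨d, hd, fun v hv => ?_⟩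
    have := h (x := v) (by rw [Real.dist_eq, sub_zero]; exact hv)
    rwa [Real.dist_eq, sub_zero] at this
  set δ : ℝ := min (min (δ₁ / 2) (ρ / 2)) (η / (10 * D)) with hδ
  have hδ0 : 0 < δ := by positivity
  have hδa : δ < δ₁ := by
    have : δ ≤ δ₁ / 2 := (min_le_left _ _).trans (min_le_left _ _)
    linarith
  have hδb : δ < ρ := by
    have : δ ≤ ρ / 2 := (min_le_left _ _).trans (min_le_right _ _)
    linarith
  have hδc : D * δ ≤ η / 10 := by
    have h1 : δ ≤ η / (10 * D) := min_le_right _ _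
    calc D * δ ≤ D * (η / (10 * D)) := by gcongr
      _ = η / 10 := by field_simp
  have hη1 : η ≤ 1 / 200 := by
    nlinarith
  have hDδ : D * δ ≤ 1 / 2000 := by linarith
  have hδη : δ ≤ η / 10 := by nlinarith
  set B : ℝ := 4 * η / δ with hB
  have hB0 : 0 < B := by positivity
  have hBδ : B * δ = 4 * η := by rw [hB]; field_simp
  have key : ∀ n : ℕ, ∀ v : ℝ, v ≠ 0 → |v| ≤ δ → δ ≤ 3 * |v| * (19 / 10) ^ n →
      |M v| ≤ B * (|v| - |v| ^ 2 / (4 * δ)) := by
    intro n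
    induction n with
    | zero =>
      intro v _ hv h3
      rw [pow_zero, mul_one] at h3
      have h1 : |M v| ≤ η := (hMη v (by linarith)).le
      have h2 : |v| ^ 2 / (4 * δ) ≤ |v| / 4 := by
        rw [div_le_iff₀ (by positivity)]
        nlinarith [abs_nonneg v]
      have h4 : η ≤ B * (3 / 4 * |v|) := by nlinarith [hBδ, hB0]
      calc |M v| ≤ η := h1
        _ ≤ B * (3 / 4 * |v|) := h4
        _ ≤ B * (|v| - |v| ^ 2 / (4 * δ)) := by
            apply mul_le_mul_of_nonneg_left _ hB0.le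
            linarith
    | succ n ih =>
      intro v hv0 hv h3
      by_cases hcase : δ ≤ 3 * |v|
      · have h1 : |M v| ≤ η := (hMη v (by linarith)).le
        have h2 : |v| ^ 2 / (4 * δ) ≤ |v| / 4 := by
          rw [div_le_iff₀ (by positivity)]
          nlinarith [abs_nonneg v]
        have h4 : η ≤ B * (3 / 4 * |v|) := by nlinarith [hBδ, hB0]
        calc |M v| ≤ η := h1
          _ ≤ B * (3 / 4 * |v|) := h4
          _ ≤ B * (|v| - |v| ^ 2 / (4 * δ)) := by
              apply mul_le_mul_of_nonneg_left _ hB0.le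
              linarith
      · push Not at hcase
        have hvp : 0 < |v| := abs_pos.mpr hv0
        have hvρ : |v| < ρ := by linarith
        have u1 := hU' v hvρ
        rw [← sq_abs v] at u1
        have u2 : |U v| ≤ 2 * |v| + D * |v| ^ 2 := by
          have : |U v| ≤ |U v + 2 * v| + |2 * v| := by
            calc |U v| = |(U v + 2 * v) - 2 * v| := by ring_nf
              _ ≤ _ := abs_sub _ _
          rw [abs_mul, abs_two] at this
          linarith
        have u3 : 2 * |v| - D * |v| ^ 2 ≤ |U v| := by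
          have : |2 * v| ≤ |U v + 2 * v| + |U v| := by
            calc |2 * v| = |(U v + 2 * v) - U v| := by ring_nf
              _ ≤ _ := abs_sub _ _
          rw [abs_mul, abs_two] at this
          linarith
        have hDv : D * |v| ≤ 1 / 2000 := by nlinarith
        have u4 : |U v| ≤ 21 / 10 * |v| := by nlinarith
        have u5 : 19 / 10 * |v| ≤ |U v| := by nlinarith
        have hUδ : |U v| ≤ δ := by linarith
        have hU0 : U v ≠ 0 := by
          rw [← abs_pos]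
          linarith
        have hpow : (0 : ℝ) < (19 / 10) ^ n := by positivity
        have h5 : δ ≤ 3 * |U v| * (19 / 10) ^ n := by
          calc δ ≤ 3 * |v| * (19 / 10) ^ (n + 1) := h3
            _ = 3 * (19 / 10 * |v|) * (19 / 10) ^ n := by ring
            _ ≤ 3 * |U v| * (19 / 10) ^ n := by gcongr
        have ha' := ih (U v) hU0 hUδ h5
        have hr := hrel' v hvρ
        rw [← sq_abs v, ← sq_abs (M v), ← sq_abs (M (U v))] at hr
        have hr2 : 2 * |M v| ≤ |M (U v)| + D * (|v| ^ 2 + |M v| ^ 2 + |M (U v)| ^ 2) := by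
          have : |2 * M v| ≤ |M (U v) + 2 * M v| + |M (U v)| := by
            calc |2 * M v| = |(M (U v) + 2 * M v) - M (U v)| := by ring_nf
              _ ≤ _ := abs_sub _ _
          rw [abs_mul, abs_two] at this
          linarith
        exact growth_step46 B δ D η |v| |U v| |M v| |M (U v)| hδ0 hη0 hBδ hD1 hDη hδc hvp hcase u2 u3
          (abs_nonneg _) (hMη v (by linarith)).le (abs_nonneg _) (hMη (U v) (by linarith)).le ha' hr2
  refine ⟨B, hB0, δ, hδ0, fun v hv => ?_⟩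
  by_cases hv0 : v = 0
  · rw [hv0]
    have h0 : M 0 = 0 := by
      by_contra hne
      have := (hM.eventually_ne (Ne.symm hne)).self_of_nhds
      exact this rfl
    rw [h0]
    simp
  · have hvp : 0 < |v| := abs_pos.mpr hv0
    obtain ⟨n, hn⟩ := pow_unbounded_of_one_lt (δ / (3 * |v|)) (by norm_num : (1 : ℝ) < 19 / 10)
    have h1 : δ ≤ 3 * |v| * (19 / 10) ^ n := by
      rw [div_lt_iff₀ (by positivity)] at hn
      linarith
    have h2 := key n v hv0 hv.le h1
    have h3 : 0 ≤ |v| ^ 2 / (4 * δ) := by positivity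
    nlinarith

/-- telescoping along a contraction -/
theorem tele46 (g V : ℝ → ℝ) (hg : Tendsto g (𝓝[≠] 0) (𝓝 0)) (ρ ε : ℝ) (hε : 0 ≤ ε)
    (hV : ∀ v, v ≠ 0 → |v| < ρ → V v ≠ 0 ∧ |V v| ≤ 3 / 4 * |v|)
    (h : ∀ v, v ≠ 0 → |v| < ρ → |g v - g (V v)| ≤ ε * |v|) :
    ∀ v, v ≠ 0 → |v| < ρ → |g v| ≤ 4 * ε * |v| := by
  have key : ∀ n : ℕ, ∀ v, v ≠ 0 → |v| < ρ → V^[n] v ≠ 0 ∧ |V^[n] v| ≤ (3 / 4) ^ n * |v| ∧
      |g v| ≤ 4 * ε * (|v| - |V^[n] v|) + |g (V^[n] v)| := by
    intro n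
    induction n with
    | zero =>
      intro v hv _
      simp [hv]
    | succ n ih =>
      intro v hv hvρ
      obtain ⟨h1, h2⟩ := hV v hv hvρ
      have h3 : |V v| < ρ := by linarith [abs_nonneg v]
      obtain ⟨i1, i2, i3⟩ := ih (V v) h1 h3
      rw [Function.iterate_succ_apply]
      refine ⟨i1, ?_, ?_⟩
      · calc |V^[n] (V v)| ≤ (3 / 4) ^ n * |V v| := i2
          _ ≤ (3 / 4) ^ n * (3 / 4 * |v|) := by gcongr
          _ = _ := by ring
      · have h4 := h v hv hvρ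
        have h5 : |g v| ≤ |g v - g (V v)| + |g (V v)| := by
          calc |g v| = |(g v - g (V v)) + g (V v)| := by ring_nf
            _ ≤ _ := abs_add_le _ _
        nlinarith
  intro v hv hvρ
  have t1 : Tendsto (fun n => V^[n] v) atTop (𝓝[≠] 0) := by
    rw [tendsto_nhdsWithin_iff]
    refine ⟨?_, Eventually.of_forall fun n => (key n v hv hvρ).1⟩
    rw [tendsto_zero_iff_abs_tendsto_zero]
    have : Tendsto (fun n : ℕ => ((3 : ℝ) / 4) ^ n * |v|) atTop (𝓝 (0 * |v|)) :=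
      (tendsto_pow_atTop_nhds_zero_of_lt_one (by norm_num) (by norm_num)).mul_const _
    rw [zero_mul] at this
    exact squeeze_zero (fun n => abs_nonneg _) (fun n => (key n v hv hvρ).2.1) this
  have t2 : Tendsto (fun n => 4 * ε * |v| + |g (V^[n] v)|) atTop (𝓝 (4 * ε * |v| + |0|)) :=
    tendsto_const_nhds.add (hg.comp t1).abs
  rw [abs_zero, add_zero] at t2
  refine ge_of_tendsto t2 (Eventually.of_forall fun n => ?_)
  have h1 := (key n v hv hvρ).2.2
  have h2 : 0 ≤ |V^[n] v| := abs_nonneg _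
  nlinarith

/-- a bounded continuous function which asymptotically solves a quadratic equation converges -/
theorem quad46 (k : ℝ → ℝ) (a b c δ B : ℝ) (ha : a ≠ 0) (hδ : 0 < δ) (hk : ContinuousOn k (Set.Ioo 0 δ))
    (hB : ∀ v ∈ Set.Ioo 0 δ, |k v| ≤ B)
    (h : Tendsto (fun v => a * k v ^ 2 + b * k v + c) (𝓝[>] 0) (𝓝 0)) :
    ∃ κ, Tendsto k (𝓝[>] 0) (𝓝 κ) := by
  have hmem : ∀ᶠ v in 𝓝[>] (0 : ℝ), v ∈ Set.Ioo 0 δ := Ioo_mem_nhdsGT hδ
  obtain ⟨κ, -, hκ⟩ : ∃ κ ∈ Set.Icc (-B) B, ClusterPt κ (map k (𝓝[>] 0)) := by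
    apply isCompact_Icc.exists_clusterPt
    rw [le_principal_iff, mem_map]
    filter_upwards [hmem] with v hv
    exact abs_le.mp (hB v hv)
  refine ⟨κ, ?_⟩
  by_contra hnot
  -- some `ε` is exceeded frequently
  rw [Metric.tendsto_nhds] at hnot
  push Not at hnot
  obtain ⟨ε, hε, hfr⟩ := hnot
  -- every `y` in `(0, ε)` is a value of `|k - κ|` frequently
  have hroot : ∀ y, 0 < y → y < ε → a * (κ + y) ^ 2 + b * (κ + y) + c = 0 ∨ a * (κ - y) ^ 2 + b * (κ - y) + c = 0 := by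
    intro y hy0 hyε
    have hfreq : ∃ᶠ v in 𝓝[>] (0 : ℝ), |k v - κ| = y := by
      rw [Filter.frequently_iff]
      intro W hW
      obtain ⟨u, hu, huW⟩ := mem_nhdsGT_iff_exists_Ioo_subset.mp (inter_mem hW hmem)
      have hu0 : (0 : ℝ) < u := hu
      have hW' : Set.Ioo 0 u ∈ 𝓝[>] (0 : ℝ) := Ioo_mem_nhdsGT hu0
      obtain ⟨v₁, hv₁, h1⟩ := (Filter.frequently_iff.mp hfr) hW'
      have hcl := clusterPt_iff_frequently.mp hκ (Metric.ball κ y) (Metric.ball_mem_nhds κ hy0)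
      rw [frequently_map] at hcl
      obtain ⟨v₂, hv₂, h2⟩ := (Filter.frequently_iff.mp hcl) hW'
      rw [Metric.mem_ball, Real.dist_eq] at h2
      rw [Real.dist_eq] at h1
      have hsub : Set.uIcc v₁ v₂ ⊆ Set.Ioo 0 u := Set.OrdConnected.uIcc_subset Set.ordConnected_Ioo hv₁ hv₂
      have hc : ContinuousOn (fun v => |k v - κ|) (Set.uIcc v₁ v₂) := by
        have : ContinuousOn k (Set.uIcc v₁ v₂) := hk.mono fun x hx => (huW (hsub hx)).2
        exact (this.sub continuousOn_const).abs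
      obtain ⟨v, hv, hvy⟩ := intermediate_value_uIcc hc (by
        rw [Set.mem_uIcc]
        right
        exact ⟨h2.le, by linarith⟩ : y ∈ Set.uIcc |k v₁ - κ| |k v₂ - κ|)
      exact ⟨v, (huW (hsub hv)).1, hvy⟩
    have hfr2 : ∃ᶠ v in 𝓝[>] (0 : ℝ), k v = κ + y ∨ k v = κ - y := by
      refine hfreq.mono fun v hv => ?_
      rcases (abs_eq hy0.le).mp hv with h1 | h1
      · left; linarith
      · right; linarith
    rw [frequently_or_distrib] at hfr2
    have hval : ∀ x : ℝ, (∃ᶠ v in 𝓝[>] (0 : ℝ), k v = x) → a * x ^ 2 + b * x + c = 0 := by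
      intro x hx
      by_contra hne
      have h1 := h.eventually_ne (Ne.symm hne)
      obtain ⟨v, hv1, hv2⟩ := (hx.and_eventually h1).exists
      rw [hv1] at hv2
      exact hv2 rfl
    rcases hfr2 with h1 | h1
    · exact Or.inl (hval _ h1)
    · exact Or.inr (hval _ h1)
  -- three different roots
  have hthree : ∀ x y z : ℝ, x ≠ y → y ≠ z → x ≠ z → a * x ^ 2 + b * x + c = 0 → a * y ^ 2 + b * y + c = 0 →
      a * z ^ 2 + b * z + c = 0 → False := by
    intro x y z hxy hyz hxz h1 h2 h3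
    have e1 : (x - y) * (a * (x + y) + b) = 0 := by linear_combination h1 - h2
    have e2 : (x - z) * (a * (x + z) + b) = 0 := by linear_combination h1 - h3
    have f1 := (mul_eq_zero.mp e1).resolve_left (sub_ne_zero.mpr hxy)
    have f2 := (mul_eq_zero.mp e2).resolve_left (sub_ne_zero.mpr hxz)
    have f3 : a * (y - z) = 0 := by linear_combination f1 - f2
    rcases mul_eq_zero.mp f3 with h4 | h4
    · exact ha h4
    · exact hyz (sub_eq_zero.mp h4)
  have y1 := hroot (ε / 4) (by positivity) (by linarith)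
  have y2 := hroot (ε / 3) (by positivity) (by linarith)
  have y3 := hroot (ε / 2) (by positivity) (by linarith)
  rcases y1 with y1 | y1 <;> rcases y2 with y2 | y2 <;> rcases y3 with y3 | y3 <;>
    exact hthree _ _ _ (by intro hh; linarith) (by intro hh; linarith) (by intro hh; linarith) y1 y2 y3

end Pool.Agent.Pon30
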