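import Pool.Agent.Pon30.StmtsA41

/-! MP_02df19_gt (helper82): the local inverse of `U3`. -/

set_option autoImplicit false

namespace Pool.Agent.Pon30

/-- the local inverse of `U3 g` at `0` -/
theorem invU82 (g : ℝ) (hg : 0 < g) : ∃ d > 0, ∃ V : ℝ → ℝ, ∀ u : ℝ, u ≠ 0 → |u| < d →
    U3 g (V u) = u ∧ V u ≠ 0 ∧ |V u| ≤ 2 / 3 * |u| := by
  refine ⟨min (1 / 16) (g / 32), by positivity,
    fun u => -u * g / (g * (1 - 2 * u) + √((g * (1 - 2 * u)) ^ 2 + 2 * u * g)), ?_⟩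
  intro u hu hud
  have h1 : |u| < 1 / 16 := lt_of_lt_of_le hud (min_le_left _ _)
  have h2 : |u| < g / 32 := lt_of_lt_of_le hud (min_le_right _ _)
  obtain ⟨h1a, h1b⟩ := abs_lt.1 h1
  obtain ⟨h2a, h2b⟩ := abs_lt.1 h2
  set A := g * (1 - 2 * u) with hA
  have hA1 : 7 / 8 * g ≤ A := by rw [hA]; nlinarith
  have hge : (5 / 8 * g) ^ 2 ≤ A ^ 2 + 2 * u * g := by nlinarith
  set S := √(A ^ 2 + 2 * u * g) with hS
  have hS2 : S ^ 2 = A ^ 2 + 2 * u * g := Real.sq_sqrt (le_trans (by positivity) hge)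
  have hS1 : 5 / 8 * g ≤ S := by
    rw [hS]
    exact Real.le_sqrt_of_sq_le hge
  have hD : 3 / 2 * g ≤ A + S := by linarith
  have hD0 : 0 < A + S := by linarith
  show U3 g (-u * g / (A + S)) = u ∧ -u * g / (A + S) ≠ 0 ∧ |-u * g / (A + S)| ≤ 2 / 3 * |u|
  set v := -u * g / (A + S) with hv
  have hvD : v * (A + S) = -u * g := by rw [hv]; field_simp
  have habs : |v| ≤ 2 / 3 * |u| := by
    rw [hv, abs_div, abs_mul, abs_neg, abs_of_pos hg, abs_of_pos hD0, div_le_iff₀ hD0]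
    nlinarith [abs_nonneg u]
  have hquad : 2 * v ^ 2 - 2 * v * A - u * g = 0 := by
    have h3 : (A + S) ^ 2 = 2 * A * (A + S) + 2 * u * g := by linear_combination hS2
    have h4 : (2 * v ^ 2 - 2 * v * A - u * g) * (A + S) ^ 2 = 0 := by
      have h5 : v ^ 2 * (A + S) ^ 2 = u ^ 2 * g ^ 2 := by rw [← mul_pow, hvD]; ring
      linear_combination 2 * h5 - 2 * A * (A + S) * hvD - u * g * h3
    exact (mul_eq_zero.1 h4).resolve_right (pow_ne_zero _ hD0.ne')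
  refine ⟨?_, div_ne_zero (mul_ne_zero (neg_ne_zero.2 hu) hg.ne') hD0.ne', habs⟩
  have h6 : 0 < 1 - 4 * v := by
    have := (abs_le.1 habs).2
    linarith
  unfold U3
  rw [div_eq_iff (by positivity)]
  rw [hA] at hquad
  linear_combination hquad

end Pool.Agent.Pon30
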