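import Pool.Agent.Pon30.StmtsA41
import Pool.Agent.Pon30.AbsL46
import Pool.Agent.Pon30.InvU82

/-!
# MP_02df19_gt, whole ellipses: assembly of the row ABSR
-/

set_option autoImplicit false

namespace Pool.Agent.Pon30.AbsA6

open Filter Topology Set Pool.Agent.Pon30

lemma gF_neg (F : ℝ) : gF (-F) = gF F := by unfold gF; ring
lemma wF_neg (F : ℝ) : wF (-F) = wF F := by unfold wF; ring

lemma gF_pos {F : ℝ} (hF : F ≠ 0) (hF1 : |F| < 1 / 2) : 0 < gF F := by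
  have h := abs_lt.1 hF1
  have : 0 < F ^ 2 := by positivity
  unfold gF
  apply div_pos (by linarith)
  nlinarith

lemma gF_le {F : ℝ} (hF1 : |F| < 1 / 2) : gF F ≤ |F| ^ 2 / 4 := by
  have h := abs_lt.1 hF1
  have h9 : 0 < 9 - F ^ 2 := by nlinarith
  unfold gF
  rw [sq_abs, div_le_div_iff₀ h9 (by norm_num)]
  have h1 : F ^ 2 ≤ 1 := by nlinarith
  nlinarith [mul_nonneg (sq_nonneg F) (sub_nonneg.2 h1)]

lemma gF_lt {F : ℝ} (hF : F ≠ 0) (hF1 : |F| < 1 / 2) : gF F < |F| := by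
  have h := gF_le hF1
  have : 0 < |F| := abs_pos.2 hF
  nlinarith

lemma U3_zero (g : ℝ) : U3 g 0 = 0 := by simp [U3]

lemma U3_add {g v : ℝ} (hg : 0 < g) (hv : |v| < 1 / 8) :
    U3 g v + 2 * v = v ^ 2 * (2 * (1 - 4 * g) / (g * (1 - 4 * v))) := by
  have h := abs_lt.1 hv
  have h4 : 1 - 4 * v ≠ 0 := by linarith
  have hg0 : g * (1 - 4 * v) ≠ 0 := mul_ne_zero hg.ne' h4
  unfold U3
  rw [mul_div_assoc', eq_div_iff hg0, add_mul, div_mul_cancel₀ _ hg0]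
  ring

lemma U3_bd {g v : ℝ} (hg : 0 < g) (hv : |v| < 1 / 8) :
    |U3 g v + 2 * v| ≤ (4 * |1 - 4 * g| / g) * v ^ 2 := by
  have h := abs_lt.1 hv
  have h4 : 1 / 2 ≤ 1 - 4 * v := by linarith
  rw [U3_add hg hv, abs_mul, abs_of_nonneg (sq_nonneg v), mul_comm]
  apply mul_le_mul_of_nonneg_right _ (sq_nonneg v)
  rw [abs_div, abs_mul, abs_mul, abs_of_pos hg, abs_of_pos (by linarith : 0 < 1 - 4 * v),
    abs_of_pos (by norm_num : (0 : ℝ) < 2), div_le_div_iff₀ (by positivity) hg]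
  nlinarith [abs_nonneg (1 - 4 * g), mul_nonneg (abs_nonneg (1 - 4 * g)) hg.le,
    mul_le_mul_of_nonneg_left h4 (mul_nonneg (abs_nonneg (1 - 4 * g)) hg.le)]

/-- one of the two signs is good -/
lemma exF (M : ℝ → ℝ) {F : ℝ} (hF : F ≠ 0) :
    1 + M (gF F) * (3 - F) / F ≠ 0 ∨ 1 + M (gF (-F)) * (3 - -F) / (-F) ≠ 0 := by
  by_contra hcon
  push Not at hcon
  obtain ⟨h1, h2⟩ := hcon
  rw [gF_neg] at h2
  have e1 : M (gF F) * (3 - F) = -F := by
    field_simp at h1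
    linarith
  have e2 : M (gF F) * (3 + F) = F := by
    have : (1 : ℝ) + M (gF F) * (3 - -F) / (-F) = 1 - M (gF F) * (3 + F) / F := by
      rw [div_neg]; ring
    rw [this] at h2
    field_simp at h2
    linarith
  have e3 : M (gF F) = 0 := by linarith [e1, e2]
  rw [e3] at e2
  exact hF (by linarith)


section Limits

variable {g : ℝ}

lemma tq (hg : 0 < g) : Tendsto (fun v => U3 g v / v) (𝓝[≠] 0) (𝓝 (-2)) := by
  have h1 : Tendsto (fun v : ℝ => -2 * (g - v) / (g * (1 - 4 * v))) (𝓝[≠] 0)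
      (𝓝 (-2 * (g - 0) / (g * (1 - 4 * 0)))) := by
    apply Tendsto.mono_left _ nhdsWithin_le_nhds
    apply ContinuousAt.tendsto
    apply ContinuousAt.div (by fun_prop) (by fun_prop)
    simp [hg.ne']
  have e : -2 * (g - 0) / (g * (1 - 4 * 0)) = -2 := by
    field_simp
    ring
  rw [e] at h1
  refine h1.congr' ?_
  filter_upwards [self_mem_nhdsWithin] with v hv
  have hv0 : v ≠ 0 := hv
  unfold U3
  rw [div_right_comm, mul_right_comm (-2) v, mul_div_assoc _ v v, div_self hv0, mul_one]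

lemma tU (hg : 0 < g) : Tendsto (U3 g) (𝓝[≠] 0) (𝓝[≠] 0) := by
  have hid : Tendsto (fun v : ℝ => v) (𝓝[≠] 0) (𝓝 0) := nhdsWithin_le_nhds
  have h1 := (tq hg).mul hid
  rw [mul_zero] at h1
  have h2 : Tendsto (U3 g) (𝓝[≠] 0) (𝓝 0) := by
    refine h1.congr' ?_
    filter_upwards [self_mem_nhdsWithin] with v hv
    exact div_mul_cancel₀ _ hv
  rw [tendsto_nhdsWithin_iff]
  refine ⟨h2, ?_⟩
  have h3 : ∀ᶠ v in 𝓝[≠] (0 : ℝ), U3 g v / v < -1 :=
    (tq hg).eventually (gt_mem_nhds (by norm_num))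
  filter_upwards [h3] with v h
  intro h0
  have h0' : U3 g v = 0 := h0
  rw [h0', zero_div] at h
  linarith

/-- from the left to the right -/
lemma tU_left (hg : 0 < g) : Tendsto (U3 g) (𝓝[<] 0) (𝓝[>] 0) := by
  have hle : 𝓝[<] (0 : ℝ) ≤ 𝓝[≠] 0 := nhdsWithin_mono _ (fun x hx => ne_of_lt hx)
  rw [tendsto_nhdsWithin_iff]
  refine ⟨((tU hg).mono_left hle).mono_right nhdsWithin_le_nhds, ?_⟩
  have h3 : ∀ᶠ v in 𝓝[<] (0 : ℝ), U3 g v / v < -1 :=
    ((tq hg).mono_left hle).eventually (gt_mem_nhds (by norm_num))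
  filter_upwards [h3, self_mem_nhdsWithin] with v h hv
  have hv0 : v < 0 := hv
  have h4 : U3 g v = U3 g v / v * v := (div_mul_cancel₀ _ hv0.ne).symm
  show 0 < U3 g v
  rw [h4]
  nlinarith

/-- the difference quotient of `k` -/
lemma key {M : ℝ → ℝ} {v : ℝ} (hg : 0 < g) (hv0 : v ≠ 0) (hv : |v| < 1 / 8) (hq : U3 g v / v ≠ 0) :
    (M (U3 g v) / U3 g v - M v / v) / v =
      ((M (U3 g v) + 2 * M v) / v ^ 2 - (M v / v) * (2 * (1 - 4 * g) / (g * (1 - 4 * v)))) /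
        (U3 g v / v) := by
  have h1 := U3_add hg hv
  generalize 2 * (1 - 4 * g) / (g * (1 - 4 * v)) = c at h1 ⊢
  have hU : U3 g v ≠ 0 := fun h => hq (by rw [h, zero_div])
  generalize U3 g v = U at *
  have hU2 : U = v ^ 2 * c - 2 * v := by linarith
  field_simp
  rw [hU2]
  ring

lemma tc (hg : 0 < g) : Tendsto (fun v : ℝ => 2 * (1 - 4 * g) / (g * (1 - 4 * v))) (𝓝[≠] 0)
    (𝓝 (2 * (1 - 4 * g) / g)) := by
  have h1 : Tendsto (fun v : ℝ => 2 * (1 - 4 * g) / (g * (1 - 4 * v))) (𝓝[≠] 0)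
      (𝓝 (2 * (1 - 4 * g) / (g * (1 - 4 * 0)))) := by
    apply Tendsto.mono_left _ nhdsWithin_le_nhds
    apply ContinuousAt.tendsto
    apply ContinuousAt.div (by fun_prop) (by fun_prop)
    simp [hg.ne']
  simpa using h1

end Limits

lemma wF_eq {F : ℝ} (hF : F ≠ 0) (hF1 : |F| < 1 / 2) : 2 * (1 - 4 * gF F) / gF F = wF F := by
  have h := abs_lt.1 hF1
  have h9 : 9 - F ^ 2 ≠ 0 := by nlinarith
  unfold gF wF
  field_simp
  ring

noncomputable def ca (M : ℝ → ℝ) (F : ℝ) : ℝ :=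
  -(4 * (9 * (1 - F) / (4 * F ^ 3)) * F ^ 2 / (1 + M (gF F) * (3 - F) / F) ^ 2)
noncomputable def cb (M : ℝ → ℝ) (F : ℝ) : ℝ :=
  -(4 * (9 * (1 - F) / (4 * F ^ 3)) * (3 + F) * F / (1 + M (gF F) * (3 - F) / F) ^ 2)
noncomputable def cc (M : ℝ → ℝ) (F : ℝ) : ℝ :=
  9 * (1 - F) / (4 * F ^ 3) * ((3 + F) ^ 2 - (3 + F) ^ 2 / (1 + M (gF F) * (3 - F) / F) ^ 2)

lemma Xi_poly (M : ℝ → ℝ) (F k : ℝ) : XiF M F k = ca M F * k ^ 2 + cb M F * k + cc M F := by
  unfold XiF ca cb cc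
  ring

lemma ca_ne {M : ℝ → ℝ} {F : ℝ} (hF : F ≠ 0) (hF1 : |F| < 1 / 2)
    (hb : 1 + M (gF F) * (3 - F) / F ≠ 0) (hb' : 1 + M (gF (-F)) * (3 - -F) / (-F) ≠ 0) :
    ca M F - ca M (-F) ≠ 0 := by
  have h := abs_lt.1 hF1
  have e1 : ca M F - ca M (-F) = -(9 / F) * ((1 - F) / (1 + M (gF F) * (3 - F) / F) ^ 2 +
      (1 + F) / (1 + M (gF (-F)) * (3 - -F) / (-F)) ^ 2) := by
    unfold ca
    generalize 1 + M (gF F) * (3 - F) / F = B at *
    generalize 1 + M (gF (-F)) * (3 - -F) / (-F) = B' at *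
    field_simp
    ring
  rw [e1]
  apply mul_ne_zero
  · exact neg_ne_zero.2 (div_ne_zero (by norm_num) hF)
  · apply ne_of_gt
    apply add_pos
    · exact div_pos (by linarith) (by positivity)
    · exact div_pos (by linarith) (by positivity)

/-- the value at the equilateral position is not `0` for small `F` -/
lemma bnz {M : ℝ → ℝ} {K ρ F : ℝ} (hK : 0 < K) (hKb : ∀ v : ℝ, |v| < ρ → |M v| ≤ K * |v|)
    (hF : F ≠ 0) (hF1 : |F| < 1 / 2) (hFρ : |F| < ρ) (hKF : K * |F| < 1) :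
    1 + M (gF F) * (3 - F) / F ≠ 0 := by
  have h := abs_lt.1 hF1
  have hFp : 0 < |F| := abs_pos.2 hF
  have hg := gF_pos hF hF1
  have hgl := gF_lt hF hF1
  have h1 : |M (gF F)| ≤ K * gF F := by
    have := hKb (gF F) (by rw [abs_of_pos hg]; linarith)
    rwa [abs_of_pos hg] at this
  have h2 : |M (gF F) * (3 - F) / F| < 1 := by
    rw [abs_div, abs_mul, div_lt_one hFp, abs_of_pos (by linarith : 0 < 3 - F)]
    have h3 := gF_le hF1
    calc |M (gF F)| * (3 - F) ≤ (K * (|F| ^ 2 / 4)) * 4 := by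
          apply mul_le_mul (h1.trans (mul_le_mul_of_nonneg_left h3 hK.le)) (by linarith)
            (by linarith) (by positivity)
      _ = (K * |F|) * |F| := by ring
      _ < 1 * |F| := by
          apply mul_lt_mul_of_pos_right hKF hFp
      _ = |F| := one_mul _
  have := abs_lt.1 h2
  intro h0
  linarith

/-- STEP 1: linear growth -/
lemma step1 (hR : RoughA) {M : ℝ → ℝ} {ρ : ℝ} (hρ : 0 < ρ) (hc : ContinuousOn M (Ioo (-ρ) ρ))
    (h0 : M 0 = 0) (hrel : ∀ F e : ℝ, F ≠ 0 → |F| < ρ → |e| < ρ → RR M F e) :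
    ∃ K > 0, ∃ δ > 0, ∀ v : ℝ, |v| < δ → |M v| ≤ K * |v| := by
  have hM : Tendsto M (𝓝 0) (𝓝 0) := by
    have := (hc.continuousAt (Ioo_mem_nhds (by linarith) hρ)).tendsto
    rwa [h0] at this
  obtain ⟨F, hF, hFρ, hF1, hb⟩ : ∃ F : ℝ, F ≠ 0 ∧ |F| < ρ ∧ |F| < 1 / 2 ∧
      1 + M (gF F) * (3 - F) / F ≠ 0 := by
    have hm : 0 < min ρ (1 / 2) := lt_min hρ (by norm_num)
    have h1 : min ρ (1 / 2) ≤ ρ := min_le_left _ _
    have h2 : min ρ (1 / 2) ≤ 1 / 2 := min_le_right _ _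
    have hF0 : min ρ (1 / 2) / 2 ≠ 0 := by positivity
    have hab : |min ρ (1 / 2) / 2| = min ρ (1 / 2) / 2 := abs_of_pos (by positivity)
    rcases exF M hF0 with hb | hb
    · exact ⟨_, hF0, by rw [hab]; linarith, by rw [hab]; linarith, hb⟩
    · exact ⟨-(min ρ (1 / 2) / 2), neg_ne_zero.2 hF0, by rw [abs_neg, hab]; linarith,
        by rw [abs_neg, hab]; linarith, hb⟩
  have hg := gF_pos hF hF1
  have hgρ : gF F < ρ := (gF_lt hF hF1).trans hFρ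
  obtain ⟨C, hC, r, hr, h⟩ := hR M ρ F hρ hc h0 hrel hF hFρ hF1 hgρ hb
  refine growth46 M (U3 (gF F)) (max C (4 * |1 - 4 * gF F| / gF F)) (min r (1 / 8))
    (hC.le.trans (le_max_left _ _)) (lt_min hr (by norm_num)) hM ?_ ?_
  · intro v hv
    exact (U3_bd hg (hv.trans_le (min_le_right _ _))).trans
      (mul_le_mul_of_nonneg_right (le_max_right _ _) (sq_nonneg v))
  · intro v hv
    rcases eq_or_ne v 0 with rfl | hv0
    · rw [U3_zero, h0]
      simp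
    · exact (h v hv0 (hv.trans_le (min_le_left _ _))).trans
        (mul_le_mul_of_nonneg_right (le_max_left _ _) (by positivity))

/-- STEP 3: differences of `k` -/
lemma kdiff {M : ℝ → ℝ} {g K w a b c δ : ℝ} (hg : 0 < g) (hδ : 0 < δ)
    (hKb : ∀ v : ℝ, |v| < δ → |M v| ≤ K * |v|)
    (hA : Tendsto (fun v : ℝ => (M (U3 g v) + 2 * M v) / v ^ 2 -
      ((M v / v) * w + (a * (M v / v) ^ 2 + b * (M v / v) + c))) (𝓝[≠] 0) (𝓝 0)) :
    Tendsto (fun v => M (U3 g v) / U3 g v - M v / v) (𝓝[≠] 0) (𝓝 0) := by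
  have hsmall : ∀ r : ℝ, 0 < r → ∀ᶠ v in 𝓝[≠] (0 : ℝ), |v| < r := fun r hr =>
    nhdsWithin_le_nhds ((continuous_abs.tendsto' (0 : ℝ) 0 abs_zero).eventually (gt_mem_nhds hr))
  have hid : Tendsto (fun v : ℝ => v) (𝓝[≠] 0) (𝓝 0) := nhdsWithin_le_nhds
  have hkb : ∀ᶠ v in 𝓝[≠] (0 : ℝ), |M v / v| ≤ |K| := by
    filter_upwards [hsmall δ hδ, self_mem_nhdsWithin] with v hv hv0
    have hv0' : v ≠ 0 := hv0
    rw [abs_div, div_le_iff₀ (abs_pos.2 hv0')]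
    exact (hKb v hv).trans (mul_le_mul_of_nonneg_right (le_abs_self K) (abs_nonneg v))
  have hR1 : ∀ᶠ v in 𝓝[≠] (0 : ℝ), |(M (U3 g v) + 2 * M v) / v ^ 2 -
      ((M v / v) * w + (a * (M v / v) ^ 2 + b * (M v / v) + c))| < 1 := by
    have := hA.abs
    rw [abs_zero] at this
    exact this.eventually (gt_mem_nhds one_pos)
  have hc1 : ∀ᶠ v in 𝓝[≠] (0 : ℝ), |2 * (1 - 4 * g) / (g * (1 - 4 * v))| <
      |2 * (1 - 4 * g) / g| + 1 :=
    (tc hg).abs.eventually (gt_mem_nhds (by linarith))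
  have hq1 : ∀ᶠ v in 𝓝[≠] (0 : ℝ), U3 g v / v < -1 :=
    (tq hg).eventually (gt_mem_nhds (by norm_num))
  have hbd : IsBoundedUnder (· ≤ ·) (𝓝[≠] (0 : ℝ)) ((‖·‖) ∘ fun v => ((M (U3 g v) + 2 * M v) / v ^ 2 -
      (M v / v) * (2 * (1 - 4 * g) / (g * (1 - 4 * v)))) / (U3 g v / v)) := by
    refine isBoundedUnder_of_eventually_le (a := 1 + (|K| * |w| + (|a| * |K| ^ 2 + |b| * |K| + |c|)) +
      |K| * (|2 * (1 - 4 * g) / g| + 1)) ?_
    filter_upwards [hkb, hR1, hc1, hq1] with v hk hR hc hq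
    simp only [Function.comp, Real.norm_eq_abs]
    generalize M v / v = k at *
    generalize (M (U3 g v) + 2 * M v) / v ^ 2 = R at *
    generalize 2 * (1 - 4 * g) / (g * (1 - 4 * v)) = c' at *
    generalize U3 g v / v = q at *
    have hq2 : 1 ≤ |q| := by rw [abs_of_neg (by linarith)]; linarith
    rw [abs_div]
    have hnn : 0 ≤ |R - k * c'| := abs_nonneg _
    refine (div_le_self hnn hq2).trans ?_
    have e : R - k * c' = (R - (k * w + (a * k ^ 2 + b * k + c))) +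
        (k * w + (a * k ^ 2 + b * k + c)) - k * c' := by ring
    rw [e]
    have i1 : |k * w| ≤ |K| * |w| := by
      rw [abs_mul]; exact mul_le_mul_of_nonneg_right hk (abs_nonneg _)
    have i2 : |a * k ^ 2| ≤ |a| * |K| ^ 2 := by
      rw [abs_mul, abs_pow]
      exact mul_le_mul_of_nonneg_left (pow_le_pow_left₀ (abs_nonneg _) hk 2) (abs_nonneg _)
    have i3 : |b * k| ≤ |b| * |K| := by
      rw [abs_mul]; exact mul_le_mul_of_nonneg_left hk (abs_nonneg _)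
    have i4 : |k * c'| ≤ |K| * (|2 * (1 - 4 * g) / g| + 1) := by
      rw [abs_mul]
      exact mul_le_mul hk hc.le (abs_nonneg _) (abs_nonneg _)
    have j1 := abs_sub ((R - (k * w + (a * k ^ 2 + b * k + c))) +
        (k * w + (a * k ^ 2 + b * k + c))) (k * c')
    have j2 := abs_add_le (R - (k * w + (a * k ^ 2 + b * k + c)))
        (k * w + (a * k ^ 2 + b * k + c))
    have j3 := abs_add_le (k * w) (a * k ^ 2 + b * k + c)
    have j4 := abs_add_le (a * k ^ 2 + b * k) c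
    have j5 := abs_add_le (a * k ^ 2) (b * k)
    linarith
  have hlim := hid.zero_mul_isBoundedUnder_le hbd
  refine hlim.congr' ?_
  filter_upwards [hsmall (1 / 8) (by norm_num), self_mem_nhdsWithin, hq1] with v hv hv0 hq
  have hv0' : v ≠ 0 := hv0
  rw [← key hg hv0' hv (by linarith : U3 g v / v < 0).ne]
  exact mul_div_cancel₀ _ hv0'

/-- STEP 5: the limit on the right is the limit on the left -/
lemma twoside {k : ℝ → ℝ} {g κ : ℝ} (hg : 0 < g) (hr : Tendsto k (𝓝[>] 0) (𝓝 κ))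
    (hd : Tendsto (fun v => k (U3 g v) - k v) (𝓝[≠] 0) (𝓝 0)) : Tendsto k (𝓝[≠] 0) (𝓝 κ) := by
  have hle : 𝓝[<] (0 : ℝ) ≤ 𝓝[≠] 0 := nhdsWithin_mono _ (fun x hx => ne_of_lt hx)
  have h1 : Tendsto (fun v => k (U3 g v)) (𝓝[<] 0) (𝓝 κ) := hr.comp (tU_left hg)
  have h2 := h1.sub (hd.mono_left hle)
  rw [sub_zero] at h2
  have h3 : Tendsto k (𝓝[<] 0) (𝓝 κ) := h2.congr (fun v => by ring)
  rw [← nhdsLT_sup_nhdsGT]
  exact h3.sup hr

/-- STEP 6: the difference quotient -/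
lemma quot {M : ℝ → ℝ} {g w a b c κ : ℝ} (hg : 0 < g) (hw : 2 * (1 - 4 * g) / g = w)
    (hk : Tendsto (fun v => M v / v) (𝓝[≠] 0) (𝓝 κ))
    (hA : Tendsto (fun v : ℝ => (M (U3 g v) + 2 * M v) / v ^ 2 -
      ((M v / v) * w + (a * (M v / v) ^ 2 + b * (M v / v) + c))) (𝓝[≠] 0) (𝓝 0)) :
    Tendsto (fun v => (M (U3 g v) / U3 g v - M v / v) / v) (𝓝[≠] 0)
      (𝓝 (-(a * κ ^ 2 + b * κ + c) / 2)) := by
  have hsmall : ∀ r : ℝ, 0 < r → ∀ᶠ v in 𝓝[≠] (0 : ℝ), |v| < r := fun r hr =>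
    nhdsWithin_le_nhds ((continuous_abs.tendsto' (0 : ℝ) 0 abs_zero).eventually (gt_mem_nhds hr))
  have hq1 : ∀ᶠ v in 𝓝[≠] (0 : ℝ), U3 g v / v < -1 :=
    (tq hg).eventually (gt_mem_nhds (by norm_num))
  have h1 : Tendsto (fun v => (M v / v) * w + (a * (M v / v) ^ 2 + b * (M v / v) + c)) (𝓝[≠] 0)
      (𝓝 (κ * w + (a * κ ^ 2 + b * κ + c))) :=
    (hk.mul_const w).add ((((hk.pow 2).const_mul a).add (hk.const_mul b)).add_const c)
  have h2 : Tendsto (fun v => (M (U3 g v) + 2 * M v) / v ^ 2) (𝓝[≠] 0)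
      (𝓝 (κ * w + (a * κ ^ 2 + b * κ + c))) := by
    have := hA.add h1
    rw [zero_add] at this
    exact this.congr (fun v => by ring)
  have h3 := ((h2.sub (hk.mul (tc hg))).div (tq hg) (by norm_num))
  rw [hw] at h3
  have e : (κ * w + (a * κ ^ 2 + b * κ + c) - κ * w) / (-2) = -(a * κ ^ 2 + b * κ + c) / 2 := by
    ring
  rw [e] at h3
  refine h3.congr' ?_
  filter_upwards [hsmall (1 / 8) (by norm_num), self_mem_nhdsWithin, hq1] with v hv hv0 hq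
  have hv0' : v ≠ 0 := hv0
  rw [key hg hv0' hv (by linarith : U3 g v / v < 0).ne]
  rfl

/-- STEP 7: summation -/
lemma summ {k : ℝ → ℝ} {g κ X : ℝ} (hg : 0 < g) (hk : Tendsto k (𝓝[≠] 0) (𝓝 κ))
    (hd : Tendsto (fun v => (k (U3 g v) - k v) / v) (𝓝[≠] 0) (𝓝 (-X / 2))) :
    Tendsto (fun v => (k v - κ) / v) (𝓝[≠] 0) (𝓝 (X / 6)) := by
  have hid : Tendsto (fun v : ℝ => v) (𝓝[≠] 0) (𝓝 0) := nhdsWithin_le_nhds
  obtain ⟨d, hd0, V, hV⟩ := invU82 g hg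
  set G : ℝ → ℝ := fun v => k v - κ - X / 6 * v with hG
  have hG0 : Tendsto G (𝓝[≠] 0) (𝓝 0) := by
    have := (hk.sub_const κ).sub (hid.const_mul (X / 6))
    simpa using this
  have hGd : Tendsto (fun v => (G (U3 g v) - G v) / v) (𝓝[≠] 0) (𝓝 0) := by
    have h1 := hd.sub (((tq hg).sub_const 1).const_mul (X / 6))
    have e : -X / 2 - X / 6 * (-2 - 1) = 0 := by ring
    rw [e] at h1
    refine h1.congr' ?_
    filter_upwards [self_mem_nhdsWithin] with v hv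
    have hv0 : v ≠ 0 := hv
    simp only [hG]
    field_simp
    ring
  have hGo : Tendsto (fun v => G v / v) (𝓝[≠] 0) (𝓝 0) := by
    rw [Metric.tendsto_nhds]
    intro ε hε
    have h1 : ∀ᶠ v in 𝓝[≠] (0 : ℝ), |(G (U3 g v) - G v) / v| < ε / 8 := by
      have := hGd.abs
      rw [abs_zero] at this
      exact this.eventually (gt_mem_nhds (by positivity))
    rw [eventually_nhdsWithin_iff, Metric.eventually_nhds_iff] at h1
    obtain ⟨r, hr, h1⟩ := h1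
    have h2 := tele46 G V hG0 (min r d) (ε / 8) (by positivity)
      (fun v hv hvr => by
        obtain ⟨-, hv2, hv3⟩ := hV v hv (hvr.trans_le (min_le_right _ _))
        exact ⟨hv2, by linarith [abs_nonneg v]⟩)
      (fun v hv hvr => by
        obtain ⟨hv1, hv2, hv3⟩ := hV v hv (hvr.trans_le (min_le_right _ _))
        have hvr' : |v| < r := hvr.trans_le (min_le_left _ _)
        have h3 := h1 (y := V v) (by rw [Real.dist_eq, sub_zero]; linarith [abs_nonneg v]) hv2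
        rw [hv1, abs_div, div_lt_iff₀ (abs_pos.2 hv2)] at h3
        have : ε / 8 * |V v| ≤ ε / 8 * |v| :=
          mul_le_mul_of_nonneg_left (by linarith [abs_nonneg v]) (by positivity)
        linarith)
    rw [eventually_nhdsWithin_iff, Metric.eventually_nhds_iff]
    refine ⟨min r d, lt_min hr hd0, fun v hv hv0 => ?_⟩
    rw [Real.dist_eq, sub_zero] at hv
    have hv0' : v ≠ 0 := hv0
    have h3 := h2 v hv0' hv
    rw [Real.dist_eq, sub_zero, abs_div, div_lt_iff₀ (abs_pos.2 hv0')]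
    have : 0 < |v| := abs_pos.2 hv0'
    nlinarith
  have h4 := hGo.add_const (X / 6)
  rw [zero_add] at h4
  refine h4.congr' ?_
  filter_upwards [self_mem_nhdsWithin] with v hv
  have hv0 : v ≠ 0 := hv
  simp only [hG]
  field_simp
  ring

/-- the final algebra -/
lemma final {B A F κ X : ℝ} (hF : F ≠ 0) (hF1 : 1 - F ≠ 0) (hB : B ≠ 0)
    (h : 9 * (1 - F) / (4 * F ^ 3) * (A ^ 2 - (A + 2 * κ * F) ^ 2 / B ^ 2) = X) :
    B ^ 2 * (A ^ 2 - 8 * (X / 6) * F ^ 3 / (3 * (1 - F))) = (A + 2 * κ * F) ^ 2 := by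
  subst h
  field_simp
  ring

end Pool.Agent.Pon30.AbsA6

namespace Pool.Agent.Pon30

open Filter Topology Set AbsA6

/-- ABSR from the rows ROUGHA and ASYA -/
theorem absR6 (hR : RoughA) (hA : AsyA) : AbsR := by
  intro M ρ₀ hρ₀ hc₀ h0 hrel₀
  obtain ⟨K, hK, δ₀, hδ₀, hKb₀⟩ := step1 hR hρ₀ hc₀ h0 hrel₀
  -- one radius for everything
  obtain ⟨ρ, hρ, hρρ, hρδ, hρ1, hρK⟩ : ∃ ρ > 0, ρ ≤ ρ₀ ∧ ρ ≤ δ₀ ∧ ρ < 1 / 2 ∧ K * ρ < 1 := by
    refine ⟨min (min ρ₀ δ₀) (min (1 / 4) (1 / (2 * K))), ?_, ?_, ?_, ?_, ?_⟩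
    · exact lt_min (lt_min hρ₀ hδ₀) (lt_min (by norm_num) (by positivity))
    · exact (min_le_left _ _).trans (min_le_left _ _)
    · exact (min_le_left _ _).trans (min_le_right _ _)
    · exact ((min_le_right _ _).trans (min_le_left _ _)).trans_lt (by norm_num)
    · calc K * min (min ρ₀ δ₀) (min (1 / 4) (1 / (2 * K))) ≤ K * (1 / (2 * K)) :=
            mul_le_mul_of_nonneg_left ((min_le_right _ _).trans (min_le_right _ _)) hK.le
        _ = 1 / 2 := by field_simp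
        _ < 1 := by norm_num
  have hc : ContinuousOn M (Ioo (-ρ) ρ) :=
    hc₀.mono (Ioo_subset_Ioo (by linarith) hρρ)
  have hrel : ∀ F e : ℝ, F ≠ 0 → |F| < ρ → |e| < ρ → RR M F e := fun F e hF h1 h2 =>
    hrel₀ F e hF (h1.trans_le hρρ) (h2.trans_le hρρ)
  have hKb : ∀ v : ℝ, |v| < ρ → |M v| ≤ K * |v| := fun v hv => hKb₀ v (hv.trans_le hρδ)
  have hbn : ∀ F : ℝ, F ≠ 0 → |F| < ρ → 1 + M (gF F) * (3 - F) / F ≠ 0 := fun F hF h =>
    bnz hK hKb hF (h.trans hρ1) h ((mul_lt_mul_of_pos_left h hK).trans hρK)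
  have hAs : ∀ F : ℝ, F ≠ 0 → |F| < ρ → Tendsto (fun v : ℝ => (M (U3 (gF F) v) + 2 * M v) / v ^ 2 -
      ((M v / v) * wF F + (ca M F * (M v / v) ^ 2 + cb M F * (M v / v) + cc M F))) (𝓝[≠] 0) (𝓝 0) := by
    intro F hF h
    have := hA M ρ F K hρ hc h0 hrel hKb hF h (h.trans hρ1) ((gF_lt hF (h.trans hρ1)).trans h)
      (hbn F hF h)
    simpa only [Xi_poly] using this
  -- existence of the limit
  obtain ⟨F₁, hF₁, hF₁ρ⟩ : ∃ F : ℝ, F ≠ 0 ∧ |F| < ρ :=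
    ⟨ρ / 2, by positivity, by rw [abs_of_pos (by positivity)]; linarith⟩
  have hF₁' : -F₁ ≠ 0 := neg_ne_zero.2 hF₁
  have hF₁ρ' : |-F₁| < ρ := by rwa [abs_neg]
  have hg := gF_pos hF₁ (hF₁ρ.trans hρ1)
  have hquad : Tendsto (fun v => (ca M F₁ - ca M (-F₁)) * (M v / v) ^ 2 +
      (cb M F₁ - cb M (-F₁)) * (M v / v) + (cc M F₁ - cc M (-F₁))) (𝓝[≠] 0) (𝓝 0) := by
    have h1 := hAs F₁ hF₁ hF₁ρ
    have h2 := hAs (-F₁) hF₁' hF₁ρ'
    rw [gF_neg, wF_neg] at h2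
    have h3 := h2.sub h1
    rw [sub_zero] at h3
    exact h3.congr (fun v => by ring)
  have hle : 𝓝[>] (0 : ℝ) ≤ 𝓝[≠] 0 := nhdsWithin_mono _ (fun x hx => ne_of_gt hx)
  obtain ⟨κ, hκr⟩ := quad46 (fun v => M v / v) (ca M F₁ - ca M (-F₁)) (cb M F₁ - cb M (-F₁))
    (cc M F₁ - cc M (-F₁)) ρ K
    (ca_ne hF₁ (hF₁ρ.trans hρ1) (hbn F₁ hF₁ hF₁ρ) (hbn (-F₁) hF₁' hF₁ρ')) hρ
    (ContinuousOn.div (hc.mono (Ioo_subset_Ioo (by linarith) le_rfl)) continuousOn_id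
      (fun v hv => (hv.1).ne'))
    (fun v hv => by
      have hvp : 0 < |v| := abs_pos.2 (hv.1).ne'
      rw [abs_div, div_le_iff₀ hvp]
      exact hKb v (by rw [abs_of_pos hv.1]; exact hv.2))
    (hquad.mono_left hle)
  have hκ : Tendsto (fun v => M v / v) (𝓝[≠] 0) (𝓝 κ) :=
    twoside hg hκr (kdiff hg hρ hKb (hAs F₁ hF₁ hF₁ρ))
  -- the second order term
  have hXi : ∀ F : ℝ, F ≠ 0 → |F| < ρ →
      Tendsto (fun v => (M v / v - κ) / v) (𝓝[≠] 0) (𝓝 (XiF M F κ / 6)) := by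
    intro F hF h
    have hgF := gF_pos hF (h.trans hρ1)
    have h1 := quot hgF (wF_eq hF (h.trans hρ1)) hκ (hAs F hF h)
    rw [← Xi_poly] at h1
    exact summ (k := fun v => M v / v) hgF hκ h1
  refine ⟨κ, XiF M F₁ κ / 6, hκ, ρ, hρ, fun F hF h => ?_⟩
  have heq : XiF M F κ / 6 = XiF M F₁ κ / 6 := tendsto_nhds_unique (hXi F hF h) (hXi F₁ hF₁ hF₁ρ)
  have h2 := abs_lt.1 (h.trans hρ1)
  have hfin := final hF (by linarith : 1 - F ≠ 0) (hbn F hF h) (A := 3 + F) (κ := κ)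
    (X := XiF M F κ) rfl
  rw [heq] at hfin
  exact hfin

end Pool.Agent.Pon30
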