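import Pool.Agent.Pon30.StmtsA41

/-!
# MP_02df19_gt, real axis: rows ROUGHA and ASYA (helper41)
-/

set_option autoImplicit false

namespace Pool.Agent.Pon30

open Filter Topology Set

namespace AR41

/-- the parameter `e` as a function of the first isosceles shape -/
noncomputable def ev (F v : ℝ) : ℝ := 3 * (1 - F) * (3 + F) * v / (2 * F * (F - (3 + F) * v))
noncomputable def U2 (g v : ℝ) : ℝ := (g - v) / (1 - 4 * v)

theorem ev_facts {F v : ℝ} (hF : F ≠ 0) (hd : F - (3 + F) * v ≠ 0) :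
    3 * (1 - F) + 2 * F * ev F v = 3 * (1 - F) * F / (F - (3 + F) * v) ∧
    3 + F + 2 * F * ev F v = (3 + F) * F * (1 - 4 * v) / (F - (3 + F) * v) ∧
    1 - ev F v = (2 * F ^ 2 - (9 - F ^ 2) * v) / (2 * F * (F - (3 + F) * v)) := by
  unfold ev
  refine ⟨?_, ?_, ?_⟩
  · field_simp; ring
  · field_simp; ring
  · field_simp; ring

theorem rr_at {M : ℝ → ℝ} {F v : ℝ} (hF : F ≠ 0) (hF1 : |F| < 1 / 2) (hd : F - (3 + F) * v ≠ 0)
    (h4 : 1 - 4 * v ≠ 0) (h : RR M F (ev F v)) :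
    RRm F (ev F v) (M v) (M (U2 (gF F) v)) (M (U3 (gF F) v)) := by
  obtain ⟨e1, e2, e3⟩ := ev_facts hF hd
  obtain ⟨ha, hb⟩ := abs_lt.mp hF1
  have h1F : (1 - F) ≠ 0 := by linarith
  have h3F : (3 + F) ≠ 0 := by linarith
  have h3F' : (3 - F) ≠ 0 := by linarith
  have h9 : (9 - F ^ 2) ≠ 0 := by
    have : (9 - F ^ 2) = (3 - F) * (3 + F) := by ring
    rw [this]; exact mul_ne_zero h3F' h3F
  have hu1 : 2 * F ^ 2 * ev F v / ((3 + F) * (3 * (1 - F) + 2 * F * ev F v)) = v := by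
    rw [e1]; unfold ev; field_simp
  have hu2 : 2 * F ^ 2 * (1 - ev F v) / ((3 + F + 2 * F * ev F v) * (3 - F)) = U2 (gF F) v := by
    rw [e2, e3]; unfold U2 gF
    generalize 1 - 4 * v = a at *
    generalize F - (3 + F) * v = d at *
    field_simp
    ring
  have hu3 : -4 * F ^ 2 * ev F v * (1 - ev F v) / ((3 * (1 - F) + 2 * F * ev F v) * (3 + F + 2 * F * ev F v)) =
      U3 (gF F) v := by
    rw [e1, e2, e3]; unfold U3 gF ev
    generalize 1 - 4 * v = a at *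
    generalize F - (3 + F) * v = d at *
    field_simp
    ring
  have := h (M v) (M (U2 (gF F) v)) (M (U3 (gF F) v)) _ _ (by rw [hu1]) (by rw [hu2]) (by rw [hu3]) rfl rfl
  exact this

/-- the slope of `ev` -/
noncomputable def E1 (F v : ℝ) : ℝ := 3 * (1 - F) * (3 + F) / (2 * F * (F - (3 + F) * v))
noncomputable def bf (M : ℝ → ℝ) (F v : ℝ) : ℝ := 1 + M (U2 (gF F) v) * (3 - F) / F
noncomputable def yf (M : ℝ → ℝ) (F v : ℝ) : ℝ := 1 - M v * (3 + F) / F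
noncomputable def cf (F v : ℝ) : ℝ := (3 + F) * (3 - 2 * F) / F ^ 2 + 6 * (v * E1 F v) / F
noncomputable def tf (F v : ℝ) : ℝ := (3 + F - 2 * (v * E1 F v)) / (1 - F + 2 * F * (v * E1 F v))
noncomputable def sf (F v : ℝ) : ℝ := (3 * (1 - F) + 2 * F * (v * E1 F v)) / (2 * F)
noncomputable def Qf (M : ℝ → ℝ) (F v : ℝ) : ℝ := 1 - yf M F v ^ 2 / bf M F v ^ 2

/-- the bracket -/
noncomputable def Br (F E c t s Q k μ : ℝ) : ℝ :=
  6 * E * μ / F - μ ^ 2 * c + k ^ 2 * ((3 + F) / F) ^ 2 + Q * t * (E - μ * s) ^ 2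

theorem key_alg {M : ℝ → ℝ} {F v m3 : ℝ} (hF : F ≠ 0) (hv : v ≠ 0) (hb : bf M F v ≠ 0)
    (h : RRm F (ev F v) (M v) (M (U2 (gF F) v)) m3) :
    (3 + F) / F * (m3 + 2 * M v) =
      v ^ 2 * Br F (E1 F v) (cf F v) (tf F v) (sf F v) (Qf M F v) (M v / v) (m3 / v) := by
  have hev : ev F v = v * E1 F v := by unfold ev E1; ring
  unfold RRm at h
  rw [hev] at h
  have hbe : 1 + M (U2 (gF F) v) * (3 - F) / F = bf M F v := rfl
  have hye : 1 - M v * (3 + F) / F = yf M F v := rfl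
  rw [hbe, hye] at h
  have hce : (3 + F) * (3 - 2 * F) / F ^ 2 + 6 * (v * E1 F v) / F = cf F v := rfl
  have hte : (3 + F - 2 * (v * E1 F v)) / (1 - F + 2 * F * (v * E1 F v)) = tf F v := rfl
  have hse : m3 * (3 * (1 - F) + 2 * F * (v * E1 F v)) / (2 * F) = m3 * sf F v := by unfold sf; ring
  rw [hce, hte, hse] at h
  unfold Br Qf
  generalize cf F v = c at *
  generalize tf F v = t at *
  generalize sf F v = s at *
  generalize bf M F v = b at *
  generalize yf M F v = y at *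
  generalize E1 F v = E at *
  generalize M v = m1 at *
  have hb2 : b ^ 2 ≠ 0 := pow_ne_zero 2 hb
  obtain ⟨k, rfl⟩ : ∃ k, m1 = v * k := ⟨m1 / v, by field_simp⟩
  obtain ⟨μ, rfl⟩ : ∃ μ, m3 = v * μ := ⟨m3 / v, by field_simp⟩
  rw [mul_div_cancel_left₀ _ hv, mul_div_cancel_left₀ _ hv]
  apply mul_left_cancel₀ hb2
  have e : b ^ 2 * (v ^ 2 * (6 * E * μ / F - μ ^ 2 * c + k ^ 2 * ((3 + F) / F) ^ 2 +
      (1 - y ^ 2 / b ^ 2) * t * (E - μ * s) ^ 2)) =
      b ^ 2 * v ^ 2 * (6 * E * μ / F - μ ^ 2 * c + k ^ 2 * ((3 + F) / F) ^ 2) +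
      (b ^ 2 - y ^ 2) * t * (v * E - v * μ * s) ^ 2 := by
    field_simp
  rw [e, ← h]
  ring

variable {M : ℝ → ℝ} {ρ F : ℝ}

theorem gF_pos (hF : F ≠ 0) (hF1 : |F| < 1 / 2) : 0 < gF F := by
  obtain ⟨ha, hb⟩ := abs_lt.mp hF1
  unfold gF
  have : 0 < F ^ 2 := by positivity
  apply div_pos (by positivity)
  nlinarith

theorem cE (hF : F ≠ 0) : ContinuousAt (E1 F) 0 := by
  unfold E1
  apply ContinuousAt.div continuousAt_const (by fun_prop)
  simp [hF]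

theorem cvE (hF : F ≠ 0) : ContinuousAt (fun v => v * E1 F v) 0 := continuousAt_id.mul (cE hF)

theorem cc (hF : F ≠ 0) : ContinuousAt (cf F) 0 := by
  unfold cf
  have := cvE hF
  exact continuousAt_const.add ((continuousAt_const.mul this).div_const _)

theorem ct (hF : F ≠ 0) (hF1 : |F| < 1 / 2) : ContinuousAt (tf F) 0 := by
  unfold tf
  obtain ⟨ha, hb⟩ := abs_lt.mp hF1
  have := cvE hF
  apply ContinuousAt.div
  · exact continuousAt_const.sub (continuousAt_const.mul this)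
  · exact continuousAt_const.add (continuousAt_const.mul this)
  · simp; linarith

theorem cs (hF : F ≠ 0) : ContinuousAt (sf F) 0 := by
  unfold sf
  have := cvE hF
  exact (continuousAt_const.add (continuousAt_const.mul this)).div_const _

theorem cU2 (g : ℝ) : ContinuousAt (U2 g) 0 := by
  unfold U2
  apply ContinuousAt.div (by fun_prop) (by fun_prop)
  simp

theorem cb (hM : ContinuousAt M (gF F)) : ContinuousAt (bf M F) 0 := by
  unfold bf
  have h1 : ContinuousAt (fun v => M (U2 (gF F) v)) 0 := by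
    have h2 : U2 (gF F) 0 = gF F := by unfold U2; simp
    exact ContinuousAt.comp (g := M) (f := U2 (gF F)) (by rw [h2]; exact hM) (cU2 _)
  exact continuousAt_const.add ((h1.mul_const _).div_const _)

theorem bf0 : bf M F 0 = 1 + M (gF F) * (3 - F) / F := by
  unfold bf U2; simp

theorem cQ (hM0 : ContinuousAt M 0) (hM : ContinuousAt M (gF F)) (hb : bf M F 0 ≠ 0) :
    ContinuousAt (Qf M F) 0 := by
  unfold Qf
  apply continuousAt_const.sub
  apply ContinuousAt.div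
  · unfold yf
    exact (continuousAt_const.sub ((hM0.mul_const _).div_const _)).pow 2
  · exact (cb hM).pow 2
  · exact pow_ne_zero 2 hb

/-- the relation holds near `0` -/
theorem ev_rel (hρ : 0 < ρ) (hrel : ∀ F e : ℝ, F ≠ 0 → |F| < ρ → |e| < ρ → RR M F e)
    (hF : F ≠ 0) (hFr : |F| < ρ) (hF1 : |F| < 1 / 2) (hM : ContinuousAt M (gF F)) (hb : bf M F 0 ≠ 0) :
    ∀ᶠ v in 𝓝 (0 : ℝ), v ≠ 0 → (3 + F) / F * (M (U3 (gF F) v) + 2 * M v) =
      v ^ 2 * Br F (E1 F v) (cf F v) (tf F v) (sf F v) (Qf M F v) (M v / v) (M (U3 (gF F) v) / v) := by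
  have h1 : ∀ᶠ v in 𝓝 (0 : ℝ), F - (3 + F) * v ≠ 0 := by
    have : ContinuousAt (fun v : ℝ => F - (3 + F) * v) 0 := by fun_prop
    exact this.eventually_ne (by simpa using hF)
  have h2 : ∀ᶠ v in 𝓝 (0 : ℝ), 1 - 4 * v ≠ 0 := by
    have : ContinuousAt (fun v : ℝ => 1 - 4 * v) 0 := by fun_prop
    exact this.eventually_ne (by simp)
  have h3 : ∀ᶠ v in 𝓝 (0 : ℝ), |v * E1 F v| < ρ := by
    have h4 := (cvE hF).abs
    have : Tendsto (fun v => |v * E1 F v|) (𝓝 0) (𝓝 0) := by simpa [ContinuousAt] using h4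
    exact this.eventually_lt_const hρ
  have h5 : ∀ᶠ v in 𝓝 (0 : ℝ), bf M F v ≠ 0 := (cb hM).eventually_ne hb
  filter_upwards [h1, h2, h3, h5] with v g1 g2 g3 g5 hv
  have hev : ev F v = v * E1 F v := by unfold ev E1; ring
  exact key_alg hF hv g5 (rr_at hF hF1 g1 g2 (hrel F _ hF hFr (by rw [hev]; exact g3)))


theorem U3_facts {g : ℝ} (hg : 0 < g) : Tendsto (U3 g) (𝓝 0) (𝓝 0) ∧
    Tendsto (fun v => U3 g v / v) (𝓝[≠] 0) (𝓝 (-2)) := by
  constructor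
  · have : ContinuousAt (U3 g) 0 := by
      unfold U3
      apply ContinuousAt.div (by fun_prop) (by fun_prop)
      simp [hg.ne']
    have h0 : U3 g 0 = 0 := by unfold U3; simp
    rw [ContinuousAt, h0] at this
    exact this
  · have h1 : ContinuousAt (fun v : ℝ => -2 * (g - v) / (g * (1 - 4 * v))) 0 := by
      apply ContinuousAt.div (by fun_prop) (by fun_prop)
      simp [hg.ne']
    have h2 : -2 * (g - 0) / (g * (1 - 4 * 0)) = (-2 : ℝ) := by
      simp only [sub_zero, mul_zero, mul_one]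
      field_simp
    rw [ContinuousAt, h2] at h1
    refine (h1.mono_left nhdsWithin_le_nhds).congr' ?_
    filter_upwards [self_mem_nhdsWithin] with v hv
    have hv : v ≠ 0 := hv
    unfold U3
    field_simp

/-- final algebra -/
theorem lim_alg {F k b : ℝ} (hF : F ≠ 0) (hF1 : |F| < 1 / 2) (hb : b ≠ 0) :
    Br F (3 * (1 - F) * (3 + F) / (2 * F * F)) ((3 + F) * (3 - 2 * F) / F ^ 2) ((3 + F) / (1 - F))
      (3 * (1 - F) / (2 * F)) (1 - 1 / b ^ 2) k (-2 * k) =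
    (3 + F) / F * (k * (9 * (1 - F ^ 2) / F ^ 2) +
      9 * (1 - F) / (4 * F ^ 3) * ((3 + F) ^ 2 - (3 + F + 2 * k * F) ^ 2 / b ^ 2)) := by
  obtain ⟨ha, hb'⟩ := abs_lt.mp hF1
  have h1F : (1 - F) ≠ 0 := by linarith
  have h3F : (3 + F) ≠ 0 := by linarith
  unfold Br
  field_simp
  ring

theorem w_ne (hF : F ≠ 0) (hF1 : |F| < 1 / 2) : (3 + F) / F ≠ 0 := by
  obtain ⟨ha, hb'⟩ := abs_lt.mp hF1
  have h3F : (3 + F) ≠ 0 := by linarith
  exact div_ne_zero h3F hF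

theorem cont_of (hc : ContinuousOn M (Ioo (-ρ) ρ)) {x : ℝ} (h1 : -ρ < x) (h2 : x < ρ) : ContinuousAt M x :=
  hc.continuousAt (Ioo_mem_nhds h1 h2)

theorem abs_mul_le' (a b : ℝ) : |a * b| ≤ a ^ 2 + b ^ 2 := by
  rw [abs_le]
  constructor <;> nlinarith [sq_nonneg (a + b), sq_nonneg (a - b), sq_nonneg a, sq_nonneg b]

theorem sub_sq_le' {x y a b : ℝ} (h1 : x ^ 2 ≤ a) (h2 : y ^ 2 ≤ b) : (x - y) ^ 2 ≤ 2 * a + 2 * b := by
  nlinarith [sq_nonneg (x + y)]

theorem sum_le' {a c w q e s v m n : ℝ} (ha : 0 ≤ a) (hc : 0 ≤ c) (hw : 0 ≤ w) (hq : 0 ≤ q) (hv : 0 ≤ v)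
    (hm : 0 ≤ m) (hn : 0 ≤ n) (he : 0 ≤ e) (hs : 0 ≤ s) :
    a * (v + n) + c * n + w * m + q * (2 * e * v + 2 * s * n) ≤
      (a + c + w + q * (2 * e + 2 * s)) * (v + m + n) := by
  have h1 : (a + c + w + q * (2 * e + 2 * s)) * (v + m + n) -
      (a * (v + n) + c * n + w * m + q * (2 * e * v + 2 * s * n)) =
      a * m + c * (v + m) + w * (v + n) + q * (2 * e * (m + n) + 2 * s * (v + m)) := by ring
  have h2 : 0 ≤ a * m + c * (v + m) + w * (v + n) + q * (2 * e * (m + n) + 2 * s * (v + m)) := by positivity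
  linarith

theorem roughA41 : RoughA := by
  intro M ρ F hρ hc h0 hrel hF hFr hF1 hg hb
  have hgp := gF_pos hF hF1
  have hM0 : ContinuousAt M 0 := cont_of hc (by linarith) hρ
  have hMg : ContinuousAt M (gF F) := cont_of hc (by linarith) hg
  have hb' : bf M F 0 ≠ 0 := by rw [bf0]; exact hb
  have hrel' := ev_rel hρ hrel hF hFr hF1 hMg hb'
  have bd : ∀ {f : ℝ → ℝ}, ContinuousAt f 0 → ∀ᶠ v in 𝓝 (0 : ℝ), |f v| < |f 0| + 1 := by
    intro f hf
    exact hf.abs.eventually_lt continuousAt_const (by linarith)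
  have hev : ∀ᶠ v in 𝓝 (0 : ℝ), (v ≠ 0 → (3 + F) / F * (M (U3 (gF F) v) + 2 * M v) =
      v ^ 2 * Br F (E1 F v) (cf F v) (tf F v) (sf F v) (Qf M F v) (M v / v) (M (U3 (gF F) v) / v)) ∧
      |E1 F v| < |E1 F 0| + 1 ∧ |cf F v| < |cf F 0| + 1 ∧ |tf F v| < |tf F 0| + 1 ∧ |sf F v| < |sf F 0| + 1 ∧
      |Qf M F v| < |Qf M F 0| + 1 := by
    filter_upwards [hrel', bd (cE hF), bd (cc hF), bd (ct hF hF1), bd (cs hF), bd (cQ hM0 hMg hb')] with v a1 a2 a3 a4 a5 a6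
    exact ⟨a1, a2, a3, a4, a5, a6⟩
  obtain ⟨r, hr, hball⟩ := Metric.eventually_nhds_iff.mp hev
  have hw := w_ne hF hF1
  have hwp : 0 < |(3 + F) / F| := abs_pos.mpr hw
  set e1 := |E1 F 0| + 1 with he1
  set c1 := |cf F 0| + 1 with hc1
  set t1 := |tf F 0| + 1 with ht1
  set s1 := |sf F 0| + 1 with hs1
  set q1 := |Qf M F 0| + 1 with hq1
  have he1p : 0 < e1 := by positivity
  have hc1p : 0 < c1 := by positivity
  have ht1p : 0 < t1 := by positivity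
  have hs1p : 0 < s1 := by positivity
  have hq1p : 0 < q1 := by positivity
  refine ⟨(6 * e1 / |F| + c1 + |(3 + F) / F| ^ 2 + q1 * t1 * (2 * e1 ^ 2 + 2 * s1 ^ 2)) / |(3 + F) / F|,
    by positivity, r, hr, fun v hv hvr => ?_⟩
  obtain ⟨hR, b1, b2, b3, b4, b5⟩ := hball (y := v) (by simpa [Real.dist_eq] using hvr)
  have hR := hR hv
  set m3 := M (U3 (gF F) v) with hm3
  set m1 := M v with hm1
  have hexp : v ^ 2 * Br F (E1 F v) (cf F v) (tf F v) (sf F v) (Qf M F v) (m1 / v) (m3 / v) =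
      6 * E1 F v / F * (v * m3) - m3 ^ 2 * cf F v + m1 ^ 2 * ((3 + F) / F) ^ 2 +
        Qf M F v * tf F v * (v * E1 F v - m3 * sf F v) ^ 2 := by
    unfold Br
    field_simp
  rw [hexp] at hR
  rw [div_mul_eq_mul_div, le_div_iff₀ hwp, mul_comm (|m3 + 2 * m1|), ← abs_mul, hR]
  have i1 : |6 * E1 F v / F * (v * m3)| ≤ 6 * e1 / |F| * (v ^ 2 + m3 ^ 2) := by
    rw [abs_mul, abs_div, abs_mul, abs_of_pos (by norm_num : (0 : ℝ) < 6)]
    have : |v * m3| ≤ v ^ 2 + m3 ^ 2 := abs_mul_le' v m3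
    have h7 : 6 * |E1 F v| / |F| ≤ 6 * e1 / |F| := by gcongr
    exact mul_le_mul h7 this (abs_nonneg _) (by positivity)
  have i2 : |m3 ^ 2 * cf F v| ≤ c1 * m3 ^ 2 := by
    rw [abs_mul, abs_of_nonneg (sq_nonneg m3), mul_comm]
    exact mul_le_mul_of_nonneg_right b2.le (sq_nonneg m3)
  have i3 : |m1 ^ 2 * ((3 + F) / F) ^ 2| = |(3 + F) / F| ^ 2 * m1 ^ 2 := by
    rw [abs_mul, abs_of_nonneg (sq_nonneg m1), abs_of_nonneg (sq_nonneg _), sq_abs]; ring
  have i4 : |Qf M F v * tf F v * (v * E1 F v - m3 * sf F v) ^ 2| ≤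
      q1 * t1 * (2 * e1 ^ 2 * v ^ 2 + 2 * s1 ^ 2 * m3 ^ 2) := by
    rw [abs_mul, abs_mul, abs_of_nonneg (sq_nonneg (v * E1 F v - m3 * sf F v))]
    have h8 : (v * E1 F v - m3 * sf F v) ^ 2 ≤ 2 * e1 ^ 2 * v ^ 2 + 2 * s1 ^ 2 * m3 ^ 2 := by
      have h9 : (v * E1 F v) ^ 2 ≤ e1 ^ 2 * v ^ 2 := by
        rw [mul_pow, mul_comm, ← sq_abs (E1 F v)]
        apply mul_le_mul_of_nonneg_right _ (sq_nonneg v)
        exact pow_le_pow_left₀ (abs_nonneg _) b1.le 2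
      have h10 : (m3 * sf F v) ^ 2 ≤ s1 ^ 2 * m3 ^ 2 := by
        rw [mul_pow, mul_comm, ← sq_abs (sf F v)]
        apply mul_le_mul_of_nonneg_right _ (sq_nonneg m3)
        exact pow_le_pow_left₀ (abs_nonneg _) b4.le 2
      have := sub_sq_le' h9 h10
      linarith
    have h11 : |Qf M F v| * |tf F v| ≤ q1 * t1 := mul_le_mul b5.le b3.le (abs_nonneg _) hq1p.le
    exact mul_le_mul h11 h8 (sq_nonneg _) (by positivity)
  have tri : |6 * E1 F v / F * (v * m3) - m3 ^ 2 * cf F v + m1 ^ 2 * ((3 + F) / F) ^ 2 +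
        Qf M F v * tf F v * (v * E1 F v - m3 * sf F v) ^ 2| ≤
      |6 * E1 F v / F * (v * m3)| + |m3 ^ 2 * cf F v| + |m1 ^ 2 * ((3 + F) / F) ^ 2| +
        |Qf M F v * tf F v * (v * E1 F v - m3 * sf F v) ^ 2| := by
    refine (abs_add_le _ _).trans ?_
    gcongr
    refine (abs_add_le _ _).trans ?_
    gcongr
    exact abs_sub _ _
  rw [i3] at tri
  refine (tri.trans (add_le_add (add_le_add (add_le_add i1 i2) le_rfl) i4)).trans ?_
  have hfin := sum_le' (a := 6 * e1 / |F|) (c := c1) (w := |(3 + F) / F| ^ 2) (q := q1 * t1) (e := e1 ^ 2)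
    (s := s1 ^ 2) (v := v ^ 2) (m := m1 ^ 2) (n := m3 ^ 2) (by positivity) hc1p.le (by positivity) (by positivity)
    (sq_nonneg v) (sq_nonneg m1) (sq_nonneg m3) (sq_nonneg e1) (sq_nonneg s1)
  exact hfin

theorem asyA41 : AsyA := by
  intro M ρ F K hρ hc h0 hrel hK hF hFr hF1 hg hb
  have hgp := gF_pos hF hF1
  have hM0 : ContinuousAt M 0 := cont_of hc (by linarith) hρ
  have hMg : ContinuousAt M (gF F) := cont_of hc (by linarith) hg
  have hb' : bf M F 0 ≠ 0 := by rw [bf0]; exact hb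
  have hrel' := ev_rel hρ hrel hF hFr hF1 hMg hb'
  have hw := w_ne hF hF1
  obtain ⟨hU0, hU2⟩ := U3_facts hgp
  rw [tendsto_iff_ultrafilter]
  intro 𝒰 h𝒰
  have hle : (𝒰 : Filter ℝ) ≤ 𝓝 0 := h𝒰.trans nhdsWithin_le_nhds
  have hne : ∀ᶠ v in (𝒰 : Filter ℝ), v ≠ 0 := h𝒰 self_mem_nhdsWithin
  have habs : ∀ᶠ v in (𝒰 : Filter ℝ), |v| < ρ := by
    have : ∀ᶠ v in 𝓝 (0 : ℝ), |v| < ρ := by
      have h1 : Tendsto (fun v : ℝ => |v|) (𝓝 0) (𝓝 0) := by
        simpa using (continuous_abs (G := ℝ)).tendsto 0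
      exact h1.eventually_lt_const hρ
    exact hle this
  have hUabs : ∀ᶠ v in (𝒰 : Filter ℝ), |U3 (gF F) v| < ρ := by
    have : ∀ᶠ v in 𝓝 (0 : ℝ), |U3 (gF F) v| < ρ := by
      have h1 : Tendsto (fun v : ℝ => |U3 (gF F) v|) (𝓝 0) (𝓝 0) := by
        simpa using hU0.abs
      exact h1.eventually_lt_const hρ
    exact hle this
  have hUr : ∀ᶠ v in (𝒰 : Filter ℝ), |U3 (gF F) v / v| < 3 := by
    have h1 : Tendsto (fun v : ℝ => |U3 (gF F) v / v|) (𝓝[≠] 0) (𝓝 2) := by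
      simpa using hU2.abs
    exact h𝒰 (h1.eventually_lt_const (by norm_num))
  have hK0 : 0 ≤ K := by
    have h1 := hK (ρ / 2) (by rw [abs_of_pos (by positivity)]; linarith)
    rw [abs_of_pos (by positivity : (0 : ℝ) < ρ / 2)] at h1
    have h2 : 0 ≤ K * (ρ / 2) := (abs_nonneg _).trans h1
    exact nonneg_of_mul_nonneg_left h2 (by positivity)
  have hkI : ∀ᶠ v in (𝒰 : Filter ℝ), M v / v ∈ Icc (-K) K := by
    filter_upwards [hne, habs] with v h1 h2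
    have h3 : 0 < |v| := abs_pos.mpr h1
    rw [mem_Icc, ← abs_le, abs_div, div_le_iff₀ h3]
    exact hK v h2
  have hμI : ∀ᶠ v in (𝒰 : Filter ℝ), M (U3 (gF F) v) / v ∈ Icc (-(3 * K)) (3 * K) := by
    filter_upwards [hne, hUabs, hUr] with v h1 h2 h4
    have h3 : 0 < |v| := abs_pos.mpr h1
    rw [mem_Icc, ← abs_le, abs_div, div_le_iff₀ h3]
    rw [abs_div, div_lt_iff₀ h3] at h4
    have h5 := hK _ h2
    have h6 := mul_le_mul_of_nonneg_left h4.le hK0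
    linarith
  obtain ⟨k, -, hk⟩ := (isCompact_Icc (a := -K) (b := K)).ultrafilter_le_nhds
    (𝒰.map (fun v => M v / v)) (by rw [Ultrafilter.coe_map, le_principal_iff, mem_map]; exact hkI)
  have hk : Tendsto (fun v => M v / v) 𝒰 (𝓝 k) := hk
  obtain ⟨μ, -, hμ⟩ := (isCompact_Icc (a := -(3 * K)) (b := 3 * K)).ultrafilter_le_nhds
    (𝒰.map (fun v => M (U3 (gF F) v) / v)) (by rw [Ultrafilter.coe_map, le_principal_iff, mem_map]; exact hμI)
  have hμ : Tendsto (fun v => M (U3 (gF F) v) / v) 𝒰 (𝓝 μ) := hμ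
  have tE : Tendsto (E1 F) 𝒰 (𝓝 (E1 F 0)) := (cE hF).tendsto.mono_left hle
  have tc : Tendsto (cf F) 𝒰 (𝓝 (cf F 0)) := (cc hF).tendsto.mono_left hle
  have tt : Tendsto (tf F) 𝒰 (𝓝 (tf F 0)) := (ct hF hF1).tendsto.mono_left hle
  have ts : Tendsto (sf F) 𝒰 (𝓝 (sf F 0)) := (cs hF).tendsto.mono_left hle
  have tQ : Tendsto (Qf M F) 𝒰 (𝓝 (Qf M F 0)) := (cQ hM0 hMg hb').tendsto.mono_left hle
  have tv : Tendsto (fun v : ℝ => v) 𝒰 (𝓝 0) := hle
  have tB : Tendsto (fun v => Br F (E1 F v) (cf F v) (tf F v) (sf F v) (Qf M F v) (M v / v)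
      (M (U3 (gF F) v) / v)) 𝒰 (𝓝 (Br F (E1 F 0) (cf F 0) (tf F 0) (sf F 0) (Qf M F 0) k μ)) := by
    unfold Br
    exact ((((((tE.const_mul 6).mul hμ).div_const F).sub ((hμ.pow 2).mul tc)).add
      ((hk.pow 2).mul_const _))).add ((tQ.mul tt).mul ((tE.sub (hμ.mul ts)).pow 2))
  have hrelU : ∀ᶠ v in (𝒰 : Filter ℝ), (3 + F) / F * (M (U3 (gF F) v) + 2 * M v) =
      v ^ 2 * Br F (E1 F v) (cf F v) (tf F v) (sf F v) (Qf M F v) (M v / v) (M (U3 (gF F) v) / v) := by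
    filter_upwards [hle hrel', hne] with v h1 h2
    exact h1 h2
  -- first order
  have hμk : μ = -2 * k := by
    have t1 : Tendsto (fun v => (3 + F) / F * (M (U3 (gF F) v) / v + 2 * (M v / v))) 𝒰
        (𝓝 ((3 + F) / F * (μ + 2 * k))) := (hμ.add (hk.const_mul 2)).const_mul _
    have t2 : Tendsto (fun v => v * Br F (E1 F v) (cf F v) (tf F v) (sf F v) (Qf M F v) (M v / v)
      (M (U3 (gF F) v) / v)) 𝒰 (𝓝 (0 * Br F (E1 F 0) (cf F 0) (tf F 0) (sf F 0) (Qf M F 0) k μ)) := tv.mul tB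
    have t3 : (fun v => (3 + F) / F * (M (U3 (gF F) v) / v + 2 * (M v / v))) =ᶠ[(𝒰 : Filter ℝ)]
        (fun v => v * Br F (E1 F v) (cf F v) (tf F v) (sf F v) (Qf M F v) (M v / v)
      (M (U3 (gF F) v) / v)) := by
      filter_upwards [hrelU, hne] with v h1 h2
      have h3 : (3 + F) / F * (M (U3 (gF F) v) / v + 2 * (M v / v)) =
          ((3 + F) / F * (M (U3 (gF F) v) + 2 * M v)) / v := by ring
      rw [h3, h1]
      generalize Br F (E1 F v) (cf F v) (tf F v) (sf F v) (Qf M F v) (M v / v) (M (U3 (gF F) v) / v) = X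
      field_simp
    have t4 := tendsto_nhds_unique (t2.congr' t3.symm) t1
    rw [zero_mul] at t4
    have := (mul_eq_zero.mp t4.symm).resolve_left hw
    linarith
  subst hμk
  -- second order
  have tD : Tendsto (fun v => (M (U3 (gF F) v) + 2 * M v) / v ^ 2) 𝒰
      (𝓝 (k * wF F + XiF M F k)) := by
    have t5 : Tendsto (fun v => ((3 + F) / F)⁻¹ * Br F (E1 F v) (cf F v) (tf F v) (sf F v) (Qf M F v) (M v / v)
      (M (U3 (gF F) v) / v)) 𝒰
      (𝓝 (((3 + F) / F)⁻¹ * Br F (E1 F 0) (cf F 0) (tf F 0) (sf F 0) (Qf M F 0) k (-2 * k))) := tB.const_mul _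
    have v1 : E1 F 0 = 3 * (1 - F) * (3 + F) / (2 * F * F) := by unfold E1; simp
    have v2 : cf F 0 = (3 + F) * (3 - 2 * F) / F ^ 2 := by unfold cf; simp
    have v3 : tf F 0 = (3 + F) / (1 - F) := by unfold tf; simp
    have v4 : sf F 0 = 3 * (1 - F) / (2 * F) := by unfold sf; simp
    have v5 : Qf M F 0 = 1 - 1 / (1 + M (gF F) * (3 - F) / F) ^ 2 := by
      unfold Qf yf; rw [bf0, h0]; simp
    have e1 : ((3 + F) / F)⁻¹ * Br F (E1 F 0) (cf F 0) (tf F 0) (sf F 0) (Qf M F 0) k (-2 * k) =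
        k * wF F + XiF M F k := by
      rw [v1, v2, v3, v4, v5, lim_alg hF hF1 hb, ← mul_assoc, inv_mul_cancel₀ hw, one_mul]
      rfl
    rw [e1] at t5
    refine t5.congr' ?_
    filter_upwards [hrelU, hne] with v h1 h2
    have h3 : M (U3 (gF F) v) + 2 * M v = ((3 + F) / F)⁻¹ * (v ^ 2 * Br F (E1 F v) (cf F v) (tf F v) (sf F v)
        (Qf M F v) (M v / v) (M (U3 (gF F) v) / v)) := by
      rw [← h1, ← mul_assoc, inv_mul_cancel₀ hw, one_mul]
    rw [h3]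
    generalize Br F (E1 F v) (cf F v) (tf F v) (sf F v) (Qf M F v) (M v / v) (M (U3 (gF F) v) / v) = X
    field_simp
  have tX : Tendsto (fun v => (M v / v) * wF F + XiF M F (M v / v)) 𝒰 (𝓝 (k * wF F + XiF M F k)) := by
    have hcx : Continuous (fun x : ℝ => x * wF F + XiF M F x) := by
      unfold XiF
      fun_prop
    exact (hcx.tendsto k).comp hk
  have := tD.sub tX
  rw [sub_self] at this
  exact this

end AR41
end Pool.Agent.Pon30
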