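import Pool.Agent.Pon30.AbsA6
import Pool.Agent.Pon30.AsyR41

/-!
# MP_02df19_gt, whole ellipses: row ABSR
-/

set_option autoImplicit false

namespace Pool.Agent.Pon30

theorem absRfin6 : AbsR := absR6 AR41.roughA41 AR41.asyA41

end Pool.Agent.Pon30
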