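import Pool.Agent.Pon30.Stmts

/-! # MP_02df19_gt, row ALG -/

set_option autoImplicit false

namespace Pool.Agent.Pon30

open Filter Topology

lemma alg93_key (κ Δ δ y : ℝ) (hy : y ≠ 0)
    (h : (1 + 2 * (1 / y) * (κ + δ)) ^ 2 * (1 - 4 * (1 / y) - 8 * Δ * (1 / y) ^ 3)
      = (1 - 4 * (1 / y)) * (1 + 2 * κ * (1 / y)) ^ 2) :
    δ * (y + 2 * κ + δ) * (y ^ 3 - 4 * y ^ 2 - 8 * Δ) = 2 * Δ * (y + 2 * κ) ^ 2 := by
  have h1 : (y + 2 * (κ + δ)) ^ 2 * (y ^ 3 - 4 * y ^ 2 - 8 * Δ)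
      = y ^ 2 * (y - 4) * (y + 2 * κ) ^ 2 := by
    have e1 : (y + 2 * (κ + δ)) = y * (1 + 2 * (1 / y) * (κ + δ)) := by field_simp
    have e2 : (y ^ 3 - 4 * y ^ 2 - 8 * Δ) = y ^ 3 * (1 - 4 * (1 / y) - 8 * Δ * (1 / y) ^ 3) := by
      field_simp
    have e3 : y - 4 = y * (1 - 4 * (1 / y)) := by field_simp
    have e4 : y + 2 * κ = y * (1 + 2 * κ * (1 / y)) := by field_simp
    rw [e1, e2, e3, e4]
    linear_combination y ^ 5 * h
  linear_combination h1 / 4

theorem algStmt93 : AlgStmt := by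
  intro κ Δ ψ hΔ hψ hR
  obtain ⟨E₀, hE₀, hR⟩ := hR
  set c : ℝ := 1 + 2 * κ with hc
  set δ : ℝ → ℝ := fun w => ψ (1 / (w ^ 2 - 1)) - κ with hδ
  -- `E(w) → 0+`
  have hwsq : Tendsto (fun w : ℝ => w ^ 2) atTop atTop := tendsto_pow_atTop (by norm_num)
  have hwsq1 : Tendsto (fun w : ℝ => w ^ 2 - 1) atTop atTop :=
    tendsto_atTop_add_const_right _ (-1) hwsq
  have hE : Tendsto (fun w : ℝ => 1 / (w ^ 2 - 1)) atTop (𝓝[>] 0) := by
    have := tendsto_inv_atTop_nhdsGT_zero.comp hwsq1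
    simpa [Function.comp_def] using this
  have hδ0 : Tendsto δ atTop (𝓝 0) := by
    have := (hψ.comp hE).sub_const κ
    simpa [Function.comp_def, hδ] using this
  have hu : Tendsto (fun w : ℝ => 1 / w ^ 2) atTop (𝓝 0) := by
    have := tendsto_inv_atTop_zero.comp hwsq
    simpa [Function.comp_def] using this
  have hEsmall : ∀ᶠ w : ℝ in atTop, 1 / (w ^ 2 - 1) < E₀ := by
    have := (hE.mono_right nhdsWithin_le_nhds).eventually_lt_const hE₀
    exact this
  -- the two equations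
  have hpair : ∀ᶠ w : ℝ in atTop,
      δ w * (1 + w + 2 * κ + δ w) * ((1 + w) ^ 3 - 4 * (1 + w) ^ 2 - 8 * Δ)
          = 2 * Δ * (1 + w + 2 * κ) ^ 2 ∧
      δ w * (1 - w + 2 * κ + δ w) * ((1 - w) ^ 3 - 4 * (1 - w) ^ 2 - 8 * Δ)
          = 2 * Δ * (1 - w + 2 * κ) ^ 2 := by
    filter_upwards [hEsmall, eventually_gt_atTop (1 : ℝ)] with w hw1 hw2
    have hpos : 0 < w ^ 2 - 1 := by nlinarith
    have hEpos : 0 < 1 / (w ^ 2 - 1) := by positivity
    have hy1 : (1 + w) ≠ 0 := by linarith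
    have hy2 : (1 - w) ≠ 0 := by
      intro h; linarith
    have eψ : ψ (1 / (w ^ 2 - 1)) = κ + δ w := by simp [hδ]
    constructor
    · have h := hR (1 / (w ^ 2 - 1)) (1 / (1 + w)) hEpos hw1 (by
        have : w ^ 2 - 1 = (w - 1) * (1 + w) := by ring
        rw [this]
        have h3 : w - 1 ≠ 0 := by intro h; linarith
        field_simp
        ring)
      rw [eψ] at h
      exact alg93_key κ Δ (δ w) (1 + w) hy1 h
    · have h := hR (1 / (w ^ 2 - 1)) (1 / (1 - w)) hEpos hw1 (by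
        have : w ^ 2 - 1 = -(1 + w) * (1 - w) := by ring
        rw [this]
        field_simp
        ring)
      rw [eψ] at h
      exact alg93_key κ Δ (δ w) (1 - w) hy2 h
  -- `D = δ w²`
  set D : ℝ → ℝ := fun w => δ w * w ^ 2 with hD
  have heven : ∀ᶠ w : ℝ in atTop,
      D w * w ^ 2 - (5 + c + δ w) * D w + (-3 - 8 * Δ) * (c + δ w) * δ w
        = 2 * Δ * (w ^ 2 + c ^ 2) := by
    filter_upwards [hpair] with w hw
    simp only [hD, hc]
    linear_combination (hw.1 + hw.2) / 2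
  have hodd : ∀ᶠ w : ℝ in atTop,
      (c + δ w - 1) * D w + (-3 - 8 * Δ - 5 * (c + δ w)) * δ w = 4 * Δ * c := by
    filter_upwards [hpair, eventually_gt_atTop (1 : ℝ)] with w hw hw1
    have hw0 : w ≠ 0 := by linarith
    apply mul_left_cancel₀ hw0
    simp only [hD, hc]
    linear_combination (hw.1 - hw.2) / 2
  have hDlim : Tendsto D atTop (𝓝 (2 * Δ)) := by
    have h1 : Tendsto (fun w => (2 * Δ * (1 + c ^ 2 * (1 / w ^ 2))
        - (-3 - 8 * Δ) * (c + δ w) * δ w * (1 / w ^ 2)) /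
        (1 - (5 + c + δ w) * (1 / w ^ 2))) atTop
        (𝓝 ((2 * Δ * (1 + c ^ 2 * 0) - (-3 - 8 * Δ) * (c + 0) * 0 * 0) / (1 - (5 + c + 0) * 0))) := by
      apply Tendsto.div
      · exact ((((hu.const_mul (c ^ 2)).const_add 1).const_mul (2 * Δ))).sub
          (((((hδ0.const_add c).const_mul (-3 - 8 * Δ))).mul hδ0).mul hu)
      · exact ((hδ0.const_add (5 + c)).mul hu).const_sub 1
      · norm_num
    have h2 : (2 * Δ * (1 + c ^ 2 * 0) - (-3 - 8 * Δ) * (c + 0) * 0 * 0) / (1 - (5 + c + 0) * 0)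
        = 2 * Δ := by ring
    rw [h2] at h1
    have hden : ∀ᶠ w : ℝ in atTop, 1 - (5 + c + δ w) * (1 / w ^ 2) ≠ 0 := by
      have : Tendsto (fun w => 1 - (5 + c + δ w) * (1 / w ^ 2)) atTop (𝓝 (1 - (5 + c + 0) * 0)) :=
        ((hδ0.const_add (5 + c)).mul hu).const_sub 1
      have h3 := this.eventually_ne (show (1 - (5 + c + 0) * 0 : ℝ) ≠ 0 by norm_num)
      exact h3
    refine h1.congr' ?_
    filter_upwards [heven, hden, eventually_gt_atTop (1 : ℝ)] with w hw hd hw1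
    have hw0 : w ^ 2 ≠ 0 := by positivity
    rw [div_eq_iff hd]
    have e : w ^ 2 * (1 / w ^ 2) = 1 := by field_simp
    apply mul_left_cancel₀ hw0
    linear_combination (-1) * hw + (2 * Δ * c ^ 2 - (-3 - 8 * Δ) * (c + δ w) * δ w
      + D w * (5 + c + δ w)) * e
  have hodd_lim : (c + 0 - 1) * (2 * Δ) + (-3 - 8 * Δ - 5 * (c + 0)) * 0 = 4 * Δ * c := by
    have h1 : Tendsto (fun w => (c + δ w - 1) * D w + (-3 - 8 * Δ - 5 * (c + δ w)) * δ w) atTop
        (𝓝 ((c + 0 - 1) * (2 * Δ) + (-3 - 8 * Δ - 5 * (c + 0)) * 0)) :=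
      (((hδ0.const_add c).sub_const 1).mul hDlim).add
        ((((hδ0.const_add c).const_mul 5).const_sub (-3 - 8 * Δ)).mul hδ0)
    have h2 : Tendsto (fun w => (c + δ w - 1) * D w + (-3 - 8 * Δ - 5 * (c + δ w)) * δ w) atTop
        (𝓝 (4 * Δ * c)) := by
      refine tendsto_const_nhds.congr' ?_
      filter_upwards [hodd] with w hw
      exact hw.symm
    exact tendsto_nhds_unique h1 h2
  have hprod : Δ * (κ + 1) = 0 := by
    rw [hc] at hodd_lim
    linear_combination (-1 / 4) * hodd_lim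
  have hΔ0 : Δ = 0 := by
    by_contra hne
    have hk : κ = -1 := by
      rcases mul_eq_zero.1 hprod with h | h
      · exact absurd h hne
      · linarith
    have hΔ2 : Δ = -2 := by rw [hΔ, hk]; norm_num
    have hc1 : c = -1 := by rw [hc, hk]; norm_num
    have hZ1 : Tendsto (fun w => w ^ 2 * (D w + 4)) atTop (𝓝 (-28)) := by
      have h1 : Tendsto (fun w => D w * (D w + 18 - 5 * δ w) / 2) atTop
          (𝓝 ((2 * Δ) * (2 * Δ + 18 - 5 * 0) / 2)) :=
        ((hDlim.mul ((hDlim.add_const 18).sub (hδ0.const_mul 5))).div_const 2)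
      have h2 : (2 * Δ) * (2 * Δ + 18 - 5 * 0) / 2 = -28 := by rw [hΔ2]; norm_num
      rw [h2] at h1
      refine h1.congr' ?_
      filter_upwards [hodd] with w hw
      rw [hc1, hΔ2] at hw
      have e : D w = δ w * w ^ 2 := rfl
      linear_combination (w ^ 2 / 2) * hw + ((D w + 18 - 5 * δ w) / 2) * e
    have hZ2 : Tendsto (fun w => w ^ 2 * (D w + 4)) atTop (𝓝 (-20)) := by
      have h1 : Tendsto (fun w => (4 + δ w) * D w - 13 * (δ w - 1) * δ w - 4) atTop
          (𝓝 ((4 + 0) * (2 * Δ) - 13 * (0 - 1) * 0 - 4)) :=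
        (((hδ0.const_add 4).mul hDlim).sub (((hδ0.sub_const 1).const_mul 13).mul hδ0)).sub_const 4
      have h2 : (4 + 0) * (2 * Δ) - 13 * (0 - 1) * 0 - 4 = -20 := by rw [hΔ2]; norm_num
      rw [h2] at h1
      refine h1.congr' ?_
      filter_upwards [heven] with w hw
      rw [hc1, hΔ2] at hw
      linear_combination (-1) * hw
    have := tendsto_nhds_unique hZ1 hZ2
    norm_num at this
  refine ⟨?_, ?_⟩
  · have h : κ * (κ - 1) * (κ + 2) = 0 := by linarith
    rcases mul_eq_zero.1 h with h | h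
    · rcases mul_eq_zero.1 h with h | h
      · exact Or.inl h
      · right; left; linarith
    · right; right; linarith
  · have hz : ∀ᶠ w : ℝ in atTop, δ w = 0 := by
      have hsmall : ∀ᶠ w : ℝ in atTop, -1 < δ w := hδ0.eventually_const_lt (by norm_num)
      filter_upwards [hpair, hsmall, eventually_gt_atTop (3 : ℝ),
        eventually_gt_atTop (|2 * κ| + 1)] with w hw hs hw3 hwk
      have h := hw.1
      rw [hΔ0] at h
      have hk : -|2 * κ| ≤ 2 * κ := neg_abs_le _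
      have h1 : (1 + w + 2 * κ + δ w) ≠ 0 := by
        intro h; linarith
      have h2 : ((1 + w) ^ 3 - 4 * (1 + w) ^ 2 - 8 * 0) ≠ 0 := by
        have : (1 + w) ^ 3 - 4 * (1 + w) ^ 2 - 8 * 0 = (1 + w) ^ 2 * (w - 3) := by ring
        rw [this]
        have h4 : 0 < (1 + w) ^ 2 := by positivity
        have h5 : 0 < w - 3 := by linarith
        positivity
      have h3 : δ w * (1 + w + 2 * κ + δ w) * ((1 + w) ^ 3 - 4 * (1 + w) ^ 2 - 8 * 0) = 0 := by
        rw [h]; ring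
      rcases mul_eq_zero.1 h3 with h3 | h3
      · rcases mul_eq_zero.1 h3 with h3 | h3
        · exact h3
        · exact absurd h3 h1
      · exact absurd h3 h2
    obtain ⟨W, hW⟩ := eventually_atTop.1 hz
    set V := max W 2 with hV
    have hV2 : 2 ≤ V := le_max_right _ _
    have hVW : W ≤ V := le_max_left _ _
    have hVpos : 0 < V ^ 2 - 1 := by nlinarith
    refine ⟨1 / (V ^ 2 - 1), by positivity, ?_⟩
    intro E hE0 hE1
    have h1 : V ^ 2 - 1 < 1 / E := by
      rw [lt_div_iff₀ hE0]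
      rw [lt_div_iff₀ hVpos] at hE1
      linarith
    have h2 : V ≤ Real.sqrt (1 + 1 / E) := by
      apply Real.le_sqrt_of_sq_le
      linarith
    have h3 := hW (Real.sqrt (1 + 1 / E)) (le_trans hVW h2)
    have h4 : Real.sqrt (1 + 1 / E) ^ 2 = 1 + 1 / E := Real.sq_sqrt (by positivity)
    have h5 : (1 : ℝ) / (Real.sqrt (1 + 1 / E) ^ 2 - 1) = E := by
      rw [h4]
      have : 1 + 1 / E - 1 = 1 / E := by ring
      rw [this, one_div_one_div]
    simp only [hδ] at h3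
    rw [h5] at h3
    linarith

end Pool.Agent.Pon30
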