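import Pool.Agent.Pon30.StmtsC

/-!
# MP_02df19_gt, whole ellipses: the real axis without a jet (definitions)
-/

set_option autoImplicit false

namespace Pool.Agent.Pon30

open Complex Filter Topology

/-- `x` with `u = x / (1 + x) ^ 2`, `|x| < 1` -/
noncomputable def xi (u : ℝ) : ℝ := (1 - √(1 - 4 * u)) / (1 + √(1 - 4 * u))

/-- the centre of the isosceles triangle with apex `A`, centroid `G` and shape `x` is `G + M (A - G)` -/
noncomputable def Mv (h : ℂ → ℂ) (u : ℝ) : ℝ := (h (xi u : ℝ)).re / (1 + xi u)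

/-- the relation between the three isosceles triangles of a real pair -/
def RR (M : ℝ → ℝ) (F e : ℝ) : Prop :=
  ∀ m₁ m₂ m₃ b y : ℝ,
    m₁ = M (2 * F ^ 2 * e / ((3 + F) * (3 * (1 - F) + 2 * F * e))) →
    m₂ = M (2 * F ^ 2 * (1 - e) / ((3 + F + 2 * F * e) * (3 - F))) →
    m₃ = M (-4 * F ^ 2 * e * (1 - e) / ((3 * (1 - F) + 2 * F * e) * (3 + F + 2 * F * e))) →
    b = 1 + m₂ * (3 - F) / F → y = 1 - m₁ * (3 + F) / F →
    b ^ 2 * ((3 + F) / F * (m₃ + 2 * m₁) - 6 * e * m₃ / F + m₃ ^ 2 * ((3 + F) * (3 - 2 * F) / F ^ 2 + 6 * e / F) -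
        m₁ ^ 2 * ((3 + F) / F) ^ 2) =
      (b ^ 2 - y ^ 2) * ((3 + F - 2 * e) / (1 - F + 2 * F * e)) * (e - m₃ * (3 * (1 - F) + 2 * F * e) / (2 * F)) ^ 2

end Pool.Agent.Pon30
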