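import Pool.Agent.Pon30.LamC41
import Pool.Agent.Pon30.StmtsR34

/-!
# MP_02df19_gt: the isosceles members of a pair with parallel axes
-/

set_option autoImplicit false

namespace Pool.Agent.Pon30.Ar37

open Complex

theorem w2 : ω ^ 2 + ω + 1 = 0 := by
  rw [ω_sq]; linear_combination ω_sum

theorem PR_sub (w₀ w₁ w₂ : ℂ) : 3 * (Pc w₀ w₁ w₂ - Rc w₀ w₁ w₂) ^ 2 = - (w₁ - w₂) ^ 2 := by
  unfold Pc Rc
  rw [cj_ω_eq]
  linear_combination (4 / 3 * (w₁ - w₂) ^ 2) * w2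

theorem PR_add (w₀ w₁ w₂ : ℂ) : Pc w₀ w₁ w₂ + Rc w₀ w₁ w₂ = w₀ - Gc w₀ w₁ w₂ := by
  unfold Pc Rc Gc
  rw [cj_ω_eq]
  ring

/-- a member whose shape is real -/
theorem gen (h : ℂ → ℂ) (q F : ℝ) (b z₀ z₁ z₂ : ℂ) (V : ℝ) (hq : |q| < 1) (hz : Tz F z₀ z₁ z₂)
    (hb : z₁ * z₂ = b) (hV : 0 < V)
    (hPR : (Pc (L 1 q z₀) (L 1 q z₁) (L 1 q z₂) - Rc (L 1 q z₀) (L 1 q z₁) (L 1 q z₂)) ^ 2 =
      V * (Pc (L 1 q z₀) (L 1 q z₁) (L 1 q z₂) + Rc (L 1 q z₀) (L 1 q z₁) (L 1 q z₂)) ^ 2)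
    (hr : (h ((1 - √V) / (1 + √V) : ℝ)).im = 0) :
    Xh h (L 1 q z₀) (L 1 q z₁) (L 1 q z₂) =
        L 1 q (z₀ * (((h ((1 - √V) / (1 + √V) : ℝ)).re / (1 + (1 - √V) / (1 + √V)) : ℝ) - (F / 3) * b *
          (1 - ((h ((1 - √V) / (1 + √V) : ℝ)).re / (1 + (1 - √V) / (1 + √V)) : ℝ)))) := by
  have hqn : ‖(q : ℂ)‖ < ‖(1 : ℂ)‖ := by
    rw [norm_one, Complex.norm_real]; exact hq
  have hor := or_L hqn hz.or
  have hG : L 1 q z₀ - Gc (L 1 q z₀) (L 1 q z₁) (L 1 q z₂) = L 1 q (z₀ - Gc z₀ z₁ z₂) := by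
    rw [Gc_L]; unfold L; simp only [map_sub]; ring
  have hadd := PR_add (L 1 q z₀) (L 1 q z₁) (L 1 q z₂)
  rw [hG] at hadd
  have hXdef : Xh h (L 1 q z₀) (L 1 q z₁) (L 1 q z₂) = L 1 q (Gc z₀ z₁ z₂) + Pc (L 1 q z₀) (L 1 q z₁) (L 1 q z₂) *
      h (Rc (L 1 q z₀) (L 1 q z₁) (L 1 q z₂) / Pc (L 1 q z₀) (L 1 q z₁) (L 1 q z₂)) := by
    unfold Xh; rw [Gc_L]
  rw [hXdef]
  have hGz : Gc z₀ z₁ z₂ = -(z₀ * b) * F / 3 := by
    rw [hz.G_eq, ← hb, Complex.conj_ofReal]; ring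
  rw [hGz] at hadd ⊢
  generalize Pc (L 1 q z₀) (L 1 q z₁) (L 1 q z₂) = P at *
  generalize Rc (L 1 q z₀) (L 1 q z₁) (L 1 q z₂) = R at *
  have hP : P ≠ 0 := by
    intro h0
    rw [h0, norm_zero] at hor
    exact absurd hor (not_lt.mpr (norm_nonneg _))
  have hPR0 : P + R ≠ 0 := by
    intro h0
    have : R = -P := by linear_combination h0
    rw [this, norm_neg] at hor
    exact lt_irrefl _ hor
  -- the ratio
  have hs := Real.sq_sqrt hV.le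
  have hsp := Real.sqrt_pos.mpr hV
  have hfac : (P - R - (√V : ℝ) * (P + R)) * (P - R + (√V : ℝ) * (P + R)) = 0 := by
    have : ((√V : ℝ) : ℂ) ^ 2 = V := by exact_mod_cast hs
    linear_combination hPR - (P + R) ^ 2 * this
  have hpos : ¬ (P - R + (√V : ℝ) * (P + R) = 0) := by
    intro h0
    have h1 : ((P - R) * (starRingEnd ℂ) (P + R)).re = -(√V * ‖P + R‖ ^ 2) := by
      have : (P - R) * (starRingEnd ℂ) (P + R) = -((√V * ‖P + R‖ ^ 2 : ℝ) : ℂ) := by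
        push_cast
        rw [nsq' (P + R)]
        linear_combination (starRingEnd ℂ) (P + R) * h0
      rw [this, ← Complex.ofReal_neg, Complex.ofReal_re]
    have h2 : ((P - R) * (starRingEnd ℂ) (P + R)).re = ‖P‖ ^ 2 - ‖R‖ ^ 2 := by
      rw [nsq_re, nsq_re]
      simp only [map_add, Complex.mul_re, Complex.sub_re, Complex.add_re, Complex.conj_re, Complex.sub_im,
        Complex.add_im, Complex.conj_im]
      ring
    have h3 : 0 < ‖P + R‖ := norm_pos_iff.mpr hPR0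
    have h4 : ‖R‖ ^ 2 < ‖P‖ ^ 2 := by nlinarith [norm_nonneg R, norm_nonneg P]
    have h5 : 0 < √V * ‖P + R‖ ^ 2 := by positivity
    linarith
  have hlin : P - R - (√V : ℝ) * (P + R) = 0 := (mul_eq_zero.mp hfac).resolve_right hpos
  set r := √V with hrdef
  have h1r : 1 + r ≠ 0 := by positivity
  have h1rc : (1 + r : ℂ) ≠ 0 := by exact_mod_cast h1r
  have hx1 : 1 + (1 - r) / (1 + r) = 2 / (1 + r) := by field_simp; ring
  have hxr : R / P = ((1 - r) / (1 + r) : ℝ) := by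
    rw [div_eq_iff hP]
    push_cast
    field_simp
    linear_combination -hlin
  rw [hxr]
  have hre : h ((1 - r) / (1 + r) : ℝ) = ((h ((1 - r) / (1 + r) : ℝ)).re : ℝ) := by
    apply Complex.ext
    · simp
    · rw [hr]; simp
  generalize (h ((1 - r) / (1 + r) : ℝ)).re = k at hre ⊢
  rw [hre, hx1]
  have hk : P * k = (k / (2 / (1 + r)) : ℝ) * (P + R) := by
    push_cast
    field_simp
    linear_combination (k : ℂ) * hlin
  rw [hk, hadd]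
  generalize k / (2 / (1 + r)) = M
  unfold L
  simp only [map_sub, map_mul, map_div₀, map_neg, map_one, Complex.conj_ofReal, map_ofNat]
  ring

theorem cyc {F z₀ z₁ z₂ : ℂ} (h : Tz F z₀ z₁ z₂) : Tz F z₁ z₂ z₀ := by
  refine ⟨h.n₁, h.n₂, h.n₀, ?_, by rw [← h.s2]; ring⟩
  have e1 : Rc z₁ z₂ z₀ = (starRingEnd ℂ) ω * Rc z₀ z₁ z₂ := by
    unfold Rc
    rw [cj_ω_eq]
    linear_combination ((1 / 3) * z₁ - (1 / 3) * z₂) * w2
  have e2 : Pc z₁ z₂ z₀ = ω * Pc z₀ z₁ z₂ := by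
    unfold Pc
    rw [cj_ω_eq]
    linear_combination ((1 / 3) * z₁ - (1 / 3) * z₂) * w2
  rw [e1, e2, norm_mul, norm_mul, RCLike.norm_conj, ω_norm, one_mul, one_mul]
  exact h.or

/-- the triple with apex `z₀` -/
theorem exi (F : ℝ) (hF : |F| < 1) (β z₀ : ℂ) (hβ : ‖β‖ = 1) (hz₀ : ‖z₀‖ = 1) (h : z₀ ^ 2 * (1 + F * β) = β + F) :
    ∃ z₁ z₂, Tz F z₀ z₁ z₂ ∧ z₁ * z₂ = β := by
  obtain ⟨t₀, t₁, t₂, ht, hl⟩ := lamC41 F (z₀ * β) (by rw [Complex.norm_real]; exact hF) (by rw [norm_mul, hβ, hz₀, one_mul])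
  have hz0 : z₀ ≠ 0 := by
    intro h0; rw [h0, norm_zero] at hz₀; exact zero_ne_one hz₀
  have hs1 := ht.s1
  rw [hl, Complex.conj_ofReal] at hs1
  have hs2 := ht.s2
  have hroot : (z₀ - t₀) * ((z₀ - t₁) * (z₀ - t₂)) = 0 := by
    linear_combination z₀ * h - z₀ ^ 2 * hs1 + z₀ * hs2 - hl
  rcases mul_eq_zero.mp hroot with h0 | h0
  · have e : t₀ = z₀ := by linear_combination -h0
    rw [e] at ht hl
    exact ⟨t₁, t₂, ht, mul_left_cancel₀ hz0 (by linear_combination hl)⟩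
  · rcases mul_eq_zero.mp h0 with h0 | h0
    · have e : t₁ = z₀ := by linear_combination -h0
      rw [e] at ht hl
      exact ⟨t₂, t₀, cyc ht, mul_left_cancel₀ hz0 (by linear_combination hl)⟩
    · have e : t₂ = z₀ := by linear_combination -h0
      rw [e] at ht hl
      exact ⟨t₀, t₁, cyc (cyc ht), mul_left_cancel₀ hz0 (by linear_combination hl)⟩

/-- data of the member with `z₁ z₂ = β` of the real pair `(1, q, F)` -/
theorem data (F : ℝ) (β z₀ z₁ z₂ : ℂ) (hz : Tz F z₀ z₁ z₂) (hb : z₁ * z₂ = β) :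
    z₁ + z₂ = -z₀ * (1 + F * β) ∧ (starRingEnd ℂ) z₁ - (starRingEnd ℂ) z₂ = -(z₁ - z₂) * (starRingEnd ℂ) β ∧
    (z₁ - z₂) ^ 2 = (β + F) * (1 + F * β) - 4 * β ∧ z₀ ^ 2 * (1 + F * β) = β + F := by
  have c0 := hz.cj0
  have c1 := hz.cj1
  have c2 := hz.cj2
  have hs1 := hz.s1
  rw [Complex.conj_ofReal] at hs1
  have e1 : z₁ + z₂ = -z₀ * (1 + F * β) := by rw [← hb]; linear_combination hs1
  have e4 : z₀ ^ 2 * (1 + F * β) = β + F := by rw [← hb] at e1 ⊢; linear_combination z₀ * e1 - hz.s2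
  refine ⟨e1, ?_, ?_, e4⟩
  · rw [← hb, map_mul]
    linear_combination (starRingEnd ℂ) z₂ * c1 - (starRingEnd ℂ) z₁ * c2
  · have : (z₁ - z₂) ^ 2 = (z₁ + z₂) ^ 2 - 4 * (z₁ * z₂) := by ring
    rw [this, e1, hb]
    linear_combination (1 + F * β) * e4

/-- the member is isosceles if `F (1 + q²) + q (3 + F² + 2 F cos) = 0` -/
theorem iso3 (q F c : ℝ) (β z₀ z₁ z₂ : ℂ) (hβ : ‖β‖ = 1) (hc : β.re = c) (hz : Tz F z₀ z₁ z₂) (hb : z₁ * z₂ = β)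
    (hF0 : F ≠ 0) (hq0 : q ≠ 0) (hq : |q| < 1)
    (hrel : F * (1 + q ^ 2) + q * (3 + F ^ 2 + 2 * F * c) = 0) :
    (Pc (L 1 q z₀) (L 1 q z₁) (L 1 q z₂) - Rc (L 1 q z₀) (L 1 q z₁) (L 1 q z₂)) ^ 2 =
      ((3 * (3 - (F ^ 2 + 2 * F * c)) * (1 + (F ^ 2 + 2 * F * c)) * q ^ 2 / (F ^ 2 * (1 - q ^ 2) ^ 2) : ℝ) : ℂ) *
        (Pc (L 1 q z₀) (L 1 q z₁) (L 1 q z₂) + Rc (L 1 q z₀) (L 1 q z₁) (L 1 q z₂)) ^ 2 := by
  obtain ⟨e1, e2, e3, e4⟩ := data F β z₀ z₁ z₂ hz hb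
  have hβ1 : β * (starRingEnd ℂ) β = 1 := by rw [← nsq, hβ]; norm_num
  have hcc : 2 * (c : ℂ) = β + (starRingEnd ℂ) β := by
    apply Complex.ext
    · simp [← hc]; ring
    · simp
  have hs1 := hz.s1
  rw [Complex.conj_ofReal] at hs1
  have c0 := hz.cj0
  have hz0 : z₀ ≠ 0 := by
    intro h0; rw [h0] at c0; simp at c0
  have hF0c : (F : ℂ) ≠ 0 := by exact_mod_cast hF0
  have hq0c : (q : ℂ) ≠ 0 := by exact_mod_cast hq0
  have h1q : (1 - (q : ℂ) ^ 2) ≠ 0 := by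
    have : (1 : ℝ) - q ^ 2 ≠ 0 := by
      have := abs_lt.mp hq
      nlinarith
    exact_mod_cast this
  have hrelc : (F : ℂ) * (1 + q ^ 2) + q * (3 + F ^ 2 + F * (β + (starRingEnd ℂ) β)) = 0 := by
    have : ((F * (1 + q ^ 2) + q * (3 + F ^ 2 + 2 * F * c) : ℝ) : ℂ) = 0 := by exact_mod_cast hrel
    push_cast at this
    linear_combination this - q * F * hcc
  -- the two differences
  have hsub : 3 * (Pc (L 1 q z₀) (L 1 q z₁) (L 1 q z₂) - Rc (L 1 q z₀) (L 1 q z₁) (L 1 q z₂)) ^ 2 =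
      -((z₁ - z₂) * (1 - q * (starRingEnd ℂ) β)) ^ 2 := by
    rw [PR_sub]
    have : L 1 q z₁ - L 1 q z₂ = (z₁ - z₂) * (1 - q * (starRingEnd ℂ) β) := by
      unfold L
      linear_combination (q : ℂ) * e2
    rw [this]
  have hadd : Pc (L 1 q z₀) (L 1 q z₁) (L 1 q z₂) + Rc (L 1 q z₀) (L 1 q z₁) (L 1 q z₂) =
      z₀ * (1 + F * β / 3) + q * ((starRingEnd ℂ) z₀ * (1 + F * (starRingEnd ℂ) β / 3)) := by
    rw [PR_add, Gc_L, hz.G_eq, mul_assoc z₀, hb, Complex.conj_ofReal]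
    unfold L
    simp only [map_mul, map_neg, map_div₀, Complex.conj_ofReal, map_ofNat]
    ring
  have hE1 : (β + F) * (1 + F * β) = β * (1 + (F ^ 2 + 2 * F * c)) := by
    linear_combination (-F * β) * hcc - F * hβ1
  generalize Pc (L 1 q z₀) (L 1 q z₁) (L 1 q z₂) - Rc (L 1 q z₀) (L 1 q z₁) (L 1 q z₂) = A at *
  generalize Pc (L 1 q z₀) (L 1 q z₁) (L 1 q z₂) + Rc (L 1 q z₀) (L 1 q z₁) (L 1 q z₂) = B at *
  have hA : 3 * A ^ 2 = (3 - (F ^ 2 + 2 * F * c)) * (starRingEnd ℂ) β * (β - q) ^ 2 := by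
    have h1 : (z₁ - z₂) ^ 2 = β * ((F ^ 2 + 2 * F * c) - 3) := by rw [e3, hE1]; ring
    rw [hsub, mul_pow, h1]
    have h2 : β * (1 - q * (starRingEnd ℂ) β) ^ 2 = (starRingEnd ℂ) β * (β - q) ^ 2 := by
      linear_combination (-β + (starRingEnd ℂ) β * q ^ 2) * hβ1
    linear_combination (3 - (F ^ 2 + 2 * F * c)) * h2
  have hB1 : 3 * q * (z₀ * (1 + F * β)) * B = -(F * (1 - q ^ 2) * (β - q)) := by
    rw [hadd]
    linear_combination (β + q) * hrelc + 3 * q * (1 + F * β / 3) * e4 + 3 * q ^ 2 * (1 + F * β) * (1 + F * (starRingEnd ℂ) β / 3) * c0 -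
      (q * F - q ^ 2 * F ^ 2) * hβ1
  have hB : B ^ 2 * (9 * q ^ 2 * β * (1 + (F ^ 2 + 2 * F * c))) = F ^ 2 * (1 - q ^ 2) ^ 2 * (β - q) ^ 2 := by
    have h1 : (3 * q * (z₀ * (1 + F * β)) * B) ^ 2 = (F * (1 - q ^ 2) * (β - q)) ^ 2 := by rw [hB1]; ring
    linear_combination h1 - 9 * q ^ 2 * B ^ 2 * (1 + F * β) * e4 - 9 * q ^ 2 * B ^ 2 * hE1
  push_cast
  rw [div_mul_eq_mul_div, eq_div_iff (mul_ne_zero (pow_ne_zero 2 hF0c) (pow_ne_zero 2 h1q))]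
  linear_combination (F ^ 2 * (1 - q ^ 2) ^ 2 / 3) * hA - ((3 - (F ^ 2 + 2 * F * c)) * (starRingEnd ℂ) β / 3) * hB +
    (3 * (3 - (F ^ 2 + 2 * F * c)) * (1 + (F ^ 2 + 2 * F * c)) * q ^ 2 * B ^ 2) * hβ1

/-- the member with `z₁ z₂ = 1` -/
theorem iso1 (q F : ℝ) (z₀ z₁ z₂ : ℂ) (hz : Tz F z₀ z₁ z₂) (hb : z₁ * z₂ = 1) (hF : |F| < 1) (hq : |q| < 1) :
    (Pc (L 1 q z₀) (L 1 q z₁) (L 1 q z₂) - Rc (L 1 q z₀) (L 1 q z₁) (L 1 q z₂)) ^ 2 =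
      ((3 * (1 - F) * (1 - q) ^ 2 / ((3 + F) * (1 + q) ^ 2) : ℝ) : ℂ) *
        (Pc (L 1 q z₀) (L 1 q z₁) (L 1 q z₂) + Rc (L 1 q z₀) (L 1 q z₁) (L 1 q z₂)) ^ 2 := by
  obtain ⟨e1, e2, e3, e4⟩ := data F 1 z₀ z₁ z₂ hz hb
  have c0 := hz.cj0
  obtain ⟨f1, f2⟩ := abs_lt.mp hF
  obtain ⟨q1, q2⟩ := abs_lt.mp hq
  have h1F : (1 + F : ℂ) ≠ 0 := by
    have : (1 : ℝ) + F ≠ 0 := by linarith
    exact_mod_cast this
  have h3F : (3 + F : ℂ) ≠ 0 := by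
    have : (3 : ℝ) + F ≠ 0 := by linarith
    exact_mod_cast this
  have h1q : (1 + q : ℂ) ≠ 0 := by
    have : (1 : ℝ) + q ≠ 0 := by linarith
    exact_mod_cast this
  have z2 : z₀ ^ 2 = 1 := by
    apply mul_right_cancel₀ h1F
    linear_combination e4
  have hzc : (starRingEnd ℂ) z₀ = z₀ := by
    have hz0 : z₀ ≠ 0 := by
      intro h0; rw [h0] at c0; simp at c0
    apply mul_left_cancel₀ hz0
    linear_combination c0 - z2
  have hsub : 3 * (Pc (L 1 q z₀) (L 1 q z₁) (L 1 q z₂) - Rc (L 1 q z₀) (L 1 q z₁) (L 1 q z₂)) ^ 2 =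
      -((z₁ - z₂) * (1 - q)) ^ 2 := by
    rw [PR_sub]
    have : L 1 q z₁ - L 1 q z₂ = (z₁ - z₂) * (1 - q) := by
      unfold L
      rw [map_one] at e2
      linear_combination (q : ℂ) * e2
    rw [this]
  have hadd : Pc (L 1 q z₀) (L 1 q z₁) (L 1 q z₂) + Rc (L 1 q z₀) (L 1 q z₁) (L 1 q z₂) =
      z₀ * ((1 + F / 3) * (1 + q)) := by
    rw [PR_add, Gc_L, hz.G_eq, mul_assoc z₀, hb, Complex.conj_ofReal]
    unfold L
    simp only [map_mul, map_neg, map_div₀, Complex.conj_ofReal, map_ofNat, map_one, hzc]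
    ring
  rw [hadd]
  push_cast
  rw [div_mul_eq_mul_div, eq_div_iff (mul_ne_zero h3F (pow_ne_zero 2 h1q))]
  linear_combination ((3 + F) * (1 + q) ^ 2 / 3) * hsub - ((3 + F) * (1 + q) ^ 2 / 3) * (1 - q) ^ 2 * e3 -
    (3 * (1 - F) * (1 - q) ^ 2 * ((1 + F / 3) * (1 + q)) ^ 2) * z2

/-- the member with `z₁ z₂ = -1` -/
theorem iso2 (q F : ℝ) (z₀ z₁ z₂ : ℂ) (hz : Tz F z₀ z₁ z₂) (hb : z₁ * z₂ = -1) (hF : |F| < 1) (hq : |q| < 1) :
    (Pc (L 1 q z₀) (L 1 q z₁) (L 1 q z₂) - Rc (L 1 q z₀) (L 1 q z₁) (L 1 q z₂)) ^ 2 =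
      ((3 * (1 + F) * (1 + q) ^ 2 / ((3 - F) * (1 - q) ^ 2) : ℝ) : ℂ) *
        (Pc (L 1 q z₀) (L 1 q z₁) (L 1 q z₂) + Rc (L 1 q z₀) (L 1 q z₁) (L 1 q z₂)) ^ 2 := by
  obtain ⟨e1, e2, e3, e4⟩ := data F (-1) z₀ z₁ z₂ hz hb
  have c0 := hz.cj0
  obtain ⟨f1, f2⟩ := abs_lt.mp hF
  obtain ⟨q1, q2⟩ := abs_lt.mp hq
  have h1F : (1 - F : ℂ) ≠ 0 := by
    have : (1 : ℝ) - F ≠ 0 := by linarith
    exact_mod_cast this
  have h3F : (3 - F : ℂ) ≠ 0 := by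
    have : (3 : ℝ) - F ≠ 0 := by linarith
    exact_mod_cast this
  have h1q : (1 - q : ℂ) ≠ 0 := by
    have : (1 : ℝ) - q ≠ 0 := by linarith
    exact_mod_cast this
  have z2 : z₀ ^ 2 = -1 := by
    apply mul_right_cancel₀ h1F
    linear_combination e4
  have hzc : (starRingEnd ℂ) z₀ = -z₀ := by
    have hz0 : z₀ ≠ 0 := by
      intro h0; rw [h0] at c0; simp at c0
    apply mul_left_cancel₀ hz0
    linear_combination c0 + z2
  have hsub : 3 * (Pc (L 1 q z₀) (L 1 q z₁) (L 1 q z₂) - Rc (L 1 q z₀) (L 1 q z₁) (L 1 q z₂)) ^ 2 =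
      -((z₁ - z₂) * (1 + q)) ^ 2 := by
    rw [PR_sub]
    have : L 1 q z₁ - L 1 q z₂ = (z₁ - z₂) * (1 + q) := by
      unfold L
      rw [map_neg, map_one] at e2
      linear_combination (q : ℂ) * e2
    rw [this]
  have hadd : Pc (L 1 q z₀) (L 1 q z₁) (L 1 q z₂) + Rc (L 1 q z₀) (L 1 q z₁) (L 1 q z₂) =
      z₀ * ((1 - F / 3) * (1 - q)) := by
    rw [PR_add, Gc_L, hz.G_eq, mul_assoc z₀, hb, Complex.conj_ofReal]
    unfold L
    simp only [map_mul, map_neg, map_div₀, Complex.conj_ofReal, map_ofNat, map_one, hzc]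
    ring
  rw [hadd]
  push_cast
  rw [div_mul_eq_mul_div, eq_div_iff (mul_ne_zero h3F (pow_ne_zero 2 h1q))]
  linear_combination ((3 - F) * (1 - q) ^ 2 / 3) * hsub - ((3 - F) * (1 - q) ^ 2 / 3) * (1 + q) ^ 2 * e3 -
    (3 * (1 + F) * (1 + q) ^ 2 * ((1 - F / 3) * (1 - q)) ^ 2) * z2

/-- the coordinate of a member with real shape -/
theorem mem (h : ℂ → ℂ) (q F u : ℝ) (b z₀ z₁ z₂ : ℂ) (hq : |q| < 1) (hz : Tz F z₀ z₁ z₂)
    (hb : z₁ * z₂ = b) (hV : 0 < 1 - 4 * u)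
    (hPR : (Pc (L 1 q z₀) (L 1 q z₁) (L 1 q z₂) - Rc (L 1 q z₀) (L 1 q z₁) (L 1 q z₂)) ^ 2 =
      ((1 - 4 * u : ℝ) : ℂ) * (Pc (L 1 q z₀) (L 1 q z₁) (L 1 q z₂) + Rc (L 1 q z₀) (L 1 q z₁) (L 1 q z₂)) ^ 2)
    (hr : (h (xi u : ℝ)).im = 0) :
    Xh h (L 1 q z₀) (L 1 q z₁) (L 1 q z₂) = L 1 q (z₀ * (Mv h u - (F / 3) * b * (1 - Mv h u))) :=
  gen h q F b z₀ z₁ z₂ (1 - 4 * u) hq hz hb hV hPR hr

theorem L_re (q : ℝ) (y : ℂ) : (L 1 q y).re = (1 + q) * y.re := by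
  unfold L; simp; ring

theorem L_im (q : ℝ) (y : ℂ) : (L 1 q y).im = (1 - q) * y.im := by
  unfold L; simp; ring

/-- the relation of three points on a conic with known axes -/
theorem conic_rel (A B C y1 y2 S T : ℝ) (hA : 0 ≤ A) (hB : 0 ≤ B) (h0 : 0 < A + B)
    (h1 : A * y1 ^ 2 = C) (h2 : B * y2 ^ 2 = C) (h3 : A * S + B * T = C) :
    S * y2 ^ 2 + T * y1 ^ 2 = y1 ^ 2 * y2 ^ 2 := by
  rcases eq_or_lt_of_le hA with ha | ha
  · rcases eq_or_lt_of_le hB with hb | hb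
    · exfalso; linarith
    · have hC : C = 0 := by rw [← h1, ← ha]; ring
      rw [hC] at h2 h3
      rw [← ha] at h3
      have e2 : y2 ^ 2 = 0 := by
        rcases mul_eq_zero.mp h2 with h | h
        · exact absurd h hb.ne'
        · exact h
      have e3 : T = 0 := by
        have : B * T = 0 := by linarith
        rcases mul_eq_zero.mp this with h | h
        · exact absurd h hb.ne'
        · exact h
      rw [e2, e3]; ring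
  · rcases eq_or_lt_of_le hB with hb | hb
    · have hC : C = 0 := by rw [← h2, ← hb]; ring
      rw [hC] at h1 h3
      rw [← hb] at h3
      have e1 : y1 ^ 2 = 0 := by
        rcases mul_eq_zero.mp h1 with h | h
        · exact absurd h ha.ne'
        · exact h
      have e3 : S = 0 := by
        have : A * S = 0 := by linarith
        rcases mul_eq_zero.mp this with h | h
        · exact absurd h ha.ne'
        · exact h
      rw [e1, e3]; ring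
    · apply mul_left_cancel₀ (mul_ne_zero ha.ne' hb.ne')
      linear_combination A * S * h2 + B * T * h1 - A * y1 ^ 2 * h2 - C * h1 + C * h3
/-- the imaginary part of the coordinate of the third member -/
theorem T_eq (F e m : ℝ) (β z₀ : ℂ) (hF0 : F ≠ 0) (hβ : ‖β‖ = 1) (hz₀ : ‖z₀‖ = 1) (hre : β.re = -(1 + F) / 2 + e)
    (h : z₀ ^ 2 * (1 + F * β) = β + F) (hpos : 1 - F + 2 * F * e ≠ 0) :
    (z₀ * (m - (F / 3) * β * (1 - m))).im ^ 2 = (F / 3) ^ 2 *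
      (((3 + F - 2 * e) / (1 - F + 2 * F * e)) * (e - m * (3 * (1 - F) + 2 * F * e) / (2 * F)) ^ 2) := by
  have hβ1 : β * (starRingEnd ℂ) β = 1 := by rw [← nsq, hβ]; norm_num
  have c0 : z₀ * (starRingEnd ℂ) z₀ = 1 := by rw [← nsq, hz₀]; norm_num
  have hβ0 : β ≠ 0 := by
    intro h0; rw [h0] at hβ1; simp at hβ1
  have hz0 : z₀ ≠ 0 := by
    intro h0; rw [h0] at c0; simp at c0
  have hF0c : (F : ℂ) ≠ 0 := by exact_mod_cast hF0
  have hposc : (1 - F + 2 * F * e : ℂ) ≠ 0 := by exact_mod_cast hpos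
  have hbi : (starRingEnd ℂ) β = β⁻¹ := by
    field_simp; linear_combination hβ1
  have hzi : (starRingEnd ℂ) z₀ = z₀⁻¹ := by
    field_simp; linear_combination c0
  have he : (e : ℂ) = (β + β⁻¹ + 1 + F) / 2 := by
    have : (2 * e : ℂ) = β + (starRingEnd ℂ) β + 1 + F := by
      apply Complex.ext
      · simp [hre]; ring
      · simp
    rw [hbi] at this
    linear_combination this / 2
  have hsq : ∀ w : ℂ, ((w.im ^ 2 : ℝ) : ℂ) = (2 * (w * (starRingEnd ℂ) w) - w ^ 2 - (starRingEnd ℂ) w ^ 2) / 4 := by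
    intro w
    apply Complex.ext
    · simp [pow_two]; ring
    · simp [pow_two]; ring
  have key : (((z₀ * (m - (F / 3) * β * (1 - m))).im ^ 2 : ℝ) : ℂ) = (((F / 3) ^ 2 *
      (((3 + F - 2 * e) / (1 - F + 2 * F * e)) * (e - m * (3 * (1 - F) + 2 * F * e) / (2 * F)) ^ 2) : ℝ) : ℂ) := by
    rw [hsq]
    push_cast
    simp only [map_mul, map_sub, map_div₀, Complex.conj_ofReal, map_ofNat, map_one, hbi, hzi]
    have h1 : (1 - F + 2 * F * e : ℂ) = (1 + F * β) * (1 + F * β⁻¹) := by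
      rw [he]; field_simp; ring
    have h1b : (1 + F * β : ℂ) ≠ 0 := by
      intro h0; rw [h0, zero_mul] at h1; exact hposc h1
    have h1c : (1 + F * β⁻¹ : ℂ) ≠ 0 := by
      intro h0; rw [h0, mul_zero] at h1; exact hposc h1
    have h2 : z₀ ^ 2 = (β + F) / (1 + F * β) := by rw [eq_div_iff h1b, h]
    have h3 : z₀⁻¹ ^ 2 = (1 + F * β) / (β + F) := by
      rw [inv_pow, h2, inv_div]
    have h4 : (β + F : ℂ) ≠ 0 := by
      rw [← h]; exact mul_ne_zero (pow_ne_zero 2 hz0) h1b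
    rw [h1]
    have e1 : (z₀ * (m - F / 3 * β * (1 - m))) ^ 2 = (β + F) / (1 + F * β) * (m - F / 3 * β * (1 - m)) ^ 2 := by
      rw [mul_pow, h2]
    have e2 : (z₀⁻¹ * (m - F / 3 * β⁻¹ * (1 - m))) ^ 2 = (1 + F * β) / (β + F) * (m - F / 3 * β⁻¹ * (1 - m)) ^ 2 := by
      rw [mul_pow, h3]
    have e3 : z₀ * (m - F / 3 * β * (1 - m)) * (z₀⁻¹ * (m - F / 3 * β⁻¹ * (1 - m))) =
        (m - F / 3 * β * (1 - m)) * (m - F / 3 * β⁻¹ * (1 - m)) := by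
      field_simp
    rw [e1, e2, e3, he]
    have h5 : (1 + F * β⁻¹ : ℂ) = (β + F) / β := by field_simp
    rw [h5]
    field_simp
    ring
  exact_mod_cast key

theorem xi_le (u : ℝ) (hu : |u| ≤ 1 / 8) : |xi u| ≤ 4 * |u| := by
  have h1 : 0 ≤ 1 - 4 * u := by have := abs_le.mp hu; linarith
  have h2 := Real.sq_sqrt h1
  have h3 := Real.sqrt_nonneg (1 - 4 * u)
  unfold xi
  set r := √(1 - 4 * u)
  have e : (1 - r) / (1 + r) = 4 * u / (1 + r) ^ 2 := by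
    have : 1 + r ≠ 0 := by positivity
    field_simp
    linear_combination -h2
  rw [e, abs_div, abs_mul, abs_of_pos (by positivity : (0 : ℝ) < (1 + r) ^ 2), abs_of_pos (by norm_num : (0 : ℝ) < 4),
    div_le_iff₀ (by positivity)]
  have : 1 ≤ (1 + r) ^ 2 := by nlinarith
  nlinarith [abs_nonneg u]

/-- a unit square root -/
theorem exz (F : ℝ) (β : ℂ) (hβ : ‖β‖ = 1) (hF : |F| < 1) : ∃ z₀ : ℂ, ‖z₀‖ = 1 ∧ z₀ ^ 2 * (1 + F * β) = β + F := by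
  obtain ⟨z, hz⟩ := IsAlgClosed.exists_pow_nat_eq ((β + F) / (1 + F * β)) (n := 2) (by norm_num)
  have hβ1 : β * (starRingEnd ℂ) β = 1 := by rw [← nsq, hβ]; norm_num
  have h1 : (1 + F * β : ℂ) ≠ 0 := by
    intro h0
    have h2 : (F * β : ℂ) = -1 := by linear_combination h0
    have h3 := congrArg norm h2
    rw [norm_mul, hβ, Complex.norm_real, norm_neg, norm_one, mul_one, Real.norm_eq_abs] at h3
    linarith
  have h4 : (β + F : ℂ) = β * (starRingEnd ℂ) (1 + F * β) := by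
    simp only [map_add, map_mul, map_one, Complex.conj_ofReal]
    linear_combination (-F : ℂ) * hβ1
  have h5 : ‖(β + F : ℂ)‖ = ‖(1 + F * β : ℂ)‖ := by
    rw [h4, norm_mul, hβ, RCLike.norm_conj, one_mul]
  refine ⟨z, ?_, ?_⟩
  · have h6 := congrArg norm hz
    rw [norm_pow, norm_div, h5, div_self (norm_ne_zero_iff.mpr h1)] at h6
    nlinarith [norm_nonneg z]
  · rw [hz, div_mul_cancel₀ _ h1]

theorem pos_all (F e : ℝ) (hF2 : |F| < 1 / 8) (he2 : |e| < 1 / 8) :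
    0 < 3 + F ∧ 2 < 3 * (1 - F) + 2 * F * e ∧ 2 < 3 + F + 2 * F * e ∧ 0 < 3 - F ∧ 0 < 1 - F + 2 * F * e ∧
      2 < 3 - F + 2 * F * e := by
  obtain ⟨f1, f2⟩ := abs_lt.mp hF2
  have hFe : |F * e| ≤ 1 / 64 := by
    rw [abs_mul]
    nlinarith [abs_nonneg F, abs_nonneg e]
  obtain ⟨g1, g2⟩ := abs_le.mp hFe
  refine ⟨by linarith, by linarith, by linarith, by linarith, by linarith, by linarith⟩

theorem u_bd (F n d : ℝ) (hF2 : |F| < 1 / 8) (hn : |n| ≤ 8 * F ^ 2) (hd : 1 ≤ d) : |n / d| ≤ |F| := by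
  have hFF : F ^ 2 = |F| * |F| := by rw [← abs_mul, ← sq, abs_of_nonneg (sq_nonneg F)]
  rw [abs_div, abs_of_pos (by linarith : 0 < d), div_le_iff₀ (by linarith)]
  have h0 := abs_nonneg F
  have h1 : 8 * F ^ 2 ≤ |F| := by rw [hFF]; nlinarith
  nlinarith

theorem u_all (F e : ℝ) (hF2 : |F| < 1 / 8) (he2 : |e| < 1 / 8) :
    |2 * F ^ 2 * e / ((3 + F) * (3 * (1 - F) + 2 * F * e))| ≤ |F| ∧
    |2 * F ^ 2 * (1 - e) / ((3 + F + 2 * F * e) * (3 - F))| ≤ |F| ∧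
    |-4 * F ^ 2 * e * (1 - e) / ((3 * (1 - F) + 2 * F * e) * (3 + F + 2 * F * e))| ≤ |F| := by
  obtain ⟨p1, p2, p3, p4, p5, p6⟩ := pos_all F e hF2 he2
  obtain ⟨f1, f2⟩ := abs_lt.mp hF2
  obtain ⟨e1, e2⟩ := abs_lt.mp he2
  have hs := sq_nonneg F
  have h1e : |1 - e| ≤ 2 := by rw [abs_le]; constructor <;> linarith
  refine ⟨u_bd F _ _ hF2 ?_ ?_, u_bd F _ _ hF2 ?_ ?_, u_bd F _ _ hF2 ?_ ?_⟩
  · rw [abs_mul, abs_of_nonneg (by positivity : 0 ≤ 2 * F ^ 2)]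
    nlinarith [abs_nonneg e]
  · nlinarith
  · rw [abs_mul, abs_of_nonneg (by positivity : 0 ≤ 2 * F ^ 2)]
    nlinarith [abs_nonneg (1 - e)]
  · nlinarith
  · rw [abs_mul, abs_mul]
    have h4 : |-4 * F ^ 2| = 4 * F ^ 2 := by
      rw [abs_mul, abs_of_nonneg hs]; norm_num
    rw [h4]
    have h3 : |e| * |1 - e| ≤ 1 := by nlinarith [abs_nonneg e, abs_nonneg (1 - e)]
    have h5 : 4 * F ^ 2 * |e| * |1 - e| = 4 * F ^ 2 * (|e| * |1 - e|) := by ring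
    rw [h5]
    nlinarith
  · nlinarith

/-- the pair with a third isosceles member -/
theorem exq (F e : ℝ) (hF0 : F ≠ 0) (hF2 : |F| < 1 / 8) (he2 : |e| < 1 / 8) :
    ∃ q : ℝ, q ≠ 0 ∧ |q| ≤ |F| ∧ F * (1 + q ^ 2) + q * (3 - F + 2 * F * e) = 0 := by
  obtain ⟨p1, p2, p3, p4, p5, p6⟩ := pos_all F e hF2 he2
  obtain ⟨f1, f2⟩ := abs_lt.mp hF2
  have hD : 0 < (3 - F + 2 * F * e) ^ 2 - 4 * F ^ 2 := by nlinarith
  have h1 := Real.sq_sqrt hD.le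
  have h2 := Real.sqrt_pos.mpr hD
  obtain ⟨d, hd1, hd2⟩ : ∃ d : ℝ, 2 ≤ d ∧ d ^ 2 = 2 * (3 - F + 2 * F * e) * d - 4 * F ^ 2 :=
    ⟨3 - F + 2 * F * e + √((3 - F + 2 * F * e) ^ 2 - 4 * F ^ 2), by linarith, by linear_combination h1⟩
  have hd0 : d ≠ 0 := by linarith
  refine ⟨-(2 * F) / d, ?_, ?_, ?_⟩
  · exact div_ne_zero (by simpa using hF0) hd0
  · rw [abs_div, abs_neg, abs_mul, abs_of_pos (by linarith : 0 < d),
      div_le_iff₀ (by linarith), abs_of_pos (by norm_num : (0 : ℝ) < 2)]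
    nlinarith [abs_nonneg F]
  · have h5 : F * (1 + (-(2 * F) / d) ^ 2) + -(2 * F) / d * (3 - F + 2 * F * e) =
        F / d ^ 2 * (d ^ 2 + 4 * F ^ 2 - 2 * (3 - F + 2 * F * e) * d) := by
      field_simp
      ring
    rw [h5, hd2]
    ring

theorem V1_eq (F e q u : ℝ) (hA : 3 * (1 - F) + 2 * F * e ≠ 0) (hF : 3 + F ≠ 0) (hq : 1 + q ≠ 0)
    (hrel : F * (1 + q ^ 2) + q * (3 - F + 2 * F * e) = 0)
    (hu : u = 2 * F ^ 2 * e / ((3 + F) * (3 * (1 - F) + 2 * F * e))) :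
    3 * (1 - F) * (1 - q) ^ 2 / ((3 + F) * (1 + q) ^ 2) = 1 - 4 * u := by
  have hu : u * ((3 + F) * (3 * (1 - F) + 2 * F * e)) = 2 * F ^ 2 * e := by
    rw [hu]; exact div_mul_cancel₀ _ (mul_ne_zero hF hA)
  rw [div_eq_iff (mul_ne_zero hF (pow_ne_zero 2 hq))]
  apply mul_right_cancel₀ hA
  linear_combination (-12 * (1 - F)) * hrel + 4 * (1 + q) ^ 2 * hu

theorem V2_eq (F e q u : ℝ) (hA : 3 + F + 2 * F * e ≠ 0) (hF : 3 - F ≠ 0) (hq : 1 - q ≠ 0)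
    (hrel : F * (1 + q ^ 2) + q * (3 - F + 2 * F * e) = 0)
    (hu : u = 2 * F ^ 2 * (1 - e) / ((3 + F + 2 * F * e) * (3 - F))) :
    3 * (1 + F) * (1 + q) ^ 2 / ((3 - F) * (1 - q) ^ 2) = 1 - 4 * u := by
  have hu : u * ((3 + F + 2 * F * e) * (3 - F)) = 2 * F ^ 2 * (1 - e) := by
    rw [hu]; exact div_mul_cancel₀ _ (mul_ne_zero hA hF)
  rw [div_eq_iff (mul_ne_zero hF (pow_ne_zero 2 hq))]
  apply mul_right_cancel₀ hA
  linear_combination (12 * (1 + F)) * hrel + 4 * (1 - q) ^ 2 * hu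

theorem V3_eq (F e q u : ℝ) (hA : 3 * (1 - F) + 2 * F * e ≠ 0) (hB : 3 + F + 2 * F * e ≠ 0) (hq0 : q ≠ 0)
    (hrel : F * (1 + q ^ 2) + q * (3 - F + 2 * F * e) = 0)
    (hu : u = -4 * F ^ 2 * e * (1 - e) / ((3 * (1 - F) + 2 * F * e) * (3 + F + 2 * F * e))) :
    3 * (3 - (F ^ 2 + 2 * F * (-(1 + F) / 2 + e))) * (1 + (F ^ 2 + 2 * F * (-(1 + F) / 2 + e))) * q ^ 2 /
      (F ^ 2 * (1 - q ^ 2) ^ 2) = 1 - 4 * u := by
  have h1 : F ^ 2 * (1 - q ^ 2) ^ 2 = q ^ 2 * ((3 * (1 - F) + 2 * F * e) * (3 + F + 2 * F * e)) := by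
    linear_combination (F * (1 + q ^ 2) - q * (3 - F + 2 * F * e)) * hrel
  have hu : u * ((3 * (1 - F) + 2 * F * e) * (3 + F + 2 * F * e)) = -4 * F ^ 2 * e * (1 - e) := by
    rw [hu]; exact div_mul_cancel₀ _ (mul_ne_zero hA hB)
  rw [h1, div_eq_iff (mul_ne_zero (pow_ne_zero 2 hq0) (mul_ne_zero hA hB))]
  linear_combination 4 * q ^ 2 * hu

theorem exβ (F e : ℝ) (hF2 : |F| < 1 / 8) (he2 : |e| < 1 / 8) : ∃ β : ℂ, ‖β‖ = 1 ∧ β.re = -(1 + F) / 2 + e := by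
  obtain ⟨f1, f2⟩ := abs_lt.mp hF2
  obtain ⟨e1, e2⟩ := abs_lt.mp he2
  generalize hc : -(1 + F) / 2 + e = c
  have c1 : -1 < c := by linarith
  have c2 : c < 1 := by linarith
  have h1 : 0 ≤ 1 - c ^ 2 := by nlinarith
  refine ⟨⟨c, √(1 - c ^ 2)⟩, ?_, rfl⟩
  have h2 : ‖(⟨c, √(1 - c ^ 2)⟩ : ℂ)‖ ^ 2 = 1 := by
    rw [nsq_re]
    simp only
    rw [Real.sq_sqrt h1]; ring
  have h3 := norm_nonneg (⟨c, √(1 - c ^ 2)⟩ : ℂ)
  generalize ‖(⟨c, √(1 - c ^ 2)⟩ : ℂ)‖ = n at h2 h3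
  have h4 : (n - 1) * (n + 1) = 0 := by linear_combination h2
  rcases mul_eq_zero.mp h4 with h5 | h5 <;> linarith

theorem fin_alg (F e m₁ m₃ b y R T : ℝ) (hF0 : F ≠ 0) (hy : y = 1 - m₁ * (3 + F) / F)
    (hYn : R + T = m₃ ^ 2 - 2 * m₃ * (F / 3) * (1 - m₃) * (-(1 + F) / 2 + e) + (F / 3) ^ 2 * (1 - m₃) ^ 2)
    (hT : T = (F / 3) ^ 2 *
      (((3 + F - 2 * e) / (1 - F + 2 * F * e)) * (e - m₃ * (3 * (1 - F) + 2 * F * e) / (2 * F)) ^ 2))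
    (rel : R * (F / 3 * b) ^ 2 + T * (F / 3 * y) ^ 2 = (F / 3 * y) ^ 2 * (F / 3 * b) ^ 2) :
    b ^ 2 * ((3 + F) / F * (m₃ + 2 * m₁) - 6 * e * m₃ / F + m₃ ^ 2 * ((3 + F) * (3 - 2 * F) / F ^ 2 + 6 * e / F) -
        m₁ ^ 2 * ((3 + F) / F) ^ 2) =
      (b ^ 2 - y ^ 2) * ((3 + F - 2 * e) / (1 - F + 2 * F * e)) * (e - m₃ * (3 * (1 - F) + 2 * F * e) / (2 * F)) ^ 2 := by
  have e5 : (b ^ 2 - y ^ 2) * ((3 + F - 2 * e) / (1 - F + 2 * F * e)) * (e - m₃ * (3 * (1 - F) + 2 * F * e) / (2 * F)) ^ 2 =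
      (b ^ 2 - y ^ 2) * (((3 + F - 2 * e) / (1 - F + 2 * F * e)) * (e - m₃ * (3 * (1 - F) + 2 * F * e) / (2 * F)) ^ 2) := by
    ring
  rw [e5]
  generalize ((3 + F - 2 * e) / (1 - F + 2 * F * e)) * (e - m₃ * (3 * (1 - F) + 2 * F * e) / (2 * F)) ^ 2 = T' at hT ⊢
  have hK : (F / 3) ^ 2 * ((3 + F) / F * (m₃ + 2 * m₁) - 6 * e * m₃ / F + m₃ ^ 2 * ((3 + F) * (3 - 2 * F) / F ^ 2 + 6 * e / F) -
        m₁ ^ 2 * ((3 + F) / F) ^ 2) = R + T - (F / 3) ^ 2 * y ^ 2 := by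
    rw [hYn, hy]
    field_simp
    ring
  generalize ((3 + F) / F * (m₃ + 2 * m₁) - 6 * e * m₃ / F + m₃ ^ 2 * ((3 + F) * (3 - 2 * F) / F ^ 2 + 6 * e / F) -
        m₁ ^ 2 * ((3 + F) / F) ^ 2) = K at hK ⊢
  have hF3 : (F / 3) ^ 4 ≠ 0 := by positivity
  apply mul_left_cancel₀ hF3
  linear_combination (F / 3) ^ 2 * b ^ 2 * hK + rel + ((F / 3) ^ 2 * (b ^ 2 - y ^ 2)) * hT

/-- RELR -/
theorem algR37 (h : ℂ → ℂ) (hconj : ∃ ε > 0, ∀ s : ℂ, ‖s‖ < ε → h ((starRingEnd ℂ) s) = (starRingEnd ℂ) (h s))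
    (hlim : ∃ ρ > 0, ∀ p q F : ℝ, 0 < p → |q| < ρ * p → F ≠ 0 → |F| < ρ →
      ∃ a b c : ℝ, 0 ≤ a ∧ 0 ≤ b ∧ 0 ≤ c ∧ 0 < a + b + c ∧
        ∀ z₀ z₁ z₂, Tz F z₀ z₁ z₂ →
          a * (Xh h (L p q z₀) (L p q z₁) (L p q z₂)).re ^ 2 +
            b * (Xh h (L p q z₀) (L p q z₁) (L p q z₂)).im ^ 2 = c) :
    ∃ ρ > 0, ∀ F e, F ≠ 0 → |F| < ρ → |e| < ρ → RR (Mv h) F e := by
  obtain ⟨ε, hε, hc⟩ := hconj
  obtain ⟨ρ₀, hρ₀, hl⟩ := hlim
  refine ⟨min (min ρ₀ (1 / 8)) (ε / 8), by positivity, ?_⟩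
  intro F e hF0 hF he m₁ m₂ m₃ b y hm₁ hm₂ hm₃ hb hy
  have hF1 : |F| < ρ₀ := lt_of_lt_of_le hF (le_trans (min_le_left _ _) (min_le_left _ _))
  have hF2 : |F| < 1 / 8 := lt_of_lt_of_le hF (le_trans (min_le_left _ _) (min_le_right _ _))
  have hF3 : |F| < ε / 8 := lt_of_lt_of_le hF (min_le_right _ _)
  have he2 : |e| < 1 / 8 := lt_of_lt_of_le he (le_trans (min_le_left _ _) (min_le_right _ _))
  -- reality
  have hreal : ∀ u : ℝ, |u| ≤ |F| → |u| ≤ 1 / 8 → (h (xi u : ℝ)).im = 0 := by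
    intro u hu hu8
    have h1 : ‖((xi u : ℝ) : ℂ)‖ < ε := by
      rw [Complex.norm_real, Real.norm_eq_abs]
      have := xi_le u hu8
      linarith
    have h2 := hc _ h1
    rw [Complex.conj_ofReal] at h2
    have h3 := congrArg Complex.im h2
    rw [Complex.conj_im] at h3
    linarith
  set u₁ := 2 * F ^ 2 * e / ((3 + F) * (3 * (1 - F) + 2 * F * e)) with hu₁
  set u₂ := 2 * F ^ 2 * (1 - e) / ((3 + F + 2 * F * e) * (3 - F)) with hu₂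
  set u₃ := -4 * F ^ 2 * e * (1 - e) / ((3 * (1 - F) + 2 * F * e) * (3 + F + 2 * F * e)) with hu₃
  obtain ⟨p1, p2, p3, p4, p5, p6⟩ := pos_all F e hF2 he2
  obtain ⟨b1, b2, b3⟩ := u_all F e hF2 he2
  rw [← hu₁] at b1
  rw [← hu₂] at b2
  rw [← hu₃] at b3
  have r1 := hreal u₁ b1 (by linarith)
  have r2 := hreal u₂ b2 (by linarith)
  have r3 := hreal u₃ b3 (by linarith)
  have v1 : 0 < 1 - 4 * u₁ := by have := abs_le.mp b1; linarith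
  have v2 : 0 < 1 - 4 * u₂ := by have := abs_le.mp b2; linarith
  have v3 : 0 < 1 - 4 * u₃ := by have := abs_le.mp b3; linarith
  -- the pair
  obtain ⟨q, hq0, hqF, hrel⟩ := exq F e hF0 hF2 he2
  have hq1 : |q| < 1 := by linarith
  have hqρ : |q| < ρ₀ * 1 := by linarith
  obtain ⟨a, b', C, ha, hb', hC, habc, hmem⟩ := hl 1 q F one_pos hqρ hF0 hF1
  have hF1' : |F| < 1 := by linarith
  rw [Complex.ofReal_one] at hmem
  obtain ⟨q1, q2⟩ := abs_lt.mp hq1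
  have hq21 : (1 + q) ≠ 0 := by linarith
  have hq22 : (1 - q) ≠ 0 := by linarith
  have hF0c : (F : ℂ) ≠ 0 := by exact_mod_cast hF0
  -- first member
  obtain ⟨z₁, z₂, ht, hprod⟩ := exi F hF1' 1 1 norm_one norm_one (by ring)
  have m1 := hmem _ _ _ ht
  have k1 := iso1 q F _ _ _ ht hprod hF1' hq1
  have V1 := V1_eq F e q u₁ (by linarith) p1.ne' hq21 hrel hu₁
  rw [V1] at k1
  rw [mem h q F u₁ 1 _ _ _ hq1 ht hprod v1 k1 r1, L_re, L_im] at m1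
  clear ht hprod k1
  -- second member
  obtain ⟨z₃, z₄, ht, hprod⟩ := exi F hF1' (-1) I (by simp) (by simp) (by rw [Complex.I_sq]; ring)
  have m2 := hmem _ _ _ ht
  have k1 := iso2 q F _ _ _ ht hprod hF1' hq1
  have V2 := V2_eq F e q u₂ (by linarith) p4.ne' hq22 hrel hu₂
  rw [V2] at k1
  rw [mem h q F u₂ (-1) _ _ _ hq1 ht hprod v2 k1 r2, L_re, L_im] at m2
  clear ht hprod k1
  -- third member
  obtain ⟨β, hβ, hβre⟩ := exβ F e hF2 he2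
  obtain ⟨z₀, hz₀, hz₀2⟩ := exz F β hβ hF1'
  obtain ⟨z₅, z₆, ht, hprod⟩ := exi F hF1' β z₀ hβ hz₀ hz₀2
  have m3 := hmem _ _ _ ht
  have k1 := iso3 q F (-(1 + F) / 2 + e) β _ _ _ hβ hβre ht hprod hF0 hq0 hq1 (by linear_combination hrel)
  have V3 := V3_eq F e q u₃ (by linarith) (by linarith) hq0 hrel hu₃
  rw [V3] at k1
  rw [mem h q F u₃ β _ _ _ hq1 ht hprod v3 k1 r3, L_re, L_im] at m3
  have hT := T_eq F e (Mv h u₃) β z₀ hF0 hβ hz₀ hβre hz₀2 p5.ne'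
  rw [← hm₁] at m1
  rw [← hm₂] at m2
  rw [← hm₃] at m3 hT
  set Y := z₀ * ((m₃ : ℂ) - (F / 3) * β * (1 - m₃)) with hY
  have hYn : Y.re ^ 2 + Y.im ^ 2 = m₃ ^ 2 - 2 * m₃ * (F / 3) * (1 - m₃) * (-(1 + F) / 2 + e) + (F / 3) ^ 2 * (1 - m₃) ^ 2 := by
    rw [← nsq_re, hY, norm_mul, hz₀, one_mul, nsq_re]
    have hb1 : β.re ^ 2 + β.im ^ 2 = 1 := by rw [← nsq_re, hβ]; norm_num
    have e1 : ((m₃ : ℂ) - (F / 3) * β * (1 - m₃)).re = m₃ - F / 3 * β.re * (1 - m₃) := by simp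
    have e2 : ((m₃ : ℂ) - (F / 3) * β * (1 - m₃)).im = -(F / 3 * β.im * (1 - m₃)) := by simp
    rw [e1, e2]
    linear_combination (-2 * m₃ * (F / 3) * (1 - m₃)) * hβre + ((F / 3) ^ 2 * (1 - m₃) ^ 2) * hb1
  have i1 : (1 * ((m₁ : ℂ) - (F / 3) * 1 * (1 - m₁))).re = -(F / 3 * y) := by
    rw [hy]; simp; field_simp; ring
  have i1' : (1 * ((m₁ : ℂ) - (F / 3) * 1 * (1 - m₁))).im = 0 := by simp
  have i2 : (I * ((m₂ : ℂ) - (F / 3) * (-1) * (1 - m₂))).im = F / 3 * b := by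
    rw [hb]; simp; field_simp; ring
  have i2' : (I * ((m₂ : ℂ) - (F / 3) * (-1) * (1 - m₂))).re = 0 := by simp
  rw [i1, i1'] at m1
  rw [i2, i2'] at m2
  have hAB : 0 < a * (1 + q) ^ 2 + b' * (1 - q) ^ 2 := by
    rcases eq_or_lt_of_le ha with ha0 | ha0
    · rcases eq_or_lt_of_le hb' with hb0 | hb0
      · exfalso
        rw [← ha0, ← hb0] at m1
        have : C = 0 := by rw [← m1]; ring
        linarith
      · have : 0 < (1 - q) ^ 2 := by positivity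
        exact add_pos_of_nonneg_of_pos (mul_nonneg ha (sq_nonneg _)) (mul_pos hb0 this)
    · have : 0 < (1 + q) ^ 2 := by positivity
      exact add_pos_of_pos_of_nonneg (mul_pos ha0 this) (mul_nonneg hb' (sq_nonneg _))
  have rel := conic_rel (a * (1 + q) ^ 2) (b' * (1 - q) ^ 2) C (F / 3 * y) (F / 3 * b) (Y.re ^ 2) (Y.im ^ 2)
    (by positivity) (by positivity) hAB (by linear_combination m1) (by linear_combination m2) (by linear_combination m3)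
  exact fin_alg F e m₁ m₃ b y _ _ hF0 hy hYn hT rel

end Pool.Agent.Pon30.Ar37
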