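import Pool.Agent.Pon30.Stmts

/-!
# MP_02df19_gt, weak hypothesis: the loci may be degenerate (segments, points) and need only be contained in an ellipse
-/

set_option autoImplicit false

namespace Pool.Agent.Pon30

open Complex

/-- The centre is a point of the plane for every 3-periodic of the pair, and all these centres lie on one ellipse,
segment or point: on the image of the unit circle under `u ↦ o₁ + P u + Q ū`. -/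
def OnEllipse (f : ℝ → ℝ → ℝ → ℝ) (o : ℂ) (α : ℝ) (β : ℂ) (α' : ℝ) (β' : ℂ) : Prop :=
  ∃ o₁ P Q : ℂ, ∀ A B C, Periodic o α β α' β' A B C → wsum f A B C ≠ 0 ∧
    ∃ u : ℂ, ‖u‖ = 1 ∧ center f A B C = o₁ + P * u + Q * (starRingEnd ℂ) u

/-- the weak form of `HH` -/
def HHw (h : ℂ → ℂ) : Prop :=
  ∀ p q F : ℂ, ‖q‖ < ‖p‖ → ‖F‖ < 1 → (p * (starRingEnd ℂ) q * F).im ≠ 0 →
    ∃ (α : ℝ) (β : ℂ) (c : ℝ), ‖β‖ ≤ α ∧ 0 ≤ c ∧ 0 < α + c ∧ ∀ z₀ z₁ z₂, Tz F z₀ z₁ z₂ →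
      qf α β (Xh h (L p q z₀) (L p q z₁) (L p q z₂)) = c

/-- PAIRW -/
def PairW : Prop := ∀ f : ℝ → ℝ → ℝ → ℝ, IsCenterFunction f →
  (∀ o α β α' β', PonceletPair o α β α' β' → NonAligned β β' → OnEllipse f o α β α' β') →
  ∀ p q F : ℂ, ‖q‖ < ‖p‖ → ‖F‖ < 1 → (p * (starRingEnd ℂ) q * F).im ≠ 0 →
    ∃ (α : ℝ) (β : ℂ) (c : ℝ), ‖β‖ ≤ α ∧ 0 ≤ c ∧ 0 < α + c ∧ ∀ z₀ z₁ z₂, Tz F z₀ z₁ z₂ →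
      wsum f (L p q z₀) (L p q z₁) (L p q z₂) ≠ 0 ∧
      qf α β (center f (L p q z₀) (L p q z₁) (L p q z₂)) = c

/-- LIMW -/
def LimW : Prop := ∀ h : ℂ → ℂ, Shape h → HHw h →
  ∃ ρ > 0, ∀ p q F : ℝ, 0 < p → |q| < ρ * p → F ≠ 0 → |F| < ρ →
    ∃ a b c : ℝ, 0 ≤ a ∧ 0 ≤ b ∧ 0 ≤ c ∧ 0 < a + b + c ∧
      ∀ z₀ z₁ z₂, Tz F z₀ z₁ z₂ →
        a * (Xh h (L p q z₀) (L p q z₁) (L p q z₂)).re ^ 2 +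
          b * (Xh h (L p q z₀) (L p q z₁) (L p q z₂)).im ^ 2 = c

/-- ISOW -/
def IsoW : Prop := ∀ h : ℂ → ℂ, Shape h → HHw h → ∀ κ η C ε : ℝ, 0 < ε →
  (∀ s : ℂ, ‖s‖ < ε → ‖h s - (κ * (starRingEnd ℂ) s + η * s ^ 2)‖ ≤ C * ‖s‖ ^ 3) →
  ∃ ρ > 0, ∀ o x ψ : ℝ, o ≠ 0 → |o| < ρ → 0 < x → x < 1 →
    ((1 - x) / (1 + x)) ^ 2 = (1 - 4 * o) * (1 + 2 * o) / (1 - 2 * o) →
    h x = (ψ * x / (1 + x) : ℝ) →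
    (1 + 2 * o * ψ) ^ 2 * (1 - 4 * o - 8 * (η + κ) * o ^ 3) = (1 - 4 * o) * (1 + 2 * κ * o) ^ 2

/-- ALGW: no relation between `Δ` and `κ` is needed -/
def AlgW : Prop := ∀ (κ Δ : ℝ) (ψ : ℝ → ℝ),
  Filter.Tendsto ψ (nhdsWithin 0 (Set.Ioi 0)) (nhds κ) →
  (∃ E₀ > 0, ∀ E o : ℝ, 0 < E → E < E₀ → o ^ 2 + 2 * E * o - E = 0 →
    (1 + 2 * o * ψ E) ^ 2 * (1 - 4 * o - 8 * Δ * o ^ 3) = (1 - 4 * o) * (1 + 2 * κ * o) ^ 2) →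
  Δ = 0 ∧ ∃ E₁ > 0, ∀ E : ℝ, 0 < E → E < E₁ → ψ E = κ

/-- REALAXISW -/
def RealAxisW : Prop := ∀ h : ℂ → ℂ, Shape h → HHw h →
  ∃ κ : ℝ, ∃ δ > 0, ∀ x : ℝ, |x| < δ → h x = hκ κ x

/-- the left side of the Thomson cubic of `CubicStmt` -/
noncomputable def cub (s o : ℂ) : ℝ :=
  -(1 + ‖s‖ ^ 2) * ((o - s * (starRingEnd ℂ) o) ^ 3).im +
    ((1 - ‖s‖ ^ 2) ^ 2 - 2 * ‖o - s * (starRingEnd ℂ) o‖ ^ 2) * (s * (o - s * (starRingEnd ℂ) o)).im +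
    (1 - ‖s‖ ^ 2) * (s * (starRingEnd ℂ) (o - s * (starRingEnd ℂ) o) ^ 2).im

/-- CONV: converse of `CubicStmt` -/
def ConvStmt : Prop := ∀ s o p q F z₀ z₁ z₂ : ℂ, ‖s‖ < 1 → ‖q‖ < ‖p‖ → ‖F‖ < 1 → Tz F z₀ z₁ z₂ →
  T0 s - o = L p q z₀ → T1 s - o = L p q z₁ → T2 s - o = L p q z₂ → cub s o = 0 →
  (p * (starRingEnd ℂ) q * F).im = 0

/-- ARC: points of the cubic near two of its directions -/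
def ArcStmt : Prop := ∀ t : ℝ, 0 < t → ∃ ε > 0, ∀ s : ℂ, ‖s‖ < ε →
  ∃ o₁ o₂ : ℂ, ‖o₁ - t‖ ≤ t / 10 ∧ ‖o₂ - t * ω‖ ≤ t / 10 ∧ cub s o₁ = 0 ∧ cub s o₂ = 0

/-- KEYW: the main inequality -/
def KeyW : Prop := ∀ h : ℂ → ℂ, Shape h → HHw h → ∀ κ : ℝ, (∃ δ > 0, ∀ x : ℝ, |x| < δ → h x = hκ κ x) →
  ∃ K > 0, ∃ t₀ > 0, ∀ (t : ℝ) (s o : ℂ), 0 < t → t < t₀ → ‖s‖ ≤ t ^ 2 → t / 2 ≤ ‖o‖ → ‖o‖ ≤ 2 * t →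
    cub s o = 0 →
    |((starRingEnd ℂ) (h s - hκ κ s) * (h s + hκ κ s - 2 * o)).re| ≤ K * t ^ 2 * ‖h s - hκ κ s‖

/-- COREW -/
def CoreW : Prop := ∀ h : ℂ → ℂ, Shape h → HHw h →
  ∃ κ : ℝ, ∃ ε > 0, ∀ s : ℂ, ‖s‖ < ε → h s = hκ κ s

end Pool.Agent.Pon30
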