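import Pool.Agent.Pon30.Basic

/-!
# MP_02df19_gt, row LIM (helper82): `LimStmt`
-/

namespace Pool.Agent.Pon30.Lim82

open Complex Filter Topology
open scoped ComplexConjugate

/-! ## the shape is small -/

lemma shape_Tz {F z₀ z₁ z₂ : ℂ} (hF : ‖F‖ ≤ 1) (T : Tz F z₀ z₁ z₂) :
    4 / 9 < ‖Pc z₀ z₁ z₂‖ ^ 2 ∧ ‖Rc z₀ z₁ z₂‖ ≤ ‖F‖ * ‖Pc z₀ z₁ z₂‖ := by
  have hG : ‖Gc z₀ z₁ z₂‖ = ‖F‖ / 3 := by
    rw [T.G_eq, norm_div, norm_mul, norm_neg, T.lam_norm, norm_conj, one_mul]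
    norm_num
  have hp := T.parseval
  have hF0 := norm_nonneg F
  have hR0 := norm_nonneg (Rc z₀ z₁ z₂)
  have hor := T.or
  have h1 : 4 / 9 < ‖Pc z₀ z₁ z₂‖ ^ 2 := by
    rw [hG] at hp
    nlinarith
  refine ⟨h1, ?_⟩
  have h2 : Pc z₀ z₁ z₂ * Rc z₀ z₁ z₂ = F / 3 + Gc z₀ z₁ z₂ ^ 2 := by
    have := T.F_eq
    linear_combination (-1 / 3 : ℂ) * this
  have h3 : ‖Pc z₀ z₁ z₂‖ * ‖Rc z₀ z₁ z₂‖ ≤ ‖F‖ / 3 + (‖F‖ / 3) ^ 2 := by
    rw [← norm_mul, h2]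
    refine (norm_add_le _ _).trans ?_
    rw [norm_div, norm_pow, hG]
    norm_num
  have hP : 0 < ‖Pc z₀ z₁ z₂‖ := lt_of_le_of_lt hR0 hor
  have h4 : ‖Pc z₀ z₁ z₂‖ * ‖Rc z₀ z₁ z₂‖ ≤ ‖Pc z₀ z₁ z₂‖ * (‖F‖ * ‖Pc z₀ z₁ z₂‖) := by
    nlinarith
  exact le_of_mul_le_mul_left h4 hP

lemma shape_L {F z₀ z₁ z₂ p q : ℂ} {ρ : ℝ} (hρ : ρ ≤ 1 / 2) (hF : ‖F‖ ≤ ρ) (hp : p ≠ 0) (hq : ‖q‖ ≤ ρ * ‖p‖)
    (T : Tz F z₀ z₁ z₂) :
    Pc (L p q z₀) (L p q z₁) (L p q z₂) ≠ 0 ∧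
      ‖Rc (L p q z₀) (L p q z₁) (L p q z₂) / Pc (L p q z₀) (L p q z₁) (L p q z₂)‖ ≤ 8 / 3 * ρ := by
  obtain ⟨h1, h2⟩ := shape_Tz (by linarith) T
  have hor := T.or
  set P := Pc z₀ z₁ z₂ with hPd
  set R := Rc z₀ z₁ z₂ with hRd
  have hp0 : 0 < ‖p‖ := norm_pos_iff.2 hp
  have hF0 := norm_nonneg F
  have hR0 := norm_nonneg R
  have hq0 := norm_nonneg q
  have hP0 : 0 < ‖P‖ := lt_of_le_of_lt hR0 hor
  have hPp : 0 < ‖p‖ * ‖P‖ := mul_pos hp0 hP0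
  have e1 : ‖q‖ * ‖P‖ ≤ ρ * (‖p‖ * ‖P‖) := by nlinarith
  have e2 : ‖p‖ * ‖R‖ ≤ ρ * (‖p‖ * ‖P‖) := by nlinarith
  have e3 : ‖q‖ * ‖R‖ ≤ 1 / 4 * (‖p‖ * ‖P‖) := by
    have : ‖q‖ * ‖R‖ ≤ (1 / 2 * ‖p‖) * (1 / 2 * ‖P‖) := by
      apply mul_le_mul _ _ hR0 (by positivity)
      · nlinarith
      · nlinarith
    linarith
  have e4 : ‖p * R + q * conj P‖ ≤ 2 * ρ * (‖p‖ * ‖P‖) := by
    refine (norm_add_le _ _).trans ?_
    rw [norm_mul, norm_mul, norm_conj]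
    linarith
  have e5 : 3 / 4 * (‖p‖ * ‖P‖) ≤ ‖p * P + q * conj R‖ := by
    have h := norm_sub_norm_le (p * P) (-(q * conj R))
    rw [sub_neg_eq_add, norm_neg, norm_mul, norm_mul, norm_conj] at h
    linarith
  rw [Pc_L, Rc_L, ← hPd, ← hRd]
  refine ⟨?_, ?_⟩
  · intro h0
    rw [h0, norm_zero] at e5
    linarith
  · rw [norm_div, div_le_iff₀ (by linarith)]
    have hρ0 : 0 ≤ ρ := hF0.trans hF
    nlinarith

/-! ## continuity and mirror image -/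

lemma cont_Xh {h : ℂ → ℂ} {p q z₀ z₁ z₂ : ℂ}
    (hP : Pc (L p q z₀) (L p q z₁) (L p q z₂) ≠ 0)
    (hc : ContinuousAt h (Rc (L p q z₀) (L p q z₁) (L p q z₂) / Pc (L p q z₀) (L p q z₁) (L p q z₂))) :
    ContinuousAt (fun w => Xh h (L p w z₀) (L p w z₁) (L p w z₂)) q := by
  have hG : Continuous fun w => Gc (L p w z₀) (L p w z₁) (L p w z₂) := by
    unfold Gc L; fun_prop
  have hPc : Continuous fun w => Pc (L p w z₀) (L p w z₁) (L p w z₂) := by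
    unfold Pc L; fun_prop
  have hRc : Continuous fun w => Rc (L p w z₀) (L p w z₁) (L p w z₂) := by
    unfold Rc L; fun_prop
  unfold Xh
  apply hG.continuousAt.add
  apply hPc.continuousAt.mul
  have hd : ContinuousAt (fun w => Rc (L p w z₀) (L p w z₁) (L p w z₂) / Pc (L p w z₀) (L p w z₁) (L p w z₂)) q :=
    hRc.continuousAt.div hPc.continuousAt hP
  exact ContinuousAt.comp (g := h) (f := fun w => Rc (L p w z₀) (L p w z₁) (L p w z₂) /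
    Pc (L p w z₀) (L p w z₁) (L p w z₂)) hc hd

lemma Gc_conj (a b c : ℂ) : Gc (conj a) (conj c) (conj b) = conj (Gc a b c) := by
  unfold Gc; simp only [map_div₀, map_add, map_ofNat]; ring

lemma Pc_conj (a b c : ℂ) : Pc (conj a) (conj c) (conj b) = conj (Pc a b c) := by
  unfold Pc; simp only [map_div₀, map_add, map_mul, map_ofNat, Complex.conj_conj]; ring

lemma Rc_conj (a b c : ℂ) : Rc (conj a) (conj c) (conj b) = conj (Rc a b c) := by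
  unfold Rc; simp only [map_div₀, map_add, map_mul, map_ofNat, Complex.conj_conj]; ring

lemma L_conj (p q : ℝ) (z : ℂ) : L p q (conj z) = conj (L p q z) := by
  unfold L; simp only [map_add, map_mul, conj_ofReal]

lemma Tz_conj {F : ℝ} {z₀ z₁ z₂ : ℂ} (T : Tz F z₀ z₁ z₂) : Tz F (conj z₀) (conj z₂) (conj z₁) := by
  refine ⟨by rw [norm_conj, T.n₀], by rw [norm_conj, T.n₂], by rw [norm_conj, T.n₁], ?_, ?_⟩
  · rw [Pc_conj, Rc_conj, norm_conj, norm_conj]; exact T.or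
  · have h := congrArg conj T.s2
    simp only [map_add, map_mul, map_neg, conj_ofReal] at h
    linear_combination h

lemma Xh_conj {h : ℂ → ℂ} {a b c : ℂ} (hc : h (conj (Rc a b c / Pc a b c)) = conj (h (Rc a b c / Pc a b c))) :
    Xh h (conj a) (conj c) (conj b) = conj (Xh h a b c) := by
  unfold Xh
  rw [Gc_conj, Pc_conj, Rc_conj, ← map_div₀, hc, map_add, map_mul]

/-! ## the row -/

theorem lim : LimStmt := by
  intro h hS hH
  obtain ⟨ε₁, hε₁, hconj⟩ := hS.conj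
  obtain ⟨ε₂, hε₂, hcont⟩ : ∃ ε > 0, ∀ s : ℂ, ‖s‖ < ε → ContinuousAt h s := by
    have h1 := hS.an.eventually_analyticAt
    obtain ⟨ε, hε, h2⟩ := Metric.eventually_nhds_iff.1 h1
    refine ⟨ε, hε, fun s hs => ?_⟩
    exact (h2 (by rwa [dist_zero_right])).continuousAt
  set ρ : ℝ := min (1 / 2) (min (ε₁ / 4) (ε₂ / 4)) with hρd
  have hρ0 : 0 < ρ := by positivity
  have hρ1 : ρ ≤ 1 / 2 := min_le_left _ _
  have hρ2 : ρ ≤ ε₁ / 4 := (min_le_right _ _).trans (min_le_left _ _)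
  have hρ3 : ρ ≤ ε₂ / 4 := (min_le_right _ _).trans (min_le_right _ _)
  refine ⟨ρ, hρ0, ?_⟩
  intro p q F hp hq hF0 hF
  have hpn : ‖(p : ℂ)‖ = p := by rw [norm_real, Real.norm_of_nonneg hp.le]
  have hpc : (p : ℂ) ≠ 0 := by exact_mod_cast hp.ne'
  have hFn : ‖(F : ℂ)‖ < ρ := by rw [norm_real]; exact hF
  have hqn : ‖(q : ℂ)‖ < ρ * p := by rw [norm_real]; exact hq
  -- the perturbation
  have hu : Tendsto (fun n : ℕ => (1 : ℝ) / ((n : ℝ) + 1)) atTop (𝓝 0) := tendsto_one_div_add_atTop_nhds_zero_nat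
  have hQ : Tendsto (fun n : ℕ => (q : ℂ) + ((1 / ((n : ℝ) + 1) : ℝ) : ℂ) * I) atTop (𝓝 (q : ℂ)) := by
    have h1 : Tendsto (fun n : ℕ => ((1 / ((n : ℝ) + 1) : ℝ) : ℂ)) atTop (𝓝 ((0 : ℝ) : ℂ)) :=
      (continuous_ofReal.tendsto 0).comp hu
    have h2 := (h1.mul_const I).const_add (q : ℂ)
    simpa using h2
  have hev : ∀ᶠ n : ℕ in atTop, ‖(q : ℂ) + ((1 / ((n : ℝ) + 1) : ℝ) : ℂ) * I‖ < ρ * p :=
    (hQ.norm).eventually (gt_mem_nhds hqn)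
  obtain ⟨N, hN⟩ := eventually_atTop.1 hev
  set Q : ℕ → ℂ := fun n => (q : ℂ) + ((1 / (((n + N : ℕ) : ℝ) + 1) : ℝ) : ℂ) * I with hQd
  have hQt : Tendsto Q atTop (𝓝 (q : ℂ)) := by
    have := hQ.comp (tendsto_add_atTop_nat N)
    exact this
  have hQl : ∀ n, ‖Q n‖ < ρ * p := fun n => hN (n + N) (by omega)
  have hex : ∀ n, ∃ (α : ℝ) (β : ℂ), ‖β‖ < α ∧ ∀ z₀ z₁ z₂, Tz F z₀ z₁ z₂ →
      qf α β (Xh h (L p (Q n) z₀) (L p (Q n) z₁) (L p (Q n) z₂)) = 1 := by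
    intro n
    apply hH
    · rw [hpn]; nlinarith [hQl n]
    · linarith
    · have e : ((p : ℂ) * conj (Q n) * F).im = -(p * F * (1 / (((n + N : ℕ) : ℝ) + 1))) := by
        have : (p : ℂ) * conj (Q n) * F = ((p * F * q : ℝ) : ℂ) +
            ((-(p * F * (1 / (((n + N : ℕ) : ℝ) + 1))) : ℝ) : ℂ) * I := by
          rw [hQd]
          simp only [map_add, map_mul, conj_ofReal, conj_I]
          push_cast
          ring
        rw [this, add_im, ofReal_im, im_ofReal_mul, I_im]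
        ring
      rw [e]
      apply neg_ne_zero.2
      have : (0 : ℝ) < 1 / (((n + N : ℕ) : ℝ) + 1) := by positivity
      positivity
  choose α β hlt hval using hex
  have hα : ∀ n, 0 < α n := fun n => lt_of_le_of_lt (norm_nonneg _) (hlt n)
  -- compactness
  set v : ℕ → ℝ × ℂ := fun n => (α n / (α n + 1), β n / ((α n + 1 : ℝ) : ℂ)) with hvd
  have hv : ∀ n, v n ∈ Metric.closedBall (0 : ℝ × ℂ) 1 := by
    intro n
    have hn := hα n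
    rw [mem_closedBall_zero_iff, Prod.norm_def]
    apply max_le
    · show ‖α n / (α n + 1)‖ ≤ 1
      rw [Real.norm_of_nonneg (by positivity), div_le_one (by linarith)]
      linarith
    · show ‖β n / ((α n + 1 : ℝ) : ℂ)‖ ≤ 1
      rw [norm_div, norm_real, Real.norm_of_nonneg (by linarith), div_le_one (by linarith)]
      linarith [hlt n]
  obtain ⟨w, -, φ, hφ, hlim⟩ := (isCompact_closedBall (0 : ℝ × ℂ) 1).tendsto_subseq hv
  obtain ⟨a₁, b₁⟩ := w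
  have hl1 : Tendsto (fun n => α (φ n) / (α (φ n) + 1)) atTop (𝓝 a₁) := (continuous_fst.tendsto _).comp hlim
  have hl2 : Tendsto (fun n => β (φ n) / ((α (φ n) + 1 : ℝ) : ℂ)) atTop (𝓝 b₁) :=
    (continuous_snd.tendsto _).comp hlim
  have ha1 : a₁ ≤ 1 := by
    refine le_of_tendsto' hl1 fun n => ?_
    rw [div_le_one (by linarith [hα (φ n)])]; linarith
  have hb1 : ‖b₁‖ ≤ a₁ := by
    refine le_of_tendsto_of_tendsto' hl2.norm hl1 fun n => ?_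
    have hn := hα (φ n)
    rw [norm_div, norm_real, Real.norm_of_nonneg (by linarith)]
    exact div_le_div_of_nonneg_right (hlt _).le (by linarith)
  have ha0 : 0 ≤ a₁ := (norm_nonneg _).trans hb1
  -- the limit relation
  have hkey : ∀ z₀ z₁ z₂, Tz F z₀ z₁ z₂ → qf a₁ b₁ (Xh h (L p q z₀) (L p q z₁) (L p q z₂)) = 1 - a₁ := by
    intro z₀ z₁ z₂ T
    obtain ⟨hP, hsh⟩ := shape_L (p := (p : ℂ)) (q := (q : ℂ)) hρ1 hFn.le hpc (by rw [hpn]; exact hqn.le) T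
    have hc : ContinuousAt (fun w => Xh h (L p w z₀) (L p w z₁) (L p w z₂)) q := by
      apply cont_Xh hP
      apply hcont
      linarith
    have hX : Tendsto (fun n => Xh h (L p (Q (φ n)) z₀) (L p (Q (φ n)) z₁) (L p (Q (φ n)) z₂)) atTop
        (𝓝 (Xh h (L p q z₀) (L p q z₁) (L p q z₂))) :=
      hc.tendsto.comp (hQt.comp hφ.tendsto_atTop)
    have hleft : Tendsto (fun n => qf (α (φ n) / (α (φ n) + 1)) (β (φ n) / ((α (φ n) + 1 : ℝ) : ℂ))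
        (Xh h (L p (Q (φ n)) z₀) (L p (Q (φ n)) z₁) (L p (Q (φ n)) z₂))) atTop
        (𝓝 (qf a₁ b₁ (Xh h (L p q z₀) (L p q z₁) (L p q z₂)))) := by
      unfold qf
      refine Tendsto.add (hl1.mul (hX.norm.pow 2)) ?_
      exact (continuous_re.tendsto _).comp (hl2.mul (hX.pow 2))
    have hright : Tendsto (fun n => 1 - α (φ n) / (α (φ n) + 1)) atTop (𝓝 (1 - a₁)) := hl1.const_sub 1
    refine tendsto_nhds_unique hleft (hright.congr fun n => ?_)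
    have hn := hα (φ n)
    have h1 := hval (φ n) z₀ z₁ z₂ T
    set X := Xh h (L p (Q (φ n)) z₀) (L p (Q (φ n)) z₁) (L p (Q (φ n)) z₂)
    have e : qf (α (φ n) / (α (φ n) + 1)) (β (φ n) / ((α (φ n) + 1 : ℝ) : ℂ)) X =
        qf (α (φ n)) (β (φ n)) X / (α (φ n) + 1) := by
      unfold qf
      rw [div_mul_eq_mul_div, div_mul_eq_mul_div, div_ofReal_re]
      ring
    rw [e, h1]
    field_simp
    ring
  -- averaging
  refine ⟨a₁ + b₁.re, a₁ - b₁.re, 1 - a₁, ?_, ?_, by linarith, by linarith, ?_⟩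
  · have := abs_le.1 ((abs_re_le_norm b₁).trans hb1)
    linarith
  · have := abs_le.1 ((abs_re_le_norm b₁).trans hb1)
    linarith
  intro z₀ z₁ z₂ T
  have h1 := hkey _ _ _ T
  have h2 := hkey _ _ _ (Tz_conj T)
  obtain ⟨-, hsh⟩ := shape_L (p := (p : ℂ)) (q := (q : ℂ)) hρ1 hFn.le hpc (by rw [hpn]; exact hqn.le) T
  rw [L_conj, L_conj, L_conj, Xh_conj (hconj _ (by linarith))] at h2
  set X := Xh h (L p q z₀) (L p q z₁) (L p q z₂)
  rw [qf, nsq_re] at h1 h2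
  rw [conj_re, conj_im] at h2
  have e1 : (b₁ * X ^ 2).re = b₁.re * (X.re ^ 2 - X.im ^ 2) - b₁.im * (2 * X.re * X.im) := by
    simp only [pow_two, mul_re, mul_im]; ring
  have e2 : (b₁ * (conj X) ^ 2).re = b₁.re * (X.re ^ 2 - X.im ^ 2) + b₁.im * (2 * X.re * X.im) := by
    simp only [pow_two, mul_re, mul_im, conj_re, conj_im]; ring
  rw [e1] at h1
  rw [e2] at h2
  linarith

end Pool.Agent.Pon30.Lim82

theorem Pool.Agent.Pon30.limStmt : Pool.Agent.Pon30.LimStmt := Pool.Agent.Pon30.Lim82.lim
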