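import Pool.Agent.Pon30.Basic

namespace Pool.Agent.Pon30

open Complex Filter Topology

/-- Step 1: near the equilateral shape the pair of a triangle and its centre is aligned. -/
lemma aligned_of_HH {h : ℂ → ℂ} (hH : HH h) {s p q F z₀ z₁ z₂ : ℂ} (hpq : ‖q‖ < ‖p‖) (hF : ‖F‖ < 1)
    (hz : Tz F z₀ z₁ z₂) (e0 : T0 s - h s = L p q z₀) (e1 : T1 s - h s = L p q z₁)
    (e2 : T2 s - h s = L p q z₂) : (p * (starRingEnd ℂ) q * F).im = 0 := by
  by_contra hne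
  obtain ⟨α, β, -, hq⟩ := hH p q F hpq hF hne
  have := hq z₀ z₁ z₂ hz
  rw [← e0, ← e1, ← e2, Xh_sub, Xh_T, sub_self] at this
  simp [qf] at this

lemma shape_zero {h : ℂ → ℂ} {κ η C ε : ℝ} (hε : 0 < ε)
    (hj : ∀ s : ℂ, ‖s‖ < ε → ‖h s - (κ * (starRingEnd ℂ) s + η * s ^ 2)‖ ≤ C * ‖s‖ ^ 3) : h 0 = 0 := by
  have := hj 0 (by simpa using hε)
  simpa using this

theorem relStmt (hEx : ExStmt) (hC : CubicStmt) : RelStmt := by
  intro h hS hH κ η C ε hε hj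
  obtain ⟨ε', hε', hex⟩ := hEx 1 one_pos
  -- the curve `s = i r`
  have hcont : Tendsto (fun r : ℝ => h (I * r)) (𝓝[>] 0) (𝓝 0) := by
    have h0 : h 0 = 0 := shape_zero hε hj
    have c1 : ContinuousAt h 0 := hS.an.continuousAt
    have c2 : Tendsto (fun r : ℝ => I * (r : ℂ)) (𝓝[>] 0) (𝓝 0) := by
      have : Continuous (fun r : ℝ => I * (r : ℂ)) := by fun_prop
      have := this.tendsto 0
      simp only [ofReal_zero, mul_zero] at this
      exact this.mono_left nhdsWithin_le_nhds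
    have := c1.tendsto.comp c2
    rwa [h0] at this
  have ev1 : ∀ᶠ r : ℝ in 𝓝[>] 0, 0 < r ∧ r < ε ∧ r < ε' ∧ r < 1 := by
    have a := Ioo_mem_nhdsGT (lt_min (lt_min hε hε') one_pos)
    filter_upwards [a] with r hr
    exact ⟨hr.1, lt_of_lt_of_le hr.2 ((min_le_left _ _).trans (min_le_left _ _)),
      lt_of_lt_of_le hr.2 ((min_le_left _ _).trans (min_le_right _ _)), lt_of_lt_of_le hr.2 (min_le_right _ _)⟩
  have ev2 : ∀ᶠ r : ℝ in 𝓝[>] 0, ‖h (I * r)‖ < ε' := by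
    have := hcont.norm
    rw [norm_zero] at this
    exact this.eventually_lt_const hε'
  set X : ℝ → ℝ := fun r => (h (I * r)).re / r ^ 2 with hX
  set Y : ℝ → ℝ := fun r => (h (I * r)).im / r with hY
  have hjr : ∀ᶠ r : ℝ in 𝓝[>] 0, |X r + η| ≤ C * r ∧ |Y r + κ| ≤ C * r ^ 2 := by
    filter_upwards [ev1] with r hr
    obtain ⟨r0, r1, -, -⟩ := hr
    have hn : ‖I * (r : ℂ)‖ = r := by simp [abs_of_pos r0]
    have e := hj (I * r) (by rw [hn]; exact r1)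
    rw [hn] at e
    have e' : κ * (starRingEnd ℂ) (I * (r : ℂ)) + η * (I * (r : ℂ)) ^ 2 = ⟨-η * r ^ 2, -κ * r⟩ := by
      have hI : (I * (r : ℂ)) ^ 2 = (-(r ^ 2) : ℝ) := by
        push_cast; rw [mul_pow, I_sq]; ring
      rw [hI]
      apply Complex.ext
      · simp [← ofReal_pow]
      · simp [← ofReal_pow]
    rw [e'] at e
    have a1 := (Complex.abs_re_le_norm _).trans e
    have a2 := (Complex.abs_im_le_norm _).trans e
    simp only [sub_re, sub_im] at a1 a2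
    constructor
    · have : X r + η = ((h (I * r)).re - -η * r ^ 2) / r ^ 2 := by
        rw [hX]; field_simp; ring
      rw [this, abs_div, abs_of_pos (pow_pos r0 2), div_le_iff₀ (pow_pos r0 2)]
      calc _ ≤ _ := a1
        _ = _ := by ring
    · have : Y r + κ = ((h (I * r)).im - -κ * r) / r := by
        rw [hY]; field_simp; ring
      rw [this, abs_div, abs_of_pos r0, div_le_iff₀ r0]
      calc _ ≤ _ := a2
        _ = _ := by ring
  have tr : Tendsto (fun r : ℝ => r) (𝓝[>] 0) (𝓝 0) := tendsto_id.mono_left nhdsWithin_le_nhds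
  have hXt : Tendsto X (𝓝[>] 0) (𝓝 (-η)) := by
    rw [tendsto_iff_dist_tendsto_zero]
    refine squeeze_zero' (Eventually.of_forall fun _ => dist_nonneg) (g := fun r => C * r) ?_ ?_
    · filter_upwards [hjr] with r hr
      rw [Real.dist_eq, sub_neg_eq_add]; exact hr.1
    · simpa using tr.const_mul C
  have hYt : Tendsto Y (𝓝[>] 0) (𝓝 (-κ)) := by
    rw [tendsto_iff_dist_tendsto_zero]
    refine squeeze_zero' (Eventually.of_forall fun _ => dist_nonneg) (g := fun r => C * r ^ 2) ?_ ?_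
    · filter_upwards [hjr] with r hr
      rw [Real.dist_eq, sub_neg_eq_add]; exact hr.2
    · simpa using (tr.pow 2).const_mul C
  -- the cubic
  have ev0 : ∀ᶠ r : ℝ in 𝓝[>] 0,
      -(1 + r ^ 2) * (3 * r ^ 2 * (X r - Y r) ^ 2 * (Y r - r ^ 2 * X r) - (Y r - r ^ 2 * X r) ^ 3) +
      ((1 - r ^ 2) ^ 2 - 2 * (r ^ 4 * (X r - Y r) ^ 2 + r ^ 2 * (Y r - r ^ 2 * X r) ^ 2)) * (X r - Y r) +
      (1 - r ^ 2) * (r ^ 2 * (X r - Y r) ^ 2 - (Y r - r ^ 2 * X r) ^ 2) = 0 := by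
    filter_upwards [ev1, ev2] with r hr hr2
    obtain ⟨r0, r1, r2, r3⟩ := hr
    have hn : ‖I * (r : ℂ)‖ = r := by simp [abs_of_pos r0]
    obtain ⟨p, q, F, z₀, z₁, z₂, hpq, -, hF, -, hz, e0, e1, e2⟩ :=
      hex (I * r) (h (I * r)) (by rw [hn]; exact r2) hr2
    have hal := aligned_of_HH hH hpq hF hz e0 e1 e2
    have hc := hC (I * r) (h (I * r)) p q F z₀ z₁ z₂ (by rw [hn]; exact r3) hz hal e0 e1 e2
    rw [hn] at hc
    set x := (h (I * r)).re with hx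
    set y := (h (I * r)).im with hy
    have hxX : x = r ^ 2 * X r := by
      show x = r ^ 2 * (x / r ^ 2)
      rw [mul_div_cancel₀ _ (pow_pos r0 2).ne']
    have hyY : y = r * Y r := by
      show y = r * (y / r)
      rw [mul_div_cancel₀ _ r0.ne']
    have hu : h (I * r) - I * r * (starRingEnd ℂ) (h (I * r)) = ⟨x - r * y, y - r * x⟩ := by
      apply Complex.ext
      · simp [← hx, ← hy]
      · simp [← hx, ← hy]
    rw [hu] at hc
    rw [nsq_re] at hc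
    have i3 : ((⟨x - r * y, y - r * x⟩ : ℂ) ^ 3).im =
        3 * (x - r * y) ^ 2 * (y - r * x) - (y - r * x) ^ 3 := by
      simp only [pow_succ, pow_zero, one_mul, mul_im, mul_re]; ring
    have i1 : (I * (r : ℂ) * (⟨x - r * y, y - r * x⟩ : ℂ)).im = r * (x - r * y) := by simp
    have i2 : (I * (r : ℂ) * (starRingEnd ℂ) (⟨x - r * y, y - r * x⟩ : ℂ) ^ 2).im =
        r * ((x - r * y) ^ 2 - (y - r * x) ^ 2) := by
      simp [pow_two]
      left; ring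
    rw [i3, i1, i2] at hc
    simp only at hc
    rw [hxX, hyY] at hc
    have r3' : r ^ 3 ≠ 0 := pow_ne_zero _ r0.ne'
    apply mul_left_cancel₀ r3'
    rw [mul_zero, ← hc]
    ring
  have lim : Tendsto (fun r : ℝ =>
      -(1 + r ^ 2) * (3 * r ^ 2 * (X r - Y r) ^ 2 * (Y r - r ^ 2 * X r) - (Y r - r ^ 2 * X r) ^ 3) +
      ((1 - r ^ 2) ^ 2 - 2 * (r ^ 4 * (X r - Y r) ^ 2 + r ^ 2 * (Y r - r ^ 2 * X r) ^ 2)) * (X r - Y r) +
      (1 - r ^ 2) * (r ^ 2 * (X r - Y r) ^ 2 - (Y r - r ^ 2 * X r) ^ 2)) (𝓝[>] 0)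
      (𝓝 (-(1 + 0 ^ 2) * (3 * 0 ^ 2 * (-η - -κ) ^ 2 * (-κ - 0 ^ 2 * -η) - (-κ - 0 ^ 2 * -η) ^ 3) +
      ((1 - 0 ^ 2) ^ 2 - 2 * (0 ^ 4 * (-η - -κ) ^ 2 + 0 ^ 2 * (-κ - 0 ^ 2 * -η) ^ 2)) * (-η - -κ) +
      (1 - 0 ^ 2) * (0 ^ 2 * (-η - -κ) ^ 2 - (-κ - 0 ^ 2 * -η) ^ 2))) := by
    have hU := hXt.sub hYt
    have hV := hYt.sub ((tr.pow 2).mul hXt)
    have c1 : Tendsto (fun _ : ℝ => (1 : ℝ)) (𝓝[>] 0) (𝓝 1) := tendsto_const_nhds
    exact (((c1.add (tr.pow 2)).neg.mul ((((tr.pow 2).const_mul 3).mul (hU.pow 2)).mul hV |>.sub (hV.pow 3))).add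
      ((((c1.sub (tr.pow 2)).pow 2).sub ((((tr.pow 4).mul (hU.pow 2)).add
        ((tr.pow 2).mul (hV.pow 2))).const_mul 2)).mul hU)).add
      ((c1.sub (tr.pow 2)).mul (((tr.pow 2).mul (hU.pow 2)).sub (hV.pow 2)))
  have lim0 := lim.congr' (ev0.mono fun r hr => hr)
  have := tendsto_nhds_unique lim0 tendsto_const_nhds
  linear_combination -this
end Pool.Agent.Pon30
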