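import Pool.Agent.Pon30.IsoB30
import Pool.Agent.Pon30.Lim82
import Pool.Agent.Pon30.Rel30

/-!
Step 5: from the real axis to a neighbourhood of the equilateral shape.
-/

namespace Pool.Agent.Pon30

open Complex

/-- upper vertex of the triple with apex `1` -/
noncomputable def zu (F : ℝ) : ℂ := ⟨-(1 + F) / 2, √((1 - F) * (3 + F)) / 2⟩

lemma sym_P (x₀ x y : ℝ) : Pc (x₀ : ℂ) ⟨x, y⟩ ⟨x, -y⟩ = ((x₀ - x + √3 * y) / 3 : ℝ) := by
  unfold Pc
  apply Complex.ext
  · simp [ω_re, ω_im]; ring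
  · simp [ω_re, ω_im]; ring

lemma sym_R (x₀ x y : ℝ) : Rc (x₀ : ℂ) ⟨x, y⟩ ⟨x, -y⟩ = ((x₀ - x - √3 * y) / 3 : ℝ) := by
  unfold Rc
  apply Complex.ext
  · simp [ω_re, ω_im]; ring
  · simp [ω_re, ω_im]; ring

lemma zu_norm {F : ℝ} (hF : |F| < 1) : ‖zu F‖ = 1 := by
  have h1 := abs_lt.1 hF
  have h2 : 0 ≤ (1 - F) * (3 + F) := by nlinarith
  have : ‖zu F‖ ^ 2 = 1 := by
    rw [nsq_re]
    show (-(1 + F) / 2) ^ 2 + (√((1 - F) * (3 + F)) / 2) ^ 2 = 1
    rw [div_pow (√((1 - F) * (3 + F))), Real.sq_sqrt h2]; ring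
  nlinarith [norm_nonneg (zu F)]

lemma zu_conj (F : ℝ) : (starRingEnd ℂ) (zu F) = ⟨-(1 + F) / 2, -(√((1 - F) * (3 + F)) / 2)⟩ := by
  apply Complex.ext <;> simp [zu]

lemma tz_first {F : ℝ} (hF : |F| < 1) : Tz F 1 (zu F) ((starRingEnd ℂ) (zu F)) := by
  have h1 := abs_lt.1 hF
  have h2 : 0 < (1 - F) * (3 + F) := by nlinarith
  have h4 : 0 < √((1 - F) * (3 + F)) := Real.sqrt_pos.2 h2
  have hs3 : 0 < √3 := Real.sqrt_pos.2 (by norm_num)
  have hn := zu_norm hF
  refine ⟨by simp, hn, by rw [RCLike.norm_conj]; exact hn, ?_, ?_⟩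
  · rw [zu_conj]
    unfold zu
    have e1 : (1 : ℂ) = ((1 : ℝ) : ℂ) := by simp
    rw [e1, sym_P, sym_R, norm_real, norm_real, Real.norm_eq_abs, Real.norm_eq_abs, abs_div, abs_div]
    apply div_lt_div_of_pos_right _ (by norm_num)
    set u := √3 * (√((1 - F) * (3 + F)) / 2) with hu
    have hu0 : 0 < u := by positivity
    have hv : 0 < 1 - -(1 + F) / 2 := by linarith
    rw [abs_of_pos (by linarith : 0 < 1 - -(1 + F) / 2 + u), abs_lt]
    constructor <;> linarith
  · have e : zu F * (starRingEnd ℂ) (zu F) = 1 := by rw [← nsq, hn]; norm_num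
    have e2 : zu F + (starRingEnd ℂ) (zu F) = -(F : ℂ) - 1 := by
      rw [Complex.add_conj]
      have : 2 * (zu F).re = -F - 1 := by
        show 2 * (-(1 + F) / 2) = -F - 1
        ring
      rw [this]; push_cast; ring
    rw [e]
    linear_combination e2

lemma lam_first {F : ℝ} (hF : |F| < 1) : (1 : ℂ) * zu F * (starRingEnd ℂ) (zu F) = 1 := by
  rw [one_mul, ← nsq, zu_norm hF]; norm_num

lemma lam_second {F : ℝ} (hF : |F| < 1) : (-I) * zr F * zl F = I := by
  have h1 := abs_lt.1 hF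
  have h2 : 0 ≤ (1 + F) * (3 - F) := by nlinarith
  have h5 : √((1 + F) * (3 - F)) ^ 2 = (1 + F) * (3 - F) := Real.sq_sqrt h2
  have e : zr F * zl F = -1 := by
    apply Complex.ext
    · simp [zr, zl]; nlinarith
    · simp [zr, zl]; ring
  rw [mul_assoc, e]; ring

lemma Xh_congr {h h' : ℂ → ℂ} {w₀ w₁ w₂ : ℂ}
    (e : h (Rc w₀ w₁ w₂ / Pc w₀ w₁ w₂) = h' (Rc w₀ w₁ w₂ / Pc w₀ w₁ w₂)) : Xh h w₀ w₁ w₂ = Xh h' w₀ w₁ w₂ := by
  unfold Xh; rw [e]

/-- the values at the two isosceles triangles of a real pair -/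
lemma real_pair {h : ℂ → ℂ} {κ δ : ℝ} (hax : ∀ x : ℝ, |x| < δ → h x = hκ κ x) (hLoc : LocStmt)
    {p q F ρ : ℝ} (hp : 0 < p) (hq : |q| < p) (hF : |F| < 1) (hρ : ρ ≤ 1 / 2) (hρδ : 8 / 3 * ρ < δ)
    (hq' : |q| ≤ ρ * p) (hF' : |F| ≤ ρ) :
    Xh h (L p q 1) (L p q (zu F)) (L p q ((starRingEnd ℂ) (zu F))) =
      ((-(1 - κ) * (F / 3) * (p + q) + κ * p * q * (1 - F) / (p + q) : ℝ) : ℂ) ∧
    Xh h (L p q (-I)) (L p q (zr F)) (L p q (zl F)) =
      ((-(1 - κ) * (F / 3) * (p - q) + κ * p * q * (1 + F) / (p - q) : ℝ) : ℂ) * I := by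
  have hFc : ‖(F : ℂ)‖ ≤ ρ := by rw [norm_real, Real.norm_eq_abs]; exact hF'
  have hpc : (p : ℂ) ≠ 0 := by exact_mod_cast hp.ne'
  have hqc : ‖(q : ℂ)‖ ≤ ρ * ‖(p : ℂ)‖ := by
    rw [norm_real, norm_real, Real.norm_eq_abs, Real.norm_eq_abs, abs_of_pos hp]; exact hq'
  constructor
  · have hT := tz_first hF
    obtain ⟨-, hs⟩ := Lim82.shape_L hρ hFc hpc hqc hT
    have e : ∃ x : ℝ, Rc (L p q 1) (L p q (zu F)) (L p q ((starRingEnd ℂ) (zu F))) /
        Pc (L p q 1) (L p q (zu F)) (L p q ((starRingEnd ℂ) (zu F))) = x := by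
      have e0 : L p q 1 = ((p + q : ℝ) : ℂ) := by
        apply Complex.ext
        · rw [L_real_re]; simp
        · rw [L_real_im]; simp
      have e1 : L p q (zu F) = ⟨(p + q) * (zu F).re, (p - q) * (zu F).im⟩ := by
        apply Complex.ext
        · rw [L_real_re]
        · rw [L_real_im]
      have e2 : L p q ((starRingEnd ℂ) (zu F)) = ⟨(p + q) * (zu F).re, -((p - q) * (zu F).im)⟩ := by
        apply Complex.ext
        · rw [L_real_re]; simp
        · rw [L_real_im]; simp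
      rw [e0, e1, e2, sym_P, sym_R]
      exact ⟨_, (Complex.ofReal_div _ _).symm⟩
    obtain ⟨x, hx⟩ := e
    have hx' : |x| < δ := by
      rw [hx, norm_real, Real.norm_eq_abs] at hs
      linarith
    rw [Xh_congr (h' := hκ κ) (by rw [hx]; exact hax x hx'), hLoc p q F κ _ _ _ hq hF hT, lam_first hF]
    simp
  · have hT := tz_second hF
    obtain ⟨-, hs⟩ := Lim82.shape_L hρ hFc hpc hqc hT
    have e : ∃ x : ℝ, Rc (L p q (-I)) (L p q (zr F)) (L p q (zl F)) /
        Pc (L p q (-I)) (L p q (zr F)) (L p q (zl F)) = x := by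
      have e0 : L p q (-I) = ⟨0, -(p - q)⟩ := by
        apply Complex.ext
        · rw [L_real_re]; simp
        · rw [L_real_im]; simp
      have e1 : L p q (zr F) = ⟨(p + q) * (zr F).re, (p - q) * (zr F).im⟩ := by
        apply Complex.ext
        · rw [L_real_re]
        · rw [L_real_im]
      have e2 : L p q (zl F) = ⟨-((p + q) * (zr F).re), (p - q) * (zr F).im⟩ := by
        apply Complex.ext
        · rw [L_real_re]; simp [zr, zl]
        · rw [L_real_im]; simp [zr, zl]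
      rw [e0, e1, e2, iso_P, iso_R, im_div_im]
      exact ⟨_, rfl⟩
    obtain ⟨x, hx⟩ := e
    have hx' : |x| < δ := by
      rw [hx, norm_real, Real.norm_eq_abs] at hs
      linarith
    rw [Xh_congr (h' := hκ κ) (by rw [hx]; exact hax x hx'), hLoc p q F κ _ _ _ hq hF hT, lam_second hF]
    simp

/-- for the three values of `κ` the two numbers vanish together -/
lemma both_zero {p q F κ : ℝ} (hp : 0 < p) (hq : |q| < p) (hF : |F| < 1) (hF0 : F ≠ 0)
    (hκ' : κ = 0 ∨ κ = 1 ∨ κ = -2)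
    (h : -(1 - κ) * (F / 3) * (p + q) + κ * p * q * (1 - F) / (p + q) = 0 ∨
      -(1 - κ) * (F / 3) * (p - q) + κ * p * q * (1 + F) / (p - q) = 0) :
    -(1 - κ) * (F / 3) * (p + q) + κ * p * q * (1 - F) / (p + q) = 0 ∧
      -(1 - κ) * (F / 3) * (p - q) + κ * p * q * (1 + F) / (p - q) = 0 := by
  have hq1 := abs_lt.1 hq
  have hF1 := abs_lt.1 hF
  have s1 : 0 < p + q := by linarith
  have s2 : 0 < p - q := by linarith
  have f1 : 0 < 1 - F := by linarith
  have f2 : 0 < 1 + F := by linarith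
  have n1 := s1.ne'
  have n2 := s2.ne'
  rcases hκ' with rfl | rfl | rfl
  · exfalso
    rcases h with h | h
    · have : F * (p + q) = 0 := by
        simp only [zero_mul, zero_div, add_zero] at h; linarith
      rcases mul_eq_zero.1 this with h' | h'
      · exact hF0 h'
      · exact n1 h'
    · have : F * (p - q) = 0 := by
        simp only [zero_mul, zero_div, add_zero] at h; linarith
      rcases mul_eq_zero.1 this with h' | h'
      · exact hF0 h'
      · exact n2 h'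
  · have hq0 : q = 0 := by
      rcases h with h | h
      · have : p * q * (1 - F) / (p + q) = 0 := by
          simp only [sub_self, neg_zero, zero_mul, one_mul, zero_add] at h; exact h
        rw [div_eq_zero_iff] at this
        rcases this with h' | h'
        · rcases mul_eq_zero.1 h' with h'' | h''
          · rcases mul_eq_zero.1 h'' with h3 | h3
            · exact absurd h3 hp.ne'
            · exact h3
          · exact absurd h'' f1.ne'
        · exact absurd h' n1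
      · have : p * q * (1 + F) / (p - q) = 0 := by
          simp only [sub_self, neg_zero, zero_mul, one_mul, zero_add] at h; exact h
        rw [div_eq_zero_iff] at this
        rcases this with h' | h'
        · rcases mul_eq_zero.1 h' with h'' | h''
          · rcases mul_eq_zero.1 h'' with h3 | h3
            · exact absurd h3 hp.ne'
            · exact h3
          · exact absurd h'' f2.ne'
        · exact absurd h' n2
    subst hq0
    constructor <;> simp
  · have e1 : -(1 - (-2 : ℝ)) * (F / 3) * (p + q) + -2 * p * q * (1 - F) / (p + q) =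
        -(F * (p ^ 2 + q ^ 2) + 2 * p * q) / (p + q) := by
      field_simp; ring
    have e2 : -(1 - (-2 : ℝ)) * (F / 3) * (p - q) + -2 * p * q * (1 + F) / (p - q) =
        -(F * (p ^ 2 + q ^ 2) + 2 * p * q) / (p - q) := by
      field_simp; ring
    rw [e1, e2] at h ⊢
    have : -(F * (p ^ 2 + q ^ 2) + 2 * p * q) = 0 := by
      rcases h with h | h
      · rcases div_eq_zero_iff.1 h with h' | h'
        · exact h'
        · exact absurd h' n1
      · rcases div_eq_zero_iff.1 h with h' | h'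
        · exact h'
        · exact absurd h' n2
    rw [this]; simp

theorem core30 (hRA : RealAxisStmt) (hEx : ExStmt) (hReal : RealStmt) (hLim : LimStmt) (hLoc : LocStmt) :
    CoreStmt := by
  intro h hS hH
  obtain ⟨κ, hκc, ⟨δ, hδ, hax⟩, C, ε0, hε0, hC⟩ := hRA h hS hH
  obtain ⟨ρ1, hρ1, hlim⟩ := hLim h hS hH
  obtain ⟨ρ, hρ0, hρa, hρb, hρc⟩ : ∃ ρ : ℝ, 0 < ρ ∧ ρ ≤ ρ1 ∧ ρ ≤ 1 / 2 ∧ 8 / 3 * ρ < δ := by
    refine ⟨min ρ1 (min (1 / 2) (δ / 4)), lt_min hρ1 (lt_min (by norm_num) (by linarith)), min_le_left _ _,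
      (min_le_right _ _).trans (min_le_left _ _), ?_⟩
    have : min ρ1 (min (1 / 2) (δ / 4)) ≤ δ / 4 := (min_le_right _ _).trans (min_le_right _ _)
    linarith
  obtain ⟨ε1, hε1, hex⟩ := hEx ρ hρ0
  refine ⟨κ, hκc, min ε0 (min (ε1 / 3) (1 / (|C| + 1))), lt_min hε0 (lt_min (by linarith) (by positivity)), ?_⟩
  intro s hs
  have s0 : ‖s‖ < ε0 := lt_of_lt_of_le hs (min_le_left _ _)
  have s1 : ‖s‖ < ε1 / 3 := lt_of_lt_of_le hs ((min_le_right _ _).trans (min_le_left _ _))
  have s2 : ‖s‖ < 1 / (|C| + 1) := lt_of_lt_of_le hs ((min_le_right _ _).trans (min_le_right _ _))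
  have sn := norm_nonneg s
  have hCs := hC s s0
  have hC0 := abs_nonneg C
  have s3 : (|C| + 1) * ‖s‖ < 1 := by
    rw [lt_div_iff₀ (by positivity)] at s2; linarith
  have hCle : C ≤ |C| := le_abs_self C
  have s4 : C * ‖s‖ ^ 2 ≤ |C| * ‖s‖ * ‖s‖ := by
    have : C * ‖s‖ ^ 2 ≤ |C| * ‖s‖ ^ 2 := mul_le_mul_of_nonneg_right hCle (by positivity)
    calc _ ≤ _ := this
      _ = _ := by ring
  have hκ2 : |κ| ≤ 2 := by rcases hκc with rfl | rfl | rfl <;> norm_num
  have hcs : ‖(κ : ℂ) * (starRingEnd ℂ) s‖ = |κ| * ‖s‖ := by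
    rw [norm_mul, norm_real, Real.norm_eq_abs, RCLike.norm_conj]
  have hh : ‖h s‖ < ε1 := by
    have : ‖h s‖ ≤ ‖h s - κ * (starRingEnd ℂ) s‖ + ‖(κ : ℂ) * (starRingEnd ℂ) s‖ := by
      have := norm_add_le (h s - κ * (starRingEnd ℂ) s) (κ * (starRingEnd ℂ) s)
      simpa using this
    rw [hcs] at this
    nlinarith
  obtain ⟨p, q, F, z₀, z₁, z₂, hpq, hqρ, hF1, hFρ, hz, e0, e1, e2⟩ := hex s (h s) (by linarith) hh
  have hal := aligned_of_HH hH hpq hF1 hz e0 e1 e2
  rcases eq_or_ne F 0 with hF0 | hF0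
  · -- `F = 0`
    have hG : Gc z₀ z₁ z₂ = 0 := by rw [hz.G_eq, hF0]; simp
    have hG2 : Gc (T0 s - h s) (T1 s - h s) (T2 s - h s) = 0 := by
      rw [e0, e1, e2, Gc_L, hG]; simp [L]
    rw [Gc_sub, Gc_T, zero_sub, neg_eq_zero] at hG2
    rw [hG2]
    rcases hκc with rfl | hκ'
    · simp [hκ]
    · have hκ1 : 1 ≤ |κ| := by rcases hκ' with rfl | rfl <;> norm_num
      rw [hG2, zero_sub, norm_neg, hcs] at hCs
      have hs0 : s = 0 := by
        by_contra hne
        have : 0 < ‖s‖ := norm_pos_iff.2 hne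
        nlinarith
      rw [hs0]; simp [hκ]
  · obtain ⟨c, p', q', F', y₀, y₁, y₂, hc, hp', hq', hF', hy, g0, g1, g2⟩ := hReal p q F z₀ z₁ z₂ hpq hF0 hal hz
    have hp0 : 0 < p' := by rw [hp']; exact lt_of_le_of_lt (norm_nonneg q) hpq
    have hqa : |q'| < p' := by rw [hq', hp']; exact hpq
    have hqb : |q'| < ρ * p' := by rw [hq', hp']; exact hqρ
    have hFa : |F'| < 1 := by rw [hF']; exact hF1
    have hFb : |F'| < ρ := by rw [hF']; exact hFρ
    have hF0' : F' ≠ 0 := by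
      intro h0
      rw [h0, abs_zero] at hF'
      exact hF0 (norm_eq_zero.1 hF'.symm)
    have hc0 : c ≠ 0 := by
      intro h0; rw [h0, norm_zero] at hc; exact zero_ne_one hc
    have key : ∀ f : ℂ → ℂ, Xh f (L p' q' y₀) (L p' q' y₁) (L p' q' y₂) = c * (f s - h s) := by
      intro f
      rw [← g0, ← g1, ← g2, ← e0, ← e1, ← e2, Xh_smul _ _ _ _ _ hc0, Xh_sub, Xh_T]
    obtain ⟨a, b, c', ha, hb, hc', habc, hq⟩ := hlim p' q' F' hp0
      (lt_of_lt_of_le hqb (mul_le_mul_of_nonneg_right hρa hp0.le)) hF0' (lt_of_lt_of_le hFb hρa)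
    obtain ⟨v1, v2⟩ := real_pair hax hLoc hp0 hqa hFa hρb hρc hqb.le hFb.le
    have r0 := hq y₀ y₁ y₂ hy
    rw [key h, sub_self, mul_zero] at r0
    simp only [zero_re, zero_im, ne_eq, OfNat.ofNat_ne_zero, not_false_eq_true, zero_pow, mul_zero, add_zero] at r0
    have r1 := hq _ _ _ (tz_first hFa)
    have r2 := hq _ _ _ (tz_second hFa)
    rw [v1, ofReal_re, ofReal_im, ← r0] at r1
    rw [v2, re_ofReal_mul, im_ofReal_mul, I_re, I_im, ← r0] at r2
    have hor : -(1 - κ) * (F' / 3) * (p' + q') + κ * p' * q' * (1 - F') / (p' + q') = 0 ∨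
        -(1 - κ) * (F' / 3) * (p' - q') + κ * p' * q' * (1 + F') / (p' - q') = 0 := by
      by_cases ha0 : a = 0
      · right
        have hb0 : b ≠ 0 := by
          intro hb0; rw [ha0, hb0, ← r0] at habc; simp at habc
        have : b * (-(1 - κ) * (F' / 3) * (p' - q') + κ * p' * q' * (1 + F') / (p' - q')) ^ 2 = 0 := by
          rw [ha0] at r2; simpa using r2
        rcases mul_eq_zero.1 this with h' | h'
        · exact absurd h' hb0
        · exact pow_eq_zero_iff two_ne_zero |>.1 h'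
      · left
        have : a * (-(1 - κ) * (F' / 3) * (p' + q') + κ * p' * q' * (1 - F') / (p' + q')) ^ 2 = 0 := by
          simpa using r1
        rcases mul_eq_zero.1 this with h' | h'
        · exact absurd h' ha0
        · exact pow_eq_zero_iff two_ne_zero |>.1 h'
    obtain ⟨w1, w2⟩ := both_zero hp0 hqa hFa hF0' hκc hor
    have hfin := hLoc p' q' F' κ y₀ y₁ y₂ hqa hFa hy
    rw [key, w1, w2] at hfin
    simp only [mul_zero, ofReal_zero, zero_mul, add_zero, mul_eq_zero] at hfin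
    rcases hfin with h' | h'
    · exact absurd h' hc0
    · exact (sub_eq_zero.1 h').symm

end Pool.Agent.Pon30
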