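import Pool.Agent.Pon30.Basic

/-!
# Row CUBIC of MP_02df19_gt

If the concentric pair given by a triangle and a point `o` is aligned, the point `o` lies on the Thomson cubic of the
triangle: the first Fourier coefficient of the equation of the outer ellipse, its conjugate and the alignment are
three linear equations for `(α, β, β̄)`, so their determinant vanishes.
-/

namespace Pool.Agent.Pon30.C37

open Complex

lemma cj_T0 (s : ℂ) : (starRingEnd ℂ) (T0 s) = 1 + (starRingEnd ℂ) s := by unfold T0; simp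
lemma cj_T1 (s : ℂ) : (starRingEnd ℂ) (T1 s) = (starRingEnd ℂ) ω + (starRingEnd ℂ) s * ω := by unfold T1; simp
lemma cj_T2 (s : ℂ) : (starRingEnd ℂ) (T2 s) = ω + (starRingEnd ℂ) s * (starRingEnd ℂ) ω := by unfold T2; simp

/-- the equation of the outer ellipse in the coordinates of the triangle -/
lemma outer_eq {p q z w : ℂ} (hz : z * (starRingEnd ℂ) z = 1) (hw : w = L p q z) :
    ((starRingEnd ℂ) p * w - q * (starRingEnd ℂ) w) * (p * (starRingEnd ℂ) w - (starRingEnd ℂ) q * w) = (p * (starRingEnd ℂ) p - q * (starRingEnd ℂ) q) ^ 2 := by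
  subst hw
  unfold L
  simp only [map_add, map_mul, Complex.conj_conj]
  linear_combination (p * (starRingEnd ℂ) p - q * (starRingEnd ℂ) q) ^ 2 * hz

/-- first Fourier coefficient of the equation of the outer ellipse -/
lemma fourier_one {s o p q F z₀ z₁ z₂ : ℂ} (h : Tz F z₀ z₁ z₂)
    (h0 : T0 s - o = L p q z₀) (h1 : T1 s - o = L p q z₁) (h2 : T2 s - o = L p q z₂) :
    (p * (starRingEnd ℂ) p + q * (starRingEnd ℂ) q) * (s - (starRingEnd ℂ) o - o * (starRingEnd ℂ) s) - (starRingEnd ℂ) p * (starRingEnd ℂ) q * (s ^ 2 - 2 * o) -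
      p * q * (1 - 2 * (starRingEnd ℂ) o * (starRingEnd ℂ) s) = 0 := by
  have e0 := outer_eq h.cj0 h0
  have e1 := outer_eq h.cj1 h1
  have e2 := outer_eq h.cj2 h2
  rw [map_sub, cj_T0] at e0
  rw [map_sub, cj_T1] at e1
  rw [map_sub, cj_T2] at e2
  unfold T0 at e0
  unfold T1 at e1
  unfold T2 at e2
  rw [cj_ω_eq] at e1 e2
  have hω : ω ^ 2 + ω + 1 = 0 := by rw [ω_sq, cj_ω_eq]; ring
  linear_combination (1 / 3) * e0 + ((-1 - ω) / 3) * e1 + (ω / 3) * e2 +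
    (-(1/3) * p * ((starRingEnd ℂ) p) * s * ((starRingEnd ℂ) s) + (2/3) * p * ((starRingEnd ℂ) p) * s * ((starRingEnd ℂ) o) + p * ((starRingEnd ℂ) p) * s
      - (2/3) * p * ((starRingEnd ℂ) p) * ((starRingEnd ℂ) s) * o - (1/3) * p * ((starRingEnd ℂ) p) * ((starRingEnd ℂ) s) + (2/3) * p * ((starRingEnd ℂ) p) * o
      - (2/3) * p * ((starRingEnd ℂ) p) * ((starRingEnd ℂ) o) - (1/3) * p * ((starRingEnd ℂ) p) + (1/3) * p * q * ((starRingEnd ℂ) s) ^ 2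
      + (4/3) * p * q * ((starRingEnd ℂ) s) * ((starRingEnd ℂ) o) + (2/3) * p * q * ((starRingEnd ℂ) s) - (4/3) * p * q * ((starRingEnd ℂ) o) - p * q
      - ((starRingEnd ℂ) p) * ((starRingEnd ℂ) q) * s ^ 2 - (4/3) * ((starRingEnd ℂ) p) * ((starRingEnd ℂ) q) * s * o + (2/3) * ((starRingEnd ℂ) p) * ((starRingEnd ℂ) q) * s
      + (4/3) * ((starRingEnd ℂ) p) * ((starRingEnd ℂ) q) * o + (1/3) * ((starRingEnd ℂ) p) * ((starRingEnd ℂ) q) - (1/3) * q * ((starRingEnd ℂ) q) * s * ((starRingEnd ℂ) s)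
      + (2/3) * q * ((starRingEnd ℂ) q) * s * ((starRingEnd ℂ) o) + q * ((starRingEnd ℂ) q) * s - (2/3) * q * ((starRingEnd ℂ) q) * ((starRingEnd ℂ) s) * o
      - (1/3) * q * ((starRingEnd ℂ) q) * ((starRingEnd ℂ) s) + (2/3) * q * ((starRingEnd ℂ) q) * o - (2/3) * q * ((starRingEnd ℂ) q) * ((starRingEnd ℂ) o)
      - (1/3) * q * ((starRingEnd ℂ) q)) * hω

/-- Fourier coordinates of the triple in terms of the triangle -/
lemma coords {s o p q z₀ z₁ z₂ : ℂ}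
    (h0 : T0 s - o = L p q z₀) (h1 : T1 s - o = L p q z₁) (h2 : T2 s - o = L p q z₂) :
    p * Pc z₀ z₁ z₂ + q * (starRingEnd ℂ) (Rc z₀ z₁ z₂) = 1 ∧ p * Rc z₀ z₁ z₂ + q * (starRingEnd ℂ) (Pc z₀ z₁ z₂) = s ∧
      p * Gc z₀ z₁ z₂ + q * (starRingEnd ℂ) (Gc z₀ z₁ z₂) = - o := by
  refine ⟨?_, ?_, ?_⟩
  · rw [← Pc_L, ← h0, ← h1, ← h2, Pc_sub, Pc_T]
  · rw [← Rc_L, ← h0, ← h1, ← h2, Rc_sub, Rc_T]
  · have := Gc_L p q z₀ z₁ z₂
    rw [← h0, ← h1, ← h2, Gc_sub, Gc_T] at this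
    unfold L at this
    rw [← this]; ring

lemma det_pos {s o p q z₀ z₁ z₂ : ℂ} (hs : ‖s‖ < 1) (hz : ‖Rc z₀ z₁ z₂‖ < ‖Pc z₀ z₁ z₂‖)
    (h0 : T0 s - o = L p q z₀) (h1 : T1 s - o = L p q z₁) (h2 : T2 s - o = L p q z₂) :
    ‖q‖ ^ 2 < ‖p‖ ^ 2 := by
  obtain ⟨c1, c2, -⟩ := coords h0 h1 h2
  have h := norm_PR_L p q (Pc z₀ z₁ z₂) (Rc z₀ z₁ z₂)
  rw [c1, c2, norm_one] at h
  have h3 : 0 < (‖Pc z₀ z₁ z₂‖ ^ 2 - ‖Rc z₀ z₁ z₂‖ ^ 2) := by
    nlinarith [norm_nonneg (Rc z₀ z₁ z₂), norm_nonneg (Pc z₀ z₁ z₂)]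
  have h4 : 0 < (1 : ℝ) ^ 2 - ‖s‖ ^ 2 := by nlinarith [norm_nonneg s]
  by_contra hn
  have h5 : ‖p‖ ^ 2 - ‖q‖ ^ 2 ≤ 0 := by linarith [not_lt.1 hn]
  nlinarith [mul_nonneg (sub_nonneg.2 (not_lt.1 hn)) h3.le]

/-- the alignment of the pair in terms of the triangle -/
lemma aligned_eq {s o p q F z₀ z₁ z₂ : ℂ} (hd : p * (starRingEnd ℂ) p - q * (starRingEnd ℂ) q ≠ 0) (h : Tz F z₀ z₁ z₂)
    (hF : (p * (starRingEnd ℂ) q * F).im = 0)
    (h0 : T0 s - o = L p q z₀) (h1 : T1 s - o = L p q z₁) (h2 : T2 s - o = L p q z₂) :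
    (starRingEnd ℂ) p * (starRingEnd ℂ) q * (s - o ^ 2) - p * q * ((starRingEnd ℂ) s - (starRingEnd ℂ) o ^ 2) = 0 := by
  obtain ⟨c1, c2, c3⟩ := coords h0 h1 h2
  have d1 := congrArg (starRingEnd ℂ) c1
  have d2 := congrArg (starRingEnd ℂ) c2
  have d3 := congrArg (starRingEnd ℂ) c3
  simp only [map_add, map_mul, map_neg, map_one, Complex.conj_conj] at d1 d2 d3
  have hF1 := h.F_eq
  have hF2 := congrArg (starRingEnd ℂ) hF1
  simp only [map_sub, map_mul, map_pow, map_ofNat] at hF2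
  have hF3 : p * (starRingEnd ℂ) q * F = (starRingEnd ℂ) p * q * (starRingEnd ℂ) F := by
    have := Complex.conj_eq_iff_im.2 hF
    simp only [map_mul, Complex.conj_conj] at this
    rw [← this]
  generalize Pc z₀ z₁ z₂ = P at *
  generalize Rc z₀ z₁ z₂ = R at *
  generalize Gc z₀ z₁ z₂ = g at *
  have eP : (p * (starRingEnd ℂ) p - q * (starRingEnd ℂ) q) * P = (starRingEnd ℂ) p - q * (starRingEnd ℂ) s := by linear_combination (starRingEnd ℂ) p * c1 - q * d2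
  have eR : (p * (starRingEnd ℂ) p - q * (starRingEnd ℂ) q) * R = (starRingEnd ℂ) p * s - q := by linear_combination (starRingEnd ℂ) p * c2 - q * d1
  have eg : (p * (starRingEnd ℂ) p - q * (starRingEnd ℂ) q) * g = q * (starRingEnd ℂ) o - (starRingEnd ℂ) p * o := by
    linear_combination (starRingEnd ℂ) p * c3 - q * d3
  have eP' : (p * (starRingEnd ℂ) p - q * (starRingEnd ℂ) q) * (starRingEnd ℂ) P = p - (starRingEnd ℂ) q * s := by linear_combination p * d1 - (starRingEnd ℂ) q * c2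
  have eR' : (p * (starRingEnd ℂ) p - q * (starRingEnd ℂ) q) * (starRingEnd ℂ) R = p * (starRingEnd ℂ) s - (starRingEnd ℂ) q := by
    linear_combination p * d2 - (starRingEnd ℂ) q * c1
  have eg' : (p * (starRingEnd ℂ) p - q * (starRingEnd ℂ) q) * (starRingEnd ℂ) g = (starRingEnd ℂ) q * o - p * (starRingEnd ℂ) o := by
    linear_combination p * d3 - (starRingEnd ℂ) q * c3
  have k1 : (p * (starRingEnd ℂ) p - q * (starRingEnd ℂ) q) ^ 2 * F =
      3 * (((starRingEnd ℂ) p - q * (starRingEnd ℂ) s) * ((starRingEnd ℂ) p * s - q) - (q * (starRingEnd ℂ) o - (starRingEnd ℂ) p * o) ^ 2) := by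
    rw [hF1, ← eP, ← eR, ← eg]; ring
  have k2 : (p * (starRingEnd ℂ) p - q * (starRingEnd ℂ) q) ^ 2 * (starRingEnd ℂ) F =
      3 * ((p - (starRingEnd ℂ) q * s) * (p * (starRingEnd ℂ) s - (starRingEnd ℂ) q) - ((starRingEnd ℂ) q * o - p * (starRingEnd ℂ) o) ^ 2) := by
    rw [hF2, ← eP', ← eR', ← eg']; ring
  have k3 : (p * (starRingEnd ℂ) p - q * (starRingEnd ℂ) q) *
      ((starRingEnd ℂ) p * (starRingEnd ℂ) q * (s - o ^ 2) - p * q * ((starRingEnd ℂ) s - (starRingEnd ℂ) o ^ 2)) = 0 := by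
    linear_combination (1 / 3) * (p * (starRingEnd ℂ) p - q * (starRingEnd ℂ) q) ^ 2 * hF3 - (1 / 3) * p * (starRingEnd ℂ) q * k1 +
      (1 / 3) * (starRingEnd ℂ) p * q * k2
  exact (mul_eq_zero.1 k3).resolve_left hd

theorem cubic37 : CubicStmt := by
  intro s o p q F z₀ z₁ z₂ hs h hF h0 h1 h2
  have hd := det_pos hs h.or h0 h1 h2
  have hd' : p * (starRingEnd ℂ) p - q * (starRingEnd ℂ) q ≠ 0 := by
    rw [← nsq, ← nsq]
    intro hc
    have : ‖p‖ ^ 2 - ‖q‖ ^ 2 = 0 := by exact_mod_cast hc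
    linarith
  have hα : p * (starRingEnd ℂ) p + q * (starRingEnd ℂ) q ≠ 0 := by
    rw [← nsq, ← nsq]
    intro hc
    have : ‖p‖ ^ 2 + ‖q‖ ^ 2 = 0 := by exact_mod_cast hc
    nlinarith [sq_nonneg ‖q‖]
  have e1 := fourier_one h h0 h1 h2
  have e2 := congrArg (starRingEnd ℂ) e1
  simp only [map_sub, map_add, map_mul, map_pow, map_one, map_ofNat, map_zero, Complex.conj_conj] at e2
  have e3 := aligned_eq hd' h hF h0 h1 h2
  have key : (p * (starRingEnd ℂ) p + q * (starRingEnd ℂ) q) *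
      ((s - (starRingEnd ℂ) o - o * (starRingEnd ℂ) s) * ((1 - 2 * o * s) * ((starRingEnd ℂ) s - (starRingEnd ℂ) o ^ 2) + ((starRingEnd ℂ) s ^ 2 - 2 * (starRingEnd ℂ) o) * (s - o ^ 2)) -
      ((starRingEnd ℂ) s - o - (starRingEnd ℂ) o * s) * ((1 - 2 * (starRingEnd ℂ) o * (starRingEnd ℂ) s) * (s - o ^ 2) + (s ^ 2 - 2 * o) * ((starRingEnd ℂ) s - (starRingEnd ℂ) o ^ 2))) = 0 := by
    linear_combination ((1 - 2 * o * s) * ((starRingEnd ℂ) s - (starRingEnd ℂ) o ^ 2) + ((starRingEnd ℂ) s ^ 2 - 2 * (starRingEnd ℂ) o) * (s - o ^ 2)) * e1 -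
      ((1 - 2 * (starRingEnd ℂ) o * (starRingEnd ℂ) s) * (s - o ^ 2) + (s ^ 2 - 2 * o) * ((starRingEnd ℂ) s - (starRingEnd ℂ) o ^ 2)) * e2 +
      ((s ^ 2 - 2 * o) * ((starRingEnd ℂ) s ^ 2 - 2 * (starRingEnd ℂ) o) - (1 - 2 * o * s) * (1 - 2 * (starRingEnd ℂ) o * (starRingEnd ℂ) s)) * e3
  have key2 := (mul_eq_zero.1 key).resolve_left hα
  have key3 := congrArg Complex.im key2
  obtain ⟨a, b⟩ := s
  obtain ⟨x, y⟩ := o
  rw [nsq_re, nsq_re]
  simp only [pow_succ, pow_zero, one_mul, mul_re, mul_im, sub_re, sub_im, add_re, add_im, conj_re, conj_im,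
    one_re, one_im, re_ofNat, im_ofNat, zero_im] at key3 ⊢
  linear_combination ((1 - (a ^ 2 + b ^ 2)) / 2) * key3

end Pool.Agent.Pon30.C37
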