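import Pool.Agent.Pon30.Basic

/-!
# Row EX of MP_02df19_gt

A triangle near the equilateral one and a point near its centroid form a concentric pair: the barycentric coordinates
`x_k` of the point are the lengths of a triangle, so there are unit vectors with `∑ x_k z_k = 0`.
-/

namespace Pool.Agent.Pon30.E37

open Complex Filter Topology

noncomputable def uu (a : ℂ × ℂ) : ℂ := (a.2 - a.1 * (starRingEnd ℂ) a.2) / ((1 - ‖a.1‖ ^ 2 : ℝ) : ℂ)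
noncomputable def X0 (a : ℂ × ℂ) : ℝ := (1 + 2 * (uu a).re) / 3
noncomputable def X1 (a : ℂ × ℂ) : ℝ := (1 + 2 * ((starRingEnd ℂ) (uu a) * ω).re) / 3
noncomputable def X2 (a : ℂ × ℂ) : ℝ := (1 + 2 * ((starRingEnd ℂ) (uu a) * (starRingEnd ℂ) ω).re) / 3
noncomputable def cc (a : ℂ × ℂ) : ℝ := (X2 a ^ 2 - X0 a ^ 2 - X1 a ^ 2) / (2 * X0 a * X1 a)
noncomputable def dd (a : ℂ × ℂ) : ℝ := √(1 - cc a ^ 2)
noncomputable def y1 (a : ℂ × ℂ) : ℂ := cc a + dd a * I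
noncomputable def y2 (a : ℂ × ℂ) : ℂ := -(X0 a + X1 a * y1 a) / X2 a
noncomputable def pp (a : ℂ × ℂ) : ℂ :=
  ((T1 a.1 - a.2) - (T0 a.1 - a.2) * (starRingEnd ℂ) (y1 a)) / (y1 a - (starRingEnd ℂ) (y1 a))
noncomputable def qq (a : ℂ × ℂ) : ℂ := (T0 a.1 - a.2) - pp a
noncomputable def FF (a : ℂ × ℂ) : ℂ := -(1 * y1 a + 1 * y2 a + y1 a * y2 a)

/-! values at the equilateral triangle and its centroid -/

lemma uu_0 : uu (0, 0) = 0 := by simp [uu]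
lemma X0_0 : X0 (0, 0) = 1 / 3 := by simp [X0, uu_0]
lemma X1_0 : X1 (0, 0) = 1 / 3 := by simp [X1, uu_0]
lemma X2_0 : X2 (0, 0) = 1 / 3 := by simp [X2, uu_0]
lemma cc_0 : cc (0, 0) = -1 / 2 := by rw [cc, X0_0, X1_0, X2_0]; norm_num
lemma dd_0 : dd (0, 0) = √3 / 2 := by
  rw [dd, cc_0, Real.sqrt_eq_iff_mul_self_eq (by norm_num) (by positivity)]
  have := sq3
  nlinarith
lemma y1_0 : y1 (0, 0) = ω := by
  rw [y1, cc_0, dd_0]
  apply Complex.ext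
  · simp [ω_re]
  · simp [ω_im]
lemma y2_0 : y2 (0, 0) = (starRingEnd ℂ) ω := by
  rw [y2, X0_0, X1_0, X2_0, y1_0, cj_ω_eq]; push_cast; ring
lemma ω_sub_ne : ω - (starRingEnd ℂ) ω ≠ 0 := by
  intro h
  have := congrArg Complex.im h
  simp only [sub_im, conj_im, ω_im, zero_im] at this
  have h3 : (0 : ℝ) < √3 := by positivity
  linarith
lemma pp_0 : pp (0, 0) = 1 := by
  rw [pp, y1_0]
  have : (T1 (0 : ℂ) - 0 - (T0 0 - 0) * (starRingEnd ℂ) ω) = ω - (starRingEnd ℂ) ω := by unfold T1 T0; ring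
  simp only [this]
  exact div_self ω_sub_ne
lemma qq_0 : qq (0, 0) = 0 := by rw [qq, pp_0]; unfold T0; simp
lemma FF_0 : FF (0, 0) = 0 := by
  rw [FF, y1_0, y2_0, ω_mul_cj]; linear_combination -ω_sum

/-! continuity -/

lemma uu_c : ContinuousAt uu (0, 0) := by
  unfold uu
  apply ContinuousAt.div
  · fun_prop
  · fun_prop
  · simp
lemma X0_c : ContinuousAt X0 (0, 0) := by
  have := uu_c
  unfold X0
  fun_prop
lemma X1_c : ContinuousAt X1 (0, 0) := by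
  have := uu_c
  unfold X1
  fun_prop
lemma X2_c : ContinuousAt X2 (0, 0) := by
  have := uu_c
  unfold X2
  fun_prop
lemma cc_c : ContinuousAt cc (0, 0) := by
  have h0 := X0_c
  have h1 := X1_c
  have h2 := X2_c
  unfold cc
  apply ContinuousAt.div
  · fun_prop
  · fun_prop
  · rw [X0_0, X1_0]; norm_num
lemma dd_c : ContinuousAt dd (0, 0) := by
  have := cc_c
  unfold dd
  fun_prop
lemma y1_c : ContinuousAt y1 (0, 0) := by
  have h0 := cc_c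
  have h1 := dd_c
  unfold y1
  fun_prop
lemma y2_c : ContinuousAt y2 (0, 0) := by
  have h0 := X0_c
  have h1 := X1_c
  have h2 := X2_c
  have h3 := y1_c
  unfold y2
  apply ContinuousAt.div
  · fun_prop
  · fun_prop
  · rw [X2_0]; norm_num
lemma pp_c : ContinuousAt pp (0, 0) := by
  have h3 := y1_c
  unfold pp T0 T1
  apply ContinuousAt.div
  · fun_prop
  · fun_prop
  · rw [y1_0]; exact ω_sub_ne
lemma qq_c : ContinuousAt qq (0, 0) := by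
  have h3 := pp_c
  unfold qq T0
  fun_prop
lemma FF_c : ContinuousAt FF (0, 0) := by
  have h3 := y1_c
  have h4 := y2_c
  unfold FF
  fun_prop

/-! algebra -/

lemma X0_cast (a : ℂ × ℂ) : (X0 a : ℂ) = (1 + uu a + (starRingEnd ℂ) (uu a)) / 3 := by
  unfold X0; push_cast; rw [Complex.re_eq_add_conj]; ring
lemma X1_cast (a : ℂ × ℂ) : (X1 a : ℂ) = (1 + (starRingEnd ℂ) (uu a) * ω + uu a * (starRingEnd ℂ) ω) / 3 := by
  unfold X1; push_cast; rw [Complex.re_eq_add_conj, map_mul, Complex.conj_conj]; ring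
lemma X2_cast (a : ℂ × ℂ) : (X2 a : ℂ) = (1 + (starRingEnd ℂ) (uu a) * (starRingEnd ℂ) ω + uu a * ω) / 3 := by
  unfold X2; push_cast; rw [Complex.re_eq_add_conj, map_mul, Complex.conj_conj, Complex.conj_conj]; ring

lemma uu_spec (s o : ℂ) (hs : ‖s‖ < 1) : uu (s, o) + s * (starRingEnd ℂ) (uu (s, o)) = o := by
  have hne : (1 - s * (starRingEnd ℂ) s : ℂ) ≠ 0 := by
    rw [← nsq]
    intro hc
    have : 1 - ‖s‖ ^ 2 = 0 := by exact_mod_cast hc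
    nlinarith [norm_nonneg s]
  have hne' : (1 - (starRingEnd ℂ) s * s : ℂ) ≠ 0 := by rwa [mul_comm ((starRingEnd ℂ) s) s]
  have h1 : uu (s, o) * (1 - s * (starRingEnd ℂ) s) = o - s * (starRingEnd ℂ) o := by
    unfold uu
    simp only
    rw [Complex.ofReal_sub, nsq, Complex.ofReal_one, div_mul_cancel₀ _ hne]
  have h2 := congrArg (starRingEnd ℂ) h1
  simp only [map_mul, map_sub, map_one, Complex.conj_conj] at h2
  apply mul_right_cancel₀ hne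
  linear_combination h1 + s * h2

lemma bary (s o : ℂ) (hs : ‖s‖ < 1) : (X0 (s, o) : ℂ) * (T0 s - o) + X1 (s, o) * (T1 s - o) +
    X2 (s, o) * (T2 s - o) = 0 := by
  have h := uu_spec s o hs
  rw [X0_cast, X1_cast, X2_cast]
  generalize uu (s, o) = u at *
  unfold T0 T1 T2
  rw [cj_ω_eq]
  have hω : ω ^ 2 + ω + 1 = 0 := by rw [ω_sq, cj_ω_eq]; ring
  linear_combination h + ((2/3) * u * s - (2/3) * u - (2/3) * ((starRingEnd ℂ) u) * s + (2/3) * ((starRingEnd ℂ) u)) * hω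

lemma y1_norm {a : ℂ × ℂ} (h : cc a ^ 2 ≤ 1) : y1 a * (starRingEnd ℂ) (y1 a) = 1 := by
  have hd : dd a ^ 2 = 1 - cc a ^ 2 := by unfold dd; rw [Real.sq_sqrt (by linarith)]
  have hd' : ((dd a : ℝ) : ℂ) ^ 2 = 1 - (cc a : ℂ) ^ 2 := by exact_mod_cast hd
  unfold y1
  simp only [map_add, map_mul, Complex.conj_ofReal, Complex.conj_I]
  linear_combination hd' - (dd a : ℂ) ^ 2 * Complex.I_sq

lemma y1_add {a : ℂ × ℂ} : y1 a + (starRingEnd ℂ) (y1 a) = 2 * cc a := by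
  unfold y1
  simp only [map_add, map_mul, Complex.conj_ofReal, Complex.conj_I]
  ring

lemma y2_norm {a : ℂ × ℂ} (h : cc a ^ 2 ≤ 1) (h0 : 0 < X0 a) (h1 : 0 < X1 a) (h2 : 0 < X2 a) :
    y2 a * (starRingEnd ℂ) (y2 a) = 1 := by
  have e1 := y1_norm h
  have e2 := y1_add (a := a)
  have e3 : 2 * X0 a * X1 a * cc a = X2 a ^ 2 - X0 a ^ 2 - X1 a ^ 2 := by
    unfold cc; field_simp
  have e3' : 2 * (X0 a : ℂ) * X1 a * cc a = (X2 a : ℂ) ^ 2 - (X0 a : ℂ) ^ 2 - (X1 a : ℂ) ^ 2 := by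
    exact_mod_cast e3
  have h2' : (X2 a : ℂ) ≠ 0 := by exact_mod_cast h2.ne'
  unfold y2
  simp only [map_div₀, map_neg, map_add, map_mul, Complex.conj_ofReal]
  rw [div_mul_div_comm, div_eq_one_iff_eq (mul_ne_zero h2' h2')]
  linear_combination (X1 a : ℂ) ^ 2 * e1 + (X0 a : ℂ) * X1 a * e2 + e3'

lemma norm_of_sq {z : ℂ} (h : z * (starRingEnd ℂ) z = 1) : ‖z‖ = 1 := by
  rw [← nsq] at h
  have : ‖z‖ ^ 2 = 1 := by exact_mod_cast h
  nlinarith [norm_nonneg z]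

lemma L_one (a : ℂ × ℂ) : L (pp a) (qq a) 1 = T0 a.1 - a.2 := by
  unfold L qq; simp

lemma L_y1 (a : ℂ × ℂ) (h : y1 a - (starRingEnd ℂ) (y1 a) ≠ 0) : L (pp a) (qq a) (y1 a) = T1 a.1 - a.2 := by
  have e : pp a * (y1 a - (starRingEnd ℂ) (y1 a)) = (T1 a.1 - a.2) - (T0 a.1 - a.2) * (starRingEnd ℂ) (y1 a) := by
    unfold pp; rw [div_mul_cancel₀ _ h]
  unfold L qq
  linear_combination e

lemma L_y2 (s o : ℂ) (hs : ‖s‖ < 1) (h : y1 (s, o) - (starRingEnd ℂ) (y1 (s, o)) ≠ 0) (h2 : 0 < X2 (s, o)) :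
    L (pp (s, o)) (qq (s, o)) (y2 (s, o)) = T2 s - o := by
  have e0 := L_one (s, o)
  have e1 := L_y1 (s, o) h
  have e2 := bary s o hs
  have h2' : (X2 (s, o) : ℂ) ≠ 0 := by exact_mod_cast h2.ne'
  have e3 : y2 (s, o) * X2 (s, o) = -(X0 (s, o) + X1 (s, o) * y1 (s, o)) := by
    unfold y2; rw [div_mul_cancel₀ _ h2']
  have e4 : (starRingEnd ℂ) (y2 (s, o)) * X2 (s, o) = -(X0 (s, o) + X1 (s, o) * (starRingEnd ℂ) (y1 (s, o))) := by
    have := congrArg (starRingEnd ℂ) e3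
    simpa only [map_mul, map_neg, map_add, Complex.conj_ofReal] using this
  unfold L at *
  apply mul_right_cancel₀ h2'
  simp only [map_one] at e0
  linear_combination pp (s, o) * e3 + qq (s, o) * e4 - (X0 (s, o) : ℂ) * e0 - (X1 (s, o) : ℂ) * e1 - e2

theorem ex37 : ExStmt := by
  intro ρ hρ
  have hX0 : ∀ᶠ a in 𝓝 ((0 : ℂ), (0 : ℂ)), 0 < X0 a :=
    continuousAt_const.eventually_lt X0_c (by rw [X0_0]; norm_num)
  have hX1 : ∀ᶠ a in 𝓝 ((0 : ℂ), (0 : ℂ)), 0 < X1 a :=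
    continuousAt_const.eventually_lt X1_c (by rw [X1_0]; norm_num)
  have hX2 : ∀ᶠ a in 𝓝 ((0 : ℂ), (0 : ℂ)), 0 < X2 a :=
    continuousAt_const.eventually_lt X2_c (by rw [X2_0]; norm_num)
  have hcc0 : ContinuousAt (fun a => cc a ^ 2) ((0 : ℂ), (0 : ℂ)) := cc_c.pow 2
  have hcc : ∀ᶠ a in 𝓝 ((0 : ℂ), (0 : ℂ)), cc a ^ 2 < 1 :=
    hcc0.eventually_lt continuousAt_const (by rw [cc_0]; norm_num)
  have hor : ∀ᶠ a in 𝓝 ((0 : ℂ), (0 : ℂ)), ‖Rc 1 (y1 a) (y2 a)‖ < ‖Pc 1 (y1 a) (y2 a)‖ := by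
    have h3 := y1_c
    have h4 := y2_c
    apply ContinuousAt.eventually_lt
    · unfold Rc; fun_prop
    · unfold Pc; fun_prop
    · rw [y1_0, y2_0]
      have e1 : Rc 1 ω ((starRingEnd ℂ) ω) = 0 := by
        unfold Rc; linear_combination (1 / 3) * cjω_sq + (1 / 3) * ω_sq + (1 / 3) * ω_sum
      have e2 : Pc 1 ω ((starRingEnd ℂ) ω) = 1 := by
        unfold Pc; linear_combination (2 / 3) * ω_mul_cj
      rw [e1, e2]; simp
  have hqp : ∀ᶠ a in 𝓝 ((0 : ℂ), (0 : ℂ)), ‖qq a‖ < ‖pp a‖ :=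
    qq_c.norm.eventually_lt pp_c.norm (by rw [qq_0, pp_0]; simp)
  have hqρ : ∀ᶠ a in 𝓝 ((0 : ℂ), (0 : ℂ)), ‖qq a‖ < ρ * ‖pp a‖ :=
    qq_c.norm.eventually_lt (continuousAt_const.mul pp_c.norm) (by rw [qq_0, pp_0]; simpa using hρ)
  have hF1 : ∀ᶠ a in 𝓝 ((0 : ℂ), (0 : ℂ)), ‖FF a‖ < 1 :=
    FF_c.norm.eventually_lt continuousAt_const (by rw [FF_0]; simp)
  have hFρ : ∀ᶠ a in 𝓝 ((0 : ℂ), (0 : ℂ)), ‖FF a‖ < ρ :=
    FF_c.norm.eventually_lt continuousAt_const (by rw [FF_0]; simpa using hρ)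
  have hs : ∀ᶠ a in 𝓝 ((0 : ℂ), (0 : ℂ)), ‖a.1‖ < 1 :=
    (continuousAt_fst (p := ((0 : ℂ), (0 : ℂ)))).norm.eventually_lt continuousAt_const (by simp)
  have hy : ∀ᶠ a in 𝓝 ((0 : ℂ), (0 : ℂ)), y1 a - (starRingEnd ℂ) (y1 a) ≠ 0 := by
    have h3 := y1_c
    have h5 : ContinuousAt (fun a => y1 a - (starRingEnd ℂ) (y1 a)) ((0 : ℂ), (0 : ℂ)) := by fun_prop
    exact h5.eventually_ne (by rw [y1_0]; exact ω_sub_ne)
  have hall := hX0.and (hX1.and (hX2.and (hcc.and (hor.and (hqp.and (hqρ.and (hF1.and (hFρ.and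
    (hs.and hy)))))))))
  obtain ⟨ε, hε, hball⟩ := Metric.eventually_nhds_iff.1 hall
  refine ⟨ε, hε, fun s o hs' ho' => ?_⟩
  have hd : dist (s, o) ((0 : ℂ), (0 : ℂ)) < ε := by
    rw [Prod.dist_eq]; simp only [dist_zero_right]; exact max_lt hs' ho'
  obtain ⟨g0, g1, g2, gc, gor, gqp, gqρ, gF1, gFρ, gs, gy⟩ := hball hd
  refine ⟨pp (s, o), qq (s, o), FF (s, o), 1, y1 (s, o), y2 (s, o), gqp, gqρ, gF1, gFρ,
    ⟨norm_one, norm_of_sq (y1_norm gc.le), norm_of_sq (y2_norm gc.le g0 g1 g2), gor, ?_⟩,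
    (L_one (s, o)).symm, (L_y1 (s, o) gy).symm, (L_y2 s o gs gy g2).symm⟩
  unfold FF; ring

end Pool.Agent.Pon30.E37
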