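import Pool.Agent.Pon30.Stmts
import Pool.Agent.Pon30.Basic

/-!
# Row FAM: existence and uniqueness of the 3-periodic through a point
-/

namespace Pool.Agent.Pon30

open Complex

lemma ω_sub_cj : ω - (starRingEnd ℂ) ω ≠ 0 := by
  intro h
  have h1 : ω = (starRingEnd ℂ) ω := sub_eq_zero.1 h
  have h2 := congrArg Complex.im h1
  rw [Complex.conj_im, ω_im] at h2
  have h3 : (0 : ℝ) < √3 := Real.sqrt_pos.2 (by norm_num)
  linarith

/-- orientation formula -/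
lemma or_formula {z₀ z₁ z₂ : ℂ} (h0 : z₀ * (starRingEnd ℂ) z₀ = 1) (h1 : z₁ * (starRingEnd ℂ) z₁ = 1) (h2 : z₂ * (starRingEnd ℂ) z₂ = 1) :
    9 * (((‖Pc z₀ z₁ z₂‖ ^ 2 - ‖Rc z₀ z₁ z₂‖ ^ 2 : ℝ)) : ℂ) * (z₀ * z₁ * z₂) =
      (ω - (starRingEnd ℂ) ω) * ((z₀ - z₁) * (z₁ - z₂) * (z₂ - z₀)) := by
  rw [Complex.ofReal_sub, nsq, nsq]
  unfold Pc Rc
  simp only [map_div₀, map_add, map_mul, Complex.conj_conj, map_ofNat]
  have e1 := ω_sq
  have e2 := cjω_sq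
  have e3 := ω_mul_cj
  generalize (starRingEnd ℂ) z₀ = a at *
  generalize (starRingEnd ℂ) z₁ = b at *
  generalize (starRingEnd ℂ) z₂ = c at *
  generalize (starRingEnd ℂ) ω = v at *
  generalize ω = u at *
  have k1 : 9 * ((z₀ + v * z₁ + u * z₂) / 3 * ((a + u * b + v * c) / 3) -
      (z₀ + u * z₁ + v * z₂) / 3 * ((a + v * b + u * c) / 3)) =
      (u - v) * (z₀ * b - z₀ * c - z₁ * a + z₁ * c + z₂ * a - z₂ * b) := by
    linear_combination (z₂ * b - z₁ * c) * e1 + (z₁ * c - z₂ * b) * e2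
  have k2 : (z₀ * b - z₀ * c - z₁ * a + z₁ * c + z₂ * a - z₂ * b) * (z₀ * z₁ * z₂) =
      (z₀ - z₁) * (z₁ - z₂) * (z₂ - z₀) := by
    linear_combination (z₁ * z₂ * z₂ - z₁ * z₁ * z₂) * h0 + (z₀ * z₀ * z₂ - z₀ * z₂ * z₂) * h1 +
      (z₀ * z₁ * z₁ - z₀ * z₀ * z₁) * h2
  calc _ = 9 * ((z₀ + v * z₁ + u * z₂) / 3 * ((a + u * b + v * c) / 3) -
      (z₀ + u * z₁ + v * z₂) / 3 * ((a + v * b + u * c) / 3)) * (z₀ * z₁ * z₂) := by ring
    _ = _ := by rw [k1, mul_assoc, k2]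

lemma Pc_swap (z₀ z₁ z₂ : ℂ) : Pc z₀ z₂ z₁ = Rc z₀ z₁ z₂ := by unfold Pc Rc; ring
lemma Rc_swap (z₀ z₁ z₂ : ℂ) : Rc z₀ z₂ z₁ = Pc z₀ z₁ z₂ := by unfold Pc Rc; ring

theorem fam41 : FamStmt := by
  intro F z₀ hF h0
  have c0 : z₀ * (starRingEnd ℂ) z₀ = 1 := by rw [← nsq, h0]; norm_num
  have hz0 : z₀ ≠ 0 := by intro h; rw [h] at h0; simp at h0
  have hd : 1 - (starRingEnd ℂ) F * z₀ ^ 2 ≠ 0 := by
    intro h
    have h1 : (starRingEnd ℂ) F * z₀ ^ 2 = 1 := (sub_eq_zero.1 h).symm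
    have h2 := congrArg norm h1
    rw [norm_mul, norm_pow, h0, Complex.norm_conj] at h2
    norm_num at h2
    linarith
  obtain ⟨T, hTd⟩ : ∃ T : ℂ, T * (1 - (starRingEnd ℂ) F * z₀ ^ 2) = z₀ ^ 2 - F := ⟨_, div_mul_cancel₀ _ hd⟩
  have hTn : T * (starRingEnd ℂ) T = 1 := by
    have hd' : 1 - F * ((starRingEnd ℂ) z₀) ^ 2 ≠ 0 := by
      intro h
      apply hd
      have := congrArg (starRingEnd ℂ) h
      simpa [map_sub, map_mul, map_pow] using this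
    have e : (starRingEnd ℂ) T * (1 - F * ((starRingEnd ℂ) z₀) ^ 2) = ((starRingEnd ℂ) z₀) ^ 2 - (starRingEnd ℂ) F := by
      have := congrArg (starRingEnd ℂ) hTd
      simpa [map_sub, map_mul, map_pow] using this
    have e2 : T * (starRingEnd ℂ) T * ((1 - (starRingEnd ℂ) F * z₀ ^ 2) * (1 - F * ((starRingEnd ℂ) z₀) ^ 2)) =
        (1 - (starRingEnd ℂ) F * z₀ ^ 2) * (1 - F * ((starRingEnd ℂ) z₀) ^ 2) := by
      calc _ = (T * (1 - (starRingEnd ℂ) F * z₀ ^ 2)) * ((starRingEnd ℂ) T * (1 - F * ((starRingEnd ℂ) z₀) ^ 2)) := by ring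
        _ = (z₀ ^ 2 - F) * (((starRingEnd ℂ) z₀) ^ 2 - (starRingEnd ℂ) F) := by rw [hTd, e]
        _ = _ := by linear_combination (z₀ * (starRingEnd ℂ) z₀ + 1) * (1 - F * (starRingEnd ℂ) F) * c0
    exact mul_right_cancel₀ (mul_ne_zero hd hd') (by rw [e2, one_mul])
  have hTnorm : ‖T‖ = 1 := by
    have h1 : ((‖T‖ ^ 2 : ℝ) : ℂ) = ((1 : ℝ) : ℂ) := by rw [nsq, hTn]; norm_num
    have h2 : ‖T‖ ^ 2 = 1 := by exact_mod_cast h1
    have h3 : 0 ≤ ‖T‖ := norm_nonneg _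
    nlinarith
  obtain ⟨Q, hS⟩ : ∃ Q : ℂ, Q = - ((starRingEnd ℂ) z₀) * (F + T) := ⟨_, rfl⟩
  have hQ1 : z₀ * Q + T = - F := by rw [hS]; linear_combination (-(F + T)) * c0
  have hQ2 : Q = - z₀ * (1 + T * (starRingEnd ℂ) F) := by
    have : z₀ * Q = z₀ * (- z₀ * (1 + T * (starRingEnd ℂ) F)) := by
      linear_combination hQ1 - hTd
    exact mul_left_cancel₀ hz0 this
  have hQT : Q = T * (starRingEnd ℂ) Q := by
    have hcQ : (starRingEnd ℂ) Q = - z₀ * ((starRingEnd ℂ) F + (starRingEnd ℂ) T) := by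
      rw [hS]
      simp only [map_mul, map_neg, map_add, Complex.conj_conj]
    rw [hcQ]
    linear_combination hQ2 + z₀ * hTn
  have hQn : ‖Q‖ < 2 := by
    rw [hQ2, norm_mul, norm_neg, h0, one_mul]
    calc ‖1 + T * (starRingEnd ℂ) F‖ ≤ ‖(1 : ℂ)‖ + ‖T * (starRingEnd ℂ) F‖ := norm_add_le _ _
      _ = 1 + ‖F‖ := by rw [norm_one, norm_mul, hTnorm, Complex.norm_conj, one_mul]
      _ < 2 := by linarith
  -- square root of T
  obtain ⟨t, ht⟩ : ∃ t : ℂ, t ^ 2 = T := IsAlgClosed.exists_pow_nat_eq T (by norm_num)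
  have htn : ‖t‖ = 1 := by
    have h1 := congrArg norm ht
    rw [norm_pow, hTnorm] at h1
    have h3 : 0 ≤ ‖t‖ := norm_nonneg _
    nlinarith
  have ct : t * (starRingEnd ℂ) t = 1 := by rw [← nsq, htn]; norm_num
  have ht0 : t ≠ 0 := by intro h; rw [h] at htn; simp at htn
  -- Q / t is real
  have hr : (starRingEnd ℂ) (Q * (starRingEnd ℂ) t) = Q * (starRingEnd ℂ) t := by
    rw [map_mul, Complex.conj_conj]
    have : Q = t ^ 2 * (starRingEnd ℂ) Q := by rw [ht]; exact hQT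
    calc (starRingEnd ℂ) Q * t = (t * (starRingEnd ℂ) t) * ((starRingEnd ℂ) Q * t) := by rw [ct, one_mul]
      _ = (t ^ 2 * (starRingEnd ℂ) Q) * (starRingEnd ℂ) t := by ring
      _ = Q * (starRingEnd ℂ) t := by rw [← this]
  obtain ⟨r, hrr⟩ : ∃ r : ℝ, Q * (starRingEnd ℂ) t = (r : ℂ) := by
    refine ⟨(Q * (starRingEnd ℂ) t).re, ?_⟩
    exact (Complex.conj_eq_iff_re.1 hr).symm
  have hQr : Q = t * r := by
    rw [← hrr]
    linear_combination (-Q) * ct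
  have hrabs : |r| < 2 := by
    have h1 := congrArg norm hQr
    rw [norm_mul, htn, one_mul, Complex.norm_real, Real.norm_eq_abs] at h1
    rw [← h1]; exact hQn
  have hr2 : r ^ 2 < 4 := by
    have := abs_lt.1 hrabs
    nlinarith
  set s : ℝ := √(4 - r ^ 2) with hs
  have hs2 : s ^ 2 = 4 - r ^ 2 := Real.sq_sqrt (by linarith)
  have hspos : 0 < s := Real.sqrt_pos.2 (by linarith)
  have hs2c : ((s : ℂ)) ^ 2 = 4 - (r : ℂ) ^ 2 := by exact_mod_cast congrArg (fun x : ℝ => (x : ℂ)) hs2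
  have key : ∀ σ : ℝ, σ ^ 2 = 1 → ‖t * ((r + σ * s * I) / 2)‖ = 1 := by
    intro σ hσ
    rw [norm_mul, htn, one_mul]
    have h1 : ((‖((r : ℂ) + σ * s * I) / 2‖ ^ 2 : ℝ) : ℂ) = 1 := by
      rw [nsq]
      simp only [map_div₀, map_add, map_mul, Complex.conj_ofReal, Complex.conj_I, map_ofNat]
      have hσc : (σ : ℂ) ^ 2 = 1 := by exact_mod_cast congrArg (fun x : ℝ => (x : ℂ)) hσ
      have hI : I ^ 2 = -1 := Complex.I_sq
      linear_combination (-(σ : ℂ) ^ 2 * (s : ℂ) ^ 2 / 4) * hI + ((s : ℂ) ^ 2 / 4) * hσc +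
        (1 / 4 : ℂ) * hs2c
    have h2 : ‖((r : ℂ) + σ * s * I) / 2‖ ^ 2 = 1 := by exact_mod_cast h1
    have h3 : 0 ≤ ‖((r : ℂ) + σ * s * I) / 2‖ := norm_nonneg _
    nlinarith
  set u : ℂ := t * ((r + (1 : ℝ) * s * I) / 2) with hu
  set v : ℂ := t * ((r + (-1 : ℝ) * s * I) / 2) with hv
  have hun : ‖u‖ = 1 := key 1 (by norm_num)
  have hvn : ‖v‖ = 1 := key (-1) (by norm_num)
  have huv : u + v = Q := by
    rw [hu, hv, hQr]; push_cast; ring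
  have huvm : u * v = T := by
    rw [hu, hv, ← ht]
    push_cast
    have hI : I ^ 2 = -1 := Complex.I_sq
    linear_combination (-(t ^ 2) * (s : ℂ) ^ 2 / 4) * hI + (t ^ 2 / 4) * hs2c
  have hs2' : z₀ * u + z₀ * v + u * v = - F := by
    rw [← hQ1, ← huv, huvm]; ring
  -- the three points are distinct
  have hne_uv : u ≠ v := by
    intro h
    have h1 : u - v = t * (s * I) := by rw [hu, hv]; push_cast; ring
    rw [h, sub_self] at h1
    have h2 : (s : ℂ) ≠ 0 := by exact_mod_cast hspos.ne'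
    exact (mul_ne_zero ht0 (mul_ne_zero h2 Complex.I_ne_zero)) h1.symm
  have hne : ∀ w w' : ℂ, ‖w'‖ = 1 → z₀ * w + z₀ * w' + w * w' = - F → z₀ ≠ w := by
    intro w w' hw' h hzw
    rw [← hzw] at h
    have h1 : ‖F‖ = ‖z₀ ^ 2 + 2 * (z₀ * w')‖ := by
      rw [← norm_neg F, ← h]; congr 1; ring
    have h2 : ‖2 * (z₀ * w')‖ ≤ ‖z₀ ^ 2 + 2 * (z₀ * w')‖ + ‖z₀ ^ 2‖ := by
      calc ‖2 * (z₀ * w')‖ = ‖(z₀ ^ 2 + 2 * (z₀ * w')) - z₀ ^ 2‖ := by congr 1; ring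
        _ ≤ _ := norm_sub_le _ _
    rw [norm_mul, norm_mul, h0, hw', norm_pow, h0, ← h1] at h2
    norm_num at h2
    linarith
  have hne_u : z₀ ≠ u := hne u v hvn hs2'
  have hne_v : z₀ ≠ v := hne v u hun (by rw [← hs2']; ring)
  have cu : u * (starRingEnd ℂ) u = 1 := by rw [← nsq, hun]; norm_num
  have cv : v * (starRingEnd ℂ) v = 1 := by rw [← nsq, hvn]; norm_num
  have hor := or_formula c0 cu cv
  have hne' : ‖Pc z₀ u v‖ ^ 2 - ‖Rc z₀ u v‖ ^ 2 ≠ 0 := by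
    intro h
    rw [h] at hor
    simp only [Complex.ofReal_zero, mul_zero, zero_mul] at hor
    exact (mul_ne_zero ω_sub_cj (mul_ne_zero (mul_ne_zero (sub_ne_zero.2 hne_u) (sub_ne_zero.2 hne_uv))
      (sub_ne_zero.2 (Ne.symm hne_v)))) hor.symm
  have hP0 : 0 ≤ ‖Pc z₀ u v‖ := norm_nonneg _
  have hR0 : 0 ≤ ‖Rc z₀ u v‖ := norm_nonneg _
  rcases lt_or_ge (‖Rc z₀ u v‖) (‖Pc z₀ u v‖) with h | h
  · exact ⟨u, v, h0, hun, hvn, h, hs2'⟩
  · have h' : ‖Pc z₀ u v‖ < ‖Rc z₀ u v‖ := by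
      refine lt_of_le_of_ne h ?_
      intro he
      apply hne'
      rw [he]; ring
    refine ⟨v, u, h0, hvn, hun, ?_, ?_⟩
    · rw [Pc_swap, Rc_swap]; exact h'
    · rw [← hs2']; ring

theorem famUniq41 : FamUniqStmt := by
  intro F z₀ z₁ z₂ z₁' z₂' hF h h'
  have c0 := h.cj0
  have hz0 : z₀ ≠ 0 := by intro e; have := h.n₀; rw [e] at this; simp at this
  have hd : 1 - (starRingEnd ℂ) F * z₀ ^ 2 ≠ 0 := by
    intro e
    have h1 : (starRingEnd ℂ) F * z₀ ^ 2 = 1 := (sub_eq_zero.1 e).symm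
    have h2 := congrArg norm h1
    rw [norm_mul, norm_pow, h.n₀, Complex.norm_conj] at h2
    norm_num at h2
    linarith
  have a1 := h.s1
  have a2 := h.s2
  have b1 := h'.s1
  have b2 := h'.s2
  have hT : z₁ * z₂ = z₁' * z₂' := by
    have : z₁ * z₂ * (1 - (starRingEnd ℂ) F * z₀ ^ 2) = z₁' * z₂' * (1 - (starRingEnd ℂ) F * z₀ ^ 2) := by
      linear_combination a2 - z₀ * a1 - b2 + z₀ * b1
    exact mul_right_cancel₀ hd this
  have hS : z₁ + z₂ = z₁' + z₂' := by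
    have : z₀ * (z₁ + z₂) = z₀ * (z₁' + z₂') := by
      linear_combination a2 - b2 - hT
    exact mul_left_cancel₀ hz0 this
  have hq : (z₁' - z₁) * (z₁' - z₂) = 0 := by
    linear_combination (-z₁') * hS + hT
  rcases mul_eq_zero.1 hq with e | e
  · have e1 : z₁ = z₁' := (sub_eq_zero.1 e).symm
    refine ⟨e1, ?_⟩
    linear_combination hS - e1
  · have e1 : z₁' = z₂ := sub_eq_zero.1 e
    have e2 : z₂' = z₁ := by linear_combination -hS - e1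
    exfalso
    have o1 := h.or
    have o2 := h'.or
    rw [e1, e2, Pc_swap, Rc_swap] at o2
    exact absurd o1 (not_lt.2 o2.le)

end Pool.Agent.Pon30
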