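import Pool.Agent.Pon30.Basic

/-!
# Row JET: second order expansion of the shape function at the equilateral shape
-/

namespace Pool.Agent.Pon30

open Complex

/-- a real multilinear map on the diagonal -/
lemma expand34 {k : ℕ} (f : ContinuousMultilinearMap ℝ (fun _ : Fin k => ℂ) ℂ) (s : ℂ) :
    f (fun _ => s) = ∑ t : Finset (Fin k), (∏ i : Fin k, if i ∈ t then s.re else s.im) •
      f (t.piecewise (fun _ => (1 : ℂ)) (fun _ => I)) := by
  have h0 : (fun _ : Fin k => s) = (fun _ => s.re • (1 : ℂ)) + (fun _ => s.im • I) := by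
    funext i
    simp only [Pi.add_apply]
    apply Complex.ext <;> simp
  rw [h0]
  have h1 := f.toMultilinearMap.map_add_univ (fun _ => s.re • (1 : ℂ)) (fun _ => s.im • I)
  have h2 : f ((fun _ => s.re • (1 : ℂ)) + (fun _ => s.im • I)) =
    ∑ t : Finset (Fin k), f (t.piecewise (fun _ => s.re • (1 : ℂ)) (fun _ => s.im • I)) := h1
  rw [h2]
  apply Finset.sum_congr rfl
  intro t _
  have h3 : (t.piecewise (fun _ => s.re • (1 : ℂ)) (fun _ => s.im • I) : Fin k → ℂ) =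
      fun i => (if i ∈ t then s.re else s.im) •
        (t.piecewise (fun _ => (1 : ℂ)) (fun _ => I) : Fin k → ℂ) i := by
    funext i
    by_cases hi : i ∈ t
    · simp [hi]
    · simp [hi]
  rw [h3]
  exact f.toMultilinearMap.map_smul_univ _ _

lemma re_eq34 (s : ℂ) : ((s.re : ℝ) : ℂ) = (s + (starRingEnd ℂ) s) / 2 := by
  rw [Complex.add_conj]; push_cast; ring

lemma im_eq34 (s : ℂ) : ((s.im : ℝ) : ℂ) = -I * (s - (starRingEnd ℂ) s) / 2 := by
  rw [Complex.sub_conj]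
  have := I_mul_I
  push_cast
  linear_combination (s.im : ℂ) * this

lemma lin34 (f : ContinuousMultilinearMap ℝ (fun _ : Fin 1 => ℂ) ℂ) :
    ∃ b c : ℂ, ∀ s : ℂ, f (fun _ => s) = b * s + c * (starRingEnd ℂ) s := by
  refine ⟨(f (fun _ => 1) - I * f (fun _ => I)) / 2, (f (fun _ => 1) + I * f (fun _ => I)) / 2, ?_⟩
  intro s
  rw [expand34]
  have hu : (Finset.univ : Finset (Finset (Fin 1))) = {∅, {0}} := by decide
  rw [hu, Finset.sum_pair (by decide)]
  have e1 : ((∅ : Finset (Fin 1)).piecewise (fun _ => (1 : ℂ)) (fun _ => I) : Fin 1 → ℂ) = fun _ => I := by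
    funext i; simp
  have e2 : (({0} : Finset (Fin 1)).piecewise (fun _ => (1 : ℂ)) (fun _ => I) : Fin 1 → ℂ) = fun _ => 1 := by
    funext i
    have : i = 0 := Subsingleton.elim _ _
    subst this
    simp
  rw [e1, e2]
  simp only [Complex.real_smul]
  have p1 : (∏ i : Fin 1, if i ∈ (∅ : Finset (Fin 1)) then s.re else s.im) = s.im := by simp
  have p2 : (∏ i : Fin 1, if i ∈ ({0} : Finset (Fin 1)) then s.re else s.im) = s.re := by simp
  rw [p1, p2, re_eq34, im_eq34]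
  ring

lemma quad34 (f : ContinuousMultilinearMap ℝ (fun _ : Fin 2 => ℂ) ℂ) :
    ∃ d e g : ℂ, ∀ s : ℂ, f (fun _ => s) = d * s ^ 2 + e * (s * (starRingEnd ℂ) s) + g * ((starRingEnd ℂ) s) ^ 2 := by
  set u := f ((∅ : Finset (Fin 2)).piecewise (fun _ => (1 : ℂ)) (fun _ => I)) with hu
  set v := f (({0} : Finset (Fin 2)).piecewise (fun _ => (1 : ℂ)) (fun _ => I)) with hv
  set w := f (({1} : Finset (Fin 2)).piecewise (fun _ => (1 : ℂ)) (fun _ => I)) with hw
  set x := f (({0, 1} : Finset (Fin 2)).piecewise (fun _ => (1 : ℂ)) (fun _ => I)) with hx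
  refine ⟨x / 4 - I * (v + w) / 4 - u / 4, x / 2 + u / 2, x / 4 + I * (v + w) / 4 - u / 4, ?_⟩
  intro s
  rw [expand34]
  have huniv : (Finset.univ : Finset (Finset (Fin 2))) = {∅, {0}, {1}, {0, 1}} := by decide
  rw [huniv, Finset.sum_insert (by decide), Finset.sum_insert (by decide), Finset.sum_pair (by decide)]
  rw [← hu, ← hv, ← hw, ← hx]
  simp only [Complex.real_smul]
  have p1 : (∏ i : Fin 2, if i ∈ (∅ : Finset (Fin 2)) then s.re else s.im) = s.im * s.im := by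
    rw [Fin.prod_univ_two]; simp
  have p2 : (∏ i : Fin 2, if i ∈ ({0} : Finset (Fin 2)) then s.re else s.im) = s.re * s.im := by
    rw [Fin.prod_univ_two]; simp
  have p3 : (∏ i : Fin 2, if i ∈ ({1} : Finset (Fin 2)) then s.re else s.im) = s.im * s.re := by
    rw [Fin.prod_univ_two]; simp
  have p4 : (∏ i : Fin 2, if i ∈ ({0, 1} : Finset (Fin 2)) then s.re else s.im) = s.re * s.re := by
    rw [Fin.prod_univ_two]; simp
  rw [p1, p2, p3, p4]
  push_cast
  rw [re_eq34, im_eq34]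
  have hI := I_mul_I
  linear_combination (u * (s - (starRingEnd ℂ) s) ^ 2 / 4) * hI

/-- second order expansion of an analytic function -/
lemma expansion34 {h : ℂ → ℂ} (hh : AnalyticAt ℝ h 0) : ∃ (a b c d e g : ℂ) (C ε : ℝ), 0 < ε ∧
    ∀ s : ℂ, ‖s‖ < ε →
      ‖h s - (a + b * s + c * (starRingEnd ℂ) s + d * s ^ 2 + e * (s * (starRingEnd ℂ) s) + g * ((starRingEnd ℂ) s) ^ 2)‖ ≤ C * ‖s‖ ^ 3 := by
  obtain ⟨p, hp⟩ := hh
  obtain ⟨b, c, hbc⟩ := lin34 (p 1)
  obtain ⟨d, e, g, hde⟩ := quad34 (p 2)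
  have hO := hp.isBigO_sub_partialSum_pow 3
  obtain ⟨C, hC⟩ := hO.bound
  rw [Metric.eventually_nhds_iff] at hC
  obtain ⟨ε, hε, hC⟩ := hC
  refine ⟨p 0 (fun _ => 0), b, c, d, e, g, C, ε, hε, ?_⟩
  intro s hs
  have h1 := hC (y := s) (by simpa using hs)
  have h2 : p.partialSum 3 s = p 0 (fun _ => 0) + b * s + c * (starRingEnd ℂ) s + d * s ^ 2 + e * (s * (starRingEnd ℂ) s) +
      g * ((starRingEnd ℂ) s) ^ 2 := by
    unfold FormalMultilinearSeries.partialSum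
    rw [Finset.sum_range_succ, Finset.sum_range_succ, Finset.sum_range_one, hbc s, hde s]
    have h0 : (fun _ : Fin 0 => s) = (fun _ => 0) := by funext i; exact i.elim0
    rw [h0]
    ring
  rw [h2] at h1
  simpa using h1

theorem jet34 : JetStmt := by
  intro h hS
  obtain ⟨ε₁, hε₁, hconj⟩ := hS.conj
  obtain ⟨ε₂, hε₂, hrot⟩ := hS.rot
  obtain ⟨a, b, c, d, e, g, C, ε₃, hε₃, hexp⟩ := expansion34 hS.an
  set P : ℂ → ℂ := fun s => a + b * s + c * (starRingEnd ℂ) s + d * s ^ 2 + e * (s * (starRingEnd ℂ) s) + g * ((starRingEnd ℂ) s) ^ 2 with hP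
  have hexp' : ∀ s : ℂ, ‖s‖ < ε₃ → ‖h s - P s‖ ≤ C * ‖s‖ ^ 3 := hexp
  have hωn := ω_norm
  have hωn' : ‖(starRingEnd ℂ) ω‖ = 1 := by rw [Complex.norm_conj]; exact hωn
  -- averaging over the rotations
  have step1 : ∀ s : ℂ, ‖s‖ < min ε₂ ε₃ → ‖h s - (c * (starRingEnd ℂ) s + d * s ^ 2)‖ ≤ C * ‖s‖ ^ 3 := by
    intro s hs
    have hs2 : ‖s‖ < ε₂ := lt_of_lt_of_le hs (min_le_left _ _)
    have hs3 : ‖s‖ < ε₃ := lt_of_lt_of_le hs (min_le_right _ _)
    have n1 : ‖ω * s‖ = ‖s‖ := by rw [norm_mul, hωn, one_mul]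
    have n2 : ‖(starRingEnd ℂ) ω * s‖ = ‖s‖ := by rw [norm_mul, hωn', one_mul]
    have r1 : h (ω * s) = (starRingEnd ℂ) ω * h s := hrot s hs2
    have r2 : h ((starRingEnd ℂ) ω * s) = ω * h s := by
      have := hrot (ω * s) (by rw [n1]; exact hs2)
      have e1 : ω * (ω * s) = (starRingEnd ℂ) ω * s := by rw [← mul_assoc, ← pow_two, ω_sq]
      rw [e1, r1] at this
      rw [this, ← mul_assoc, ← pow_two, cjω_sq]
    have b0 := hexp' s hs3
    have b1 := hexp' (ω * s) (by rw [n1]; exact hs3)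
    have b2 := hexp' ((starRingEnd ℂ) ω * s) (by rw [n2]; exact hs3)
    rw [n1] at b1
    rw [n2] at b2
    have key : h s - (c * (starRingEnd ℂ) s + d * s ^ 2) = ((h s - P s) + ω * (h (ω * s) - P (ω * s)) +
        (starRingEnd ℂ) ω * (h ((starRingEnd ℂ) ω * s) - P ((starRingEnd ℂ) ω * s))) / 3 := by
      rw [r1, r2]
      simp only [hP, map_mul, Complex.conj_conj]
      have a1 := ω_mul_cj
      have a2 := ω_sq
      have a3 := cjω_sq
      have a4 := ω_sum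
      have a5 := ω_cube
      have a6 : (starRingEnd ℂ) ω ^ 3 = 1 := by
        have := congrArg (starRingEnd ℂ) ω_cube
        simpa using this
      have t1 : ω * (a + b * (ω * s) + c * ((starRingEnd ℂ) ω * (starRingEnd ℂ) s) + d * (ω * s) ^ 2 + e * (ω * s * ((starRingEnd ℂ) ω * (starRingEnd ℂ) s)) +
          g * ((starRingEnd ℂ) ω * (starRingEnd ℂ) s) ^ 2) = ω * a + (starRingEnd ℂ) ω * b * s + c * (starRingEnd ℂ) s + d * s ^ 2 + ω * e * (s * (starRingEnd ℂ) s) +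
          (starRingEnd ℂ) ω * g * ((starRingEnd ℂ) s) ^ 2 := by
        linear_combination (b * s) * a2 + (c * (starRingEnd ℂ) s + ω * e * s * (starRingEnd ℂ) s + (starRingEnd ℂ) ω * g * (starRingEnd ℂ) s ^ 2) * a1 +
          (d * s ^ 2) * a5
      have t2 : (starRingEnd ℂ) ω * (a + b * ((starRingEnd ℂ) ω * s) + c * (ω * (starRingEnd ℂ) s) + d * ((starRingEnd ℂ) ω * s) ^ 2 +
          e * ((starRingEnd ℂ) ω * s * (ω * (starRingEnd ℂ) s)) + g * (ω * (starRingEnd ℂ) s) ^ 2) = (starRingEnd ℂ) ω * a + ω * b * s + c * (starRingEnd ℂ) s + d * s ^ 2 +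
          (starRingEnd ℂ) ω * e * (s * (starRingEnd ℂ) s) + ω * g * ((starRingEnd ℂ) s) ^ 2 := by
        linear_combination (b * s) * a3 + (c * (starRingEnd ℂ) s + (starRingEnd ℂ) ω * e * s * (starRingEnd ℂ) s + ω * g * (starRingEnd ℂ) s ^ 2) * a1 +
          (d * s ^ 2) * a6
      have t3 : ω * ((starRingEnd ℂ) ω * h s) = h s := by rw [← mul_assoc, a1, one_mul]
      have t4 : (starRingEnd ℂ) ω * (ω * h s) = h s := by rw [← mul_assoc, cj_mul_ω, one_mul]
      rw [mul_sub, mul_sub, t1, t2, t3, t4]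
      linear_combination ((a + b * s + e * (s * (starRingEnd ℂ) s) + g * (starRingEnd ℂ) s ^ 2) / 3) * a4
    rw [key, norm_div]
    have hn3 : ‖(3 : ℂ)‖ = 3 := by simp
    rw [hn3, div_le_iff₀ (by norm_num)]
    calc ‖(h s - P s) + ω * (h (ω * s) - P (ω * s)) + (starRingEnd ℂ) ω * (h ((starRingEnd ℂ) ω * s) - P ((starRingEnd ℂ) ω * s))‖
        ≤ ‖h s - P s‖ + ‖ω * (h (ω * s) - P (ω * s))‖ + ‖(starRingEnd ℂ) ω * (h ((starRingEnd ℂ) ω * s) - P ((starRingEnd ℂ) ω * s))‖ :=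
          norm_add₃_le
      _ = ‖h s - P s‖ + ‖h (ω * s) - P (ω * s)‖ + ‖h ((starRingEnd ℂ) ω * s) - P ((starRingEnd ℂ) ω * s)‖ := by
          rw [norm_mul, norm_mul, hωn, hωn', one_mul, one_mul]
      _ ≤ C * ‖s‖ ^ 3 * 3 := by linarith
  -- averaging with the mirror image
  refine ⟨c.re, d.re, C, min ε₁ (min ε₂ ε₃), lt_min hε₁ (lt_min hε₂ hε₃), ?_⟩
  intro s hs
  have hs1 : ‖s‖ < ε₁ := lt_of_lt_of_le hs (min_le_left _ _)
  have hs2 : ‖s‖ < min ε₂ ε₃ := lt_of_lt_of_le hs (min_le_right _ _)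
  have nc : ‖(starRingEnd ℂ) s‖ = ‖s‖ := Complex.norm_conj s
  have b0 := step1 s hs2
  have b1 := step1 ((starRingEnd ℂ) s) (by rw [nc]; exact hs2)
  rw [nc, hconj s hs1, Complex.conj_conj] at b1
  have b1' : ‖h s - ((starRingEnd ℂ) c * (starRingEnd ℂ) s + (starRingEnd ℂ) d * s ^ 2)‖ ≤ C * ‖s‖ ^ 3 := by
    rw [← Complex.norm_conj]
    have e1 : (starRingEnd ℂ) (h s - ((starRingEnd ℂ) c * (starRingEnd ℂ) s + (starRingEnd ℂ) d * s ^ 2)) = (starRingEnd ℂ) (h s) - (c * s + d * (starRingEnd ℂ) s ^ 2) := by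
      simp only [map_sub, map_add, map_mul, map_pow, Complex.conj_conj]
    rw [e1]; exact b1
  have key : h s - ((c.re : ℂ) * (starRingEnd ℂ) s + (d.re : ℂ) * s ^ 2) = ((h s - (c * (starRingEnd ℂ) s + d * s ^ 2)) +
      (h s - ((starRingEnd ℂ) c * (starRingEnd ℂ) s + (starRingEnd ℂ) d * s ^ 2))) / 2 := by
    rw [re_eq34 c, re_eq34 d]; ring
  rw [key, norm_div]
  have hn2 : ‖(2 : ℂ)‖ = 2 := by simp
  rw [hn2, div_le_iff₀ (by norm_num)]
  calc ‖(h s - (c * (starRingEnd ℂ) s + d * s ^ 2)) + (h s - ((starRingEnd ℂ) c * (starRingEnd ℂ) s + (starRingEnd ℂ) d * s ^ 2))‖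
      ≤ ‖h s - (c * (starRingEnd ℂ) s + d * s ^ 2)‖ + ‖h s - ((starRingEnd ℂ) c * (starRingEnd ℂ) s + (starRingEnd ℂ) d * s ^ 2)‖ := norm_add_le _ _
    _ ≤ C * ‖s‖ ^ 3 * 2 := by linarith

end Pool.Agent.Pon30
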