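import Pool.Agent.Pon30.Stmts

/-! # MP_02df19_gt, row LOC -/

set_option autoImplicit false

namespace Pool.Agent.Pon30

open Complex

lemma loc93_cjω : (starRingEnd ℂ) ω = -1 - ω := by
  apply Complex.ext <;> simp [ω]
  norm_num

lemma loc93_ω_sq : ω ^ 2 = -1 - ω := by
  have h3 : (√3 : ℝ) * √3 = 3 := Real.mul_self_sqrt (by norm_num)
  apply Complex.ext
  · simp [ω, pow_two]
    nlinarith [h3]
  · simp [ω, pow_two]
    ring

/-- the centre `X₂ + κ (X₃ - X₂)` of a triple with Fourier coordinates `P`, `R` -/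
lemma loc93_hκ (κ : ℝ) (P R : ℂ) (h : ‖R‖ < ‖P‖) :
    P * hκ κ (R / P) = κ * (P ^ 2 * (starRingEnd ℂ) R - R ^ 2 * (starRingEnd ℂ) P) / (P * (starRingEnd ℂ) P - R * (starRingEnd ℂ) R) := by
  have hP : P ≠ 0 := by
    intro h0
    rw [h0, norm_zero] at h
    exact absurd h (not_lt.2 (norm_nonneg R))
  have hcP : (starRingEnd ℂ) P ≠ 0 := by simpa using hP
  have hM : P * (starRingEnd ℂ) P - R * (starRingEnd ℂ) R ≠ 0 := by
    rw [Complex.mul_conj, Complex.mul_conj, Complex.normSq_eq_norm_sq, Complex.normSq_eq_norm_sq]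
    intro h0
    have h1 : ‖P‖ ^ 2 - ‖R‖ ^ 2 = 0 := by exact_mod_cast h0
    nlinarith [norm_nonneg R]
  unfold hκ
  have e1 : ((1 - ‖R / P‖ ^ 2 : ℝ) : ℂ) = 1 - (R / P) * (starRingEnd ℂ) (R / P) := by
    rw [Complex.mul_conj, Complex.normSq_eq_norm_sq]
    push_cast
    ring
  rw [e1, map_div₀]
  have e2 : 1 - R / P * ((starRingEnd ℂ) R / (starRingEnd ℂ) P) = (P * (starRingEnd ℂ) P - R * (starRingEnd ℂ) R) / (P * (starRingEnd ℂ) P) := by
    field_simp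
  rw [e2]
  field_simp

theorem locStmt93 : LocStmt := by
  intro p q F κ z₀ z₁ z₂ hq hF hT
  obtain ⟨n0, n1, n2, hor, hs2⟩ := hT
  have hcc : ∀ z : ℂ, ‖z‖ = 1 → z * (starRingEnd ℂ) z = 1 := by
    intro z hz
    rw [Complex.mul_conj, Complex.normSq_eq_norm_sq, hz]
    norm_num
  have c0 := hcc z₀ n0
  have c1 := hcc z₁ n1
  have c2 := hcc z₂ n2
  have hω := loc93_ω_sq
  have hcω := loc93_cjω
  set lam := z₀ * z₁ * z₂ with hlamdef
  have hlam : lam * (starRingEnd ℂ) lam = 1 := by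
    apply hcc
    rw [hlamdef, norm_mul, norm_mul, n0, n1, n2]; norm_num
  set g := Gc z₀ z₁ z₂ with hg
  set P := Pc z₀ z₁ z₂ with hP
  set R := Rc z₀ z₁ z₂ with hR
  -- conjugates
  have ccω : (starRingEnd ℂ) ((starRingEnd ℂ) ω) = ω := Complex.conj_conj ω
  have egc : (starRingEnd ℂ) g = ((starRingEnd ℂ) z₀ + (starRingEnd ℂ) z₁ + (starRingEnd ℂ) z₂) / 3 := by
    simp only [hg, Gc, map_div₀, map_add, map_ofNat]
  have ePc : (starRingEnd ℂ) P = ((starRingEnd ℂ) z₀ + ω * (starRingEnd ℂ) z₁ + (starRingEnd ℂ) ω * (starRingEnd ℂ) z₂) / 3 := by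
    simp only [hP, Pc, map_div₀, map_add, map_mul, map_ofNat, ccω]
  have eRc : (starRingEnd ℂ) R = ((starRingEnd ℂ) z₀ + (starRingEnd ℂ) ω * (starRingEnd ℂ) z₁ + ω * (starRingEnd ℂ) z₂) / 3 := by
    simp only [hR, Rc, map_div₀, map_add, map_mul, map_ofNat, ccω]
  have eg : g = (z₀ + z₁ + z₂) / 3 := rfl
  have eP : P = (z₀ + (starRingEnd ℂ) ω * z₁ + ω * z₂) / 3 := rfl
  have eR : R = (z₀ + ω * z₁ + (starRingEnd ℂ) ω * z₂) / 3 := rfl
  have hlz0 : lam * (starRingEnd ℂ) z₀ = z₁ * z₂ := by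
    rw [hlamdef]; linear_combination z₁ * z₂ * c0
  have hlz1 : lam * (starRingEnd ℂ) z₁ = z₀ * z₂ := by
    rw [hlamdef]; linear_combination z₀ * z₂ * c1
  have hlz2 : lam * (starRingEnd ℂ) z₂ = z₀ * z₁ := by
    rw [hlamdef]; linear_combination z₀ * z₁ * c2
  have hcg : lam * (starRingEnd ℂ) g = g ^ 2 - P * R := by
    rw [egc, eg, eP, eR, hcω]
    linear_combination (hlz0 + hlz1 + hlz2) / 3 + ((-z₁ ^ 2 - z₂ ^ 2 + 2 * z₁ * z₂) / 9) * hω
  have hcP : lam * (starRingEnd ℂ) P = P ^ 2 - g * R := by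
    rw [ePc, eg, eP, eR, hcω]
    linear_combination (hlz0 + ω * hlz1 + (-1 - ω) * hlz2) / 3
      + ((-z₁ ^ 2 - z₂ ^ 2 + 2 * z₁ * z₂) / 9) * hω
  have hcR : lam * (starRingEnd ℂ) R = R ^ 2 - g * P := by
    rw [eRc, eg, eP, eR, hcω]
    linear_combination (hlz0 + (-1 - ω) * hlz1 + ω * hlz2) / 3
      + ((-z₁ ^ 2 - z₂ ^ 2 + 2 * z₁ * z₂) / 9) * hω
  have hs3 : 3 * (g ^ 2 - P * R) = -F := by
    rw [← hs2, eg, eP, eR, hcω]
    linear_combination ((-z₁ ^ 2 - z₂ ^ 2 + 2 * z₁ * z₂) / 3) * (-1 : ℂ) * hω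
  have hcgF : 3 * (starRingEnd ℂ) g = -F * (starRingEnd ℂ) lam := by
    linear_combination (3 * (starRingEnd ℂ) lam) * hcg + (starRingEnd ℂ) lam * hs3 - 3 * (starRingEnd ℂ) g * hlam
  have hgF : 3 * g = -F * lam := by
    have h := congrArg (starRingEnd ℂ) hcgF
    simp only [map_mul, map_neg, map_ofNat, Complex.conj_conj, Complex.conj_ofReal] at h
    exact h
  have hN0 : P ^ 2 * (starRingEnd ℂ) R - R ^ 2 * (starRingEnd ℂ) P = -g * (P * (starRingEnd ℂ) P - R * (starRingEnd ℂ) R) := by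
    have h1 : P * (starRingEnd ℂ) g + g * (starRingEnd ℂ) R + R * (starRingEnd ℂ) P = 0 := by
      have hl0 : lam ≠ 0 := by
        intro h0; rw [h0, zero_mul] at hlam; exact zero_ne_one hlam
      apply mul_left_cancel₀ hl0
      linear_combination P * hcg + g * hcR + R * hcP
    have h2 : (starRingEnd ℂ) P * g + (starRingEnd ℂ) g * R + (starRingEnd ℂ) R * P = 0 := by
      have h := congrArg (starRingEnd ℂ) h1
      simpa using h
    linear_combination P * h2 - R * h1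
  have hPR : P ^ 3 - R ^ 3 = lam * (P * (starRingEnd ℂ) P - R * (starRingEnd ℂ) R) := by
    linear_combination (-P) * hcP + R * hcR
  have hPRc : (starRingEnd ℂ) P ^ 3 - (starRingEnd ℂ) R ^ 3 = (starRingEnd ℂ) lam * (P * (starRingEnd ℂ) P - R * (starRingEnd ℂ) R) := by
    have h := congrArg (starRingEnd ℂ) hPR
    simp only [map_sub, map_pow, map_mul, Complex.conj_conj] at h
    linear_combination h
  have hN1 : (starRingEnd ℂ) P ^ 2 * R - (starRingEnd ℂ) R ^ 2 * P = -(starRingEnd ℂ) g * (P * (starRingEnd ℂ) P - R * (starRingEnd ℂ) R) := by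
    have h := congrArg (starRingEnd ℂ) hN0
    simp only [map_sub, map_pow, map_mul, map_neg, Complex.conj_conj] at h
    linear_combination h
  -- the affine image
  have eGw : Gc (L p q z₀) (L p q z₁) (L p q z₂) = p * g + q * (starRingEnd ℂ) g := by
    rw [egc, eg]; simp only [Gc, L]; ring
  have ePw : Pc (L p q z₀) (L p q z₁) (L p q z₂) = p * P + q * (starRingEnd ℂ) R := by
    rw [eRc, eP]; simp only [Pc, L]; ring
  have eRw : Rc (L p q z₀) (L p q z₁) (L p q z₂) = p * R + q * (starRingEnd ℂ) P := by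
    rw [ePc, eR]; simp only [Rc, L]; ring
  have hpq : p ^ 2 - q ^ 2 > 0 := by
    have h1 := abs_lt.1 hq
    nlinarith
  have hpp : p + q > 0 := by have h1 := abs_lt.1 hq; linarith
  have hpm : p - q > 0 := by have h1 := abs_lt.1 hq; linarith
  have hMr : P * (starRingEnd ℂ) P - R * (starRingEnd ℂ) R = ((‖P‖ ^ 2 - ‖R‖ ^ 2 : ℝ) : ℂ) := by
    rw [Complex.mul_conj, Complex.mul_conj, Complex.normSq_eq_norm_sq, Complex.normSq_eq_norm_sq]
    push_cast
    ring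
  have hMpos : 0 < ‖P‖ ^ 2 - ‖R‖ ^ 2 := by nlinarith [norm_nonneg R]
  have hM0 : P * (starRingEnd ℂ) P - R * (starRingEnd ℂ) R ≠ 0 := by
    rw [hMr]; exact_mod_cast hMpos.ne'
  have hMw : (p * P + q * (starRingEnd ℂ) R) * (starRingEnd ℂ) (p * P + q * (starRingEnd ℂ) R) - (p * R + q * (starRingEnd ℂ) P) * (starRingEnd ℂ) (p * R + q * (starRingEnd ℂ) P)
      = (p ^ 2 - q ^ 2) * (P * (starRingEnd ℂ) P - R * (starRingEnd ℂ) R) := by
    simp only [map_add, map_mul, Complex.conj_conj, Complex.conj_ofReal]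
    ring
  have horw : ‖(p * R + q * (starRingEnd ℂ) P : ℂ)‖ < ‖(p * P + q * (starRingEnd ℂ) R : ℂ)‖ := by
    have h1 : ((‖(p * P + q * (starRingEnd ℂ) R : ℂ)‖ ^ 2 - ‖(p * R + q * (starRingEnd ℂ) P : ℂ)‖ ^ 2 : ℝ) : ℂ)
        = (((p ^ 2 - q ^ 2) * (‖P‖ ^ 2 - ‖R‖ ^ 2) : ℝ) : ℂ) := by
      have h2 := hMw
      rw [hMr, Complex.mul_conj, Complex.mul_conj, Complex.normSq_eq_norm_sq,
        Complex.normSq_eq_norm_sq] at h2
      push_cast at h2 ⊢
      exact h2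
    have h3 : ‖(p * P + q * (starRingEnd ℂ) R : ℂ)‖ ^ 2 - ‖(p * R + q * (starRingEnd ℂ) P : ℂ)‖ ^ 2
        = (p ^ 2 - q ^ 2) * (‖P‖ ^ 2 - ‖R‖ ^ 2) := by exact_mod_cast h1
    have h4 : 0 < (p ^ 2 - q ^ 2) * (‖P‖ ^ 2 - ‖R‖ ^ 2) := mul_pos hpq hMpos
    by_contra h5
    push Not at h5
    nlinarith [norm_nonneg (p * P + q * (starRingEnd ℂ) R : ℂ)]
  have hX : Xh (hκ κ) (L p q z₀) (L p q z₁) (L p q z₂)
      = (p * g + q * (starRingEnd ℂ) g) + κ * ((p + F * q) * lam * (p * q) - (q + F * p) * (starRingEnd ℂ) lam * (p * q)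
        - (p ^ 2 - q ^ 2) * (p * g + q * (starRingEnd ℂ) g)) / (p ^ 2 - q ^ 2) := by
    simp only [Xh]
    rw [eGw, ePw, eRw, loc93_hκ κ _ _ horw, hMw]
    have hpq' : ((p : ℂ) ^ 2 - q ^ 2) ≠ 0 := by exact_mod_cast hpq.ne'
    congr 1
    rw [div_eq_div_iff (mul_ne_zero hpq' hM0) hpq']
    simp only [map_add, map_mul, Complex.conj_conj, Complex.conj_ofReal]
    have hN : (p * P + q * (starRingEnd ℂ) R) ^ 2 * (p * (starRingEnd ℂ) R + q * P) - (p * R + q * (starRingEnd ℂ) P) ^ 2 * (p * (starRingEnd ℂ) P + q * R)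
        = (P * (starRingEnd ℂ) P - R * (starRingEnd ℂ) R) * ((p + F * q) * lam * (p * q) - (q + F * p) * (starRingEnd ℂ) lam * (p * q)
        - (p ^ 2 - q ^ 2) * (p * g + q * (starRingEnd ℂ) g)) := by
      linear_combination (p ^ 3 + 2 * p * q ^ 2 : ℂ) * hN0 + (-2 * p ^ 2 * q - q ^ 3 : ℂ) * hN1
        + (p ^ 2 * q : ℂ) * hPR - (p * q ^ 2 : ℂ) * hPRc
        + (-(p * q ^ 2 : ℂ)) * (P * (starRingEnd ℂ) P - R * (starRingEnd ℂ) R) * hgF
        + (p ^ 2 * q : ℂ) * (P * (starRingEnd ℂ) P - R * (starRingEnd ℂ) R) * hcgF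
    linear_combination (κ * (p ^ 2 - q ^ 2) : ℂ) * hN
  rw [hX]
  -- real and imaginary parts of `lam`
  set x := lam.re with hx
  set y := lam.im with hy
  have el : lam = x + y * I := (Complex.re_add_im lam).symm
  have ecl : (starRingEnd ℂ) lam = x - y * I := by
    rw [el]; simp only [map_add, map_mul, Complex.conj_ofReal, Complex.conj_I]; ring
  have egl : g = -F * (x + y * I) / 3 := by
    rw [← el]; linear_combination hgF / 3
  have ecgl : (starRingEnd ℂ) g = -F * (x - y * I) / 3 := by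
    rw [← ecl]; linear_combination hcgF / 3
  rw [ecgl, egl, ecl, el]
  have h1 : (p : ℂ) + q ≠ 0 := by exact_mod_cast hpp.ne'
  have h2 : (p : ℂ) - q ≠ 0 := by exact_mod_cast hpm.ne'
  have h3 : (p : ℂ) ^ 2 - q ^ 2 = (p + q) * (p - q) := by ring
  rw [h3]
  push_cast
  field_simp
  ring

end Pool.Agent.Pon30
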