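import Pool.Agent.Pon30.Basic

namespace Pool.Agent.Pon30

open Complex

lemma norm_one_mul_cj {u : ℂ} (hu : ‖u‖ = 1) : u * (starRingEnd ℂ) u = 1 := by rw [← nsq, hu]; norm_num

lemma L_rot (p q u z : ℂ) (hu : ‖u‖ = 1) (c : ℂ) :
    c * L p q z = L (c * p * u) (c * q * (starRingEnd ℂ) u) ((starRingEnd ℂ) u * z) := by
  have h := norm_one_mul_cj hu
  unfold L
  simp only [map_mul, Complex.conj_conj]
  linear_combination (-(c * p * z) - c * q * (starRingEnd ℂ) z) * h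

theorem realStmt : RealStmt := by
  intro p q F z₀ z₁ z₂ hpq hF hal hz
  -- choose u with ‖u‖ = 1, F = ‖F‖ u²
  obtain ⟨u, hu, hFu⟩ : ∃ u : ℂ, ‖u‖ = 1 ∧ F = ‖F‖ * u ^ 2 := by
    refine ⟨Complex.exp ((Complex.arg F / 2 : ℝ) * I), Complex.norm_exp_ofReal_mul_I _, ?_⟩
    have := Complex.norm_mul_exp_arg_mul_I F
    rw [← Complex.exp_nat_mul]
    conv_lhs => rw [← this]
    congr 2
    push_cast; ring
  have hp : p ≠ 0 := by
    intro h; rw [h] at hpq; simp at hpq; linarith [norm_nonneg q]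
  have hpn : (‖p‖ : ℂ) ≠ 0 := by exact_mod_cast (norm_ne_zero_iff.2 hp)
  have huu := norm_one_mul_cj hu
  set c : ℂ := (starRingEnd ℂ) (p * u) / ‖p‖ with hc
  have hcn : ‖c‖ = 1 := by
    rw [hc, norm_div, RCLike.norm_conj, norm_mul, hu]
    simp [norm_ne_zero_iff.2 hp]
  have hcpu : c * p * u = (‖p‖ : ℂ) := by
    rw [hc, map_mul]
    have e := nsq' p
    field_simp
    linear_combination (p * (starRingEnd ℂ) p) * huu - e
  have hFn : ‖F‖ ≠ 0 := norm_ne_zero_iff.2 hF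
  -- c q ū is real
  have hreal : (c * q * (starRingEnd ℂ) u).im = 0 := by
    have e1 : c * q * (starRingEnd ℂ) u * (‖F‖ * ‖p‖ : ℝ) = (starRingEnd ℂ) (p * (starRingEnd ℂ) q * F) := by
      rw [hc, hFu]
      simp only [map_mul, map_pow, Complex.conj_conj, Complex.conj_ofReal]
      push_cast
      rw [norm_mul, norm_pow, hu]
      field_simp
      simp
    have e2 := congrArg Complex.im e1
    rw [Complex.conj_im, hal, Complex.mul_im, Complex.ofReal_re, Complex.ofReal_im] at e2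
    have hpn' : ‖p‖ ≠ 0 := norm_ne_zero_iff.2 hp
    have e3 : (c * q * (starRingEnd ℂ) u).im * (‖F‖ * ‖p‖) = 0 := by linarith
    rcases mul_eq_zero.1 e3 with h | h
    · exact h
    · exact absurd h (mul_ne_zero hFn hpn')
  have hq' : c * q * (starRingEnd ℂ) u = ((c * q * (starRingEnd ℂ) u).re : ℂ) := by
    apply Complex.ext <;> simp [hreal]
  refine ⟨c, ‖p‖, (c * q * (starRingEnd ℂ) u).re, ‖F‖, (starRingEnd ℂ) u * z₀, (starRingEnd ℂ) u * z₁, (starRingEnd ℂ) u * z₂, hcn, rfl, ?_, by simp, ?_, ?_, ?_, ?_⟩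
  · have : |(c * q * (starRingEnd ℂ) u).re| = ‖c * q * (starRingEnd ℂ) u‖ := by
      conv_rhs => rw [hq']
      rw [Complex.norm_real, Real.norm_eq_abs]
    rw [this, norm_mul, norm_mul, hcn, RCLike.norm_conj, hu]; ring
  · have hcu : ‖(starRingEnd ℂ) u‖ = 1 := by rw [RCLike.norm_conj, hu]
    refine ⟨?_, ?_, ?_, ?_, ?_⟩
    · rw [norm_mul, hcu, hz.n₀, one_mul]
    · rw [norm_mul, hcu, hz.n₁, one_mul]
    · rw [norm_mul, hcu, hz.n₂, one_mul]
    · rw [Rc_smul, Pc_smul, norm_mul, norm_mul, hcu, one_mul, one_mul]; exact hz.or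
    · have e := hz.s2
      rw [hFu] at e
      have : (starRingEnd ℂ) u * z₀ * ((starRingEnd ℂ) u * z₁) + (starRingEnd ℂ) u * z₀ * ((starRingEnd ℂ) u * z₂) + (starRingEnd ℂ) u * z₁ * ((starRingEnd ℂ) u * z₂) =
          ((starRingEnd ℂ) u) ^ 2 * (z₀ * z₁ + z₀ * z₂ + z₁ * z₂) := by ring
      rw [this, e]
      have h2 : ((starRingEnd ℂ) u) ^ 2 * u ^ 2 = 1 := by
        have : ((starRingEnd ℂ) u) ^ 2 * u ^ 2 = (u * (starRingEnd ℂ) u) ^ 2 := by ring
        rw [this, huu]; norm_num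
      linear_combination (-(‖F‖ : ℂ)) * h2
  · rw [L_rot p q u z₀ hu c, hcpu, hq']; simp
  · rw [L_rot p q u z₁ hu c, hcpu, hq']; simp
  · rw [L_rot p q u z₂ hu c, hcpu, hq']; simp

end Pool.Agent.Pon30
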