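import Pool.Agent.Pon30.Asm37
import Pool.Agent.Pon30.Core30
import Pool.Agent.Pon30.Iso30
import Pool.Agent.Pon30.RealAxis34
import Pool.Agent.Pon30.Lim82
import Pool.Agent.Pon30.Ex37
import Pool.Agent.Pon30.Cubic37
import Pool.Agent.Pon30.Rel30
import Pool.Agent.Pon30.Real30
import Pool.Agent.Pon30.Loc93
import Pool.Agent.Pon30.Alg93
import Pool.Agent.Pon30.Jet34
import Pool.Agent.Pon30.Fam41

/-!
# The core theorem of MP_02df19_gt, all rows together
-/

namespace Pool.Agent.Pon30

theorem coreStmt : CoreStmt :=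
  core30 (realAxis34 jet34 (relStmt E37.ex37 C37.cubic37) (isoStmt limStmt fam41 locStmt93) algStmt93)
    E37.ex37 realStmt limStmt locStmt93

end Pool.Agent.Pon30
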