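import Pool.Agent.Pon30.CcS82

/-!
# MP_02df19_gt, arbitrary centre functions, degenerate loci allowed: interface statements

For every non-aligned pair the centres of the 3-periodics fill an ellipse, a segment or a point, that is, an image of
the unit circle under `u ↦ P u + Q ū`.
-/

set_option autoImplicit false

namespace Pool.Agent.Pon30

open Complex Filter Topology

/-- The locus of the centre over the 3-periodics of the pair is an ellipse, a segment or a point (and the centre is a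
point of the plane for every 3-periodic). -/
def DegLocus (f : ℝ → ℝ → ℝ → ℝ) (o : ℂ) (α : ℝ) (β : ℂ) (α' : ℝ) (β' : ℂ) : Prop :=
  (∀ A B C, Periodic o α β α' β' A B C → wsum f A B C ≠ 0) ∧
  ∃ o₁ P Q : ℂ, {X | ∃ A B C, Periodic o α β α' β' A B C ∧ X = center f A B C} =
    {X | ∃ u : ℂ, ‖u‖ = 1 ∧ X = o₁ + (P * u + Q * (starRingEnd ℂ) u)}

/-- HHD: for every non-aligned pair the centres fill `{P u + Q ū : |u| = 1}` -/
def HHd (h : ℂ → ℂ) : Prop :=
  ∀ p q F : ℂ, ‖q‖ < ‖p‖ → ‖F‖ < 1 → (p * (starRingEnd ℂ) q * F).im ≠ 0 →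
    ∃ P Q : ℂ,
      (∀ z₀ z₁ z₂, Tz F z₀ z₁ z₂ → ∃ u : ℂ, ‖u‖ = 1 ∧
        Xh h (L p q z₀) (L p q z₁) (L p q z₂) = P * u + Q * (starRingEnd ℂ) u) ∧
      ∀ u : ℂ, ‖u‖ = 1 → ∃ z₀ z₁ z₂, Tz F z₀ z₁ z₂ ∧
        Xh h (L p q z₀) (L p q z₁) (L p q z₂) = P * u + Q * (starRingEnd ℂ) u

/-- symmetries of a shape function on the whole disc -/
structure SymD (h : ℂ → ℂ) : Prop where
  conj : ∀ s : ℂ, ‖s‖ < 1 → h ((starRingEnd ℂ) s) = (starRingEnd ℂ) (h s)
  rot : ∀ s : ℂ, ‖s‖ < 1 → h (ω * s) = (starRingEnd ℂ) ω * h s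

/-- D1 (F2): near the shape of a member of a good pair with a nondegenerate locus the values are close to the conic -/
def F2D : Prop := ∀ h : ℂ → ℂ, HHd h → SymD h → F2P h

/-- the explicit base pair -/
noncomputable def qD : ℂ := -((√2 - 1 : ℝ) : ℂ) * ((17 + 7 * I) / (13 * (√2 : ℝ)))
noncomputable def FD : ℂ := 3 * (3 + 2 * I) / 13

/-- D2: the base pair is good, contains the equilateral triangle, and its locus is never degenerate -/
def BaseD : Prop := Gd qD FD ∧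
  (∃ z₀ z₁ z₂, Tz FD z₀ z₁ z₂ ∧ Rc (L 1 qD z₀) (L 1 qD z₁) (L 1 qD z₂) = 0) ∧
  ∀ h : ℂ → ℂ, HHd h → SymD h → ∃ (α : ℝ) (β : ℂ), IsForm h qD FD α β

/-- D3: pairs near a good pair with a nondegenerate locus have nondegenerate loci -/
def NearD : Prop := ∀ (h : ℂ → ℂ) (q₀ F : ℂ) (α : ℝ) (β : ℂ), HHd h → SymD h → F2P h → Gd q₀ F → IsForm h q₀ F α β →
  ∀ᶠ q in 𝓝 q₀, ∃ (α' : ℝ) (β' : ℂ), IsForm h q F α' β'

/-- D4: continuity near the equilateral shape from one good pair that contains the equilateral triangle -/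
def ContD : Prop := ∀ (h : ℂ → ℂ) (q₀ F z₀ z₁ z₂ : ℂ), SymD h → F2P h → Gd q₀ F →
  Tz F z₀ z₁ z₂ → Rc (L 1 q₀ z₀) (L 1 q₀ z₁) (L 1 q₀ z₂) = 0 →
  (∀ᶠ q in 𝓝 q₀, ∃ (α : ℝ) (β : ℂ), IsForm h q F α β) →
  ∃ ε > 0, ∀ s : ℂ, ‖s‖ < ε → ContinuousAt h s

/-- D5: from the centre function to the shape function -/
def PairD : Prop := ∀ f : ℝ → ℝ → ℝ → ℝ, IsCenterFunction f →
  (∀ o α β α' β', PonceletPair o α β α' β' → NonAligned β β' → DegLocus f o α β α' β') →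
  HHd (shp f)

end Pool.Agent.Pon30
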