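import Pool.Agent.Pon30.AllL30
import Pool.Agent.Pon30.StmtsD30

/-!
# MP_02df19_gt: arbitrary centre functions, degenerate loci allowed, assembly
-/

set_option autoImplicit false

namespace Pool.Agent.Pon30

open Complex Filter Topology

theorem onEllipse_of_deg {f : ℝ → ℝ → ℝ → ℝ} {o : ℂ} {α : ℝ} {β : ℂ} {α' : ℝ} {β' : ℂ}
    (h : DegLocus f o α β α' β') : OnEllipse f o α β α' β' := by
  obtain ⟨hw, o₁, P, Q, hset⟩ := h
  refine ⟨o₁, P, Q, fun A B C T => ⟨hw A B C T, ?_⟩⟩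
  have h1 : center f A B C ∈ {X | ∃ A B C, Periodic o α β α' β' A B C ∧ X = center f A B C} := ⟨A, B, C, T, rfl⟩
  rw [hset] at h1
  obtain ⟨u, hu, e⟩ := h1
  exact ⟨u, hu, by rw [e]; ring⟩

/-- from the rows: arbitrary centre functions, loci are ellipses, segments or points -/
theorem main_of_D (hReal : RealPosS) (hF2 : F2D) (hB : BaseD) (hN : NearD) (hC : ContD) (hP : PairD)
    (f : ℝ → ℝ → ℝ → ℝ) (hf : IsCenterFunction f)
    (hdeg : ∀ o α β α' β', PonceletPair o α β α' β' → NonAligned β β' → DegLocus f o α β α' β') :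
    ∃ κ : ℝ, ∀ A B C : ℂ, IsTriangle A B C → wsum f A B C ≠ 0 ∧
      ∀ O : ℂ, ‖O - A‖ = ‖O - B‖ → ‖O - B‖ = ‖O - C‖ →
        center f A B C = (1 - κ) * ((A + B + C) / 3) + κ * O := by
  have hloc : ∀ o α β α' β', PonceletPair o α β α' β' → NonAligned β β' → OnEllipse f o α β α' β' :=
    fun o α β α' β' h1 h2 => onEllipse_of_deg (hdeg o α β α' β' h1 h2)
  have hH : HHw (shp f) := hhw_shp pairW82 hf hloc
  have hw : ∀ s : ℂ, ‖s‖ < 1 → wsum f (T0 s) (T1 s) (T2 s) ≠ 0 := wsumC82 f hf hloc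
  have hD : HHd (shp f) := hP f hf hdeg
  have hSym : SymD (shp f) := ⟨fun s hs => shp_conj hf hs, fun s hs => shp_rot hf hs⟩
  have h2 : F2P (shp f) := hF2 _ hD hSym
  obtain ⟨hgd, ⟨z₀, z₁, z₂, Tz₀, hR⟩, hform⟩ := hB
  obtain ⟨α, β, hfm⟩ := hform _ hD hSym
  have hcont := hC _ qD FD z₀ z₁ z₂ hSym h2 hgd Tz₀ hR (hN _ qD FD α β hD hSym h2 hgd hfm)
  have hS : Shape0 (shp f) := ⟨hcont, ⟨1, one_pos, fun s hs => shp_conj hf hs⟩,
    ⟨1, one_pos, fun s hs => shp_rot hf hs⟩⟩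
  obtain ⟨κ, hε⟩ := coreS46 hReal arcStmt41 keyPosS30 keyFullS30 _ hS hH
  exact ⟨κ, finalC34 f κ hf fun s hs => ⟨hw s hs, globU _ κ hH hε s hs⟩⟩

open PS82 P82 in
/-- the loci of a fixed combination of the centroid and the circumcentre -/
theorem convD30 (hN : NormV) {f : ℝ → ℝ → ℝ → ℝ} {κ : ℝ}
    (hform : ∀ A B C : ℂ, IsTriangle A B C → wsum f A B C ≠ 0 ∧
      ∀ O : ℂ, ‖O - A‖ = ‖O - B‖ → ‖O - B‖ = ‖O - C‖ →
        center f A B C = (1 - κ) * ((A + B + C) / 3) + κ * O)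
    (o : ℂ) (α : ℝ) (β : ℂ) (α' : ℝ) (β' : ℂ) (hP : PonceletPair o α β α' β') (hNA : NonAligned β β') :
    DegLocus f o α β α' β' := by
  obtain ⟨p, q, F, h, hF, hn, rfl, rfl, rfl, rfl⟩ := hN o α β α' β' hP hNA
  refine ⟨fun A B C T => (hform A B C T.tri).1, o, aκ κ p q F, bκ κ p q F, ?_⟩
  ext X
  constructor
  · rintro ⟨A, B, C, T, rfl⟩
    exact centers30 hform h hF T
  · rintro ⟨u, hu, rfl⟩
    obtain ⟨z₀, z₁, z₂, T, rfl⟩ := lamC41 F u hF hu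
    have hPer := periodic_add30 (o := o) (periodic_L h hF T)
    exact ⟨_, _, _, hPer, ((key30 hform h hF T rfl rfl rfl).1 hPer.tri).symm⟩

/-- both directions -/
theorem iff_of_D (hReal : RealPosS) (hF2 : F2D) (hB : BaseD) (hN : NearD) (hC : ContD) (hP : PairD) (hV : NormV)
    (f : ℝ → ℝ → ℝ → ℝ) (hf : IsCenterFunction f) :
    (∀ (o : ℂ) (α : ℝ) (β : ℂ) (α' : ℝ) (β' : ℂ), PonceletPair o α β α' β' → NonAligned β β' →
      DegLocus f o α β α' β') ↔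
    ∃ κ : ℝ, ∀ A B C : ℂ, IsTriangle A B C → wsum f A B C ≠ 0 ∧
      ∀ O : ℂ, ‖O - A‖ = ‖O - B‖ → ‖O - B‖ = ‖O - C‖ →
        center f A B C = (1 - κ) * ((A + B + C) / 3) + κ * O :=
  ⟨main_of_D hReal hF2 hB hN hC hP f hf, fun ⟨_, hform⟩ => convD30 hV hform⟩

end Pool.Agent.Pon30
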