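import Pool.Agent.Pon30.StmtsW

/-!
# MP_02df19_gt, centre functions that are continuous and twice differentiable near the equilateral triangle
-/

set_option autoImplicit false

namespace Pool.Agent.Pon30

open Complex Filter Topology

/-- continuous near `0`, second order expansion at `0`, symmetries -/
structure Shape2 (h : ℂ → ℂ) : Prop where
  cont : ∃ ε > 0, ∀ s : ℂ, ‖s‖ < ε → ContinuousAt h s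
  jet : ∃ κ η : ℝ, (fun s : ℂ => h s - (κ * (starRingEnd ℂ) s + η * s ^ 2)) =o[𝓝 0] (fun s : ℂ => ‖s‖ ^ 2)
  conj : ∃ ε > 0, ∀ s : ℂ, ‖s‖ < ε → h ((starRingEnd ℂ) s) = (starRingEnd ℂ) (h s)
  rot : ∃ ε > 0, ∀ s : ℂ, ‖s‖ < ε → h (ω * s) = (starRingEnd ℂ) ω * h s

/-- JETC -/
def JetC : Prop := ∀ h : ℂ → ℂ, ContDiffAt ℝ 2 h 0 →
  (∃ ε > 0, ∀ s : ℂ, ‖s‖ < ε → h ((starRingEnd ℂ) s) = (starRingEnd ℂ) (h s)) →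
  (∃ ε > 0, ∀ s : ℂ, ‖s‖ < ε → h (ω * s) = (starRingEnd ℂ) ω * h s) →
  ∃ κ η : ℝ, (fun s : ℂ => h s - (κ * (starRingEnd ℂ) s + η * s ^ 2)) =o[𝓝 0] (fun s : ℂ => ‖s‖ ^ 2)

/-- CENTERC -/
def CenterC : Prop := ∀ f : ℝ → ℝ → ℝ → ℝ, IsCenterFunction f →
  ContinuousOn (fun p : ℝ × ℝ × ℝ => f p.1 p.2.1 p.2.2) {p | Tri p.1 p.2.1 p.2.2} →
  ContDiffAt ℝ 2 (fun p : ℝ × ℝ × ℝ => f p.1 p.2.1 p.2.2) (1, 1, 1) →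
  (∀ s : ℂ, ‖s‖ < 1 → wsum f (T0 s) (T1 s) (T2 s) ≠ 0) →
  Shape2 (shp f) ∧ ContinuousOn (shp f) (Metric.ball 0 1)

/-- WSUMC -/
def WsumC : Prop := ∀ f : ℝ → ℝ → ℝ → ℝ, IsCenterFunction f →
  (∀ o α β α' β', PonceletPair o α β α' β' → NonAligned β β' → OnEllipse f o α β α' β') →
  ∀ s : ℂ, ‖s‖ < 1 → wsum f (T0 s) (T1 s) (T2 s) ≠ 0

/-- LIMC -/
def LimC : Prop := ∀ h : ℂ → ℂ, Shape2 h → HHw h →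
  ∃ ρ > 0, ∀ p q F : ℝ, 0 < p → |q| < ρ * p → F ≠ 0 → |F| < ρ →
    ∃ a b c : ℝ, 0 ≤ a ∧ 0 ≤ b ∧ 0 ≤ c ∧ 0 < a + b + c ∧
      ∀ z₀ z₁ z₂, Tz F z₀ z₁ z₂ →
        a * (Xh h (L p q z₀) (L p q z₁) (L p q z₂)).re ^ 2 +
          b * (Xh h (L p q z₀) (L p q z₁) (L p q z₂)).im ^ 2 = c

/-- ISOC -/
def IsoC : Prop := ∀ h : ℂ → ℂ, Shape2 h → HHw h → ∀ κ η : ℝ,
  ((fun s : ℂ => h s - (κ * (starRingEnd ℂ) s + η * s ^ 2)) =o[𝓝 0] (fun s : ℂ => ‖s‖ ^ 2)) →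
  ∃ ρ > 0, ∀ o x ψ : ℝ, o ≠ 0 → |o| < ρ → 0 < x → x < 1 →
    ((1 - x) / (1 + x)) ^ 2 = (1 - 4 * o) * (1 + 2 * o) / (1 - 2 * o) →
    h x = (ψ * x / (1 + x) : ℝ) →
    (1 + 2 * o * ψ) ^ 2 * (1 - 4 * o - 8 * (η + κ) * o ^ 3) = (1 - 4 * o) * (1 + 2 * κ * o) ^ 2

/-- REALPOSC -/
def RealPosC : Prop := ∀ h : ℂ → ℂ, Shape2 h → HHw h →
  ∃ κ : ℝ, ∃ δ > 0, ∀ x : ℝ, 0 ≤ x → x < δ → h x = hκ κ x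

/-- KEYPOSC -/
def KeyPosC : Prop := ∀ h : ℂ → ℂ, Shape2 h → HHw h → ∀ κ : ℝ,
  (∃ δ > 0, ∀ x : ℝ, 0 ≤ x → x < δ → h x = hκ κ x) →
  ∃ K > 0, ∃ t₀ > 0, ∀ (t : ℝ) (s o : ℂ), 0 < t → t < t₀ → ‖s‖ ≤ t ^ 2 → t / 2 ≤ ‖o‖ → ‖o‖ ≤ 2 * t →
    cub s o = 0 → ‖s‖ ^ 2 < (s * (starRingEnd ℂ) o ^ 2).re →
    |((starRingEnd ℂ) (h s - hκ κ s) * (h s + hκ κ s - 2 * o)).re| ≤ K * t ^ 2 * ‖h s - hκ κ s‖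

/-- KEYFULLC -/
def KeyFullC : Prop := ∀ h : ℂ → ℂ, Shape2 h → HHw h → ∀ κ : ℝ,
  (∃ δ > 0, ∀ x : ℝ, |x| < δ → h x = hκ κ x) →
  ∃ K > 0, ∃ t₀ > 0, ∀ (t : ℝ) (s o : ℂ), 0 < t → t < t₀ → ‖s‖ ≤ t ^ 2 → t / 2 ≤ ‖o‖ → ‖o‖ ≤ 2 * t →
    cub s o = 0 →
    |((starRingEnd ℂ) (h s - hκ κ s) * (h s + hκ κ s - 2 * o)).re| ≤ K * t ^ 2 * ‖h s - hκ κ s‖

/-- COREC -/
def CoreC : Prop := ∀ h : ℂ → ℂ, Shape2 h → HHw h →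
  ∃ κ : ℝ, ∃ ε > 0, ∀ s : ℂ, ‖s‖ < ε → h s = hκ κ s

/-- coefficients of the locus `U λ + V λ̄` of `X₂ + κ (X₃ - X₂)` over a general pair -/
noncomputable def Uc (κ : ℝ) (p q F : ℂ) : ℂ :=
  -(1 - κ) * (starRingEnd ℂ) F * p / 3 +
    κ * (p ^ 2 * (starRingEnd ℂ) q + (starRingEnd ℂ) F * p * (‖q‖ ^ 2 : ℝ)) / (‖p‖ ^ 2 - ‖q‖ ^ 2 : ℝ)
noncomputable def Vc (κ : ℝ) (p q F : ℂ) : ℂ :=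
  -(1 - κ) * F * q / 3 -
    κ * ((starRingEnd ℂ) p * q ^ 2 + F * q * (‖p‖ ^ 2 : ℝ)) / (‖p‖ ^ 2 - ‖q‖ ^ 2 : ℝ)

/-- LOCC -/
def LocC : Prop := ∀ (p q F : ℂ) (κ : ℝ) (z₀ z₁ z₂ : ℂ), ‖q‖ < ‖p‖ → ‖F‖ < 1 → Tz F z₀ z₁ z₂ →
  Xh (hκ κ) (L p q z₀) (L p q z₁) (L p q z₂) =
    Uc κ p q F * (z₀ * z₁ * z₂) + Vc κ p q F * (starRingEnd ℂ) (z₀ * z₁ * z₂)

/-- LAMC -/
def LamC : Prop := ∀ F l : ℂ, ‖F‖ < 1 → ‖l‖ = 1 → ∃ z₀ z₁ z₂, Tz F z₀ z₁ z₂ ∧ z₀ * z₁ * z₂ = l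

/-- CONICC -/
def ConicC : Prop := ∀ (α c : ℝ) (β U V l₁ l₂ l₃ : ℂ), ‖β‖ ≤ α → 0 ≤ c → 0 < α + c → ‖U‖ ≠ ‖V‖ →
  ‖l₁‖ = 1 → ‖l₂‖ = 1 → ‖l₃‖ = 1 → l₁ ^ 2 ≠ l₂ ^ 2 → l₂ ^ 2 ≠ l₃ ^ 2 → l₁ ^ 2 ≠ l₃ ^ 2 →
  qf α β (U * l₁ + V * (starRingEnd ℂ) l₁) = c → qf α β (U * l₂ + V * (starRingEnd ℂ) l₂) = c →
  qf α β (U * l₃ + V * (starRingEnd ℂ) l₃) = c →
  ∀ Y : ℂ, qf α β Y = c → ‖(starRingEnd ℂ) U * Y - V * (starRingEnd ℂ) Y‖ = |‖U‖ ^ 2 - ‖V‖ ^ 2|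

/-- Fourier coordinates of the triple `1`, `y`, `ȳ` with `y = (-(1+F) + i √((1-F)(3+F)))/2` -/
noncomputable def Pm (F : ℝ) : ℝ := ((3 + F) / 2 + √3 * (√((1 - F) * (3 + F)) / 2)) / 3
noncomputable def Rm (F : ℝ) : ℝ := ((3 + F) / 2 - √3 * (√((1 - F) * (3 + F)) / 2)) / 3

/-- the pair `p = 1`, `q = qm s F` turns this triple into a triangle of shape `s` -/
noncomputable def qm (s : ℂ) (F : ℝ) : ℂ := (s * Pm F - Rm F) / (Pm F - s * Rm F)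

/-- ENTERC -/
def EnterC : Prop := ∀ s₀ : ℂ, ‖s₀‖ < 1 → s₀.im ≠ 0 → ∃ F₀ > 0, F₀ < 1 ∧ ∀ F : ℝ, 0 < F → F < F₀ →
  ∃ ε > 0, ∃ l₁ l₂ l₃ : ℂ, ‖l₁‖ = 1 ∧ ‖l₂‖ = 1 ∧ ‖l₃‖ = 1 ∧ l₁ ^ 2 ≠ l₂ ^ 2 ∧ l₂ ^ 2 ≠ l₃ ^ 2 ∧ l₁ ^ 2 ≠ l₃ ^ 2 ∧
    ∀ s : ℂ, ‖s - s₀‖ < ε → ∀ z₀ z₁ z₂ : ℂ, Tz F z₀ z₁ z₂ →
      (z₀ * z₁ * z₂ = l₁ ∨ z₀ * z₁ * z₂ = l₂ ∨ z₀ * z₁ * z₂ = l₃) →
      ‖Rc (L 1 (qm s F) z₀) (L 1 (qm s F) z₁) (L 1 (qm s F) z₂) /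
        Pc (L 1 (qm s F) z₀) (L 1 (qm s F) z₁) (L 1 (qm s F) z₂)‖ < ‖s₀‖

/-- tangent direction of the locus at `λ = 1`, for the triangle with `P = 1` -/
noncomputable def Dm (κ : ℝ) (s : ℂ) (F : ℝ) : ℂ :=
  (Uc κ 1 (qm s F) F - Vc κ 1 (qm s F) F) / (Pm F + qm s F * Rm F)

/-- DIRC -/
def DirC : Prop := ∀ (κ : ℝ) (s : ℂ), ‖s‖ < 1 →
  Tendsto (fun F : ℝ => (Dm κ s F - κ * ((starRingEnd ℂ) s + s ^ 2) / (1 - ‖s‖ ^ 2 : ℝ)) / F) (𝓝[>] 0)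
    (𝓝 (-(1 - s) / 3)) ∧
  (s ≠ 0 → ∀ᶠ F : ℝ in 𝓝[>] 0, ‖Uc κ 1 (qm s F) F‖ ≠ ‖Vc κ 1 (qm s F) F‖)

/-- LOCALC -/
def LocalC : Prop := ∀ (h : ℂ → ℂ) (κ : ℝ) (s₀ δ : ℂ) (s : ℕ → ℂ), HHw h → ‖s₀‖ < 1 → s₀.im ≠ 0 →
  ContinuousAt h s₀ → (∀ x : ℂ, ‖x‖ < ‖s₀‖ → h x = hκ κ x) → h s₀ = hκ κ s₀ →
  Tendsto s atTop (𝓝 s₀) → (∀ n, h (s n) ≠ hκ κ (s n)) →
  Tendsto (fun n => (h (s n) - hκ κ (s n)) / (‖h (s n) - hκ κ (s n)‖ : ℝ)) atTop (𝓝 δ) →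
  ((starRingEnd ℂ) δ * (1 - s₀)).re = 0

/-- PROPC -/
def PropC : Prop := ∀ (h : ℂ → ℂ) (κ : ℝ), HHw h → ContinuousOn h (Metric.ball 0 1) →
  (∀ s : ℂ, ‖s‖ < 1 → h (ω * s) = (starRingEnd ℂ) ω * h s) →
  (∃ ε > 0, ∀ s : ℂ, ‖s‖ < ε → h s = hκ κ s) → ∀ s : ℂ, ‖s‖ < 1 → h s = hκ κ s

/-- FINALC -/
def FinalC : Prop := ∀ (f : ℝ → ℝ → ℝ → ℝ) (κ : ℝ), IsCenterFunction f →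
  (∀ s : ℂ, ‖s‖ < 1 → wsum f (T0 s) (T1 s) (T2 s) ≠ 0 ∧ shp f s = hκ κ s) →
  ∀ A B C : ℂ, IsTriangle A B C → wsum f A B C ≠ 0 ∧
    ∀ O : ℂ, ‖O - A‖ = ‖O - B‖ → ‖O - B‖ = ‖O - C‖ →
      center f A B C = (1 - κ) * ((A + B + C) / 3) + κ * O

/-- STRICTC -/
def StrictC : Prop := ∀ (f : ℝ → ℝ → ℝ → ℝ) (κ : ℝ), IsCenterFunction f →
  (∀ o α β α' β', PonceletPair o α β α' β' → NonAligned β β' → EllipticLocus f o α β α' β') →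
  (∀ s : ℂ, ‖s‖ < 1 → wsum f (T0 s) (T1 s) (T2 s) ≠ 0 ∧ shp f s = hκ κ s) →
  κ = 0 ∨ κ = 1 ∨ κ = -2

end Pool.Agent.Pon30
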