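import Pool.Agent.Pon30.Final34
import Pool.Agent.Pon30.StmtsC

/-!
# Row FINALC: from the disc of shapes to all triangles, without regularity
-/

set_option autoImplicit false

namespace Pool.Agent.Pon30

open Complex

/-- the result for a positively oriented triple -/
lemma final_posC34 {f : ℝ → ℝ → ℝ → ℝ} (hf : IsCenterFunction f) {κ : ℝ}
    (hk : ∀ s : ℂ, ‖s‖ < 1 → wsum f (T0 s) (T1 s) (T2 s) ≠ 0 ∧ shp f s = hκ κ s) {w₀ w₁ w₂ : ℂ}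
    (h : ‖Rc w₀ w₁ w₂‖ < ‖Pc w₀ w₁ w₂‖) :
    wsum f w₀ w₁ w₂ ≠ 0 ∧ ∀ O : ℂ, ‖O - w₀‖ = ‖O - w₁‖ → ‖O - w₁‖ = ‖O - w₂‖ →
      center f w₀ w₁ w₂ = (1 - κ) * ((w₀ + w₁ + w₂) / 3) + κ * O := by
  have hP : Pc w₀ w₁ w₂ ≠ 0 := by
    intro h0
    rw [h0, norm_zero] at h
    exact absurd h (not_lt.2 (norm_nonneg _))
  have hs : ‖Rc w₀ w₁ w₂ / Pc w₀ w₁ w₂‖ < 1 := by
    rw [norm_div, div_lt_one (norm_pos_iff.2 hP)]
    exact h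
  obtain ⟨hwT, hshp⟩ := hk _ hs
  have hw : wsum f w₀ w₁ w₂ ≠ 0 := by
    obtain ⟨u, hu, hws, hc⟩ := smul_formulas hf hP (isTriangle_T hs)
    have e0 : w₀ = Pc w₀ w₁ w₂ * T0 (Rc w₀ w₁ w₂ / Pc w₀ w₁ w₂) + Gc w₀ w₁ w₂ := by
      have h0 := w0_eq w₀ w₁ w₂
      unfold T0
      rw [mul_add, mul_div_cancel₀ _ hP, mul_one]
      linear_combination h0
    have e1 : w₁ = Pc w₀ w₁ w₂ * T1 (Rc w₀ w₁ w₂ / Pc w₀ w₁ w₂) + Gc w₀ w₁ w₂ := by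
      have h0 := w1_eq w₀ w₁ w₂
      unfold T1
      rw [mul_add, ← mul_assoc, mul_div_cancel₀ _ hP]
      linear_combination h0
    have e2 : w₂ = Pc w₀ w₁ w₂ * T2 (Rc w₀ w₁ w₂ / Pc w₀ w₁ w₂) + Gc w₀ w₁ w₂ := by
      have h0 := w2_eq w₀ w₁ w₂
      unfold T2
      rw [mul_add, ← mul_assoc, mul_div_cancel₀ _ hP]
      linear_combination h0
    have hh : wsum f w₀ w₁ w₂ = u * wsum f (T0 (Rc w₀ w₁ w₂ / Pc w₀ w₁ w₂))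
        (T1 (Rc w₀ w₁ w₂ / Pc w₀ w₁ w₂)) (T2 (Rc w₀ w₁ w₂ / Pc w₀ w₁ w₂)) := by
      calc wsum f w₀ w₁ w₂ = wsum f (Pc w₀ w₁ w₂ * T0 (Rc w₀ w₁ w₂ / Pc w₀ w₁ w₂) + Gc w₀ w₁ w₂)
            (Pc w₀ w₁ w₂ * T1 (Rc w₀ w₁ w₂ / Pc w₀ w₁ w₂) + Gc w₀ w₁ w₂)
            (Pc w₀ w₁ w₂ * T2 (Rc w₀ w₁ w₂ / Pc w₀ w₁ w₂) + Gc w₀ w₁ w₂) := by rw [← e0, ← e1, ← e2]
        _ = _ := by rw [wsum_add, hws]
    rw [hh]
    exact mul_ne_zero hu hwT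
  refine ⟨hw, ?_⟩
  intro O h01 h12
  rw [center_Xh hf h hw]
  unfold Xh
  rw [hshp]
  have hcirc := circum34 h01 h12
  have hG : (w₀ + w₁ + w₂) / 3 = Gc w₀ w₁ w₂ := rfl
  rw [hG]
  have hPP : Pc w₀ w₁ w₂ * (starRingEnd ℂ) (Pc w₀ w₁ w₂) -
      Rc w₀ w₁ w₂ * (starRingEnd ℂ) (Rc w₀ w₁ w₂) ≠ 0 := by
    rw [← nsq, ← nsq]
    have h1 : 0 < ‖Pc w₀ w₁ w₂‖ ^ 2 - ‖Rc w₀ w₁ w₂‖ ^ 2 := by
      nlinarith [norm_nonneg (Rc w₀ w₁ w₂), norm_nonneg (Pc w₀ w₁ w₂)]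
    exact_mod_cast h1.ne'
  have hP' : (starRingEnd ℂ) (Pc w₀ w₁ w₂) ≠ 0 := by
    intro h0
    exact hP (by simpa using h0)
  generalize Pc w₀ w₁ w₂ = P at *
  generalize Rc w₀ w₁ w₂ = R at *
  generalize Gc w₀ w₁ w₂ = G at *
  have hO : O = G + (P ^ 2 * (starRingEnd ℂ) R - (starRingEnd ℂ) P * R ^ 2) /
      (P * (starRingEnd ℂ) P - R * (starRingEnd ℂ) R) := by
    rw [← hcirc, mul_div_assoc, div_self hPP]; ring
  have hsh : P * hκ κ (R / P) = κ * ((P ^ 2 * (starRingEnd ℂ) R - (starRingEnd ℂ) P * R ^ 2) /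
      (P * (starRingEnd ℂ) P - R * (starRingEnd ℂ) R)) := by
    unfold hκ
    have e : ((1 - ‖R / P‖ ^ 2 : ℝ) : ℂ) =
        (P * (starRingEnd ℂ) P - R * (starRingEnd ℂ) R) / (P * (starRingEnd ℂ) P) := by
      have e1 : ((1 - ‖R / P‖ ^ 2 : ℝ) : ℂ) = 1 - (R / P) * (starRingEnd ℂ) (R / P) := by
        rw [← nsq]; push_cast; ring
      rw [e1, map_div₀]
      field_simp
    rw [e, map_div₀]
    field_simp
  rw [hO, hsh]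
  ring

/-- Row FINALC. -/
theorem finalC34 : FinalC := by
  intro f κ hf hk A B C ht
  have him := im_of_isTriangle34 ht
  rw [area_eq] at him
  have h3 : (0 : ℝ) < √3 := by positivity
  rcases lt_trichotomy ‖Rc A B C‖ ‖Pc A B C‖ with h | h | h
  · exact final_posC34 hf hk h
  · rw [h] at him
    simp at him
  · have h' : ‖Rc A C B‖ < ‖Pc A C B‖ := by rw [Rc_swap34 A B C, Pc_swap34 A B C]; exact h
    obtain ⟨hw, hO⟩ := final_posC34 hf hk h'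
    rw [wsum_swap34 hf ht] at hw
    refine ⟨hw, ?_⟩
    intro O h01 h12
    have := hO O (h01.trans h12) h12.symm
    rw [center_swap hf ht] at this
    rw [this]
    ring

end Pool.Agent.Pon30
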