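import Pool.Agent.Pon30.StmtsC
import Pool.Agent.Pon30.Fam41

/-!
# MP_02df19_gt, C² version, row LAMC: every `λ` on the unit circle occurs
-/

set_option autoImplicit false

namespace Pool.Agent.Pon30

open Complex Polynomial

namespace L41

/-- the Blaschke identity -/
lemma bl (F z : ℂ) : ‖z ^ 2 - F‖ ^ 2 - ‖1 - (starRingEnd ℂ) F * z ^ 2‖ ^ 2 =
    (‖z‖ ^ 4 - 1) * (1 - ‖F‖ ^ 2) := by
  have h : (((‖z ^ 2 - F‖ ^ 2 - ‖1 - (starRingEnd ℂ) F * z ^ 2‖ ^ 2 : ℝ)) : ℂ) =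
      (((‖z‖ ^ 4 - 1) * (1 - ‖F‖ ^ 2) : ℝ) : ℂ) := by
    push_cast
    have e4 : (‖z‖ : ℂ) ^ 4 = ((‖z‖ : ℂ) ^ 2) ^ 2 := by ring
    rw [e4, nsq', nsq', nsq', nsq']
    simp only [map_sub, map_mul, map_pow, map_one, Complex.conj_conj]
    ring
  exact_mod_cast h

lemma root_norm {F l z : ℂ} (hF : ‖F‖ < 1) (hl : ‖l‖ = 1)
    (hz : z * (z ^ 2 - F) = l * (1 - (starRingEnd ℂ) F * z ^ 2)) : ‖z‖ = 1 := by
  have h1 : ‖z‖ * ‖z ^ 2 - F‖ = ‖1 - (starRingEnd ℂ) F * z ^ 2‖ := by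
    rw [← norm_mul, hz, norm_mul, hl, one_mul]
  have hb := bl F z
  have hF2 : 0 < 1 - ‖F‖ ^ 2 := by nlinarith [norm_nonneg F]
  set r := ‖z‖ with hr
  set A := ‖z ^ 2 - F‖ with hA
  have hA0 : 0 ≤ A := norm_nonneg _
  have hr0 : 0 ≤ r := norm_nonneg _
  rw [← h1] at hb
  -- A² (1 - r²) = (r⁴ - 1) (1 - ‖F‖²)
  have e : A ^ 2 * (1 - r ^ 2) = -(1 - r ^ 2) * ((1 + r ^ 2) * (1 - ‖F‖ ^ 2)) := by
    linear_combination hb
  have e2 : (1 - r ^ 2) * (A ^ 2 + (1 + r ^ 2) * (1 - ‖F‖ ^ 2)) = 0 := by linear_combination e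
  have e3 : 0 < A ^ 2 + (1 + r ^ 2) * (1 - ‖F‖ ^ 2) := by positivity
  rcases mul_eq_zero.mp e2 with h | h
  · have : (1 - r) * (1 + r) = 0 := by linear_combination h
    rcases mul_eq_zero.mp this with h' | h'
    · linarith
    · linarith
  · exact absurd h (ne_of_gt e3)

lemma ex_root (F l : ℂ) : ∃ z : ℂ, z * (z ^ 2 - F) = l * (1 - (starRingEnd ℂ) F * z ^ 2) := by
  set P : ℂ[X] := X ^ 3 + C (l * (starRingEnd ℂ) F) * X ^ 2 - C F * X - C l with hP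
  have hd : P.degree = 3 := by
    rw [hP]
    compute_degree!
  obtain ⟨z, hz⟩ := IsAlgClosed.exists_root P (by rw [hd]; decide)
  refine ⟨z, ?_⟩
  have : z ^ 3 + l * (starRingEnd ℂ) F * z ^ 2 - F * z - l = 0 := by
    have h := hz
    rw [IsRoot.def, hP] at h
    simpa using h
  linear_combination this

end L41

/-- LAMC -/
theorem lamC41 : LamC := by
  intro F l hF hl
  obtain ⟨z, hz⟩ := L41.ex_root F l
  have hn := L41.root_norm hF hl hz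
  obtain ⟨z₁, z₂, T⟩ := fam41 F z hF hn
  refine ⟨z, z₁, z₂, T, ?_⟩
  have h1 := T.s1
  have h2 := T.s2
  have h0 := T.cj0
  have hne : 1 - (starRingEnd ℂ) F * z ^ 2 ≠ 0 := by
    intro h
    have h3 : (starRingEnd ℂ) F * z ^ 2 = 1 := by linear_combination -h
    have h4 := congrArg norm h3
    rw [norm_mul, norm_pow, hn, RCLike.norm_conj] at h4
    simp at h4
    linarith
  have h5 : z * z₁ * z₂ * (1 - (starRingEnd ℂ) F * z ^ 2) = l * (1 - (starRingEnd ℂ) F * z ^ 2) := by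
    rw [← hz]
    linear_combination -(z ^ 2) * h1 + z * h2
  exact mul_right_cancel₀ hne h5

end Pool.Agent.Pon30
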