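import Pool.Agent.Pon30.StmtsW

/-!
# MP_02df19_gt: no regularity away from the equilateral triangle

Interface statements for the propagation: if `h = hκ κ` near the equilateral shape and `HHw h`, then `h = hκ κ` on the
whole disc, for an arbitrary function `h`.
The pair that contains the triangle with shape `s` (`T0 s`, `T1 s`, `T2 s`) and whose `z`-triple has the shape `ζ`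
is written down explicitly.
-/

set_option autoImplicit false

namespace Pool.Agent.Pon30

open Complex

/-- common factor `|1 - ζ³| / (1 - |ζ|²)²` -/
noncomputable def Kz (ζ : ℂ) : ℝ := ‖1 - ζ ^ 3‖ / (1 - ‖ζ‖ ^ 2) ^ 2
noncomputable def pz (s ζ : ℂ) : ℂ := (1 - s * (starRingEnd ℂ) ζ) * (Kz ζ : ℝ)
noncomputable def qz (s ζ : ℂ) : ℂ := (s - ζ) * (Kz ζ : ℝ)
noncomputable def Fz (ζ : ℂ) : ℂ := 3 * (ζ - (starRingEnd ℂ) ζ ^ 2) / (1 - (starRingEnd ℂ) ζ ^ 3)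
/-- the centre of the pair, the centroid of `T0 s`, `T1 s`, `T2 s` being `0` -/
noncomputable def oz (s ζ : ℂ) : ℂ :=
  ((1 - s * (starRingEnd ℂ) ζ) * ((starRingEnd ℂ) ζ - ζ ^ 2) + (s - ζ) * (ζ - (starRingEnd ℂ) ζ ^ 2)) /
    (1 - ζ * (starRingEnd ℂ) ζ) ^ 2
/-- the product of the `z`-triple -/
noncomputable def lz (ζ : ℂ) : ℂ := (1 - ζ ^ 3) / (‖1 - ζ ^ 3‖ : ℝ)
/-- the `z`-triple with shape `ζ` and `P > 0` -/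
noncomputable def z0 (ζ : ℂ) : ℂ :=
  (ζ ^ 2 - (starRingEnd ℂ) ζ + (1 - ζ * (starRingEnd ℂ) ζ) * T0 ζ) / (‖1 - ζ ^ 3‖ : ℝ)
noncomputable def z1 (ζ : ℂ) : ℂ :=
  (ζ ^ 2 - (starRingEnd ℂ) ζ + (1 - ζ * (starRingEnd ℂ) ζ) * T1 ζ) / (‖1 - ζ ^ 3‖ : ℝ)
noncomputable def z2 (ζ : ℂ) : ℂ :=
  (ζ ^ 2 - (starRingEnd ℂ) ζ + (1 - ζ * (starRingEnd ℂ) ζ) * T2 ζ) / (‖1 - ζ ^ 3‖ : ℝ)

/-- `X_κ = aκ λ + bκ λ̄` on the pair `p`, `q`, `F` -/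
noncomputable def aκ (κ : ℝ) (p q F : ℂ) : ℂ :=
  -(1 - κ) * p * (starRingEnd ℂ) F / 3 +
    κ * p * (starRingEnd ℂ) q * (p + (starRingEnd ℂ) F * q) / (p * (starRingEnd ℂ) p - q * (starRingEnd ℂ) q)
noncomputable def bκ (κ : ℝ) (p q F : ℂ) : ℂ :=
  -(1 - κ) * q * F / 3 -
    κ * (starRingEnd ℂ) p * q * (q + F * p) / (p * (starRingEnd ℂ) p - q * (starRingEnd ℂ) q)

/-- `aκ (pz s ζ) (qz s ζ) (Fz ζ) * lz ζ`, simplified -/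
noncomputable def Aκ (κ : ℝ) (s ζ : ℂ) : ℂ :=
  -(1 - κ) * (1 - s * (starRingEnd ℂ) ζ) * ((starRingEnd ℂ) ζ - ζ ^ 2) / (1 - ζ * (starRingEnd ℂ) ζ) ^ 2 +
    κ * (1 - s * (starRingEnd ℂ) ζ) * ((starRingEnd ℂ) s - (starRingEnd ℂ) ζ) *
      ((1 - s * (starRingEnd ℂ) ζ) * (1 - ζ ^ 3) + 3 * ((starRingEnd ℂ) ζ - ζ ^ 2) * (s - ζ)) /
      ((1 - s * (starRingEnd ℂ) s) * (1 - ζ * (starRingEnd ℂ) ζ) ^ 3)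
/-- `bκ (pz s ζ) (qz s ζ) (Fz ζ) * conj (lz ζ)`, simplified -/
noncomputable def Bκ (κ : ℝ) (s ζ : ℂ) : ℂ :=
  -(1 - κ) * (s - ζ) * (ζ - (starRingEnd ℂ) ζ ^ 2) / (1 - ζ * (starRingEnd ℂ) ζ) ^ 2 -
    κ * (1 - (starRingEnd ℂ) s * ζ) * (s - ζ) *
      ((s - ζ) * (1 - (starRingEnd ℂ) ζ ^ 3) + 3 * (ζ - (starRingEnd ℂ) ζ ^ 2) * (1 - s * (starRingEnd ℂ) ζ)) /
      ((1 - s * (starRingEnd ℂ) s) * (1 - ζ * (starRingEnd ℂ) ζ) ^ 3)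

/-- PARAM: the explicit pair through the triangle with shape `s` -/
def ParamP : Prop := ∀ s ζ : ℂ, ‖s‖ < 1 → ‖ζ‖ < 1 / 8 →
  ‖qz s ζ‖ < ‖pz s ζ‖ ∧ ‖Fz ζ‖ < 1 ∧ Tz (Fz ζ) (z0 ζ) (z1 ζ) (z2 ζ) ∧ z0 ζ * z1 ζ * z2 ζ = lz ζ ∧ ‖lz ζ‖ = 1 ∧
  T0 s - oz s ζ = L (pz s ζ) (qz s ζ) (z0 ζ) ∧ T1 s - oz s ζ = L (pz s ζ) (qz s ζ) (z1 ζ) ∧
  T2 s - oz s ζ = L (pz s ζ) (qz s ζ) (z2 ζ)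

/-- LOCC: the points `X_κ` over an arbitrary pair -/
def LocP : Prop := ∀ (κ : ℝ) (p q F z₀ z₁ z₂ : ℂ), ‖q‖ < ‖p‖ → ‖F‖ < 1 → Tz F z₀ z₁ z₂ →
  Xh (hκ κ) (L p q z₀) (L p q z₁) (L p q z₂) =
    aκ κ p q F * (z₀ * z₁ * z₂) + bκ κ p q F * (starRingEnd ℂ) (z₀ * z₁ * z₂)

/-- ABZ: the simplified coefficients -/
def AbP : Prop := ∀ (κ : ℝ) (s ζ : ℂ), ‖s‖ < 1 → ‖ζ‖ < 1 / 8 →
  aκ κ (pz s ζ) (qz s ζ) (Fz ζ) * lz ζ = Aκ κ s ζ ∧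
  bκ κ (pz s ζ) (qz s ζ) (Fz ζ) * (starRingEnd ℂ) (lz ζ) = Bκ κ s ζ

/-- FAML: every unimodular number is the product of a triple -/
def FamLP : Prop := ∀ F l : ℂ, ‖F‖ < 1 → ‖l‖ = 1 → ∃ z₀ z₁ z₂, Tz F z₀ z₁ z₂ ∧ z₀ * z₁ * z₂ = l

/-- SIG: sum and difference of squares of `P` and `R` over a pair; `m = λ²` -/
def SigP : Prop := ∀ p q F z₀ z₁ z₂ : ℂ, Tz F z₀ z₁ z₂ →
  ‖Pc (L p q z₀) (L p q z₁) (L p q z₂)‖ ^ 2 + ‖Rc (L p q z₀) (L p q z₁) (L p q z₂)‖ ^ 2 =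
    (‖p‖ ^ 2 + ‖q‖ ^ 2) * (1 - ‖F‖ ^ 2 / 9) +
      4 * (p * (starRingEnd ℂ) q * (F / 3 + (z₀ * z₁ * z₂) ^ 2 * (starRingEnd ℂ) F ^ 2 / 9)).re ∧
  (‖Pc (L p q z₀) (L p q z₁) (L p q z₂)‖ ^ 2 - ‖Rc (L p q z₀) (L p q z₁) (L p q z₂)‖ ^ 2) ^ 2 =
    (‖p‖ ^ 2 - ‖q‖ ^ 2) ^ 2 *
      ((1 - ‖F‖ ^ 2 / 9) ^ 2 - 4 * ‖F / 3 + (z₀ * z₁ * z₂) ^ 2 * (starRingEnd ℂ) F ^ 2 / 9‖ ^ 2)

/-- DROP: arbitrarily close to the pair with `F = 0` there are non-aligned pairs through the shapes near `s₀` which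
contain infinitely many triangles with shapes of modulus less than `‖s₀‖`. -/
def DropP : Prop := ∀ s₀ : ℂ, 0 < ‖s₀‖ → ‖s₀‖ < 1 → ∀ ε : ℝ, 0 < ε →
  ∃ ζ₀ : ℂ, 0 < ‖ζ₀‖ ∧ ‖ζ₀‖ < ε ∧ ∃ δ > 0, ∀ s ζ : ℂ, ‖s - s₀‖ < δ → ‖ζ - ζ₀‖ < δ →
    (pz s ζ * (starRingEnd ℂ) (qz s ζ) * Fz ζ).im ≠ 0 ∧
    {l : ℂ | ‖l‖ = 1 ∧ ∀ z₀ z₁ z₂, Tz (Fz ζ) z₀ z₁ z₂ → z₀ * z₁ * z₂ = l →
      ‖Rc (L (pz s ζ) (qz s ζ) z₀) (L (pz s ζ) (qz s ζ) z₁) (L (pz s ζ) (qz s ζ) z₂)‖ <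
        ‖s₀‖ * ‖Pc (L (pz s ζ) (qz s ζ) z₀) (L (pz s ζ) (qz s ζ) z₁) (L (pz s ζ) (qz s ζ) z₂)‖}.Infinite

/-- FORM: a semidefinite form which is constant on infinitely many points of an ellipse -/
def FormP : Prop := ∀ (a b : ℂ) (α : ℝ) (β : ℂ) (c : ℝ), ‖β‖ ≤ α → 0 ≤ c → 0 < α + c → ‖b‖ < ‖a‖ →
  {l : ℂ | ‖l‖ = 1 ∧ qf α β (a * l + b * (starRingEnd ℂ) l) = c}.Infinite →
  ∀ Y : ℂ, qf α β Y = c → ∃ μ : ℂ, ‖μ‖ = 1 ∧ Y = a * μ + b * (starRingEnd ℂ) μ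

/-- STRICT: first order behaviour of the coefficients in `ζ`, uniformly -/
def StrictP : Prop := ∀ (κ : ℝ) (s₀ : ℂ), ‖s₀‖ < 1 → ∀ η : ℝ, 0 < η → ∃ ε > 0, ∀ s ζ ζ' : ℂ, ‖s - s₀‖ < ε →
  ‖ζ‖ < ε → ‖ζ'‖ < ε →
    ‖Aκ κ s ζ - Aκ κ s ζ' + (starRingEnd ℂ) (ζ - ζ')‖ ≤ η * ‖ζ - ζ'‖ ∧
    ‖Bκ κ s ζ - Bκ κ s ζ' + s * (ζ - ζ')‖ ≤ η * ‖ζ - ζ'‖

/-- GAP: the ellipse of `X_κ` is not degenerate near `F = 0` -/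
def GapP : Prop := ∀ (κ : ℝ) (s₀ : ℂ), 0 < ‖s₀‖ → ‖s₀‖ < 1 → ∃ ε > 0, ∀ s ζ : ℂ, ‖s - s₀‖ < ε →
  0 < ‖ζ‖ → ‖ζ‖ < ε → ‖Bκ κ s ζ‖ < ‖Aκ κ s ζ‖

/-- TABS: abstract transversality -/
def TransP : Prop := ∀ (s : ℂ) (η : ℝ), ‖s‖ < 1 → 0 < η → 20 * η < 1 - ‖s‖ ^ 2 →
  ∀ (A B : ℂ → ℂ) (ζ₀ : ℂ) (r : ℝ), 0 < r → ‖B ζ₀‖ < ‖A ζ₀‖ →
  (∀ ζ ζ' : ℂ, ‖ζ - ζ₀‖ < r → ‖ζ' - ζ₀‖ < r →
    ‖A ζ - A ζ' + (starRingEnd ℂ) (ζ - ζ')‖ ≤ η * ‖ζ - ζ'‖ ∧ ‖B ζ - B ζ' + s * (ζ - ζ')‖ ≤ η * ‖ζ - ζ'‖) →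
  ∀ D : ℂ, (∀ ζ : ℂ, ‖ζ - ζ₀‖ < r → ∃ ν : ℂ, ‖ν‖ = 1 ∧ D = A ζ * (ν - 1) + B ζ * ((starRingEnd ℂ) ν - 1)) →
  D = 0

/-- PLOC: one step of the propagation -/
def StepP : Prop := ∀ (h : ℂ → ℂ) (κ : ℝ), HHw h → ∀ s₀ : ℂ, 0 < ‖s₀‖ → ‖s₀‖ < 1 →
  (∀ s : ℂ, ‖s‖ < ‖s₀‖ → h s = hκ κ s) → ∃ ε > 0, ∀ s : ℂ, ‖s - s₀‖ < ε → h s = hκ κ s

/-- PGLO: propagation to the whole disc, for an arbitrary function `h` -/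
def GlobP : Prop := ∀ (h : ℂ → ℂ) (κ : ℝ), HHw h → (∃ ε > 0, ∀ s : ℂ, ‖s‖ < ε → h s = hκ κ s) →
  ∀ s : ℂ, ‖s‖ < 1 → h s = hκ κ s

/-- CENP: the shape function of a centre function which is analytic near the equilateral triangle -/
def CenP : Prop := ∀ f : ℝ → ℝ → ℝ → ℝ, IsCenterFunction f →
  AnalyticAt ℝ (fun p : ℝ × ℝ × ℝ => f p.1 p.2.1 p.2.2) (1, 1, 1) → Shape (shp f)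

/-- FINP: from the disc to all triangles, no regularity -/
def FinP : Prop := ∀ f : ℝ → ℝ → ℝ → ℝ, IsCenterFunction f → ∀ κ : ℝ,
  (∀ s : ℂ, ‖s‖ < 1 → wsum f (T0 s) (T1 s) (T2 s) ≠ 0 ∧ shp f s = hκ κ s) →
  ∀ A B C : ℂ, IsTriangle A B C → wsum f A B C ≠ 0 ∧
    ∀ O : ℂ, ‖O - A‖ = ‖O - B‖ → ‖O - B‖ = ‖O - C‖ →
      center f A B C = (1 - κ) * ((A + B + C) / 3) + κ * O

end Pool.Agent.Pon30
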