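import Pool.Agent.Pon30.StmtsC
import Pool.Agent.Pon30.StmtsP34
import Pool.Agent.Pon30.Basic
import Pool.Agent.Pon30.Loc93

/-! # MP_02df19_gt, rows LOCP and LOCC: the points `X_κ` over an arbitrary pair -/

set_option autoImplicit false

namespace Pool.Agent.Pon30

open Complex

theorem locP93 : LocP := by
  intro κ p q F z₀ z₁ z₂ hpq hF hT
  obtain ⟨n0, n1, n2, hor, hs2⟩ := hT
  have hcc : ∀ z : ℂ, ‖z‖ = 1 → z * (starRingEnd ℂ) z = 1 := by
    intro z hz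
    rw [Complex.mul_conj, Complex.normSq_eq_norm_sq, hz]
    norm_num
  have c0 := hcc z₀ n0
  have c1 := hcc z₁ n1
  have c2 := hcc z₂ n2
  have hω := loc93_ω_sq
  have hcω := loc93_cjω
  set lam := z₀ * z₁ * z₂ with hlamdef
  have hlam : lam * (starRingEnd ℂ) lam = 1 := by
    apply hcc
    rw [hlamdef, norm_mul, norm_mul, n0, n1, n2]; norm_num
  set g := Gc z₀ z₁ z₂ with hg
  set P := Pc z₀ z₁ z₂ with hP
  set R := Rc z₀ z₁ z₂ with hR
  have ccω : (starRingEnd ℂ) ((starRingEnd ℂ) ω) = ω := Complex.conj_conj ω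
  have egc : (starRingEnd ℂ) g = ((starRingEnd ℂ) z₀ + (starRingEnd ℂ) z₁ + (starRingEnd ℂ) z₂) / 3 := by
    simp only [hg, Gc, map_div₀, map_add, map_ofNat]
  have ePc : (starRingEnd ℂ) P = ((starRingEnd ℂ) z₀ + ω * (starRingEnd ℂ) z₁ + (starRingEnd ℂ) ω * (starRingEnd ℂ) z₂) / 3 := by
    simp only [hP, Pc, map_div₀, map_add, map_mul, map_ofNat, ccω]
  have eRc : (starRingEnd ℂ) R = ((starRingEnd ℂ) z₀ + (starRingEnd ℂ) ω * (starRingEnd ℂ) z₁ + ω * (starRingEnd ℂ) z₂) / 3 := by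
    simp only [hR, Rc, map_div₀, map_add, map_mul, map_ofNat, ccω]
  have eg : g = (z₀ + z₁ + z₂) / 3 := rfl
  have eP : P = (z₀ + (starRingEnd ℂ) ω * z₁ + ω * z₂) / 3 := rfl
  have eR : R = (z₀ + ω * z₁ + (starRingEnd ℂ) ω * z₂) / 3 := rfl
  have hlz0 : lam * (starRingEnd ℂ) z₀ = z₁ * z₂ := by
    rw [hlamdef]; linear_combination z₁ * z₂ * c0
  have hlz1 : lam * (starRingEnd ℂ) z₁ = z₀ * z₂ := by
    rw [hlamdef]; linear_combination z₀ * z₂ * c1
  have hlz2 : lam * (starRingEnd ℂ) z₂ = z₀ * z₁ := by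
    rw [hlamdef]; linear_combination z₀ * z₁ * c2
  have hcg : lam * (starRingEnd ℂ) g = g ^ 2 - P * R := by
    rw [egc, eg, eP, eR, hcω]
    linear_combination (hlz0 + hlz1 + hlz2) / 3 + ((-z₁ ^ 2 - z₂ ^ 2 + 2 * z₁ * z₂) / 9) * hω
  have hcP : lam * (starRingEnd ℂ) P = P ^ 2 - g * R := by
    rw [ePc, eg, eP, eR, hcω]
    linear_combination (hlz0 + ω * hlz1 + (-1 - ω) * hlz2) / 3
      + ((-z₁ ^ 2 - z₂ ^ 2 + 2 * z₁ * z₂) / 9) * hω
  have hcR : lam * (starRingEnd ℂ) R = R ^ 2 - g * P := by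
    rw [eRc, eg, eP, eR, hcω]
    linear_combination (hlz0 + (-1 - ω) * hlz1 + ω * hlz2) / 3
      + ((-z₁ ^ 2 - z₂ ^ 2 + 2 * z₁ * z₂) / 9) * hω
  have hs3 : 3 * (g ^ 2 - P * R) = -F := by
    rw [← hs2, eg, eP, eR, hcω]
    linear_combination ((-z₁ ^ 2 - z₂ ^ 2 + 2 * z₁ * z₂) / 3) * (-1 : ℂ) * hω
  have hcgF : 3 * (starRingEnd ℂ) g = -F * (starRingEnd ℂ) lam := by
    linear_combination (3 * (starRingEnd ℂ) lam) * hcg + (starRingEnd ℂ) lam * hs3 - 3 * (starRingEnd ℂ) g * hlam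
  have hgF : 3 * g = -(starRingEnd ℂ) F * lam := by
    have h := congrArg (starRingEnd ℂ) hcgF
    simp only [map_mul, map_neg, map_ofNat, Complex.conj_conj] at h
    exact h
  have hN0 : P ^ 2 * (starRingEnd ℂ) R - R ^ 2 * (starRingEnd ℂ) P = -g * (P * (starRingEnd ℂ) P - R * (starRingEnd ℂ) R) := by
    have h1 : P * (starRingEnd ℂ) g + g * (starRingEnd ℂ) R + R * (starRingEnd ℂ) P = 0 := by
      have hl0 : lam ≠ 0 := by
        intro h0; rw [h0, zero_mul] at hlam; exact zero_ne_one hlam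
      apply mul_left_cancel₀ hl0
      linear_combination P * hcg + g * hcR + R * hcP
    have h2 : (starRingEnd ℂ) P * g + (starRingEnd ℂ) g * R + (starRingEnd ℂ) R * P = 0 := by
      have h := congrArg (starRingEnd ℂ) h1
      simpa using h
    linear_combination P * h2 - R * h1
  have hPR : P ^ 3 - R ^ 3 = lam * (P * (starRingEnd ℂ) P - R * (starRingEnd ℂ) R) := by
    linear_combination (-P) * hcP + R * hcR
  have hPRc : (starRingEnd ℂ) P ^ 3 - (starRingEnd ℂ) R ^ 3 = (starRingEnd ℂ) lam * (P * (starRingEnd ℂ) P - R * (starRingEnd ℂ) R) := by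
    have h := congrArg (starRingEnd ℂ) hPR
    simp only [map_sub, map_pow, map_mul, Complex.conj_conj] at h
    linear_combination h
  have hN1 : (starRingEnd ℂ) P ^ 2 * R - (starRingEnd ℂ) R ^ 2 * P = -(starRingEnd ℂ) g * (P * (starRingEnd ℂ) P - R * (starRingEnd ℂ) R) := by
    have h := congrArg (starRingEnd ℂ) hN0
    simp only [map_sub, map_pow, map_mul, map_neg, Complex.conj_conj] at h
    linear_combination h
  -- the affine image
  have eGw : Gc (L p q z₀) (L p q z₁) (L p q z₂) = p * g + q * (starRingEnd ℂ) g := by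
    rw [Gc_L]; rfl
  have ePw : Pc (L p q z₀) (L p q z₁) (L p q z₂) = p * P + q * (starRingEnd ℂ) R := Pc_L _ _ _ _ _
  have eRw : Rc (L p q z₀) (L p q z₁) (L p q z₂) = p * R + q * (starRingEnd ℂ) P := Rc_L _ _ _ _ _
  have horw : ‖(p * R + q * (starRingEnd ℂ) P : ℂ)‖ < ‖(p * P + q * (starRingEnd ℂ) R : ℂ)‖ := by
    rw [← ePw, ← eRw]; exact or_L hpq hor
  have hMw : (p * P + q * (starRingEnd ℂ) R) * (starRingEnd ℂ) (p * P + q * (starRingEnd ℂ) R) - (p * R + q * (starRingEnd ℂ) P) * (starRingEnd ℂ) (p * R + q * (starRingEnd ℂ) P)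
      = (p * (starRingEnd ℂ) p - q * (starRingEnd ℂ) q) * (P * (starRingEnd ℂ) P - R * (starRingEnd ℂ) R) := by
    simp only [map_add, map_mul, Complex.conj_conj]
    ring
  have hD : p * (starRingEnd ℂ) p - q * (starRingEnd ℂ) q ≠ 0 := by
    rw [← nsq, ← nsq]
    have h1 : 0 < ‖p‖ ^ 2 - ‖q‖ ^ 2 := by nlinarith [norm_nonneg q]
    intro h0
    have h2 : ‖p‖ ^ 2 - ‖q‖ ^ 2 = 0 := by exact_mod_cast h0
    exact h1.ne' h2
  have hM0 : P * (starRingEnd ℂ) P - R * (starRingEnd ℂ) R ≠ 0 := by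
    rw [← nsq, ← nsq]
    have h1 : 0 < ‖P‖ ^ 2 - ‖R‖ ^ 2 := by nlinarith [norm_nonneg R]
    intro h0
    have h2 : ‖P‖ ^ 2 - ‖R‖ ^ 2 = 0 := by exact_mod_cast h0
    exact h1.ne' h2
  have hN : (p * P + q * (starRingEnd ℂ) R) ^ 2 * (starRingEnd ℂ) (p * R + q * (starRingEnd ℂ) P) -
      (p * R + q * (starRingEnd ℂ) P) ^ 2 * (starRingEnd ℂ) (p * P + q * (starRingEnd ℂ) R)
        = (P * (starRingEnd ℂ) P - R * (starRingEnd ℂ) R) *
          (-(p ^ 2 * (starRingEnd ℂ) p + 2 * p * q * (starRingEnd ℂ) q) * g + p ^ 2 * (starRingEnd ℂ) q * lam +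
            (2 * p * q * (starRingEnd ℂ) p + q ^ 2 * (starRingEnd ℂ) q) * (starRingEnd ℂ) g -
            q ^ 2 * (starRingEnd ℂ) p * (starRingEnd ℂ) lam) := by
    simp only [map_add, map_mul, Complex.conj_conj]
    linear_combination (p ^ 2 * (starRingEnd ℂ) p + 2 * p * q * (starRingEnd ℂ) q) * hN0 + (p ^ 2 * (starRingEnd ℂ) q) * hPR
      - (2 * p * q * (starRingEnd ℂ) p + q ^ 2 * (starRingEnd ℂ) q) * hN1 - (q ^ 2 * (starRingEnd ℂ) p) * hPRc
  have hX : Xh (hκ κ) (L p q z₀) (L p q z₁) (L p q z₂)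
      = (p * g + q * (starRingEnd ℂ) g) + κ * (-(p ^ 2 * (starRingEnd ℂ) p + 2 * p * q * (starRingEnd ℂ) q) * g + p ^ 2 * (starRingEnd ℂ) q * lam +
            (2 * p * q * (starRingEnd ℂ) p + q ^ 2 * (starRingEnd ℂ) q) * (starRingEnd ℂ) g -
            q ^ 2 * (starRingEnd ℂ) p * (starRingEnd ℂ) lam) / (p * (starRingEnd ℂ) p - q * (starRingEnd ℂ) q) := by
    simp only [Xh]
    rw [eGw, ePw, eRw, loc93_hκ κ _ _ horw, hMw, hN]
    congr 1
    rw [div_eq_div_iff (mul_ne_zero hD hM0) hD]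
    ring
  rw [hX]
  have egl : g = -(starRingEnd ℂ) F * lam / 3 := by linear_combination hgF / 3
  have ecgl : (starRingEnd ℂ) g = -F * (starRingEnd ℂ) lam / 3 := by linear_combination hcgF / 3
  rw [ecgl, egl]
  unfold aκ bκ
  field_simp
  ring

theorem locC93 : LocC := by
  intro p q F κ z₀ z₁ z₂ hpq hF hT
  rw [locP93 κ p q F z₀ z₁ z₂ hpq hF hT]
  have e1 : aκ κ p q F = Uc κ p q F := by
    unfold aκ Uc
    push_cast
    rw [nsq', nsq']
    have hD : p * (starRingEnd ℂ) p - q * (starRingEnd ℂ) q ≠ 0 := by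
      rw [← nsq, ← nsq]
      have h1 : 0 < ‖p‖ ^ 2 - ‖q‖ ^ 2 := by nlinarith [norm_nonneg q]
      intro h0
      have h2 : ‖p‖ ^ 2 - ‖q‖ ^ 2 = 0 := by exact_mod_cast h0
      exact h1.ne' h2
    field_simp
  have e2 : bκ κ p q F = Vc κ p q F := by
    unfold bκ Vc
    push_cast
    rw [nsq', nsq']
    have hD : p * (starRingEnd ℂ) p - q * (starRingEnd ℂ) q ≠ 0 := by
      rw [← nsq, ← nsq]
      have h1 : 0 < ‖p‖ ^ 2 - ‖q‖ ^ 2 := by nlinarith [norm_nonneg q]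
      intro h0
      have h2 : ‖p‖ ^ 2 - ‖q‖ ^ 2 = 0 := by exact_mod_cast h0
      exact h1.ne' h2
    field_simp
  rw [e1, e2]

end Pool.Agent.Pon30
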