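import Pool.Agent.Pon30.Basic
/-! Row CENTER of MP_02df19_gt (helper46): centre functions and shape functions. -/
set_option autoImplicit false
namespace Pool.Agent.Pon30

open Complex

/-! ## triangles -/

lemma norm_add_lt' {b c : ℂ} (h : ((starRingEnd ℂ) b * c).im ≠ 0) : ‖b + c‖ < ‖b‖ + ‖c‖ := by
  have h1 : ‖b + c‖ ^ 2 = ‖b‖ ^ 2 + ‖c‖ ^ 2 + 2 * ((starRingEnd ℂ) b * c).re := by
    rw [nsq_re, nsq_re, nsq_re]
    simp only [add_re, add_im, mul_re, conj_re, conj_im]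
    ring
  have h2 : ((starRingEnd ℂ) b * c).re ^ 2 + ((starRingEnd ℂ) b * c).im ^ 2 = (‖b‖ * ‖c‖) ^ 2 := by
    rw [mul_pow, nsq_re, nsq_re]
    simp only [mul_re, mul_im, conj_re, conj_im]
    ring
  have h3 : 0 < ((starRingEnd ℂ) b * c).im ^ 2 := by positivity
  have h4 : ((starRingEnd ℂ) b * c).re < ‖b‖ * ‖c‖ := by
    apply lt_of_pow_lt_pow_left₀ 2 (by positivity)
    linarith
  apply lt_of_pow_lt_pow_left₀ 2 (by positivity)
  nlinarith

lemma isTriangle_of_im {A B C : ℂ} (h : ((starRingEnd ℂ) (B - A) * (C - A)).im ≠ 0) : IsTriangle A B C := by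
  have e1 : ((starRingEnd ℂ) (C - A) * (A - B)).im = ((starRingEnd ℂ) (B - A) * (C - A)).im := by
    simp only [mul_im, map_sub, sub_re, sub_im, conj_re, conj_im]
    ring
  have e2 : ((starRingEnd ℂ) (A - B) * (B - C)).im = ((starRingEnd ℂ) (B - A) * (C - A)).im := by
    simp only [mul_im, map_sub, sub_re, sub_im, conj_re, conj_im]
    ring
  have e3 : ((starRingEnd ℂ) (B - C) * (C - A)).im = ((starRingEnd ℂ) (B - A) * (C - A)).im := by
    simp only [mul_im, map_sub, sub_re, sub_im, conj_re, conj_im]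
    ring
  have n1 : B - C ≠ 0 := by
    intro h0
    apply h
    rw [← e3, h0]
    simp
  have n2 : C - A ≠ 0 := by
    intro h0
    rw [h0] at h
    simp at h
  have n3 : A - B ≠ 0 := by
    intro h0
    apply h
    rw [← e1, h0]
    simp
  refine ⟨norm_pos_iff.2 n1, norm_pos_iff.2 n2, norm_pos_iff.2 n3, ?_, ?_, ?_⟩
  · have := norm_add_lt' (b := C - A) (c := A - B) (by rw [e1]; exact h)
    rwa [show C - A + (A - B) = -(B - C) by ring, norm_neg] at this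
  · have := norm_add_lt' (b := A - B) (c := B - C) (by rw [e2]; exact h)
    rwa [show A - B + (B - C) = -(C - A) by ring, norm_neg] at this
  · have := norm_add_lt' (b := B - C) (c := C - A) (by rw [e3]; exact h)
    rwa [show B - C + (C - A) = -(A - B) by ring, norm_neg] at this

lemma area_eq (w₀ w₁ w₂ : ℂ) : ((starRingEnd ℂ) (w₁ - w₀) * (w₂ - w₀)).im =
    3 * √3 / 2 * (‖Pc w₀ w₁ w₂‖ ^ 2 - ‖Rc w₀ w₁ w₂‖ ^ 2) := by
  rw [nsq_re, nsq_re]
  unfold Pc Rc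
  have h := sq3
  have e3 : ∀ z : ℂ, z / 3 = ⟨z.re / 3, z.im / 3⟩ := by
    intro z
    apply Complex.ext <;> simp
  rw [e3, e3]
  simp only [mul_im, mul_re, map_sub, sub_re, sub_im, add_re, add_im, conj_re, conj_im, ω_re, ω_im]
  linear_combination (-(1 / 3) * ((w₀.re - (w₁.re + w₂.re) / 2) * (w₁.im - w₂.im) +
    (w₀.im - (w₁.im + w₂.im) / 2) * (w₂.re - w₁.re))) * h

lemma isTriangle_of_or {w₀ w₁ w₂ : ℂ} (h : ‖Rc w₀ w₁ w₂‖ < ‖Pc w₀ w₁ w₂‖) :
    IsTriangle w₀ w₁ w₂ := by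
  apply isTriangle_of_im
  rw [area_eq]
  have h1 : 0 < ‖Pc w₀ w₁ w₂‖ ^ 2 - ‖Rc w₀ w₁ w₂‖ ^ 2 := by
    nlinarith [norm_nonneg (Rc w₀ w₁ w₂), norm_nonneg (Pc w₀ w₁ w₂)]
  have h2 : (0 : ℝ) < √3 := by positivity
  positivity

lemma isTriangle_T {s : ℂ} (hs : ‖s‖ < 1) : IsTriangle (T0 s) (T1 s) (T2 s) := by
  apply isTriangle_of_or
  rw [Pc_T, Rc_T, norm_one]
  exact hs

lemma IsTriangle.cyc {A B C : ℂ} (h : IsTriangle A B C) : IsTriangle B C A :=
  ⟨h.2.1, h.2.2.1, h.1, h.2.2.2.2.1, h.2.2.2.2.2, h.2.2.2.1⟩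

/-! ## the centre -/

variable {f : ℝ → ℝ → ℝ → ℝ}

lemma wsum_add (A B C d : ℂ) : wsum f (A + d) (B + d) (C + d) = wsum f A B C := by
  unfold wsum
  rw [show B + d - (C + d) = B - C by ring, show C + d - (A + d) = C - A by ring,
    show A + d - (B + d) = A - B by ring]

lemma center_add {A B C : ℂ} (d : ℂ) (h : wsum f A B C ≠ 0) :
    center f (A + d) (B + d) (C + d) = center f A B C + d := by
  unfold center
  rw [wsum_add, show B + d - (C + d) = B - C by ring, show C + d - (A + d) = C - A by ring,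
    show A + d - (B + d) = A - B by ring]
  have h' : ((wsum f A B C : ℝ) : ℂ) ≠ 0 := by exact_mod_cast h
  rw [div_add' _ _ _ h', div_left_inj' h']
  unfold wsum
  push_cast
  ring

lemma wsum_cyc (A B C : ℂ) : wsum f B C A = wsum f A B C := by
  unfold wsum
  ring

lemma center_cyc (A B C : ℂ) : center f B C A = center f A B C := by
  unfold center
  rw [wsum_cyc]
  congr 1
  ring

lemma scale (hf : IsCenterFunction f) : ∃ n : ℝ, ∀ a b c t : ℝ, Tri a b c → 0 < t →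
    f (t * a) (t * b) (t * c) = t ^ n * f a b c ∧ f (t * b) (t * c) (t * a) = t ^ n * f b c a ∧
    f (t * c) (t * a) (t * b) = t ^ n * f c a b := by
  obtain ⟨n, hn⟩ := hf.hom
  refine ⟨n, fun a b c t h ht => ⟨hn a b c t h ht, hn b c a t ?_ ht, hn c a b t ?_ ht⟩⟩
  · exact ⟨h.2.1, h.2.2.1, h.1, h.2.2.2.2.1, h.2.2.2.2.2, h.2.2.2.1⟩
  · exact ⟨h.2.2.1, h.1, h.2.1, h.2.2.2.2.2, h.2.2.2.1, h.2.2.2.2.1⟩

lemma smul_formulas (hf : IsCenterFunction f) {A B C c : ℂ} (hc : c ≠ 0) (h : IsTriangle A B C) :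
    ∃ u : ℝ, u ≠ 0 ∧ wsum f (c * A) (c * B) (c * C) = u * wsum f A B C ∧
      center f (c * A) (c * B) (c * C) = c * center f A B C := by
  obtain ⟨n, hn⟩ := scale hf
  have hc0 : 0 < ‖c‖ := norm_pos_iff.2 hc
  obtain ⟨h1, h2, h3⟩ := hn _ _ _ ‖c‖ h hc0
  have e1 : ‖c * B - c * C‖ = ‖c‖ * ‖B - C‖ := by rw [← norm_mul]; congr 1; ring
  have e2 : ‖c * C - c * A‖ = ‖c‖ * ‖C - A‖ := by rw [← norm_mul]; congr 1; ring
  have e3 : ‖c * A - c * B‖ = ‖c‖ * ‖A - B‖ := by rw [← norm_mul]; congr 1; ring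
  have hu : ‖c‖ * ‖c‖ ^ n ≠ 0 := (mul_pos hc0 (Real.rpow_pos_of_pos hc0 n)).ne'
  have e4 : wsum f (c * A) (c * B) (c * C) = ‖c‖ * ‖c‖ ^ n * wsum f A B C := by
    unfold wsum
    rw [e1, e2, e3, h1, h2, h3]
    ring
  refine ⟨‖c‖ * ‖c‖ ^ n, hu, e4, ?_⟩
  unfold center
  rw [e4, e1, e2, e3, h1, h2, h3]
  have hu' : (((‖c‖ * ‖c‖ ^ n : ℝ)) : ℂ) ≠ 0 := by exact_mod_cast hu
  rw [Complex.ofReal_mul (‖c‖ * ‖c‖ ^ n) (wsum f A B C), ← mul_div_assoc]
  rw [← mul_div_mul_left (c * _) ((wsum f A B C : ℝ) : ℂ) hu']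
  congr 1
  push_cast
  ring

lemma center_swap (hf : IsCenterFunction f) {A B C : ℂ} (h : IsTriangle A B C) :
    center f A C B = center f A B C := by
  have s1 := hf.symm _ _ _ h
  have s2 := hf.symm _ _ _ h.cyc
  have s3 := hf.symm _ _ _ h.cyc.cyc
  unfold center wsum
  rw [norm_sub_rev C B, norm_sub_rev B A, norm_sub_rev A C, ← s1, ← s2, ← s3]
  congr 1
  · ring
  · congr 1
    ring

lemma center_conj (A B C : ℂ) : center f ((starRingEnd ℂ) A) ((starRingEnd ℂ) B) ((starRingEnd ℂ) C) = (starRingEnd ℂ) (center f A B C) := by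
  have e : ∀ x y : ℂ, ‖(starRingEnd ℂ) x - (starRingEnd ℂ) y‖ = ‖x - y‖ := by
    intro x y
    rw [← map_sub, RCLike.norm_conj]
  unfold center wsum
  simp only [e]
  rw [map_div₀]
  simp only [map_add, map_mul, conj_ofReal]

/-! ## the shape function -/

lemma shp_conj (hf : IsCenterFunction f) {s : ℂ} (hs : ‖s‖ < 1) :
    shp f ((starRingEnd ℂ) s) = (starRingEnd ℂ) (shp f s) := by
  unfold shp
  rw [← center_swap hf (isTriangle_T hs), ← center_conj]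
  unfold T0 T1 T2
  congr 1 <;> simp

lemma shp_rot (hf : IsCenterFunction f) {s : ℂ} (hs : ‖s‖ < 1) :
    shp f (ω * s) = (starRingEnd ℂ) ω * shp f s := by
  unfold shp
  have hω : (starRingEnd ℂ) ω ≠ 0 := by
    intro h0
    have := cj_mul_ω
    rw [h0, zero_mul] at this
    exact zero_ne_one this
  obtain ⟨u, _, _, hc⟩ := smul_formulas hf hω (isTriangle_T hs).cyc
  rw [← center_cyc (f := f) (T0 s), ← hc]
  have a1 := ω_mul_cj
  have a2 := ω_sq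
  have a3 := cjω_sq
  unfold T0 T1 T2
  congr 1
  · linear_combination -a1 - s * a3
  · linear_combination -a3 
  · linear_combination s * a2

lemma center_Xh (hf : IsCenterFunction f) {w₀ w₁ w₂ : ℂ}
    (h : ‖Rc w₀ w₁ w₂‖ < ‖Pc w₀ w₁ w₂‖) (hw : wsum f w₀ w₁ w₂ ≠ 0) :
    center f w₀ w₁ w₂ = Xh (shp f) w₀ w₁ w₂ := by
  have hP : Pc w₀ w₁ w₂ ≠ 0 := by
    intro h0
    rw [h0, norm_zero] at h
    exact absurd h (not_lt.2 (norm_nonneg _))
  set G := Gc w₀ w₁ w₂ with hG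
  set P := Pc w₀ w₁ w₂ with hPd
  set R := Rc w₀ w₁ w₂ with hR
  have hs : ‖R / P‖ < 1 := by
    rw [norm_div, div_lt_one (norm_pos_iff.2 hP)]
    exact h
  have e0 : w₀ = P * T0 (R / P) + G := by
    have h0 := w0_eq w₀ w₁ w₂
    rw [← hG, ← hPd, ← hR] at h0
    rw [h0]
    unfold T0
    field_simp
    ring
  have e1 : w₁ = P * T1 (R / P) + G := by
    have h0 := w1_eq w₀ w₁ w₂
    rw [← hG, ← hPd, ← hR] at h0
    rw [h0]
    unfold T1
    field_simp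
    ring
  have e2 : w₂ = P * T2 (R / P) + G := by
    have h0 := w2_eq w₀ w₁ w₂
    rw [← hG, ← hPd, ← hR] at h0
    rw [h0]
    unfold T2
    field_simp
    ring
  obtain ⟨u, hu, hws, hc⟩ := smul_formulas hf hP (isTriangle_T hs)
  have hw' : wsum f (P * T0 (R / P)) (P * T1 (R / P)) (P * T2 (R / P)) ≠ 0 := by
    rw [← wsum_add _ _ _ G, ← e0, ← e1, ← e2]
    exact hw
  calc center f w₀ w₁ w₂ = center f (P * T0 (R / P) + G) (P * T1 (R / P) + G)
        (P * T2 (R / P) + G) := by rw [← e0, ← e1, ← e2]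
    _ = P * center f (T0 (R / P)) (T1 (R / P)) (T2 (R / P)) + G := by rw [center_add G hw', hc]
    _ = Xh (shp f) w₀ w₁ w₂ := by
        unfold Xh shp
        rw [← hG, ← hPd, ← hR]
        ring

/-! ## analyticity -/

open scoped ContDiff in
lemma analyticAt_norm' {g : ℂ → ℂ} {s : ℂ} (hg : AnalyticAt ℝ g s) (h0 : g s ≠ 0) :
    AnalyticAt ℝ (fun t => ‖g t‖) s := by
  have h1 : ContDiffAt ℝ ω g s := hg.contDiffAt
  exact (h1.norm ℝ h0).analyticAt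

lemma shp_analytic
    (ha : AnalyticOnNhd ℝ (fun p : ℝ × ℝ × ℝ => f p.1 p.2.1 p.2.2) {p | Tri p.1 p.2.1 p.2.2})
    {s : ℂ} (hs : ‖s‖ < 1) (hw : wsum f (T0 s) (T1 s) (T2 s) ≠ 0) :
    AnalyticAt ℝ (shp f) s := by
  have ht := isTriangle_T hs
  have a0 : AnalyticAt ℝ T0 s := by
    unfold T0
    fun_prop
  have a1 : AnalyticAt ℝ T1 s := by
    unfold T1
    fun_prop
  have a2 : AnalyticAt ℝ T2 s := by
    unfold T2
    fun_prop
  have na : AnalyticAt ℝ (fun t => ‖T1 t - T2 t‖) s :=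
    analyticAt_norm' (a1.sub a2) (norm_pos_iff.1 ht.1)
  have nb : AnalyticAt ℝ (fun t => ‖T2 t - T0 t‖) s :=
    analyticAt_norm' (a2.sub a0) (norm_pos_iff.1 ht.2.1)
  have nc : AnalyticAt ℝ (fun t => ‖T0 t - T1 t‖) s :=
    analyticAt_norm' (a0.sub a1) (norm_pos_iff.1 ht.2.2.1)
  have fa : AnalyticAt ℝ (fun t => f ‖T1 t - T2 t‖ ‖T2 t - T0 t‖ ‖T0 t - T1 t‖) s :=
    AnalyticAt.comp_of_eq (ha (‖T1 s - T2 s‖, ‖T2 s - T0 s‖, ‖T0 s - T1 s‖) ht)
      (na.prod (nb.prod nc)) rfl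
  have fb : AnalyticAt ℝ (fun t => f ‖T2 t - T0 t‖ ‖T0 t - T1 t‖ ‖T1 t - T2 t‖) s :=
    AnalyticAt.comp_of_eq (ha (‖T2 s - T0 s‖, ‖T0 s - T1 s‖, ‖T1 s - T2 s‖) ht.cyc)
      (nb.prod (nc.prod na)) rfl
  have fc : AnalyticAt ℝ (fun t => f ‖T0 t - T1 t‖ ‖T1 t - T2 t‖ ‖T2 t - T0 t‖) s :=
    AnalyticAt.comp_of_eq (ha (‖T0 s - T1 s‖, ‖T1 s - T2 s‖, ‖T2 s - T0 s‖) ht.cyc.cyc)
      (nc.prod (na.prod nb)) rfl
  have wa := na.mul fa
  have wb := nb.mul fb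
  have wc := nc.mul fc
  have cast : ∀ {g : ℂ → ℝ}, AnalyticAt ℝ g s → AnalyticAt ℝ (fun t => ((g t : ℝ) : ℂ)) s :=
    fun hg => (Complex.ofRealCLM.analyticAt _).comp hg
  have ws : AnalyticAt ℝ (fun t => wsum f (T0 t) (T1 t) (T2 t)) s := by
    unfold wsum
    exact (wa.add wb).add wc
  have num := (((cast wa).mul a0).add ((cast wb).mul a1)).add ((cast wc).mul a2)
  exact num.div (cast ws) (by exact_mod_cast hw)

lemma T_norms : ‖T1 0 - T2 0‖ = √3 ∧ ‖T2 0 - T0 0‖ = √3 ∧ ‖T0 0 - T1 0‖ = √3 := by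
  have h := sq3
  have h0 : (0 : ℝ) ≤ √3 := Real.sqrt_nonneg 3
  refine ⟨?_, ?_, ?_⟩
  all_goals
    apply (sq_eq_sq₀ (norm_nonneg _) h0).1
    rw [nsq_re]
    simp only [T0, T1, T2, zero_mul, add_zero, sub_re, sub_im, conj_re, conj_im, ω_re, ω_im, one_re, one_im]
    nlinarith [h]

lemma wsum_zero (hf : IsCenterFunction f) : wsum f (T0 0) (T1 0) (T2 0) ≠ 0 := by
  obtain ⟨h1, h2, h3⟩ := T_norms
  have ht := isTriangle_T (s := 0) (by rw [norm_zero]; norm_num)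
  have hne := hf.ne _ _ _ ht
  rw [h1, h2, h3] at hne
  intro h0
  unfold wsum at h0
  rw [h1, h2, h3] at h0
  have h4 : (0 : ℝ) < √3 := by positivity
  have h5 : f √3 √3 √3 = 0 := by
    have : 3 * √3 * f √3 √3 √3 = 0 := by linarith
    rcases mul_eq_zero.1 this with h | h
    · exact absurd h (by positivity)
    · exact h
  exact hne ⟨h5, h5, h5⟩

/-- Row CENTER. -/
theorem centerStmt : CenterStmt := by
  intro f hf ha
  refine ⟨⟨?_, ⟨1, one_pos, fun s hs => shp_conj hf hs⟩, ⟨1, one_pos, fun s hs => shp_rot hf hs⟩⟩,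
    fun w₀ w₁ w₂ h hw => center_Xh hf h hw⟩
  exact shp_analytic ha (by rw [norm_zero]; norm_num) (wsum_zero hf)

end Pool.Agent.Pon30
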