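import Pool.Agent.Pon30.Stmts

/-!
# MP_02df19_gt, row PAIR (helper82): `PairStmt`
-/

namespace Pool.Agent.Pon30.P82

open Complex

/-! ## the map `L` and the two forms -/

lemma L_neg (p q z : ℂ) : L p q (-z) = -L p q z := by simp [L]; ring

lemma L_line (p q z w : ℂ) (t : ℝ) : L p q z + t * (L p q w - L p q z) = L p q (z + t * (w - z)) := by
  simp only [L, map_add, map_mul, map_sub, conj_ofReal]; ring

lemma norm_sq_pos {p q : ℂ} (h : ‖q‖ < ‖p‖) : 0 < normSq p - normSq q := by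
  rw [normSq_eq_norm_sq, normSq_eq_norm_sq]
  have := norm_nonneg q; nlinarith

lemma L_surj {p q : ℂ} (h : ‖q‖ < ‖p‖) (w : ℂ) : ∃ z, L p q z = w := by
  have hJ := norm_sq_pos h
  have hJ' : ((normSq p - normSq q : ℝ) : ℂ) ≠ 0 := by exact_mod_cast hJ.ne'
  refine ⟨((starRingEnd ℂ) p * w - q * (starRingEnd ℂ) w) / ((normSq p - normSq q : ℝ) : ℂ), ?_⟩
  simp only [L, map_div₀, map_sub, map_mul, conj_conj, conj_ofReal]
  field_simp
  push_cast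
  rw [normSq_eq_conj_mul_self, normSq_eq_conj_mul_self]
  ring

lemma qf_neg (α : ℝ) (β v : ℂ) : qf α β (-v) = qf α β v := by simp [qf]

lemma qf_lin (c : ℝ) (u v w : ℂ) :
    qf (c * (normSq u + normSq v)) (c * (-2 * u * (starRingEnd ℂ) v)) w = c * ‖u * w - v * (starRingEnd ℂ) w‖ ^ 2 := by
  rw [qf, mul_assoc (c : ℂ), re_ofReal_mul, Complex.sq_norm, Complex.sq_norm, normSq_apply (_ - _), normSq_apply u,
    normSq_apply v, normSq_apply w]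
  have e2 : (-2 * u * (starRingEnd ℂ) v * w ^ 2).re =
      -2 * ((u.re * v.re + u.im * v.im) * (w.re ^ 2 - w.im ^ 2) -
        (u.im * v.re - u.re * v.im) * (2 * w.re * w.im)) := by
    simp only [pow_two, mul_re, mul_im, neg_re, neg_im, conj_re, conj_im]
    norm_num
    ring
  rw [e2]
  simp only [sub_re, sub_im, mul_re, mul_im, conj_re, conj_im]
  ring

lemma lin_lt {c : ℝ} (hc : 0 < c) {u v : ℂ} (h : normSq u ≠ normSq v) :
    ‖(c : ℂ) * (-2 * u * (starRingEnd ℂ) v)‖ < c * (normSq u + normSq v) := by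
  have h1 : ‖(c : ℂ) * (-2 * u * (starRingEnd ℂ) v)‖ = c * (2 * ‖u‖ * ‖v‖) := by
    rw [norm_mul, norm_mul, norm_mul, norm_real, Real.norm_of_nonneg hc.le]
    simp
  rw [h1]
  apply mul_lt_mul_of_pos_left _ hc
  rw [normSq_eq_norm_sq, normSq_eq_norm_sq] at *
  have : ‖u‖ - ‖v‖ ≠ 0 := by
    intro h0
    apply h
    rw [sub_eq_zero.1 h0]
  nlinarith [pow_pos (abs_pos.2 this) 2, sq_abs (‖u‖ - ‖v‖)]

/-- outer form -/
noncomputable def oa (p q : ℂ) : ℝ := (1 / (normSq p - normSq q) ^ 2) * (normSq ((starRingEnd ℂ) p) + normSq q)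
noncomputable def ob (p q : ℂ) : ℂ := ((1 / (normSq p - normSq q) ^ 2 : ℝ) : ℂ) * (-2 * (starRingEnd ℂ) p * (starRingEnd ℂ) q)

/-- inner form -/
noncomputable def ia (p q F : ℂ) : ℝ :=
  (4 / ((normSq p - normSq q) ^ 2 * (1 - normSq F) ^ 2)) * (normSq ((starRingEnd ℂ) p + F * (starRingEnd ℂ) q) + normSq (q + F * p))
noncomputable def ib (p q F : ℂ) : ℂ :=
  ((4 / ((normSq p - normSq q) ^ 2 * (1 - normSq F) ^ 2) : ℝ) : ℂ) * (-2 * ((starRingEnd ℂ) p + F * (starRingEnd ℂ) q) * (starRingEnd ℂ) (q + F * p))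

lemma inv_L (p q z : ℂ) :
    (starRingEnd ℂ) p * L p q z - q * (starRingEnd ℂ) (L p q z) = ((normSq p - normSq q : ℝ) : ℂ) * z := by
  simp only [L, map_add, map_mul, conj_conj]
  push_cast
  rw [normSq_eq_conj_mul_self, normSq_eq_conj_mul_self]
  ring

lemma qf_out {p q : ℂ} (h : ‖q‖ < ‖p‖) (z : ℂ) : qf (oa p q) (ob p q) (L p q z) = ‖z‖ ^ 2 := by
  have hJ := norm_sq_pos h
  rw [oa, ob, qf_lin, inv_L, norm_mul, norm_real, Real.norm_of_nonneg hJ.le]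
  field_simp

lemma qf_in {p q : ℂ} (h : ‖q‖ < ‖p‖) (F z : ℂ) (hF : ‖F‖ < 1) :
    qf (ia p q F) (ib p q F) (L p q z) = 4 * ‖z - F * (starRingEnd ℂ) z‖ ^ 2 / (1 - normSq F) ^ 2 := by
  have hJ := norm_sq_pos h
  have e : ((starRingEnd ℂ) p + F * (starRingEnd ℂ) q) * L p q z - (q + F * p) * (starRingEnd ℂ) (L p q z) =
      ((normSq p - normSq q : ℝ) : ℂ) * (z - F * (starRingEnd ℂ) z) := by
    have e1 := inv_L p q z
    have e2 := congrArg (starRingEnd ℂ) e1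
    simp only [map_sub, map_mul, conj_conj, conj_ofReal] at e2
    linear_combination e1 - F * e2
  have hF' : (1 - normSq F) ≠ 0 := by
    rw [normSq_eq_norm_sq]
    have := norm_nonneg F; nlinarith
  rw [ia, ib, qf_lin, e, norm_mul, norm_real, Real.norm_of_nonneg hJ.le]
  field_simp

lemma ob_lt {p q : ℂ} (h : ‖q‖ < ‖p‖) : ‖ob p q‖ < oa p q := by
  have hJ := norm_sq_pos h
  apply lin_lt (by positivity)
  rw [normSq_conj]
  linarith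

lemma ib_lt {p q F : ℂ} (h : ‖q‖ < ‖p‖) (hF : ‖F‖ < 1) : ‖ib p q F‖ < ia p q F := by
  have hJ := norm_sq_pos h
  have hF' : 0 < 1 - normSq F := by
    rw [normSq_eq_norm_sq]
    have := norm_nonneg F; nlinarith
  apply lin_lt (by positivity)
  have e : normSq ((starRingEnd ℂ) p + F * (starRingEnd ℂ) q) - normSq (q + F * p) = (normSq p - normSq q) * (1 - normSq F) := by
    simp only [normSq_apply, add_re, add_im, mul_re, mul_im, conj_re, conj_im]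
    ring
  have := mul_pos hJ hF'
  intro h0
  rw [h0] at e
  linarith

lemma nonal {p q F : ℂ} (h : ‖q‖ < ‖p‖) (hF : ‖F‖ < 1) (hn : (p * (starRingEnd ℂ) q * F).im ≠ 0) :
    NonAligned (ob p q) (ib p q F) := by
  have hJ := norm_sq_pos h
  have hF' : 0 < 1 - normSq F := by
    rw [normSq_eq_norm_sq]
    have := norm_nonneg F; nlinarith
  have e : ob p q * (starRingEnd ℂ) (ib p q F) = ((16 / ((normSq p - normSq q) ^ 4 * (1 - normSq F) ^ 2) : ℝ) : ℂ) *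
      ((starRingEnd ℂ) p * (starRingEnd ℂ) q * (p + (starRingEnd ℂ) F * q) * (q + F * p)) := by
    simp only [ob, ib, map_mul, map_add, conj_conj, conj_ofReal, map_neg]
    have : (starRingEnd ℂ) (2 : ℂ) = 2 := Complex.conj_ofNat 2
    rw [this]
    push_cast
    have h1 : ((normSq p : ℂ) - normSq q) ≠ 0 := by exact_mod_cast hJ.ne'
    have h2 : (1 - (normSq F : ℂ)) ≠ 0 := by exact_mod_cast hF'.ne'
    field_simp
    ring
  rw [NonAligned, e, im_ofReal_mul]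
  apply mul_ne_zero (by positivity)
  have e3 : ((starRingEnd ℂ) p * (starRingEnd ℂ) q * (p + (starRingEnd ℂ) F * q) * (q + F * p)).im = (normSq p - normSq q) * (p * (starRingEnd ℂ) q * F).im := by
    simp only [normSq_apply, add_re, add_im, mul_re, mul_im, conj_re, conj_im]
    ring
  rw [e3]
  exact mul_ne_zero hJ.ne' hn

/-! ## triangles -/

lemma strict_tri {x y : ℂ} (h : ((starRingEnd ℂ) x * y).im ≠ 0) : ‖x + y‖ < ‖x‖ + ‖y‖ := by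
  by_contra hc
  push Not at hc
  have h1 : ‖x + y‖ ^ 2 = ‖x‖ ^ 2 + ‖y‖ ^ 2 + 2 * ((starRingEnd ℂ) x * y).re := by
    simp only [Complex.sq_norm, normSq_apply, add_re, add_im, mul_re, conj_re, conj_im]
    ring
  have h2 : ((starRingEnd ℂ) x * y).re ^ 2 + ((starRingEnd ℂ) x * y).im ^ 2 = (‖x‖ * ‖y‖) ^ 2 := by
    rw [mul_pow]
    simp only [Complex.sq_norm, normSq_apply, mul_re, mul_im, conj_re, conj_im]
    ring
  have h3 := norm_nonneg x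
  have h4 := norm_nonneg y
  have h5 : (‖x‖ + ‖y‖) ^ 2 ≤ ‖x + y‖ ^ 2 := by gcongr
  have h6 : ‖x‖ * ‖y‖ ≤ ((starRingEnd ℂ) x * y).re := by nlinarith
  have h7 : (‖x‖ * ‖y‖) ^ 2 ≤ ((starRingEnd ℂ) x * y).re ^ 2 := by
    have := mul_nonneg h3 h4
    gcongr
  have h8 : 0 < ((starRingEnd ℂ) x * y).im ^ 2 := by positivity
  linarith

lemma isTriangle_of_im {A B C : ℂ} (h : ((starRingEnd ℂ) (B - A) * (C - A)).im ≠ 0) : IsTriangle A B C := by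
  have e1 : ((starRingEnd ℂ) (C - A) * (A - B)).im = ((starRingEnd ℂ) (B - A) * (C - A)).im := by
    simp only [sub_re, sub_im, mul_im, conj_re, conj_im]; ring
  have e2 : ((starRingEnd ℂ) (A - B) * (B - C)).im = ((starRingEnd ℂ) (B - A) * (C - A)).im := by
    simp only [sub_re, sub_im, mul_im, conj_re, conj_im]; ring
  have e3 : ((starRingEnd ℂ) (B - C) * (C - A)).im = ((starRingEnd ℂ) (B - A) * (C - A)).im := by
    simp only [sub_re, sub_im, mul_im, conj_re, conj_im]; ring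
  have hBC : B - C ≠ 0 := by
    intro h0
    rw [h0, map_zero, zero_mul, zero_im] at e3
    exact h e3.symm
  have hCA : C - A ≠ 0 := by
    intro h0
    rw [h0] at h
    simp at h
  have hAB : A - B ≠ 0 := by
    intro h0
    rw [h0, map_zero, zero_mul, zero_im] at e2
    exact h e2.symm
  refine ⟨norm_pos_iff.2 hBC, norm_pos_iff.2 hCA, norm_pos_iff.2 hAB, ?_, ?_, ?_⟩
  · have := strict_tri (x := C - A) (y := A - B) (by rw [e1]; exact h)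
    rwa [show C - A + (A - B) = -(B - C) by ring, norm_neg] at this
  · have := strict_tri (x := A - B) (y := B - C) (by rw [e2]; exact h)
    rwa [show A - B + (B - C) = -(C - A) by ring, norm_neg] at this
  · have := strict_tri (x := B - C) (y := C - A) (by rw [e3]; exact h)
    rwa [show B - C + (C - A) = -(A - B) by ring, norm_neg] at this

lemma or_eq (w₀ w₁ w₂ : ℂ) : normSq (Pc w₀ w₁ w₂) - normSq (Rc w₀ w₁ w₂) =
    (2 * √3 / 9) * ((starRingEnd ℂ) (w₁ - w₀) * (w₂ - w₀)).im := by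
  have h3 : √3 ^ 2 = (3 : ℝ) := Real.sq_sqrt (by norm_num)
  have hd : ∀ z : ℂ, z / 3 = ((1 / 3 : ℝ) : ℂ) * z := by
    intro z; push_cast; ring
  rw [Pc, Rc, hd, hd, normSq_mul, normSq_mul, normSq_ofReal]
  simp only [normSq_apply, add_re, add_im, sub_re, sub_im, mul_re, mul_im, conj_re, conj_im, ω]
  ring

lemma or_pos {w₀ w₁ w₂ : ℂ} (h : ‖Rc w₀ w₁ w₂‖ < ‖Pc w₀ w₁ w₂‖) : 0 < ((starRingEnd ℂ) (w₁ - w₀) * (w₂ - w₀)).im := by
  have h1 := norm_sq_pos h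
  rw [or_eq] at h1
  have : (0 : ℝ) < 2 * √3 / 9 := by positivity
  exact (mul_pos_iff_of_pos_left this).1 h1

lemma L_im (p q w₀ w₁ w₂ : ℂ) : ((starRingEnd ℂ) (L p q w₁ - L p q w₀) * (L p q w₂ - L p q w₀)).im =
    (normSq p - normSq q) * ((starRingEnd ℂ) (w₁ - w₀) * (w₂ - w₀)).im := by
  simp only [L, normSq_apply, add_re, add_im, sub_re, sub_im, mul_re, mul_im, conj_re, conj_im]
  ring

/-! ## tangency -/

lemma tan_key {F z₀ z₁ z₂ : ℂ} (h₀ : ‖z₀‖ = 1) (h₁ : ‖z₁‖ = 1) (h₂ : ‖z₂‖ = 1) (hF : ‖F‖ < 1) (hne : z₀ ≠ z₁)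
    (hs : z₀ * z₁ + z₀ * z₂ + z₁ * z₂ = -F) :
    ∃! t : ℝ, 4 * ‖(z₀ + t * (z₁ - z₀)) - F * (starRingEnd ℂ) (z₀ + t * (z₁ - z₀))‖ ^ 2 / (1 - normSq F) ^ 2 = 1 := by
  have n₀ : z₀ ≠ 0 := by rintro rfl; simp at h₀
  have n₁ : z₁ ≠ 0 := by rintro rfl; simp at h₁
  have n₂ : z₂ ≠ 0 := by rintro rfl; simp at h₂
  have c₀ : (starRingEnd ℂ) z₀ = z₀⁻¹ := (inv_eq_conj h₀).symm
  have c₁ : (starRingEnd ℂ) z₁ = z₁⁻¹ := (inv_eq_conj h₁).symm
  have c₂ : (starRingEnd ℂ) z₂ = z₂⁻¹ := (inv_eq_conj h₂).symm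
  have hFe : F = -(z₀ * z₁ + z₀ * z₂ + z₁ * z₂) := by rw [hs]; ring
  have hF' : 0 < 1 - normSq F := by
    rw [normSq_eq_norm_sq]
    have := norm_nonneg F; nlinarith
  -- product formula
  have k1 : ((1 - normSq F : ℝ) : ℂ) = -((z₀ + z₁) * (z₁ + z₂) * (z₀ + z₂) / (z₀ * z₁ * z₂)) := by
    push_cast
    rw [normSq_eq_conj_mul_self, hFe]
    simp only [map_neg, map_add, map_mul, c₀, c₁, c₂]
    field_simp
    ring
  have k1' : 1 - normSq F = ‖z₀ + z₁‖ * ‖z₁ + z₂‖ * ‖z₀ + z₂‖ := by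
    have := congrArg (fun z : ℂ => ‖z‖) k1
    simp only [norm_real, norm_neg, norm_div, norm_mul, h₀, h₁, h₂] at this
    rw [Real.norm_of_nonneg hF'.le] at this
    simpa using this
  have k2 : (2 : ℂ) * I * (((z₀ + z₂) * (starRingEnd ℂ) (z₁ - z₀)).im : ℝ) =
      (z₀ + z₂) * (z₀ - z₁) * (z₁ + z₂) / (z₀ * z₁ * z₂) := by
    have : (2 : ℂ) * I * (((z₀ + z₂) * (starRingEnd ℂ) (z₁ - z₀)).im : ℝ) =
        (z₀ + z₂) * (starRingEnd ℂ) (z₁ - z₀) - (starRingEnd ℂ) ((z₀ + z₂) * (starRingEnd ℂ) (z₁ - z₀)) := by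
      rw [sub_conj]; push_cast; ring
    rw [this]
    simp only [map_add, map_mul, map_sub, conj_conj]
    rw [c₀, c₁, c₂]
    field_simp
    ring
  have k2' : 2 * |((z₀ + z₂) * (starRingEnd ℂ) (z₁ - z₀)).im| = ‖z₀ + z₂‖ * ‖z₀ - z₁‖ * ‖z₁ + z₂‖ := by
    have := congrArg (fun z : ℂ => ‖z‖) k2
    simp only [norm_real, norm_div, norm_mul, h₀, h₁, h₂, norm_I] at this
    simpa using this
  have k3 : (1 - normSq F) ^ 2 * ‖z₁ - z₀‖ ^ 2 = 4 * ‖z₀ + z₁‖ ^ 2 * ((z₀ + z₂) * (starRingEnd ℂ) (z₁ - z₀)).im ^ 2 := by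
    have e : 4 * ‖z₀ + z₁‖ ^ 2 * ((z₀ + z₂) * (starRingEnd ℂ) (z₁ - z₀)).im ^ 2 =
        ‖z₀ + z₁‖ ^ 2 * (2 * |((z₀ + z₂) * (starRingEnd ℂ) (z₁ - z₀)).im|) ^ 2 := by
      rw [mul_pow, sq_abs]; ring
    rw [e, k2', k1', norm_sub_rev z₁ z₀]
    ring
  -- the distance
  have k4 : ∀ t : ℝ, ‖(z₀ + t * (z₁ - z₀)) - F * (starRingEnd ℂ) (z₀ + t * (z₁ - z₀))‖ ^ 2 =
      ‖z₀ + z₁‖ ^ 2 * ‖(z₀ + z₂) + t * (z₁ - z₀)‖ ^ 2 := by
    intro t
    have e : (z₀ + t * (z₁ - z₀)) - F * (starRingEnd ℂ) (z₀ + t * (z₁ - z₀)) =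
        (z₀ + z₁) * (z₂ * (starRingEnd ℂ) ((z₀ + z₂) + t * (z₁ - z₀))) := by
      rw [hFe]
      simp only [map_add, map_mul, map_sub, conj_ofReal, c₀, c₁, c₂]
      field_simp
      ring
    rw [e, norm_mul, norm_mul, h₂, norm_conj, one_mul, mul_pow]
  have k5 : ∀ t : ℝ, ‖(z₀ + z₂) + t * (z₁ - z₀)‖ ^ 2 * ‖z₁ - z₀‖ ^ 2 =
      (‖z₁ - z₀‖ ^ 2 * t + ((z₀ + z₂) * (starRingEnd ℂ) (z₁ - z₀)).re) ^ 2 + ((z₀ + z₂) * (starRingEnd ℂ) (z₁ - z₀)).im ^ 2 := by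
    intro t
    simp only [Complex.sq_norm, normSq_apply, add_re, add_im, sub_re, sub_im, mul_re, mul_im, conj_re, conj_im,
      ofReal_re, ofReal_im]
    ring
  have hd : 0 < ‖z₁ - z₀‖ ^ 2 := by
    have : 0 < ‖z₁ - z₀‖ := norm_pos_iff.2 (sub_ne_zero.2 (Ne.symm hne))
    positivity
  have hsp : 0 < ‖z₀ + z₁‖ ^ 2 := by
    have : ‖z₀ + z₁‖ ≠ 0 := by
      intro h0
      rw [h0] at k1'
      simp at k1'
      linarith
    positivity
  have hmain : ∀ t : ℝ, (4 * ‖(z₀ + t * (z₁ - z₀)) - F * (starRingEnd ℂ) (z₀ + t * (z₁ - z₀))‖ ^ 2 / (1 - normSq F) ^ 2 = 1 ↔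
      ‖z₁ - z₀‖ ^ 2 * t + ((z₀ + z₂) * (starRingEnd ℂ) (z₁ - z₀)).re = 0) := by
    intro t
    rw [div_eq_one_iff_eq (by positivity), k4 t]
    constructor
    · intro h
      have h1 : 4 * (‖z₀ + z₁‖ ^ 2 * (‖(z₀ + z₂) + t * (z₁ - z₀)‖ ^ 2 * ‖z₁ - z₀‖ ^ 2)) =
          (1 - normSq F) ^ 2 * ‖z₁ - z₀‖ ^ 2 := by
        rw [← h]; ring
      rw [k5 t, k3] at h1
      have h2 : 4 * ‖z₀ + z₁‖ ^ 2 * (‖z₁ - z₀‖ ^ 2 * t + ((z₀ + z₂) * (starRingEnd ℂ) (z₁ - z₀)).re) ^ 2 = 0 := by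
        linarith
      have h3 := (mul_eq_zero.1 h2).resolve_left (by positivity)
      exact pow_eq_zero_iff (two_ne_zero) |>.1 h3
    · intro h
      have h1 := k5 t
      rw [h] at h1
      have h2 : (4 * (‖z₀ + z₁‖ ^ 2 * ‖(z₀ + z₂) + t * (z₁ - z₀)‖ ^ 2)) * ‖z₁ - z₀‖ ^ 2 =
          (1 - normSq F) ^ 2 * ‖z₁ - z₀‖ ^ 2 := by
        rw [k3]
        linear_combination 4 * ‖z₀ + z₁‖ ^ 2 * h1
      exact mul_right_cancel₀ hd.ne' h2
  refine ⟨-((z₀ + z₂) * (starRingEnd ℂ) (z₁ - z₀)).re / ‖z₁ - z₀‖ ^ 2, ?_, ?_⟩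
  · show 4 * ‖(z₀ + ((-((z₀ + z₂) * (starRingEnd ℂ) (z₁ - z₀)).re / ‖z₁ - z₀‖ ^ 2 : ℝ) : ℂ) * (z₁ - z₀)) -
      F * (starRingEnd ℂ) (z₀ + ((-((z₀ + z₂) * (starRingEnd ℂ) (z₁ - z₀)).re / ‖z₁ - z₀‖ ^ 2 : ℝ) : ℂ) * (z₁ - z₀))‖ ^ 2 /
        (1 - normSq F) ^ 2 = 1
    rw [hmain, mul_div_cancel₀ _ hd.ne']
    ring
  · intro t ht
    have := (hmain t).1 ht
    rw [eq_div_iff hd.ne']
    linarith

/-! ## the pair -/

lemma mem_in {p q F : ℂ} (h : ‖q‖ < ‖p‖) (hF : ‖F‖ < 1) (z w : ℂ) (t : ℝ) :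
    (L p q z + t * (L p q w - L p q z) ∈ Ell 0 (ia p q F) (ib p q F)) ↔
      4 * ‖(z + t * (w - z)) - F * (starRingEnd ℂ) (z + t * (w - z))‖ ^ 2 / (1 - normSq F) ^ 2 = 1 := by
  rw [L_line, Ell, Set.mem_ofPred_eq, sub_zero, qf_in h F _ hF]

lemma tan_L {p q F z₀ z₁ z₂ : ℂ} (h : ‖q‖ < ‖p‖) (h₀ : ‖z₀‖ = 1) (h₁ : ‖z₁‖ = 1) (h₂ : ‖z₂‖ = 1) (hF : ‖F‖ < 1)
    (hne : z₀ ≠ z₁) (hs : z₀ * z₁ + z₀ * z₂ + z₁ * z₂ = -F) :
    ∃! t : ℝ, L p q z₀ + t * (L p q z₁ - L p q z₀) ∈ Ell 0 (ia p q F) (ib p q F) := by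
  simp only [mem_in h hF]
  exact tan_key h₀ h₁ h₂ hF hne hs

lemma periodic_L {p q F z₀ z₁ z₂ : ℂ} (h : ‖q‖ < ‖p‖) (hF : ‖F‖ < 1) (T : Tz F z₀ z₁ z₂) :
    Periodic 0 (oa p q) (ob p q) (ia p q F) (ib p q F) (L p q z₀) (L p q z₁) (L p q z₂) := by
  have hor := or_pos T.or
  have hJ := norm_sq_pos h
  have n01 : z₀ ≠ z₁ := by
    rintro rfl
    simp at hor
  have n12 : z₁ ≠ z₂ := by
    rintro rfl
    have : ((starRingEnd ℂ) (z₁ - z₀) * (z₁ - z₀)).im = 0 := by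
      rw [← normSq_eq_conj_mul_self, ofReal_im]
    linarith
  have n20 : z₂ ≠ z₀ := by
    rintro rfl
    simp at hor
  have hm : ∀ z : ℂ, ‖z‖ = 1 → L p q z ∈ Ell 0 (oa p q) (ob p q) := by
    intro z hz
    rw [Ell, Set.mem_ofPred_eq, sub_zero, qf_out h, hz, one_pow]
  refine ⟨?_, hm _ T.n₀, hm _ T.n₁, hm _ T.n₂, ?_, ?_, ?_⟩
  · apply isTriangle_of_im
    rw [L_im]
    exact (mul_pos hJ hor).ne'
  · exact tan_L h T.n₀ T.n₁ T.n₂ hF n01 T.s2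
  · exact tan_L h T.n₁ T.n₂ T.n₀ hF n12 (by rw [← T.s2]; ring)
  · exact tan_L h T.n₂ T.n₀ T.n₁ hF n20 (by rw [← T.s2]; ring)

lemma inside_L {p q F : ℂ} (h : ‖q‖ < ‖p‖) (hF : ‖F‖ < 1) :
    ∀ z ∈ Ell 0 (ia p q F) (ib p q F), qf (oa p q) (ob p q) (z - 0) < 1 := by
  intro z hz
  obtain ⟨w, rfl⟩ := L_surj h z
  rw [Ell, Set.mem_ofPred_eq, sub_zero, qf_in h F _ hF] at hz
  rw [sub_zero, qf_out h]
  have hF0 := norm_nonneg F
  have hF' : 0 < 1 - normSq F := by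
    rw [normSq_eq_norm_sq]
    nlinarith
  rw [div_eq_one_iff_eq (by positivity)] at hz
  have h1 : 2 * ‖w - F * (starRingEnd ℂ) w‖ = 1 - normSq F := by
    have h2 : (2 * ‖w - F * (starRingEnd ℂ) w‖) ^ 2 = (1 - normSq F) ^ 2 := by rw [← hz]; ring
    exact (pow_left_inj₀ (by positivity) hF'.le two_ne_zero).1 h2
  have h3 : ‖w‖ - ‖F‖ * ‖w‖ ≤ ‖w - F * (starRingEnd ℂ) w‖ := by
    have := norm_sub_norm_le w (F * (starRingEnd ℂ) w)
    rwa [norm_mul, norm_conj] at this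
  rw [normSq_eq_norm_sq] at h1
  have hw := norm_nonneg w
  have h4 : ‖w‖ < 1 := by
    by_contra hc
    push Not at hc
    nlinarith
  nlinarith

lemma pair_L {p q F : ℂ} (h : ‖q‖ < ‖p‖) (hF : ‖F‖ < 1) {z₀ z₁ z₂ : ℂ} (T : Tz F z₀ z₁ z₂) :
    PonceletPair 0 (oa p q) (ob p q) (ia p q F) (ib p q F) :=
  ⟨ob_lt h, ib_lt h hF, inside_L h hF, _, _, _, periodic_L h hF T⟩

/-! ## central symmetry -/

lemma periodic_neg {α α' : ℝ} {β β' A B C : ℂ} (T : Periodic 0 α β α' β' A B C) :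
    Periodic 0 α β α' β' (-A) (-B) (-C) := by
  have hn : ∀ A B : ℂ, ‖-A - -B‖ = ‖A - B‖ := by
    intro A B
    rw [← norm_neg (A - B)]; congr 1; ring
  have hm : ∀ (α : ℝ) (β A : ℂ), A ∈ Ell 0 α β → -A ∈ Ell 0 α β := by
    intro α β A hA
    rw [Ell, Set.mem_ofPred_eq, sub_zero] at *
    rw [qf_neg]; exact hA
  have ht : ∀ (α : ℝ) (β A B : ℂ), (∃! t : ℝ, A + t * (B - A) ∈ Ell 0 α β) →
      ∃! t : ℝ, -A + t * (-B - -A) ∈ Ell 0 α β := by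
    intro α β A B hAB
    have e : ∀ t : ℝ, (-A + t * (-B - -A) ∈ Ell 0 α β) ↔ (A + t * (B - A) ∈ Ell 0 α β) := by
      intro t
      rw [Ell, Set.mem_ofPred_eq, Set.mem_ofPred_eq, sub_zero, sub_zero,
        show -A + t * (-B - -A) = -(A + t * (B - A)) by ring, qf_neg]
    simpa only [e] using hAB
  refine ⟨?_, hm _ _ _ T.memA, hm _ _ _ T.memB, hm _ _ _ T.memC, ht _ _ _ _ T.tanAB, ht _ _ _ _ T.tanBC,
    ht _ _ _ _ T.tanCA⟩
  have := T.tri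
  rw [IsTriangle] at *
  rw [hn, hn, hn]
  exact this

lemma center_neg (f : ℝ → ℝ → ℝ → ℝ) (A B C : ℂ) : center f (-A) (-B) (-C) = -center f A B C := by
  have hn : ∀ A B : ℂ, ‖-A - -B‖ = ‖A - B‖ := by
    intro A B
    rw [← norm_neg (A - B)]; congr 1; ring
  rw [center, center, wsum, wsum, hn, hn, hn, ← neg_div]
  congr 1
  ring

lemma qf_par (α : ℝ) (β u v : ℂ) : qf α β (2 * u + v) + qf α β (2 * u - v) = 8 * qf α β u + 2 * qf α β v := by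
  rw [qf, qf, qf, qf, Complex.sq_norm, Complex.sq_norm, Complex.sq_norm, Complex.sq_norm]
  simp only [normSq_apply, add_re, add_im, sub_re, sub_im, mul_re, mul_im, pow_two, re_ofNat, im_ofNat]
  ring

lemma qf_zero {α : ℝ} {β : ℂ} (h : ‖β‖ < α) {u : ℂ} (hu : qf α β u = 0) : u = 0 := by
  by_contra hne
  have h1 : -(‖β‖ * ‖u‖ ^ 2) ≤ (β * u ^ 2).re := by
    have := abs_re_le_norm (β * u ^ 2)
    rw [norm_mul, norm_pow] at this
    exact neg_le_of_abs_le this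
  have h2 : 0 < ‖u‖ ^ 2 := by
    have : 0 < ‖u‖ := norm_pos_iff.2 hne
    positivity
  rw [qf] at hu
  nlinarith

lemma center_zero {α : ℝ} {β o v : ℂ} (h : ‖β‖ < α) (hs : ∀ z ∈ Ell o α β, -z ∈ Ell o α β)
    (hv : v ∈ Ell o α β) : o = 0 := by
  have h1 := hs v hv
  have h2 : 2 * o - v ∈ Ell o α β := by
    rw [Ell, Set.mem_ofPred_eq] at *
    rw [show 2 * o - v - o = -(v - o) by ring, qf_neg]; exact hv
  have h3 := hs _ h2
  rw [Ell, Set.mem_ofPred_eq] at h1 h3 hv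
  have e1 : qf α β (2 * o + (v - o)) = 1 := by
    rw [show 2 * o + (v - o) = -(-v - o) by ring, qf_neg]; exact h1
  have e2 : qf α β (2 * o - (v - o)) = 1 := by
    rw [show 2 * o - (v - o) = -(-(2 * o - v) - o) by ring, qf_neg]; exact h3
  have e3 := qf_par α β o (v - o)
  apply qf_zero h
  linarith

theorem pair : PairStmt := by
  intro f _ hyp p q F h hF hn
  by_cases hT : ∃ z₀ z₁ z₂, Tz F z₀ z₁ z₂
  · obtain ⟨y₀, y₁, y₂, T⟩ := hT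
    obtain ⟨hw, o₁, α₁, β₁, hlt, hset⟩ := hyp _ _ _ _ _ (pair_L h hF T) (nonal h hF hn)
    have hmem : ∀ z₀ z₁ z₂, Tz F z₀ z₁ z₂ → center f (L p q z₀) (L p q z₁) (L p q z₂) ∈ Ell o₁ α₁ β₁ := by
      intro z₀ z₁ z₂ T
      rw [← hset]
      exact ⟨_, _, _, periodic_L h hF T, rfl⟩
    have ho : o₁ = 0 := by
      apply center_zero hlt _ (hmem _ _ _ T)
      intro z hz
      rw [← hset] at hz ⊢
      obtain ⟨A, B, C, hP, rfl⟩ := hz
      exact ⟨_, _, _, periodic_neg hP, (center_neg f A B C).symm⟩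
    refine ⟨α₁, β₁, hlt, ?_⟩
    intro z₀ z₁ z₂ T'
    refine ⟨hw _ _ _ (periodic_L h hF T'), ?_⟩
    have := hmem _ _ _ T'
    rwa [ho, Ell, Set.mem_ofPred_eq, sub_zero] at this
  · refine ⟨1, 0, by simp, ?_⟩
    intro z₀ z₁ z₂ T
    exact absurd ⟨z₀, z₁, z₂, T⟩ hT

end Pool.Agent.Pon30.P82

theorem Pool.Agent.Pon30.pairStmt : Pool.Agent.Pon30.PairStmt := Pool.Agent.Pon30.P82.pair
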