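import Pool.Agent.Pon30.StmtsS82
import Pool.Agent.Pon30.Pair82
import Pool.Agent.Pon30.Fam41
import Pool.Agent.Pon30.Center46

/-! Row SURJ of MP_02df19_gt (helper82): the strict hypothesis gives `HHs (shp f)`: every point of the ellipse is
attained by a positively oriented 3-periodic. -/

set_option autoImplicit false

namespace Pool.Agent.Pon30

open Complex

namespace PS82

open P82

/-- a chord of the unit circle that meets the inner ellipse in exactly one point -/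
theorem chord {F a z : ℂ} (ha : ‖a‖ = 1) (hz : ‖z‖ = 1) (hF : ‖F‖ < 1) (hne : a ≠ z)
    (ht : ∃! t : ℝ, 4 * ‖(a + t * (z - a)) - F * (starRingEnd ℂ) (a + t * (z - a))‖ ^ 2 / (1 - normSq F) ^ 2 = 1) :
    (F + a * z) * ((starRingEnd ℂ) F + (starRingEnd ℂ) a * (starRingEnd ℂ) z) =
      (a + z) * ((starRingEnd ℂ) a + (starRingEnd ℂ) z) := by
  have hD : 0 < 1 - normSq F := by
    rw [normSq_eq_norm_sq]
    have := norm_nonneg F; nlinarith
  have ca : a * (starRingEnd ℂ) a = 1 := by rw [← nsq, ha]; norm_num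
  have cz : z * (starRingEnd ℂ) z = 1 := by rw [← nsq, hz]; norm_num
  set U := a - F * (starRingEnd ℂ) a with hU
  set W := (z - a) - F * (starRingEnd ℂ) (z - a) with hW
  have hlin : ∀ t : ℝ, (a + t * (z - a)) - F * (starRingEnd ℂ) (a + t * (z - a)) = U + t * W := by
    intro t
    rw [hU, hW]
    simp only [map_add, map_mul, map_sub, conj_ofReal]
    ring
  have hWne : W ≠ 0 := by
    intro h0
    have h1 : z - a = F * (starRingEnd ℂ) (z - a) := by rw [hW] at h0; exact sub_eq_zero.1 h0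
    have h2 : ‖z - a‖ = ‖F‖ * ‖z - a‖ := by
      conv_lhs => rw [h1]
      rw [norm_mul, RCLike.norm_conj]
    have h3 : 0 < ‖z - a‖ := norm_pos_iff.2 (sub_ne_zero.2 (Ne.symm hne))
    nlinarith
  have hWp : 0 < ‖W‖ ^ 2 := by
    have := norm_pos_iff.2 hWne
    positivity
  -- the quadratic
  set b := U.re * W.re + U.im * W.im with hb
  set c := ‖U‖ ^ 2 - (1 - normSq F) ^ 2 / 4 with hc
  have hq : ∀ t : ℝ, (4 * ‖(a + t * (z - a)) - F * (starRingEnd ℂ) (a + t * (z - a))‖ ^ 2 / (1 - normSq F) ^ 2 = 1 ↔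
      ‖W‖ ^ 2 * t ^ 2 + 2 * b * t + c = 0) := by
    intro t
    rw [hlin, div_eq_one_iff_eq (by positivity), hb, hc, nsq_re, nsq_re W, nsq_re U]
    simp only [add_re, add_im, mul_re, mul_im, ofReal_re, ofReal_im]
    constructor
    · intro h; linear_combination h / 4
    · intro h; linear_combination 4 * h
  obtain ⟨t₀, h0, huniq⟩ := ht
  have h0' := (hq t₀).1 h0
  have h1 : t₀ = -b / ‖W‖ ^ 2 := by
    have h2 := huniq (-2 * b / ‖W‖ ^ 2 - t₀) ((hq _).2 (by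
      have : ‖W‖ ^ 2 * (-2 * b / ‖W‖ ^ 2 - t₀) ^ 2 + 2 * b * (-2 * b / ‖W‖ ^ 2 - t₀) + c =
          ‖W‖ ^ 2 * t₀ ^ 2 + 2 * b * t₀ + c := by
        field_simp
        ring
      rw [this, h0']))
    have h3 : 2 * t₀ = -2 * b / ‖W‖ ^ 2 := by linarith
    rw [show -b / ‖W‖ ^ 2 = (-2 * b / ‖W‖ ^ 2) / 2 by ring, ← h3]
    ring
  have hdisc : b ^ 2 = ‖W‖ ^ 2 * c := by
    rw [h1] at h0'
    field_simp at h0'
    nlinarith [h0']
  -- `Im (Ū W) = D Im (ā z)`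
  have him : U.re * W.im - U.im * W.re = (1 - normSq F) * (a.re * z.im - a.im * z.re) := by
    rw [hU, hW, normSq_apply]
    simp only [sub_re, sub_im, mul_re, mul_im, map_sub, conj_re, conj_im]
    ring
  have hlag : b ^ 2 + (U.re * W.im - U.im * W.re) ^ 2 = ‖U‖ ^ 2 * ‖W‖ ^ 2 := by
    rw [hb, nsq_re, nsq_re]
    ring
  have h4 : 4 * (a.re * z.im - a.im * z.re) ^ 2 = ‖W‖ ^ 2 := by
    have e1 : (U.re * W.im - U.im * W.re) ^ 2 = ‖W‖ ^ 2 * ((1 - normSq F) ^ 2 / 4) := by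
      rw [hdisc, hc] at hlag
      linarith
    rw [him, mul_pow] at e1
    have e2 : (1 - normSq F) ^ 2 * (4 * (a.re * z.im - a.im * z.re) ^ 2) = (1 - normSq F) ^ 2 * ‖W‖ ^ 2 := by
      linear_combination 4 * e1
    exact mul_left_cancel₀ (by positivity) e2
  -- in complex form
  have h5 : (W : ℂ) * (starRingEnd ℂ) W = -((starRingEnd ℂ) a * z - a * (starRingEnd ℂ) z) ^ 2 := by
    rw [← nsq, ← h4]
    apply Complex.ext
    · simp only [pow_two, mul_re, mul_im, sub_re, sub_im, conj_re, conj_im, ofReal_re, neg_re]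
      ring
    · simp only [pow_two, mul_re, mul_im, sub_re, sub_im, conj_re, conj_im, ofReal_im, neg_im]
      ring
  have h6 : W * (a * z) = (z - a) * (F + a * z) := by
    rw [hW, map_sub]
    linear_combination (-F * z) * (-ca) + (-F * a) * cz
  have h7 : (starRingEnd ℂ) W * ((starRingEnd ℂ) a * (starRingEnd ℂ) z) =
      ((starRingEnd ℂ) z - (starRingEnd ℂ) a) * ((starRingEnd ℂ) F + (starRingEnd ℂ) a * (starRingEnd ℂ) z) := by
    have := congrArg (starRingEnd ℂ) h6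
    simpa only [map_mul, map_sub, map_add] using this
  have hza : z - a ≠ 0 := sub_ne_zero.2 (Ne.symm hne)
  have hza' : (starRingEnd ℂ) z - (starRingEnd ℂ) a ≠ 0 := by
    rw [← map_sub]
    exact (map_ne_zero _).2 hza
  have h8 : (z - a) * ((starRingEnd ℂ) z - (starRingEnd ℂ) a) *
      ((F + a * z) * ((starRingEnd ℂ) F + (starRingEnd ℂ) a * (starRingEnd ℂ) z)) =
      (z - a) * ((starRingEnd ℂ) z - (starRingEnd ℂ) a) * ((a + z) * ((starRingEnd ℂ) a + (starRingEnd ℂ) z)) := by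
    have e1 : (z - a) * ((starRingEnd ℂ) z - (starRingEnd ℂ) a) *
        ((F + a * z) * ((starRingEnd ℂ) F + (starRingEnd ℂ) a * (starRingEnd ℂ) z)) =
        (W * (starRingEnd ℂ) W) * ((a * (starRingEnd ℂ) a) * (z * (starRingEnd ℂ) z)) := by
      linear_combination (-(starRingEnd ℂ) W * ((starRingEnd ℂ) a * (starRingEnd ℂ) z)) * h6 -
        ((z - a) * (F + a * z)) * h7
    rw [e1, h5, ca, cz]
    linear_combination (-(a * (starRingEnd ℂ) a - z * (starRingEnd ℂ) z)) * ca +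
      (a * (starRingEnd ℂ) a - z * (starRingEnd ℂ) z) * cz
  exact mul_left_cancel₀ (mul_ne_zero hza hza') h8

/-- two different tangent chords at `a` determine the third relation -/
theorem two_chords {F a y z : ℂ} (ha : ‖a‖ = 1) (hy : ‖y‖ = 1) (hz : ‖z‖ = 1) (hF : ‖F‖ < 1) (hyz : y ≠ z)
    (h1 : (F + a * y) * ((starRingEnd ℂ) F + (starRingEnd ℂ) a * (starRingEnd ℂ) y) =
      (a + y) * ((starRingEnd ℂ) a + (starRingEnd ℂ) y))
    (h2 : (F + a * z) * ((starRingEnd ℂ) F + (starRingEnd ℂ) a * (starRingEnd ℂ) z) =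
      (a + z) * ((starRingEnd ℂ) a + (starRingEnd ℂ) z)) : a * y + a * z + y * z = -F := by
  have ca : a * (starRingEnd ℂ) a = 1 := by rw [← nsq, ha]; norm_num
  have cy : y * (starRingEnd ℂ) y = 1 := by rw [← nsq, hy]; norm_num
  have cz : z * (starRingEnd ℂ) z = 1 := by rw [← nsq, hz]; norm_num
  set Fc := (starRingEnd ℂ) F with hFc
  set ac := (starRingEnd ℂ) a with hac
  set yc := (starRingEnd ℂ) y with hyc
  set zc := (starRingEnd ℂ) z with hzc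
  -- quadratic equations
  have q1 : (Fc * a - ac) * y ^ 2 + (F * Fc - 1) * y + (F * ac - a) = 0 := by
    linear_combination y * h1 + (-(a * ac) * y + y - F * ac + a) * cy
  have q2 : (Fc * a - ac) * z ^ 2 + (F * Fc - 1) * z + (F * ac - a) = 0 := by
    linear_combination z * h2 + (-(a * ac) * z + z - F * ac + a) * cz
  have hk : Fc * a - ac ≠ 0 := by
    intro h0
    have h3 : Fc * a = ac := sub_eq_zero.1 h0
    have h4 : ‖Fc * a‖ = ‖ac‖ := by rw [h3]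
    rw [norm_mul, ha, mul_one, hFc, hac, RCLike.norm_conj, RCLike.norm_conj, ha] at h4
    linarith
  have s1 : (Fc * a - ac) * (y + z) + (F * Fc - 1) = 0 := by
    have h5 : (y - z) * ((Fc * a - ac) * (y + z) + (F * Fc - 1)) = 0 := by
      linear_combination q1 - q2
    exact (mul_eq_zero.1 h5).resolve_left (sub_ne_zero.2 hyz)
  have s2 : (Fc * a - ac) * (y * z) = F * ac - a := by
    linear_combination -q1 + y * s1
  have s3 : (Fc * a - ac) * (a * y + a * z + y * z) = (Fc * a - ac) * (-F) := by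
    linear_combination a * s1 + s2
  exact mul_left_cancel₀ hk s3

theorem L_inj {p q z w : ℂ} (h : ‖q‖ < ‖p‖) (he : L p q z = L p q w) : z = w := by
  by_contra hne
  have h1 : p * (z - w) = -(q * (starRingEnd ℂ) (z - w)) := by
    unfold L at he
    rw [map_sub]
    linear_combination he
  have h2 : ‖p‖ * ‖z - w‖ = ‖q‖ * ‖z - w‖ := by
    rw [← norm_mul, h1, norm_neg, norm_mul, RCLike.norm_conj]
  have h3 : 0 < ‖z - w‖ := norm_pos_iff.2 (sub_ne_zero.2 hne)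
  nlinarith

/-- every 3-periodic comes from a triple -/
theorem conv {p q F A B C : ℂ} (h : ‖q‖ < ‖p‖) (hF : ‖F‖ < 1)
    (T : Periodic 0 (oa p q) (ob p q) (ia p q F) (ib p q F) A B C) :
    ∃ z₀ z₁ z₂ : ℂ, ‖z₀‖ = 1 ∧ ‖z₁‖ = 1 ∧ ‖z₂‖ = 1 ∧ A = L p q z₀ ∧ B = L p q z₁ ∧ C = L p q z₂ ∧
      z₀ ≠ z₁ ∧ z₁ ≠ z₂ ∧ z₂ ≠ z₀ ∧ z₀ * z₁ + z₀ * z₂ + z₁ * z₂ = -F := by
  have hm : ∀ A : ℂ, A ∈ Ell 0 (oa p q) (ob p q) → ∃ z, ‖z‖ = 1 ∧ A = L p q z := by
    intro A hA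
    obtain ⟨z, hz⟩ := L_surj h A
    refine ⟨z, ?_, hz.symm⟩
    rw [Ell, Set.mem_ofPred_eq, sub_zero, ← hz, qf_out h] at hA
    nlinarith [norm_nonneg z]
  obtain ⟨z₀, n0, rfl⟩ := hm A T.memA
  obtain ⟨z₁, n1, rfl⟩ := hm B T.memB
  obtain ⟨z₂, n2, rfl⟩ := hm C T.memC
  obtain ⟨t1, t2, t3, -⟩ := T.tri
  have d01 : z₀ ≠ z₁ := by
    rintro rfl
    rw [sub_self, norm_zero] at t3
    exact lt_irrefl _ t3
  have d12 : z₁ ≠ z₂ := by
    rintro rfl
    rw [sub_self, norm_zero] at t1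
    exact lt_irrefl _ t1
  have d20 : z₂ ≠ z₀ := by
    rintro rfl
    rw [sub_self, norm_zero] at t2
    exact lt_irrefl _ t2
  refine ⟨z₀, z₁, z₂, n0, n1, n2, rfl, rfl, rfl, d01, d12, d20, ?_⟩
  have h01 := T.tanAB
  have h20 := T.tanCA
  simp only [mem_in h hF] at h01 h20
  have c1 := chord n0 n1 hF d01 h01
  have c2 := chord n2 n0 hF d20 h20
  have c2' : (F + z₀ * z₂) * ((starRingEnd ℂ) F + (starRingEnd ℂ) z₀ * (starRingEnd ℂ) z₂) =
      (z₀ + z₂) * ((starRingEnd ℂ) z₀ + (starRingEnd ℂ) z₂) := by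
    linear_combination c2
  exact two_chords n0 n1 n2 hF d12 c1 c2'

theorem cj1 {z : ℂ} (hz : ‖z‖ = 1) : z * (starRingEnd ℂ) z = 1 := by rw [← nsq, hz]; norm_num

/-- one of the two orders is positively oriented -/
theorem orient {F z₀ z₁ z₂ : ℂ} (n0 : ‖z₀‖ = 1) (n1 : ‖z₁‖ = 1) (n2 : ‖z₂‖ = 1) (d01 : z₀ ≠ z₁) (d12 : z₁ ≠ z₂)
    (d20 : z₂ ≠ z₀) (hs : z₀ * z₁ + z₀ * z₂ + z₁ * z₂ = -F) : Tz F z₀ z₁ z₂ ∨ Tz F z₀ z₂ z₁ := by
  have h1 := or_formula (cj1 n0) (cj1 n1) (cj1 n2)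
  have hne : ‖Pc z₀ z₁ z₂‖ ≠ ‖Rc z₀ z₁ z₂‖ := by
    intro h0
    rw [h0, sub_self, ofReal_zero, mul_zero, zero_mul] at h1
    have := mul_ne_zero ω_sub_cj (mul_ne_zero (mul_ne_zero (sub_ne_zero.2 d01) (sub_ne_zero.2 d12)) (sub_ne_zero.2 d20))
    exact this h1.symm
  rcases lt_or_gt_of_ne hne with hlt | hgt
  · right
    exact ⟨n0, n2, n1, by rw [Pc_swap, Rc_swap]; exact hlt, by rw [← hs]; ring⟩
  · left
    exact ⟨n0, n1, n2, hgt, hs⟩

end PS82

open PS82 P82 in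
/-- Row SURJ. -/
theorem pairS82 (f : ℝ → ℝ → ℝ → ℝ) (hf : IsCenterFunction f)
    (hyp : ∀ o α β α' β', PonceletPair o α β α' β' → NonAligned β β' → EllipticLocus f o α β α' β') :
    HHs (shp f) := by
  intro p q F h hF hn
  obtain ⟨y₁, y₂, T⟩ := fam41 F 1 hF (by simp)
  obtain ⟨hw, o₁, α₁, β₁, hlt, hset⟩ := hyp _ _ _ _ _ (pair_L h hF T) (nonal h hF hn)
  have hmem : ∀ z₀ z₁ z₂, Tz F z₀ z₁ z₂ → center f (L p q z₀) (L p q z₁) (L p q z₂) ∈ Ell o₁ α₁ β₁ := by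
    intro z₀ z₁ z₂ T
    rw [← hset]
    exact ⟨_, _, _, periodic_L h hF T, rfl⟩
  have ho : o₁ = 0 := by
    apply center_zero hlt _ (hmem _ _ _ T)
    intro z hz
    rw [← hset] at hz ⊢
    obtain ⟨A, B, C, hP, rfl⟩ := hz
    exact ⟨_, _, _, periodic_neg hP, (center_neg f A B C).symm⟩
  subst ho
  have hX : ∀ z₀ z₁ z₂, Tz F z₀ z₁ z₂ →
      center f (L p q z₀) (L p q z₁) (L p q z₂) = Xh (shp f) (L p q z₀) (L p q z₁) (L p q z₂) := by
    intro z₀ z₁ z₂ T'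
    exact center_Xh hf (or_L h T'.or) (hw _ _ _ (periodic_L h hF T'))
  refine ⟨α₁, β₁, hlt, ?_, ?_⟩
  · intro z₀ z₁ z₂ T'
    have := hmem _ _ _ T'
    rwa [Ell, Set.mem_ofPred_eq, sub_zero, hX _ _ _ T'] at this
  · intro Y hY
    have hY' : Y ∈ Ell 0 α₁ β₁ := by rw [Ell, Set.mem_ofPred_eq, sub_zero]; exact hY
    rw [← hset] at hY'
    obtain ⟨A, B, C, hP, rfl⟩ := hY'
    obtain ⟨z₀, z₁, z₂, n0, n1, n2, rfl, rfl, rfl, d01, d12, d20, hs⟩ := conv h hF hP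
    rcases orient n0 n1 n2 d01 d12 d20 hs with T' | T'
    · exact ⟨z₀, z₁, z₂, T', (hX _ _ _ T').symm⟩
    · refine ⟨z₀, z₂, z₁, T', ?_⟩
      rw [← hX _ _ _ T', center_swap hf hP.tri]

end Pool.Agent.Pon30
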