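import Pool.Agent.Pon30.StmtsV30
import Pool.Agent.Pon30.PairS82
import Pool.Agent.Pon30.FinalC34
import Pool.Agent.Pon30.LamC41
import Pool.Agent.Pon30.LocP93

/-!
# MP_02df19_gt: the converse, assembly
-/

set_option autoImplicit false

namespace Pool.Agent.Pon30

open Complex

/-- the circumcentre exists -/
lemma circ_exists30 {w₀ w₁ w₂ : ℂ} (h : ‖Rc w₀ w₁ w₂‖ < ‖Pc w₀ w₁ w₂‖) :
    ∃ O : ℂ, ‖O - w₀‖ = ‖O - w₁‖ ∧ ‖O - w₁‖ = ‖O - w₂‖ := by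
  have hPP : Pc w₀ w₁ w₂ * (starRingEnd ℂ) (Pc w₀ w₁ w₂) -
      Rc w₀ w₁ w₂ * (starRingEnd ℂ) (Rc w₀ w₁ w₂) ≠ 0 := by
    rw [← nsq, ← nsq]
    have h1 : 0 < ‖Pc w₀ w₁ w₂‖ ^ 2 - ‖Rc w₀ w₁ w₂‖ ^ 2 := by
      nlinarith [norm_nonneg (Rc w₀ w₁ w₂), norm_nonneg (Pc w₀ w₁ w₂)]
    exact_mod_cast h1.ne'
  have g0 := w0_eq w₀ w₁ w₂
  have g1 := w1_eq w₀ w₁ w₂
  have g2 := w2_eq w₀ w₁ w₂
  set G := Gc w₀ w₁ w₂ with hG
  set P := Pc w₀ w₁ w₂ with hP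
  set R := Rc w₀ w₁ w₂ with hR
  set v := (P ^ 2 * (starRingEnd ℂ) R - (starRingEnd ℂ) P * R ^ 2) /
      (P * (starRingEnd ℂ) P - R * (starRingEnd ℂ) R) with hv
  have hvc : (starRingEnd ℂ) v = ((starRingEnd ℂ) P ^ 2 * R - P * (starRingEnd ℂ) R ^ 2) /
      (P * (starRingEnd ℂ) P - R * (starRingEnd ℂ) R) := by
    rw [hv]
    simp only [map_div₀, map_sub, map_mul, map_pow, Complex.conj_conj]
    congr 1
    ring
  have k1 : v * (P * (starRingEnd ℂ) P - R * (starRingEnd ℂ) R) =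
      P ^ 2 * (starRingEnd ℂ) R - (starRingEnd ℂ) P * R ^ 2 := by rw [hv]; exact div_mul_cancel₀ _ hPP
  have k2 : (starRingEnd ℂ) v * (P * (starRingEnd ℂ) P - R * (starRingEnd ℂ) R) =
      (starRingEnd ℂ) P ^ 2 * R - P * (starRingEnd ℂ) R ^ 2 := by rw [hvc]; exact div_mul_cancel₀ _ hPP
  have r1 : (starRingEnd ℂ) P * R - v * (starRingEnd ℂ) R - (starRingEnd ℂ) v * P = 0 := by
    refine (mul_eq_zero.1 ?_).resolve_right hPP
    linear_combination (-(starRingEnd ℂ) R) * k1 - P * k2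
  have r2 : P * (starRingEnd ℂ) R - v * (starRingEnd ℂ) P - (starRingEnd ℂ) v * R = 0 := by
    refine (mul_eq_zero.1 ?_).resolve_right hPP
    linear_combination (-(starRingEnd ℂ) P) * k1 - R * k2
  have d0 : G + v - w₀ = v - P - R := by rw [g0]; ring
  have d1 : G + v - w₁ = v - P * ω - R * (starRingEnd ℂ) ω := by rw [g1]; ring
  have d2 : G + v - w₂ = v - P * (starRingEnd ℂ) ω - R * ω := by rw [g2]; ring
  have a1 := ω_mul_cj
  have a2 := ω_sq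
  have a3 := cjω_sq
  have e0 : ((‖v - P - R‖ ^ 2 : ℝ) : ℂ) = v * (starRingEnd ℂ) v + P * (starRingEnd ℂ) P + R * (starRingEnd ℂ) R := by
    rw [nsq]
    simp only [map_sub]
    linear_combination r1 + r2
  have e1 : ((‖v - P * ω - R * (starRingEnd ℂ) ω‖ ^ 2 : ℝ) : ℂ) =
      v * (starRingEnd ℂ) v + P * (starRingEnd ℂ) P + R * (starRingEnd ℂ) R := by
    rw [nsq]
    simp only [map_sub, map_mul, Complex.conj_conj]
    linear_combination (P * (starRingEnd ℂ) P + R * (starRingEnd ℂ) R) * a1 + P * (starRingEnd ℂ) R * a2 +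
      R * (starRingEnd ℂ) P * a3 + r1 * ω + r2 * (starRingEnd ℂ) ω
  have e2 : ((‖v - P * (starRingEnd ℂ) ω - R * ω‖ ^ 2 : ℝ) : ℂ) =
      v * (starRingEnd ℂ) v + P * (starRingEnd ℂ) P + R * (starRingEnd ℂ) R := by
    rw [nsq]
    simp only [map_sub, map_mul, Complex.conj_conj]
    linear_combination (P * (starRingEnd ℂ) P + R * (starRingEnd ℂ) R) * a1 + P * (starRingEnd ℂ) R * a3 +
      R * (starRingEnd ℂ) P * a2 + r1 * (starRingEnd ℂ) ω + r2 * ω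
  refine ⟨G + v, ?_, ?_⟩
  · rw [d0, d1]
    have : ‖v - P - R‖ ^ 2 = ‖v - P * ω - R * (starRingEnd ℂ) ω‖ ^ 2 := by exact_mod_cast e0.trans e1.symm
    exact (pow_left_inj₀ (norm_nonneg _) (norm_nonneg _) two_ne_zero).1 this
  · rw [d1, d2]
    have : ‖v - P * ω - R * (starRingEnd ℂ) ω‖ ^ 2 = ‖v - P * (starRingEnd ℂ) ω - R * ω‖ ^ 2 := by
      exact_mod_cast e1.trans e2.symm
    exact (pow_left_inj₀ (norm_nonneg _) (norm_nonneg _) two_ne_zero).1 this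

/-- `Xh (hκ κ)` is `X₂ + κ (X₃ - X₂)` -/
lemma Xh_circ30 (κ : ℝ) {w₀ w₁ w₂ O : ℂ} (h : ‖Rc w₀ w₁ w₂‖ < ‖Pc w₀ w₁ w₂‖) (h01 : ‖O - w₀‖ = ‖O - w₁‖)
    (h12 : ‖O - w₁‖ = ‖O - w₂‖) : Xh (hκ κ) w₀ w₁ w₂ = (1 - κ) * ((w₀ + w₁ + w₂) / 3) + κ * O := by
  have hP : Pc w₀ w₁ w₂ ≠ 0 := by
    intro h0
    rw [h0, norm_zero] at h
    exact absurd h (not_lt.2 (norm_nonneg _))
  unfold Xh
  have hcirc := circum34 h01 h12
  have hG : (w₀ + w₁ + w₂) / 3 = Gc w₀ w₁ w₂ := rfl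
  rw [hG]
  have hPP : Pc w₀ w₁ w₂ * (starRingEnd ℂ) (Pc w₀ w₁ w₂) -
      Rc w₀ w₁ w₂ * (starRingEnd ℂ) (Rc w₀ w₁ w₂) ≠ 0 := by
    rw [← nsq, ← nsq]
    have h1 : 0 < ‖Pc w₀ w₁ w₂‖ ^ 2 - ‖Rc w₀ w₁ w₂‖ ^ 2 := by
      nlinarith [norm_nonneg (Rc w₀ w₁ w₂), norm_nonneg (Pc w₀ w₁ w₂)]
    exact_mod_cast h1.ne'
  have hP' : (starRingEnd ℂ) (Pc w₀ w₁ w₂) ≠ 0 := by
    intro h0
    exact hP (by simpa using h0)
  generalize Pc w₀ w₁ w₂ = P at *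
  generalize Rc w₀ w₁ w₂ = R at *
  generalize Gc w₀ w₁ w₂ = G at *
  have hO : O = G + (P ^ 2 * (starRingEnd ℂ) R - (starRingEnd ℂ) P * R ^ 2) /
      (P * (starRingEnd ℂ) P - R * (starRingEnd ℂ) R) := by
    rw [← hcirc, mul_div_assoc, div_self hPP]; ring
  have hsh : P * hκ κ (R / P) = κ * ((P ^ 2 * (starRingEnd ℂ) R - (starRingEnd ℂ) P * R ^ 2) /
      (P * (starRingEnd ℂ) P - R * (starRingEnd ℂ) R)) := by
    unfold hκ
    have e : ((1 - ‖R / P‖ ^ 2 : ℝ) : ℂ) =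
        (P * (starRingEnd ℂ) P - R * (starRingEnd ℂ) R) / (P * (starRingEnd ℂ) P) := by
      have e1 : ((1 - ‖R / P‖ ^ 2 : ℝ) : ℂ) = 1 - (R / P) * (starRingEnd ℂ) (R / P) := by
        rw [← nsq]; push_cast; ring
      rw [e1, map_div₀]
      field_simp
    rw [e, map_div₀]
    field_simp
  rw [hO, hsh]
  ring

/-- translation of a 3-periodic -/
lemma periodic_sub30 {o : ℂ} {α α' : ℝ} {β β' A B C : ℂ} (T : Periodic o α β α' β' A B C) :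
    Periodic 0 α β α' β' (A - o) (B - o) (C - o) := by
  have hm : ∀ (α : ℝ) (β A : ℂ), A ∈ Ell o α β → A - o ∈ Ell 0 α β := by
    intro α β A hA
    rw [Ell, Set.mem_ofPred_eq] at *
    rwa [sub_zero]
  have ht : ∀ (A B : ℂ), (∃! t : ℝ, A + t * (B - A) ∈ Ell o α' β') →
      ∃! t : ℝ, (A - o) + t * ((B - o) - (A - o)) ∈ Ell 0 α' β' := by
    intro A B hAB
    have e : ∀ t : ℝ, ((A - o) + t * ((B - o) - (A - o)) ∈ Ell 0 α' β') ↔ (A + t * (B - A) ∈ Ell o α' β') := by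
      intro t
      rw [Ell, Set.mem_ofPred_eq, Ell, Set.mem_ofPred_eq, sub_zero,
        show (A - o) + t * ((B - o) - (A - o)) = A + t * (B - A) - o by ring]
    simpa only [e] using hAB
  refine ⟨?_, hm _ _ _ T.memA, hm _ _ _ T.memB, hm _ _ _ T.memC, ht _ _ T.tanAB, ht _ _ T.tanBC, ht _ _ T.tanCA⟩
  have := T.tri
  rw [IsTriangle] at *
  simpa using this

/-- translation of a 3-periodic -/
lemma periodic_add30 {o : ℂ} {α α' : ℝ} {β β' A B C : ℂ} (T : Periodic 0 α β α' β' A B C) :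
    Periodic o α β α' β' (o + A) (o + B) (o + C) := by
  have hm : ∀ (α : ℝ) (β A : ℂ), A ∈ Ell 0 α β → o + A ∈ Ell o α β := by
    intro α β A hA
    rw [Ell, Set.mem_ofPred_eq, sub_zero] at hA
    rw [Ell, Set.mem_ofPred_eq, add_sub_cancel_left]
    exact hA
  have ht : ∀ (A B : ℂ), (∃! t : ℝ, A + t * (B - A) ∈ Ell 0 α' β') →
      ∃! t : ℝ, (o + A) + t * ((o + B) - (o + A)) ∈ Ell o α' β' := by
    intro A B hAB
    have e : ∀ t : ℝ, ((o + A) + t * ((o + B) - (o + A)) ∈ Ell o α' β') ↔ (A + t * (B - A) ∈ Ell 0 α' β') := by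
      intro t
      rw [Ell, Set.mem_ofPred_eq, Ell, Set.mem_ofPred_eq, sub_zero,
        show (o + A) + t * ((o + B) - (o + A)) - o = A + t * (B - A) by ring]
    simpa only [e] using hAB
  refine ⟨?_, hm _ _ _ T.memA, hm _ _ _ T.memB, hm _ _ _ T.memC, ht _ _ T.tanAB, ht _ _ T.tanBC, ht _ _ T.tanCA⟩
  have := T.tri
  rw [IsTriangle] at *
  simpa using this

open PS82 P82 in
/-- the centre of a 3-periodic of the pair `p`, `q`, `F` with centre `o`, from the formula for all triangles -/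
lemma key30 {f : ℝ → ℝ → ℝ → ℝ} {κ : ℝ}
    (hform : ∀ A B C : ℂ, IsTriangle A B C → wsum f A B C ≠ 0 ∧
      ∀ O : ℂ, ‖O - A‖ = ‖O - B‖ → ‖O - B‖ = ‖O - C‖ →
        center f A B C = (1 - κ) * ((A + B + C) / 3) + κ * O)
    {o p q F : ℂ} (h : ‖q‖ < ‖p‖) (hF : ‖F‖ < 1) {z₀ z₁ z₂ : ℂ} (T : Tz F z₀ z₁ z₂) {A B C : ℂ}
    (hA' : A = o + L p q z₀) (hB' : B = o + L p q z₁) (hC' : C = o + L p q z₂) :
    (IsTriangle A B C → center f A B C = o + (aκ κ p q F * (z₀ * z₁ * z₂) +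
      bκ κ p q F * (starRingEnd ℂ) (z₀ * z₁ * z₂))) ∧
    (IsTriangle A C B → center f A C B = o + (aκ κ p q F * (z₀ * z₁ * z₂) +
      bκ κ p q F * (starRingEnd ℂ) (z₀ * z₁ * z₂))) := by
  obtain ⟨O, h01, h12⟩ := circ_exists30 (or_L h T.or)
  have hX := locP93 κ p q F z₀ z₁ z₂ h hF T
  rw [Xh_circ30 κ (or_L h T.or) h01 h12] at hX
  have n0 : ‖o + O - A‖ = ‖O - L p q z₀‖ := by rw [hA', add_sub_add_left_eq_sub]
  have n1 : ‖o + O - B‖ = ‖O - L p q z₁‖ := by rw [hB', add_sub_add_left_eq_sub]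
  have n2 : ‖o + O - C‖ = ‖O - L p q z₂‖ := by rw [hC', add_sub_add_left_eq_sub]
  constructor
  · intro ht
    rw [(hform A B C ht).2 (o + O) (by rw [n0, n1, h01]) (by rw [n1, n2, h12]), ← hX, hA', hB', hC']
    ring
  · intro ht
    rw [(hform A C B ht).2 (o + O) (by rw [n0, n2, h01, h12]) (by rw [n1, n2, h12]), ← hX, hA', hB', hC']
    ring

open PS82 P82 in
/-- the centres of all 3-periodics -/
lemma centers30 {f : ℝ → ℝ → ℝ → ℝ} {κ : ℝ}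
    (hform : ∀ A B C : ℂ, IsTriangle A B C → wsum f A B C ≠ 0 ∧
      ∀ O : ℂ, ‖O - A‖ = ‖O - B‖ → ‖O - B‖ = ‖O - C‖ →
        center f A B C = (1 - κ) * ((A + B + C) / 3) + κ * O)
    {o p q F : ℂ} (h : ‖q‖ < ‖p‖) (hF : ‖F‖ < 1) {A B C : ℂ}
    (T : Periodic o (oa p q) (ob p q) (ia p q F) (ib p q F) A B C) :
    ∃ u : ℂ, ‖u‖ = 1 ∧ center f A B C = o + (aκ κ p q F * u + bκ κ p q F * (starRingEnd ℂ) u) := by
  obtain ⟨z₀, z₁, z₂, n0, n1, n2, e0, e1, e2, d01, d12, d20, hs⟩ := conv h hF (periodic_sub30 T)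
  have f0 : A = o + L p q z₀ := by rw [← e0]; ring
  have f1 : B = o + L p q z₁ := by rw [← e1]; ring
  have f2 : C = o + L p q z₂ := by rw [← e2]; ring
  have hu : ‖z₀ * z₁ * z₂‖ = 1 := by rw [norm_mul, norm_mul, n0, n1, n2]; norm_num
  rcases orient n0 n1 n2 d01 d12 d20 hs with T' | T'
  · exact ⟨z₀ * z₁ * z₂, hu, (key30 hform h hF T' f0 f1 f2).1 T.tri⟩
  · refine ⟨z₀ * z₁ * z₂, hu, ?_⟩
    rw [(key30 hform h hF T' f0 f2 f1).2 T.tri, show z₀ * z₂ * z₁ = z₀ * z₁ * z₂ by ring]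

open PS82 P82 in
/-- Row CONVV. -/
theorem convV30 (hN : NormV) (hA : AbV) (hE : EllV) : ConvV := by
  intro f κ hf hκ3 hform o α β α' β' hP hNA
  obtain ⟨p, q, F, h, hF, hn, rfl, rfl, rfl, rfl⟩ := hN o α β α' β' hP hNA
  obtain ⟨α₁, β₁, hlt, hset⟩ := hE o _ _ (hA κ p q F hκ3 h hF hn)
  refine ⟨fun A B C T => (hform A B C T.tri).1, o, α₁, β₁, hlt, ?_⟩
  rw [← hset]
  ext X
  constructor
  · rintro ⟨A, B, C, T, rfl⟩
    exact centers30 hform h hF T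
  · rintro ⟨u, hu, rfl⟩
    obtain ⟨z₀, z₁, z₂, T, rfl⟩ := lamC41 F u hF hu
    have hPer := periodic_add30 (o := o) (periodic_L h hF T)
    exact ⟨_, _, _, hPer, ((key30 hform h hF T rfl rfl rfl).1 hPer.tri).symm⟩

/-- the loci of a fixed combination of the centroid and the circumcentre lie on ellipses, segments or points -/
theorem convW30 (hN : NormV) {f : ℝ → ℝ → ℝ → ℝ} {κ : ℝ}
    (hform : ∀ A B C : ℂ, IsTriangle A B C → wsum f A B C ≠ 0 ∧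
      ∀ O : ℂ, ‖O - A‖ = ‖O - B‖ → ‖O - B‖ = ‖O - C‖ →
        center f A B C = (1 - κ) * ((A + B + C) / 3) + κ * O)
    (o : ℂ) (α : ℝ) (β : ℂ) (α' : ℝ) (β' : ℂ) (hP : PonceletPair o α β α' β') (hNA : NonAligned β β') :
    OnEllipse f o α β α' β' := by
  obtain ⟨p, q, F, h, hF, hn, rfl, rfl, rfl, rfl⟩ := hN o α β α' β' hP hNA
  refine ⟨o, aκ κ p q F, bκ κ p q F, fun A B C T => ⟨(hform A B C T.tri).1, ?_⟩⟩
  obtain ⟨u, hu, e⟩ := centers30 hform h hF T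
  exact ⟨u, hu, by rw [e]; ring⟩

end Pool.Agent.Pon30
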