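import Pool.Agent.Pon30.StmtsW

/-!
# MP_02df19_gt: the strong property of the shape function that the strict hypothesis gives

The centres over every non aligned pair fill a whole nondegenerate ellipse.
-/

set_option autoImplicit false

namespace Pool.Agent.Pon30

open Complex

/-- for every non aligned pair the centres of the 3-periodics lie on one nondegenerate ellipse with centre `0`, and
every point of this ellipse is a centre -/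
def HHs (h : ℂ → ℂ) : Prop :=
  ∀ p q F : ℂ, ‖q‖ < ‖p‖ → ‖F‖ < 1 → (p * (starRingEnd ℂ) q * F).im ≠ 0 →
    ∃ (α : ℝ) (β : ℂ), ‖β‖ < α ∧
      (∀ z₀ z₁ z₂, Tz F z₀ z₁ z₂ → qf α β (Xh h (L p q z₀) (L p q z₁) (L p q z₂)) = 1) ∧
      ∀ Y : ℂ, qf α β Y = 1 → ∃ z₀ z₁ z₂, Tz F z₀ z₁ z₂ ∧ Xh h (L p q z₀) (L p q z₁) (L p q z₂) = Y

theorem HHs.toHH {h : ℂ → ℂ} (hs : HHs h) : HH h := by
  intro p q F hpq hF ha
  obtain ⟨α, β, hβ, h1, -⟩ := hs p q F hpq hF ha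
  exact ⟨α, β, hβ, h1⟩

theorem HH.toHHw {h : ℂ → ℂ} (hs : HH h) : HHw h := by
  intro p q F hpq hF ha
  obtain ⟨α, β, hβ, h1⟩ := hs p q F hpq hF ha
  exact ⟨α, β, 1, hβ.le, zero_le_one, by linarith [norm_nonneg β], h1⟩

/-- continuous near `0`, with the symmetries; no jet -/
structure Shape0 (h : ℂ → ℂ) : Prop where
  cont : ∃ ε > 0, ∀ s : ℂ, ‖s‖ < ε → ContinuousAt h s
  conj : ∃ ε > 0, ∀ s : ℂ, ‖s‖ < ε → h ((starRingEnd ℂ) s) = (starRingEnd ℂ) (h s)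
  rot : ∃ ε > 0, ∀ s : ℂ, ‖s‖ < ε → h (ω * s) = (starRingEnd ℂ) ω * h s

/-- LIMS -/
def LimS : Prop := ∀ h : ℂ → ℂ, Shape0 h → HHw h →
  ∃ ρ > 0, ∀ p q F : ℝ, 0 < p → |q| < ρ * p → F ≠ 0 → |F| < ρ →
    ∃ a b c : ℝ, 0 ≤ a ∧ 0 ≤ b ∧ 0 ≤ c ∧ 0 < a + b + c ∧
      ∀ z₀ z₁ z₂, Tz F z₀ z₁ z₂ →
        a * (Xh h (L p q z₀) (L p q z₁) (L p q z₂)).re ^ 2 +
          b * (Xh h (L p q z₀) (L p q z₁) (L p q z₂)).im ^ 2 = c

end Pool.Agent.Pon30
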