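import Pool.Agent.Pon30.CenterC46
import Pool.Agent.Pon30.StmtsS82

/-! MP_02df19_gt: the shape function of a centre function that is continuous near the point `(1, 1, 1)`. -/

set_option autoImplicit false

namespace Pool.Agent.Pon30

open Complex Filter Topology

/-- continuity near `(1, 1, 1)` gives continuity near `(√3, √3, √3)` -/
theorem cont_sqrt3_30 {f : ℝ → ℝ → ℝ → ℝ} (hf : IsCenterFunction f)
    (hc : ∀ᶠ x in 𝓝 ((1, 1, 1) : ℝ × ℝ × ℝ), ContinuousAt (fun p : ℝ × ℝ × ℝ => f p.1 p.2.1 p.2.2) x) :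
    ∀ᶠ x in 𝓝 ((√3, √3, √3) : ℝ × ℝ × ℝ), ContinuousAt (fun p : ℝ × ℝ × ℝ => f p.1 p.2.1 p.2.2) x := by
  obtain ⟨n, hn⟩ := hf.hom
  have h3 : (0 : ℝ) < √3 := by positivity
  set φ : ℝ × ℝ × ℝ → ℝ × ℝ × ℝ := fun p => (√3)⁻¹ • p with hφ
  have hφd : Continuous φ := continuous_id.const_smul (√3)⁻¹
  have hφ1 : φ (√3, √3, √3) = (1, 1, 1) := by
    simp only [hφ, Prod.smul_mk, smul_eq_mul]
    rw [inv_mul_cancel₀ h3.ne']
  have ht : Tendsto φ (𝓝 (√3, √3, √3)) (𝓝 (1, 1, 1)) := by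
    have := hφd.tendsto (√3, √3, √3)
    rwa [hφ1] at this
  have hm : ∀ᶠ x in 𝓝 ((√3, √3, √3) : ℝ × ℝ × ℝ), x ∈ {p : ℝ × ℝ × ℝ | Tri p.1 p.2.1 p.2.2} := by
    apply isOpen_tri.mem_nhds
    exact ⟨h3, h3, h3, by simp only; linarith, by simp only; linarith, by simp only; linarith⟩
  filter_upwards [ht.eventually hc, hm] with x hx hxt
  have hcx : ContinuousAt (fun p => √3 ^ n * ((fun p : ℝ × ℝ × ℝ => f p.1 p.2.1 p.2.2) ∘ φ) p) x :=
    continuousAt_const.mul (ContinuousAt.comp hx hφd.continuousAt)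
  refine hcx.congr ?_
  filter_upwards [isOpen_tri.mem_nhds hxt] with p hp
  obtain ⟨a, b, c⟩ := p
  obtain ⟨p1, p2, p3, p4, p5, p6⟩ := hp
  simp only at p1 p2 p3 p4 p5 p6
  have hi : 0 < (√3)⁻¹ := inv_pos.2 h3
  have ht : Tri ((√3)⁻¹ * a) ((√3)⁻¹ * b) ((√3)⁻¹ * c) := by
    refine ⟨mul_pos hi p1, mul_pos hi p2, mul_pos hi p3, ?_, ?_, ?_⟩
    · rw [← mul_add]
      exact mul_lt_mul_of_pos_left p4 hi
    · rw [← mul_add]
      exact mul_lt_mul_of_pos_left p5 hi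
    · rw [← mul_add]
      exact mul_lt_mul_of_pos_left p6 hi
  have h4 := hn _ _ _ √3 ht h3
  have e : ∀ x : ℝ, √3 * ((√3)⁻¹ * x) = x := fun x => by
    rw [← mul_assoc, mul_inv_cancel₀ h3.ne', one_mul]
  rw [e, e, e] at h4
  simp only [Function.comp, hφ, Prod.smul_mk, smul_eq_mul]
  exact h4.symm

/-- the shape function is continuous near `0` -/
theorem shp_cont_near30 {f : ℝ → ℝ → ℝ → ℝ} (hf : IsCenterFunction f)
    (hc : ∀ᶠ x in 𝓝 ((1, 1, 1) : ℝ × ℝ × ℝ), ContinuousAt (fun p : ℝ × ℝ × ℝ => f p.1 p.2.1 p.2.2) x)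
    (hw : ∀ s : ℂ, ‖s‖ < 1 → wsum f (T0 s) (T1 s) (T2 s) ≠ 0) :
    ∃ ε > 0, ∀ s : ℂ, ‖s‖ < ε → ContinuousAt (shp f) s := by
  have hF := cont_sqrt3_30 hf hc
  obtain ⟨t1, t2, t3⟩ := T_norms
  obtain ⟨d0, d1, d2⟩ := contDiff_T 0
  have na : Continuous (fun t => ‖T1 t - T2 t‖) := (d1.continuous.sub d2.continuous).norm
  have nb : Continuous (fun t => ‖T2 t - T0 t‖) := (d2.continuous.sub d0.continuous).norm
  have nc : Continuous (fun t => ‖T0 t - T1 t‖) := (d0.continuous.sub d1.continuous).norm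
  have ha : Tendsto (fun t => (‖T1 t - T2 t‖, ‖T2 t - T0 t‖, ‖T0 t - T1 t‖)) (𝓝 0) (𝓝 (√3, √3, √3)) := by
    have := (na.prodMk (nb.prodMk nc)).tendsto 0
    rwa [t1, t2, t3] at this
  have hb : Tendsto (fun t => (‖T2 t - T0 t‖, ‖T0 t - T1 t‖, ‖T1 t - T2 t‖)) (𝓝 0) (𝓝 (√3, √3, √3)) := by
    have := (nb.prodMk (nc.prodMk na)).tendsto 0
    rwa [t1, t2, t3] at this
  have hc' : Tendsto (fun t => (‖T0 t - T1 t‖, ‖T1 t - T2 t‖, ‖T2 t - T0 t‖)) (𝓝 0) (𝓝 (√3, √3, √3)) := by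
    have := (nc.prodMk (na.prodMk nb)).tendsto 0
    rwa [t1, t2, t3] at this
  have h1 : ∀ᶠ s : ℂ in 𝓝 0, ‖s‖ < 1 :=
    (continuous_norm (E := ℂ)).continuousAt.eventually_lt_const (by simp)
  have hev : ∀ᶠ s in 𝓝 (0 : ℂ), ContinuousAt (shp f) s := by
    filter_upwards [ha.eventually hF, hb.eventually hF, hc'.eventually hF, h1] with s fa' fb' fc' hs
    have a0 : ContinuousAt T0 s := d0.continuous.continuousAt
    have a1 : ContinuousAt T1 s := d1.continuous.continuousAt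
    have a2 : ContinuousAt T2 s := d2.continuous.continuousAt
    have fa : ContinuousAt (fun t => f ‖T1 t - T2 t‖ ‖T2 t - T0 t‖ ‖T0 t - T1 t‖) s :=
      ContinuousAt.comp_of_eq fa' (na.prodMk (nb.prodMk nc)).continuousAt rfl
    have fb : ContinuousAt (fun t => f ‖T2 t - T0 t‖ ‖T0 t - T1 t‖ ‖T1 t - T2 t‖) s :=
      ContinuousAt.comp_of_eq fb' (nb.prodMk (nc.prodMk na)).continuousAt rfl
    have fc : ContinuousAt (fun t => f ‖T0 t - T1 t‖ ‖T1 t - T2 t‖ ‖T2 t - T0 t‖) s :=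
      ContinuousAt.comp_of_eq fc' (nc.prodMk (na.prodMk nb)).continuousAt rfl
    have wa := na.continuousAt.mul fa
    have wb := nb.continuousAt.mul fb
    have wc := nc.continuousAt.mul fc
    have cast : ∀ {g : ℂ → ℝ}, ContinuousAt g s → ContinuousAt (fun t => ((g t : ℝ) : ℂ)) s :=
      fun hg => Complex.continuous_ofReal.continuousAt.comp hg
    have ws : ContinuousAt (fun t => wsum f (T0 t) (T1 t) (T2 t)) s := by
      unfold wsum
      exact (wa.add wb).add wc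
    have num := (((cast wa).mul a0).add ((cast wb).mul a1)).add ((cast wc).mul a2)
    exact num.div (cast ws) (by exact_mod_cast hw s hs)
  obtain ⟨ε, hε, h⟩ := Metric.eventually_nhds_iff.1 hev
  exact ⟨ε, hε, fun s hs => h (by rwa [dist_zero_right])⟩

end Pool.Agent.Pon30
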