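import Pool.Agent.Pon30.AllS30
import Pool.Agent.Pon30.ShapeL30
import Pool.Agent.Pon30.ConvV30

/-!
# MP_02df19_gt: centre functions that are continuous near `(1, 1, 1)`, degenerate loci allowed
-/

set_option autoImplicit false

namespace Pool.Agent.Pon30

open Complex Filter Topology

/-- the result for centre functions that are continuous near the equilateral shape; the loci may be degenerate -/
theorem main_of_L (hReal : RealPosS) (f : ℝ → ℝ → ℝ → ℝ) (hf : IsCenterFunction f)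
    (hc : ∀ᶠ x in 𝓝 ((1, 1, 1) : ℝ × ℝ × ℝ), ContinuousAt (fun p : ℝ × ℝ × ℝ => f p.1 p.2.1 p.2.2) x)
    (hloc : ∀ o α β α' β', PonceletPair o α β α' β' → NonAligned β β' → OnEllipse f o α β α' β') :
    ∃ κ : ℝ, ∀ A B C : ℂ, IsTriangle A B C → wsum f A B C ≠ 0 ∧
      ∀ O : ℂ, ‖O - A‖ = ‖O - B‖ → ‖O - B‖ = ‖O - C‖ →
        center f A B C = (1 - κ) * ((A + B + C) / 3) + κ * O := by
  have hH : HHw (shp f) := hhw_shp pairW82 hf hloc
  have hw : ∀ s : ℂ, ‖s‖ < 1 → wsum f (T0 s) (T1 s) (T2 s) ≠ 0 := wsumC82 f hf hloc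
  have hS : Shape0 (shp f) := ⟨shp_cont_near30 hf hc hw, ⟨1, one_pos, fun s hs => shp_conj hf hs⟩,
    ⟨1, one_pos, fun s hs => shp_rot hf hs⟩⟩
  obtain ⟨κ, hε⟩ := coreS46 hReal arcStmt41 keyPosS30 keyFullS30 _ hS hH
  exact ⟨κ, finalC34 f κ hf fun s hs => ⟨hw s hs, globU _ κ hH hε s hs⟩⟩

/-- both directions -/
theorem iff_of_L (hReal : RealPosS) (hN : NormV) (f : ℝ → ℝ → ℝ → ℝ) (hf : IsCenterFunction f)
    (hc : ∀ᶠ x in 𝓝 ((1, 1, 1) : ℝ × ℝ × ℝ), ContinuousAt (fun p : ℝ × ℝ × ℝ => f p.1 p.2.1 p.2.2) x) :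
    (∀ (o : ℂ) (α : ℝ) (β : ℂ) (α' : ℝ) (β' : ℂ), PonceletPair o α β α' β' → NonAligned β β' →
      OnEllipse f o α β α' β') ↔
    ∃ κ : ℝ, ∀ A B C : ℂ, IsTriangle A B C → wsum f A B C ≠ 0 ∧
      ∀ O : ℂ, ‖O - A‖ = ‖O - B‖ → ‖O - B‖ = ‖O - C‖ →
        center f A B C = (1 - κ) * ((A + B + C) / 3) + κ * O :=
  ⟨main_of_L hReal f hf hc, fun ⟨_, hform⟩ => convW30 hN hform⟩

end Pool.Agent.Pon30
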