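import Pool.Agent.Pon30.StmtsS82
import Pool.Agent.Pon30.StmtsC

/-!
# MP_02df19_gt, arbitrary centre functions: interface statements of the last part

`Shape0 h`: `h` is continuous near `0` and has the symmetries of a shape function; no differentiability.
-/

set_option autoImplicit false

namespace Pool.Agent.Pon30

open Complex

/-- REALPOSS -/
def RealPosS : Prop := ∀ h : ℂ → ℂ, Shape0 h → HHw h →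
  ∃ κ : ℝ, ∃ δ > 0, ∀ x : ℝ, 0 ≤ x → x < δ → h x = hκ κ x

/-- KEYPOSS -/
def KeyPosS : Prop := ∀ h : ℂ → ℂ, Shape0 h → HHw h → ∀ κ : ℝ,
  (∃ δ > 0, ∀ x : ℝ, 0 ≤ x → x < δ → h x = hκ κ x) →
  ∃ K > 0, ∃ t₀ > 0, ∀ (t : ℝ) (s o : ℂ), 0 < t → t < t₀ → ‖s‖ ≤ t ^ 2 → ‖h s‖ ≤ t / 12 → t / 2 ≤ ‖o‖ →
    ‖o‖ ≤ 2 * t → cub s o = 0 → ‖s‖ ^ 2 < (s * (starRingEnd ℂ) o ^ 2).re →
    |((starRingEnd ℂ) (h s - hκ κ s) * (h s + hκ κ s - 2 * o)).re| ≤ K * t ^ 2 * ‖h s - hκ κ s‖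

/-- KEYFULLS -/
def KeyFullS : Prop := ∀ h : ℂ → ℂ, Shape0 h → HHw h → ∀ κ : ℝ,
  (∃ δ > 0, ∀ x : ℝ, |x| < δ → h x = hκ κ x) →
  ∃ K > 0, ∃ t₀ > 0, ∀ (t : ℝ) (s o : ℂ), 0 < t → t < t₀ → ‖s‖ ≤ t ^ 2 → ‖h s‖ ≤ t / 12 → t / 2 ≤ ‖o‖ →
    ‖o‖ ≤ 2 * t → cub s o = 0 →
    |((starRingEnd ℂ) (h s - hκ κ s) * (h s + hκ κ s - 2 * o)).re| ≤ K * t ^ 2 * ‖h s - hκ κ s‖

/-- CORES -/
def CoreS : Prop := ∀ h : ℂ → ℂ, Shape0 h → HHw h →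
  ∃ κ : ℝ, ∃ ε > 0, ∀ s : ℂ, ‖s‖ < ε → h s = hκ κ s

/-- CONTS: the shape function of a centre whose loci are whole ellipses is continuous near the equilateral shape -/
def ContS : Prop := ∀ h : ℂ → ℂ, HHs h →
  (∀ s : ℂ, ‖s‖ < 1 → h ((starRingEnd ℂ) s) = (starRingEnd ℂ) (h s)) →
  (∀ s : ℂ, ‖s‖ < 1 → h (ω * s) = (starRingEnd ℂ) ω * h s) →
  ∃ ε > 0, ∀ s : ℂ, ‖s‖ < ε → ContinuousAt h s

end Pool.Agent.Pon30
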