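import Pool.Agent.Pon30.KeyC93
import Pool.Agent.Pon30.StmtsS30
import Pool.Agent.Pon30.LimS82

/-! # MP_02df19_gt, rows KEYPOSS and KEYFULLS: the rows of KeyC93 without any differentiability -/

set_option autoImplicit false

namespace Pool.Agent.Pon30

open Complex Filter Topology

/-- the argument of KEYW, for any way to get the values at the two isosceles triangles -/
theorem keyS_main (hConv : ConvStmt) (hEx : ExStmt) (hReal : RealStmt) (hLoc : LocStmt) {h : ℂ → ℂ} {κ : ℝ}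
    (hlim0 : ∃ ρ > 0, ∀ p q F : ℝ, 0 < p → |q| < ρ * p → F ≠ 0 → |F| < ρ →
      ∃ a b c : ℝ, 0 ≤ a ∧ 0 ≤ b ∧ 0 ≤ c ∧ 0 < a + b + c ∧
        ∀ z₀ z₁ z₂, Tz F z₀ z₁ z₂ →
          a * (Xh h (L p q z₀) (L p q z₁) (L p q z₂)).re ^ 2 +
            b * (Xh h (L p q z₀) (L p q z₁) (L p q z₂)).im ^ 2 = c)
    (G : ℂ → ℂ → Prop)
    (hval0 : ∃ ρ : ℝ, 0 < ρ ∧ ∀ (p q F : ℝ) (s o c y₀ y₁ y₂ : ℂ), G s o → 0 < p → |q| < p → |F| < 1 → |q| ≤ ρ * p →
      |F| ≤ ρ → ‖c‖ = 1 → Tz F y₀ y₁ y₂ → c * (T0 s - o) = L p q y₀ → c * (T1 s - o) = L p q y₁ →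
      c * (T2 s - o) = L p q y₂ →
      Xh h (L p q 1) (L p q (zu F)) (L p q ((starRingEnd ℂ) (zu F))) =
        ((-(1 - κ) * (F / 3) * (p + q) + κ * p * q * (1 - F) / (p + q) : ℝ) : ℂ) ∧
      Xh h (L p q (-I)) (L p q (zr F)) (L p q (zl F)) =
        ((-(1 - κ) * (F / 3) * (p - q) + κ * p * q * (1 + F) / (p - q) : ℝ) : ℂ) * I) :
    ∃ K > 0, ∃ t₀ > 0, ∀ (t : ℝ) (s o : ℂ), 0 < t → t < t₀ → ‖s‖ ≤ t ^ 2 → ‖h s‖ ≤ t / 12 → t / 2 ≤ ‖o‖ →
      ‖o‖ ≤ 2 * t → cub s o = 0 → G s o →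
      |((starRingEnd ℂ) (h s - hκ κ s) * (h s + hκ κ s - 2 * o)).re| ≤ K * t ^ 2 * ‖h s - hκ κ s‖ := by
  obtain ⟨ρ1, hρ1, hlim⟩ := hlim0
  obtain ⟨ρ2, hρ2, hval⟩ := hval0
  obtain ⟨ρ, hρ0, hρa, hρb, hρc⟩ : ∃ ρ : ℝ, 0 < ρ ∧ ρ ≤ ρ1 ∧ ρ ≤ 1 / 6 ∧ ρ ≤ ρ2 := by
    exact ⟨min ρ1 (min (1 / 6) ρ2), lt_min hρ1 (lt_min (by norm_num) hρ2), min_le_left _ _,
      (min_le_right _ _).trans (min_le_left _ _), (min_le_right _ _).trans (min_le_right _ _)⟩
  obtain ⟨ε1, hε1, hex⟩ := hEx ρ hρ0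
  have hκ0 := abs_nonneg κ
  set K1 : ℝ := 6000 * (1 + |κ|) with hK1
  have hK1pos : 0 < K1 := by positivity
  set t₀ : ℝ := min (ε1 / 4) (min (1 / (12 * K1)) (min (1 / (12 * (2 * |κ| + 1))) (1 / 4)))
    with ht₀
  have ht₀pos : 0 < t₀ := by
    rw [ht₀]
    refine lt_min (by positivity) (lt_min (by positivity) (lt_min (by positivity) (by norm_num)))
  refine ⟨12 * 5 * K1, by positivity, t₀, ht₀pos, ?_⟩
  intro t s o ht htt hs hhs' ho1 ho2 hcub hG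
  have t1 : t < ε1 / 4 := lt_of_lt_of_le htt (min_le_left _ _)
  have t3 : t < 1 / (12 * K1) := lt_of_lt_of_le htt ((min_le_right _ _).trans (min_le_left _ _))
  have t4 : t < 1 / (12 * (2 * |κ| + 1)) :=
    lt_of_lt_of_le htt ((min_le_right _ _).trans ((min_le_right _ _).trans (min_le_left _ _)))
  have t5 : t < 1 / 4 :=
    lt_of_lt_of_le htt ((min_le_right _ _).trans ((min_le_right _ _).trans (min_le_right _ _)))
  have hst : ‖s‖ ≤ t := hs.trans (by nlinarith)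
  have hs4 : ‖s‖ ≤ 1 / 4 := by linarith
  have hsn := norm_nonneg s
  have hhk : ‖hκ κ s‖ ≤ 2 * |κ| * ‖s‖ := keyW_hκ κ hs4
  have t4' : (2 * |κ| + 1) * t ≤ 1 / 12 := by
    have h1 : (0 : ℝ) < 12 * (2 * |κ| + 1) := by positivity
    rw [lt_div_iff₀ h1] at t4
    linarith
  have hsum : (2 * |κ|) * ‖s‖ ≤ t / 12 := by
    calc (2 * |κ|) * ‖s‖ ≤ (2 * |κ| + 1) * t ^ 2 := by
          have : (2 * |κ|) * ‖s‖ ≤ (2 * |κ| + 1) * ‖s‖ := by nlinarith
          refine this.trans ?_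
          gcongr
      _ = ((2 * |κ| + 1) * t) * t := by ring
      _ ≤ 1 / 12 * t := by gcongr
      _ = t / 12 := by ring
  have hhk' : ‖hκ κ s‖ ≤ t / 12 := by nlinarith
  have hKt : K1 * t ^ 2 ≤ t / 12 := by
    have h1 : (0 : ℝ) < 12 * K1 := by positivity
    rw [lt_div_iff₀ h1] at t3
    nlinarith
  obtain ⟨p, q, F, z₀, z₁, z₂, hpq, hqρ, hF1, hFρ, hz, e0, e1, e2⟩ := hex s o (by linarith) (by linarith)
  have hal := hConv s o p q F z₀ z₁ z₂ (by linarith) hpq hF1 hz e0 e1 e2 hcub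
  have hpn := norm_nonneg p
  obtain ⟨z1, z2, z3, z4, z5⟩ := keyW_sizes hz (hqρ.le.trans (by gcongr)) (hFρ.le.trans hρb) e0 e1 e2 hst ho2
  have ho0 : o ≠ 0 := by
    intro h0
    rw [h0, norm_zero] at ho1
    linarith
  have hF0 := z5 ho0
  obtain ⟨c, p', q', F', y₀, y₁, y₂, hc, hp', hq', hF', hy, g0, g1, g2⟩ := hReal p q F z₀ z₁ z₂ hpq hF0 hal hz
  have hp0 : 0 < p' := by rw [hp']; linarith
  have hqa : |q'| < p' := by rw [hq', hp']; exact hpq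
  have hqb : |q'| < ρ * p' := by rw [hq', hp']; exact hqρ
  have hFa : |F'| < 1 := by rw [hF']; exact hF1
  have hFb : |F'| < ρ := by rw [hF']; exact hFρ
  have hF0' : F' ≠ 0 := by
    intro h0
    rw [h0, abs_zero] at hF'
    exact hF0 (norm_eq_zero.1 hF'.symm)
  have hc0 : c ≠ 0 := by
    intro h0; rw [h0, norm_zero] at hc; exact zero_ne_one hc
  have key : ∀ f : ℂ → ℂ, Xh f (L p' q' y₀) (L p' q' y₁) (L p' q' y₂) = c * (f s - o) := by
    intro f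
    rw [← g0, ← g1, ← g2, ← e0, ← e1, ← e2, Xh_smul _ _ _ _ _ hc0, Xh_sub, Xh_T]
  obtain ⟨a, b, c', ha, hb, hc', habc, hq⟩ := hlim p' q' F' hp0
    (lt_of_lt_of_le hqb (mul_le_mul_of_nonneg_right hρa hp0.le)) hF0' (lt_of_lt_of_le hFb hρa)
  have g0' : c * (T0 s - o) = L p' q' y₀ := by rw [e0, g0]
  have g1' : c * (T1 s - o) = L p' q' y₁ := by rw [e1, g1]
  have g2' : c * (T2 s - o) = L p' q' y₂ := by rw [e2, g2]
  obtain ⟨v1, v2⟩ := hval p' q' F' s o c y₀ y₁ y₂ hG hp0 hqa hFa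
    (hqb.le.trans (mul_le_mul_of_nonneg_right hρc hp0.le)) (hFb.le.trans hρc) hc hy g0' g1' g2'
  have hdiff := keyW_diff (κ := κ) (p := p') (q := q') (F := F') (t := t) (by rw [hp']; exact z1)
    (by rw [hp']; exact z2) ht.le (by rw [hq']; exact z4) (by rw [hF']; exact z3)
    (hqb.le.trans (by gcongr))
  have hfin := hLoc p' q' F' κ y₀ y₁ y₂ hqa hFa hy
  set x : ℝ := -(1 - κ) * (F' / 3) * (p' + q') + κ * p' * q' * (1 - F') / (p' + q') with hxdef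
  set y : ℝ := -(1 - κ) * (F' / 3) * (p' - q') + κ * p' * q' * (1 + F') / (p' - q') with hydef
  have r0 := hq y₀ y₁ y₂ hy
  have r1 := hq _ _ _ (tz_first hFa)
  have r2 := hq _ _ _ (tz_second hFa)
  rw [key h] at r0
  rw [v1, ofReal_re, ofReal_im] at r1
  rw [v2, re_ofReal_mul, im_ofReal_mul, I_re, I_im] at r2
  have hx : a * x ^ 2 = c' := by linarith
  have hy' : b * y ^ 2 = c' := by linarith
  have hlam := hy.lam_norm
  rw [key] at hfin
  set lam := y₀ * y₁ * y₂ with hlamdef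
  have hlam2 : lam.re ^ 2 + lam.im ^ 2 = 1 := by
    have := nsq_re lam
    rw [hlam] at this
    linarith
  have vre : (c * (hκ κ s - o)).re = lam.re * x := by
    rw [hfin]; simp
  have vim : (c * (hκ κ s - o)).im = lam.im * y := by
    rw [hfin]; simp
  have r3 : a * (c * (hκ κ s - o)).re ^ 2 + b * (c * (hκ κ s - o)).im ^ 2 = c' := by
    rw [vre, vim]
    linear_combination lam.re ^ 2 * hx + lam.im ^ 2 * hy' + c' * hlam2
  -- size of the axes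
  have hvn : t / 3 ≤ ‖c * (hκ κ s - o)‖ := by
    rw [norm_mul, hc, one_mul]
    have := norm_sub_norm_le o (hκ κ s)
    rw [norm_sub_rev] at this
    linarith
  have hvn2 : (t / 3) ^ 2 ≤ lam.re ^ 2 * x ^ 2 + lam.im ^ 2 * y ^ 2 := by
    have h1 := nsq_re (c * (hκ κ s - o))
    rw [vre, vim] at h1
    have h2 : (t / 3) ^ 2 ≤ ‖c * (hκ κ s - o)‖ ^ 2 := by gcongr
    have h3 : (lam.re * x) ^ 2 + (lam.im * y) ^ 2 = lam.re ^ 2 * x ^ 2 + lam.im ^ 2 * y ^ 2 := by ring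
    linarith
  have hxy : t / 3 ≤ |x| ∨ t / 3 ≤ |y| := by
    by_contra hcon
    push Not at hcon
    obtain ⟨h1, h2⟩ := hcon
    have h3 : x ^ 2 < (t / 3) ^ 2 := by rw [← sq_abs]; gcongr
    have h4 : y ^ 2 < (t / 3) ^ 2 := by rw [← sq_abs]; gcongr
    have h5 := sq_nonneg lam.re
    have h6 := sq_nonneg lam.im
    have h7 : lam.re ^ 2 * x ^ 2 ≤ lam.re ^ 2 * max (x ^ 2) (y ^ 2) := by
      gcongr; exact le_max_left _ _
    have h8 : lam.im ^ 2 * y ^ 2 ≤ lam.im ^ 2 * max (x ^ 2) (y ^ 2) := by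
      gcongr; exact le_max_right _ _
    have h9 : lam.re ^ 2 * max (x ^ 2) (y ^ 2) + lam.im ^ 2 * max (x ^ 2) (y ^ 2) = max (x ^ 2) (y ^ 2) := by
      rw [← add_mul, hlam2, one_mul]
    have h10 : max (x ^ 2) (y ^ 2) < (t / 3) ^ 2 := max_lt h3 h4
    linarith
  have hd12 : |x - y| ≤ t / 12 := hdiff.trans hKt
  have hxy4 : t / 4 ≤ |x| ∧ t / 4 ≤ |y| := by
    have h1 := abs_sub_abs_le_abs_sub x y
    have h2 := abs_sub_abs_le_abs_sub y x
    rw [abs_sub_comm y x] at h2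
    rcases hxy with h3 | h3
    · constructor <;> linarith
    · constructor <;> linarith
  have huv : ‖c * (h s - o) + c * (hκ κ s - o)‖ ≤ 5 * t := by
    have e : c * (h s - o) + c * (hκ κ s - o) = c * ((h s + hκ κ s) - 2 * o) := by ring
    rw [e, norm_mul, hc, one_mul]
    have h1 := norm_sub_le (h s + hκ κ s) (2 * o)
    have h2 := norm_add_le (h s) (hκ κ s)
    rw [norm_mul] at h1
    have h3 : ‖(2 : ℂ)‖ = 2 := by norm_num
    rw [h3] at h1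
    linarith
  have hmain := keyW_ellipse (u := c * (h s - o)) (v := c * (hκ κ s - o)) hc' habc hx hy' r0 r3 ht
    hK1pos.le hKt hdiff hxy4.1 hxy4.2 huv (by norm_num)
  have hcc : c * (starRingEnd ℂ) c = 1 := by rw [← nsq, hc]; norm_num
  have e3 : (starRingEnd ℂ) (c * (h s - o) - c * (hκ κ s - o)) * (c * (h s - o) + c * (hκ κ s - o))
      = (starRingEnd ℂ) (h s - hκ κ s) * (h s + hκ κ s - 2 * o) := by
    have e4 : c * (h s - o) - c * (hκ κ s - o) = c * (h s - hκ κ s) := by ring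
    rw [e4, map_mul]
    linear_combination ((starRingEnd ℂ) (h s - hκ κ s) * (h s + hκ κ s - 2 * o)) * hcc
  have e5 : ‖c * (h s - o) - c * (hκ κ s - o)‖ = ‖h s - hκ κ s‖ := by
    have e4 : c * (h s - o) - c * (hκ κ s - o) = c * (h s - hκ κ s) := by ring
    rw [e4, norm_mul, hc, one_mul]
  rw [e3, e5] at hmain
  exact hmain



theorem keyFullS30 : KeyFullS := by
  intro h hS hH κ hax0
  obtain ⟨δ, hδ, hax⟩ := hax0
  have hm := keyS_main Cv37.conv37' E37.ex37 realStmt locStmt93 (κ := κ) (limS82 h hS hH) (fun _ _ => True)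
    ⟨min (1 / 6) (δ / 4), lt_min (by norm_num) (by positivity), by
      intro p q F s o c y₀ y₁ y₂ _ hp hq hF hq' hF' _ _ _ _ _
      have hρ1 : min (1 / 6) (δ / 4) ≤ 1 / 6 := min_le_left _ _
      have hρ2 : min (1 / 6) (δ / 4) ≤ δ / 4 := min_le_right _ _
      exact real_pair hax locStmt93 hp hq hF (by linarith) (by linarith) hq' hF'⟩
  obtain ⟨K, hK, t₀, ht₀, hmain⟩ := hm
  exact ⟨K, hK, t₀, ht₀, fun t s o a b c d e f g => hmain t s o a b c d e f g trivial⟩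

theorem keyPosS30 : KeyPosS := by
  intro h hS hH κ hax0
  obtain ⟨δ, hδ, hax⟩ := hax0
  have hm := keyS_main Cv37.conv37' E37.ex37 realStmt locStmt93 (κ := κ) (limS82 h hS hH)
    (fun s o => ‖s‖ ^ 2 < (s * (starRingEnd ℂ) o ^ 2).re)
    ⟨min (1 / 6) (δ / 4), lt_min (by norm_num) (by positivity), by
      intro p q F s o c y₀ y₁ y₂ hG hp hq hF hq' hF' hc hy g0 g1 g2
      have hρ1 : min (1 / 6) (δ / 4) ≤ 1 / 6 := min_le_left _ _
      have hρ2 : min (1 / 6) (δ / 4) ≤ δ / 4 := min_le_right _ _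
      obtain ⟨E1, E2⟩ := keyC_pos hF hc hy g0 g1 g2 hG
      exact real_pair_pos hax locStmt93 hp hq hF (by linarith) (by linarith) hq' hF' E1 E2⟩
  obtain ⟨K, hK, t₀, ht₀, hmain⟩ := hm
  exact ⟨K, hK, t₀, ht₀, fun t s o a b c d e f g i => hmain t s o a b c d e f g i⟩

end Pool.Agent.Pon30
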