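import Pool.Agent.Pon30.AllUU46
import Pool.Agent.Pon30.PairS82
import Pool.Agent.Pon30.CoreS30
import Pool.Agent.Pon30.KeyS30

/-!
# MP_02df19_gt: assembly of the full answer

`f` is an arbitrary centre function; over every non-aligned concentric pair its locus is a whole nondegenerate ellipse.
-/

set_option autoImplicit false

namespace Pool.Agent.Pon30

open Complex

/-- The full answer from its two rows. -/
theorem main_of_S (hCont : ContS) (hReal : RealPosS) (f : ℝ → ℝ → ℝ → ℝ) (hf : IsCenterFunction f)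
    (hell : ∀ o α β α' β', PonceletPair o α β α' β' → NonAligned β β' → EllipticLocus f o α β α' β') :
    ∃ κ : ℝ, (κ = 0 ∨ κ = 1 ∨ κ = -2) ∧ ∀ A B C : ℂ, IsTriangle A B C → wsum f A B C ≠ 0 ∧
      ∀ O : ℂ, ‖O - A‖ = ‖O - B‖ → ‖O - B‖ = ‖O - C‖ →
        center f A B C = (1 - κ) * ((A + B + C) / 3) + κ * O := by
  have hloc : ∀ o α β α' β', PonceletPair o α β α' β' → NonAligned β β' → OnEllipse f o α β α' β' :=
    fun o α β α' β' hP hN => onEllipse_of_elliptic (hell o α β α' β' hP hN)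
  have hs : HHs (shp f) := pairS82 f hf hell
  have hH : HHw (shp f) := hs.toHH.toHHw
  have hconj : ∀ s : ℂ, ‖s‖ < 1 → shp f ((starRingEnd ℂ) s) = (starRingEnd ℂ) (shp f s) :=
    fun s h1 => shp_conj hf h1
  have hrot : ∀ s : ℂ, ‖s‖ < 1 → shp f (ω * s) = (starRingEnd ℂ) ω * shp f s := fun s h1 => shp_rot hf h1
  have hS : Shape0 (shp f) := ⟨hCont _ hs hconj hrot, ⟨1, one_pos, hconj⟩, ⟨1, one_pos, hrot⟩⟩
  obtain ⟨κ, hε⟩ := coreS46 hReal arcStmt41 keyPosS30 keyFullS30 _ hS hH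
  have h : ∀ s : ℂ, ‖s‖ < 1 → wsum f (T0 s) (T1 s) (T2 s) ≠ 0 ∧ shp f s = hκ κ s :=
    fun s h1 => ⟨wsumC82 f hf hloc s h1, globU _ κ hH hε s h1⟩
  exact ⟨κ, strictC37 f κ hf hell h, finalC34 f κ hf h⟩

end Pool.Agent.Pon30
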