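import Pool.Agent.Pon30.Center46

/-!
# Row FINAL: from the shape function near the equilateral shape to all triangles
-/

namespace Pool.Agent.Pon30

open Complex

/-- the numerator of the centre -/
noncomputable def num34 (f : ℝ → ℝ → ℝ → ℝ) (A B C : ℂ) : ℂ :=
  (‖B - C‖ * f ‖B - C‖ ‖C - A‖ ‖A - B‖ : ℝ) * A + (‖C - A‖ * f ‖C - A‖ ‖A - B‖ ‖B - C‖ : ℝ) * B +
    (‖A - B‖ * f ‖A - B‖ ‖B - C‖ ‖C - A‖ : ℝ) * C

variable {f : ℝ → ℝ → ℝ → ℝ}

lemma center_eq34 (A B C : ℂ) : center f A B C = num34 f A B C / (wsum f A B C : ℝ) := rfl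

/-- numerator and denominator of the shape function are analytic on the unit disc -/
lemma num_analytic34
    (ha : AnalyticOnNhd ℝ (fun p : ℝ × ℝ × ℝ => f p.1 p.2.1 p.2.2) {p | Tri p.1 p.2.1 p.2.2})
    {s : ℂ} (hs : ‖s‖ < 1) :
    AnalyticAt ℝ (fun t => ((wsum f (T0 t) (T1 t) (T2 t) : ℝ) : ℂ)) s ∧
      AnalyticAt ℝ (fun t => num34 f (T0 t) (T1 t) (T2 t)) s := by
  have ht := isTriangle_T hs
  have a0 : AnalyticAt ℝ T0 s := by
    unfold T0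
    fun_prop
  have a1 : AnalyticAt ℝ T1 s := by
    unfold T1
    fun_prop
  have a2 : AnalyticAt ℝ T2 s := by
    unfold T2
    fun_prop
  have na : AnalyticAt ℝ (fun t => ‖T1 t - T2 t‖) s :=
    analyticAt_norm' (a1.sub a2) (norm_pos_iff.1 ht.1)
  have nb : AnalyticAt ℝ (fun t => ‖T2 t - T0 t‖) s :=
    analyticAt_norm' (a2.sub a0) (norm_pos_iff.1 ht.2.1)
  have nc : AnalyticAt ℝ (fun t => ‖T0 t - T1 t‖) s :=
    analyticAt_norm' (a0.sub a1) (norm_pos_iff.1 ht.2.2.1)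
  have fa : AnalyticAt ℝ (fun t => f ‖T1 t - T2 t‖ ‖T2 t - T0 t‖ ‖T0 t - T1 t‖) s :=
    AnalyticAt.comp_of_eq (ha (‖T1 s - T2 s‖, ‖T2 s - T0 s‖, ‖T0 s - T1 s‖) ht)
      (na.prod (nb.prod nc)) rfl
  have fb : AnalyticAt ℝ (fun t => f ‖T2 t - T0 t‖ ‖T0 t - T1 t‖ ‖T1 t - T2 t‖) s :=
    AnalyticAt.comp_of_eq (ha (‖T2 s - T0 s‖, ‖T0 s - T1 s‖, ‖T1 s - T2 s‖) ht.cyc)
      (nb.prod (nc.prod na)) rfl
  have fc : AnalyticAt ℝ (fun t => f ‖T0 t - T1 t‖ ‖T1 t - T2 t‖ ‖T2 t - T0 t‖) s :=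
    AnalyticAt.comp_of_eq (ha (‖T0 s - T1 s‖, ‖T1 s - T2 s‖, ‖T2 s - T0 s‖) ht.cyc.cyc)
      (nc.prod (na.prod nb)) rfl
  have wa := na.mul fa
  have wb := nb.mul fb
  have wc := nc.mul fc
  have cast : ∀ {g : ℂ → ℝ}, AnalyticAt ℝ g s → AnalyticAt ℝ (fun t => ((g t : ℝ) : ℂ)) s :=
    fun hg => (Complex.ofRealCLM.analyticAt _).comp hg
  have ws : AnalyticAt ℝ (fun t => wsum f (T0 t) (T1 t) (T2 t)) s := by
    unfold wsum
    exact (wa.add wb).add wc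
  exact ⟨cast ws, (((cast wa).mul a0).add ((cast wb).mul a1)).add ((cast wc).mul a2)⟩

/-- vertices of a positively oriented triple are affinely independent -/
lemma indep34 {w₀ w₁ w₂ : ℂ} (h : ‖Rc w₀ w₁ w₂‖ < ‖Pc w₀ w₁ w₂‖) {x y z : ℝ}
    (h1 : x + y + z = 0) (h2 : (x : ℂ) * w₀ + y * w₁ + z * w₂ = 0) : x = 0 ∧ y = 0 ∧ z = 0 := by
  have hA : 0 < ((starRingEnd ℂ) (w₁ - w₀) * (w₂ - w₀)).im := by
    rw [area_eq]
    have h1 : 0 < ‖Pc w₀ w₁ w₂‖ ^ 2 - ‖Rc w₀ w₁ w₂‖ ^ 2 := by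
      nlinarith [norm_nonneg (Rc w₀ w₁ w₂), norm_nonneg (Pc w₀ w₁ w₂)]
    have h2 : (0 : ℝ) < √3 := by positivity
    positivity
  have hx : x = -y - z := by linarith
  have h3 : (y : ℂ) * (w₁ - w₀) + z * (w₂ - w₀) = 0 := by
    rw [hx] at h2
    push_cast at h2
    linear_combination h2
  have re3 : y * (w₁ - w₀).re + z * (w₂ - w₀).re = 0 := by
    have := congrArg Complex.re h3
    simpa using this
  have im3 : y * (w₁ - w₀).im + z * (w₂ - w₀).im = 0 := by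
    have := congrArg Complex.im h3
    simpa using this
  have eA : ((starRingEnd ℂ) (w₁ - w₀) * (w₂ - w₀)).im =
      (w₁ - w₀).re * (w₂ - w₀).im - (w₁ - w₀).im * (w₂ - w₀).re := by
    simp only [mul_im, conj_re, conj_im]; ring
  rw [eA] at hA
  have hz : z * ((w₁ - w₀).re * (w₂ - w₀).im - (w₁ - w₀).im * (w₂ - w₀).re) = 0 := by
    linear_combination (w₁ - w₀).re * im3 - (w₁ - w₀).im * re3
  have hy : y * ((w₁ - w₀).re * (w₂ - w₀).im - (w₁ - w₀).im * (w₂ - w₀).re) = 0 := by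
    linear_combination (w₂ - w₀).im * re3 - (w₂ - w₀).re * im3
  have hz0 : z = 0 := by
    rcases mul_eq_zero.1 hz with h | h
    · exact h
    · exact absurd h hA.ne'
  have hy0 : y = 0 := by
    rcases mul_eq_zero.1 hy with h | h
    · exact h
    · exact absurd h hA.ne'
  exact ⟨by rw [hx, hz0, hy0]; ring, hy0, hz0⟩

/-- the weights of a centre cannot have both sums zero -/
lemma wsum_or_num34 (hf : IsCenterFunction f) {w₀ w₁ w₂ : ℂ} (h : ‖Rc w₀ w₁ w₂‖ < ‖Pc w₀ w₁ w₂‖)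
    (h0 : wsum f w₀ w₁ w₂ = 0) : num34 f w₀ w₁ w₂ ≠ 0 := by
  intro h1
  have ht := isTriangle_of_or h
  have hne := hf.ne _ _ _ ht
  unfold wsum at h0
  unfold num34 at h1
  obtain ⟨hx, hy, hz⟩ := indep34 h h0 h1
  have e1 : f ‖w₁ - w₂‖ ‖w₂ - w₀‖ ‖w₀ - w₁‖ = 0 := by
    rcases mul_eq_zero.1 hx with h | h
    · exact absurd h ht.1.ne'
    · exact h
  have e2 : f ‖w₂ - w₀‖ ‖w₀ - w₁‖ ‖w₁ - w₂‖ = 0 := by
    rcases mul_eq_zero.1 hy with h | h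
    · exact absurd h ht.2.1.ne'
    · exact h
  have e3 : f ‖w₀ - w₁‖ ‖w₁ - w₂‖ ‖w₂ - w₀‖ = 0 := by
    rcases mul_eq_zero.1 hz with h | h
    · exact absurd h ht.2.2.1.ne'
    · exact h
  exact hne ⟨e1, e2, e3⟩

lemma one_sub34 {s : ℂ} (hs : ‖s‖ < 1) : (1 - s * (starRingEnd ℂ) s : ℂ) ≠ 0 := by
  rw [← nsq]
  have h : (1 - ((‖s‖ ^ 2 : ℝ) : ℂ)) = ((1 - ‖s‖ ^ 2 : ℝ) : ℂ) := by push_cast; ring
  rw [h]
  have h1 : (0 : ℝ) < 1 - ‖s‖ ^ 2 := by nlinarith [norm_nonneg s]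
  exact_mod_cast h1.ne'

/-- the identity theorem: the formula for the shape function holds on the whole disc -/
lemma shp_all34 (hf : IsCenterFunction f)
    (ha : AnalyticOnNhd ℝ (fun p : ℝ × ℝ × ℝ => f p.1 p.2.1 p.2.2) {p | Tri p.1 p.2.1 p.2.2})
    {κ : ℝ} (hk : ∃ ε > 0, ∀ s : ℂ, ‖s‖ < ε → shp f s = hκ κ s) {s : ℂ} (hs : ‖s‖ < 1) :
    wsum f (T0 s) (T1 s) (T2 s) ≠ 0 ∧ shp f s = hκ κ s := by
  obtain ⟨ε, hε, hk⟩ := hk
  set F1 : ℂ → ℂ := fun t => num34 f (T0 t) (T1 t) (T2 t) * (1 - t * (starRingEnd ℂ) t) with hF1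
  set F2 : ℂ → ℂ := fun t => (κ * ((starRingEnd ℂ) t - t ^ 2)) *
    ((wsum f (T0 t) (T1 t) (T2 t) : ℝ) : ℂ) with hF2
  have hcj : ∀ t : ℂ, AnalyticAt ℝ (fun u : ℂ => (starRingEnd ℂ) u) t := fun t =>
    (Complex.conjCLE : ℂ →L[ℝ] ℂ).analyticAt t
  have hid : ∀ t : ℂ, AnalyticAt ℝ (fun u : ℂ => u) t := fun t => analyticAt_id
  have an1 : AnalyticOnNhd ℝ F1 (Metric.ball 0 1) := by
    intro t ht
    have ht' : ‖t‖ < 1 := by simpa using ht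
    exact (num_analytic34 ha ht').2.mul (analyticAt_const.sub ((hid t).mul (hcj t)))
  have an2 : AnalyticOnNhd ℝ F2 (Metric.ball 0 1) := by
    intro t ht
    have ht' : ‖t‖ < 1 := by simpa using ht
    exact (analyticAt_const.mul ((hcj t).sub ((hid t).pow 2))).mul (num_analytic34 ha ht').1
  have h0 : (0 : ℂ) ∈ Metric.ball (0 : ℂ) 1 := by simp
  have hpre : IsPreconnected (Metric.ball (0 : ℂ) 1) := (convex_ball (0 : ℂ) 1).isPreconnected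
  have hev : F1 =ᶠ[nhds 0] F2 := by
    have hc := (num_analytic34 ha (s := 0) (by rw [norm_zero]; norm_num)).1.continuousAt
    have hw0 : ((wsum f (T0 0) (T1 0) (T2 0) : ℝ) : ℂ) ≠ 0 := by exact_mod_cast wsum_zero hf
    have hev1 := hc.eventually_ne hw0
    have hev2 : ∀ᶠ t in nhds (0 : ℂ), ‖t‖ < min ε 1 := by
      have : Metric.ball (0 : ℂ) (min ε 1) ∈ nhds (0 : ℂ) :=
        Metric.ball_mem_nhds _ (lt_min hε one_pos)
      filter_upwards [this] with t ht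
      simpa using ht
    filter_upwards [hev1, hev2] with t ht1 ht2
    have hte : ‖t‖ < ε := lt_of_lt_of_le ht2 (min_le_left _ _)
    have ht1' : ‖t‖ < 1 := lt_of_lt_of_le ht2 (min_le_right _ _)
    have h1 := hk t hte
    unfold shp hκ at h1
    rw [center_eq34, div_eq_div_iff ht1] at h1
    · have e : ((1 - ‖t‖ ^ 2 : ℝ) : ℂ) = 1 - t * (starRingEnd ℂ) t := by
        rw [← nsq]; push_cast; ring
      rw [e] at h1
      simp only [hF1, hF2]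
      linear_combination h1
    · have h2 : (0 : ℝ) < 1 - ‖t‖ ^ 2 := by nlinarith [norm_nonneg t]
      exact_mod_cast h2.ne'
  have heq := an1.eqOn_of_preconnected_of_eventuallyEq an2 hpre h0 hev
  have hs' : s ∈ Metric.ball (0 : ℂ) 1 := by simpa using hs
  have h1 : num34 f (T0 s) (T1 s) (T2 s) * (1 - s * (starRingEnd ℂ) s) =
    (κ * ((starRingEnd ℂ) s - s ^ 2)) * ((wsum f (T0 s) (T1 s) (T2 s) : ℝ) : ℂ) := heq hs'
  have hne := one_sub34 hs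
  have hor : ‖Rc (T0 s) (T1 s) (T2 s)‖ < ‖Pc (T0 s) (T1 s) (T2 s)‖ := by
    rw [Pc_T, Rc_T, norm_one]; exact hs
  have hw : wsum f (T0 s) (T1 s) (T2 s) ≠ 0 := by
    intro hw
    have hn := wsum_or_num34 hf hor hw
    rw [hw] at h1
    simp only [ofReal_zero, mul_zero] at h1
    rcases mul_eq_zero.1 h1 with h | h
    · exact hn h
    · exact hne h
  refine ⟨hw, ?_⟩
  unfold shp hκ
  have e : ((1 - ‖s‖ ^ 2 : ℝ) : ℂ) = 1 - s * (starRingEnd ℂ) s := by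
    rw [← nsq]; push_cast; ring
  rw [center_eq34, e, div_eq_div_iff (by exact_mod_cast hw) hne]
  linear_combination h1

/-- the circumcentre in terms of the Fourier coordinates -/
lemma circum34 {w₀ w₁ w₂ O : ℂ} (h01 : ‖O - w₀‖ = ‖O - w₁‖) (h12 : ‖O - w₁‖ = ‖O - w₂‖) :
    (O - Gc w₀ w₁ w₂) * (Pc w₀ w₁ w₂ * (starRingEnd ℂ) (Pc w₀ w₁ w₂) -
      Rc w₀ w₁ w₂ * (starRingEnd ℂ) (Rc w₀ w₁ w₂)) =
    Pc w₀ w₁ w₂ ^ 2 * (starRingEnd ℂ) (Rc w₀ w₁ w₂) - (starRingEnd ℂ) (Pc w₀ w₁ w₂) * Rc w₀ w₁ w₂ ^ 2 := by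
  have g0 := w0_eq w₀ w₁ w₂
  have g1 := w1_eq w₀ w₁ w₂
  have g2 := w2_eq w₀ w₁ w₂
  set G := Gc w₀ w₁ w₂ with hG
  set P := Pc w₀ w₁ w₂ with hP
  set R := Rc w₀ w₁ w₂ with hR
  set v := O - G with hv
  have d0 : O - w₀ = v - P - R := by rw [hv, g0]; ring
  have d1 : O - w₁ = v - P * ω - R * (starRingEnd ℂ) ω := by rw [hv, g1]; ring
  have d2 : O - w₂ = v - P * (starRingEnd ℂ) ω - R * ω := by rw [hv, g2]; ring
  have e01 : (O - w₀) * (starRingEnd ℂ) (O - w₀) = (O - w₁) * (starRingEnd ℂ) (O - w₁) := by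
    rw [← nsq, ← nsq, h01]
  have e12 : (O - w₁) * (starRingEnd ℂ) (O - w₁) = (O - w₂) * (starRingEnd ℂ) (O - w₂) := by
    rw [← nsq, ← nsq, h12]
  rw [d0, d1] at e01
  rw [d1, d2] at e12
  simp only [map_sub, map_mul, Complex.conj_conj] at e01 e12
  have a1 := ω_mul_cj
  have a2 := ω_sq
  have a3 := cjω_sq
  have a4 := ω_sum
  set W := (starRingEnd ℂ) ω with hW
  set P' := (starRingEnd ℂ) P with hP'
  set R' := (starRingEnd ℂ) R with hR'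
  set v' := (starRingEnd ℂ) v with hv'
  set K := v * v' + P * P' + R * R' with hK
  set c1 := P' * R - v * R' - v' * P with hc1
  set c2 := P * R' - v * P' - v' * R with hc2
  have u0 : (v - P - R) * (v' - P' - R') = K + c1 + c2 := by
    rw [hK, hc1, hc2]; ring
  have u1 : (v - P * ω - R * W) * (v' - P' * W - R' * ω) = K + c1 * ω + c2 * W := by
    rw [hK, hc1, hc2]
    linear_combination (P * P' + R * R') * a1 + P * R' * a2 + R * P' * a3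
  have u2 : (v - P * W - R * ω) * (v' - P' * ω - R' * W) = K + c1 * W + c2 * ω := by
    rw [hK, hc1, hc2]
    linear_combination (P * P' + R * R') * a1 + P * R' * a3 + R * P' * a2
  rw [u0, u1] at e01
  rw [u1, u2] at e12
  have hc : 3 * c1 = 0 := by
    linear_combination (-2 * c1) * a1 - c2 * (a2 + a3) + (-K - c2 + (K + c1 + c2)) * a4 - W * e01 -
      ω * (e01 + e12)
  have hc1z : c1 = 0 := by
    rcases mul_eq_zero.1 hc with h | h
    · norm_num at h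
    · exact h
  have hc2z : c2 = 0 := by
    have h := congrArg (starRingEnd ℂ) hc1z
    rw [hc1] at h
    simp only [map_sub, map_mul, map_zero, hP', hR', hv', Complex.conj_conj] at h
    rw [hc2]
    linear_combination h
  rw [hc1] at hc1z
  rw [hc2] at hc2z
  linear_combination R * hc1z - P * hc2z

/-- the result for a positively oriented triple -/
lemma final_pos34 (hf : IsCenterFunction f)
    (ha : AnalyticOnNhd ℝ (fun p : ℝ × ℝ × ℝ => f p.1 p.2.1 p.2.2) {p | Tri p.1 p.2.1 p.2.2})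
    {κ : ℝ} (hk : ∃ ε > 0, ∀ s : ℂ, ‖s‖ < ε → shp f s = hκ κ s) {w₀ w₁ w₂ : ℂ}
    (h : ‖Rc w₀ w₁ w₂‖ < ‖Pc w₀ w₁ w₂‖) :
    wsum f w₀ w₁ w₂ ≠ 0 ∧ ∀ O : ℂ, ‖O - w₀‖ = ‖O - w₁‖ → ‖O - w₁‖ = ‖O - w₂‖ →
      center f w₀ w₁ w₂ = (1 - κ) * ((w₀ + w₁ + w₂) / 3) + κ * O := by
  have hP : Pc w₀ w₁ w₂ ≠ 0 := by
    intro h0
    rw [h0, norm_zero] at h
    exact absurd h (not_lt.2 (norm_nonneg _))
  have hs : ‖Rc w₀ w₁ w₂ / Pc w₀ w₁ w₂‖ < 1 := by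
    rw [norm_div, div_lt_one (norm_pos_iff.2 hP)]
    exact h
  obtain ⟨hwT, hshp⟩ := shp_all34 hf ha hk hs
  have hw : wsum f w₀ w₁ w₂ ≠ 0 := by
    obtain ⟨u, hu, hws, hc⟩ := smul_formulas hf hP (isTriangle_T hs)
    have e0 : w₀ = Pc w₀ w₁ w₂ * T0 (Rc w₀ w₁ w₂ / Pc w₀ w₁ w₂) + Gc w₀ w₁ w₂ := by
      have h0 := w0_eq w₀ w₁ w₂
      unfold T0
      rw [mul_add, mul_div_cancel₀ _ hP, mul_one]
      linear_combination h0
    have e1 : w₁ = Pc w₀ w₁ w₂ * T1 (Rc w₀ w₁ w₂ / Pc w₀ w₁ w₂) + Gc w₀ w₁ w₂ := by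
      have h0 := w1_eq w₀ w₁ w₂
      unfold T1
      rw [mul_add, ← mul_assoc, mul_div_cancel₀ _ hP]
      linear_combination h0
    have e2 : w₂ = Pc w₀ w₁ w₂ * T2 (Rc w₀ w₁ w₂ / Pc w₀ w₁ w₂) + Gc w₀ w₁ w₂ := by
      have h0 := w2_eq w₀ w₁ w₂
      unfold T2
      rw [mul_add, ← mul_assoc, mul_div_cancel₀ _ hP]
      linear_combination h0
    have hh : wsum f w₀ w₁ w₂ = u * wsum f (T0 (Rc w₀ w₁ w₂ / Pc w₀ w₁ w₂))
        (T1 (Rc w₀ w₁ w₂ / Pc w₀ w₁ w₂)) (T2 (Rc w₀ w₁ w₂ / Pc w₀ w₁ w₂)) := by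
      calc wsum f w₀ w₁ w₂ = wsum f (Pc w₀ w₁ w₂ * T0 (Rc w₀ w₁ w₂ / Pc w₀ w₁ w₂) + Gc w₀ w₁ w₂)
            (Pc w₀ w₁ w₂ * T1 (Rc w₀ w₁ w₂ / Pc w₀ w₁ w₂) + Gc w₀ w₁ w₂)
            (Pc w₀ w₁ w₂ * T2 (Rc w₀ w₁ w₂ / Pc w₀ w₁ w₂) + Gc w₀ w₁ w₂) := by rw [← e0, ← e1, ← e2]
        _ = _ := by rw [wsum_add, hws]
    rw [hh]
    exact mul_ne_zero hu hwT
  refine ⟨hw, ?_⟩
  intro O h01 h12
  rw [center_Xh hf h hw]
  unfold Xh
  rw [hshp]
  have hcirc := circum34 h01 h12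
  have hG : (w₀ + w₁ + w₂) / 3 = Gc w₀ w₁ w₂ := rfl
  rw [hG]
  have hPP : Pc w₀ w₁ w₂ * (starRingEnd ℂ) (Pc w₀ w₁ w₂) -
      Rc w₀ w₁ w₂ * (starRingEnd ℂ) (Rc w₀ w₁ w₂) ≠ 0 := by
    rw [← nsq, ← nsq]
    have h1 : 0 < ‖Pc w₀ w₁ w₂‖ ^ 2 - ‖Rc w₀ w₁ w₂‖ ^ 2 := by
      nlinarith [norm_nonneg (Rc w₀ w₁ w₂), norm_nonneg (Pc w₀ w₁ w₂)]
    exact_mod_cast h1.ne'
  have hP' : (starRingEnd ℂ) (Pc w₀ w₁ w₂) ≠ 0 := by
    intro h0
    exact hP (by simpa using h0)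
  generalize Pc w₀ w₁ w₂ = P at *
  generalize Rc w₀ w₁ w₂ = R at *
  generalize Gc w₀ w₁ w₂ = G at *
  have hO : O = G + (P ^ 2 * (starRingEnd ℂ) R - (starRingEnd ℂ) P * R ^ 2) /
      (P * (starRingEnd ℂ) P - R * (starRingEnd ℂ) R) := by
    rw [← hcirc, mul_div_assoc, div_self hPP]; ring
  have hsh : P * hκ κ (R / P) = κ * ((P ^ 2 * (starRingEnd ℂ) R - (starRingEnd ℂ) P * R ^ 2) /
      (P * (starRingEnd ℂ) P - R * (starRingEnd ℂ) R)) := by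
    unfold hκ
    have e : ((1 - ‖R / P‖ ^ 2 : ℝ) : ℂ) =
        (P * (starRingEnd ℂ) P - R * (starRingEnd ℂ) R) / (P * (starRingEnd ℂ) P) := by
      have e1 : ((1 - ‖R / P‖ ^ 2 : ℝ) : ℂ) = 1 - (R / P) * (starRingEnd ℂ) (R / P) := by
        rw [← nsq]; push_cast; ring
      rw [e1, map_div₀]
      field_simp
    rw [e, map_div₀]
    field_simp
  rw [hO, hsh]
  ring

/-- a nondegenerate triangle has nonzero signed area -/
lemma im_of_isTriangle34 {A B C : ℂ} (h : IsTriangle A B C) :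
    ((starRingEnd ℂ) (B - A) * (C - A)).im ≠ 0 := by
  intro h0
  obtain ⟨ha, hb, hc, h1, h2, h3⟩ := h
  have e1 : ‖B - C‖ ^ 2 = ‖C - A‖ ^ 2 + ‖A - B‖ ^ 2 - 2 * ((starRingEnd ℂ) (B - A) * (C - A)).re := by
    rw [nsq_re, nsq_re, nsq_re]
    simp only [mul_re, map_sub, sub_re, sub_im, conj_re, conj_im]
    ring
  have e2 : ((starRingEnd ℂ) (B - A) * (C - A)).re ^ 2 = (‖C - A‖ * ‖A - B‖) ^ 2 := by
    have e3 : ((starRingEnd ℂ) (B - A) * (C - A)).re ^ 2 +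
        ((starRingEnd ℂ) (B - A) * (C - A)).im ^ 2 = (‖C - A‖ * ‖A - B‖) ^ 2 := by
      rw [mul_pow, nsq_re, nsq_re]
      simp only [mul_re, mul_im, map_sub, sub_re, sub_im, conj_re, conj_im]
      ring
    rw [h0] at e3
    linarith
  generalize ((starRingEnd ℂ) (B - A) * (C - A)).re = r at *
  generalize ‖B - C‖ = a at *
  generalize ‖C - A‖ = b at *
  generalize ‖A - B‖ = c at *
  have e4 : (r - b * c) * (r + b * c) = 0 := by linear_combination e2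
  rcases mul_eq_zero.1 e4 with h | h
  · have hr : r = b * c := by linarith
    rw [hr] at e1
    nlinarith [mul_pos (show 0 < a - b + c by linarith) (show 0 < a + b - c by linarith)]
  · have hr : r = -(b * c) := by linarith
    rw [hr] at e1
    nlinarith [mul_pos (show 0 < b + c - a by linarith) (show 0 < a + b + c by linarith)]

lemma Pc_swap34 (A B C : ℂ) : Pc A C B = Rc A B C := by unfold Pc Rc; ring
lemma Rc_swap34 (A B C : ℂ) : Rc A C B = Pc A B C := by unfold Pc Rc; ring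

lemma wsum_swap34 (hf : IsCenterFunction f) {A B C : ℂ} (h : IsTriangle A B C) :
    wsum f A C B = wsum f A B C := by
  have s1 := hf.symm _ _ _ h
  have s2 := hf.symm _ _ _ h.cyc
  have s3 := hf.symm _ _ _ h.cyc.cyc
  unfold wsum
  rw [norm_sub_rev C B, norm_sub_rev B A, norm_sub_rev A C, ← s1, ← s2, ← s3]
  ring

/-- Row FINAL. -/
theorem final34 : FinalStmt := by
  intro f hf ha κ hk A B C ht
  have him := im_of_isTriangle34 ht
  rw [area_eq] at him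
  have h3 : (0 : ℝ) < √3 := by positivity
  rcases lt_trichotomy ‖Rc A B C‖ ‖Pc A B C‖ with h | h | h
  · exact final_pos34 hf ha hk h
  · rw [h] at him
    simp at him
  · have h' : ‖Rc A C B‖ < ‖Pc A C B‖ := by rw [Rc_swap34 A B C, Pc_swap34 A B C]; exact h
    obtain ⟨hw, hO⟩ := final_pos34 hf ha hk h'
    rw [wsum_swap34 hf ht] at hw
    refine ⟨hw, ?_⟩
    intro O h01 h12
    have := hO O (h01.trans h12) h12.symm
    rw [center_swap hf ht] at this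
    rw [this]
    ring

end Pool.Agent.Pon30
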