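import Pool.Agent.Pon30.Pair82
import Pool.Agent.Pon30.Final34

/-!
# Assembly for MP_02df19_gt: from the core theorem on shape functions to triangle centres
-/

namespace Pool.Agent.Pon30

open Complex

/-- The theorem on triangle centres follows from the core theorem on shape functions. -/
theorem main_of_core (hcore : CoreStmt) (f : ℝ → ℝ → ℝ → ℝ) (hf : IsCenterFunction f)
    (han : AnalyticOnNhd ℝ (fun p : ℝ × ℝ × ℝ => f p.1 p.2.1 p.2.2) {p | Tri p.1 p.2.1 p.2.2})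
    (hloc : ∀ o α β α' β', PonceletPair o α β α' β' → NonAligned β β' → EllipticLocus f o α β α' β') :
    ∃ κ : ℝ, (κ = 0 ∨ κ = 1 ∨ κ = -2) ∧ ∀ A B C : ℂ, IsTriangle A B C → wsum f A B C ≠ 0 ∧
      ∀ O : ℂ, ‖O - A‖ = ‖O - B‖ → ‖O - B‖ = ‖O - C‖ →
        center f A B C = (1 - κ) * ((A + B + C) / 3) + κ * O := by
  obtain ⟨hS, hX⟩ := centerStmt f hf han
  have hHH : HH (shp f) := by
    intro p q F hqp hF hna
    obtain ⟨α, β, hβ, h⟩ := pairStmt f hf hloc p q F hqp hF hna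
    refine ⟨α, β, hβ, fun z₀ z₁ z₂ hz => ?_⟩
    obtain ⟨h1, h2⟩ := h z₀ z₁ z₂ hz
    rw [← hX _ _ _ (or_L hqp hz.or) h1]
    exact h2
  obtain ⟨κ, hκ, hε⟩ := hcore (shp f) hS hHH
  exact ⟨κ, hκ, final34 f hf han κ hε⟩

end Pool.Agent.Pon30
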