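import Pool.Agent.Pon30.StmtsW
import Pool.Agent.Pon30.Asm37

/-!
# Assembly for the weak hypothesis (MP_02df19_gt)
-/

namespace Pool.Agent.Pon30

open Complex

/-- The theorem on triangle centres for loci that may be degenerate, from the core theorem on shape functions. -/
theorem main_of_coreW (hcore : CoreW) (hPair : PairW) (f : ℝ → ℝ → ℝ → ℝ) (hf : IsCenterFunction f)
    (han : AnalyticOnNhd ℝ (fun p : ℝ × ℝ × ℝ => f p.1 p.2.1 p.2.2) {p | Tri p.1 p.2.1 p.2.2})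
    (hloc : ∀ o α β α' β', PonceletPair o α β α' β' → NonAligned β β' → OnEllipse f o α β α' β') :
    ∃ κ : ℝ, ∀ A B C : ℂ, IsTriangle A B C → wsum f A B C ≠ 0 ∧
      ∀ O : ℂ, ‖O - A‖ = ‖O - B‖ → ‖O - B‖ = ‖O - C‖ →
        center f A B C = (1 - κ) * ((A + B + C) / 3) + κ * O := by
  obtain ⟨hS, hX⟩ := centerStmt f hf han
  have hHH : HHw (shp f) := by
    intro p q F hqp hF hna
    obtain ⟨α, β, c, hβ, hc, hαc, h⟩ := hPair f hf hloc p q F hqp hF hna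
    refine ⟨α, β, c, hβ, hc, hαc, fun z₀ z₁ z₂ hz => ?_⟩
    obtain ⟨h1, h2⟩ := h z₀ z₁ z₂ hz
    rw [← hX _ _ _ (or_L hqp hz.or) h1]
    exact h2
  obtain ⟨κ, hε⟩ := hcore (shp f) hS hHH
  exact ⟨κ, final34 f hf han κ hε⟩

/-- the constant is determined -/
lemma kappa_unique {f : ℝ → ℝ → ℝ → ℝ} {κ κ' : ℝ}
    (h : ∀ A B C : ℂ, IsTriangle A B C → wsum f A B C ≠ 0 ∧
      ∀ O : ℂ, ‖O - A‖ = ‖O - B‖ → ‖O - B‖ = ‖O - C‖ →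
        center f A B C = (1 - κ) * ((A + B + C) / 3) + κ * O)
    (h' : ∀ A B C : ℂ, IsTriangle A B C → wsum f A B C ≠ 0 ∧
      ∀ O : ℂ, ‖O - A‖ = ‖O - B‖ → ‖O - B‖ = ‖O - C‖ →
        center f A B C = (1 - κ') * ((A + B + C) / 3) + κ' * O) : κ = κ' := by
  have nn : ∀ (x y r : ℝ), 0 ≤ r → x ^ 2 + y ^ 2 = r ^ 2 → ‖(⟨x, y⟩ : ℂ)‖ = r := by
    intro x y r hr hxy
    have h1 : ‖(⟨x, y⟩ : ℂ)‖ ^ 2 = r ^ 2 := by rw [nsq_re]; exact hxy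
    exact (pow_left_inj₀ (norm_nonneg _) hr two_ne_zero).1 h1
  have n1 : ‖(⟨4, 0⟩ : ℂ) - ⟨0, 3⟩‖ = 5 := by
    have : (⟨4, 0⟩ : ℂ) - ⟨0, 3⟩ = ⟨4, -3⟩ := by apply Complex.ext <;> simp
    rw [this]; exact nn _ _ _ (by norm_num) (by norm_num)
  have n2 : ‖(⟨0, 3⟩ : ℂ) - ⟨0, 0⟩‖ = 3 := by
    have : (⟨0, 3⟩ : ℂ) - ⟨0, 0⟩ = ⟨0, 3⟩ := by apply Complex.ext <;> simp
    rw [this]; exact nn _ _ _ (by norm_num) (by norm_num)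
  have n3 : ‖(⟨0, 0⟩ : ℂ) - ⟨4, 0⟩‖ = 4 := by
    have : (⟨0, 0⟩ : ℂ) - ⟨4, 0⟩ = ⟨-4, 0⟩ := by apply Complex.ext <;> simp
    rw [this]; exact nn _ _ _ (by norm_num) (by norm_num)
  have hT : IsTriangle ⟨0, 0⟩ ⟨4, 0⟩ ⟨0, 3⟩ := by
    unfold IsTriangle
    rw [n1, n2, n3]
    refine ⟨by norm_num, by norm_num, by norm_num, by norm_num, by norm_num, by norm_num⟩
  have o1 : ‖(⟨2, 3 / 2⟩ : ℂ) - ⟨0, 0⟩‖ = 5 / 2 := by
    have : (⟨2, 3 / 2⟩ : ℂ) - ⟨0, 0⟩ = ⟨2, 3 / 2⟩ := by apply Complex.ext <;> simp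
    rw [this]; exact nn _ _ _ (by norm_num) (by norm_num)
  have o2 : ‖(⟨2, 3 / 2⟩ : ℂ) - ⟨4, 0⟩‖ = 5 / 2 := by
    have : (⟨2, 3 / 2⟩ : ℂ) - ⟨4, 0⟩ = ⟨-2, 3 / 2⟩ := by apply Complex.ext <;> simp; norm_num
    rw [this]; exact nn _ _ _ (by norm_num) (by norm_num)
  have o3 : ‖(⟨2, 3 / 2⟩ : ℂ) - ⟨0, 3⟩‖ = 5 / 2 := by
    have : (⟨2, 3 / 2⟩ : ℂ) - ⟨0, 3⟩ = ⟨2, -3 / 2⟩ := by apply Complex.ext <;> simp; norm_num
    rw [this]; exact nn _ _ _ (by norm_num) (by norm_num)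
  have e := (h _ _ _ hT).2 ⟨2, 3 / 2⟩ (by rw [o1, o2]) (by rw [o2, o3])
  have e' := (h' _ _ _ hT).2 ⟨2, 3 / 2⟩ (by rw [o1, o2]) (by rw [o2, o3])
  rw [e] at e'
  have e2 := congrArg Complex.re e'
  simp at e2
  linarith

/-- an ellipse is the image of the unit circle -/
lemma ell_param {o₁ : ℂ} {α₁ : ℝ} {β₁ : ℂ} (hβ : ‖β₁‖ < α₁) :
    ∃ P Q : ℂ, ∀ z ∈ Ell o₁ α₁ β₁, ∃ u : ℂ, ‖u‖ = 1 ∧ z = o₁ + P * u + Q * (starRingEnd ℂ) u := by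
  have hn := norm_nonneg β₁
  have hm : 0 < α₁ - ‖β₁‖ := by linarith
  have hp : 0 < α₁ + ‖β₁‖ := by linarith
  -- `a = p + q`, `b = p - q`
  obtain ⟨a, ha⟩ : ∃ a : ℝ, a = 1 / √(α₁ - ‖β₁‖) := ⟨_, rfl⟩
  obtain ⟨b, hb⟩ : ∃ b : ℝ, b = 1 / √(α₁ + ‖β₁‖) := ⟨_, rfl⟩
  have hsa : 0 < √(α₁ - ‖β₁‖) := Real.sqrt_pos.2 hm
  have hsb : 0 < √(α₁ + ‖β₁‖) := Real.sqrt_pos.2 hp
  have ha0 : 0 < a := by rw [ha]; positivity
  have hb0 : 0 < b := by rw [hb]; positivity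
  have ha2 : a ^ 2 * (α₁ - ‖β₁‖) = 1 := by
    rw [ha, div_pow, Real.sq_sqrt hm.le]; field_simp
  have hb2 : b ^ 2 * (α₁ + ‖β₁‖) = 1 := by
    rw [hb, div_pow, Real.sq_sqrt hp.le]; field_simp
  -- the direction
  obtain ⟨e, he, hbe⟩ : ∃ e : ℂ, ‖e‖ = 1 ∧ β₁ * e ^ 2 = ‖β₁‖ := by
    rcases eq_or_ne β₁ 0 with h0 | h0
    · exact ⟨1, by simp, by simp [h0]⟩
    · refine ⟨Complex.exp ((-(arg β₁) / 2 : ℝ) * I), Complex.norm_exp_ofReal_mul_I _, ?_⟩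
      rw [← Complex.exp_nat_mul]
      have h1 : β₁ = ‖β₁‖ * Complex.exp (arg β₁ * I) := (Complex.norm_mul_exp_arg_mul_I β₁).symm
      have h2 : (arg β₁ : ℂ) * I + ((2 : ℕ) : ℂ) * (((-(arg β₁) / 2 : ℝ) : ℂ) * I) = 0 := by
        push_cast; ring
      calc β₁ * Complex.exp (((2 : ℕ) : ℂ) * (((-(arg β₁) / 2 : ℝ) : ℂ) * I))
          = (‖β₁‖ * Complex.exp (arg β₁ * I)) * Complex.exp (((2 : ℕ) : ℂ) * (((-(arg β₁) / 2 : ℝ) : ℂ) * I)) := by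
            rw [← h1]
        _ = ‖β₁‖ * Complex.exp ((arg β₁ : ℂ) * I + ((2 : ℕ) : ℂ) * (((-(arg β₁) / 2 : ℝ) : ℂ) * I)) := by
            rw [mul_assoc, ← Complex.exp_add]
        _ = ‖β₁‖ := by rw [h2, Complex.exp_zero, mul_one]
  have hee : e * (starRingEnd ℂ) e = 1 := by rw [← nsq, he]; norm_num
  -- in the direction `e` the form is `(α + ‖β‖) x² + (α - ‖β‖) y²`
  refine ⟨e * ((b + a) / 2 : ℝ), e * ((b - a) / 2 : ℝ), fun z hz => ?_⟩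
  set w : ℂ := (z - o₁) * (starRingEnd ℂ) e with hw
  have hzw : z = o₁ + e * w := by
    rw [hw]; linear_combination (-(z - o₁)) * hee
  have hq : (α₁ + ‖β₁‖) * w.re ^ 2 + (α₁ - ‖β₁‖) * w.im ^ 2 = 1 := by
    have h1 : qf α₁ β₁ (z - o₁) = 1 := hz
    have h2 : z - o₁ = e * w := by rw [hzw]; ring
    rw [h2, qf, norm_mul, he, one_mul, nsq_re] at h1
    have h3 : β₁ * (e * w) ^ 2 = ‖β₁‖ * w ^ 2 := by
      rw [mul_pow, ← mul_assoc, hbe]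
    rw [h3] at h1
    have h4 : ((‖β₁‖ : ℂ) * w ^ 2).re = ‖β₁‖ * (w.re ^ 2 - w.im ^ 2) := by
      rw [re_ofReal_mul, pow_two, mul_re]; ring
    rw [h4] at h1
    linarith
  refine ⟨⟨w.re / b, w.im / a⟩, ?_, ?_⟩
  · have h1 : ‖(⟨w.re / b, w.im / a⟩ : ℂ)‖ ^ 2 = 1 := by
      rw [nsq_re]
      show (w.re / b) ^ 2 + (w.im / a) ^ 2 = 1
      have e1 : w.re ^ 2 / b ^ 2 = (α₁ + ‖β₁‖) * w.re ^ 2 := by
        rw [div_eq_iff (by positivity)]; linear_combination (-(w.re ^ 2)) * hb2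
      have e2 : w.im ^ 2 / a ^ 2 = (α₁ - ‖β₁‖) * w.im ^ 2 := by
        rw [div_eq_iff (by positivity)]; linear_combination (-(w.im ^ 2)) * ha2
      rw [div_pow, div_pow, e1, e2, hq]
    nlinarith [norm_nonneg (⟨w.re / b, w.im / a⟩ : ℂ)]
  · rw [hzw]
    have h1 : w = ((b + a) / 2 : ℝ) * (⟨w.re / b, w.im / a⟩ : ℂ) +
        ((b - a) / 2 : ℝ) * (starRingEnd ℂ) (⟨w.re / b, w.im / a⟩ : ℂ) := by
      apply Complex.ext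
      · simp only [add_re, re_ofReal_mul, conj_re]
        field_simp; ring
      · simp only [add_im, im_ofReal_mul, conj_im]
        field_simp; ring
    conv_lhs => rw [h1]
    ring

/-- if the locus is an ellipse then the centres lie on an ellipse -/
lemma onEllipse_of_elliptic {f : ℝ → ℝ → ℝ → ℝ} {o : ℂ} {α : ℝ} {β : ℂ} {α' : ℝ} {β' : ℂ}
    (h : EllipticLocus f o α β α' β') : OnEllipse f o α β α' β' := by
  obtain ⟨h1, o₁, α₁, β₁, hβ, h2⟩ := h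
  obtain ⟨P, Q, h3⟩ := ell_param (o₁ := o₁) hβ
  refine ⟨o₁, P, Q, fun A B C hT => ⟨h1 A B C hT, ?_⟩⟩
  apply h3
  rw [← h2]
  exact ⟨A, B, C, hT, rfl⟩

end Pool.Agent.Pon30
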