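import Pool.Agent.Pon30.StmtsW
import Pool.Agent.Pon30.Jet34

/-! Row COREW of MP_02df19_gt, weak hypothesis (helper46). -/

set_option autoImplicit false

namespace Pool.Agent.Pon30

open Complex

/-- a shape function is Lipschitz at the equilateral shape -/
theorem shape_lip {h : ℂ → ℂ} (hS : Shape h) :
    ∃ C > 0, ∃ ε > 0, ∀ s : ℂ, ‖s‖ < ε → ‖h s‖ ≤ C * ‖s‖ := by
  obtain ⟨κ, η, C, ε, hε, hJ⟩ := jet34 h hS
  refine ⟨|κ| + |η| + |C| + 1, by positivity, min ε 1, by positivity, fun s hs => ?_⟩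
  have h1 := hJ s (hs.trans_le (min_le_left _ _))
  have h2 : ‖s‖ < 1 := hs.trans_le (min_le_right _ _)
  have h0 := norm_nonneg s
  have h3 : ‖h s‖ ≤ ‖h s - (κ * (starRingEnd ℂ) s + η * s ^ 2)‖ +
      ‖κ * (starRingEnd ℂ) s + η * s ^ 2‖ := by
    have := norm_add_le (h s - (κ * (starRingEnd ℂ) s + η * s ^ 2))
      (κ * (starRingEnd ℂ) s + η * s ^ 2)
    rwa [sub_add_cancel] at this
  have h4 : ‖(κ : ℂ) * (starRingEnd ℂ) s + η * s ^ 2‖ ≤ |κ| * ‖s‖ + |η| * ‖s‖ ^ 2 := by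
    refine (norm_add_le _ _).trans ?_
    rw [norm_mul, norm_mul, norm_pow, RCLike.norm_conj, Complex.norm_real, Complex.norm_real,
      Real.norm_eq_abs, Real.norm_eq_abs]
  have h5 : ‖s‖ ^ 2 ≤ ‖s‖ := by nlinarith
  have h6 : ‖s‖ ^ 3 ≤ ‖s‖ := by
    have : ‖s‖ ^ 3 = ‖s‖ ^ 2 * ‖s‖ := by ring
    rw [this]
    nlinarith
  have h7 : |η| * ‖s‖ ^ 2 ≤ |η| * ‖s‖ := mul_le_mul_of_nonneg_left h5 (abs_nonneg _)
  have h8 : C * ‖s‖ ^ 3 ≤ |C| * ‖s‖ := by
    calc C * ‖s‖ ^ 3 ≤ |C| * ‖s‖ ^ 3 :=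
          mul_le_mul_of_nonneg_right (le_abs_self C) (by positivity)
      _ ≤ |C| * ‖s‖ := mul_le_mul_of_nonneg_left h6 (abs_nonneg _)
  nlinarith

/-- the shape functions of the fixed combinations are Lipschitz at the equilateral shape -/
theorem hκ_lip (κ : ℝ) {s : ℂ} (hs : ‖s‖ ≤ 1 / 2) : ‖hκ κ s‖ ≤ 3 * |κ| * ‖s‖ := by
  have h0 := norm_nonneg s
  have h1 : (0 : ℝ) < 1 - ‖s‖ ^ 2 := by nlinarith
  have h2 : (3 / 4 : ℝ) ≤ 1 - ‖s‖ ^ 2 := by nlinarith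
  unfold hκ
  rw [norm_div, norm_mul, Complex.norm_real, Complex.norm_real, Real.norm_eq_abs,
    Real.norm_eq_abs, abs_of_pos h1, div_le_iff₀ h1]
  have h3 : ‖(starRingEnd ℂ) s - s ^ 2‖ ≤ ‖s‖ + ‖s‖ ^ 2 := by
    refine (norm_sub_le _ _).trans ?_
    rw [RCLike.norm_conj, norm_pow]
  have h4 : ‖(starRingEnd ℂ) s - s ^ 2‖ ≤ 3 / 2 * ‖s‖ := by nlinarith
  have h5 := abs_nonneg κ
  calc |κ| * ‖(starRingEnd ℂ) s - s ^ 2‖ ≤ |κ| * (3 / 2 * ‖s‖) :=
        mul_le_mul_of_nonneg_left h4 h5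
    _ ≤ 3 * |κ| * ‖s‖ * (3 / 4) := by nlinarith [mul_nonneg h5 h0]
    _ ≤ 3 * |κ| * ‖s‖ * (1 - ‖s‖ ^ 2) := by
        apply mul_le_mul_of_nonneg_left h2
        positivity

/-- Row COREW. -/
theorem coreW46 (hRA : RealAxisW) (hArc : ArcStmt) (hKey : KeyW) : CoreW := by
  intro h hS hH
  obtain ⟨κ, hκδ⟩ := hRA h hS hH
  obtain ⟨K, hK, t₀, ht₀, hKey'⟩ := hKey h hS hH κ hκδ
  obtain ⟨C, hC, ε₁, hε₁, hLip⟩ := shape_lip hS
  refine ⟨κ, ?_⟩
  -- the choice of t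
  set t : ℝ := min (t₀ / 2) (1 / (10 * K)) with ht
  have ht0 : 0 < t := by
    rw [ht]
    positivity
  have htt : t < t₀ := (min_le_left _ _).trans_lt (by linarith)
  have htK : K * t ≤ 1 / 10 := by
    have h1 : t ≤ 1 / (10 * K) := min_le_right _ _
    calc K * t ≤ K * (1 / (10 * K)) := mul_le_mul_of_nonneg_left h1 hK.le
      _ = 1 / 10 := by field_simp
  obtain ⟨ε₂, hε₂, hArc'⟩ := hArc t ht0
  set C' : ℝ := C + 3 * |κ| with hC'
  have hC'0 : 0 < C' := by positivity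
  refine ⟨min (min ε₁ ε₂) (min (min (t ^ 2) (1 / 2)) (t / (10 * C'))), by positivity, ?_⟩
  intro s hs
  have s1 : ‖s‖ < ε₁ := hs.trans_le ((min_le_left _ _).trans (min_le_left _ _))
  have s2 : ‖s‖ < ε₂ := hs.trans_le ((min_le_left _ _).trans (min_le_right _ _))
  have s3 : ‖s‖ ≤ t ^ 2 :=
    (hs.trans_le ((min_le_right _ _).trans ((min_le_left _ _).trans (min_le_left _ _)))).le
  have s4 : ‖s‖ ≤ 1 / 2 :=
    (hs.trans_le ((min_le_right _ _).trans ((min_le_left _ _).trans (min_le_right _ _)))).le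
  have s5 : ‖s‖ ≤ t / (10 * C') := (hs.trans_le ((min_le_right _ _).trans (min_le_right _ _))).le
  have hsum : ‖h s + hκ κ s‖ ≤ t / 10 := by
    refine (norm_add_le _ _).trans ?_
    have h1 := hLip s s1
    have h2 := hκ_lip κ s4
    have h3 : C' * ‖s‖ ≤ t / 10 := by
      calc C' * ‖s‖ ≤ C' * (t / (10 * C')) := mul_le_mul_of_nonneg_left s5 hC'0.le
        _ = t / 10 := by field_simp
    rw [hC', add_mul] at h3
    linarith
  obtain ⟨o₁, o₂, ho₁, ho₂, hc₁, hc₂⟩ := hArc' s s2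
  set D := h s - hκ κ s with hD
  have hDn := norm_nonneg D
  -- the consequence of the key inequality at a point near `t e`
  have step : ∀ (o e : ℂ), ‖e‖ = 1 → ‖o - t * e‖ ≤ t / 10 → cub s o = 0 →
      |((starRingEnd ℂ) D * e).re| ≤ ‖D‖ / 5 := by
    intro o e he ho hc
    have hte : ‖(t : ℂ) * e‖ = t := by
      rw [norm_mul, he, Complex.norm_real, Real.norm_eq_abs, abs_of_pos ht0, mul_one]
    have n1 : ‖o‖ ≤ 2 * t := by
      have := norm_add_le (o - t * e) (t * e)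
      rw [sub_add_cancel, hte] at this
      linarith
    have n2 : t / 2 ≤ ‖o‖ := by
      have := norm_sub_norm_le ((t : ℂ) * e) (t * e - o)
      rw [sub_sub_cancel, hte, norm_sub_rev] at this
      linarith
    have k1 := hKey' t s o ht0 htt s3 n2 n1 hc
    rw [← hD] at k1
    have k2 : (starRingEnd ℂ) D * ((t : ℂ) * e) = (starRingEnd ℂ) D * ((h s + hκ κ s) / 2) -
        (starRingEnd ℂ) D * (h s + hκ κ s - 2 * o) / 2 - (starRingEnd ℂ) D * (o - t * e) := by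
      ring
    have k3 : ((starRingEnd ℂ) D * ((t : ℂ) * e)).re = t * ((starRingEnd ℂ) D * e).re := by
      rw [show (starRingEnd ℂ) D * ((t : ℂ) * e) = (t : ℂ) * ((starRingEnd ℂ) D * e) by ring,
        Complex.re_ofReal_mul]
    have k4 : |((starRingEnd ℂ) D * ((h s + hκ κ s) / 2)).re| ≤ ‖D‖ * (t / 20) := by
      refine (Complex.abs_re_le_norm _).trans ?_
      rw [norm_mul, RCLike.norm_conj, norm_div]
      have : ‖(2 : ℂ)‖ = 2 := by norm_num
      rw [this]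
      apply mul_le_mul_of_nonneg_left _ hDn
      linarith
    have k5 : |((starRingEnd ℂ) D * (o - t * e)).re| ≤ ‖D‖ * (t / 10) := by
      refine (Complex.abs_re_le_norm _).trans ?_
      rw [norm_mul, RCLike.norm_conj]
      exact mul_le_mul_of_nonneg_left ho hDn
    have k6 : |((starRingEnd ℂ) D * (h s + hκ κ s - 2 * o) / 2).re| ≤ ‖D‖ * (t / 20) := by
      have e2 : ((starRingEnd ℂ) D * (h s + hκ κ s - 2 * o) / 2).re =
          ((starRingEnd ℂ) D * (h s + hκ κ s - 2 * o)).re / 2 := by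
        have := Complex.div_ofNat_re ((starRingEnd ℂ) D * (h s + hκ κ s - 2 * o)) 2
        exact this
      rw [e2, abs_div, abs_two]
      have : K * t ^ 2 * ‖D‖ ≤ t / 10 * ‖D‖ := by
        apply mul_le_mul_of_nonneg_right _ hDn
        have : K * t ^ 2 = K * t * t := by ring
        rw [this]
        nlinarith
      linarith
    have k7 : |t * ((starRingEnd ℂ) D * e).re| ≤ ‖D‖ * (t / 5) := by
      rw [← k3, k2, Complex.sub_re, Complex.sub_re]
      rw [abs_le] at k4 k5 k6 ⊢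
      constructor <;> linarith [k4.1, k4.2, k5.1, k5.2, k6.1, k6.2]
    rw [abs_mul, abs_of_pos ht0] at k7
    have k8 : t * |((starRingEnd ℂ) D * e).re| ≤ t * (‖D‖ / 5) := by linarith
    exact le_of_mul_le_mul_left k8 ht0
  have r1 := step o₁ 1 norm_one (by rw [mul_one]; exact ho₁) hc₁
  have r2 := step o₂ ω ω_norm ho₂ hc₂
  rw [mul_one, Complex.conj_re] at r1
  have e3 : ((starRingEnd ℂ) D * ω).re = -(D.re / 2) + √3 / 2 * D.im := by
    rw [Complex.mul_re, Complex.conj_re, Complex.conj_im, ω_re, ω_im]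
    ring
  rw [e3] at r2
  have hsq := sq3
  have hs0 : (0 : ℝ) ≤ √3 := Real.sqrt_nonneg 3
  have hnorm : ‖D‖ ^ 2 = D.re ^ 2 + D.im ^ 2 := nsq_re D
  have q1 : D.re ^ 2 ≤ ‖D‖ ^ 2 / 25 := by
    have := sq_le_sq' (neg_le_of_abs_le r1) (le_of_abs_le r1)
    nlinarith
  have q2 : |√3 / 2 * D.im| ≤ 3 / 10 * ‖D‖ := by
    rw [abs_le] at r1 r2 ⊢
    constructor <;> linarith [r1.1, r1.2, r2.1, r2.2]
  have q3 : 3 / 4 * D.im ^ 2 ≤ 9 / 100 * ‖D‖ ^ 2 := by
    have h1 := sq_le_sq' (neg_le_of_abs_le q2) (le_of_abs_le q2)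
    have h2 : (√3 / 2 * D.im) ^ 2 = 3 / 4 * D.im ^ 2 := by
      rw [mul_pow, div_pow, pow_two √3, hsq]
      ring
    rw [h2] at h1
    nlinarith
  have q4 : ‖D‖ ^ 2 ≤ 0 := by nlinarith
  have q5 : ‖D‖ = 0 := by
    have := sq_nonneg ‖D‖
    exact pow_eq_zero_iff (two_ne_zero) |>.1 (le_antisymm q4 this)
  exact sub_eq_zero.1 (norm_eq_zero.1 q5)

end Pool.Agent.Pon30
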