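import Pool.Agent.Pon30.StmtsC
import Pool.Agent.Pon30.CoreW46

/-! Row COREC of MP_02df19_gt, continuous centre functions (helper46). -/

set_option autoImplicit false

namespace Pool.Agent.Pon30

open Complex Filter Topology

/-- Lipschitz at the equilateral shape -/
theorem shape2_lip {h : ℂ → ℂ} (hS : Shape2 h) :
    ∃ C > 0, ∃ ε > 0, ∀ s : ℂ, ‖s‖ < ε → ‖h s‖ ≤ C * ‖s‖ := by
  obtain ⟨κ, η, hJ⟩ := hS.jet
  have hJ1 := hJ.bound (c := 1) one_pos
  obtain ⟨ε, hε, hJ2⟩ := Metric.eventually_nhds_iff.1 hJ1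
  refine ⟨|κ| + |η| + 1, by positivity, min ε 1, by positivity, fun s hs => ?_⟩
  have h1 : ‖h s - (κ * (starRingEnd ℂ) s + η * s ^ 2)‖ ≤ ‖s‖ ^ 2 := by
    have := hJ2 (y := s) (by rw [dist_zero_right]; exact hs.trans_le (min_le_left _ _))
    rwa [one_mul, Real.norm_eq_abs, abs_of_nonneg (by positivity)] at this
  have h2 : ‖s‖ < 1 := hs.trans_le (min_le_right _ _)
  have h0 := norm_nonneg s
  have h3 : ‖h s‖ ≤ ‖h s - (κ * (starRingEnd ℂ) s + η * s ^ 2)‖ +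
      ‖κ * (starRingEnd ℂ) s + η * s ^ 2‖ := by
    have := norm_add_le (h s - (κ * (starRingEnd ℂ) s + η * s ^ 2))
      (κ * (starRingEnd ℂ) s + η * s ^ 2)
    rwa [sub_add_cancel] at this
  have h4 : ‖(κ : ℂ) * (starRingEnd ℂ) s + η * s ^ 2‖ ≤ |κ| * ‖s‖ + |η| * ‖s‖ ^ 2 := by
    refine (norm_add_le _ _).trans ?_
    rw [norm_mul, norm_mul, norm_pow, RCLike.norm_conj, Complex.norm_real, Complex.norm_real,
      Real.norm_eq_abs, Real.norm_eq_abs]
  have h5 : ‖s‖ ^ 2 ≤ ‖s‖ := by nlinarith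
  have h7 : |η| * ‖s‖ ^ 2 ≤ |η| * ‖s‖ := mul_le_mul_of_nonneg_left h5 (abs_nonneg _)
  nlinarith

/-- the sum of the two functions is small -/
theorem sum_small {h : ℂ → ℂ} {C κ t : ℝ} (hC : 0 < C) {s : ℂ} (s1 : ‖h s‖ ≤ C * ‖s‖)
    (s4 : ‖s‖ ≤ 1 / 2) (s5 : ‖s‖ ≤ t / (10 * (C + 3 * |κ|))) : ‖h s + hκ κ s‖ ≤ t / 10 := by
  have hC'0 : 0 < C + 3 * |κ| := by positivity
  refine (norm_add_le _ _).trans ?_
  have h2 := hκ_lip κ s4
  have h3 : (C + 3 * |κ|) * ‖s‖ ≤ t / 10 := by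
    calc (C + 3 * |κ|) * ‖s‖ ≤ (C + 3 * |κ|) * (t / (10 * (C + 3 * |κ|))) :=
          mul_le_mul_of_nonneg_left s5 hC'0.le
      _ = t / 10 := by field_simp
  rw [add_mul] at h3
  linarith

/-- the core argument with the key inequality and the Lipschitz bound as hypotheses -/
theorem core_of_key {h : ℂ → ℂ} (hLip : ∃ C > 0, ∃ ε > 0, ∀ s : ℂ, ‖s‖ < ε → ‖h s‖ ≤ C * ‖s‖)
    (hArc : ArcStmt) (κ : ℝ)
    (hKey : ∃ K > 0, ∃ t₀ > 0, ∀ (t : ℝ) (s o : ℂ), 0 < t → t < t₀ → ‖s‖ ≤ t ^ 2 → t / 2 ≤ ‖o‖ →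
      ‖o‖ ≤ 2 * t → cub s o = 0 →
      |((starRingEnd ℂ) (h s - hκ κ s) * (h s + hκ κ s - 2 * o)).re| ≤ K * t ^ 2 * ‖h s - hκ κ s‖) :
    ∃ ε > 0, ∀ s : ℂ, ‖s‖ < ε → h s = hκ κ s := by
  obtain ⟨K, hK, t₀, ht₀, hKey'⟩ := hKey
  obtain ⟨C, hC, ε₁, hε₁, hLip⟩ := hLip
  -- the choice of t
  set t : ℝ := min (t₀ / 2) (1 / (10 * K)) with ht
  have ht0 : 0 < t := by
    rw [ht]
    positivity
  have htt : t < t₀ := (min_le_left _ _).trans_lt (by linarith)
  have htK : K * t ≤ 1 / 10 := by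
    have h1 : t ≤ 1 / (10 * K) := min_le_right _ _
    calc K * t ≤ K * (1 / (10 * K)) := mul_le_mul_of_nonneg_left h1 hK.le
      _ = 1 / 10 := by field_simp
  obtain ⟨ε₂, hε₂, hArc'⟩ := hArc t ht0
  refine ⟨min (min ε₁ ε₂) (min (min (t ^ 2) (1 / 2)) (t / (10 * (C + 3 * |κ|)))), by positivity, ?_⟩
  intro s hs
  have s1 : ‖s‖ < ε₁ := hs.trans_le ((min_le_left _ _).trans (min_le_left _ _))
  have s2 : ‖s‖ < ε₂ := hs.trans_le ((min_le_left _ _).trans (min_le_right _ _))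
  have s3 : ‖s‖ ≤ t ^ 2 :=
    (hs.trans_le ((min_le_right _ _).trans ((min_le_left _ _).trans (min_le_left _ _)))).le
  have s4 : ‖s‖ ≤ 1 / 2 :=
    (hs.trans_le ((min_le_right _ _).trans ((min_le_left _ _).trans (min_le_right _ _)))).le
  have s5 : ‖s‖ ≤ t / (10 * (C + 3 * |κ|)) :=
    (hs.trans_le ((min_le_right _ _).trans (min_le_right _ _))).le
  have hsum : ‖h s + hκ κ s‖ ≤ t / 10 := sum_small hC (hLip s s1) s4 s5
  obtain ⟨o₁, o₂, ho₁, ho₂, hc₁, hc₂⟩ := hArc' s s2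
  set D := h s - hκ κ s with hD
  have hDn := norm_nonneg D
  -- the consequence of the key inequality at a point near `t e`
  have step : ∀ (o e : ℂ), ‖e‖ = 1 → ‖o - t * e‖ ≤ t / 10 → cub s o = 0 →
      |((starRingEnd ℂ) D * e).re| ≤ ‖D‖ / 5 := by
    intro o e he ho hc
    have hte : ‖(t : ℂ) * e‖ = t := by
      rw [norm_mul, he, Complex.norm_real, Real.norm_eq_abs, abs_of_pos ht0, mul_one]
    have n1 : ‖o‖ ≤ 2 * t := by
      have := norm_add_le (o - t * e) (t * e)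
      rw [sub_add_cancel, hte] at this
      linarith
    have n2 : t / 2 ≤ ‖o‖ := by
      have := norm_sub_norm_le ((t : ℂ) * e) (t * e - o)
      rw [sub_sub_cancel, hte, norm_sub_rev] at this
      linarith
    have k1 := hKey' t s o ht0 htt s3 n2 n1 hc
    rw [← hD] at k1
    have k2 : (starRingEnd ℂ) D * ((t : ℂ) * e) = (starRingEnd ℂ) D * ((h s + hκ κ s) / 2) -
        (starRingEnd ℂ) D * (h s + hκ κ s - 2 * o) / 2 - (starRingEnd ℂ) D * (o - t * e) := by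
      ring
    have k3 : ((starRingEnd ℂ) D * ((t : ℂ) * e)).re = t * ((starRingEnd ℂ) D * e).re := by
      rw [show (starRingEnd ℂ) D * ((t : ℂ) * e) = (t : ℂ) * ((starRingEnd ℂ) D * e) by ring,
        Complex.re_ofReal_mul]
    have k4 : |((starRingEnd ℂ) D * ((h s + hκ κ s) / 2)).re| ≤ ‖D‖ * (t / 20) := by
      refine (Complex.abs_re_le_norm _).trans ?_
      rw [norm_mul, RCLike.norm_conj, norm_div]
      have : ‖(2 : ℂ)‖ = 2 := by norm_num
      rw [this]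
      apply mul_le_mul_of_nonneg_left _ hDn
      linarith
    have k5 : |((starRingEnd ℂ) D * (o - t * e)).re| ≤ ‖D‖ * (t / 10) := by
      refine (Complex.abs_re_le_norm _).trans ?_
      rw [norm_mul, RCLike.norm_conj]
      exact mul_le_mul_of_nonneg_left ho hDn
    have k6 : |((starRingEnd ℂ) D * (h s + hκ κ s - 2 * o) / 2).re| ≤ ‖D‖ * (t / 20) := by
      have e2 : ((starRingEnd ℂ) D * (h s + hκ κ s - 2 * o) / 2).re =
          ((starRingEnd ℂ) D * (h s + hκ κ s - 2 * o)).re / 2 := by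
        have := Complex.div_ofNat_re ((starRingEnd ℂ) D * (h s + hκ κ s - 2 * o)) 2
        exact this
      rw [e2, abs_div, abs_two]
      have : K * t ^ 2 * ‖D‖ ≤ t / 10 * ‖D‖ := by
        apply mul_le_mul_of_nonneg_right _ hDn
        have : K * t ^ 2 = K * t * t := by ring
        rw [this]
        nlinarith
      linarith
    have k7 : |t * ((starRingEnd ℂ) D * e).re| ≤ ‖D‖ * (t / 5) := by
      rw [← k3, k2, Complex.sub_re, Complex.sub_re]
      rw [abs_le] at k4 k5 k6 ⊢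
      constructor <;> linarith [k4.1, k4.2, k5.1, k5.2, k6.1, k6.2]
    rw [abs_mul, abs_of_pos ht0] at k7
    have k8 : t * |((starRingEnd ℂ) D * e).re| ≤ t * (‖D‖ / 5) := by linarith
    exact le_of_mul_le_mul_left k8 ht0
  have r1 := step o₁ 1 norm_one (by rw [mul_one]; exact ho₁) hc₁
  have r2 := step o₂ ω ω_norm ho₂ hc₂
  rw [mul_one, Complex.conj_re] at r1
  have e3 : ((starRingEnd ℂ) D * ω).re = -(D.re / 2) + √3 / 2 * D.im := by
    rw [Complex.mul_re, Complex.conj_re, Complex.conj_im, ω_re, ω_im]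
    ring
  rw [e3] at r2
  have hsq := sq3
  have hs0 : (0 : ℝ) ≤ √3 := Real.sqrt_nonneg 3
  have hnorm : ‖D‖ ^ 2 = D.re ^ 2 + D.im ^ 2 := nsq_re D
  have q1 : D.re ^ 2 ≤ ‖D‖ ^ 2 / 25 := by
    have := sq_le_sq' (neg_le_of_abs_le r1) (le_of_abs_le r1)
    nlinarith
  have q2 : |√3 / 2 * D.im| ≤ 3 / 10 * ‖D‖ := by
    rw [abs_le] at r1 r2 ⊢
    constructor <;> linarith [r1.1, r1.2, r2.1, r2.2]
  have q3 : 3 / 4 * D.im ^ 2 ≤ 9 / 100 * ‖D‖ ^ 2 := by
    have h1 := sq_le_sq' (neg_le_of_abs_le q2) (le_of_abs_le q2)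
    have h2 : (√3 / 2 * D.im) ^ 2 = 3 / 4 * D.im ^ 2 := by
      rw [mul_pow, div_pow, pow_two √3, hsq]
      ring
    rw [h2] at h1
    nlinarith
  have q4 : ‖D‖ ^ 2 ≤ 0 := by nlinarith
  have q5 : ‖D‖ = 0 := by
    have := sq_nonneg ‖D‖
    exact pow_eq_zero_iff (two_ne_zero) |>.1 (le_antisymm q4 this)
  exact sub_eq_zero.1 (norm_eq_zero.1 q5)

/-- the fixed combinations have real shape functions on the real axis -/
theorem hκ_real_im (κ x : ℝ) : (hκ κ (x : ℂ)).im = 0 := by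
  have : hκ κ (x : ℂ) = ((κ * (x - x ^ 2) / (1 - ‖(x : ℂ)‖ ^ 2) : ℝ) : ℂ) := by
    unfold hκ
    rw [Complex.conj_ofReal]
    push_cast
    ring
  rw [this, Complex.ofReal_im]

/-- the negative real axis -/
theorem neg_axis {h : ℂ → ℂ} (hS : Shape2 h) (hArc : ArcStmt) (κ : ℝ)
    (hKey : ∃ K > 0, ∃ t₀ > 0, ∀ (t : ℝ) (s o : ℂ), 0 < t → t < t₀ → ‖s‖ ≤ t ^ 2 → t / 2 ≤ ‖o‖ →
      ‖o‖ ≤ 2 * t → cub s o = 0 → ‖s‖ ^ 2 < (s * (starRingEnd ℂ) o ^ 2).re →
      |((starRingEnd ℂ) (h s - hκ κ s) * (h s + hκ κ s - 2 * o)).re| ≤ K * t ^ 2 * ‖h s - hκ κ s‖) :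
    ∃ δ > 0, ∀ r : ℝ, 0 < r → r < δ → h ((-r : ℝ) : ℂ) = hκ κ ((-r : ℝ) : ℂ) := by
  obtain ⟨K, hK, t₀, ht₀, hKey'⟩ := hKey
  obtain ⟨C, hC, ε₁, hε₁, hLip⟩ := shape2_lip hS
  obtain ⟨ε₃, hε₃, hconj⟩ := hS.conj
  -- the choice of t
  set t : ℝ := min (t₀ / 2) (1 / (10 * K)) with ht
  have ht0 : 0 < t := by
    rw [ht]
    positivity
  have htt : t < t₀ := (min_le_left _ _).trans_lt (by linarith)
  have htK : K * t ≤ 1 / 10 := by
    have h1 : t ≤ 1 / (10 * K) := min_le_right _ _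
    calc K * t ≤ K * (1 / (10 * K)) := mul_le_mul_of_nonneg_left h1 hK.le
      _ = 1 / 10 := by field_simp
  obtain ⟨ε₂, hε₂, hArc'⟩ := hArc t ht0
  refine ⟨min (min (min ε₁ ε₂) ε₃) (min (min (t ^ 2 / 5) (1 / 2)) (t / (10 * (C + 3 * |κ|)))),
    by positivity, ?_⟩
  intro r hr0 hr
  set s : ℂ := ((-r : ℝ) : ℂ) with hsd
  have hsn : ‖s‖ = r := by
    rw [hsd, Complex.norm_real, Real.norm_eq_abs, abs_neg, abs_of_pos hr0]
  have s1 : ‖s‖ < ε₁ := by
    rw [hsn]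
    exact hr.trans_le ((min_le_left _ _).trans ((min_le_left _ _).trans (min_le_left _ _)))
  have s2 : ‖s‖ < ε₂ := by
    rw [hsn]
    exact hr.trans_le ((min_le_left _ _).trans ((min_le_left _ _).trans (min_le_right _ _)))
  have s6 : ‖s‖ < ε₃ := by
    rw [hsn]
    exact hr.trans_le ((min_le_left _ _).trans (min_le_right _ _))
  have s3 : r < t ^ 2 / 5 :=
    hr.trans_le ((min_le_right _ _).trans ((min_le_left _ _).trans (min_le_left _ _)))
  have s4 : ‖s‖ ≤ 1 / 2 := by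
    rw [hsn]
    exact (hr.trans_le ((min_le_right _ _).trans ((min_le_left _ _).trans (min_le_right _ _)))).le
  have s5 : ‖s‖ ≤ t / (10 * (C + 3 * |κ|)) := by
    rw [hsn]
    exact (hr.trans_le ((min_le_right _ _).trans (min_le_right _ _))).le
  have hsum : ‖h s + hκ κ s‖ ≤ t / 10 := sum_small hC (hLip s s1) s4 s5
  obtain ⟨-, o, -, ho, -, hc⟩ := hArc' s s2
  -- coordinates of `o`
  have o1 : |o.re + t / 2| ≤ t / 10 := by
    have := (Complex.abs_re_le_norm (o - t * ω)).trans ho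
    rw [Complex.sub_re, Complex.re_ofReal_mul, ω_re] at this
    rwa [show o.re - t * (-1 / 2) = o.re + t / 2 by ring] at this
  have o2 : |o.im - t * (√3 / 2)| ≤ t / 10 := by
    have := (Complex.abs_im_le_norm (o - t * ω)).trans ho
    rwa [Complex.sub_im, Complex.im_ofReal_mul, ω_im] at this
  have h173 : (173 / 100 : ℝ) ≤ √3 := by
    apply Real.le_sqrt_of_sq_le
    norm_num
  rw [abs_le] at o1 o2
  have x1 : -(6 / 10) * t ≤ o.re := by linarith [o1.1]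
  have x2 : o.re ≤ -(4 / 10) * t := by linarith [o1.2]
  have y1 : 765 / 1000 * t ≤ o.im := by nlinarith [o2.1]
  have hte : ‖(t : ℂ) * ω‖ = t := by
    rw [norm_mul, ω_norm, Complex.norm_real, Real.norm_eq_abs, abs_of_pos ht0, mul_one]
  have n1 : ‖o‖ ≤ 2 * t := by
    have := norm_add_le (o - t * ω) (t * ω)
    rw [sub_add_cancel, hte] at this
    linarith
  have n2 : t / 2 ≤ ‖o‖ := by
    have := norm_sub_norm_le ((t : ℂ) * ω) (t * ω - o)
    rw [sub_sub_cancel, hte, norm_sub_rev] at this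
    linarith
  have hcond : ‖s‖ ^ 2 < (s * (starRingEnd ℂ) o ^ 2).re := by
    have e1 : (s * (starRingEnd ℂ) o ^ 2).re = r * (o.im ^ 2 - o.re ^ 2) := by
      rw [hsd, Complex.re_ofReal_mul, pow_two, Complex.mul_re, Complex.conj_re, Complex.conj_im]
      ring
    rw [e1, hsn, pow_two r]
    apply mul_lt_mul_of_pos_left _ hr0
    have e2 : o.re ^ 2 ≤ 36 / 100 * t ^ 2 := by nlinarith
    have e3 : 585 / 1000 * t ^ 2 ≤ o.im ^ 2 := by nlinarith
    nlinarith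
  have hst : ‖s‖ ≤ t ^ 2 := by
    rw [hsn]
    nlinarith
  have key := hKey' t s o ht0 htt hst n2 n1 hc hcond
  set D := h s - hκ κ s with hD
  have hDim : D.im = 0 := by
    have h1 := hconj s s6
    have h2 : (starRingEnd ℂ) s = s := by rw [hsd, Complex.conj_ofReal]
    rw [h2] at h1
    have h3 : (h s).im = 0 := Complex.conj_eq_iff_im.1 h1.symm
    rw [hD, Complex.sub_im, h3, hsd, hκ_real_im, sub_zero]
  have hDre : D = ((D.re : ℝ) : ℂ) := by
    apply Complex.ext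
    · rw [Complex.ofReal_re]
    · rw [Complex.ofReal_im, hDim]
  have hDn : ‖D‖ = |D.re| := by
    conv_lhs => rw [hDre]
    rw [Complex.norm_real, Real.norm_eq_abs]
  have k1 : ((starRingEnd ℂ) D * (h s + hκ κ s - 2 * o)).re =
      D.re * ((h s + hκ κ s).re - 2 * o.re) := by
    conv_lhs => rw [hDre]
    rw [Complex.conj_ofReal, Complex.re_ofReal_mul, Complex.sub_re]
    congr 2
    simp
  have k2 : -(t / 10) ≤ (h s + hκ κ s).re :=
    (abs_le.1 ((Complex.abs_re_le_norm _).trans hsum)).1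
  have k3 : 7 / 10 * t ≤ (h s + hκ κ s).re - 2 * o.re := by linarith
  rw [k1, abs_mul, hDn, abs_of_nonneg (by linarith : 0 ≤ (h s + hκ κ s).re - 2 * o.re)] at key
  have hDr : |D.re| = 0 := by
    by_contra hne
    have hp : 0 < |D.re| := lt_of_le_of_ne (abs_nonneg _) (Ne.symm hne)
    have h1 : |D.re| * (7 / 10 * t) ≤ |D.re| * ((h s + hκ κ s).re - 2 * o.re) :=
      mul_le_mul_of_nonneg_left k3 hp.le
    have h2 : K * t ^ 2 * |D.re| ≤ |D.re| * (t / 10) := by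
      have h20 : K * t ^ 2 ≤ t / 10 := by
        calc K * t ^ 2 = K * t * t := by ring
          _ ≤ 1 / 10 * t := mul_le_mul_of_nonneg_right htK ht0.le
          _ = t / 10 := by ring
      rw [mul_comm]
      exact mul_le_mul_of_nonneg_left h20 hp.le
    have h3 : |D.re| * (7 / 10 * t) ≤ |D.re| * (t / 10) := h1.trans (key.trans h2)
    have h4 := le_of_mul_le_mul_left h3 hp
    linarith
  have hD0 : D = 0 := by
    rw [hDre, abs_eq_zero.1 hDr, Complex.ofReal_zero]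
  exact sub_eq_zero.1 hD0

/-- Row COREC. -/
theorem coreC46 (hReal : RealPosC) (hArc : ArcStmt) (hKP : KeyPosC) (hKF : KeyFullC) : CoreC := by
  intro h hS hH
  obtain ⟨κ, δ₁, hδ₁, hpos⟩ := hReal h hS hH
  obtain ⟨δ₂, hδ₂, hneg⟩ := neg_axis hS hArc κ (hKP h hS hH κ ⟨δ₁, hδ₁, hpos⟩)
  have hreal : ∃ δ > 0, ∀ x : ℝ, |x| < δ → h x = hκ κ x := by
    refine ⟨min δ₁ δ₂, by positivity, fun x hx => ?_⟩
    rcases le_or_gt 0 x with h0 | h0
    · rw [abs_of_nonneg h0] at hx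
      exact hpos x h0 (hx.trans_le (min_le_left _ _))
    · rw [abs_of_neg h0] at hx
      have := hneg (-x) (by linarith) (hx.trans_le (min_le_right _ _))
      rwa [neg_neg] at this
  exact ⟨κ, core_of_key (shape2_lip hS) hArc κ (hKF h hS hH κ hreal)⟩

end Pool.Agent.Pon30
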