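import Pool.Agent.Pon30.StmtsP34

/-! Row GLOBP of MP_02df19_gt (helper46): propagation to the whole disc. -/

set_option autoImplicit false

namespace Pool.Agent.Pon30

open Complex

/-- Row GLOBP. -/
theorem globP46 (hStep : StepP) : GlobP := by
  rintro h κ hH ⟨ε, hε, h0⟩
  by_contra hcon
  push Not at hcon
  obtain ⟨s₁, hs₁, hne⟩ := hcon
  set V : Set ℂ := interior {s | h s = hκ κ s} with hV
  have hVs : ∀ s ∈ V, h s = hκ κ s := fun s hs => by
    have h1 : s ∈ {s | h s = hκ κ s} := interior_subset hs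
    exact h1
  have hBc : IsCompact (Metric.closedBall (0 : ℂ) ‖s₁‖ ∩ Vᶜ) :=
    (isCompact_closedBall _ _).inter_right isOpen_interior.isClosed_compl
  have hBne : (Metric.closedBall (0 : ℂ) ‖s₁‖ ∩ Vᶜ).Nonempty :=
    ⟨s₁, by rw [mem_closedBall_zero_iff], fun hmem => hne (hVs _ hmem)⟩
  obtain ⟨s₀, hs₀, hmin⟩ := hBc.exists_isMinOn hBne continuous_norm.continuousOn
  have hs₀1 : ‖s₀‖ ≤ ‖s₁‖ := mem_closedBall_zero_iff.1 hs₀.1
  have hlt : ∀ s : ℂ, ‖s‖ < ‖s₀‖ → h s = hκ κ s := by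
    intro s hs
    by_contra hs2
    have hmem : s ∈ Metric.closedBall (0 : ℂ) ‖s₁‖ ∩ Vᶜ :=
      ⟨mem_closedBall_zero_iff.2 (hs.le.trans hs₀1), fun hmem => hs2 (hVs _ hmem)⟩
    exact absurd (hmin hmem) (not_le.2 hs)
  have hpos : 0 < ‖s₀‖ := by
    rw [norm_pos_iff]
    rintro rfl
    apply hs₀.2
    rw [hV, mem_interior_iff_mem_nhds]
    filter_upwards [Metric.ball_mem_nhds (0 : ℂ) hε] with s hs
    exact h0 s (mem_ball_zero_iff.1 hs)
  obtain ⟨δ, hδ, hst⟩ := hStep h κ hH s₀ hpos (hs₀1.trans_lt hs₁) hlt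
  apply hs₀.2
  rw [hV, mem_interior_iff_mem_nhds]
  filter_upwards [Metric.ball_mem_nhds s₀ hδ] with s hs
  exact hst s (mem_ball_iff_norm.1 hs)

end Pool.Agent.Pon30
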