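import Pool.Agent.Pon30.CenterC46

/-! MP_02df19_gt (helper46): the shape function of a centre function that is twice differentiable near one point. -/

set_option autoImplicit false

namespace Pool.Agent.Pon30

open Complex Filter Topology

/-- The shape function of an arbitrary centre function which is twice continuously differentiable near `(1, 1, 1)`. -/
theorem shape2C46 (hJet : JetC) : ∀ f : ℝ → ℝ → ℝ → ℝ, IsCenterFunction f →
    ContDiffAt ℝ 2 (fun p : ℝ × ℝ × ℝ => f p.1 p.2.1 p.2.2) (1, 1, 1) → Shape2 (shp f) := by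
  intro f hf h2
  have hd := shp_contDiffAt hf h2
  have hconj : ∃ ε > 0, ∀ s : ℂ, ‖s‖ < ε → shp f ((starRingEnd ℂ) s) = (starRingEnd ℂ) (shp f s) :=
    ⟨1, one_pos, fun s hs => shp_conj hf hs⟩
  have hrot : ∃ ε > 0, ∀ s : ℂ, ‖s‖ < ε → shp f (ω * s) = (starRingEnd ℂ) ω * shp f s :=
    ⟨1, one_pos, fun s hs => shp_rot hf hs⟩
  refine ⟨?_, hJet _ hd hconj hrot, hconj, hrot⟩
  have he : ∀ᶠ s in 𝓝 (0 : ℂ), ContDiffAt ℝ 2 (shp f) s := hd.eventually (by simp)
  obtain ⟨ε, hε, h⟩ := Metric.eventually_nhds_iff.1 he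
  exact ⟨ε, hε, fun s hs => (h (by rwa [dist_zero_right])).continuousAt⟩

end Pool.Agent.Pon30
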