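import Pool.Agent.Pon30.StmtsC
import Pool.Agent.Pon30.StmtsP34
import Pool.Agent.Pon30.ShapeU46
import Pool.Agent.Pon30.CoreC46
import Pool.Agent.Pon30.GlobP46
import Pool.Agent.Pon30.AsmW30

/-! Assembly of Theorem U of MP_02df19_gt (helper46): arbitrary centre functions that are twice differentiable at the
equilateral shape only. -/

set_option autoImplicit false

namespace Pool.Agent.Pon30

open Complex

/-- the hypothesis on the pairs gives the property of the shape function -/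
theorem hhw_shp (hPair : PairW) {f : ℝ → ℝ → ℝ → ℝ} (hf : IsCenterFunction f)
    (hloc : ∀ o α β α' β', PonceletPair o α β α' β' → NonAligned β β' → OnEllipse f o α β α' β') :
    HHw (shp f) := by
  intro p q F hqp hF hna
  obtain ⟨α, β, c, hβ, hc, hαc, h⟩ := hPair f hf hloc p q F hqp hF hna
  refine ⟨α, β, c, hβ, hc, hαc, fun z₀ z₁ z₂ hz => ?_⟩
  obtain ⟨h1, h2⟩ := h z₀ z₁ z₂ hz
  rw [← center_Xh hf (or_L hqp hz.or) h1]
  exact h2

/-- the shape function on the disc -/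
theorem disc_of_U (hJet : JetC) (hCore : CoreC) (hGlob : GlobP) (hWsum : WsumC) (hPair : PairW)
    {f : ℝ → ℝ → ℝ → ℝ} (hf : IsCenterFunction f)
    (h2 : ContDiffAt ℝ 2 (fun p : ℝ × ℝ × ℝ => f p.1 p.2.1 p.2.2) (1, 1, 1))
    (hloc : ∀ o α β α' β', PonceletPair o α β α' β' → NonAligned β β' → OnEllipse f o α β α' β') :
    ∃ κ : ℝ, ∀ s : ℂ, ‖s‖ < 1 → wsum f (T0 s) (T1 s) (T2 s) ≠ 0 ∧ shp f s = hκ κ s := by
  have hH := hhw_shp hPair hf hloc
  obtain ⟨κ, hε⟩ := hCore _ (shape2C46 hJet f hf h2) hH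
  exact ⟨κ, fun s hs => ⟨hWsum f hf hloc s hs, hGlob _ κ hH hε s hs⟩⟩

/-- Theorem U from its rows. -/
theorem main_of_U (hJet : JetC) (hCore : CoreC) (hGlob : GlobP) (hWsum : WsumC) (hPair : PairW)
    (hFinal : FinalC) (hStrict : StrictC) (f : ℝ → ℝ → ℝ → ℝ) (hf : IsCenterFunction f)
    (h2 : ContDiffAt ℝ 2 (fun p : ℝ × ℝ × ℝ => f p.1 p.2.1 p.2.2) (1, 1, 1))
    (hloc : ∀ o α β α' β', PonceletPair o α β α' β' → NonAligned β β' → OnEllipse f o α β α' β') :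
    ∃ κ : ℝ, (∀ A B C : ℂ, IsTriangle A B C → wsum f A B C ≠ 0 ∧
      ∀ O : ℂ, ‖O - A‖ = ‖O - B‖ → ‖O - B‖ = ‖O - C‖ →
        center f A B C = (1 - κ) * ((A + B + C) / 3) + κ * O) ∧
      ((∀ o α β α' β', PonceletPair o α β α' β' → NonAligned β β' → EllipticLocus f o α β α' β') →
        κ = 0 ∨ κ = 1 ∨ κ = -2) := by
  obtain ⟨κ, h⟩ := disc_of_U hJet hCore hGlob hWsum hPair hf h2 hloc
  exact ⟨κ, hFinal f κ hf h, fun hell => hStrict f κ hf hell h⟩

/-- Theorem U under the stronger hypothesis that the loci are nondegenerate ellipses. -/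
theorem main_of_U_elliptic (hJet : JetC) (hCore : CoreC) (hGlob : GlobP) (hWsum : WsumC)
    (hPair : PairW) (hFinal : FinalC) (hStrict : StrictC) (f : ℝ → ℝ → ℝ → ℝ)
    (hf : IsCenterFunction f)
    (h2 : ContDiffAt ℝ 2 (fun p : ℝ × ℝ × ℝ => f p.1 p.2.1 p.2.2) (1, 1, 1))
    (hell : ∀ o α β α' β', PonceletPair o α β α' β' → NonAligned β β' → EllipticLocus f o α β α' β') :
    ∃ κ : ℝ, (κ = 0 ∨ κ = 1 ∨ κ = -2) ∧ ∀ A B C : ℂ, IsTriangle A B C → wsum f A B C ≠ 0 ∧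
      ∀ O : ℂ, ‖O - A‖ = ‖O - B‖ → ‖O - B‖ = ‖O - C‖ →
        center f A B C = (1 - κ) * ((A + B + C) / 3) + κ * O := by
  obtain ⟨κ, h, hk⟩ := main_of_U hJet hCore hGlob hWsum hPair hFinal hStrict f hf h2
    (fun o α β α' β' hP hN => onEllipse_of_elliptic (hell o α β α' β' hP hN))
  exact ⟨κ, hk hell, h⟩

end Pool.Agent.Pon30
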