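import Pool.Agent.Pon30.StmtsW
import Pool.Agent.Pon30.Basic

/-!
# MP_02df19_gt, weak version, row ARC: points of the Thomson cubic near two of its directions
-/

set_option autoImplicit false

namespace Pool.Agent.Pon30

open Complex Set Filter

namespace A41

theorem cont_s (o : ℂ) : Continuous fun s : ℂ => cub s o := by
  unfold cub
  have h1 := Complex.continuous_im
  have h2 := Complex.continuous_conj
  fun_prop

theorem cont_o (s : ℂ) : Continuous fun o : ℂ => cub s o := by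
  unfold cub
  have h1 := Complex.continuous_im
  have h2 := Complex.continuous_conj
  fun_prop

theorem cub_zero (o : ℂ) : cub 0 o = -(o ^ 3).im := by
  unfold cub
  simp

/-- the segment through `c t` -/
noncomputable def seg (c : ℂ) (t δ : ℝ) : ℂ := c * ((t : ℂ) + (δ * t : ℝ) * I)

theorem seg_cube (c : ℂ) (hc : c ^ 3 = 1) (t δ : ℝ) : (seg c t δ ^ 3).im = t ^ 3 * (3 * δ - δ ^ 3) := by
  have h : seg c t δ ^ 3 = ((t : ℂ) + (δ * t : ℝ) * I) ^ 3 := by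
    unfold seg
    rw [mul_pow, hc, one_mul]
  rw [h]
  have : ((t : ℂ) + (δ * t : ℝ) * I) ^ 3 =
      ((t ^ 3 - 3 * t * (δ * t) ^ 2 : ℝ) : ℂ) + ((3 * t ^ 2 * (δ * t) - (δ * t) ^ 3 : ℝ) : ℂ) * I := by
    push_cast
    have hI : I ^ 2 = -1 := I_sq
    have hI3 : I ^ 3 = -I := by rw [pow_succ, I_sq]; ring
    ring_nf
    rw [hI3, hI]
    ring
  rw [this, add_im, mul_im, ofReal_im, ofReal_re, I_im, ofReal_im]
  ring

theorem seg_near (c : ℂ) (hc : ‖c‖ = 1) (t δ : ℝ) (ht : 0 < t) (h1 : -(1 / 10) ≤ δ) (h2 : δ ≤ 1 / 10) :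
    ‖seg c t δ - c * t‖ ≤ t / 10 := by
  have : seg c t δ - c * t = c * ((δ * t : ℝ) * I) := by
    unfold seg
    ring
  rw [this, norm_mul, hc, one_mul, norm_mul, norm_I, mul_one, norm_real, Real.norm_eq_abs, abs_mul,
    abs_of_pos ht]
  have h3 : |δ| ≤ 1 / 10 := abs_le.mpr ⟨h1, h2⟩
  nlinarith

theorem arc_one (c : ℂ) (hc : ‖c‖ = 1) (hc3 : c ^ 3 = 1) (t : ℝ) (ht : 0 < t) :
    ∃ ε > 0, ∀ s : ℂ, ‖s‖ < ε → ∃ o : ℂ, ‖o - c * t‖ ≤ t / 10 ∧ cub s o = 0 := by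
  have ht3 : 0 < t ^ 3 := by positivity
  have hp : cub 0 (seg c t (1 / 10)) < 0 := by
    rw [cub_zero, seg_cube c hc3]
    nlinarith
  have hm : 0 < cub 0 (seg c t (-(1 / 10))) := by
    rw [cub_zero, seg_cube c hc3]
    nlinarith
  have e1 : ∀ᶠ s in nhds (0 : ℂ), cub s (seg c t (1 / 10)) < 0 :=
    (cont_s _).continuousAt.eventually (gt_mem_nhds hp)
  have e2 : ∀ᶠ s in nhds (0 : ℂ), 0 < cub s (seg c t (-(1 / 10))) :=
    (cont_s _).continuousAt.eventually (lt_mem_nhds hm)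
  obtain ⟨ε, hε, hb⟩ := Metric.eventually_nhds_iff.mp (e1.and e2)
  refine ⟨ε, hε, fun s hs => ?_⟩
  have hs' : dist s 0 < ε := by rwa [dist_zero_right]
  obtain ⟨g1, g2⟩ := hb hs'
  have hcont : ContinuousOn (fun δ : ℝ => cub s (seg c t δ)) (Icc (-(1 / 10)) (1 / 10)) := by
    refine ((cont_o s).comp ?_).continuousOn
    unfold seg
    fun_prop
  have hiv := intermediate_value_Icc' (by norm_num : (-(1 / 10) : ℝ) ≤ 1 / 10) hcont
  obtain ⟨δ, hδ, h0⟩ := hiv ⟨le_of_lt g1, le_of_lt g2⟩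
  exact ⟨seg c t δ, seg_near c hc t δ ht hδ.1 hδ.2, h0⟩

end A41

/-- ARC -/
theorem arcStmt41 : ArcStmt := by
  intro t ht
  obtain ⟨e1, h1, f1⟩ := A41.arc_one 1 (by simp) (by simp) t ht
  obtain ⟨e2, h2, f2⟩ := A41.arc_one ω ω_norm ω_cube t ht
  refine ⟨min e1 e2, lt_min h1 h2, fun s hs => ?_⟩
  obtain ⟨o1, a1, b1⟩ := f1 s (lt_of_lt_of_le hs (min_le_left _ _))
  obtain ⟨o2, a2, b2⟩ := f2 s (lt_of_lt_of_le hs (min_le_right _ _))
  refine ⟨o1, o2, ?_, ?_, b1, b2⟩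
  · rwa [one_mul] at a1
  · rwa [mul_comm]

end Pool.Agent.Pon30
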