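import Pool.Agent.Pon30.SigP46

/-! Row DROPP of MP_02df19_gt (helper82): near the pair with `F = 0` there are pairs with infinitely many triangles
whose shapes have a smaller modulus. -/

set_option autoImplicit false

namespace Pool.Agent.Pon30

open Complex Filter Topology

namespace Dr82

/-- `‖P‖² + ‖R‖²` over the pair `p`, `q`, `F` at the triangle with product `l` -/
noncomputable def Sg (p q F l : ℂ) : ℝ :=
  (‖p‖ ^ 2 + ‖q‖ ^ 2) * (1 - ‖F‖ ^ 2 / 9) +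
    4 * (p * (starRingEnd ℂ) q * (F / 3 + l ^ 2 * (starRingEnd ℂ) F ^ 2 / 9)).re

/-- `(‖P‖² - ‖R‖²)²` -/
noncomputable def Dg (p q F l : ℂ) : ℝ :=
  (‖p‖ ^ 2 - ‖q‖ ^ 2) ^ 2 *
    ((1 - ‖F‖ ^ 2 / 9) ^ 2 - 4 * ‖F / 3 + l ^ 2 * (starRingEnd ℂ) F ^ 2 / 9‖ ^ 2)

noncomputable def Gg (r : ℝ) (p q F l : ℂ) : ℝ :=
  (1 + r ^ 2) ^ 2 * Dg p q F l - (1 - r ^ 2) ^ 2 * Sg p q F l ^ 2

theorem Sg_sub (p q F l l₁ : ℂ) : Sg p q F l - Sg p q F l₁ =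
    4 / 9 * (p * (starRingEnd ℂ) q * (starRingEnd ℂ) F ^ 2 * (l ^ 2 - l₁ ^ 2)).re := by
  have e : 4 / 9 * (p * (starRingEnd ℂ) q * (starRingEnd ℂ) F ^ 2 * (l ^ 2 - l₁ ^ 2)).re =
      4 * ((p * (starRingEnd ℂ) q * (F / 3 + l ^ 2 * (starRingEnd ℂ) F ^ 2 / 9)).re -
        (p * (starRingEnd ℂ) q * (F / 3 + l₁ ^ 2 * (starRingEnd ℂ) F ^ 2 / 9)).re) := by
    rw [← sub_re]
    have e2 : p * (starRingEnd ℂ) q * (F / 3 + l ^ 2 * (starRingEnd ℂ) F ^ 2 / 9) -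
        p * (starRingEnd ℂ) q * (F / 3 + l₁ ^ 2 * (starRingEnd ℂ) F ^ 2 / 9) =
        ((1 / 9 : ℝ) : ℂ) * (p * (starRingEnd ℂ) q * (starRingEnd ℂ) F ^ 2 * (l ^ 2 - l₁ ^ 2)) := by
      push_cast; ring
    rw [e2, re_ofReal_mul]
    ring
  rw [e]
  unfold Sg
  ring

theorem nrm (F m : ℂ) (hm : ‖m‖ = 1) : ‖F / 3 + m * (starRingEnd ℂ) F ^ 2 / 9‖ ^ 2 =
    ‖F‖ ^ 2 / 9 + ‖F‖ ^ 4 / 81 + 2 / 27 * (m * (starRingEnd ℂ) F ^ 3).re := by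
  have hm' : m.re ^ 2 + m.im ^ 2 = 1 := by rw [← nsq_re, hm]; norm_num
  have e4 : ‖F‖ ^ 4 = (F.re ^ 2 + F.im ^ 2) ^ 2 := by rw [← nsq_re]; ring
  have e1 : F / 3 + m * (starRingEnd ℂ) F ^ 2 / 9 =
      ((1 / 9 : ℝ) : ℂ) * (((3 : ℝ) : ℂ) * F + m * ((starRingEnd ℂ) F * (starRingEnd ℂ) F)) := by
    push_cast; ring
  have e2 : m * (starRingEnd ℂ) F ^ 3 =
      m * ((starRingEnd ℂ) F * ((starRingEnd ℂ) F * (starRingEnd ℂ) F)) := by ring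
  rw [e4, e1, e2, nsq_re, nsq_re F]
  simp only [mul_re, mul_im, add_re, add_im, conj_re, conj_im, ofReal_re, ofReal_im]
  linear_combination ((F.re ^ 2 + F.im ^ 2) ^ 2 / 81) * hm'

theorem Dg_sub (p q F l l₁ : ℂ) (hl : ‖l‖ = 1) (hl₁ : ‖l₁‖ = 1) : Dg p q F l - Dg p q F l₁ =
    -(8 / 27) * (‖p‖ ^ 2 - ‖q‖ ^ 2) ^ 2 * ((starRingEnd ℂ) F ^ 3 * (l ^ 2 - l₁ ^ 2)).re := by
  unfold Dg
  rw [nrm F (l ^ 2) (by rw [norm_pow, hl]; norm_num), nrm F (l₁ ^ 2) (by rw [norm_pow, hl₁]; norm_num)]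
  have e : ((starRingEnd ℂ) F ^ 3 * (l ^ 2 - l₁ ^ 2)).re =
      (l ^ 2 * (starRingEnd ℂ) F ^ 3).re - (l₁ ^ 2 * (starRingEnd ℂ) F ^ 3).re := by
    rw [← sub_re]
    congr 1
    ring
  rw [e]
  ring

/-- at the triangle with shape `s` -/
theorem at_T (hPar : ParamP) {s ζ : ℂ} (hs : ‖s‖ < 1) (hζ : ‖ζ‖ < 1 / 8) :
    Sg (pz s ζ) (qz s ζ) (Fz ζ) (lz ζ) = 1 + ‖s‖ ^ 2 ∧
    Dg (pz s ζ) (qz s ζ) (Fz ζ) (lz ζ) = (1 - ‖s‖ ^ 2) ^ 2 := by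
  obtain ⟨-, -, hT, hz, -, h0, h1, h2⟩ := hPar s ζ hs hζ
  obtain ⟨a, b⟩ := sigP46 (pz s ζ) (qz s ζ) _ _ _ _ hT
  rw [hz] at a b
  have hP : Pc (L (pz s ζ) (qz s ζ) (z0 ζ)) (L (pz s ζ) (qz s ζ) (z1 ζ)) (L (pz s ζ) (qz s ζ) (z2 ζ)) = 1 := by
    rw [← h0, ← h1, ← h2, Pc_sub, Pc_T]
  have hR : Rc (L (pz s ζ) (qz s ζ) (z0 ζ)) (L (pz s ζ) (qz s ζ) (z1 ζ)) (L (pz s ζ) (qz s ζ) (z2 ζ)) = s := by
    rw [← h0, ← h1, ← h2, Rc_sub, Rc_T]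
  rw [hP, hR, norm_one] at a b
  refine ⟨?_, ?_⟩
  · unfold Sg; rw [← a]; norm_num
  · unfold Dg; rw [← b]; norm_num

/-- the main point: a triangle with product `l` and `Gg > 0` has a shape of modulus less than `r` -/
theorem small {r : ℝ} (hr : 0 < r) (hr1 : r < 1) {p q F z₀ z₁ z₂ : ℂ} (hpq : ‖q‖ < ‖p‖) (hT : Tz F z₀ z₁ z₂)
    (hG : 0 < Gg r p q F (z₀ * z₁ * z₂)) :
    ‖Rc (L p q z₀) (L p q z₁) (L p q z₂)‖ < r * ‖Pc (L p q z₀) (L p q z₁) (L p q z₂)‖ := by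
  obtain ⟨a, b⟩ := sigP46 p q F z₀ z₁ z₂ hT
  have ho := or_L hpq hT.or
  set X := ‖Pc (L p q z₀) (L p q z₁) (L p q z₂)‖ with hX
  set Y := ‖Rc (L p q z₀) (L p q z₁) (L p q z₂)‖ with hY
  have hY0 : 0 ≤ Y := norm_nonneg _
  have a' : X ^ 2 + Y ^ 2 = Sg p q F (z₀ * z₁ * z₂) := a
  have b' : (X ^ 2 - Y ^ 2) ^ 2 = Dg p q F (z₀ * z₁ * z₂) := b
  unfold Gg at hG
  rw [← a', ← b'] at hG
  have hr2 : r ^ 2 < 1 := by nlinarith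
  have h1 : 0 < X ^ 2 - Y ^ 2 := by nlinarith
  have h2 : ((1 - r ^ 2) * (X ^ 2 + Y ^ 2)) ^ 2 < ((1 + r ^ 2) * (X ^ 2 - Y ^ 2)) ^ 2 := by
    rw [mul_pow, mul_pow]; linarith
  have h3 : (1 - r ^ 2) * (X ^ 2 + Y ^ 2) < (1 + r ^ 2) * (X ^ 2 - Y ^ 2) :=
    lt_of_pow_lt_pow_left₀ 2 (by positivity) h2
  have h4 : Y ^ 2 < (r * X) ^ 2 := by nlinarith
  exact lt_of_pow_lt_pow_left₀ 2 (by positivity) h4

/-- the function `Fz (ρ v) / ρ` -/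
noncomputable def F1 (v : ℂ) (ρ : ℝ) : ℂ :=
  3 * (v - ρ * (starRingEnd ℂ) v ^ 2) / (1 - ((ρ : ℂ) * (starRingEnd ℂ) v) ^ 3)

theorem Fz_eq (v : ℂ) (ρ : ℝ) : Fz (ρ * v) = ρ * F1 v ρ := by
  unfold Fz F1
  rw [map_mul, conj_ofReal, mul_div_assoc']
  congr 1
  ring

/-- `Gg / ρ²` along the ray `ζ = ρ v` -/
noncomputable def Hg (s v l : ℂ) (ρ : ℝ) : ℝ :=
  (1 + ‖s‖ ^ 2) ^ 2 * (-(8 / 27) * (‖pz s (ρ * v)‖ ^ 2 - ‖qz s (ρ * v)‖ ^ 2) ^ 2 *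
      (ρ * ((starRingEnd ℂ) (F1 v ρ) ^ 3 * (l ^ 2 - lz (ρ * v) ^ 2)).re)) -
    (1 - ‖s‖ ^ 2) ^ 2 * (8 / 9 * (1 + ‖s‖ ^ 2) *
      (pz s (ρ * v) * (starRingEnd ℂ) (qz s (ρ * v)) * (starRingEnd ℂ) (F1 v ρ) ^ 2 * (l ^ 2 - lz (ρ * v) ^ 2)).re +
      16 / 81 * ρ ^ 2 *
      (pz s (ρ * v) * (starRingEnd ℂ) (qz s (ρ * v)) * (starRingEnd ℂ) (F1 v ρ) ^ 2 *
        (l ^ 2 - lz (ρ * v) ^ 2)).re ^ 2)

theorem Gg_eq (hPar : ParamP) {s v l : ℂ} {ρ : ℝ} (hs : ‖s‖ < 1) (hl : ‖l‖ = 1) (hζ : ‖(ρ : ℂ) * v‖ < 1 / 8) :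
    Gg ‖s‖ (pz s (ρ * v)) (qz s (ρ * v)) (Fz (ρ * v)) l = ρ ^ 2 * Hg s v l ρ := by
  obtain ⟨hS, hD⟩ := at_T hPar hs hζ
  have hl1 : ‖lz (ρ * v)‖ = 1 := (hPar s _ hs hζ).2.2.2.2.1
  have a := Sg_sub (pz s (ρ * v)) (qz s (ρ * v)) (Fz (ρ * v)) l (lz (ρ * v))
  have b := Dg_sub (pz s (ρ * v)) (qz s (ρ * v)) (Fz (ρ * v)) l (lz (ρ * v)) hl hl1
  have a1 : (pz s (ρ * v) * (starRingEnd ℂ) (qz s (ρ * v)) * (starRingEnd ℂ) (Fz (ρ * v)) ^ 2 *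
      (l ^ 2 - lz (ρ * v) ^ 2)).re = ρ ^ 2 *
      (pz s (ρ * v) * (starRingEnd ℂ) (qz s (ρ * v)) * (starRingEnd ℂ) (F1 v ρ) ^ 2 *
        (l ^ 2 - lz (ρ * v) ^ 2)).re := by
    rw [← re_ofReal_mul, Fz_eq, map_mul, conj_ofReal]
    congr 1
    push_cast
    ring
  have b1 : ((starRingEnd ℂ) (Fz (ρ * v)) ^ 3 * (l ^ 2 - lz (ρ * v) ^ 2)).re =
      ρ ^ 3 * ((starRingEnd ℂ) (F1 v ρ) ^ 3 * (l ^ 2 - lz (ρ * v) ^ 2)).re := by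
    rw [← re_ofReal_mul, Fz_eq, map_mul, conj_ofReal]
    congr 1
    push_cast
    ring
  rw [a1, hS] at a
  rw [b1, hD] at b
  have a2 : Sg (pz s (ρ * v)) (qz s (ρ * v)) (Fz (ρ * v)) l = 1 + ‖s‖ ^ 2 + 4 / 9 * (ρ ^ 2 *
      (pz s (ρ * v) * (starRingEnd ℂ) (qz s (ρ * v)) * (starRingEnd ℂ) (F1 v ρ) ^ 2 *
        (l ^ 2 - lz (ρ * v) ^ 2)).re) := by linarith
  have b2 : Dg (pz s (ρ * v)) (qz s (ρ * v)) (Fz (ρ * v)) l = (1 - ‖s‖ ^ 2) ^ 2 +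
      -(8 / 27) * (‖pz s (ρ * v)‖ ^ 2 - ‖qz s (ρ * v)‖ ^ 2) ^ 2 *
        (ρ ^ 3 * ((starRingEnd ℂ) (F1 v ρ) ^ 3 * (l ^ 2 - lz (ρ * v) ^ 2)).re) := by linarith
  unfold Gg Hg
  rw [a2, b2]
  ring

theorem cont_Kz {ζ : ℂ} (hζ : ‖ζ‖ < 1) : ContinuousAt Kz ζ := by
  unfold Kz
  have h : (1 - ‖ζ‖ ^ 2) ^ 2 ≠ 0 := by
    have : 0 < 1 - ‖ζ‖ ^ 2 := by nlinarith [norm_nonneg ζ]
    positivity
  exact ContinuousAt.div (by fun_prop) (by fun_prop) h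

theorem cube_ne {ζ : ℂ} (hζ : ‖ζ‖ < 1) : 1 - ζ ^ 3 ≠ 0 := by
  intro h
  have h1 : ζ ^ 3 = 1 := by linear_combination -h
  have h2 : ‖ζ‖ ^ 3 = 1 := by rw [← norm_pow, h1, norm_one]
  have h3 : ‖ζ‖ ^ 3 < 1 := pow_lt_one₀ (norm_nonneg _) hζ (by norm_num)
  linarith

theorem cube_ne' {ζ : ℂ} (hζ : ‖ζ‖ < 1) : 1 - (starRingEnd ℂ) ζ ^ 3 ≠ 0 :=
  cube_ne (by rwa [RCLike.norm_conj])

theorem cont_lz {ζ : ℂ} (hζ : ‖ζ‖ < 1) : ContinuousAt lz ζ := by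
  unfold lz
  have h := cube_ne hζ
  refine ContinuousAt.div (by fun_prop) (by fun_prop) ?_
  simpa using h

theorem cont_Fz {ζ : ℂ} (hζ : ‖ζ‖ < 1) : ContinuousAt Fz ζ := by
  unfold Fz
  exact ContinuousAt.div (by fun_prop) (by fun_prop) (cube_ne' hζ)

theorem cont_F1 (v : ℂ) : ContinuousAt (F1 v) 0 := by
  unfold F1
  exact ContinuousAt.div (by fun_prop) (by fun_prop) (by simp)

theorem F1_zero (v : ℂ) : F1 v 0 = 3 * v := by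
  unfold F1
  simp

theorem Kz_zero : Kz 0 = 1 := by unfold Kz; simp
theorem pz_zero (s : ℂ) : pz s 0 = 1 := by unfold pz; rw [Kz_zero]; simp
theorem qz_zero (s : ℂ) : qz s 0 = s := by unfold qz; rw [Kz_zero]; simp
theorem lz_zero : lz 0 = 1 := by unfold lz; simp

theorem cont_pz (s v : ℂ) : ContinuousAt (fun ρ : ℝ => pz s (ρ * v)) 0 := by
  unfold pz
  have h : ContinuousAt (fun ρ : ℝ => Kz (ρ * v)) 0 := by
    refine ContinuousAt.comp (f := fun ρ : ℝ => (ρ : ℂ) * v) (g := Kz) (cont_Kz ?_) (by fun_prop)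
    simp
  have h2 : ContinuousAt (fun ρ : ℝ => ((Kz (ρ * v) : ℝ) : ℂ)) 0 := continuous_ofReal.continuousAt.comp h
  exact ContinuousAt.mul (by fun_prop) h2

theorem cont_qz (s v : ℂ) : ContinuousAt (fun ρ : ℝ => qz s (ρ * v)) 0 := by
  unfold qz
  have h : ContinuousAt (fun ρ : ℝ => Kz (ρ * v)) 0 := by
    refine ContinuousAt.comp (f := fun ρ : ℝ => (ρ : ℂ) * v) (g := Kz) (cont_Kz ?_) (by fun_prop)
    simp
  have h2 : ContinuousAt (fun ρ : ℝ => ((Kz (ρ * v) : ℝ) : ℂ)) 0 := continuous_ofReal.continuousAt.comp h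
  exact ContinuousAt.mul (by fun_prop) h2

theorem cont_lzv (v : ℂ) : ContinuousAt (fun ρ : ℝ => lz (ρ * v)) 0 := by
  refine ContinuousAt.comp (f := fun ρ : ℝ => (ρ : ℂ) * v) (g := lz) (cont_lz ?_) (by fun_prop)
  simp

theorem cont_Hg (s v l : ℂ) : ContinuousAt (Hg s v l) 0 := by
  have h1 := cont_pz s v
  have h2 := cont_qz s v
  have h3 := cont_lzv v
  have h4 := cont_F1 v
  have h5 : ContinuousAt (fun ρ : ℝ => (starRingEnd ℂ) (F1 v ρ)) 0 := continuous_conj.continuousAt.comp h4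
  have h6 : ContinuousAt (fun ρ : ℝ => (starRingEnd ℂ) (qz s (ρ * v))) 0 := continuous_conj.continuousAt.comp h2
  have hX : ContinuousAt (fun ρ : ℝ => (pz s (ρ * v) * (starRingEnd ℂ) (qz s (ρ * v)) *
      (starRingEnd ℂ) (F1 v ρ) ^ 2 * (l ^ 2 - lz (ρ * v) ^ 2)).re) 0 :=
    continuous_re.continuousAt.comp (((h1.mul h6).mul (h5.pow 2)).mul (continuousAt_const.sub (h3.pow 2)))
  have hY : ContinuousAt (fun ρ : ℝ => ((starRingEnd ℂ) (F1 v ρ) ^ 3 * (l ^ 2 - lz (ρ * v) ^ 2)).re) 0 :=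
    continuous_re.continuousAt.comp ((h5.pow 3).mul (continuousAt_const.sub (h3.pow 2)))
  have hp := h1.norm
  have hq := h2.norm
  unfold Hg
  exact (continuousAt_const.mul ((continuousAt_const.mul (((hp.pow 2).sub (hq.pow 2)).pow 2)).mul
    (continuousAt_id.mul hY))).sub (continuousAt_const.mul ((continuousAt_const.mul hX).add
    ((continuousAt_const.mul (continuousAt_id.pow 2)).mul (hX.pow 2))))

theorem Hg_zero (s v l : ℂ) : Hg s v l 0 =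
    -(8 * (1 - ‖s‖ ^ 2) ^ 2 * (1 + ‖s‖ ^ 2) * ((starRingEnd ℂ) s * (starRingEnd ℂ) v ^ 2 * (l ^ 2 - 1)).re) := by
  unfold Hg
  have e : (pz s ((0 : ℝ) * v) * (starRingEnd ℂ) (qz s ((0 : ℝ) * v)) * (starRingEnd ℂ) (F1 v 0) ^ 2 *
      (l ^ 2 - lz ((0 : ℝ) * v) ^ 2)).re =
      9 * ((starRingEnd ℂ) s * (starRingEnd ℂ) v ^ 2 * (l ^ 2 - 1)).re := by
    rw [ofReal_zero, zero_mul, pz_zero, qz_zero, lz_zero, F1_zero, map_mul, map_ofNat]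
    have : (9 : ℝ) * ((starRingEnd ℂ) s * (starRingEnd ℂ) v ^ 2 * (l ^ 2 - 1)).re =
        (((9 : ℝ) : ℂ) * ((starRingEnd ℂ) s * (starRingEnd ℂ) v ^ 2 * (l ^ 2 - 1))).re := by
      rw [re_ofReal_mul]
    rw [this]
    congr 1
    push_cast
    ring
  rw [e]
  ring

/-- choice of the direction and of the triangle -/
theorem choice {s : ℂ} (hs : s ≠ 0) : ∃ v l : ℂ, v ≠ 0 ∧ ‖l‖ = 1 ∧ ((starRingEnd ℂ) s * v).im ≠ 0 ∧
    ((starRingEnd ℂ) s * (starRingEnd ℂ) v ^ 2 * (l ^ 2 - 1)).re < 0 := by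
  have key : ∃ v : ℂ, v ≠ 0 ∧ ((starRingEnd ℂ) s * v).im ≠ 0 ∧
      0 ≤ ((starRingEnd ℂ) s * (starRingEnd ℂ) v ^ 2).re := by
    have hn : 0 < s.re ^ 2 + s.im ^ 2 := by
      rw [← nsq_re]
      have := norm_pos_iff.mpr hs
      positivity
    have hI : ((starRingEnd ℂ) s * (s * (1 + I))).im ≠ 0 := by
      have : ((starRingEnd ℂ) s * (s * (1 + I))).im = s.re ^ 2 + s.im ^ 2 := by
        simp only [mul_re, mul_im, add_re, add_im, conj_re, conj_im, one_re, one_im, I_re, I_im]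
        ring
      rw [this]
      exact hn.ne'
    have hJ : ((starRingEnd ℂ) s * (s * (1 - I))).im ≠ 0 := by
      have : ((starRingEnd ℂ) s * (s * (1 - I))).im = -(s.re ^ 2 + s.im ^ 2) := by
        simp only [mul_re, mul_im, sub_re, sub_im, conj_re, conj_im, one_re, one_im, I_re, I_im]
        ring
      rw [this]
      exact (neg_lt_zero.mpr hn).ne
    have h1 : (1 + I : ℂ) ≠ 0 := by
      intro h
      have := congrArg Complex.re h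
      simp at this
    have h2 : (1 - I : ℂ) ≠ 0 := by
      intro h
      have := congrArg Complex.re h
      simp at this
    have hsum : ((starRingEnd ℂ) s * (starRingEnd ℂ) (s * (1 + I)) ^ 2).re +
        ((starRingEnd ℂ) s * (starRingEnd ℂ) (s * (1 - I)) ^ 2).re = 0 := by
      rw [← add_re]
      have : (starRingEnd ℂ) s * (starRingEnd ℂ) (s * (1 + I)) ^ 2 +
          (starRingEnd ℂ) s * (starRingEnd ℂ) (s * (1 - I)) ^ 2 = 0 := by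
        simp only [map_mul, map_add, map_sub, map_one, conj_I]
        linear_combination (2 * (starRingEnd ℂ) s ^ 3) * I_sq
      rw [this]; rfl
    by_cases hc : 0 ≤ ((starRingEnd ℂ) s * (starRingEnd ℂ) (s * (1 + I)) ^ 2).re
    · exact ⟨s * (1 + I), mul_ne_zero hs h1, hI, hc⟩
    · exact ⟨s * (1 - I), mul_ne_zero hs h2, hJ, by linarith⟩
  obtain ⟨v, hv, hv1, hv2⟩ := key
  set w := (starRingEnd ℂ) s * (starRingEnd ℂ) v ^ 2 with hw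
  have hw0 : w ≠ 0 := mul_ne_zero (by simpa using hs) (pow_ne_zero _ (by simpa using hv))
  have hwn : 0 < ‖w‖ := norm_pos_iff.mpr hw0
  obtain ⟨l, hl⟩ := IsAlgClosed.exists_pow_nat_eq (-((starRingEnd ℂ) w / (‖w‖ : ℝ))) (n := 2) (by norm_num)
  refine ⟨v, l, hv, ?_, hv1, ?_⟩
  · have h1 : ‖l‖ ^ 2 = 1 := by
      rw [← norm_pow, hl, norm_neg, norm_div, RCLike.norm_conj, norm_real, norm_norm, div_self hwn.ne']
    nlinarith [norm_nonneg l]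
  · have h1 : w * (l ^ 2 - 1) = -((‖w‖ : ℝ) : ℂ) - w := by
      rw [hl]
      have h2 : w * (starRingEnd ℂ) w = ((‖w‖ : ℝ) : ℂ) ^ 2 := (nsq' w).symm
      have h3 : ((‖w‖ : ℝ) : ℂ) ≠ 0 := by exact_mod_cast hwn.ne'
      field_simp
      linear_combination -h2
    rw [h1, sub_re, neg_re, ofReal_re]
    linarith

/-- an arc of the unit circle is infinite -/
theorem arc_inf (l₀ : ℂ) (hl : ‖l₀‖ = 1) {δ : ℝ} (hδ : 0 < δ) : {l : ℂ | ‖l‖ = 1 ∧ ‖l - l₀‖ < δ}.Infinite := by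
  have hcont : Continuous (fun t : ℝ => l₀ * exp (t * I)) := by fun_prop
  have hinj : Set.InjOn (fun t : ℝ => l₀ * exp (t * I)) (Set.Ioo (-1) 1) := by
    intro a ha b hb hab
    have h0 : l₀ ≠ 0 := by
      intro h
      rw [h, norm_zero] at hl
      exact zero_ne_one hl
    have h1 : exp (a * I) = exp (b * I) := mul_left_cancel₀ h0 hab
    have h2 : Real.sin a = Real.sin b := by
      have := congrArg Complex.im h1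
      rwa [exp_ofReal_mul_I_im, exp_ofReal_mul_I_im] at this
    have hpi := Real.pi_gt_three
    exact Real.injOn_sin ⟨by linarith [ha.1], by linarith [ha.2]⟩ ⟨by linarith [hb.1], by linarith [hb.2]⟩ h2
  have hopen : {t : ℝ | ‖l₀ * exp (t * I) - l₀‖ < δ} ∈ 𝓝 (0 : ℝ) := by
    have : ContinuousAt (fun t : ℝ => ‖l₀ * exp (t * I) - l₀‖) 0 := by fun_prop
    exact this.eventually_lt_const (by simpa using hδ)
  have hinf : ({t : ℝ | ‖l₀ * exp (t * I) - l₀‖ < δ} ∩ Set.Ioo (-1) 1).Infinite :=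
    infinite_of_mem_nhds 0 (inter_mem hopen (Ioo_mem_nhds (by norm_num) (by norm_num)))
  refine (hinf.image (hinj.mono Set.inter_subset_right)).mono ?_
  rintro _ ⟨t, ht, rfl⟩
  refine ⟨?_, ht.1⟩
  simp only [norm_mul, hl, norm_exp_ofReal_mul_I, one_mul]

theorem cont_Gg (r : ℝ) {s₀ ζ₀ l₀ : ℂ} (hζ : ‖ζ₀‖ < 1) : ContinuousAt
    (fun x : ℂ × ℂ × ℂ => Gg r (pz x.1 x.2.1) (qz x.1 x.2.1) (Fz x.2.1) x.2.2) (s₀, ζ₀, l₀) := by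
  have hK : ContinuousAt (fun x : ℂ × ℂ × ℂ => ((Kz x.2.1 : ℝ) : ℂ)) (s₀, ζ₀, l₀) :=
    continuous_ofReal.continuousAt.comp
      (ContinuousAt.comp (f := fun x : ℂ × ℂ × ℂ => x.2.1) (g := Kz) (cont_Kz hζ) (by fun_prop))
  have hF : ContinuousAt (fun x : ℂ × ℂ × ℂ => Fz x.2.1) (s₀, ζ₀, l₀) :=
    ContinuousAt.comp (f := fun x : ℂ × ℂ × ℂ => x.2.1) (g := Fz) (cont_Fz hζ) (by fun_prop)
  have hp : ContinuousAt (fun x : ℂ × ℂ × ℂ => pz x.1 x.2.1) (s₀, ζ₀, l₀) := by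
    unfold pz
    exact ContinuousAt.mul (by fun_prop) hK
  have hq : ContinuousAt (fun x : ℂ × ℂ × ℂ => qz x.1 x.2.1) (s₀, ζ₀, l₀) := by
    unfold qz
    exact ContinuousAt.mul (by fun_prop) hK
  have hFc : ContinuousAt (fun x : ℂ × ℂ × ℂ => (starRingEnd ℂ) (Fz x.2.1)) (s₀, ζ₀, l₀) :=
    continuous_conj.continuousAt.comp hF
  have hqc : ContinuousAt (fun x : ℂ × ℂ × ℂ => (starRingEnd ℂ) (qz x.1 x.2.1)) (s₀, ζ₀, l₀) :=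
    continuous_conj.continuousAt.comp hq
  have hl : ContinuousAt (fun x : ℂ × ℂ × ℂ => x.2.2) (s₀, ζ₀, l₀) := by fun_prop
  have hW : ContinuousAt (fun x : ℂ × ℂ × ℂ => Fz x.2.1 / 3 + x.2.2 ^ 2 * (starRingEnd ℂ) (Fz x.2.1) ^ 2 / 9)
      (s₀, ζ₀, l₀) := (hF.div_const 3).add (((hl.pow 2).mul (hFc.pow 2)).div_const 9)
  have hS : ContinuousAt (fun x : ℂ × ℂ × ℂ => Sg (pz x.1 x.2.1) (qz x.1 x.2.1) (Fz x.2.1) x.2.2) (s₀, ζ₀, l₀) := by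
    unfold Sg
    exact (((hp.norm.pow 2).add (hq.norm.pow 2)).mul (continuousAt_const.sub ((hF.norm.pow 2).div_const 9))).add
      (continuousAt_const.mul (continuous_re.continuousAt.comp ((hp.mul hqc).mul hW)))
  have hD : ContinuousAt (fun x : ℂ × ℂ × ℂ => Dg (pz x.1 x.2.1) (qz x.1 x.2.1) (Fz x.2.1) x.2.2) (s₀, ζ₀, l₀) := by
    unfold Dg
    exact (((hp.norm.pow 2).sub (hq.norm.pow 2)).pow 2).mul
      (((continuousAt_const.sub ((hF.norm.pow 2).div_const 9)).pow 2).sub (continuousAt_const.mul (hW.norm.pow 2)))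
  unfold Gg
  exact (continuousAt_const.mul hD).sub (continuousAt_const.mul (hS.pow 2))

theorem cont_al {s₀ ζ₀ : ℂ} (hζ : ‖ζ₀‖ < 1) : ContinuousAt
    (fun x : ℂ × ℂ => (pz x.1 x.2 * (starRingEnd ℂ) (qz x.1 x.2) * Fz x.2).im) (s₀, ζ₀) := by
  have hK : ContinuousAt (fun x : ℂ × ℂ => ((Kz x.2 : ℝ) : ℂ)) (s₀, ζ₀) :=
    continuous_ofReal.continuousAt.comp
      (ContinuousAt.comp (f := fun x : ℂ × ℂ => x.2) (g := Kz) (cont_Kz hζ) (by fun_prop))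
  have hF : ContinuousAt (fun x : ℂ × ℂ => Fz x.2) (s₀, ζ₀) :=
    ContinuousAt.comp (f := fun x : ℂ × ℂ => x.2) (g := Fz) (cont_Fz hζ) (by fun_prop)
  have hp : ContinuousAt (fun x : ℂ × ℂ => pz x.1 x.2) (s₀, ζ₀) := by
    unfold pz
    exact ContinuousAt.mul (by fun_prop) hK
  have hq : ContinuousAt (fun x : ℂ × ℂ => qz x.1 x.2) (s₀, ζ₀) := by
    unfold qz
    exact ContinuousAt.mul (by fun_prop) hK
  exact continuous_im.continuousAt.comp ((hp.mul (continuous_conj.continuousAt.comp hq)).mul hF)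

end Dr82

open Dr82 in
/-- Row DROPP. -/
theorem dropP82 (hPar : ParamP) : DropP := by
  intro s₀ hs0 hs1 ε hε
  have hsne : s₀ ≠ 0 := norm_pos_iff.mp hs0
  obtain ⟨v, l₀, hv, hl₀, hal, hneg⟩ := choice hsne
  have hvn : 0 < ‖v‖ := norm_pos_iff.mpr hv
  have hr2 : 0 < 1 - ‖s₀‖ ^ 2 := by nlinarith
  -- `Hg > 0` near `0`
  have hH : ∀ᶠ ρ : ℝ in 𝓝 0, 0 < Hg s₀ v l₀ ρ := by
    refine (cont_Hg s₀ v l₀).eventually_const_lt ?_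
    rw [Hg_zero]
    have : 0 < 8 * (1 - ‖s₀‖ ^ 2) ^ 2 * (1 + ‖s₀‖ ^ 2) := by positivity
    nlinarith
  -- not aligned near `0`
  have hA : ∀ᶠ ρ : ℝ in 𝓝 0, (pz s₀ (ρ * v) * (starRingEnd ℂ) (qz s₀ (ρ * v)) * F1 v ρ).im ≠ 0 := by
    have hc : ContinuousAt (fun ρ : ℝ => (pz s₀ (ρ * v) * (starRingEnd ℂ) (qz s₀ (ρ * v)) * F1 v ρ).im) 0 :=
      continuous_im.continuousAt.comp (((cont_pz s₀ v).mul
        (continuous_conj.continuousAt.comp (cont_qz s₀ v))).mul (cont_F1 v))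
    refine hc.eventually_ne ?_
    rw [ofReal_zero, zero_mul, pz_zero, qz_zero, F1_zero]
    have e : (1 * (starRingEnd ℂ) s₀ * (3 * v)).im = 3 * ((starRingEnd ℂ) s₀ * v).im := by
      have : 1 * (starRingEnd ℂ) s₀ * (3 * v) = ((3 : ℝ) : ℂ) * ((starRingEnd ℂ) s₀ * v) := by push_cast; ring
      rw [this, im_ofReal_mul]
    rw [e]
    exact mul_ne_zero (by norm_num) hal
  have hN : ∀ᶠ ρ : ℝ in 𝓝 0, ‖(ρ : ℂ) * v‖ < min ε (1 / 8) := by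
    have hc : ContinuousAt (fun ρ : ℝ => ‖(ρ : ℂ) * v‖) 0 := by fun_prop
    exact hc.eventually_lt_const (by simpa using hε)
  have hall : ∀ᶠ ρ : ℝ in 𝓝[>] 0, 0 < Hg s₀ v l₀ ρ ∧
      (pz s₀ (ρ * v) * (starRingEnd ℂ) (qz s₀ (ρ * v)) * F1 v ρ).im ≠ 0 ∧ ‖(ρ : ℂ) * v‖ < min ε (1 / 8) ∧ 0 < ρ :=
    ((hH.filter_mono nhdsWithin_le_nhds).and ((hA.filter_mono nhdsWithin_le_nhds).and
      ((hN.filter_mono nhdsWithin_le_nhds).and self_mem_nhdsWithin)))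
  obtain ⟨ρ, hρH, hρA, hρN, hρ⟩ := hall.exists
  have hζ8 : ‖(ρ : ℂ) * v‖ < 1 / 8 := lt_of_lt_of_le hρN (min_le_right _ _)
  refine ⟨ρ * v, ?_, lt_of_lt_of_le hρN (min_le_left _ _), ?_⟩
  · rw [norm_mul, norm_real, Real.norm_eq_abs]
    have := abs_pos.mpr hρ.ne'
    positivity
  have hG0 : 0 < Gg ‖s₀‖ (pz s₀ (ρ * v)) (qz s₀ (ρ * v)) (Fz (ρ * v)) l₀ := by
    rw [Gg_eq hPar hs1 hl₀ hζ8]
    positivity
  have hA0 : (pz s₀ (ρ * v) * (starRingEnd ℂ) (qz s₀ (ρ * v)) * Fz (ρ * v)).im ≠ 0 := by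
    have e : pz s₀ (ρ * v) * (starRingEnd ℂ) (qz s₀ (ρ * v)) * Fz (ρ * v) =
        (ρ : ℂ) * (pz s₀ (ρ * v) * (starRingEnd ℂ) (qz s₀ (ρ * v)) * F1 v ρ) := by
      rw [Fz_eq]; ring
    rw [e, im_ofReal_mul]
    exact mul_ne_zero hρ.ne' hρA
  have hG1 := (cont_Gg ‖s₀‖ (s₀ := s₀) (ζ₀ := ρ * v) (l₀ := l₀) (by linarith)).eventually_const_lt hG0
  have hA1 := (cont_al (s₀ := s₀) (ζ₀ := ρ * v) (by linarith)).eventually_ne hA0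
  obtain ⟨δ₁, hδ₁, h1⟩ := Metric.eventually_nhds_iff.mp hG1
  obtain ⟨δ₂, hδ₂, h2⟩ := Metric.eventually_nhds_iff.mp hA1
  refine ⟨min (min δ₁ δ₂) (min (1 - ‖s₀‖) (1 / 8 - ‖(ρ : ℂ) * v‖)), ?_, ?_⟩
  · refine lt_min (lt_min hδ₁ hδ₂) (lt_min (by linarith) (by linarith))
  intro s ζ hs hζ
  have hsa : ‖s - s₀‖ < δ₁ := lt_of_lt_of_le hs ((min_le_left _ _).trans (min_le_left _ _))
  have hsb : ‖s - s₀‖ < δ₂ := lt_of_lt_of_le hs ((min_le_left _ _).trans (min_le_right _ _))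
  have hsc : ‖s - s₀‖ < 1 - ‖s₀‖ := lt_of_lt_of_le hs ((min_le_right _ _).trans (min_le_left _ _))
  have hζa : ‖ζ - ρ * v‖ < δ₁ := lt_of_lt_of_le hζ ((min_le_left _ _).trans (min_le_left _ _))
  have hζb : ‖ζ - ρ * v‖ < δ₂ := lt_of_lt_of_le hζ ((min_le_left _ _).trans (min_le_right _ _))
  have hζc : ‖ζ - ρ * v‖ < 1 / 8 - ‖(ρ : ℂ) * v‖ :=
    lt_of_lt_of_le hζ ((min_le_right _ _).trans (min_le_right _ _))
  have hs' : ‖s‖ < 1 := by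
    have := norm_sub_norm_le s s₀
    linarith
  have hζ' : ‖ζ‖ < 1 / 8 := by
    have := norm_sub_norm_le ζ (ρ * v)
    linarith
  refine ⟨?_, ?_⟩
  · refine h2 (y := (s, ζ)) ?_
    rw [Prod.dist_eq, dist_eq_norm, dist_eq_norm]
    exact max_lt hsb hζb
  · have hpq : ‖qz s ζ‖ < ‖pz s ζ‖ := (hPar s ζ hs' hζ').1
    refine (arc_inf l₀ hl₀ hδ₁).mono ?_
    rintro l ⟨hl1, hl2⟩
    refine ⟨hl1, ?_⟩
    intro z₀ z₁ z₂ hT hprod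
    refine small hs0 hs1 hpq hT ?_
    rw [hprod]
    refine h1 (y := (s, ζ, l)) ?_
    rw [Prod.dist_eq, Prod.dist_eq, dist_eq_norm, dist_eq_norm, dist_eq_norm]
    exact max_lt hsa (max_lt hζa hl2)

end Pool.Agent.Pon30
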