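import Pool.Agent.Pon30.StmtsC
import Pool.Agent.Pon30.Basic

/-!
# Row CONICC of MP_02df19_gt: a semidefinite form which is constant on three points of an ellipse with centre `0`
-/

set_option autoImplicit false

namespace Pool.Agent.Pon30

open Complex

lemma qf_cast37 (α : ℝ) (β v : ℂ) : ((qf α β v : ℝ) : ℂ) =
    α * (v * (starRingEnd ℂ) v) + (β * v ^ 2 + (starRingEnd ℂ) β * (starRingEnd ℂ) v ^ 2) / 2 := by
  rw [qf, Complex.ofReal_add, Complex.ofReal_mul, nsq, Complex.re_eq_add_conj]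
  simp only [map_mul, map_pow]

lemma qf_UV37 {α : ℝ} {β U V l : ℂ} (hl : l * (starRingEnd ℂ) l = 1) :
    ((qf α β (U * l + V * (starRingEnd ℂ) l) : ℝ) : ℂ) =
      α * (U * (starRingEnd ℂ) U + V * (starRingEnd ℂ) V) + (β * U * V + (starRingEnd ℂ) β * (starRingEnd ℂ) U * (starRingEnd ℂ) V) +
      ((2 * α * U * (starRingEnd ℂ) V + β * U ^ 2 + (starRingEnd ℂ) β * (starRingEnd ℂ) V ^ 2) * l ^ 2 +
        (2 * α * (starRingEnd ℂ) U * V + (starRingEnd ℂ) β * (starRingEnd ℂ) U ^ 2 + β * V ^ 2) * (starRingEnd ℂ) l ^ 2) / 2 := by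
  rw [qf_cast37]
  simp only [map_add, map_mul, Complex.conj_conj]
  linear_combination (α * (U * (starRingEnd ℂ) U + V * (starRingEnd ℂ) V) + (β * U * V + (starRingEnd ℂ) β * (starRingEnd ℂ) U * (starRingEnd ℂ) V)) * hl

lemma three37 {B B' K m₁ m₂ m₃ n₁ n₂ n₃ : ℂ} (h1 : m₁ * n₁ = 1) (h2 : m₂ * n₂ = 1) (h3 : m₃ * n₃ = 1)
    (n12 : m₁ ≠ m₂) (n23 : m₂ ≠ m₃) (n13 : m₁ ≠ m₃)
    (e1 : B * m₁ + B' * n₁ = K) (e2 : B * m₂ + B' * n₂ = K) (e3 : B * m₃ + B' * n₃ = K) : B = 0 ∧ B' = 0 ∧ K = 0 := by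
  have a12 : (m₁ - m₂) * (B * m₁ * m₂ - B') = 0 := by
    linear_combination (m₁ * m₂) * e1 - (m₁ * m₂) * e2 - B' * m₂ * h1 + B' * m₁ * h2
  have a13 : (m₁ - m₃) * (B * m₁ * m₃ - B') = 0 := by
    linear_combination (m₁ * m₃) * e1 - (m₁ * m₃) * e3 - B' * m₃ * h1 + B' * m₁ * h3
  have b12 := (mul_eq_zero.1 a12).resolve_left (sub_ne_zero.2 n12)
  have b13 := (mul_eq_zero.1 a13).resolve_left (sub_ne_zero.2 n13)
  have hm : m₁ ≠ 0 := by rintro rfl; simp at h1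
  have c : (m₁ * (m₂ - m₃)) * B = 0 := by linear_combination b12 - b13
  have hB := (mul_eq_zero.1 c).resolve_left (mul_ne_zero hm (sub_ne_zero.2 n23))
  have hB' : B' = 0 := by linear_combination -b12 + m₁ * m₂ * hB
  exact ⟨hB, hB', by rw [← e1, hB, hB']; ring⟩

/-- Row CONICC -/
theorem conicC37 : ConicC := by
  intro α c β U V l₁ l₂ l₃ hβ hc hαc hUV hl₁ hl₂ hl₃ n12 n23 n13 q1 q2 q3 Y hY
  have cj1 : ∀ l : ℂ, ‖l‖ = 1 → l * (starRingEnd ℂ) l = 1 := by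
    intro l hl
    rw [← nsq, hl]; norm_num
  have sq1 : ∀ l : ℂ, ‖l‖ = 1 → l ^ 2 * (starRingEnd ℂ) l ^ 2 = 1 := by
    intro l hl
    rw [← mul_pow, cj1 l hl, one_pow]
  obtain ⟨K, hK⟩ : ∃ K : ℂ, K = 2 * (c - (α * (U * (starRingEnd ℂ) U + V * (starRingEnd ℂ) V) +
    (β * U * V + (starRingEnd ℂ) β * (starRingEnd ℂ) U * (starRingEnd ℂ) V))) := ⟨_, rfl⟩
  have eq : ∀ l : ℂ, ‖l‖ = 1 → qf α β (U * l + V * (starRingEnd ℂ) l) = c →
      (2 * α * U * (starRingEnd ℂ) V + β * U ^ 2 + (starRingEnd ℂ) β * (starRingEnd ℂ) V ^ 2) * l ^ 2 +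
        (2 * α * (starRingEnd ℂ) U * V + (starRingEnd ℂ) β * (starRingEnd ℂ) U ^ 2 + β * V ^ 2) * (starRingEnd ℂ) l ^ 2 = K := by
    intro l hl hq
    have h := qf_UV37 (α := α) (β := β) (U := U) (V := V) (cj1 l hl)
    rw [hq] at h
    rw [hK]
    linear_combination -2 * h
  obtain ⟨hB, hB', hK0⟩ := three37 (sq1 l₁ hl₁) (sq1 l₂ hl₂) (sq1 l₃ hl₃) n12 n23 n13
    (eq l₁ hl₁ q1) (eq l₂ hl₂ q2) (eq l₃ hl₃ q3)
  have hD : U * (starRingEnd ℂ) U - V * (starRingEnd ℂ) V ≠ 0 := by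
    rw [← nsq, ← nsq]
    intro h0
    have h1 : ‖U‖ ^ 2 - ‖V‖ ^ 2 = 0 := by exact_mod_cast h0
    exact hUV ((pow_left_inj₀ (norm_nonneg _) (norm_nonneg _) two_ne_zero).1 (by linarith))
  have hE : 2 * α * (starRingEnd ℂ) U * (starRingEnd ℂ) V + β * (U * (starRingEnd ℂ) U + V * (starRingEnd ℂ) V) = 0 := by
    have h : (U * (starRingEnd ℂ) U - V * (starRingEnd ℂ) V) *
        (2 * α * (starRingEnd ℂ) U * (starRingEnd ℂ) V + β * (U * (starRingEnd ℂ) U + V * (starRingEnd ℂ) V)) = 0 := by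
      linear_combination (starRingEnd ℂ) U ^ 2 * hB - (starRingEnd ℂ) V ^ 2 * hB'
    exact (mul_eq_zero.1 h).resolve_left hD
  have hE' := congrArg (starRingEnd ℂ) hE
  simp only [map_add, map_mul, map_ofNat, map_zero, Complex.conj_conj, Complex.conj_ofReal] at hE'
  have hα : (α : ℂ) ≠ 0 := by
    intro h0
    have h1 : α = 0 := by exact_mod_cast h0
    have h2 : β = 0 := norm_le_zero_iff.1 (by rw [← h1]; exact hβ)
    rw [hK0, h0, h2] at hK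
    simp only [map_zero, zero_mul, add_zero, sub_zero] at hK
    have h3 : (c : ℂ) = 0 := by linear_combination - hK / 2
    have h4 : c = 0 := by exact_mod_cast h3
    linarith
  have hq := qf_cast37 α β Y
  rw [hY] at hq
  have key : (α : ℂ) * (((starRingEnd ℂ) U * Y - V * (starRingEnd ℂ) Y) * (U * (starRingEnd ℂ) Y - (starRingEnd ℂ) V * Y) -
      (U * (starRingEnd ℂ) U - V * (starRingEnd ℂ) V) ^ 2) = 0 := by
    rw [hK0] at hK
    linear_combination -(U * (starRingEnd ℂ) U + V * (starRingEnd ℂ) V) * hq -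
      (U * (starRingEnd ℂ) U + V * (starRingEnd ℂ) V) / 2 * hK - Y ^ 2 / 2 * hE - (starRingEnd ℂ) Y ^ 2 / 2 * hE' +
      U * V * hE + (starRingEnd ℂ) U * (starRingEnd ℂ) V * hE'
  have key2 := (mul_eq_zero.1 key).resolve_left hα
  have key3 : ‖(starRingEnd ℂ) U * Y - V * (starRingEnd ℂ) Y‖ ^ 2 = (‖U‖ ^ 2 - ‖V‖ ^ 2) ^ 2 := by
    have h : ((‖(starRingEnd ℂ) U * Y - V * (starRingEnd ℂ) Y‖ ^ 2 : ℝ) : ℂ) = (((‖U‖ ^ 2 - ‖V‖ ^ 2) ^ 2 : ℝ) : ℂ) := by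
      rw [nsq, Complex.ofReal_pow, Complex.ofReal_sub, nsq, nsq]
      simp only [map_sub, map_mul, Complex.conj_conj]
      linear_combination key2
    exact_mod_cast h
  apply (pow_left_inj₀ (norm_nonneg _) (abs_nonneg _) two_ne_zero).1
  rw [sq_abs]
  exact key3

end Pool.Agent.Pon30
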