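import Pool.Agent.Pon30.StmtsP34
import Pool.Agent.Pon30.ConicC37

/-!
# Row FORM of MP_02df19_gt
-/

set_option autoImplicit false

namespace Pool.Agent.Pon30

open Complex

/-- Row FORM -/
theorem formP37 : FormP := by
  intro a b α β c hβ hc hαc hab hS Y hY
  have hpick : ∀ T : Set ℂ, T.Finite → ∃ l, (‖l‖ = 1 ∧ qf α β (a * l + b * (starRingEnd ℂ) l) = c) ∧ l ∉ T := by
    intro T hT
    obtain ⟨l, hl, hlT⟩ := (hS.sdiff hT).nonempty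
    exact ⟨l, hl, hlT⟩
  obtain ⟨l₁, ⟨n1, q1⟩, -⟩ := hpick ∅ Set.finite_empty
  obtain ⟨l₂, ⟨n2, q2⟩, h2⟩ := hpick {l₁, -l₁} (Set.toFinite _)
  obtain ⟨l₃, ⟨n3, q3⟩, h3⟩ := hpick {l₁, -l₁, l₂, -l₂} (Set.toFinite _)
  simp only [Set.mem_insert_iff, Set.mem_singleton_iff, not_or] at h2 h3
  have d12 : l₁ ^ 2 ≠ l₂ ^ 2 := by
    intro h
    rcases sq_eq_sq_iff_eq_or_eq_neg.1 h with e | e
    · exact h2.1 e.symm
    · exact h2.2 (by rw [e, neg_neg])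
  have d23 : l₂ ^ 2 ≠ l₃ ^ 2 := by
    intro h
    rcases sq_eq_sq_iff_eq_or_eq_neg.1 h with e | e
    · exact h3.2.2.1 e.symm
    · exact h3.2.2.2 (by rw [e, neg_neg])
  have d13 : l₁ ^ 2 ≠ l₃ ^ 2 := by
    intro h
    rcases sq_eq_sq_iff_eq_or_eq_neg.1 h with e | e
    · exact h3.1 e.symm
    · exact h3.2.1 (by rw [e, neg_neg])
  have key := conicC37 α c β a b l₁ l₂ l₃ hβ hc hαc hab.ne' n1 n2 n3 d12 d23 d13 q1 q2 q3 Y hY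
  have hD : 0 < ‖a‖ ^ 2 - ‖b‖ ^ 2 := by nlinarith [norm_nonneg a, norm_nonneg b]
  rw [abs_of_pos hD] at key
  have hDc : ((‖a‖ ^ 2 - ‖b‖ ^ 2 : ℝ) : ℂ) ≠ 0 := by exact_mod_cast hD.ne'
  have hDe : ((‖a‖ ^ 2 - ‖b‖ ^ 2 : ℝ) : ℂ) = a * (starRingEnd ℂ) a - b * (starRingEnd ℂ) b := by
    rw [Complex.ofReal_sub, nsq, nsq]
  refine ⟨((starRingEnd ℂ) a * Y - b * (starRingEnd ℂ) Y) / ((‖a‖ ^ 2 - ‖b‖ ^ 2 : ℝ) : ℂ), ?_, ?_⟩
  · rw [norm_div, key, Complex.norm_real, Real.norm_eq_abs, abs_of_pos hD, div_self hD.ne']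
  · rw [map_div₀, Complex.conj_ofReal, mul_div_assoc', mul_div_assoc', ← add_div, eq_div_iff hDc, hDe]
    simp only [map_sub, map_mul, Complex.conj_conj]
    ring

end Pool.Agent.Pon30
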