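import Pool.Agent.Pon30.IsoPC30

namespace Pool.Agent.Pon30

open Complex Filter Topology

theorem isoC30 (hLim : LimC) (hFam : FamStmt) (hLoc : LocStmt) : IsoC := by
  intro f hS hH κ η hj
  obtain ⟨ρ, hρ, hlim⟩ := hLim f hS hH
  have h0 : f 0 = 0 := by
    obtain ⟨ε, hε, hr⟩ := hS.rot
    have h1 := hr 0 (by simpa using hε)
    rw [mul_zero] at h1
    have h2 : (1 - (starRingEnd ℂ) ω) * f 0 = 0 := by linear_combination h1
    rcases mul_eq_zero.1 h2 with h3 | h3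
    · exfalso
      have h4 := congrArg Complex.re h3
      simp [ω_re] at h4
      norm_num at h4
    · exact h3
  refine ⟨min (ρ / 4) (1 / 8), lt_min (by positivity) (by norm_num), ?_⟩
  intro o x ψ ho hoρ hx0 hx1 hx hf
  have ho8 : |o| < 1 / 8 := lt_of_lt_of_le hoρ (min_le_right _ _)
  have hoρ' : |o| < ρ / 4 := lt_of_lt_of_le hoρ (min_le_left _ _)
  have hlt : o < 1 / 8 := (abs_lt.1 ho8).2
  have hpos : 0 < 1 - 4 * o := by linarith
  obtain ⟨t, p, q, F, h⟩ : ∃ t p q F : ℝ, Par o t p q F :=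
    ⟨√(1 - 4 * o), _, _, _, ⟨ho, ho8, Real.sqrt_pos.2 hpos, Real.sq_sqrt hpos.le, rfl, rfl, rfl⟩⟩
  have hp0 := h.p0
  obtain ⟨a, b, c, ha, hb, hc, habc, hab⟩ := hlim p q F hp0 (by
      calc |q| ≤ 4 * |o| * p := h.q4
        _ < ρ * p := by nlinarith) h.F0 (lt_of_le_of_lt h.Fbd (by linarith))
  -- the base triple
  have e1 := hab _ _ _ h.tz_base
  rw [h.L0, h.L1, h.L2, Xh_sub, Xh_T, h0] at e1
  have e1' : a * o ^ 2 = c := by simpa using e1
  -- the second isosceles triangle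
  have e2 := hab _ _ _ (tz_second h.F1)
  rw [second_value h f x ψ hx0 hx1 hx hf] at e2
  have e2' : b * (o / t * (1 + 2 * o * ψ)) ^ 2 = c := by
    rw [← e2]; simp only; ring
  -- the triples near the base
  have e3 := approach2 hFam hLoc h hj e1' hab
  have ht := h.t0.ne'
  have ht2 := h.t2
  have e4 : b * (1 + 2 * o * ψ) ^ 2 = a * (1 - 4 * o) := by
    have e5 : o ^ 2 * (b * (1 + 2 * o * ψ) ^ 2) = o ^ 2 * (a * (1 - 4 * o)) := by
      have e6 : b * (o / t * (1 + 2 * o * ψ)) ^ 2 * t ^ 2 = c * t ^ 2 := by rw [e2']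
      have e7 : b * (o / t * (1 + 2 * o * ψ)) ^ 2 * t ^ 2 = o ^ 2 * (b * (1 + 2 * o * ψ) ^ 2) := by
        field_simp
      rw [← e7, e6, ← e1', ht2]; ring
    exact mul_left_cancel₀ (pow_ne_zero 2 ho) e5
  have hb0 : b ≠ 0 := by
    intro hb0
    rw [hb0, zero_mul] at e4
    have ha0 : a = 0 := by
      rcases mul_eq_zero.1 e4.symm with h5 | h5
      · exact h5
      · exact absurd h5 hpos.ne'
    rw [ha0, zero_mul] at e1'
    rw [ha0, hb0, ← e1'] at habc
    simp at habc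
  apply mul_left_cancel₀ hb0
  linear_combination (1 - 4 * o - 8 * (η + κ) * o ^ 3) * e4 - (1 - 4 * o) * e3

end Pool.Agent.Pon30
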