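import Pool.Agent.Pon30.Jet34
import Pool.Agent.Pon30.StmtsC

/-!
# Row JETC: second order Peano expansion of a `C²` shape function at the equilateral shape
-/

namespace Pool.Agent.Pon30

open Complex Filter Topology

/-- second order expansion of a function that is twice continuously differentiable near `0` -/
lemma peano34 {h : ℂ → ℂ} (hh : ContDiffAt ℝ 2 h 0) : ∃ a b c d e g : ℂ, ∀ C > 0, ∃ ε > 0,
    ∀ s : ℂ, ‖s‖ < ε →
      ‖h s - (a + b * s + c * (starRingEnd ℂ) s + d * s ^ 2 + e * (s * (starRingEnd ℂ) s) + g * ((starRingEnd ℂ) s) ^ 2)‖ ≤ C * ‖s‖ ^ 2 := by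
  obtain ⟨b, c, hbc⟩ := lin34 (iteratedFDeriv ℝ 1 h 0)
  obtain ⟨d, e, g, hde⟩ := quad34 (iteratedFDeriv ℝ 2 h 0)
  have hev : ∀ᶠ x in 𝓝 (0 : ℂ), ContDiffAt ℝ 2 h x := hh.eventually (by simp)
  have hcont : ContinuousAt (iteratedFDeriv ℝ 2 h) 0 :=
    (hh.iteratedFDeriv_right (i := 2) (m := 0) (by simp)).continuousAt
  rw [Metric.eventually_nhds_iff] at hev
  obtain ⟨δ₁, hδ₁, hev⟩ := hev
  refine ⟨h 0, b, c, d / 2, e / 2, g / 2, ?_⟩
  intro C hC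
  rw [Metric.continuousAt_iff] at hcont
  obtain ⟨δ₂, hδ₂, hc⟩ := hcont C hC
  refine ⟨min δ₁ δ₂, lt_min hδ₁ hδ₂, ?_⟩
  intro s hs
  have hs1 : ‖s‖ < δ₁ := lt_of_lt_of_le hs (min_le_left _ _)
  have hs2 : ‖s‖ < δ₂ := lt_of_lt_of_le hs (min_le_right _ _)
  have hns : ∀ t ∈ Set.Icc (0 : ℝ) 1, ‖(0 : ℂ) + t • s‖ ≤ ‖s‖ := by
    intro t ht
    rw [zero_add, norm_smul, Real.norm_eq_abs, abs_of_nonneg ht.1]
    exact mul_le_of_le_one_left (norm_nonneg _) ht.2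
  have hdiff : ∀ t ∈ Set.Icc (0 : ℝ) 1, ContDiffAt ℝ 2 h ((0 : ℂ) + t • s) := by
    intro t ht
    apply hev
    rw [dist_zero_right]
    exact lt_of_le_of_lt (hns t ht) hs1
  have T := map_add_eq_sum_add_integral_iteratedFDeriv (f := h) (x := (0 : ℂ)) (y := s) (n := 1)
    (fun t ht => by
      have e2 : (((1 : ℕ) : WithTop ℕ∞) + 1) = 2 := by norm_num
      rw [e2]
      exact hdiff t ht)
  rw [Finset.sum_range_succ, Finset.sum_range_one] at T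
  simp only [Nat.factorial_zero, Nat.factorial_one, Nat.cast_one, inv_one, one_smul, iteratedFDeriv_zero_apply, pow_one] at T
  have hcts : ContinuousOn (fun t : ℝ => (1 - t) • iteratedFDeriv ℝ 2 h ((0 : ℂ) + t • s) (fun _ => s)) (Set.uIcc 0 1) := by
    intro t ht
    rw [Set.uIcc_of_le zero_le_one] at ht
    have h_cont : ContinuousAt (iteratedFDeriv ℝ 2 h) ((0 : ℂ) + t • s) :=
      ((hdiff t ht).iteratedFDeriv_right (i := 2) (m := 0) (by simp)).continuousAt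
    have h2 : ContinuousWithinAt (fun t : ℝ => iteratedFDeriv ℝ 2 h ((0 : ℂ) + t • s) (fun _ => s)) (Set.uIcc 0 1) t :=
      (h_cont.comp (x := t) (f := fun t : ℝ => (0 : ℂ) + t • s) (by fun_prop)).continuousWithinAt.eval_const _
    have h3 : ContinuousWithinAt (fun t : ℝ => 1 - t) (Set.uIcc 0 1) t := by fun_prop
    exact h3.smul h2
  have hcts2 : ContinuousOn (fun t : ℝ => (1 - t) • iteratedFDeriv ℝ 2 h 0 (fun _ => s)) (Set.uIcc 0 1) := by
    fun_prop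
  have hI : (∫ t in (0 : ℝ)..1, (1 - t) • iteratedFDeriv ℝ 2 h 0 (fun _ => s)) = (1 / 2 : ℝ) • iteratedFDeriv ℝ 2 h 0 (fun _ => s) := by
    rw [intervalIntegral.integral_smul_const]
    congr 1
    have hx : IntervalIntegrable (fun x : ℝ => x) MeasureTheory.volume 0 1 := continuous_id.intervalIntegrable 0 1
    rw [intervalIntegral.integral_sub intervalIntegrable_const hx]
    rw [intervalIntegral.integral_const, integral_id]
    norm_num
  have hsub : (∫ t in (0 : ℝ)..1, (1 - t) • iteratedFDeriv ℝ 2 h ((0 : ℂ) + t • s) (fun _ => s)) -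
      (1 / 2 : ℝ) • iteratedFDeriv ℝ 2 h 0 (fun _ => s) =
      ∫ t in (0 : ℝ)..1, ((1 - t) • iteratedFDeriv ℝ 2 h ((0 : ℂ) + t • s) (fun _ => s) - (1 - t) • iteratedFDeriv ℝ 2 h 0 (fun _ => s)) := by
    rw [← hI, intervalIntegral.integral_sub hcts.intervalIntegrable hcts2.intervalIntegrable]
  have hbd : ‖∫ t in (0 : ℝ)..1, ((1 - t) • iteratedFDeriv ℝ 2 h ((0 : ℂ) + t • s) (fun _ => s) - (1 - t) • iteratedFDeriv ℝ 2 h 0 (fun _ => s))‖ ≤
      (C * ‖s‖ ^ 2) * |(1 : ℝ) - 0| := by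
    apply intervalIntegral.norm_integral_le_of_norm_le_const
    intro t ht
    rw [Set.uIoc_of_le zero_le_one] at ht
    have ht' : t ∈ Set.Icc (0 : ℝ) 1 := ⟨ht.1.le, ht.2⟩
    rw [← smul_sub, norm_smul, Real.norm_eq_abs, abs_of_nonneg (by linarith [ht.2])]
    have e1 : iteratedFDeriv ℝ 2 h ((0 : ℂ) + t • s) (fun _ => s) - iteratedFDeriv ℝ 2 h 0 (fun _ => s) =
        (iteratedFDeriv ℝ 2 h ((0 : ℂ) + t • s) - iteratedFDeriv ℝ 2 h 0) (fun _ => s) := rfl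
    have e2 : ‖(iteratedFDeriv ℝ 2 h ((0 : ℂ) + t • s) - iteratedFDeriv ℝ 2 h 0) (fun _ => s)‖ ≤
        ‖iteratedFDeriv ℝ 2 h ((0 : ℂ) + t • s) - iteratedFDeriv ℝ 2 h 0‖ * ‖s‖ ^ 2 := by
      have := (iteratedFDeriv ℝ 2 h ((0 : ℂ) + t • s) - iteratedFDeriv ℝ 2 h 0).le_opNorm (fun _ => s)
      simpa using this
    have e3 : ‖iteratedFDeriv ℝ 2 h ((0 : ℂ) + t • s) - iteratedFDeriv ℝ 2 h 0‖ ≤ C := by
      rw [← dist_eq_norm]
      apply le_of_lt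
      apply hc
      rw [dist_zero_right]
      exact lt_of_le_of_lt (hns t ht') hs2
    rw [e1]
    calc (1 - t) * ‖(iteratedFDeriv ℝ 2 h ((0 : ℂ) + t • s) - iteratedFDeriv ℝ 2 h 0) (fun _ => s)‖
        ≤ 1 * ‖(iteratedFDeriv ℝ 2 h ((0 : ℂ) + t • s) - iteratedFDeriv ℝ 2 h 0) (fun _ => s)‖ :=
          mul_le_mul_of_nonneg_right (by linarith [ht.1]) (norm_nonneg _)
      _ ≤ C * ‖s‖ ^ 2 := by
          rw [one_mul]
          exact e2.trans (mul_le_mul_of_nonneg_right e3 (by positivity))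
  rw [sub_zero, abs_one, mul_one, ← hsub] at hbd
  have key : h s - (h 0 + b * s + c * (starRingEnd ℂ) s + d / 2 * s ^ 2 + e / 2 * (s * (starRingEnd ℂ) s) + g / 2 * ((starRingEnd ℂ) s) ^ 2) =
      (∫ t in (0 : ℝ)..1, (1 - t) • iteratedFDeriv ℝ 2 h ((0 : ℂ) + t • s) (fun _ => s)) -
      (1 / 2 : ℝ) • iteratedFDeriv ℝ 2 h 0 (fun _ => s) := by
    have T' : h s = h 0 + iteratedFDeriv ℝ 1 h 0 (fun _ => s) + ∫ t in (0 : ℝ)..1, (1 - t) • iteratedFDeriv ℝ 2 h ((0 : ℂ) + t • s) (fun _ => s) := by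
      rw [zero_add] at T
      exact T
    rw [T', hbc s, hde s, Complex.real_smul]
    push_cast
    ring
  rw [key]
  exact hbd

theorem jetC34 : JetC := by
  intro h hS hconj0 hrot0
  obtain ⟨ε₁, hε₁, hconj⟩ := hconj0
  obtain ⟨ε₂, hε₂, hrot⟩ := hrot0
  obtain ⟨a, b, c, d, e, g, hexp0⟩ := peano34 hS
  refine ⟨c.re, d.re, ?_⟩
  rw [Asymptotics.isLittleO_iff]
  intro C hC
  obtain ⟨ε₃, hε₃, hexp⟩ := hexp0 C hC
  set P : ℂ → ℂ := fun s => a + b * s + c * (starRingEnd ℂ) s + d * s ^ 2 + e * (s * (starRingEnd ℂ) s) + g * ((starRingEnd ℂ) s) ^ 2 with hP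
  have hexp' : ∀ s : ℂ, ‖s‖ < ε₃ → ‖h s - P s‖ ≤ C * ‖s‖ ^ 2 := hexp
  have hωn := ω_norm
  have hωn' : ‖(starRingEnd ℂ) ω‖ = 1 := by rw [Complex.norm_conj]; exact hωn
  -- averaging over the rotations
  have step1 : ∀ s : ℂ, ‖s‖ < min ε₂ ε₃ → ‖h s - (c * (starRingEnd ℂ) s + d * s ^ 2)‖ ≤ C * ‖s‖ ^ 2 := by
    intro s hs
    have hs2 : ‖s‖ < ε₂ := lt_of_lt_of_le hs (min_le_left _ _)
    have hs3 : ‖s‖ < ε₃ := lt_of_lt_of_le hs (min_le_right _ _)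
    have n1 : ‖ω * s‖ = ‖s‖ := by rw [norm_mul, hωn, one_mul]
    have n2 : ‖(starRingEnd ℂ) ω * s‖ = ‖s‖ := by rw [norm_mul, hωn', one_mul]
    have r1 : h (ω * s) = (starRingEnd ℂ) ω * h s := hrot s hs2
    have r2 : h ((starRingEnd ℂ) ω * s) = ω * h s := by
      have := hrot (ω * s) (by rw [n1]; exact hs2)
      have e1 : ω * (ω * s) = (starRingEnd ℂ) ω * s := by rw [← mul_assoc, ← pow_two, ω_sq]
      rw [e1, r1] at this
      rw [this, ← mul_assoc, ← pow_two, cjω_sq]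
    have b0 := hexp' s hs3
    have b1 := hexp' (ω * s) (by rw [n1]; exact hs3)
    have b2 := hexp' ((starRingEnd ℂ) ω * s) (by rw [n2]; exact hs3)
    rw [n1] at b1
    rw [n2] at b2
    have key : h s - (c * (starRingEnd ℂ) s + d * s ^ 2) = ((h s - P s) + ω * (h (ω * s) - P (ω * s)) +
        (starRingEnd ℂ) ω * (h ((starRingEnd ℂ) ω * s) - P ((starRingEnd ℂ) ω * s))) / 3 := by
      rw [r1, r2]
      simp only [hP, map_mul, Complex.conj_conj]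
      have a1 := ω_mul_cj
      have a2 := ω_sq
      have a3 := cjω_sq
      have a4 := ω_sum
      have a5 := ω_cube
      have a6 : (starRingEnd ℂ) ω ^ 3 = 1 := by
        have := congrArg (starRingEnd ℂ) ω_cube
        simpa using this
      have t1 : ω * (a + b * (ω * s) + c * ((starRingEnd ℂ) ω * (starRingEnd ℂ) s) + d * (ω * s) ^ 2 + e * (ω * s * ((starRingEnd ℂ) ω * (starRingEnd ℂ) s)) +
          g * ((starRingEnd ℂ) ω * (starRingEnd ℂ) s) ^ 2) = ω * a + (starRingEnd ℂ) ω * b * s + c * (starRingEnd ℂ) s + d * s ^ 2 + ω * e * (s * (starRingEnd ℂ) s) +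
          (starRingEnd ℂ) ω * g * ((starRingEnd ℂ) s) ^ 2 := by
        linear_combination (b * s) * a2 + (c * (starRingEnd ℂ) s + ω * e * s * (starRingEnd ℂ) s + (starRingEnd ℂ) ω * g * (starRingEnd ℂ) s ^ 2) * a1 +
          (d * s ^ 2) * a5
      have t2 : (starRingEnd ℂ) ω * (a + b * ((starRingEnd ℂ) ω * s) + c * (ω * (starRingEnd ℂ) s) + d * ((starRingEnd ℂ) ω * s) ^ 2 +
          e * ((starRingEnd ℂ) ω * s * (ω * (starRingEnd ℂ) s)) + g * (ω * (starRingEnd ℂ) s) ^ 2) = (starRingEnd ℂ) ω * a + ω * b * s + c * (starRingEnd ℂ) s + d * s ^ 2 +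
          (starRingEnd ℂ) ω * e * (s * (starRingEnd ℂ) s) + ω * g * ((starRingEnd ℂ) s) ^ 2 := by
        linear_combination (b * s) * a3 + (c * (starRingEnd ℂ) s + (starRingEnd ℂ) ω * e * s * (starRingEnd ℂ) s + ω * g * (starRingEnd ℂ) s ^ 2) * a1 +
          (d * s ^ 2) * a6
      have t3 : ω * ((starRingEnd ℂ) ω * h s) = h s := by rw [← mul_assoc, a1, one_mul]
      have t4 : (starRingEnd ℂ) ω * (ω * h s) = h s := by rw [← mul_assoc, cj_mul_ω, one_mul]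
      rw [mul_sub, mul_sub, t1, t2, t3, t4]
      linear_combination ((a + b * s + e * (s * (starRingEnd ℂ) s) + g * (starRingEnd ℂ) s ^ 2) / 3) * a4
    rw [key, norm_div]
    have hn3 : ‖(3 : ℂ)‖ = 3 := by simp
    rw [hn3, div_le_iff₀ (by norm_num)]
    calc ‖(h s - P s) + ω * (h (ω * s) - P (ω * s)) + (starRingEnd ℂ) ω * (h ((starRingEnd ℂ) ω * s) - P ((starRingEnd ℂ) ω * s))‖
        ≤ ‖h s - P s‖ + ‖ω * (h (ω * s) - P (ω * s))‖ + ‖(starRingEnd ℂ) ω * (h ((starRingEnd ℂ) ω * s) - P ((starRingEnd ℂ) ω * s))‖ :=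
          norm_add₃_le
      _ = ‖h s - P s‖ + ‖h (ω * s) - P (ω * s)‖ + ‖h ((starRingEnd ℂ) ω * s) - P ((starRingEnd ℂ) ω * s)‖ := by
          rw [norm_mul, norm_mul, hωn, hωn', one_mul, one_mul]
      _ ≤ C * ‖s‖ ^ 2 * 3 := by linarith
  -- averaging with the mirror image
  rw [Metric.eventually_nhds_iff]
  refine ⟨min ε₁ (min ε₂ ε₃), lt_min hε₁ (lt_min hε₂ hε₃), ?_⟩
  intro s hs
  rw [dist_zero_right] at hs
  rw [norm_pow, norm_norm]
  have hs1 : ‖s‖ < ε₁ := lt_of_lt_of_le hs (min_le_left _ _)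
  have hs2 : ‖s‖ < min ε₂ ε₃ := lt_of_lt_of_le hs (min_le_right _ _)
  have nc : ‖(starRingEnd ℂ) s‖ = ‖s‖ := Complex.norm_conj s
  have b0 := step1 s hs2
  have b1 := step1 ((starRingEnd ℂ) s) (by rw [nc]; exact hs2)
  rw [nc, hconj s hs1, Complex.conj_conj] at b1
  have b1' : ‖h s - ((starRingEnd ℂ) c * (starRingEnd ℂ) s + (starRingEnd ℂ) d * s ^ 2)‖ ≤ C * ‖s‖ ^ 2 := by
    rw [← Complex.norm_conj]
    have e1 : (starRingEnd ℂ) (h s - ((starRingEnd ℂ) c * (starRingEnd ℂ) s + (starRingEnd ℂ) d * s ^ 2)) = (starRingEnd ℂ) (h s) - (c * s + d * (starRingEnd ℂ) s ^ 2) := by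
      simp only [map_sub, map_add, map_mul, map_pow, Complex.conj_conj]
    rw [e1]; exact b1
  have key : h s - ((c.re : ℂ) * (starRingEnd ℂ) s + (d.re : ℂ) * s ^ 2) = ((h s - (c * (starRingEnd ℂ) s + d * s ^ 2)) +
      (h s - ((starRingEnd ℂ) c * (starRingEnd ℂ) s + (starRingEnd ℂ) d * s ^ 2))) / 2 := by
    rw [re_eq34 c, re_eq34 d]; ring
  rw [key, norm_div]
  have hn2 : ‖(2 : ℂ)‖ = 2 := by simp
  rw [hn2, div_le_iff₀ (by norm_num)]
  calc ‖(h s - (c * (starRingEnd ℂ) s + d * s ^ 2)) + (h s - ((starRingEnd ℂ) c * (starRingEnd ℂ) s + (starRingEnd ℂ) d * s ^ 2))‖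
      ≤ ‖h s - (c * (starRingEnd ℂ) s + d * s ^ 2)‖ + ‖h s - ((starRingEnd ℂ) c * (starRingEnd ℂ) s + (starRingEnd ℂ) d * s ^ 2)‖ := norm_add_le _ _
    _ ≤ C * ‖s‖ ^ 2 * 2 := by linarith

end Pool.Agent.Pon30
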