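import Pool.Agent.Pon30.StmtsW
import Pool.Agent.Pon30.Cubic37

/-!
# Row CONV of MP_02df19_gt: converse of row CUBIC

If the point `o` lies on the Thomson cubic of the triangle, the concentric pair is aligned. The determinant of row
CUBIC vanishes, and its 2x2 minor is not zero because the points `z₀`, `z₁`, `z₂` have pairwise different squares.
-/

set_option autoImplicit false

namespace Pool.Agent.Pon30.Cv37

open Complex
open Pool.Agent.Pon30.C37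

lemma pair_id {p q P Q z₀ z₁ y₀ y₁ : ℂ} (h0 : z₀ * y₀ = 1) (h1 : z₁ * y₁ = 1) :
    (p * z₀ + q * y₀) ^ 2 * (P * y₁ + Q * z₁) ^ 2 - (p * z₁ + q * y₁) ^ 2 * (P * y₀ + Q * z₀) ^ 2 =
      (p * P - q * Q) * ((p * P + q * Q) * (z₀ ^ 2 * y₁ ^ 2 - z₁ ^ 2 * y₀ ^ 2) +
        2 * p * Q * (z₀ ^ 2 - z₁ ^ 2) + 2 * q * P * (y₁ ^ 2 - y₀ ^ 2)) := by
  linear_combination (p * P - q * Q) * (2 * p * Q * z₀ ^ 2 - 2 * q * P * y₀ ^ 2) * h1 +
    (p * P - q * Q) * (-2 * p * Q * z₁ ^ 2 + 2 * q * P * y₁ ^ 2) * h0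

lemma vand {a b c a' b' c' : ℂ} (ha : a * a' = 1) (hb : b * b' = 1) (hc : c * c' = 1) :
    (a * b * c) * ((a * b' - b * a') + (b * c' - c * b') + (c * a' - a * c')) = (a - b) * (b - c) * (c - a) := by
  linear_combination (a ^ 2 * c - c ^ 2 * a) * hb + (c ^ 2 * b - b ^ 2 * c) * ha + (b ^ 2 * a - a ^ 2 * b) * hc

lemma minor {s o p q F z₀ z₁ z₂ : ℂ} (h : Tz F z₀ z₁ z₂)
    (h0 : T0 s - o = L p q z₀) (h1 : T1 s - o = L p q z₁) (h2 : T2 s - o = L p q z₂) :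
    9 * (z₀ ^ 2 * z₁ ^ 2 * z₂ ^ 2) * ((s ^ 2 - 2 * o) * ((starRingEnd ℂ) s ^ 2 - 2 * (starRingEnd ℂ) o) -
        (1 - 2 * o * s) * (1 - 2 * (starRingEnd ℂ) o * (starRingEnd ℂ) s)) =
      (ω - (starRingEnd ℂ) ω) * ((p * (starRingEnd ℂ) p - q * (starRingEnd ℂ) q) *
        (p * (starRingEnd ℂ) p + q * (starRingEnd ℂ) q)) *
        ((z₀ ^ 2 - z₁ ^ 2) * (z₁ ^ 2 - z₂ ^ 2) * (z₂ ^ 2 - z₀ ^ 2)) := by
  have g0 := congrArg (starRingEnd ℂ) h0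
  have g1 := congrArg (starRingEnd ℂ) h1
  have g2 := congrArg (starRingEnd ℂ) h2
  rw [map_sub, cj_T0] at g0
  rw [map_sub, cj_T1] at g1
  rw [map_sub, cj_T2] at g2
  unfold L at h0 h1 h2 g0 g1 g2
  simp only [map_add, map_mul, Complex.conj_conj] at g0 g1 g2
  unfold T0 at h0
  unfold T1 at h1
  unfold T2 at h2
  have i01 := pair_id (p := p) (q := q) (P := (starRingEnd ℂ) p) (Q := (starRingEnd ℂ) q) h.cj0 h.cj1
  have i12 := pair_id (p := p) (q := q) (P := (starRingEnd ℂ) p) (Q := (starRingEnd ℂ) q) h.cj1 h.cj2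
  have i20 := pair_id (p := p) (q := q) (P := (starRingEnd ℂ) p) (Q := (starRingEnd ℂ) q) h.cj2 h.cj0
  rw [← h0, ← h1, ← g0, ← g1] at i01
  rw [← h1, ← h2, ← g1, ← g2] at i12
  rw [← h2, ← h0, ← g2, ← g0] at i20
  have v := vand (a := z₀ ^ 2) (b := z₁ ^ 2) (c := z₂ ^ 2) (a' := (starRingEnd ℂ) z₀ ^ 2)
    (b' := (starRingEnd ℂ) z₁ ^ 2) (c' := (starRingEnd ℂ) z₂ ^ 2)
    (by rw [← mul_pow, h.cj0, one_pow]) (by rw [← mul_pow, h.cj1, one_pow]) (by rw [← mul_pow, h.cj2, one_pow])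
  have m1 : 9 * ((s ^ 2 - 2 * o) * ((starRingEnd ℂ) s ^ 2 - 2 * (starRingEnd ℂ) o) -
        (1 - 2 * o * s) * (1 - 2 * (starRingEnd ℂ) o * (starRingEnd ℂ) s)) =
      (ω - (starRingEnd ℂ) ω) * (((1 + s - o) ^ 2 * ((starRingEnd ℂ) ω + (starRingEnd ℂ) s * ω - (starRingEnd ℂ) o) ^ 2 -
          (ω + s * (starRingEnd ℂ) ω - o) ^ 2 * (1 + (starRingEnd ℂ) s - (starRingEnd ℂ) o) ^ 2) +
        ((ω + s * (starRingEnd ℂ) ω - o) ^ 2 * (ω + (starRingEnd ℂ) s * (starRingEnd ℂ) ω - (starRingEnd ℂ) o) ^ 2 -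
          ((starRingEnd ℂ) ω + s * ω - o) ^ 2 * ((starRingEnd ℂ) ω + (starRingEnd ℂ) s * ω - (starRingEnd ℂ) o) ^ 2) +
        (((starRingEnd ℂ) ω + s * ω - o) ^ 2 * (1 + (starRingEnd ℂ) s - (starRingEnd ℂ) o) ^ 2 -
          (1 + s - o) ^ 2 * (ω + (starRingEnd ℂ) s * (starRingEnd ℂ) ω - (starRingEnd ℂ) o) ^ 2)) := by
    have hω : ω ^ 2 + ω + 1 = 0 := by rw [ω_sq, cj_ω_eq]; ring
    rw [cj_ω_eq]
    linear_combination (-8 * ω ^ 2 * s ^ 2 * ((starRingEnd ℂ) s) ^ 2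
        - 8 * ω ^ 2 * s ^ 2 * ((starRingEnd ℂ) s) * ((starRingEnd ℂ) o)
        + 8 * ω ^ 2 * s ^ 2 * ((starRingEnd ℂ) s) + 8 * ω ^ 2 * s ^ 2 * ((starRingEnd ℂ) o)
        - 8 * ω ^ 2 * s * ((starRingEnd ℂ) s) ^ 2 * o + 8 * ω ^ 2 * s * ((starRingEnd ℂ) s) ^ 2
        + 16 * ω ^ 2 * s * ((starRingEnd ℂ) s) * o
        + 16 * ω ^ 2 * s * ((starRingEnd ℂ) s) * ((starRingEnd ℂ) o) - 8 * ω ^ 2 * s * o
        - 16 * ω ^ 2 * s * ((starRingEnd ℂ) o) - 8 * ω ^ 2 * s + 8 * ω ^ 2 * ((starRingEnd ℂ) s) ^ 2 * o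
        - 16 * ω ^ 2 * ((starRingEnd ℂ) s) * o - 8 * ω ^ 2 * ((starRingEnd ℂ) s) * ((starRingEnd ℂ) o)
        - 8 * ω ^ 2 * ((starRingEnd ℂ) s) + 8 * ω ^ 2 * o + 8 * ω ^ 2 * ((starRingEnd ℂ) o) + 8 * ω ^ 2
        - 8 * ω * s ^ 2 * ((starRingEnd ℂ) s) ^ 2 - 8 * ω * s ^ 2 * ((starRingEnd ℂ) s) * ((starRingEnd ℂ) o)
        + 8 * ω * s ^ 2 * ((starRingEnd ℂ) s) + 8 * ω * s ^ 2 * ((starRingEnd ℂ) o)
        - 8 * ω * s * ((starRingEnd ℂ) s) ^ 2 * o + 8 * ω * s * ((starRingEnd ℂ) s) ^ 2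
        + 16 * ω * s * ((starRingEnd ℂ) s) * o + 16 * ω * s * ((starRingEnd ℂ) s) * ((starRingEnd ℂ) o)
        - 8 * ω * s * o - 16 * ω * s * ((starRingEnd ℂ) o) - 8 * ω * s + 8 * ω * ((starRingEnd ℂ) s) ^ 2 * o
        - 16 * ω * ((starRingEnd ℂ) s) * o - 8 * ω * ((starRingEnd ℂ) s) * ((starRingEnd ℂ) o)
        - 8 * ω * ((starRingEnd ℂ) s) + 8 * ω * o + 8 * ω * ((starRingEnd ℂ) o) + 8 * ω
        + 10 * s ^ 2 * ((starRingEnd ℂ) s) ^ 2 - 2 * s ^ 2 * ((starRingEnd ℂ) s) * ((starRingEnd ℂ) o)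
        + 2 * s ^ 2 * ((starRingEnd ℂ) s) - 22 * s ^ 2 * ((starRingEnd ℂ) o)
        - 2 * s * ((starRingEnd ℂ) s) ^ 2 * o + 2 * s * ((starRingEnd ℂ) s) ^ 2
        - 48 * s * ((starRingEnd ℂ) s) * o * ((starRingEnd ℂ) o) + 4 * s * ((starRingEnd ℂ) s) * o
        + 4 * s * ((starRingEnd ℂ) s) * ((starRingEnd ℂ) o) + 22 * s * o - 4 * s * ((starRingEnd ℂ) o)
        - 2 * s - 22 * ((starRingEnd ℂ) s) ^ 2 * o - 4 * ((starRingEnd ℂ) s) * o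
        + 22 * ((starRingEnd ℂ) s) * ((starRingEnd ℂ) o) - 2 * ((starRingEnd ℂ) s)
        + 48 * o * ((starRingEnd ℂ) o) + 2 * o + 2 * ((starRingEnd ℂ) o) - 10) * hω
  linear_combination (z₀ ^ 2 * z₁ ^ 2 * z₂ ^ 2) * m1 +
    (z₀ ^ 2 * z₁ ^ 2 * z₂ ^ 2) * (ω - (starRingEnd ℂ) ω) * (i01 + i12 + i20) +
    (ω - (starRingEnd ℂ) ω) * ((p * (starRingEnd ℂ) p - q * (starRingEnd ℂ) q) *
        (p * (starRingEnd ℂ) p + q * (starRingEnd ℂ) q)) * v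

lemma nsq_PR (z₀ z₁ z₂ : ℂ) : ((‖Pc z₀ z₁ z₂‖ ^ 2 - ‖Rc z₀ z₁ z₂‖ ^ 2 : ℝ) : ℂ) =
    (ω - (starRingEnd ℂ) ω) / 9 * ((z₀ * (starRingEnd ℂ) z₁ - z₁ * (starRingEnd ℂ) z₀) +
      (z₁ * (starRingEnd ℂ) z₂ - z₂ * (starRingEnd ℂ) z₁) + (z₂ * (starRingEnd ℂ) z₀ - z₀ * (starRingEnd ℂ) z₂)) := by
  rw [Complex.ofReal_sub, nsq, nsq]
  unfold Pc Rc
  simp only [map_add, map_mul, map_div₀, Complex.conj_conj, map_ofNat]
  rw [cj_ω_eq]
  ring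

lemma sq_ne {F z₀ z₁ z₂ : ℂ} (h : Tz F z₀ z₁ z₂) (hF : ‖F‖ < 1) :
    z₀ ^ 2 - z₁ ^ 2 ≠ 0 ∧ z₁ ^ 2 - z₂ ^ 2 ≠ 0 ∧ z₂ ^ 2 - z₀ ^ 2 ≠ 0 := by
  have hor : ((‖Pc z₀ z₁ z₂‖ ^ 2 - ‖Rc z₀ z₁ z₂‖ ^ 2 : ℝ) : ℂ) ≠ 0 := by
    have h1 := h.or
    have : 0 < ‖Pc z₀ z₁ z₂‖ ^ 2 - ‖Rc z₀ z₁ z₂‖ ^ 2 := by
      nlinarith [norm_nonneg (Rc z₀ z₁ z₂), norm_nonneg (Pc z₀ z₁ z₂)]
    exact_mod_cast this.ne'
  rw [nsq_PR] at hor
  have nF : ∀ w : ℂ, ‖w‖ = 1 → F = w ^ 2 → False := by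
    intro w hw hFw
    rw [hFw, norm_pow, hw, one_pow] at hF
    exact lt_irrefl _ hF
  refine ⟨?_, ?_, ?_⟩
  · intro hc
    rcases sq_eq_sq_iff_eq_or_eq_neg.1 (sub_eq_zero.1 hc) with e | e
    · apply hor; rw [e]; ring
    · exact nF z₁ h.n₁ (by have := h.s2; rw [e] at this; linear_combination this)
  · intro hc
    rcases sq_eq_sq_iff_eq_or_eq_neg.1 (sub_eq_zero.1 hc) with e | e
    · apply hor; rw [e]; ring
    · exact nF z₂ h.n₂ (by have := h.s2; rw [e] at this; linear_combination this)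
  · intro hc
    rcases sq_eq_sq_iff_eq_or_eq_neg.1 (sub_eq_zero.1 hc) with e | e
    · apply hor; rw [e]; ring
    · exact nF z₀ h.n₀ (by have := h.s2; rw [e] at this; linear_combination this)

/-- the alignment of the pair in terms of the triangle, converse direction -/
lemma aligned_of {s o p q F z₀ z₁ z₂ : ℂ} (hd : p * (starRingEnd ℂ) p - q * (starRingEnd ℂ) q ≠ 0) (h : Tz F z₀ z₁ z₂)
    (h0 : T0 s - o = L p q z₀) (h1 : T1 s - o = L p q z₁) (h2 : T2 s - o = L p q z₂)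
    (he : (starRingEnd ℂ) p * (starRingEnd ℂ) q * (s - o ^ 2) - p * q * ((starRingEnd ℂ) s - (starRingEnd ℂ) o ^ 2) = 0) :
    (p * (starRingEnd ℂ) q * F).im = 0 := by
  obtain ⟨c1, c2, c3⟩ := coords h0 h1 h2
  have d1 := congrArg (starRingEnd ℂ) c1
  have d2 := congrArg (starRingEnd ℂ) c2
  have d3 := congrArg (starRingEnd ℂ) c3
  simp only [map_add, map_mul, map_neg, map_one, Complex.conj_conj] at d1 d2 d3
  have hF1 := h.F_eq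
  have hF2 := congrArg (starRingEnd ℂ) hF1
  simp only [map_sub, map_mul, map_pow, map_ofNat] at hF2
  generalize Pc z₀ z₁ z₂ = P at *
  generalize Rc z₀ z₁ z₂ = R at *
  generalize Gc z₀ z₁ z₂ = g at *
  have eP : (p * (starRingEnd ℂ) p - q * (starRingEnd ℂ) q) * P = (starRingEnd ℂ) p - q * (starRingEnd ℂ) s := by linear_combination (starRingEnd ℂ) p * c1 - q * d2
  have eR : (p * (starRingEnd ℂ) p - q * (starRingEnd ℂ) q) * R = (starRingEnd ℂ) p * s - q := by linear_combination (starRingEnd ℂ) p * c2 - q * d1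
  have eg : (p * (starRingEnd ℂ) p - q * (starRingEnd ℂ) q) * g = q * (starRingEnd ℂ) o - (starRingEnd ℂ) p * o := by
    linear_combination (starRingEnd ℂ) p * c3 - q * d3
  have eP' : (p * (starRingEnd ℂ) p - q * (starRingEnd ℂ) q) * (starRingEnd ℂ) P = p - (starRingEnd ℂ) q * s := by linear_combination p * d1 - (starRingEnd ℂ) q * c2
  have eR' : (p * (starRingEnd ℂ) p - q * (starRingEnd ℂ) q) * (starRingEnd ℂ) R = p * (starRingEnd ℂ) s - (starRingEnd ℂ) q := by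
    linear_combination p * d2 - (starRingEnd ℂ) q * c1
  have eg' : (p * (starRingEnd ℂ) p - q * (starRingEnd ℂ) q) * (starRingEnd ℂ) g = (starRingEnd ℂ) q * o - p * (starRingEnd ℂ) o := by
    linear_combination p * d3 - (starRingEnd ℂ) q * c3
  have k1 : (p * (starRingEnd ℂ) p - q * (starRingEnd ℂ) q) ^ 2 * F =
      3 * (((starRingEnd ℂ) p - q * (starRingEnd ℂ) s) * ((starRingEnd ℂ) p * s - q) - (q * (starRingEnd ℂ) o - (starRingEnd ℂ) p * o) ^ 2) := by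
    rw [hF1, ← eP, ← eR, ← eg]; ring
  have k2 : (p * (starRingEnd ℂ) p - q * (starRingEnd ℂ) q) ^ 2 * (starRingEnd ℂ) F =
      3 * ((p - (starRingEnd ℂ) q * s) * (p * (starRingEnd ℂ) s - (starRingEnd ℂ) q) - ((starRingEnd ℂ) q * o - p * (starRingEnd ℂ) o) ^ 2) := by
    rw [hF2, ← eP', ← eR', ← eg']; ring
  have k3 : (p * (starRingEnd ℂ) p - q * (starRingEnd ℂ) q) ^ 2 *
      (p * (starRingEnd ℂ) q * F - (starRingEnd ℂ) p * q * (starRingEnd ℂ) F) = 0 := by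
    linear_combination 3 * (p * (starRingEnd ℂ) p - q * (starRingEnd ℂ) q) * he + p * (starRingEnd ℂ) q * k1 -
      (starRingEnd ℂ) p * q * k2
  have k4 := (mul_eq_zero.1 k3).resolve_left (pow_ne_zero 2 hd)
  apply Complex.conj_eq_iff_im.1
  simp only [map_mul, Complex.conj_conj]
  linear_combination - k4

theorem conv37' : ∀ s o p q F z₀ z₁ z₂ : ℂ, ‖s‖ < 1 → ‖q‖ < ‖p‖ → ‖F‖ < 1 → Tz F z₀ z₁ z₂ →
    T0 s - o = L p q z₀ → T1 s - o = L p q z₁ → T2 s - o = L p q z₂ → cub s o = 0 →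
    (p * (starRingEnd ℂ) q * F).im = 0 := by
  intro s o p q F z₀ z₁ z₂ hs hpq hF h h0 h1 h2 hcub
  have hd : 0 < ‖p‖ ^ 2 - ‖q‖ ^ 2 := by nlinarith [norm_nonneg q, norm_nonneg p]
  have hd' : p * (starRingEnd ℂ) p - q * (starRingEnd ℂ) q ≠ 0 := by
    rw [← nsq, ← nsq]
    intro hc
    have : ‖p‖ ^ 2 - ‖q‖ ^ 2 = 0 := by exact_mod_cast hc
    linarith
  have hα : p * (starRingEnd ℂ) p + q * (starRingEnd ℂ) q ≠ 0 := by
    rw [← nsq, ← nsq]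
    intro hc
    have : ‖p‖ ^ 2 + ‖q‖ ^ 2 = 0 := by exact_mod_cast hc
    nlinarith [sq_nonneg ‖q‖]
  have e1 := fourier_one h h0 h1 h2
  have e2 := congrArg (starRingEnd ℂ) e1
  simp only [map_sub, map_add, map_mul, map_pow, map_one, map_ofNat, map_zero, Complex.conj_conj] at e2
  have key : ((s - (starRingEnd ℂ) o - o * (starRingEnd ℂ) s) * ((1 - 2 * o * s) * ((starRingEnd ℂ) s - (starRingEnd ℂ) o ^ 2) + ((starRingEnd ℂ) s ^ 2 - 2 * (starRingEnd ℂ) o) * (s - o ^ 2)) -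
      ((starRingEnd ℂ) s - o - (starRingEnd ℂ) o * s) * ((1 - 2 * (starRingEnd ℂ) o * (starRingEnd ℂ) s) * (s - o ^ 2) + (s ^ 2 - 2 * o) * ((starRingEnd ℂ) s - (starRingEnd ℂ) o ^ 2))) = 0 := by
    unfold cub at hcub
    obtain ⟨a, b⟩ := s
    obtain ⟨x, y⟩ := o
    have hs2 : 1 - (a ^ 2 + b ^ 2) ≠ 0 := by
      have h1 : ‖(⟨a, b⟩ : ℂ)‖ ^ 2 < 1 := by nlinarith [norm_nonneg (⟨a, b⟩ : ℂ)]
      rw [nsq_re] at h1
      simp only at h1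
      linarith
    rw [nsq_re, nsq_re] at hcub
    apply Complex.ext
    · simp only [pow_succ, pow_zero, one_mul, mul_re, mul_im, sub_re, sub_im, add_re, add_im, conj_re, conj_im,
        one_re, one_im, re_ofNat, im_ofNat, zero_re]
      ring
    · simp only [pow_succ, pow_zero, one_mul, mul_re, mul_im, sub_re, sub_im, add_re, add_im, conj_re, conj_im,
        one_re, one_im, re_ofNat, im_ofNat, zero_im] at hcub ⊢
      apply mul_left_cancel₀ hs2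
      linear_combination 2 * hcub
  have key2 : ((s ^ 2 - 2 * o) * ((starRingEnd ℂ) s ^ 2 - 2 * (starRingEnd ℂ) o) - (1 - 2 * o * s) * (1 - 2 * (starRingEnd ℂ) o * (starRingEnd ℂ) s)) *
      ((starRingEnd ℂ) p * (starRingEnd ℂ) q * (s - o ^ 2) - p * q * ((starRingEnd ℂ) s - (starRingEnd ℂ) o ^ 2)) = 0 := by
    linear_combination (p * (starRingEnd ℂ) p + q * (starRingEnd ℂ) q) * key -
      ((1 - 2 * o * s) * ((starRingEnd ℂ) s - (starRingEnd ℂ) o ^ 2) + ((starRingEnd ℂ) s ^ 2 - 2 * (starRingEnd ℂ) o) * (s - o ^ 2)) * e1 +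
      ((1 - 2 * (starRingEnd ℂ) o * (starRingEnd ℂ) s) * (s - o ^ 2) + (s ^ 2 - 2 * o) * ((starRingEnd ℂ) s - (starRingEnd ℂ) o ^ 2)) * e2
  have hm : (s ^ 2 - 2 * o) * ((starRingEnd ℂ) s ^ 2 - 2 * (starRingEnd ℂ) o) - (1 - 2 * o * s) * (1 - 2 * (starRingEnd ℂ) o * (starRingEnd ℂ) s) ≠ 0 := by
    intro hc
    have hmin := minor h h0 h1 h2
    rw [hc, mul_zero] at hmin
    obtain ⟨n1, n2, n3⟩ := sq_ne h hF
    have hω : ω - (starRingEnd ℂ) ω ≠ 0 := by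
      intro hc
      have := congrArg Complex.im hc
      rw [sub_im, conj_im, ω_im, zero_im] at this
      have h3 : (0 : ℝ) < √3 := Real.sqrt_pos.2 (by norm_num)
      linarith
    exact mul_ne_zero (mul_ne_zero hω (mul_ne_zero hd' hα)) (mul_ne_zero (mul_ne_zero n1 n2) n3) hmin.symm
  exact aligned_of hd' h h0 h1 h2 ((mul_eq_zero.1 key2).resolve_left hm)

end Pool.Agent.Pon30.Cv37
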