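import Pool.Agent.Pon30.Lim93
import Pool.Agent.Pon30.StmtsC

/-! # MP_02df19_gt, C-version, row LIMC (helper82, after LimW93) -/

set_option autoImplicit false

namespace Pool.Agent.Pon30

open Complex Filter Topology

theorem limC82 : LimC := by
  intro h hSh hH
  obtain ⟨ε, hε, hconj⟩ := hSh.conj
  obtain ⟨r, hr, hcont⟩ := hSh.cont
  set r' := min r ε with hr'
  have hr'0 : 0 < r' := lt_min hr hε
  refine ⟨min (1 / 6) (r' / 4), lt_min (by norm_num) (by positivity), ?_⟩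
  intro p q F hp hq hF0 hF
  set ρ := min (1 / 6 : ℝ) (r' / 4) with hρ
  have hρ1 : ρ ≤ 1 / 6 := min_le_left _ _
  have hρ2 : ρ ≤ r' / 4 := min_le_right _ _
  have hpn : ‖(p : ℂ)‖ = p := by rw [Complex.norm_real, Real.norm_eq_abs, abs_of_pos hp]
  have hqn : ‖(q : ℂ)‖ = |q| := by rw [Complex.norm_real, Real.norm_eq_abs]
  have hFn : ‖(F : ℂ)‖ = |F| := by rw [Complex.norm_real, Real.norm_eq_abs]
  have hshape : ∀ z₀ z₁ z₂, Tz F z₀ z₁ z₂ →
      Pc (L p q z₀) (L p q z₁) (L p q z₂) ≠ 0 ∧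
      ‖Rc (L p q z₀) (L p q z₁) (L p q z₂) / Pc (L p q z₀) (L p q z₁) (L p q z₂)‖ < r' := by
    intro z₀ z₁ z₂ hz
    exact lim93_shape hz hr'0 hρ1 hρ2 (by rw [hpn]; exact hp) (by rw [hpn, hqn]; exact hq.le)
      (by rw [hFn]; exact hF.le)
  -- the perturbed pairs
  set qn : ℕ → ℂ := fun n => (q : ℂ) + ((1 / ((n : ℝ) + 1) : ℝ) : ℂ) * I with hqn'
  have hqlim : Tendsto qn atTop (𝓝 (q : ℂ)) := by
    have h1 : Tendsto (fun n : ℕ => (1 / ((n : ℝ) + 1) : ℝ)) atTop (𝓝 0) :=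
      tendsto_one_div_add_atTop_nhds_zero_nat
    have h2 : Tendsto (fun n : ℕ => ((1 / ((n : ℝ) + 1) : ℝ) : ℂ)) atTop (𝓝 ((0 : ℝ) : ℂ)) :=
      (Complex.continuous_ofReal.tendsto 0).comp h1
    have h3 := (h2.mul_const I).const_add (q : ℂ)
    simpa [hqn'] using h3
  have hev : ∀ᶠ n : ℕ in atTop, ‖qn n‖ < ‖(p : ℂ)‖ := by
    have h1 : Tendsto (fun n => ‖qn n‖) atTop (𝓝 ‖(q : ℂ)‖) := hqlim.norm
    apply h1.eventually_lt_const
    rw [hpn, hqn]
    nlinarith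
  have hnon : ∀ n : ℕ, ((p : ℂ) * (starRingEnd ℂ) (qn n) * (F : ℂ)).im ≠ 0 := by
    intro n
    have e : ((p : ℂ) * (starRingEnd ℂ) (qn n) * (F : ℂ)).im = -(p * F * (1 / ((n : ℝ) + 1))) := by
      simp only [hqn', map_add, map_mul, Complex.conj_ofReal, Complex.conj_I]
      generalize (1 / ((n : ℝ) + 1)) = x
      simp
      ring
    rw [e]
    have h1 : (1 / ((n : ℝ) + 1)) ≠ 0 := by positivity
    simp only [ne_eq, neg_eq_zero]
    exact mul_ne_zero (mul_ne_zero hp.ne' hF0) h1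
  have hF1 : ‖(F : ℂ)‖ < 1 := by rw [hFn]; linarith
  -- choose the forms
  obtain ⟨N, hN⟩ := eventually_atTop.1 hev
  have hch : ∀ n : ℕ, ∃ (α : ℝ) (β : ℂ) (c : ℝ), ‖β‖ ≤ α ∧ 0 ≤ c ∧ 0 < α + c ∧ ∀ z₀ z₁ z₂, Tz F z₀ z₁ z₂ →
      qf α β (Xh h (L p (qn (n + N)) z₀) (L p (qn (n + N)) z₁) (L p (qn (n + N)) z₂)) = c := by
    intro n
    exact hH p (qn (n + N)) F (hN _ (by omega)) hF1 (hnon _)
  choose α β γ hαβ hγ0 hαγ hαq using hch
  have hα0 : ∀ n, 0 ≤ α n := fun n => le_trans (norm_nonneg _) (hαβ n)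
  -- normalised data in a compact set
  set v : ℕ → ℝ × ℂ := fun n => (α n / (α n + γ n), β n / ((α n + γ n : ℝ) : ℂ)) with hv
  have hvK : ∀ n, v n ∈ Metric.closedBall (0 : ℝ × ℂ) 1 := by
    intro n
    have h1 : 0 < α n + γ n := hαγ n
    rw [mem_closedBall_zero_iff, Prod.norm_def, max_le_iff]
    constructor
    · simp only [hv]
      rw [Real.norm_eq_abs, abs_of_nonneg (div_nonneg (hα0 n) h1.le), div_le_one h1]
      linarith [hγ0 n]
    · simp only [hv]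
      rw [norm_div, Complex.norm_real, Real.norm_eq_abs, abs_of_pos h1, div_le_one h1]
      linarith [hαβ n, hγ0 n]
  obtain ⟨⟨A, B⟩, hAB, φ, hφ, hφlim⟩ :=
    (isCompact_closedBall (0 : ℝ × ℂ) 1).tendsto_subseq hvK
  have hAlim : Tendsto (fun n => α (φ n) / (α (φ n) + γ (φ n))) atTop (𝓝 A) := by
    have := (continuous_fst.tendsto (A, B)).comp hφlim
    simpa [Function.comp_def, hv] using this
  have hBlim : Tendsto (fun n => β (φ n) / ((α (φ n) + γ (φ n) : ℝ) : ℂ)) atTop (𝓝 B) := by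
    have := (continuous_snd.tendsto (A, B)).comp hφlim
    simpa only [Function.comp_def, hv] using this
  have hA0 : 0 ≤ A := ge_of_tendsto' hAlim (fun n => div_nonneg (hα0 (φ n)) (hαγ (φ n)).le)
  have hA1 : A ≤ 1 := le_of_tendsto' hAlim (fun n => by
    rw [div_le_one (hαγ (φ n))]; linarith [hγ0 (φ n)])
  have hBA : ‖B‖ ≤ A := by
    refine le_of_tendsto_of_tendsto' hBlim.norm hAlim (fun n => ?_)
    have h1 : 0 < α (φ n) + γ (φ n) := hαγ (φ n)
    rw [norm_div, Complex.norm_real, Real.norm_eq_abs, abs_of_pos h1]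
    gcongr
    exact (hαβ (φ n))
  have hClim : Tendsto (fun n => γ (φ n) / (α (φ n) + γ (φ n))) atTop (𝓝 (1 - A)) := by
    refine (hAlim.const_sub 1).congr (fun n => ?_)
    have h1 : α (φ n) + γ (φ n) ≠ 0 := (hαγ (φ n)).ne'
    field_simp
    ring
  -- the limit relation
  have hmain : ∀ z₀ z₁ z₂, Tz F z₀ z₁ z₂ →
      A * ‖Xh h (L p q z₀) (L p q z₁) (L p q z₂)‖ ^ 2 +
        (B * Xh h (L p q z₀) (L p q z₁) (L p q z₂) ^ 2).re = 1 - A := by
    intro z₀ z₁ z₂ hz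
    obtain ⟨hP, hs⟩ := hshape z₀ z₁ z₂ hz
    have hc := lim93_cont h p q z₀ z₁ z₂ hP (hcont _ (lt_of_lt_of_le hs (min_le_left _ _)))
    have hφN : Tendsto (fun n => φ n + N) atTop atTop :=
      tendsto_atTop_mono (fun n => Nat.le_add_right (φ n) N) hφ.tendsto_atTop
    have hXlim : Tendsto (fun n => Xh h (L p (qn (φ n + N)) z₀) (L p (qn (φ n + N)) z₁)
        (L p (qn (φ n + N)) z₂)) atTop (𝓝 (Xh h (L p q z₀) (L p q z₁) (L p q z₂))) := by
      have h1 : Tendsto (fun n => qn (φ n + N)) atTop (𝓝 (q : ℂ)) := hqlim.comp hφN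
      exact (hc.tendsto).comp h1
    have h1 : Tendsto (fun n => α (φ n) / (α (φ n) + γ (φ n)) * ‖Xh h (L p (qn (φ n + N)) z₀)
          (L p (qn (φ n + N)) z₁) (L p (qn (φ n + N)) z₂)‖ ^ 2 +
        (β (φ n) / ((α (φ n) + γ (φ n) : ℝ) : ℂ) * (Xh h (L p (qn (φ n + N)) z₀)
          (L p (qn (φ n + N)) z₁) (L p (qn (φ n + N)) z₂)) ^ 2).re) atTop
        (𝓝 (A * ‖Xh h (L p q z₀) (L p q z₁) (L p q z₂)‖ ^ 2 +
        (B * Xh h (L p q z₀) (L p q z₁) (L p q z₂) ^ 2).re)) := by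
      refine (hAlim.mul (hXlim.norm.pow 2)).add ?_
      exact (Complex.continuous_re.tendsto _).comp (hBlim.mul (hXlim.pow 2))
    refine tendsto_nhds_unique (h1.congr (fun n => ?_)) hClim
    have h2 := hαq (φ n) z₀ z₁ z₂ hz
    have h3 : 0 < α (φ n) + γ (φ n) := hαγ (φ n)
    unfold qf at h2
    set X := Xh h (L p (qn (φ n + N)) z₀) (L p (qn (φ n + N)) z₁) (L p (qn (φ n + N)) z₂)
    have e : (β (φ n) / ((α (φ n) + γ (φ n) : ℝ) : ℂ) * X ^ 2).re
        = (β (φ n) * X ^ 2).re / (α (φ n) + γ (φ n)) := by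
      rw [div_mul_eq_mul_div, Complex.div_ofReal_re]
    rw [e, div_mul_eq_mul_div, ← add_div, h2]
  -- average with the mirror image
  refine ⟨A + B.re, A - B.re, 1 - A, ?_, ?_, by linarith, ?_, ?_⟩
  · have := Complex.abs_re_le_norm B
    have := abs_le.1 this
    linarith
  · have := Complex.abs_re_le_norm B
    have := abs_le.1 this
    linarith
  · linarith
  · intro z₀ z₁ z₂ hz
    obtain ⟨hP, hs⟩ := hshape z₀ z₁ z₂ hz
    have m1 := hmain z₀ z₁ z₂ hz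
    have m2 := hmain _ _ _ (lim93_mirror hz)
    rw [lim93_mirror_X h p q z₀ z₁ z₂ (hconj _ (lt_of_lt_of_le hs (min_le_right _ _)))] at m2
    set X := Xh h (L p q z₀) (L p q z₁) (L p q z₂)
    rw [RCLike.norm_conj] at m2
    rw [nsq_re] at m1 m2
    simp only [pow_two, Complex.mul_re, Complex.mul_im, Complex.conj_re, Complex.conj_im] at m1 m2
    nlinarith [m1, m2]

end Pool.Agent.Pon30
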