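import Pool.Agent.Pon30.KeyW93
import Pool.Agent.Pon30.StmtsC
import Pool.Agent.Pon30.Conv37
import Pool.Agent.Pon30.Ex37
import Pool.Agent.Pon30.LimC82
import Pool.Agent.Pon30.Loc93
import Pool.Agent.Pon30.Real30

/-! # MP_02df19_gt, rows KEYPOSC and KEYFULLC -/

set_option autoImplicit false

namespace Pool.Agent.Pon30

open Complex Filter Topology

/-- the argument of KEYW, for any way to get the values at the two isosceles triangles -/
theorem keyC_main (hConv : ConvStmt) (hEx : ExStmt) (hReal : RealStmt) (hLoc : LocStmt) {h : ℂ → ℂ} {κ : ℝ}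
    (hlip0 : ∃ C > 0, ∃ ε > 0, ∀ s : ℂ, ‖s‖ < ε → ‖h s‖ ≤ C * ‖s‖)
    (hlim0 : ∃ ρ > 0, ∀ p q F : ℝ, 0 < p → |q| < ρ * p → F ≠ 0 → |F| < ρ →
      ∃ a b c : ℝ, 0 ≤ a ∧ 0 ≤ b ∧ 0 ≤ c ∧ 0 < a + b + c ∧
        ∀ z₀ z₁ z₂, Tz F z₀ z₁ z₂ →
          a * (Xh h (L p q z₀) (L p q z₁) (L p q z₂)).re ^ 2 +
            b * (Xh h (L p q z₀) (L p q z₁) (L p q z₂)).im ^ 2 = c)
    (G : ℂ → ℂ → Prop)
    (hval0 : ∃ ρ : ℝ, 0 < ρ ∧ ∀ (p q F : ℝ) (s o c y₀ y₁ y₂ : ℂ), G s o → 0 < p → |q| < p → |F| < 1 → |q| ≤ ρ * p →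
      |F| ≤ ρ → ‖c‖ = 1 → Tz F y₀ y₁ y₂ → c * (T0 s - o) = L p q y₀ → c * (T1 s - o) = L p q y₁ →
      c * (T2 s - o) = L p q y₂ →
      Xh h (L p q 1) (L p q (zu F)) (L p q ((starRingEnd ℂ) (zu F))) =
        ((-(1 - κ) * (F / 3) * (p + q) + κ * p * q * (1 - F) / (p + q) : ℝ) : ℂ) ∧
      Xh h (L p q (-I)) (L p q (zr F)) (L p q (zl F)) =
        ((-(1 - κ) * (F / 3) * (p - q) + κ * p * q * (1 + F) / (p - q) : ℝ) : ℂ) * I) :
    ∃ K > 0, ∃ t₀ > 0, ∀ (t : ℝ) (s o : ℂ), 0 < t → t < t₀ → ‖s‖ ≤ t ^ 2 → t / 2 ≤ ‖o‖ → ‖o‖ ≤ 2 * t →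
      cub s o = 0 → G s o →
      |((starRingEnd ℂ) (h s - hκ κ s) * (h s + hκ κ s - 2 * o)).re| ≤ K * t ^ 2 * ‖h s - hκ κ s‖ := by
  obtain ⟨ρ1, hρ1, hlim⟩ := hlim0
  obtain ⟨ρ2, hρ2, hval⟩ := hval0
  obtain ⟨ρ, hρ0, hρa, hρb, hρc⟩ : ∃ ρ : ℝ, 0 < ρ ∧ ρ ≤ ρ1 ∧ ρ ≤ 1 / 6 ∧ ρ ≤ ρ2 := by
    exact ⟨min ρ1 (min (1 / 6) ρ2), lt_min hρ1 (lt_min (by norm_num) hρ2), min_le_left _ _,
      (min_le_right _ _).trans (min_le_left _ _), (min_le_right _ _).trans (min_le_right _ _)⟩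
  obtain ⟨ε1, hε1, hex⟩ := hEx ρ hρ0
  obtain ⟨C, hC, ε2, hε2, hlip⟩ := hlip0
  have hκ0 := abs_nonneg κ
  set K1 : ℝ := 6000 * (1 + |κ|) with hK1
  have hK1pos : 0 < K1 := by positivity
  set t₀ : ℝ := min (min (ε1 / 4) (ε2 / 2)) (min (1 / (12 * K1)) (min (1 / (12 * (C + 2 * |κ| + 1))) (1 / 4)))
    with ht₀
  have ht₀pos : 0 < t₀ := by
    rw [ht₀]
    refine lt_min (lt_min (by positivity) (by positivity)) (lt_min (by positivity) (lt_min (by positivity) (by norm_num)))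
  refine ⟨12 * 5 * K1, by positivity, t₀, ht₀pos, ?_⟩
  intro t s o ht htt hs ho1 ho2 hcub hG
  have t1 : t < ε1 / 4 := lt_of_lt_of_le htt ((min_le_left _ _).trans (min_le_left _ _))
  have t2 : t < ε2 / 2 := lt_of_lt_of_le htt ((min_le_left _ _).trans (min_le_right _ _))
  have t3 : t < 1 / (12 * K1) := lt_of_lt_of_le htt ((min_le_right _ _).trans (min_le_left _ _))
  have t4 : t < 1 / (12 * (C + 2 * |κ| + 1)) :=
    lt_of_lt_of_le htt ((min_le_right _ _).trans ((min_le_right _ _).trans (min_le_left _ _)))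
  have t5 : t < 1 / 4 :=
    lt_of_lt_of_le htt ((min_le_right _ _).trans ((min_le_right _ _).trans (min_le_right _ _)))
  have hst : ‖s‖ ≤ t := hs.trans (by nlinarith)
  have hs4 : ‖s‖ ≤ 1 / 4 := by linarith
  have hsn := norm_nonneg s
  have hhs : ‖h s‖ ≤ C * ‖s‖ := hlip s (by linarith)
  have hhk : ‖hκ κ s‖ ≤ 2 * |κ| * ‖s‖ := keyW_hκ κ hs4
  have t4' : (C + 2 * |κ| + 1) * t ≤ 1 / 12 := by
    have h1 : (0 : ℝ) < 12 * (C + 2 * |κ| + 1) := by positivity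
    rw [lt_div_iff₀ h1] at t4
    linarith
  have hsum : (C + 2 * |κ|) * ‖s‖ ≤ t / 12 := by
    calc (C + 2 * |κ|) * ‖s‖ ≤ (C + 2 * |κ| + 1) * t ^ 2 := by
          have : (C + 2 * |κ|) * ‖s‖ ≤ (C + 2 * |κ| + 1) * ‖s‖ := by nlinarith
          refine this.trans ?_
          gcongr
      _ = ((C + 2 * |κ| + 1) * t) * t := by ring
      _ ≤ 1 / 12 * t := by gcongr
      _ = t / 12 := by ring
  have hhk' : ‖hκ κ s‖ ≤ t / 12 := by nlinarith
  have hhs' : ‖h s‖ ≤ t / 12 := by nlinarith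
  have hKt : K1 * t ^ 2 ≤ t / 12 := by
    have h1 : (0 : ℝ) < 12 * K1 := by positivity
    rw [lt_div_iff₀ h1] at t3
    nlinarith
  obtain ⟨p, q, F, z₀, z₁, z₂, hpq, hqρ, hF1, hFρ, hz, e0, e1, e2⟩ := hex s o (by linarith) (by linarith)
  have hal := hConv s o p q F z₀ z₁ z₂ (by linarith) hpq hF1 hz e0 e1 e2 hcub
  have hpn := norm_nonneg p
  obtain ⟨z1, z2, z3, z4, z5⟩ := keyW_sizes hz (hqρ.le.trans (by gcongr)) (hFρ.le.trans hρb) e0 e1 e2 hst ho2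
  have ho0 : o ≠ 0 := by
    intro h0
    rw [h0, norm_zero] at ho1
    linarith
  have hF0 := z5 ho0
  obtain ⟨c, p', q', F', y₀, y₁, y₂, hc, hp', hq', hF', hy, g0, g1, g2⟩ := hReal p q F z₀ z₁ z₂ hpq hF0 hal hz
  have hp0 : 0 < p' := by rw [hp']; linarith
  have hqa : |q'| < p' := by rw [hq', hp']; exact hpq
  have hqb : |q'| < ρ * p' := by rw [hq', hp']; exact hqρ
  have hFa : |F'| < 1 := by rw [hF']; exact hF1
  have hFb : |F'| < ρ := by rw [hF']; exact hFρ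
  have hF0' : F' ≠ 0 := by
    intro h0
    rw [h0, abs_zero] at hF'
    exact hF0 (norm_eq_zero.1 hF'.symm)
  have hc0 : c ≠ 0 := by
    intro h0; rw [h0, norm_zero] at hc; exact zero_ne_one hc
  have key : ∀ f : ℂ → ℂ, Xh f (L p' q' y₀) (L p' q' y₁) (L p' q' y₂) = c * (f s - o) := by
    intro f
    rw [← g0, ← g1, ← g2, ← e0, ← e1, ← e2, Xh_smul _ _ _ _ _ hc0, Xh_sub, Xh_T]
  obtain ⟨a, b, c', ha, hb, hc', habc, hq⟩ := hlim p' q' F' hp0
    (lt_of_lt_of_le hqb (mul_le_mul_of_nonneg_right hρa hp0.le)) hF0' (lt_of_lt_of_le hFb hρa)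
  have g0' : c * (T0 s - o) = L p' q' y₀ := by rw [e0, g0]
  have g1' : c * (T1 s - o) = L p' q' y₁ := by rw [e1, g1]
  have g2' : c * (T2 s - o) = L p' q' y₂ := by rw [e2, g2]
  obtain ⟨v1, v2⟩ := hval p' q' F' s o c y₀ y₁ y₂ hG hp0 hqa hFa
    (hqb.le.trans (mul_le_mul_of_nonneg_right hρc hp0.le)) (hFb.le.trans hρc) hc hy g0' g1' g2'
  have hdiff := keyW_diff (κ := κ) (p := p') (q := q') (F := F') (t := t) (by rw [hp']; exact z1)
    (by rw [hp']; exact z2) ht.le (by rw [hq']; exact z4) (by rw [hF']; exact z3)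
    (hqb.le.trans (by gcongr))
  have hfin := hLoc p' q' F' κ y₀ y₁ y₂ hqa hFa hy
  set x : ℝ := -(1 - κ) * (F' / 3) * (p' + q') + κ * p' * q' * (1 - F') / (p' + q') with hxdef
  set y : ℝ := -(1 - κ) * (F' / 3) * (p' - q') + κ * p' * q' * (1 + F') / (p' - q') with hydef
  have r0 := hq y₀ y₁ y₂ hy
  have r1 := hq _ _ _ (tz_first hFa)
  have r2 := hq _ _ _ (tz_second hFa)
  rw [key h] at r0
  rw [v1, ofReal_re, ofReal_im] at r1
  rw [v2, re_ofReal_mul, im_ofReal_mul, I_re, I_im] at r2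
  have hx : a * x ^ 2 = c' := by linarith
  have hy' : b * y ^ 2 = c' := by linarith
  have hlam := hy.lam_norm
  rw [key] at hfin
  set lam := y₀ * y₁ * y₂ with hlamdef
  have hlam2 : lam.re ^ 2 + lam.im ^ 2 = 1 := by
    have := nsq_re lam
    rw [hlam] at this
    linarith
  have vre : (c * (hκ κ s - o)).re = lam.re * x := by
    rw [hfin]; simp
  have vim : (c * (hκ κ s - o)).im = lam.im * y := by
    rw [hfin]; simp
  have r3 : a * (c * (hκ κ s - o)).re ^ 2 + b * (c * (hκ κ s - o)).im ^ 2 = c' := by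
    rw [vre, vim]
    linear_combination lam.re ^ 2 * hx + lam.im ^ 2 * hy' + c' * hlam2
  -- size of the axes
  have hvn : t / 3 ≤ ‖c * (hκ κ s - o)‖ := by
    rw [norm_mul, hc, one_mul]
    have := norm_sub_norm_le o (hκ κ s)
    rw [norm_sub_rev] at this
    linarith
  have hvn2 : (t / 3) ^ 2 ≤ lam.re ^ 2 * x ^ 2 + lam.im ^ 2 * y ^ 2 := by
    have h1 := nsq_re (c * (hκ κ s - o))
    rw [vre, vim] at h1
    have h2 : (t / 3) ^ 2 ≤ ‖c * (hκ κ s - o)‖ ^ 2 := by gcongr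
    have h3 : (lam.re * x) ^ 2 + (lam.im * y) ^ 2 = lam.re ^ 2 * x ^ 2 + lam.im ^ 2 * y ^ 2 := by ring
    linarith
  have hxy : t / 3 ≤ |x| ∨ t / 3 ≤ |y| := by
    by_contra hcon
    push Not at hcon
    obtain ⟨h1, h2⟩ := hcon
    have h3 : x ^ 2 < (t / 3) ^ 2 := by rw [← sq_abs]; gcongr
    have h4 : y ^ 2 < (t / 3) ^ 2 := by rw [← sq_abs]; gcongr
    have h5 := sq_nonneg lam.re
    have h6 := sq_nonneg lam.im
    have h7 : lam.re ^ 2 * x ^ 2 ≤ lam.re ^ 2 * max (x ^ 2) (y ^ 2) := by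
      gcongr; exact le_max_left _ _
    have h8 : lam.im ^ 2 * y ^ 2 ≤ lam.im ^ 2 * max (x ^ 2) (y ^ 2) := by
      gcongr; exact le_max_right _ _
    have h9 : lam.re ^ 2 * max (x ^ 2) (y ^ 2) + lam.im ^ 2 * max (x ^ 2) (y ^ 2) = max (x ^ 2) (y ^ 2) := by
      rw [← add_mul, hlam2, one_mul]
    have h10 : max (x ^ 2) (y ^ 2) < (t / 3) ^ 2 := max_lt h3 h4
    linarith
  have hd12 : |x - y| ≤ t / 12 := hdiff.trans hKt
  have hxy4 : t / 4 ≤ |x| ∧ t / 4 ≤ |y| := by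
    have h1 := abs_sub_abs_le_abs_sub x y
    have h2 := abs_sub_abs_le_abs_sub y x
    rw [abs_sub_comm y x] at h2
    rcases hxy with h3 | h3
    · constructor <;> linarith
    · constructor <;> linarith
  have huv : ‖c * (h s - o) + c * (hκ κ s - o)‖ ≤ 5 * t := by
    have e : c * (h s - o) + c * (hκ κ s - o) = c * ((h s + hκ κ s) - 2 * o) := by ring
    rw [e, norm_mul, hc, one_mul]
    have h1 := norm_sub_le (h s + hκ κ s) (2 * o)
    have h2 := norm_add_le (h s) (hκ κ s)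
    rw [norm_mul] at h1
    have h3 : ‖(2 : ℂ)‖ = 2 := by norm_num
    rw [h3] at h1
    linarith
  have hmain := keyW_ellipse (u := c * (h s - o)) (v := c * (hκ κ s - o)) hc' habc hx hy' r0 r3 ht
    hK1pos.le hKt hdiff hxy4.1 hxy4.2 huv (by norm_num)
  have hcc : c * (starRingEnd ℂ) c = 1 := by rw [← nsq, hc]; norm_num
  have e3 : (starRingEnd ℂ) (c * (h s - o) - c * (hκ κ s - o)) * (c * (h s - o) + c * (hκ κ s - o))
      = (starRingEnd ℂ) (h s - hκ κ s) * (h s + hκ κ s - 2 * o) := by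
    have e4 : c * (h s - o) - c * (hκ κ s - o) = c * (h s - hκ κ s) := by ring
    rw [e4, map_mul]
    linear_combination ((starRingEnd ℂ) (h s - hκ κ s) * (h s + hκ κ s - 2 * o)) * hcc
  have e5 : ‖c * (h s - o) - c * (hκ κ s - o)‖ = ‖h s - hκ κ s‖ := by
    have e4 : c * (h s - o) - c * (hκ κ s - o) = c * (h s - hκ κ s) := by ring
    rw [e4, norm_mul, hc, one_mul]
  rw [e3, e5] at hmain
  exact hmain


/-- linear bound for the shape function near `0`, from its jet -/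
lemma keyC_lip {h : ℂ → ℂ} (hS : Shape2 h) : ∃ C > 0, ∃ ε > 0, ∀ s : ℂ, ‖s‖ < ε → ‖h s‖ ≤ C * ‖s‖ := by
  obtain ⟨κ, η, hj⟩ := hS.jet
  have h1 := hj.bound (show (0 : ℝ) < 1 by norm_num)
  rw [Metric.eventually_nhds_iff] at h1
  obtain ⟨ε, hε, hb⟩ := h1
  refine ⟨|κ| + |η| + 1, by positivity, min ε 1, lt_min hε one_pos, fun s hs => ?_⟩
  have hs1 : ‖s‖ < 1 := lt_of_lt_of_le hs (min_le_right _ _)
  have hs2 : ‖s‖ < ε := lt_of_lt_of_le hs (min_le_left _ _)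
  have h2 := hb (y := s) (by simpa [dist_zero_right] using hs2)
  rw [one_mul, norm_pow, norm_norm] at h2
  have hn := norm_nonneg s
  have hsq : ‖s‖ ^ 2 ≤ ‖s‖ := by nlinarith
  have h3 : ‖(κ * (starRingEnd ℂ) s + η * s ^ 2 : ℂ)‖ ≤ |κ| * ‖s‖ + |η| * ‖s‖ ^ 2 := by
    have := norm_add_le (κ * (starRingEnd ℂ) s : ℂ) (η * s ^ 2)
    rw [norm_mul, norm_mul, norm_pow, RCLike.norm_conj, Complex.norm_real, Complex.norm_real,
      Real.norm_eq_abs, Real.norm_eq_abs] at this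
    exact this
  have h4 : h s = (h s - (κ * (starRingEnd ℂ) s + η * s ^ 2)) + (κ * (starRingEnd ℂ) s + η * s ^ 2) := by ring
  rw [h4]
  have h5 := norm_add_le (h s - (κ * (starRingEnd ℂ) s + η * s ^ 2)) (κ * (starRingEnd ℂ) s + η * s ^ 2 : ℂ)
  have h6 : |η| * ‖s‖ ^ 2 ≤ |η| * ‖s‖ := by gcongr
  linarith

theorem keyFullC93' (hConv : ConvStmt) (hEx : ExStmt) (hReal : RealStmt) (hLim : LimC) (hLoc : LocStmt) :
    KeyFullC := by
  intro h hS hH κ hax0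
  obtain ⟨δ, hδ, hax⟩ := hax0
  have hm := keyC_main hConv hEx hReal hLoc (κ := κ) (keyC_lip hS) (hLim h hS hH) (fun _ _ => True)
    ⟨min (1 / 6) (δ / 4), lt_min (by norm_num) (by positivity), by
      intro p q F s o c y₀ y₁ y₂ _ hp hq hF hq' hF' _ _ _ _ _
      have hρ1 : min (1 / 6) (δ / 4) ≤ 1 / 6 := min_le_left _ _
      have hρ2 : min (1 / 6) (δ / 4) ≤ δ / 4 := min_le_right _ _
      exact real_pair hax hLoc hp hq hF (by linarith) (by linarith) hq' hF'⟩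
  obtain ⟨K, hK, t₀, ht₀, hmain⟩ := hm
  exact ⟨K, hK, t₀, ht₀, fun t s o a b c d e f => hmain t s o a b c d e f trivial⟩

/-- Fourier coordinates over a real pair -/
lemma keyC_fourier {p q F : ℝ} {z₀ z₁ z₂ : ℂ} (hz : Tz F z₀ z₁ z₂) :
    Rc (L p q z₀) (L p q z₁) (L p q z₂) * Pc (L p q z₀) (L p q z₁) (L p q z₂) =
      (3 * p * q + F * (p ^ 2 + q ^ 2)) / 3 +
        F ^ 2 / 9 * (p ^ 2 * (z₀ * z₁ * z₂) ^ 2 + q ^ 2 * (starRingEnd ℂ) (z₀ * z₁ * z₂) ^ 2 - p * q) ∧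
    Gc (L p q z₀) (L p q z₁) (L p q z₂) ^ 2 =
      F ^ 2 / 9 * (p ^ 2 * (z₀ * z₁ * z₂) ^ 2 + q ^ 2 * (starRingEnd ℂ) (z₀ * z₁ * z₂) ^ 2 + 2 * p * q) := by
  have hF := hz.F_eq
  have hG := hz.G_eq
  have hl : (z₀ * z₁ * z₂) * (starRingEnd ℂ) (z₀ * z₁ * z₂) = 1 := by rw [← nsq, hz.lam_norm]; norm_num
  have hpar : Pc z₀ z₁ z₂ * (starRingEnd ℂ) (Pc z₀ z₁ z₂) + Rc z₀ z₁ z₂ * (starRingEnd ℂ) (Rc z₀ z₁ z₂) +
      Gc z₀ z₁ z₂ * (starRingEnd ℂ) (Gc z₀ z₁ z₂) = 1 := by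
    rw [← nsq', ← nsq', ← nsq']
    exact_mod_cast hz.parseval
  rw [Rc_L, Pc_L, Gc_L]
  unfold L
  set P := Pc z₀ z₁ z₂
  set R := Rc z₀ z₁ z₂
  set G := Gc z₀ z₁ z₂
  set l := z₀ * z₁ * z₂
  have hF' : (F : ℂ) = 3 * ((starRingEnd ℂ) P * (starRingEnd ℂ) R - (starRingEnd ℂ) G ^ 2) := by
    have := congrArg (starRingEnd ℂ) hF
    simpa only [Complex.conj_ofReal, map_mul, map_sub, map_pow, map_ofNat] using this
  rw [Complex.conj_ofReal] at hG
  have hG' : (starRingEnd ℂ) G = - (starRingEnd ℂ) l * F / 3 := by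
    have := congrArg (starRingEnd ℂ) hG
    simpa only [Complex.conj_ofReal, map_mul, map_neg, map_div₀, map_ofNat] using this
  constructor
  · rw [hG', hG] at hpar
    rw [hG] at hF
    rw [hG'] at hF'
    linear_combination (-(p : ℂ) ^ 2 / 3) * hF + (-(q : ℂ) ^ 2 / 3) * hF' + (p * q : ℂ) * hpar - (p * q * F ^ 2 / 9 : ℂ) * hl
  · rw [hG', hG]
    linear_combination (F ^ 2 / 9 * 2 * p * q : ℂ) * hl

lemma keyC_pos {p q F : ℝ} {s o c y₀ y₁ y₂ : ℂ} (hF : |F| < 1) (hc : ‖c‖ = 1) (hy : Tz F y₀ y₁ y₂)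
    (g0 : c * (T0 s - o) = L p q y₀) (g1 : c * (T1 s - o) = L p q y₁) (g2 : c * (T2 s - o) = L p q y₂)
    (hG : ‖s‖ ^ 2 < (s * (starRingEnd ℂ) o ^ 2).re) :
    0 < (3 * p * q + F * (p ^ 2 + q ^ 2)) - F * p * q ∧ 0 < -(3 * p * q + F * (p ^ 2 + q ^ 2)) - F * p * q := by
  obtain ⟨e1, e2⟩ := keyC_fourier (p := p) (q := q) hy
  rw [← g0, ← g1, ← g2, Rc_smul, Pc_smul, Rc_sub, Pc_sub, Rc_T, Pc_T] at e1
  rw [← g0, ← g1, ← g2, Gc_smul, Gc_sub, Gc_T] at e2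
  have hcc : c * (starRingEnd ℂ) c = 1 := by rw [← nsq, hc]; norm_num
  have hl := hy.lam_norm
  set l := y₀ * y₁ * y₂
  have hl2 : (l ^ 2).re ≤ 1 ∧ -1 ≤ (l ^ 2).re := by
    have h1 := Complex.abs_re_le_norm (l ^ 2)
    rw [norm_pow, hl, one_pow] at h1
    exact ⟨(abs_le.1 h1).2, (abs_le.1 h1).1⟩
  have e3 : (s - o ^ 2) * c ^ 2 = (((3 * p * q + F * (p ^ 2 + q ^ 2)) - F ^ 2 * p * q) / 3 : ℝ) := by
    push_cast
    linear_combination e1 - e2
  set N : ℝ := ((3 * p * q + F * (p ^ 2 + q ^ 2)) - F ^ 2 * p * q) / 3 with hN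
  have e4 : (starRingEnd ℂ) (s - o ^ 2) * (starRingEnd ℂ) c ^ 2 = N := by
    have := congrArg (starRingEnd ℂ) e3
    simpa using this
  have e5 : (N : ℂ) * (s * c ^ 2) = s * (starRingEnd ℂ) s - s * (starRingEnd ℂ) o ^ 2 := by
    rw [← e4]
    simp only [map_sub, map_pow]
    linear_combination (s * ((starRingEnd ℂ) s - (starRingEnd ℂ) o ^ 2) * (c * (starRingEnd ℂ) c + 1)) * hcc
  have e6 : N * (s * c ^ 2).re < 0 := by
    have h1 := congrArg Complex.re e5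
    rw [← nsq, Complex.re_ofReal_mul, Complex.sub_re, Complex.ofReal_re] at h1
    rw [h1]; linarith
  have e7 : (s * c ^ 2).re = (3 * p * q + F * (p ^ 2 + q ^ 2)) / 3 + F ^ 2 / 9 * ((p ^ 2 + q ^ 2) * (l ^ 2).re - p * q) := by
    have h1 : s * c ^ 2 = (3 * p * q + F * (p ^ 2 + q ^ 2)) / 3 +
        F ^ 2 / 9 * (p ^ 2 * l ^ 2 + q ^ 2 * (starRingEnd ℂ) l ^ 2 - p * q) := by
      linear_combination e1
    have h2 : (3 * p * q + F * (p ^ 2 + q ^ 2)) / 3 +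
        F ^ 2 / 9 * (p ^ 2 * l ^ 2 + q ^ 2 * (starRingEnd ℂ) l ^ 2 - p * q) =
        (((3 * p * q + F * (p ^ 2 + q ^ 2)) / 3 - F ^ 2 / 9 * (p * q) : ℝ) : ℂ) + ((F ^ 2 / 9 * p ^ 2 : ℝ) : ℂ) * l ^ 2 +
          ((F ^ 2 / 9 * q ^ 2 : ℝ) : ℂ) * (starRingEnd ℂ) (l ^ 2) := by
      rw [map_pow]; push_cast; ring
    rw [h1, h2, Complex.add_re, Complex.add_re, Complex.ofReal_re, Complex.re_ofReal_mul, Complex.re_ofReal_mul,
      Complex.conj_re]
    ring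
  have hF1 := abs_lt.1 hF
  have k1 : 0 ≤ F ^ 2 / 9 * (p ^ 2 + q ^ 2) := by positivity
  -- upper and lower bound for the real part
  have k2 : (s * c ^ 2).re ≤ ((3 * p * q + F * (p ^ 2 + q ^ 2)) - F * p * q) * (1 + F / 3) / 3 := by
    rw [e7]
    have : F ^ 2 / 9 * (p ^ 2 + q ^ 2) * (l ^ 2).re ≤ F ^ 2 / 9 * (p ^ 2 + q ^ 2) * 1 := by gcongr; exact hl2.1
    linarith
  have k3 : -(s * c ^ 2).re ≤ (-(3 * p * q + F * (p ^ 2 + q ^ 2)) - F * p * q) * (1 - F / 3) / 3 := by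
    rw [e7]
    have : F ^ 2 / 9 * (p ^ 2 + q ^ 2) * (-1) ≤ F ^ 2 / 9 * (p ^ 2 + q ^ 2) * (l ^ 2).re := by gcongr; exact hl2.2
    linarith
  have m1 : (3 * p * q + F * (p ^ 2 + q ^ 2)) - F * p * q = 3 * N - F * p * q * (1 - F) := by rw [hN]; ring
  have m2 : -(3 * p * q + F * (p ^ 2 + q ^ 2)) - F * p * q = -(3 * N) - F * p * q * (1 + F) := by rw [hN]; ring
  have f1 : 0 < 1 - F := by linarith
  have f2 : 0 < 1 + F := by linarith
  rcases lt_trichotomy N 0 with hN0 | hN0 | hN0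
  · have h1 : 0 < (s * c ^ 2).re := by
      by_contra h; push Not at h
      nlinarith
    have h2 : 0 < (3 * p * q + F * (p ^ 2 + q ^ 2)) - F * p * q := by
      have : 0 < ((3 * p * q + F * (p ^ 2 + q ^ 2)) - F * p * q) * (1 + F / 3) := by linarith
      exact pos_of_mul_pos_left this (by linarith)
    refine ⟨h2, ?_⟩
    rw [m1] at h2
    have h3 : 0 < -(F * p * q) := by
      have : 0 < -(F * p * q) * (1 - F) := by linarith
      exact pos_of_mul_pos_left this f1.le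
    rw [m2]
    have h4 : 0 < -(F * p * q) * (1 + F) := mul_pos h3 f2
    linarith
  · rw [hN0] at e6; simp at e6
  · have h1 : (s * c ^ 2).re < 0 := by
      by_contra h; push Not at h
      nlinarith
    have h2 : 0 < -(3 * p * q + F * (p ^ 2 + q ^ 2)) - F * p * q := by
      have : 0 < (-(3 * p * q + F * (p ^ 2 + q ^ 2)) - F * p * q) * (1 - F / 3) := by linarith
      exact pos_of_mul_pos_left this (by linarith)
    refine ⟨?_, h2⟩
    rw [m2] at h2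
    have h3 : 0 < -(F * p * q) := by
      have : 0 < -(F * p * q) * (1 + F) := by linarith
      exact pos_of_mul_pos_left this f2.le
    rw [m1]
    have h4 : 0 < -(F * p * q) * (1 - F) := mul_pos h3 f1
    linarith

/-- the values at the two isosceles triangles of a real pair, when their shapes are positive -/
lemma real_pair_pos {h : ℂ → ℂ} {κ δ : ℝ} (hax : ∀ x : ℝ, 0 ≤ x → x < δ → h x = hκ κ x) (hLoc : LocStmt)
    {p q F ρ : ℝ} (hp : 0 < p) (hq : |q| < p) (hF : |F| < 1) (hρ : ρ ≤ 1 / 2) (hρδ : 8 / 3 * ρ < δ)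
    (hq' : |q| ≤ ρ * p) (hF' : |F| ≤ ρ)
    (E1 : 0 < (3 * p * q + F * (p ^ 2 + q ^ 2)) - F * p * q)
    (E2 : 0 < -(3 * p * q + F * (p ^ 2 + q ^ 2)) - F * p * q) :
    Xh h (L p q 1) (L p q (zu F)) (L p q ((starRingEnd ℂ) (zu F))) =
      ((-(1 - κ) * (F / 3) * (p + q) + κ * p * q * (1 - F) / (p + q) : ℝ) : ℂ) ∧
    Xh h (L p q (-I)) (L p q (zr F)) (L p q (zl F)) =
      ((-(1 - κ) * (F / 3) * (p - q) + κ * p * q * (1 + F) / (p - q) : ℝ) : ℂ) * I := by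
  have hFc : ‖(F : ℂ)‖ ≤ ρ := by rw [norm_real, Real.norm_eq_abs]; exact hF'
  have hpc : (p : ℂ) ≠ 0 := by exact_mod_cast hp.ne'
  have hqc : ‖(q : ℂ)‖ ≤ ρ * ‖(p : ℂ)‖ := by
    rw [norm_real, norm_real, Real.norm_eq_abs, Real.norm_eq_abs, abs_of_pos hp]; exact hq'
  have hF1 := abs_lt.1 hF
  constructor
  · have hT := tz_first hF
    obtain ⟨-, hs⟩ := Lim82.shape_L hρ hFc hpc hqc hT
    obtain ⟨k1, -⟩ := keyC_fourier (p := p) (q := q) hT
    rw [lam_first hF] at k1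
    have e : ∃ x : ℝ, 0 ≤ x ∧ Rc (L p q 1) (L p q (zu F)) (L p q ((starRingEnd ℂ) (zu F))) /
        Pc (L p q 1) (L p q (zu F)) (L p q ((starRingEnd ℂ) (zu F))) = x := by
      have e0 : L p q 1 = ((p + q : ℝ) : ℂ) := by
        apply Complex.ext
        · rw [L_real_re]; simp
        · rw [L_real_im]; simp
      have e1 : L p q (zu F) = ⟨(p + q) * (zu F).re, (p - q) * (zu F).im⟩ := by
        apply Complex.ext
        · rw [L_real_re]
        · rw [L_real_im]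
      have e2 : L p q ((starRingEnd ℂ) (zu F)) = ⟨(p + q) * (zu F).re, -((p - q) * (zu F).im)⟩ := by
        apply Complex.ext
        · rw [L_real_re]; simp
        · rw [L_real_im]; simp
      rw [e0, e1, e2, sym_P, sym_R] at k1
      rw [e0, e1, e2, sym_P, sym_R]
      refine ⟨_, ?_, (Complex.ofReal_div _ _).symm⟩
      set r := ((p + q) - (p + q) * (zu F).re - √3 * ((p - q) * (zu F).im)) / 3
      set m := ((p + q) - (p + q) * (zu F).re + √3 * ((p - q) * (zu F).im)) / 3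
      have k2 : r * m = ((3 * p * q + F * (p ^ 2 + q ^ 2)) - F * p * q) * (1 + F / 3) / 3 := by
        have k3 : ((r * m : ℝ) : ℂ) = ((((3 * p * q + F * (p ^ 2 + q ^ 2)) - F * p * q) * (1 + F / 3) / 3 : ℝ) : ℂ) := by
          push_cast
          rw [k1]
          simp only [map_one]
          ring
        exact_mod_cast k3
      have k4 : 0 < r * m := by
        rw [k2]
        have : 0 < 1 + F / 3 := by linarith
        positivity
      rcases mul_pos_iff.1 k4 with ⟨a, b⟩ | ⟨a, b⟩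
      · exact (div_pos a b).le
      · exact (div_pos_of_neg_of_neg a b).le
    obtain ⟨x, hx0, hx⟩ := e
    have hx' : x < δ := by
      rw [hx, norm_real, Real.norm_eq_abs, abs_of_nonneg hx0] at hs
      linarith
    rw [Xh_congr (h' := hκ κ) (by rw [hx]; exact hax x hx0 hx'), hLoc p q F κ _ _ _ hq hF hT, lam_first hF]
    simp
  · have hT := tz_second hF
    obtain ⟨-, hs⟩ := Lim82.shape_L hρ hFc hpc hqc hT
    obtain ⟨k1, -⟩ := keyC_fourier (p := p) (q := q) hT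
    rw [lam_second hF] at k1
    have e : ∃ x : ℝ, 0 ≤ x ∧ Rc (L p q (-I)) (L p q (zr F)) (L p q (zl F)) /
        Pc (L p q (-I)) (L p q (zr F)) (L p q (zl F)) = x := by
      have e0 : L p q (-I) = ⟨0, -(p - q)⟩ := by
        apply Complex.ext
        · rw [L_real_re]; simp
        · rw [L_real_im]; simp
      have e1 : L p q (zr F) = ⟨(p + q) * (zr F).re, (p - q) * (zr F).im⟩ := by
        apply Complex.ext
        · rw [L_real_re]
        · rw [L_real_im]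
      have e2 : L p q (zl F) = ⟨-((p + q) * (zr F).re), (p - q) * (zr F).im⟩ := by
        apply Complex.ext
        · rw [L_real_re]; simp [zr, zl]
        · rw [L_real_im]; simp [zr, zl]
      rw [e0, e1, e2, iso_P, iso_R] at k1
      rw [e0, e1, e2, iso_P, iso_R, im_div_im]
      refine ⟨_, ?_, rfl⟩
      set r := -(((p - q) + (p - q) * (zr F).im) - √3 * ((p + q) * (zr F).re)) / 3
      set m := -(((p - q) + (p - q) * (zr F).im) + √3 * ((p + q) * (zr F).re)) / 3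
      have k2 : r * m = (-(3 * p * q + F * (p ^ 2 + q ^ 2)) - F * p * q) * (1 - F / 3) / 3 := by
        have hk0 : (⟨0, r⟩ : ℂ) * ⟨0, m⟩ = ((-(r * m) : ℝ) : ℂ) := by
          apply Complex.ext <;> simp
        have k3 : ((-(r * m) : ℝ) : ℂ) =
            ((-((-(3 * p * q + F * (p ^ 2 + q ^ 2)) - F * p * q) * (1 - F / 3) / 3) : ℝ) : ℂ) := by
          rw [← hk0, k1]
          push_cast
          simp only [Complex.conj_I, neg_sq, Complex.I_sq]
          ring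
        have k5 : -(r * m) = -((-(3 * p * q + F * (p ^ 2 + q ^ 2)) - F * p * q) * (1 - F / 3) / 3) := by
          exact_mod_cast k3
        linarith
      have k4 : 0 < r * m := by
        rw [k2]
        have : 0 < 1 - F / 3 := by linarith
        positivity
      rcases mul_pos_iff.1 k4 with ⟨a, b⟩ | ⟨a, b⟩
      · exact (div_pos a b).le
      · exact (div_pos_of_neg_of_neg a b).le
    obtain ⟨x, hx0, hx⟩ := e
    have hx' : x < δ := by
      rw [hx, norm_real, Real.norm_eq_abs, abs_of_nonneg hx0] at hs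
      linarith
    rw [Xh_congr (h' := hκ κ) (by rw [hx]; exact hax x hx0 hx'), hLoc p q F κ _ _ _ hq hF hT, lam_second hF]
    simp

theorem keyPosC93' (hConv : ConvStmt) (hEx : ExStmt) (hReal : RealStmt) (hLim : LimC) (hLoc : LocStmt) :
    KeyPosC := by
  intro h hS hH κ hax0
  obtain ⟨δ, hδ, hax⟩ := hax0
  have hm := keyC_main hConv hEx hReal hLoc (κ := κ) (keyC_lip hS) (hLim h hS hH)
    (fun s o => ‖s‖ ^ 2 < (s * (starRingEnd ℂ) o ^ 2).re)
    ⟨min (1 / 6) (δ / 4), lt_min (by norm_num) (by positivity), by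
      intro p q F s o c y₀ y₁ y₂ hG hp hq hF hq' hF' hc hy g0 g1 g2
      have hρ1 : min (1 / 6) (δ / 4) ≤ 1 / 6 := min_le_left _ _
      have hρ2 : min (1 / 6) (δ / 4) ≤ δ / 4 := min_le_right _ _
      obtain ⟨E1, E2⟩ := keyC_pos hF hc hy g0 g1 g2 hG
      exact real_pair_pos hax hLoc hp hq hF (by linarith) (by linarith) hq' hF' E1 E2⟩
  obtain ⟨K, hK, t₀, ht₀, hmain⟩ := hm
  exact ⟨K, hK, t₀, ht₀, fun t s o a b c d e f g => hmain t s o a b c d e f g⟩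

theorem keyFullC93 : KeyFullC := keyFullC93' Cv37.conv37' E37.ex37 realStmt limC82 locStmt93

theorem keyPosC93 : KeyPosC := keyPosC93' Cv37.conv37' E37.ex37 realStmt limC82 locStmt93

end Pool.Agent.Pon30
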