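import Pool.Agent.Pon30.Pair82
import Pool.Agent.Pon30.StmtsW

/-!
# MP_02df19_gt, weak version, row PAIRW (helper82): `PairW`
-/

namespace Pool.Agent.Pon30.P82

open Complex

lemma lin_par (P Q X o : ℂ) :
    ‖(starRingEnd ℂ) P * (X - o) - Q * (starRingEnd ℂ) (X - o)‖ ^ 2 +
      ‖(starRingEnd ℂ) P * (-X - o) - Q * (starRingEnd ℂ) (-X - o)‖ ^ 2 =
    2 * ‖(starRingEnd ℂ) P * X - Q * (starRingEnd ℂ) X‖ ^ 2 +
      2 * ‖(starRingEnd ℂ) P * o - Q * (starRingEnd ℂ) o‖ ^ 2 := by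
  simp only [Complex.sq_norm, normSq_apply, sub_re, sub_im, neg_re, neg_im, mul_re, mul_im, conj_re, conj_im]
  ring

lemma lin_val (P Q u : ℂ) (hu : ‖u‖ = 1) :
    ‖(starRingEnd ℂ) P * (P * u + Q * (starRingEnd ℂ) u) -
      Q * (starRingEnd ℂ) (P * u + Q * (starRingEnd ℂ) u)‖ ^ 2 = (normSq P - normSq Q) ^ 2 := by
  have e : (starRingEnd ℂ) P * (P * u + Q * (starRingEnd ℂ) u) -
      Q * (starRingEnd ℂ) (P * u + Q * (starRingEnd ℂ) u) = ((normSq P - normSq Q : ℝ) : ℂ) * u := by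
    simp only [map_add, map_mul, conj_conj]
    push_cast
    rw [normSq_eq_conj_mul_self, normSq_eq_conj_mul_self]
    ring
  rw [e, norm_mul, hu, mul_one, norm_real, Real.norm_eq_abs, sq_abs]

theorem pairW : PairW := by
  intro f _ hyp p q F h hF hn
  by_cases hT : ∃ z₀ z₁ z₂, Tz F z₀ z₁ z₂
  · obtain ⟨y₀, y₁, y₂, T⟩ := hT
    obtain ⟨o₁, P, Q, hall⟩ := hyp _ _ _ _ _ (pair_L h hF T) (nonal h hF hn)
    by_cases hPQ : P = 0 ∧ Q = 0
    · obtain ⟨rfl, rfl⟩ := hPQ
      refine ⟨1, 0, 0, by simp, le_rfl, by norm_num, ?_⟩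
      intro z₀ z₁ z₂ T'
      have hp := periodic_L h hF T'
      obtain ⟨hw, u, _, hX⟩ := hall _ _ _ hp
      obtain ⟨_, v, _, hY⟩ := hall _ _ _ (periodic_neg hp)
      rw [center_neg] at hY
      refine ⟨hw, ?_⟩
      have : center f (L p q z₀) (L p q z₁) (L p q z₂) = 0 := by
        have e1 : (2 : ℂ) * center f (L p q z₀) (L p q z₁) (L p q z₂) = 0 := by
          linear_combination hX - hY
        simpa using e1
      rw [this, qf]
      simp
    · have hpos : 0 < normSq P + normSq Q := by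
        have h1 := normSq_nonneg P
        have h2 := normSq_nonneg Q
        rcases lt_or_eq_of_le (add_nonneg h1 h2) with h3 | h3
        · exact h3
        · exfalso
          apply hPQ
          exact ⟨normSq_eq_zero.1 (by linarith), normSq_eq_zero.1 (by linarith)⟩
      have key : ∀ z₀ z₁ z₂, Tz F z₀ z₁ z₂ →
          wsum f (L p q z₀) (L p q z₁) (L p q z₂) ≠ 0 ∧
          ‖(starRingEnd ℂ) P * center f (L p q z₀) (L p q z₁) (L p q z₂) -
            Q * (starRingEnd ℂ) (center f (L p q z₀) (L p q z₁) (L p q z₂))‖ ^ 2 =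
          (normSq P - normSq Q) ^ 2 - ‖(starRingEnd ℂ) P * o₁ - Q * (starRingEnd ℂ) o₁‖ ^ 2 := by
        intro z₀ z₁ z₂ T'
        have hp := periodic_L h hF T'
        obtain ⟨hw, u, hu, hX⟩ := hall _ _ _ hp
        obtain ⟨_, v, hv, hY⟩ := hall _ _ _ (periodic_neg hp)
        rw [center_neg] at hY
        refine ⟨hw, ?_⟩
        have e := lin_par P Q (center f (L p q z₀) (L p q z₁) (L p q z₂)) o₁
        have eX : center f (L p q z₀) (L p q z₁) (L p q z₂) - o₁ = P * u + Q * (starRingEnd ℂ) u := by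
          linear_combination hX
        have eY : -center f (L p q z₀) (L p q z₁) (L p q z₂) - o₁ = P * v + Q * (starRingEnd ℂ) v := by
          linear_combination hY
        rw [eX, eY, lin_val P Q u hu, lin_val P Q v hv] at e
        linarith
      refine ⟨normSq P + normSq Q, -2 * (starRingEnd ℂ) P * (starRingEnd ℂ) Q,
        (normSq P - normSq Q) ^ 2 - ‖(starRingEnd ℂ) P * o₁ - Q * (starRingEnd ℂ) o₁‖ ^ 2, ?_, ?_, ?_, ?_⟩
      · rw [norm_mul, norm_mul, norm_conj, norm_conj, norm_neg, normSq_eq_norm_sq, normSq_eq_norm_sq]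
        have : ‖(2 : ℂ)‖ = 2 := by simp
        rw [this]
        nlinarith [sq_nonneg (‖P‖ - ‖Q‖)]
      · rw [← (key _ _ _ T).2]
        positivity
      · have : 0 ≤ (normSq P - normSq Q) ^ 2 - ‖(starRingEnd ℂ) P * o₁ - Q * (starRingEnd ℂ) o₁‖ ^ 2 := by
          rw [← (key _ _ _ T).2]
          positivity
        linarith
      · intro z₀ z₁ z₂ T'
        obtain ⟨hw, e⟩ := key _ _ _ T'
        refine ⟨hw, ?_⟩
        rw [← e]
        have := qf_lin 1 ((starRingEnd ℂ) P) Q (center f (L p q z₀) (L p q z₁) (L p q z₂))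
        simpa [normSq_conj] using this
  · refine ⟨1, 0, 0, by simp, le_rfl, by norm_num, ?_⟩
    intro z₀ z₁ z₂ T
    exact absurd ⟨z₀, z₁, z₂, T⟩ hT

end Pool.Agent.Pon30.P82

namespace Pool.Agent.Pon30

theorem pairW82 : PairW := P82.pairW

end Pool.Agent.Pon30
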