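import Pool.Agent.Pon30.StmtsP34
import Pool.Agent.Pon30.Basic

/-!
# MP_02df19_gt, local regularity version, row PARAMP: the explicit pair through the triangle with shape `s`
-/

set_option autoImplicit false

namespace Pool.Agent.Pon30

open Complex

namespace PP41

/-- the common form of `z0`, `z1`, `z2` -/
noncomputable def zz (u ζ : ℂ) : ℂ :=
  (ζ ^ 2 - (starRingEnd ℂ) ζ + (1 - ζ * (starRingEnd ℂ) ζ) * (u + ζ * (starRingEnd ℂ) u)) / (‖1 - ζ ^ 3‖ : ℝ)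

lemma z0_eq (ζ : ℂ) : z0 ζ = zz 1 ζ := by
  unfold z0 zz T0
  simp

lemma z1_eq (ζ : ℂ) : z1 ζ = zz ω ζ := by
  unfold z1 zz T1
  rfl

lemma z2_eq (ζ : ℂ) : z2 ζ = zz ((starRingEnd ℂ) ω) ζ := by
  unfold z2 zz T2
  rw [Complex.conj_conj]

lemma N_pos {ζ : ℂ} (h : ‖ζ‖ < 1) : 0 < ‖1 - ζ ^ 3‖ := by
  rw [norm_pos_iff]
  intro hc
  have h1 : ζ ^ 3 = 1 := by linear_combination -hc
  have h2 := congrArg norm h1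
  rw [norm_pow, norm_one] at h2
  have h3 : ‖ζ‖ ^ 3 < 1 := pow_lt_one₀ (norm_nonneg _) h (by norm_num)
  linarith

lemma N_sq (ζ : ℂ) : ((‖1 - ζ ^ 3‖ : ℝ) : ℂ) ^ 2 = (1 - ζ ^ 3) * (1 - (starRingEnd ℂ) ζ ^ 3) := by
  rw [nsq']
  simp

lemma zz_norm {u ζ : ℂ} (hu : u * (starRingEnd ℂ) u = 1) (hu3 : u ^ 2 = (starRingEnd ℂ) u)
    (hv3 : (starRingEnd ℂ) u ^ 2 = u) (h : ‖ζ‖ < 1) :
    zz u ζ * (starRingEnd ℂ) (zz u ζ) = 1 := by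
  have hN := N_pos h
  have hN' : ((‖1 - ζ ^ 3‖ : ℝ) : ℂ) ≠ 0 := by exact_mod_cast hN.ne'
  have e := N_sq ζ
  unfold zz
  simp only [map_div₀, map_add, map_sub, map_mul, map_pow, map_one, Complex.conj_conj, Complex.conj_ofReal]
  rw [div_mul_div_comm, ← pow_two ((‖1 - ζ ^ 3‖ : ℝ) : ℂ), e, div_eq_one_iff_eq (by rw [← e]; exact pow_ne_zero 2 hN')]
  set v := (starRingEnd ℂ) u with hv
  set y := (starRingEnd ℂ) ζ with hy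
  linear_combination (exp := 1) ((1 - ζ * y) ^ 2 * (1 + ζ * y)) * hu + ((1 - ζ * y) ^ 2 * y) * hu3 +
    ((1 - ζ * y) ^ 2 * ζ) * hv3

lemma one_sub_w (ζ : ℂ) (h : ‖ζ‖ < 1) : 1 - ζ * (starRingEnd ℂ) ζ ≠ 0 := by
  rw [← nsq]
  have h1 : ‖ζ‖ ^ 2 < 1 := by nlinarith [norm_nonneg ζ]
  have h2 : (1 - ‖ζ‖ ^ 2 : ℝ) ≠ 0 := by linarith
  intro hc
  apply h2
  exact_mod_cast hc

/-- the image of `zz` under the affine map -/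
lemma L_zz {s ζ u : ℂ} (h : ‖ζ‖ < 1) :
    u + s * (starRingEnd ℂ) u - oz s ζ = L (pz s ζ) (qz s ζ) (zz u ζ) := by
  have hN := N_pos h
  have hN' : ((‖1 - ζ ^ 3‖ : ℝ) : ℂ) ≠ 0 := by exact_mod_cast hN.ne'
  have hw := one_sub_w ζ h
  have hK : ((Kz ζ : ℝ) : ℂ) = ((‖1 - ζ ^ 3‖ : ℝ) : ℂ) / (1 - ζ * (starRingEnd ℂ) ζ) ^ 2 := by
    unfold Kz
    push_cast
    rw [nsq']
  unfold L pz qz oz zz
  rw [hK]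
  simp only [map_div₀, map_add, map_sub, map_mul, map_pow, map_one, Complex.conj_conj, Complex.conj_ofReal]
  set v := (starRingEnd ℂ) u with hv
  set y := (starRingEnd ℂ) ζ with hy
  obtain ⟨W, hW⟩ : ∃ W : ℂ, W = 1 - ζ * y := ⟨_, rfl⟩
  have hW' : 1 - y * ζ = W := by rw [hW]; ring
  rw [← hW] at hw ⊢
  rw [hW']
  field_simp
  rw [hW]
  ring

lemma q_lt_p {s ζ : ℂ} (hs : ‖s‖ < 1) (h : ‖ζ‖ < 1) : ‖qz s ζ‖ < ‖pz s ζ‖ := by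
  have hN := N_pos h
  have hz2 : 0 < 1 - ‖ζ‖ ^ 2 := by nlinarith [norm_nonneg ζ]
  have hK : 0 < Kz ζ := by unfold Kz; positivity
  unfold qz pz
  rw [norm_mul, norm_mul, norm_real, Real.norm_eq_abs, abs_of_pos hK]
  apply mul_lt_mul_of_pos_right _ hK
  have e : ‖1 - s * (starRingEnd ℂ) ζ‖ ^ 2 - ‖s - ζ‖ ^ 2 = (1 - ‖s‖ ^ 2) * (1 - ‖ζ‖ ^ 2) := by
    have h : (((‖1 - s * (starRingEnd ℂ) ζ‖ ^ 2 - ‖s - ζ‖ ^ 2 : ℝ)) : ℂ) =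
        (((1 - ‖s‖ ^ 2) * (1 - ‖ζ‖ ^ 2) : ℝ) : ℂ) := by
      push_cast
      rw [nsq', nsq', nsq', nsq']
      simp only [map_sub, map_mul, map_one, Complex.conj_conj]
      ring
    exact_mod_cast h
  have h3 : 0 < (1 - ‖s‖ ^ 2) * (1 - ‖ζ‖ ^ 2) := by
    apply mul_pos _ hz2
    nlinarith [norm_nonneg s]
  exact lt_of_pow_lt_pow_left₀ 2 (norm_nonneg _) (by linarith)

lemma F_lt {ζ : ℂ} (h : ‖ζ‖ < 1 / 8) : ‖Fz ζ‖ < 1 := by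
  unfold Fz
  have h0 := norm_nonneg ζ
  have h1 : ‖ζ - (starRingEnd ℂ) ζ ^ 2‖ ≤ 1 / 8 + 1 / 64 := by
    refine le_trans (norm_sub_le _ _) ?_
    rw [norm_pow, RCLike.norm_conj]
    nlinarith
  have h2 : 1 - 1 / 512 ≤ ‖1 - (starRingEnd ℂ) ζ ^ 3‖ := by
    have h3 := norm_sub_norm_le (1 : ℂ) ((starRingEnd ℂ) ζ ^ 3)
    rw [norm_one, norm_pow, RCLike.norm_conj] at h3
    have h4 : ‖ζ‖ ^ 3 ≤ (1 / 8) ^ 3 := pow_le_pow_left₀ h0 h.le 3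
    norm_num at h4
    linarith
  rw [norm_div, norm_mul]
  have h5 : ‖(3 : ℂ)‖ = 3 := by simp
  rw [h5, div_lt_one (by linarith)]
  linarith

lemma Gc_zz (ζ : ℂ) : Gc (zz 1 ζ) (zz ω ζ) (zz ((starRingEnd ℂ) ω) ζ) =
    (ζ ^ 2 - (starRingEnd ℂ) ζ) / (‖1 - ζ ^ 3‖ : ℝ) := by
  unfold Gc zz
  rw [Complex.conj_conj, map_one]
  linear_combination ((1 - ζ * (starRingEnd ℂ) ζ) * (1 + ζ) / (‖1 - ζ ^ 3‖ : ℝ) / 3) * ω_sum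

lemma Pc_zz (ζ : ℂ) : Pc (zz 1 ζ) (zz ω ζ) (zz ((starRingEnd ℂ) ω) ζ) =
    (1 - ζ * (starRingEnd ℂ) ζ) / (‖1 - ζ ^ 3‖ : ℝ) := by
  unfold Pc zz
  rw [Complex.conj_conj, map_one]
  linear_combination ((ζ ^ 2 - (starRingEnd ℂ) ζ) / (‖1 - ζ ^ 3‖ : ℝ) / 3 +
      (1 - ζ * (starRingEnd ℂ) ζ) * ζ / (‖1 - ζ ^ 3‖ : ℝ) / 3) * ω_sum +
    (2 * (1 - ζ * (starRingEnd ℂ) ζ) / (‖1 - ζ ^ 3‖ : ℝ) / 3) * ω_mul_cj +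
    ((1 - ζ * (starRingEnd ℂ) ζ) * ζ / (‖1 - ζ ^ 3‖ : ℝ) / 3) * (ω_sq + cjω_sq)

lemma Rc_zz (ζ : ℂ) : Rc (zz 1 ζ) (zz ω ζ) (zz ((starRingEnd ℂ) ω) ζ) =
    (1 - ζ * (starRingEnd ℂ) ζ) * ζ / (‖1 - ζ ^ 3‖ : ℝ) := by
  unfold Rc zz
  rw [Complex.conj_conj, map_one]
  linear_combination ((ζ ^ 2 - (starRingEnd ℂ) ζ) / (‖1 - ζ ^ 3‖ : ℝ) / 3 +
      (1 - ζ * (starRingEnd ℂ) ζ) / (‖1 - ζ ^ 3‖ : ℝ) / 3) * ω_sum +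
    (2 * (1 - ζ * (starRingEnd ℂ) ζ) * ζ / (‖1 - ζ ^ 3‖ : ℝ) / 3) * ω_mul_cj +
    ((1 - ζ * (starRingEnd ℂ) ζ) / (‖1 - ζ ^ 3‖ : ℝ) / 3) * (ω_sq + cjω_sq)

/-- the second symmetric function from the Fourier coordinates -/
lemma sig2 (z₀ z₁ z₂ : ℂ) : z₀ * z₁ + z₀ * z₂ + z₁ * z₂ =
    3 * (Gc z₀ z₁ z₂ ^ 2 - Pc z₀ z₁ z₂ * Rc z₀ z₁ z₂) := by
  unfold Pc Rc Gc
  have a1 := ω_mul_cj
  have a2 := ω_sq
  have a3 := cjω_sq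
  have a4 := ω_sum
  linear_combination ((z₁ ^ 2 + z₂ ^ 2) / 3) * a1 + (z₁ * z₂ / 3) * a2 + (z₁ * z₂ / 3) * a3 +
    ((z₀ * z₁ + z₀ * z₂ + z₁ * z₂) / 3) * a4

/-- the product from the Fourier coordinates -/
lemma sig3 (z₀ z₁ z₂ : ℂ) : z₀ * z₁ * z₂ =
    Gc z₀ z₁ z₂ ^ 3 + Pc z₀ z₁ z₂ ^ 3 + Rc z₀ z₁ z₂ ^ 3 - 3 * Gc z₀ z₁ z₂ * Pc z₀ z₁ z₂ * Rc z₀ z₁ z₂ := by
  have e0 := w0_eq z₀ z₁ z₂
  have e1 := w1_eq z₀ z₁ z₂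
  have e2 := w2_eq z₀ z₁ z₂
  set G := Gc z₀ z₁ z₂
  set P := Pc z₀ z₁ z₂
  set R := Rc z₀ z₁ z₂
  rw [e0, e1, e2]
  have a1 := ω_mul_cj
  have a2 := ω_sq
  have a3 := cjω_sq
  have a4 := ω_sum
  set v := (starRingEnd ℂ) ω with hv
  have b1 : (G + P * ω + R * v) * (G + P * v + R * ω) = G ^ 2 + P ^ 2 + R ^ 2 - G * P - G * R - P * R := by
    linear_combination (P ^ 2 + R ^ 2) * a1 + P * R * (a2 + a3) + (G * P + G * R + P * R) * a4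
  rw [mul_assoc, b1]
  ring

lemma zz_tz {ζ : ℂ} (h : ‖ζ‖ < 1) : Tz (Fz ζ) (zz 1 ζ) (zz ω ζ) (zz ((starRingEnd ℂ) ω) ζ) := by
  have hN := N_pos h
  have hN' : ((‖1 - ζ ^ 3‖ : ℝ) : ℂ) ≠ 0 := by exact_mod_cast hN.ne'
  have hv1 : (starRingEnd ℂ) ω ^ 2 = (starRingEnd ℂ) ((starRingEnd ℂ) ω) := by
    rw [Complex.conj_conj]; exact cjω_sq
  have hv2 : (starRingEnd ℂ) ((starRingEnd ℂ) ω) ^ 2 = (starRingEnd ℂ) ω := by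
    rw [Complex.conj_conj]; exact ω_sq
  have hn : ∀ z : ℂ, z * (starRingEnd ℂ) z = 1 → ‖z‖ = 1 := by
    intro z hz
    rw [← nsq] at hz
    have h1 : ‖z‖ ^ 2 = 1 := by exact_mod_cast hz
    nlinarith [norm_nonneg z]
  refine ⟨hn _ (zz_norm (by simp) (by simp) (by simp) h), hn _ (zz_norm ω_mul_cj ω_sq cjω_sq h),
    hn _ (zz_norm (by rw [Complex.conj_conj]; exact cj_mul_ω) hv1 hv2 h), ?_, ?_⟩
  · rw [Rc_zz, Pc_zz, mul_comm (1 - ζ * (starRingEnd ℂ) ζ) ζ, mul_div_assoc, norm_mul]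
    have h1 : 0 < ‖(1 - ζ * (starRingEnd ℂ) ζ) / ((‖1 - ζ ^ 3‖ : ℝ) : ℂ)‖ := by
      rw [norm_pos_iff]
      exact div_ne_zero (one_sub_w ζ h) hN'
    nlinarith
  · rw [sig2, Gc_zz, Pc_zz, Rc_zz]
    unfold Fz
    have e := N_sq ζ
    have h3 : (1 - ζ ^ 3) * (1 - (starRingEnd ℂ) ζ ^ 3) ≠ 0 := by rw [← e]; exact pow_ne_zero 2 hN'
    have h4 : 1 - (starRingEnd ℂ) ζ ^ 3 ≠ 0 := right_ne_zero_of_mul h3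
    have h5 : 1 - ζ ^ 3 ≠ 0 := left_ne_zero_of_mul h3
    set y := (starRingEnd ℂ) ζ with hy
    have e2 : ((ζ ^ 2 - y) / ((‖1 - ζ ^ 3‖ : ℝ) : ℂ)) ^ 2 -
        (1 - ζ * y) / ((‖1 - ζ ^ 3‖ : ℝ) : ℂ) * ((1 - ζ * y) * ζ / ((‖1 - ζ ^ 3‖ : ℝ) : ℂ)) =
        ((ζ ^ 2 - y) ^ 2 - (1 - ζ * y) ^ 2 * ζ) / ((1 - ζ ^ 3) * (1 - y ^ 3)) := by
      rw [← e]
      field_simp
    rw [e2]
    field_simp
    ring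

lemma zz_prod {ζ : ℂ} (h : ‖ζ‖ < 1) : zz 1 ζ * zz ω ζ * zz ((starRingEnd ℂ) ω) ζ = lz ζ := by
  have hN := N_pos h
  have hN' : ((‖1 - ζ ^ 3‖ : ℝ) : ℂ) ≠ 0 := by exact_mod_cast hN.ne'
  have e := N_sq ζ
  rw [sig3, Gc_zz, Pc_zz, Rc_zz]
  unfold lz
  set y := (starRingEnd ℂ) ζ with hy
  set n := ((‖1 - ζ ^ 3‖ : ℝ) : ℂ) with hn
  have e3 : (1 - ζ ^ 3) / n = (1 - ζ ^ 3) * ((1 - ζ ^ 3) * (1 - y ^ 3)) / n ^ 3 := by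
    rw [← e]
    field_simp
  rw [e3]
  field_simp
  ring

end PP41

/-- PARAMP -/
theorem paramP41 : ParamP := by
  intro s ζ hs hζ
  have h1 : ‖ζ‖ < 1 := by linarith
  have hN := PP41.N_pos h1
  refine ⟨PP41.q_lt_p hs h1, PP41.F_lt hζ, ?_, ?_, ?_, ?_, ?_, ?_⟩
  · rw [PP41.z0_eq, PP41.z1_eq, PP41.z2_eq]; exact PP41.zz_tz h1
  · rw [PP41.z0_eq, PP41.z1_eq, PP41.z2_eq]; exact PP41.zz_prod h1
  · unfold lz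
    rw [norm_div, norm_real, norm_norm, div_self hN.ne']
  · rw [PP41.z0_eq, ← PP41.L_zz h1]
    unfold T0
    simp
  · rw [PP41.z1_eq, ← PP41.L_zz h1]
    unfold T1
    rfl
  · rw [PP41.z2_eq, ← PP41.L_zz h1]
    unfold T2
    rw [Complex.conj_conj]

end Pool.Agent.Pon30
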