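import Pool.Agent.Pon30.StmtsP34
import Pool.Agent.Pon30.Basic

/-! Row STEPP of MP_02df19_gt (helper46): one step of the propagation. -/

set_option autoImplicit false

namespace Pool.Agent.Pon30

open Complex

/-- the equation `D = A (ν - 1) + B (ν̄ - 1)` on one of the explicit pairs -/
theorem step_pair (hParam : ParamP) (hLoc : LocP) (hFam : FamLP) (hAb : AbP) (hForm : FormP)
    {h : ℂ → ℂ} {κ : ℝ} (hH : HHw h) {s₀ : ℂ} (hlt : ∀ s : ℂ, ‖s‖ < ‖s₀‖ → h s = hκ κ s)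
    {s ζ : ℂ} (hs : ‖s‖ < 1) (hζ : ‖ζ‖ < 1 / 8) (hgap : ‖Bκ κ s ζ‖ < ‖Aκ κ s ζ‖)
    (hna : (pz s ζ * (starRingEnd ℂ) (qz s ζ) * Fz ζ).im ≠ 0)
    (hinf : {l : ℂ | ‖l‖ = 1 ∧ ∀ z₀ z₁ z₂, Tz (Fz ζ) z₀ z₁ z₂ → z₀ * z₁ * z₂ = l →
      ‖Rc (L (pz s ζ) (qz s ζ) z₀) (L (pz s ζ) (qz s ζ) z₁) (L (pz s ζ) (qz s ζ) z₂)‖ <
        ‖s₀‖ * ‖Pc (L (pz s ζ) (qz s ζ) z₀) (L (pz s ζ) (qz s ζ) z₁) (L (pz s ζ) (qz s ζ) z₂)‖}.Infinite) :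
    ∃ ν : ℂ, ‖ν‖ = 1 ∧
      h s - hκ κ s = Aκ κ s ζ * (ν - 1) + Bκ κ s ζ * ((starRingEnd ℂ) ν - 1) := by
  obtain ⟨hpq, hF, hT, hl, hl1, e0, e1, e2⟩ := hParam s ζ hs hζ
  obtain ⟨α, β, c, hβ, hc, hαc, hall⟩ := hH _ _ _ hpq hF hna
  obtain ⟨hA, hB⟩ := hAb κ s ζ hs hζ
  set p := pz s ζ with hp
  set q := qz s ζ with hq
  set F := Fz ζ with hFd
  set l₀ := lz ζ with hl₀
  set a := aκ κ p q F with ha
  set b := bκ κ p q F with hb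
  have hab : ‖b‖ < ‖a‖ := by
    have h1 : ‖Aκ κ s ζ‖ = ‖a‖ := by rw [← hA, norm_mul, hl1, mul_one]
    have h2 : ‖Bκ κ s ζ‖ = ‖b‖ := by rw [← hB, norm_mul, RCLike.norm_conj, hl1, mul_one]
    rwa [h1, h2] at hgap
  have hinf' : {l : ℂ | ‖l‖ = 1 ∧ qf α β (a * l + b * (starRingEnd ℂ) l) = c}.Infinite := by
    refine hinf.mono ?_
    rintro l ⟨hln, hl2⟩
    refine ⟨hln, ?_⟩
    obtain ⟨z₀, z₁, z₂, hz, hzl⟩ := hFam F l hF hln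
    have h3 := hl2 z₀ z₁ z₂ hz hzl
    have h4 := hall z₀ z₁ z₂ hz
    have h5 := hLoc κ p q F z₀ z₁ z₂ hpq hF hz
    rw [hzl] at h5
    have hP : 0 < ‖Pc (L p q z₀) (L p q z₁) (L p q z₂)‖ :=
      (norm_nonneg _).trans_lt (or_L hpq hz.or)
    have h6 : Xh h (L p q z₀) (L p q z₁) (L p q z₂) = Xh (hκ κ) (L p q z₀) (L p q z₁) (L p q z₂) := by
      unfold Xh
      rw [hlt]
      rw [norm_div, div_lt_iff₀ hP]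
      exact h3
    rw [← h5, ← h6]
    exact h4
  obtain ⟨μ, hμ, hY⟩ := hForm a b α β c hβ hc hαc hab hinf' _ (hall _ _ _ hT)
  rw [← e0, ← e1, ← e2, Xh_sub, Xh_T] at hY
  have hX := hLoc κ p q F _ _ _ hpq hF hT
  rw [← e0, ← e1, ← e2, Xh_sub, Xh_T, hl, hA, hB] at hX
  have hcl : l₀ * (starRingEnd ℂ) l₀ = 1 := by
    rw [← nsq, hl1]
    norm_num
  refine ⟨μ * (starRingEnd ℂ) l₀, by rw [norm_mul, RCLike.norm_conj, hμ, hl1, mul_one], ?_⟩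
  have h7 : h s - hκ κ s = a * μ + b * (starRingEnd ℂ) μ - (Aκ κ s ζ + Bκ κ s ζ) := by
    linear_combination hY - hX
  rw [h7, ← hA, ← hB, map_mul, Complex.conj_conj]
  linear_combination (-(a * μ + b * (starRingEnd ℂ) μ)) * hcl

/-- Row STEPP. -/
theorem stepP46 (hParam : ParamP) (hLoc : LocP) (hFam : FamLP) (hAb : AbP) (hDrop : DropP)
    (hForm : FormP) (hStrict : StrictP) (hGap : GapP) (hTrans : TransP) : StepP := by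
  intro h κ hH s₀ hs₀ hs₁ hlt
  have hg : 0 < 1 - ‖s₀‖ ^ 2 := by nlinarith
  set η : ℝ := (1 - ‖s₀‖ ^ 2) / 40 with hη
  have hη0 : 0 < η := by positivity
  obtain ⟨ε₁, hε₁, hSt⟩ := hStrict κ s₀ hs₁ η hη0
  obtain ⟨ε₂, hε₂, hGp⟩ := hGap κ s₀ hs₀ hs₁
  set ε : ℝ := min (min ε₁ ε₂) (1 / 8) with hε
  have hε0 : 0 < ε := by positivity
  have hεε₁ : ε ≤ ε₁ := (min_le_left _ _).trans (min_le_left _ _)
  have hεε₂ : ε ≤ ε₂ := (min_le_left _ _).trans (min_le_right _ _)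
  have hε8 : ε ≤ 1 / 8 := min_le_right _ _
  obtain ⟨ζ₀, hζ0, hζε, δ, hδ, hD⟩ := hDrop s₀ hs₀ hs₁ (ε / 2) (by positivity)
  -- the radius in the parameter of the pair
  set r : ℝ := min δ (min (ε / 2) ‖ζ₀‖) with hr
  have hr0 : 0 < r := by positivity
  have hrδ : r ≤ δ := min_le_left _ _
  have hrε : r ≤ ε / 2 := (min_le_right _ _).trans (min_le_left _ _)
  have hrζ : r ≤ ‖ζ₀‖ := (min_le_right _ _).trans (min_le_right _ _)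
  have hζlt : ∀ ζ : ℂ, ‖ζ - ζ₀‖ < r → ‖ζ‖ < ε ∧ 0 < ‖ζ‖ := by
    intro ζ hζ
    have h1 : ‖ζ‖ ≤ ‖ζ - ζ₀‖ + ‖ζ₀‖ := by
      have := norm_add_le (ζ - ζ₀) ζ₀
      rwa [sub_add_cancel] at this
    have h2 : ‖ζ₀‖ ≤ ‖ζ - ζ₀‖ + ‖ζ‖ := by
      have := norm_add_le (ζ₀ - ζ) ζ
      rw [sub_add_cancel, norm_sub_rev] at this
      exact this
    exact ⟨by linarith, by linarith⟩
  -- the radius in the shape
  refine ⟨min (min δ ε) ((1 - ‖s₀‖ ^ 2) / 8), by positivity, ?_⟩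
  intro s hs
  have hsδ : ‖s - s₀‖ < δ := hs.trans_le ((min_le_left _ _).trans (min_le_left _ _))
  have hsε : ‖s - s₀‖ < ε := hs.trans_le ((min_le_left _ _).trans (min_le_right _ _))
  have hs8 : ‖s - s₀‖ < (1 - ‖s₀‖ ^ 2) / 8 := hs.trans_le (min_le_right _ _)
  have hsn : ‖s‖ ≤ ‖s₀‖ + (1 - ‖s₀‖ ^ 2) / 8 := by
    have := norm_add_le (s - s₀) s₀
    rw [sub_add_cancel] at this
    linarith
  have hs1 : ‖s‖ < 1 := by nlinarith [norm_nonneg s₀]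
  have hsη : 20 * η < 1 - ‖s‖ ^ 2 := by
    have h1 : ‖s‖ ^ 2 ≤ (‖s₀‖ + (1 - ‖s₀‖ ^ 2) / 8) ^ 2 :=
      pow_le_pow_left₀ (norm_nonneg s) hsn 2
    have h2 : (‖s₀‖ + (1 - ‖s₀‖ ^ 2) / 8) ^ 2 =
        ‖s₀‖ ^ 2 + (1 - ‖s₀‖ ^ 2) * (‖s₀‖ / 4 + (1 - ‖s₀‖ ^ 2) / 64) := by ring
    have h3 : ‖s₀‖ / 4 + (1 - ‖s₀‖ ^ 2) / 64 ≤ 17 / 64 := by nlinarith [sq_nonneg ‖s₀‖]
    have h4 : (1 - ‖s₀‖ ^ 2) * (‖s₀‖ / 4 + (1 - ‖s₀‖ ^ 2) / 64) ≤ (1 - ‖s₀‖ ^ 2) * (17 / 64) :=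
      mul_le_mul_of_nonneg_left h3 hg.le
    rw [hη]
    linarith
  have hfin := hTrans s η hs1 hη0 hsη (fun ζ => Aκ κ s ζ) (fun ζ => Bκ κ s ζ) ζ₀ r hr0
    (hGp s ζ₀ (hsε.trans_le hεε₂) hζ0 (by linarith))
    (fun ζ ζ' hζ hζ' => hSt s ζ ζ' (hsε.trans_le hεε₁) ((hζlt ζ hζ).1.trans_le hεε₁)
      ((hζlt ζ' hζ').1.trans_le hεε₁))
    (h s - hκ κ s)
    (fun ζ hζ => by
      obtain ⟨hna, hinf⟩ := hD s ζ hsδ (hζ.trans_le hrδ)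
      exact step_pair hParam hLoc hFam hAb hForm hH hlt hs1 ((hζlt ζ hζ).1.trans_le hε8)
        (hGp s ζ (hsε.trans_le hεε₂) (hζlt ζ hζ).2 ((hζlt ζ hζ).1.trans_le hεε₂)) hna hinf)
  exact sub_eq_zero.1 hfin

end Pool.Agent.Pon30
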