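import Pool.Agent.Pon30.StmtsC
import Pool.Agent.Pon30.Center46
import Pool.Agent.Pon30.Pair82
import Pool.Agent.Pon30.All37

/-!
# Row STRICTC of MP_02df19_gt: nondegenerate loci force `κ = 0, 1, -2`
-/

set_option autoImplicit false

namespace Pool.Agent.Pon30

open Complex

lemma shape_hκ37 (κ : ℝ) : Shape (hκ κ) := by
  have hcj : AnalyticAt ℝ (fun s : ℂ => (starRingEnd ℂ) s) 0 :=
    (Complex.conjCLE.toContinuousLinearMap).analyticAt 0
  have hid : AnalyticAt ℝ (fun s : ℂ => s) 0 := analyticAt_id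
  refine ⟨?_, ⟨1, one_pos, fun s _ => ?_⟩, ⟨1, one_pos, fun s _ => ?_⟩⟩
  · have he : hκ κ = fun s : ℂ => (κ : ℂ) * ((starRingEnd ℂ) s - s ^ 2) / (1 - s * (starRingEnd ℂ) s) := by
      funext s
      unfold hκ
      rw [Complex.ofReal_sub, nsq, Complex.ofReal_one]
    rw [he]
    refine (analyticAt_const.mul (hcj.sub (hid.pow 2))).div (analyticAt_const.sub (hid.mul hcj)) ?_
    simp
  · unfold hκ
    rw [norm_conj]
    simp only [map_div₀, map_mul, map_sub, map_pow, Complex.conj_conj, Complex.conj_ofReal]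
  · unfold hκ
    rw [norm_mul, ω_norm, one_mul, map_mul, mul_pow, ω_sq]
    ring

/-- Row STRICTC -/
theorem strictC37 : StrictC := by
  intro f κ hf hstrict hall
  have hHH : HH (hκ κ) := by
    intro p q F hqp hF hna
    obtain ⟨α, β, hβ, h⟩ := pairStmt f hf hstrict p q F hqp hF hna
    refine ⟨α, β, hβ, fun z₀ z₁ z₂ hz => ?_⟩
    obtain ⟨h1, h2⟩ := h z₀ z₁ z₂ hz
    have hor := or_L hqp hz.or
    rw [center_Xh hf hor h1] at h2
    have hP : 0 < ‖Pc (L p q z₀) (L p q z₁) (L p q z₂)‖ := lt_of_le_of_lt (norm_nonneg _) hor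
    have hs : ‖Rc (L p q z₀) (L p q z₁) (L p q z₂) / Pc (L p q z₀) (L p q z₁) (L p q z₂)‖ < 1 := by
      rw [norm_div, div_lt_one hP]
      exact hor
    have h3 : Xh (hκ κ) (L p q z₀) (L p q z₁) (L p q z₂) = Xh (shp f) (L p q z₀) (L p q z₁) (L p q z₂) := by
      unfold Xh
      rw [(hall _ hs).2]
    rw [h3]
    exact h2
  obtain ⟨κ', hκ', ε, hε, heq⟩ := coreStmt (hκ κ) (shape_hκ37 κ) hHH
  have hx : κ = κ' := by
    obtain ⟨x, hx0, hx1, hx2⟩ : ∃ x : ℝ, 0 < x ∧ x < ε ∧ x < 1 :=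
      ⟨min ε 1 / 2, by positivity, by
        have := min_le_left ε 1
        have h0 : 0 < min ε 1 := lt_min hε one_pos
        linarith, by
        have := min_le_right ε 1
        have h0 : 0 < min ε 1 := lt_min hε one_pos
        linarith⟩
    have h := heq (x : ℂ) (by rw [Complex.norm_real, Real.norm_eq_abs, abs_of_pos hx0]; exact hx1)
    unfold hκ at h
    rw [Complex.norm_real, Real.norm_eq_abs, sq_abs, Complex.conj_ofReal] at h
    have h2 : κ * (x - x ^ 2) / (1 - x ^ 2) = κ' * (x - x ^ 2) / (1 - x ^ 2) := by exact_mod_cast h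
    have h3 : 0 < 1 - x ^ 2 := by nlinarith
    have h4 : 0 < x - x ^ 2 := by nlinarith
    have h5 : κ * (x - x ^ 2) = κ' * (x - x ^ 2) := (div_left_inj' h3.ne').1 h2
    exact mul_right_cancel₀ h4.ne' h5
  rw [hx]
  exact hκ'

end Pool.Agent.Pon30
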