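import Pool.Agent.Pon30.StmtsP34
import Pool.Agent.Pon30.Basic

/-!
# Rows STRICTP and GAPP
-/

set_option autoImplicit false

namespace Pool.Agent.Pon30

open Complex Filter Topology

lemma one_sub_nsq_ne {s : ℂ} (hs : ‖s‖ < 1) : (1 : ℂ) - s * (starRingEnd ℂ) s ≠ 0 := by
  intro h0
  have h1 : s * (starRingEnd ℂ) s = 1 := (sub_eq_zero.1 h0).symm
  have h2 := congrArg norm h1
  rw [norm_mul, RCLike.norm_conj, norm_one] at h2
  nlinarith [norm_nonneg s]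

lemma cd_div {f g : ℂ × ℂ → ℂ} {x : ℂ × ℂ} (hf : ContDiffAt ℝ 1 f x) (hg : ContDiffAt ℝ 1 g x) (h0 : g x ≠ 0) :
    ContDiffAt ℝ 1 (fun y => f y / g y) x := by
  simp only [div_eq_mul_inv]
  exact hf.mul (hg.inv h0)

lemma cd_A (κ : ℝ) {s₀ : ℂ} (hs : ‖s₀‖ < 1) : ContDiffAt ℝ 1 (fun x : ℂ × ℂ => Aκ κ x.1 x.2) (s₀, 0) := by
  have c1 : ContDiffAt ℝ 1 (fun x : ℂ × ℂ => x.1) (s₀, 0) := contDiffAt_fst
  have c2 : ContDiffAt ℝ 1 (fun x : ℂ × ℂ => x.2) (s₀, 0) := contDiffAt_snd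
  have c3 : ContDiffAt ℝ 1 (fun x : ℂ × ℂ => (starRingEnd ℂ) x.1) (s₀, 0) :=
    (conjCLE.contDiff.contDiffAt).comp _ c1
  have c4 : ContDiffAt ℝ 1 (fun x : ℂ × ℂ => (starRingEnd ℂ) x.2) (s₀, 0) :=
    (conjCLE.contDiff.contDiffAt).comp _ c2
  have k : ∀ c : ℂ, ContDiffAt ℝ 1 (fun _ : ℂ × ℂ => c) (s₀, 0) := fun c => contDiffAt_const
  have h1 := one_sub_nsq_ne hs
  unfold Aκ
  refine ContDiffAt.add (cd_div ?_ ?_ ?_) (cd_div ?_ ?_ ?_)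
  · exact ((k _).mul ((k 1).sub (c1.mul c4))).mul (c4.sub (c2.pow 2))
  · exact ((k 1).sub (c2.mul c4)).pow 2
  · simp
  · exact (((k _).mul ((k 1).sub (c1.mul c4))).mul (c3.sub c4)).mul
      ((((k 1).sub (c1.mul c4)).mul ((k 1).sub (c2.pow 3))).add (((k 3).mul (c4.sub (c2.pow 2))).mul (c1.sub c2)))
  · exact ((k 1).sub (c1.mul c3)).mul (((k 1).sub (c2.mul c4)).pow 3)
  · simpa using h1

lemma cd_B (κ : ℝ) {s₀ : ℂ} (hs : ‖s₀‖ < 1) : ContDiffAt ℝ 1 (fun x : ℂ × ℂ => Bκ κ x.1 x.2) (s₀, 0) := by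
  have c1 : ContDiffAt ℝ 1 (fun x : ℂ × ℂ => x.1) (s₀, 0) := contDiffAt_fst
  have c2 : ContDiffAt ℝ 1 (fun x : ℂ × ℂ => x.2) (s₀, 0) := contDiffAt_snd
  have c3 : ContDiffAt ℝ 1 (fun x : ℂ × ℂ => (starRingEnd ℂ) x.1) (s₀, 0) :=
    (conjCLE.contDiff.contDiffAt).comp _ c1
  have c4 : ContDiffAt ℝ 1 (fun x : ℂ × ℂ => (starRingEnd ℂ) x.2) (s₀, 0) :=
    (conjCLE.contDiff.contDiffAt).comp _ c2
  have k : ∀ c : ℂ, ContDiffAt ℝ 1 (fun _ : ℂ × ℂ => c) (s₀, 0) := fun c => contDiffAt_const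
  have h1 := one_sub_nsq_ne hs
  unfold Bκ
  refine ContDiffAt.sub (cd_div ?_ ?_ ?_) (cd_div ?_ ?_ ?_)
  · exact ((k _).mul (c1.sub c2)).mul (c2.sub (c4.pow 2))
  · exact ((k 1).sub (c2.mul c4)).pow 2
  · simp
  · exact (((k _).mul ((k 1).sub (c3.mul c2))).mul (c1.sub c2)).mul
      (((c1.sub c2).mul ((k 1).sub (c4.pow 3))).add (((k 3).mul (c2.sub (c4.pow 2))).mul ((k 1).sub (c1.mul c4))))
  · exact ((k 1).sub (c1.mul c3)).mul (((k 1).sub (c2.mul c4)).pow 3)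
  · simpa using h1

lemma dir_A (κ : ℝ) {s : ℂ} (hs : ‖s‖ < 1) (v : ℂ) :
    HasDerivAt (fun t : ℝ => Aκ κ s (t * v)) (-(starRingEnd ℂ) v) 0 := by
  have ht : HasDerivAt (fun t : ℝ => (t : ℂ)) 1 0 := Complex.ofRealCLM.hasDerivAt
  have h1 := one_sub_nsq_ne hs
  have hv : HasDerivAt (fun t : ℝ => (t : ℂ) * v) v 0 := by simpa using ht.mul_const v
  have hw : HasDerivAt (fun t : ℝ => (t : ℂ) * (starRingEnd ℂ) v) ((starRingEnd ℂ) v) 0 := by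
    simpa using ht.mul_const ((starRingEnd ℂ) v)
  have k : ∀ c : ℂ, HasDerivAt (fun _ : ℝ => c) 0 0 := fun c => hasDerivAt_const _ _
  have e : (fun t : ℝ => Aκ κ s (t * v)) = fun t : ℝ =>
      -(1 - κ) * (1 - s * (t * (starRingEnd ℂ) v)) * ((t * (starRingEnd ℂ) v) - (t * v) ^ 2) /
        (1 - (t * v) * (t * (starRingEnd ℂ) v)) ^ 2 +
      κ * (1 - s * (t * (starRingEnd ℂ) v)) * ((starRingEnd ℂ) s - (t * (starRingEnd ℂ) v)) *
      ((1 - s * (t * (starRingEnd ℂ) v)) * (1 - (t * v) ^ 3) + 3 * ((t * (starRingEnd ℂ) v) - (t * v) ^ 2) * (s - (t * v))) /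
      ((1 - s * (starRingEnd ℂ) s) * (1 - (t * v) * (t * (starRingEnd ℂ) v)) ^ 3) := by
    funext t
    unfold Aκ
    simp only [map_mul, conj_ofReal]
  rw [e]
  have g := (k 1).sub (hv.mul hw)
  have f1 := (k 1).sub ((k s).mul hw)
  have f2 := hw.sub (hv.pow 2)
  have f3 := (k ((starRingEnd ℂ) s)).sub hw
  have f4 := (f1.mul ((k 1).sub (hv.pow 3))).add (((k 3).mul f2).mul ((k s).sub hv))
  have A1 := (((k (-(1 - κ))).mul f1).mul f2).div (g.pow 2) (by simp)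
  have A2 := ((((k κ).mul f1).mul f3).mul f4).div ((k (1 - s * (starRingEnd ℂ) s)).mul (g.pow 3)) (by simpa using h1)
  refine (A1.add A2).congr_deriv ?_
  simp
  field_simp
  ring

lemma dir_B (κ : ℝ) {s : ℂ} (hs : ‖s‖ < 1) (v : ℂ) :
    HasDerivAt (fun t : ℝ => Bκ κ s (t * v)) (-(s * v)) 0 := by
  have ht : HasDerivAt (fun t : ℝ => (t : ℂ)) 1 0 := Complex.ofRealCLM.hasDerivAt
  have h1 := one_sub_nsq_ne hs
  have hv : HasDerivAt (fun t : ℝ => (t : ℂ) * v) v 0 := by simpa using ht.mul_const v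
  have hw : HasDerivAt (fun t : ℝ => (t : ℂ) * (starRingEnd ℂ) v) ((starRingEnd ℂ) v) 0 := by
    simpa using ht.mul_const ((starRingEnd ℂ) v)
  have k : ∀ c : ℂ, HasDerivAt (fun _ : ℝ => c) 0 0 := fun c => hasDerivAt_const _ _
  have e : (fun t : ℝ => Bκ κ s (t * v)) = fun t : ℝ =>
      -(1 - κ) * (s - (t * v)) * ((t * v) - (t * (starRingEnd ℂ) v) ^ 2) /
        (1 - (t * v) * (t * (starRingEnd ℂ) v)) ^ 2 -
      κ * (1 - (starRingEnd ℂ) s * (t * v)) * (s - (t * v)) *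
      ((s - (t * v)) * (1 - (t * (starRingEnd ℂ) v) ^ 3) + 3 * ((t * v) - (t * (starRingEnd ℂ) v) ^ 2) * (1 - s * (t * (starRingEnd ℂ) v))) /
      ((1 - s * (starRingEnd ℂ) s) * (1 - (t * v) * (t * (starRingEnd ℂ) v)) ^ 3) := by
    funext t
    unfold Bκ
    simp only [map_mul, conj_ofReal]
  rw [e]
  have g := (k 1).sub (hv.mul hw)
  have f0 := (k s).sub hv
  have f1 := (k 1).sub ((k s).mul hw)
  have f2 := hv.sub (hw.pow 2)
  have f3 := (k 1).sub ((k ((starRingEnd ℂ) s)).mul hv)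
  have f4 := (f0.mul ((k 1).sub (hw.pow 3))).add (((k 3).mul f2).mul f1)
  have A1 := (((k (-(1 - κ))).mul f0).mul f2).div (g.pow 2) (by simp)
  have A2 := ((((k κ).mul f3).mul f0).mul f4).div ((k (1 - s * (starRingEnd ℂ) s)).mul (g.pow 3)) (by simpa using h1)
  refine (A1.sub A2).congr_deriv ?_
  simp
  field_simp
  ring

lemma strict_aux {Φ : ℂ × ℂ → ℂ} {s₀ : ℂ} (hc : ContDiffAt ℝ 1 Φ (s₀, 0)) {M : ℂ → ℂ}
    (hM : ∀ v : ℂ, HasDerivAt (fun t : ℝ => Φ (s₀, t * v)) (M v) 0) {η : ℝ} (hη : 0 < η) :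
    ∃ ε > 0, ∀ s ζ ζ' : ℂ, ‖s - s₀‖ < ε → ‖ζ‖ < ε → ‖ζ'‖ < ε →
      ‖Φ (s, ζ) - Φ (s, ζ') - M (ζ - ζ')‖ ≤ η * ‖ζ - ζ'‖ := by
  have hs := hc.hasStrictFDerivAt (by norm_num)
  set Φ' := fderiv ℝ Φ (s₀, 0) with hΦ'
  have hMv : ∀ v : ℂ, Φ' (0, v) = M v := by
    intro v
    have hl : HasDerivAt (fun t : ℝ => ((s₀, (t : ℂ) * v) : ℂ × ℂ)) (0, v) 0 := by
      have h1 : HasDerivAt (fun t : ℝ => (t : ℂ) * v) v 0 := by
        have ht : HasDerivAt (fun t : ℝ => (t : ℂ)) 1 0 := Complex.ofRealCLM.hasDerivAt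
        simpa using ht.mul_const v
      exact (hasDerivAt_const (0 : ℝ) s₀).prodMk h1
    have h2 : HasFDerivAt Φ Φ' (s₀, ((0 : ℝ) : ℂ) * v) := by
      have : ((s₀, ((0 : ℝ) : ℂ) * v) : ℂ × ℂ) = (s₀, 0) := by simp
      rw [this]; exact hs.hasFDerivAt
    have h3 := h2.comp_hasDerivAt (0 : ℝ) hl
    exact h3.unique (hM v)
  have hb := hs.isLittleO
  rw [Asymptotics.isLittleO_iff] at hb
  have hb' := hb hη
  rw [Metric.eventually_nhds_iff] at hb'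
  obtain ⟨ε, hε, h⟩ := hb'
  refine ⟨ε, hε, fun s ζ ζ' h1 h2 h3 => ?_⟩
  have h4 := h (y := ((s, ζ), (s, ζ'))) (by
    rw [Prod.dist_eq, max_lt_iff, Prod.dist_eq, Prod.dist_eq, max_lt_iff, max_lt_iff]
    simp only [dist_eq_norm, sub_zero]
    exact ⟨⟨h1, h2⟩, ⟨h1, h3⟩⟩)
  simp only at h4
  have h5 : ((s, ζ) : ℂ × ℂ) - (s, ζ') = (0, ζ - ζ') := by ext <;> simp
  rw [h5, hMv] at h4
  have h6 : ‖((0 : ℂ), ζ - ζ')‖ = ‖ζ - ζ'‖ := by
    rw [Prod.norm_def]; simp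
  rw [h6] at h4
  exact h4

theorem strictP30 : StrictP := by
  intro κ s₀ hs η hη
  obtain ⟨ε₁, hε₁, h1⟩ := strict_aux (cd_A κ hs) (M := fun v => -(starRingEnd ℂ) v) (fun v => dir_A κ hs v) hη
  obtain ⟨ε₂, hε₂, h2⟩ := strict_aux (cd_B κ hs) (M := fun v => -(s₀ * v)) (fun v => dir_B κ hs v)
    (half_pos hη)
  refine ⟨min (min ε₁ ε₂) (η / 2), lt_min (lt_min hε₁ hε₂) (half_pos hη), fun s ζ ζ' a b c => ?_⟩
  have a1 := lt_of_lt_of_le a ((min_le_left _ _).trans (min_le_left _ _))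
  have a2 := lt_of_lt_of_le a ((min_le_left _ _).trans (min_le_right _ _))
  have a3 := lt_of_lt_of_le a (min_le_right _ _)
  have b1 := lt_of_lt_of_le b ((min_le_left _ _).trans (min_le_left _ _))
  have b2 := lt_of_lt_of_le b ((min_le_left _ _).trans (min_le_right _ _))
  have c1 := lt_of_lt_of_le c ((min_le_left _ _).trans (min_le_left _ _))
  have c2 := lt_of_lt_of_le c ((min_le_left _ _).trans (min_le_right _ _))
  constructor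
  · have h3 := h1 s ζ ζ' a1 b1 c1
    have e : Aκ κ s ζ - Aκ κ s ζ' + (starRingEnd ℂ) (ζ - ζ') =
        Aκ κ s ζ - Aκ κ s ζ' - -(starRingEnd ℂ) (ζ - ζ') := by ring
    rw [e]
    exact h3
  · have h3 := h2 s ζ ζ' a2 b2 c2
    have e : Bκ κ s ζ - Bκ κ s ζ' + s * (ζ - ζ') =
        (Bκ κ s ζ - Bκ κ s ζ' - -(s₀ * (ζ - ζ'))) + (s - s₀) * (ζ - ζ') := by ring
    rw [e]
    calc _ ≤ ‖Bκ κ s ζ - Bκ κ s ζ' - -(s₀ * (ζ - ζ'))‖ + ‖(s - s₀) * (ζ - ζ')‖ := norm_add_le _ _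
      _ ≤ η / 2 * ‖ζ - ζ'‖ + η / 2 * ‖ζ - ζ'‖ := by
          apply add_le_add h3
          rw [norm_mul]
          exact mul_le_mul_of_nonneg_right a3.le (norm_nonneg _)
      _ = _ := by ring

theorem gapP30 : GapP := by
  intro κ s₀ h0 h1
  rcases eq_or_ne κ 0 with hκ0 | hκ0
  · -- the centroid
    refine ⟨1 - ‖s₀‖, by linarith, fun s ζ hs hζ0 hζ => ?_⟩
    have hsn : ‖s‖ < 1 := by
      have := norm_sub_norm_le s s₀
      linarith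
    have hζ1 : ‖ζ‖ < 1 := by linarith [norm_nonneg s₀]
    have e1 : Aκ κ s ζ = -((1 - s * (starRingEnd ℂ) ζ) * ((starRingEnd ℂ) ζ - ζ ^ 2)) / (1 - ζ * (starRingEnd ℂ) ζ) ^ 2 := by
      unfold Aκ; rw [hκ0]; push_cast; ring
    have e2 : Bκ κ s ζ = -((s - ζ) * (starRingEnd ℂ) ((starRingEnd ℂ) ζ - ζ ^ 2)) / (1 - ζ * (starRingEnd ℂ) ζ) ^ 2 := by
      unfold Bκ; rw [hκ0, map_sub, map_pow, Complex.conj_conj]; push_cast; ring
    rw [e1, e2, norm_div, norm_div, norm_neg, norm_neg, norm_mul, norm_mul, RCLike.norm_conj]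
    have hden : 0 < ‖(1 - ζ * (starRingEnd ℂ) ζ) ^ 2‖ := norm_pos_iff.2 (pow_ne_zero _ (one_sub_nsq_ne hζ1))
    apply div_lt_div_of_pos_right _ hden
    have hnum : 0 < ‖(starRingEnd ℂ) ζ - ζ ^ 2‖ := by
      have := norm_sub_norm_le ((starRingEnd ℂ) ζ) (ζ ^ 2)
      rw [RCLike.norm_conj, norm_pow] at this
      nlinarith
    apply mul_lt_mul_of_pos_right _ hnum
    apply lt_of_pow_lt_pow_left₀ 2 (norm_nonneg _)
    have a1 := nsq_re (s - ζ)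
    have a2 := nsq_re (1 - s * (starRingEnd ℂ) ζ)
    have a3 := nsq_re s
    have a4 := nsq_re ζ
    simp only [sub_re, sub_im, mul_re, mul_im, conj_re, conj_im, one_re, one_im] at a1 a2
    rw [a1, a2]
    have a5 : 0 < (1 - (s.re ^ 2 + s.im ^ 2)) * (1 - (ζ.re ^ 2 + ζ.im ^ 2)) := by
      rw [← a3, ← a4]
      apply mul_pos <;> nlinarith [norm_nonneg s, norm_nonneg ζ]
    nlinarith
  · have hA : ContinuousAt (fun x : ℂ × ℂ => ‖Aκ κ x.1 x.2‖ - ‖Bκ κ x.1 x.2‖) (s₀, 0) :=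
      (cd_A κ h1).continuousAt.norm.sub (cd_B κ h1).continuousAt.norm
    have hd := one_sub_nsq_ne h1
    have hpos : 0 < ‖Aκ κ s₀ 0‖ - ‖Bκ κ s₀ 0‖ := by
      have e1 : Aκ κ s₀ 0 = κ * (starRingEnd ℂ) s₀ / (1 - s₀ * (starRingEnd ℂ) s₀) := by
        unfold Aκ; simp
      have e2 : Bκ κ s₀ 0 = -(κ * s₀ * s₀ / (1 - s₀ * (starRingEnd ℂ) s₀)) := by
        unfold Bκ; simp
      rw [e1, e2, norm_neg, norm_div, norm_div, norm_mul, norm_mul, norm_mul, RCLike.norm_conj, ← sub_div]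
      have hden : 0 < ‖1 - s₀ * (starRingEnd ℂ) s₀‖ := norm_pos_iff.2 hd
      apply div_pos _ hden
      have hk : 0 < ‖(κ : ℂ)‖ := norm_pos_iff.2 (by exact_mod_cast hκ0)
      have : 0 < ‖(κ : ℂ)‖ * ‖s₀‖ := mul_pos hk h0
      nlinarith
    have hev := hA.eventually (lt_mem_nhds hpos)
    rw [Metric.eventually_nhds_iff] at hev
    obtain ⟨ε, hε, h⟩ := hev
    refine ⟨ε, hε, fun s ζ hs hζ0 hζ => ?_⟩
    have := h (y := (s, ζ)) (by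
      rw [Prod.dist_eq, max_lt_iff]
      simp only [dist_eq_norm, sub_zero]
      exact ⟨hs, hζ⟩)
    simp only at this
    linarith

end Pool.Agent.Pon30
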