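import Pool.Agent.Pon30.Center46
import Pool.Agent.Pon30.PairW82
import Pool.Agent.Pon30.StmtsC

/-!
# MP_02df19_gt, C-version, row WSUMC (helper82): the centre is a point of the plane for every triangle
-/

set_option autoImplicit false

namespace Pool.Agent.Pon30.W82

open Complex

variable {f : ℝ → ℝ → ℝ → ℝ}

lemma wsum_shape (hf : IsCenterFunction f) {w₀ w₁ w₂ : ℂ}
    (h : ‖Rc w₀ w₁ w₂‖ < ‖Pc w₀ w₁ w₂‖) (hw : wsum f w₀ w₁ w₂ ≠ 0) :
    wsum f (T0 (Rc w₀ w₁ w₂ / Pc w₀ w₁ w₂)) (T1 (Rc w₀ w₁ w₂ / Pc w₀ w₁ w₂))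
      (T2 (Rc w₀ w₁ w₂ / Pc w₀ w₁ w₂)) ≠ 0 := by
  have hP : Pc w₀ w₁ w₂ ≠ 0 := by
    intro h0
    rw [h0, norm_zero] at h
    exact absurd h (not_lt.2 (norm_nonneg _))
  set G := Gc w₀ w₁ w₂ with hG
  set P := Pc w₀ w₁ w₂ with hPd
  set R := Rc w₀ w₁ w₂ with hR
  have hs : ‖R / P‖ < 1 := by
    rw [norm_div, div_lt_one (norm_pos_iff.2 hP)]
    exact h
  have e0 : w₀ = P * T0 (R / P) + G := by
    have h0 := w0_eq w₀ w₁ w₂
    rw [← hG, ← hPd, ← hR] at h0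
    rw [h0]
    unfold T0
    field_simp
    ring
  have e1 : w₁ = P * T1 (R / P) + G := by
    have h0 := w1_eq w₀ w₁ w₂
    rw [← hG, ← hPd, ← hR] at h0
    rw [h0]
    unfold T1
    field_simp
    ring
  have e2 : w₂ = P * T2 (R / P) + G := by
    have h0 := w2_eq w₀ w₁ w₂
    rw [← hG, ← hPd, ← hR] at h0
    rw [h0]
    unfold T2
    field_simp
    ring
  obtain ⟨u, hu, hws, -⟩ := smul_formulas hf hP (isTriangle_T hs)
  have hw' : wsum f (P * T0 (R / P)) (P * T1 (R / P)) (P * T2 (R / P)) ≠ 0 := by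
    rw [← wsum_add _ _ _ G, ← e0, ← e1, ← e2]
    exact hw
  rw [hws] at hw'
  exact right_ne_zero_of_mul hw'

/-- the pair that turns a triple of the unit circle into a triangle of shape `s` -/
lemma shape_pair {z₀ z₁ z₂ s : ℂ} (hor : ‖Rc z₀ z₁ z₂‖ < ‖Pc z₀ z₁ z₂‖) (hs : ‖s‖ < 1) :
    ∃ q : ℂ, ‖q‖ < 1 ∧ q * ((starRingEnd ℂ) (Pc z₀ z₁ z₂) - s * (starRingEnd ℂ) (Rc z₀ z₁ z₂)) =
      s * Pc z₀ z₁ z₂ - Rc z₀ z₁ z₂ ∧
      (starRingEnd ℂ) (Pc z₀ z₁ z₂) - s * (starRingEnd ℂ) (Rc z₀ z₁ z₂) ≠ 0 := by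
  set P := Pc z₀ z₁ z₂
  set R := Rc z₀ z₁ z₂
  have e : ‖(starRingEnd ℂ) P - s * (starRingEnd ℂ) R‖ ^ 2 - ‖s * P - R‖ ^ 2 =
      (1 - ‖s‖ ^ 2) * (‖P‖ ^ 2 - ‖R‖ ^ 2) := by
    simp only [nsq_re, sub_re, sub_im, mul_re, mul_im, conj_re, conj_im]
    ring
  have h1 : 0 < 1 - ‖s‖ ^ 2 := by nlinarith [norm_nonneg s]
  have h2 : 0 < ‖P‖ ^ 2 - ‖R‖ ^ 2 := by nlinarith [norm_nonneg R, norm_nonneg P]
  have h3 := mul_pos h1 h2
  have h4 : ‖s * P - R‖ < ‖(starRingEnd ℂ) P - s * (starRingEnd ℂ) R‖ := by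
    apply lt_of_pow_lt_pow_left₀ 2 (norm_nonneg _)
    linarith
  have h5 : 0 < ‖(starRingEnd ℂ) P - s * (starRingEnd ℂ) R‖ := lt_of_le_of_lt (norm_nonneg _) h4
  have h6 : (starRingEnd ℂ) P - s * (starRingEnd ℂ) R ≠ 0 := norm_pos_iff.1 h5
  refine ⟨(s * P - R) / ((starRingEnd ℂ) P - s * (starRingEnd ℂ) R), ?_, div_mul_cancel₀ _ h6, h6⟩
  rw [norm_div, div_lt_one h5]
  exact h4

/-- the point `-3/5 + (4/5) i` -/
noncomputable def y : ℂ := ⟨-3 / 5, 4 / 5⟩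

lemma y_norm : ‖y‖ = 1 := by
  have h : ‖y‖ ^ 2 = 1 := by
    rw [nsq_re]
    show (-3 / 5 : ℝ) ^ 2 + (4 / 5) ^ 2 = 1
    norm_num
  have h0 := norm_nonneg y
  nlinarith

lemma y_mul : y * (starRingEnd ℂ) y = 1 := by
  rw [← nsq, y_norm]
  norm_num

lemma y_add : y + (starRingEnd ℂ) y = -6 / 5 := by
  apply Complex.ext
  · simp [y]; norm_num
  · simp [y]

lemma Tz_y : Tz ((1 / 5 : ℝ) : ℂ) 1 y ((starRingEnd ℂ) y) := by
  refine ⟨norm_one, y_norm, by rw [RCLike.norm_conj, y_norm], ?_, ?_⟩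
  · have h := area_eq 1 y ((starRingEnd ℂ) y)
    have e : ((starRingEnd ℂ) (y - 1) * ((starRingEnd ℂ) y - 1)).im = 64 / 25 := by
      simp only [mul_im, map_sub, sub_re, sub_im, conj_re, conj_im, map_one, one_re, one_im]
      show ((-3 / 5 : ℝ) - 1) * (-(4 / 5) - 0) + (-(4 / 5) - 0) * (-3 / 5 - 1) = 64 / 25
      norm_num
    rw [e] at h
    have h3 : (0 : ℝ) < 3 * √3 / 2 := by positivity
    have h4 : 0 < ‖Pc 1 y ((starRingEnd ℂ) y)‖ ^ 2 - ‖Rc 1 y ((starRingEnd ℂ) y)‖ ^ 2 := by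
      by_contra hc
      push Not at hc
      nlinarith
    apply lt_of_pow_lt_pow_left₀ 2 (norm_nonneg _)
    linarith
  · rw [y_mul, one_mul, one_mul, y_add]
    push_cast
    norm_num

lemma Pc_y : (starRingEnd ℂ) (Pc 1 y ((starRingEnd ℂ) y)) = Pc 1 y ((starRingEnd ℂ) y) := by
  unfold Pc
  simp only [map_div₀, map_add, map_mul, map_ofNat, map_one, conj_conj]
  ring

lemma Rc_y : (starRingEnd ℂ) (Rc 1 y ((starRingEnd ℂ) y)) = Rc 1 y ((starRingEnd ℂ) y) := by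
  unfold Rc
  simp only [map_div₀, map_add, map_mul, map_ofNat, map_one, conj_conj]
  ring

lemma key (hf : IsCenterFunction f)
    (hyp : ∀ o α β α' β', PonceletPair o α β α' β' → NonAligned β β' → OnEllipse f o α β α' β')
    {s : ℂ} (hs : ‖s‖ < 1) (him : s.im ≠ 0) : wsum f (T0 s) (T1 s) (T2 s) ≠ 0 := by
  have T := Tz_y
  obtain ⟨q, hq, hqe, hne⟩ := shape_pair T.or hs
  have hP := Pc_y
  have hR := Rc_y
  set P := Pc 1 y ((starRingEnd ℂ) y) with hPd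
  set R := Rc 1 y ((starRingEnd ℂ) y) with hRd
  rw [hP, hR] at hqe hne
  have hPi : P.im = 0 := conj_eq_iff_im.1 hP
  have hRi : R.im = 0 := conj_eq_iff_im.1 hR
  have hq1 : ‖q‖ < ‖(1 : ℂ)‖ := by rw [norm_one]; exact hq
  have hor := T.or
  have hPR : P.re ^ 2 - R.re ^ 2 ≠ 0 := by
    have h1 := nsq_re P
    have h2 := nsq_re R
    rw [hPi] at h1
    rw [hRi] at h2
    have h3 := norm_nonneg P
    have h4 := norm_nonneg R
    nlinarith
  have hqi : q.im ≠ 0 := by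
    have e : (q * (P - s * R) * (starRingEnd ℂ) (P - s * R)).im = ((s * P - R) * (starRingEnd ℂ) (P - s * R)).im := by
      rw [hqe]
    rw [mul_assoc, ← nsq, mul_comm, im_ofReal_mul] at e
    have e2 : ((s * P - R) * (starRingEnd ℂ) (P - s * R)).im = (P.re ^ 2 - R.re ^ 2) * s.im := by
      simp only [mul_im, mul_re, map_sub, map_mul, sub_re, sub_im, conj_re, conj_im, hPi, hRi]
      ring
    rw [e2] at e
    intro h0
    rw [h0, mul_zero] at e
    exact mul_ne_zero hPR him e.symm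
  have hF1 : ‖((1 / 5 : ℝ) : ℂ)‖ < 1 := by
    rw [norm_real]; norm_num
  have hn : ((1 : ℂ) * (starRingEnd ℂ) q * ((1 / 5 : ℝ) : ℂ)).im ≠ 0 := by
    rw [one_mul, mul_comm, im_ofReal_mul, conj_im]
    simpa using hqi
  obtain ⟨α, β, c, -, -, -, hall⟩ := pairW82 f hf hyp 1 q ((1 / 5 : ℝ) : ℂ) hq1 hF1 hn
  have hw := (hall _ _ _ T).1
  have h1 := wsum_shape hf (or_L hq1 T.or) hw
  have hPc : Pc (L 1 q 1) (L 1 q y) (L 1 q ((starRingEnd ℂ) y)) = P + q * R := by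
    rw [Pc_L, ← hPd, ← hRd, hR, one_mul]
  have hRc : Rc (L 1 q 1) (L 1 q y) (L 1 q ((starRingEnd ℂ) y)) = R + q * P := by
    rw [Rc_L, ← hPd, ← hRd, hP, one_mul]
  have hPc0 : P + q * R ≠ 0 := by
    have h2 := or_L hq1 T.or
    rw [hPc] at h2
    exact norm_pos_iff.1 (lt_of_le_of_lt (norm_nonneg _) h2)
  have hsh : Rc (L 1 q 1) (L 1 q y) (L 1 q ((starRingEnd ℂ) y)) /
      Pc (L 1 q 1) (L 1 q y) (L 1 q ((starRingEnd ℂ) y)) = s := by
    rw [hPc, hRc, div_eq_iff hPc0]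
    linear_combination hqe
  rw [hsh] at h1
  exact h1

end Pool.Agent.Pon30.W82

namespace Pool.Agent.Pon30

open Complex

theorem wsumC82 : WsumC := by
  intro f hf hyp s hs
  by_cases him : s.im = 0
  · by_cases hs0 : s = 0
    · rw [hs0]
      exact wsum_zero hf
    · have hre : s.re ≠ 0 := fun h => hs0 (Complex.ext h him)
      have hω : (starRingEnd ℂ) ω ≠ 0 := by
        intro h0
        have := cj_mul_ω
        rw [h0, zero_mul] at this
        exact zero_ne_one this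
      have h1 : ‖ω * s‖ < 1 := by rw [norm_mul, ω_norm, one_mul]; exact hs
      have h2 : (ω * s).im ≠ 0 := by
        rw [mul_im, him, mul_zero, zero_add, ω_im]
        have : (0 : ℝ) < √3 := by positivity
        exact mul_ne_zero (by positivity) hre
      have h3 := W82.key hf hyp h1 h2
      obtain ⟨u, -, hu, -⟩ := smul_formulas hf hω (isTriangle_T hs).cyc
      have a1 := ω_mul_cj
      have a2 := ω_sq
      have a3 := cjω_sq
      have e0 : T0 (ω * s) = (starRingEnd ℂ) ω * T1 s := by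
        unfold T0 T1
        linear_combination -a1 - s * a3
      have e1 : T1 (ω * s) = (starRingEnd ℂ) ω * T2 s := by
        unfold T1 T2
        linear_combination -a3
      have e2 : T2 (ω * s) = (starRingEnd ℂ) ω * T0 s := by
        unfold T2 T0
        linear_combination s * a2
      rw [e0, e1, e2, hu, wsum_cyc] at h3
      exact right_ne_zero_of_mul h3
  · exact W82.key hf hyp hs him

end Pool.Agent.Pon30
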