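import Pool.Agent.Pon30.AllU46
import Pool.Agent.Pon30.StepP46
import Pool.Agent.Pon30.Fam41
import Pool.Agent.Pon30.Loc93
import Pool.Agent.Pon30.IsoQC30
import Pool.Agent.Pon30.AlgW93
import Pool.Agent.Pon30.LimC82
import Pool.Agent.Pon30.RealPosC34
import Pool.Agent.Pon30.Arc41
import Pool.Agent.Pon30.KeyC93
import Pool.Agent.Pon30.ParamP41
import Pool.Agent.Pon30.LamC41
import Pool.Agent.Pon30.AbP37
import Pool.Agent.Pon30.FormP37
import Pool.Agent.Pon30.StrictP30
import Pool.Agent.Pon30.Trans34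
import Pool.Agent.Pon30.WsumC82
import Pool.Agent.Pon30.PairW82
import Pool.Agent.Pon30.FinalC34
import Pool.Agent.Pon30.StrictC37
import Pool.Agent.Pon30.LocP93
import Pool.Agent.Pon30.DropP82
import Pool.Agent.Pon30.JetC34

/-! Theorem U of MP_02df19_gt: all rows put together (helper46). -/

set_option autoImplicit false

namespace Pool.Agent.Pon30

open Complex

theorem coreU : CoreC :=
  coreC46 (realPosC34 (isoC30 limC82 fam41 locStmt93) algW93) arcStmt41 keyPosC93 keyFullC93

theorem globU : GlobP :=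
  globP46 (stepP46 paramP41 locP93 lamC41 abP37 (dropP82 paramP41) formP37 strictP30 gapP30 trans34)

/-- Theorem U: for a centre function which is twice continuously differentiable near `(1, 1, 1)` (arbitrary elsewhere)
the hypothesis on the loci forces a fixed combination of the centroid and the circumcentre. -/
theorem mainU (f : ℝ → ℝ → ℝ → ℝ) (hf : IsCenterFunction f)
    (h2 : ContDiffAt ℝ 2 (fun p : ℝ × ℝ × ℝ => f p.1 p.2.1 p.2.2) (1, 1, 1))
    (hloc : ∀ o α β α' β', PonceletPair o α β α' β' → NonAligned β β' → OnEllipse f o α β α' β') :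
    ∃ κ : ℝ, (∀ A B C : ℂ, IsTriangle A B C → wsum f A B C ≠ 0 ∧
      ∀ O : ℂ, ‖O - A‖ = ‖O - B‖ → ‖O - B‖ = ‖O - C‖ →
        center f A B C = (1 - κ) * ((A + B + C) / 3) + κ * O) ∧
      ((∀ o α β α' β', PonceletPair o α β α' β' → NonAligned β β' → EllipticLocus f o α β α' β') →
        κ = 0 ∨ κ = 1 ∨ κ = -2) :=
  main_of_U jetC34 coreU globU wsumC82 pairW82 finalC34 strictC37 f hf h2 hloc

end Pool.Agent.Pon30
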