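import Pool.Agent.Pon30.Core30
import Pool.Agent.Pon30.LimW93

/-! # MP_02df19_gt, row KEYW -/

set_option autoImplicit false

namespace Pool.Agent.Pon30

open Complex Filter Topology

/-- sizes of the parameters of the pair of the triangle with shape `s` and centre `o` -/
lemma keyW_sizes {s o p q F z₀ z₁ z₂ : ℂ} {t : ℝ} (hz : Tz F z₀ z₁ z₂)
    (hq : ‖q‖ ≤ 1 / 6 * ‖p‖) (hF : ‖F‖ ≤ 1 / 6)
    (e0 : T0 s - o = L p q z₀) (e1 : T1 s - o = L p q z₁) (e2 : T2 s - o = L p q z₂)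
    (hs : ‖s‖ ≤ t) (ho : ‖o‖ ≤ 2 * t) :
    9 / 10 ≤ ‖p‖ ∧ ‖p‖ ≤ 2 ∧ ‖F‖ ≤ 8 * t ∧ ‖q‖ ≤ 20 * t ∧ (o ≠ 0 → F ≠ 0) := by
  obtain ⟨s1, s2, s3⟩ := lim93_size hz (by linarith)
  have hP1 : p * Pc z₀ z₁ z₂ + q * (starRingEnd ℂ) (Rc z₀ z₁ z₂) = 1 := by
    rw [← Pc_L, ← e0, ← e1, ← e2, Pc_sub, Pc_T]
  have hR1 : p * Rc z₀ z₁ z₂ + q * (starRingEnd ℂ) (Pc z₀ z₁ z₂) = s := by
    rw [← Rc_L, ← e0, ← e1, ← e2, Rc_sub, Rc_T]
  have hG1 : L p q (Gc z₀ z₁ z₂) = -o := by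
    rw [← Gc_L, ← e0, ← e1, ← e2, Gc_sub, Gc_T]; ring
  have hG : ‖Gc z₀ z₁ z₂‖ = ‖F‖ / 3 := by
    rw [hz.G_eq, norm_div, norm_mul, norm_neg, hz.lam_norm, RCLike.norm_conj]
    simp
  set P := Pc z₀ z₁ z₂
  set R := Rc z₀ z₁ z₂
  set G := Gc z₀ z₁ z₂
  have hp0 := norm_nonneg p
  have hq0 := norm_nonneg q
  have hR0 := norm_nonneg R
  have hF0 := norm_nonneg F
  have hRs : ‖R‖ ≤ 1 / 8 := by linarith
  have hqR : ‖q‖ * ‖R‖ ≤ 1 / 48 * ‖p‖ := by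
    have : ‖q‖ * ‖R‖ ≤ (1 / 6 * ‖p‖) * (1 / 8) := by gcongr
    linarith
  -- `p`
  have a1 : 1 ≤ ‖p‖ * ‖P‖ + ‖q‖ * ‖R‖ := by
    have h := norm_add_le (p * P) (q * (starRingEnd ℂ) R)
    rw [hP1, norm_mul, norm_mul, RCLike.norm_conj, norm_one] at h
    exact h
  have a2 : ‖p‖ * ‖P‖ - ‖q‖ * ‖R‖ ≤ 1 := by
    have h := norm_sub_norm_le (p * P) (-(q * (starRingEnd ℂ) R))
    rw [norm_neg, sub_neg_eq_add, hP1, norm_mul, norm_mul, RCLike.norm_conj, norm_one] at h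
    exact h
  have hpl : 9 / 10 ≤ ‖p‖ := by
    have : ‖p‖ * ‖P‖ ≤ ‖p‖ * 1 := by gcongr
    linarith
  have hpu : ‖p‖ ≤ 2 := by
    have : ‖p‖ * (2 / 3) ≤ ‖p‖ * ‖P‖ := by gcongr
    linarith
  -- `F`
  have a3 : ‖p‖ * ‖G‖ - ‖q‖ * ‖G‖ ≤ ‖o‖ := by
    have h := norm_sub_norm_le (p * G) (-(q * (starRingEnd ℂ) G))
    have e : p * G - -(q * (starRingEnd ℂ) G) = -o := by rw [← hG1]; unfold L; ring
    rw [e, norm_neg, norm_neg, norm_mul, norm_mul, RCLike.norm_conj] at h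
    exact h
  have hFt : ‖F‖ ≤ 8 * t := by
    rw [hG] at a3
    have : (3 / 4 : ℝ) * (‖F‖ / 3) ≤ (‖p‖ - ‖q‖) * (‖F‖ / 3) := by
      gcongr
      linarith
    linarith
  -- `q`
  have a4 : ‖q‖ * ‖P‖ - ‖p‖ * ‖R‖ ≤ ‖s‖ := by
    have h := norm_sub_norm_le (q * (starRingEnd ℂ) P) (-(p * R))
    have e : q * (starRingEnd ℂ) P - -(p * R) = s := by rw [← hR1]; ring
    rw [e, norm_neg, norm_mul, norm_mul, RCLike.norm_conj] at h
    exact h
  have hqt : ‖q‖ ≤ 20 * t := by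
    have b1 : ‖q‖ * (2 / 3) ≤ ‖q‖ * ‖P‖ := by gcongr
    have b2 : ‖p‖ * ‖R‖ ≤ 2 * (3 / 4 * (8 * t)) := by
      have : ‖R‖ ≤ 3 / 4 * (8 * t) := by linarith
      gcongr
    linarith
  refine ⟨hpl, hpu, hFt, hqt, ?_⟩
  intro ho0 hF'
  apply ho0
  rw [hF', norm_zero, zero_div] at hG
  have : G = 0 := norm_eq_zero.1 hG
  rw [this] at hG1
  have e : L p q 0 = 0 := by unfold L; simp
  rw [e] at hG1
  exact neg_eq_zero.1 hG1.symm

/-- the two axes of the locus of `X_κ` are nearly equal -/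
lemma keyW_diff {κ p q F t : ℝ} (hp1 : 9 / 10 ≤ p) (hp2 : p ≤ 2) (ht : 0 ≤ t)
    (hq : |q| ≤ 20 * t) (hF : |F| ≤ 8 * t) (hqp : |q| ≤ 1 / 6 * p) :
    |(-(1 - κ) * (F / 3) * (p + q) + κ * p * q * (1 - F) / (p + q)) -
      (-(1 - κ) * (F / 3) * (p - q) + κ * p * q * (1 + F) / (p - q))| ≤ 6000 * (1 + |κ|) * t ^ 2 := by
  have hq1 := abs_le.1 hqp
  have n1 : 0 < p + q := by linarith
  have n2 : 0 < p - q := by linarith
  have n3 : 1 / 2 ≤ (p + q) * (p - q) := by nlinarith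
  have n3' : 0 < (p + q) * (p - q) := by linarith
  have e : (-(1 - κ) * (F / 3) * (p + q) + κ * p * q * (1 - F) / (p + q)) -
      (-(1 - κ) * (F / 3) * (p - q) + κ * p * q * (1 + F) / (p - q))
      = -(2 / 3) * (1 - κ) * (F * q) - 2 * κ * p * (q * (q + F * p)) / ((p + q) * (p - q)) := by
    have m1 := n1.ne'
    have m2 := n2.ne'
    field_simp
    ring
  rw [e]
  have hκ0 := abs_nonneg κ
  have b1 : |F * q| ≤ (8 * t) * (20 * t) := by
    rw [abs_mul]; gcongr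
  have b2 : |1 - κ| ≤ 1 + |κ| := by
    have := abs_sub (1 : ℝ) κ
    rwa [abs_one] at this
  have b3 : |-(2 / 3) * (1 - κ) * (F * q)| ≤ 2 / 3 * (1 + |κ|) * ((8 * t) * (20 * t)) := by
    rw [abs_mul, abs_mul, abs_neg, abs_of_pos (by norm_num : (0 : ℝ) < 2 / 3)]
    gcongr
  have b4 : |q + F * p| ≤ 20 * t + 8 * t * 2 := by
    have h1 := abs_add_le q (F * p)
    rw [abs_mul, abs_of_pos (show 0 < p by linarith)] at h1
    have h2 : |F| * p ≤ 8 * t * 2 := by gcongr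
    linarith
  have b5 : |q * (q + F * p)| ≤ (20 * t) * (20 * t + 8 * t * 2) := by
    rw [abs_mul]; gcongr
  have b6 : |2 * κ * p * (q * (q + F * p))| ≤ 2 * |κ| * 2 * ((20 * t) * (20 * t + 8 * t * 2)) := by
    rw [abs_mul, abs_mul, abs_mul, abs_of_pos (by norm_num : (0 : ℝ) < 2), abs_of_pos (show 0 < p by linarith)]
    gcongr
  have b7 : |2 * κ * p * (q * (q + F * p)) / ((p + q) * (p - q))|
      ≤ 2 * (2 * |κ| * 2 * ((20 * t) * (20 * t + 8 * t * 2))) := by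
    rw [abs_div, abs_of_pos n3', div_le_iff₀ n3']
    calc |2 * κ * p * (q * (q + F * p))| ≤ 2 * |κ| * 2 * ((20 * t) * (20 * t + 8 * t * 2)) := b6
      _ = 2 * (2 * |κ| * 2 * ((20 * t) * (20 * t + 8 * t * 2))) * (1 / 2) := by ring
      _ ≤ 2 * (2 * |κ| * 2 * ((20 * t) * (20 * t + 8 * t * 2))) * ((p + q) * (p - q)) := by gcongr
  have b8 := abs_sub (-(2 / 3) * (1 - κ) * (F * q)) (2 * κ * p * (q * (q + F * p)) / ((p + q) * (p - q)))
  have hkt : 0 ≤ |κ| * t ^ 2 := by positivity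
  have ht2 : 0 ≤ t ^ 2 := by positivity
  nlinarith

/-- two points on the same nearly round ellipse -/
lemma keyW_ellipse {u v : ℂ} {a b c x y K t S : ℝ} (hc : 0 ≤ c)
    (habc : 0 < a + b + c) (hx : a * x ^ 2 = c) (hy : b * y ^ 2 = c)
    (hu : a * u.re ^ 2 + b * u.im ^ 2 = c) (hv : a * v.re ^ 2 + b * v.im ^ 2 = c)
    (ht : 0 < t) (hK : 0 ≤ K) (hKt : K * t ^ 2 ≤ t / 12) (hxy : |x - y| ≤ K * t ^ 2)
    (hx4 : t / 4 ≤ |x|) (hy4 : t / 4 ≤ |y|) (huv : ‖u + v‖ ≤ S * t) (hS : 0 ≤ S) :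
    |((starRingEnd ℂ) (u - v) * (u + v)).re| ≤ 12 * S * K * t ^ 2 * ‖u - v‖ := by
  have hx0 : 0 < |x| := by linarith
  have hy0 : 0 < |y| := by linarith
  have hx2 : 0 < x ^ 2 := by rw [← sq_abs]; positivity
  have hy2 : 0 < y ^ 2 := by rw [← sq_abs]; positivity
  have hc0 : 0 < c := by
    rcases hc.lt_or_eq with h | h
    · exact h
    · exfalso
      rw [← h] at hx hy habc
      have ha0 : a = 0 := by
        rcases mul_eq_zero.1 hx with h1 | h1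
        · exact h1
        · exact absurd h1 hx2.ne'
      have hb0 : b = 0 := by
        rcases mul_eq_zero.1 hy with h1 | h1
        · exact h1
        · exact absurd h1 hy2.ne'
      rw [ha0, hb0] at habc
      simp at habc
  -- the relation
  have hrel : y ^ 2 * (u.re ^ 2 - v.re ^ 2) + x ^ 2 * (u.im ^ 2 - v.im ^ 2) = 0 := by
    have h1 : c * (y ^ 2 * (u.re ^ 2 - v.re ^ 2) + x ^ 2 * (u.im ^ 2 - v.im ^ 2)) = 0 := by
      linear_combination x ^ 2 * y ^ 2 * (hu - hv) - y ^ 2 * (u.re ^ 2 - v.re ^ 2) * hx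
        - x ^ 2 * (u.im ^ 2 - v.im ^ 2) * hy
    rcases mul_eq_zero.1 h1 with h | h
    · exact absurd h hc0.ne'
    · exact h
  have eRe : ((starRingEnd ℂ) (u - v) * (u + v)).re = (u.re ^ 2 - v.re ^ 2) + (u.im ^ 2 - v.im ^ 2) := by
    simp only [Complex.mul_re, Complex.conj_re, Complex.conj_im, Complex.sub_re, Complex.sub_im,
      Complex.add_re, Complex.add_im]
    ring
  have e1 : x ^ 2 * ((starRingEnd ℂ) (u - v) * (u + v)).re = (u.re ^ 2 - v.re ^ 2) * ((x - y) * (x + y)) := by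
    rw [eRe]; linear_combination hrel
  have b1 : |u.re ^ 2 - v.re ^ 2| ≤ ‖u - v‖ * (S * t) := by
    have h1 : u.re ^ 2 - v.re ^ 2 = (u - v).re * (u + v).re := by
      simp only [Complex.sub_re, Complex.add_re]; ring
    rw [h1, abs_mul]
    have h2 := Complex.abs_re_le_norm (u - v)
    have h3 := Complex.abs_re_le_norm (u + v)
    have h4 : |(u + v).re| ≤ S * t := h3.trans huv
    gcongr
  have b2 : |x + y| ≤ 3 * |x| := by
    have h1 : x + y = 2 * x - (x - y) := by ring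
    have h2 := abs_sub (2 * x) (x - y)
    rw [← h1, abs_mul, abs_of_pos (by norm_num : (0 : ℝ) < 2)] at h2
    linarith
  have b3 : |(x - y) * (x + y)| ≤ (K * t ^ 2) * (3 * |x|) := by
    rw [abs_mul]; gcongr
  have b4 : x ^ 2 * |((starRingEnd ℂ) (u - v) * (u + v)).re| ≤ (‖u - v‖ * (S * t)) * ((K * t ^ 2) * (3 * |x|)) := by
    have h1 : |x ^ 2 * ((starRingEnd ℂ) (u - v) * (u + v)).re| ≤ (‖u - v‖ * (S * t)) * ((K * t ^ 2) * (3 * |x|)) := by
      rw [e1, abs_mul]; gcongr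
    rwa [abs_mul, abs_of_pos hx2] at h1
  have hn := norm_nonneg (u - v)
  have b5 : |x| * |((starRingEnd ℂ) (u - v) * (u + v)).re| ≤ 3 * (‖u - v‖ * (S * t) * (K * t ^ 2)) := by
    rw [← sq_abs, pow_two, mul_assoc] at b4
    have h1 : |x| * (|x| * |((starRingEnd ℂ) (u - v) * (u + v)).re|)
        ≤ |x| * (3 * (‖u - v‖ * (S * t) * (K * t ^ 2))) := by
      calc _ ≤ _ := b4
        _ = _ := by ring
    exact le_of_mul_le_mul_left h1 hx0
  have b6 : (t / 4) * |((starRingEnd ℂ) (u - v) * (u + v)).re| ≤ 3 * (‖u - v‖ * (S * t) * (K * t ^ 2)) := by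
    refine le_trans ?_ b5
    gcongr
  have b7 : t * |((starRingEnd ℂ) (u - v) * (u + v)).re| ≤ t * (12 * S * K * t ^ 2 * ‖u - v‖) := by
    linarith
  exact le_of_mul_le_mul_left b7 ht

/-- linear bound for the shape function near `0` -/
lemma keyW_lip {h : ℂ → ℂ} (hS : Shape h) : ∃ C > 0, ∃ ε > 0, ∀ s : ℂ, ‖s‖ < ε → ‖h s‖ ≤ C * ‖s‖ := by
  have h0 : h 0 = 0 := by
    obtain ⟨ε, hε, hr⟩ := hS.rot
    have h1 := hr 0 (by simpa using hε)
    rw [mul_zero] at h1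
    have h2 : (1 - (starRingEnd ℂ) ω) * h 0 = 0 := by linear_combination h1
    rcases mul_eq_zero.1 h2 with h3 | h3
    · exfalso
      have h4 := congrArg Complex.re h3
      simp [ω_re] at h4
      norm_num at h4
    · exact h3
  have hd := hS.an.differentiableAt.hasFDerivAt.isBigO_sub
  obtain ⟨C, hC⟩ := hd.bound
  rw [Metric.eventually_nhds_iff] at hC
  obtain ⟨ε, hε, hb⟩ := hC
  refine ⟨|C| + 1, by positivity, ε, hε, fun s hs => ?_⟩
  have h1 := hb (y := s) (by simpa [dist_zero_right] using hs)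
  rw [h0, sub_zero, sub_zero] at h1
  have h2 : C ≤ |C| + 1 := by linarith [le_abs_self C]
  calc ‖h s‖ ≤ C * ‖s‖ := h1
    _ ≤ (|C| + 1) * ‖s‖ := by gcongr

lemma keyW_hκ (κ : ℝ) {s : ℂ} (hs : ‖s‖ ≤ 1 / 4) : ‖hκ κ s‖ ≤ 2 * |κ| * ‖s‖ := by
  unfold hκ
  have hs0 := norm_nonneg s
  have h1 : (15 / 16 : ℝ) ≤ 1 - ‖s‖ ^ 2 := by nlinarith
  have h1' : (0 : ℝ) < 1 - ‖s‖ ^ 2 := by linarith
  rw [norm_div, norm_mul, Complex.norm_real, Complex.norm_real, Real.norm_eq_abs, Real.norm_eq_abs,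
    abs_of_pos h1', div_le_iff₀ h1']
  have h2 : ‖(starRingEnd ℂ) s - s ^ 2‖ ≤ 5 / 4 * ‖s‖ := by
    have := norm_sub_le ((starRingEnd ℂ) s) (s ^ 2)
    rw [RCLike.norm_conj, norm_pow] at this
    nlinarith
  have h3 := abs_nonneg κ
  calc |κ| * ‖(starRingEnd ℂ) s - s ^ 2‖ ≤ |κ| * (5 / 4 * ‖s‖) := by gcongr
    _ ≤ 2 * |κ| * ‖s‖ * (15 / 16) := by nlinarith [mul_nonneg h3 hs0]
    _ ≤ 2 * |κ| * ‖s‖ * (1 - ‖s‖ ^ 2) := by gcongr

theorem keyW93 (hConv : ConvStmt) (hEx : ExStmt) (hReal : RealStmt) (hLim : LimW) (hLoc : LocStmt) :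
    KeyW := by
  intro h hS hH κ hax0
  obtain ⟨δ, hδ, hax⟩ := hax0
  obtain ⟨ρ1, hρ1, hlim⟩ := hLim h hS hH
  obtain ⟨ρ, hρ0, hρa, hρb, hρc⟩ : ∃ ρ : ℝ, 0 < ρ ∧ ρ ≤ ρ1 ∧ ρ ≤ 1 / 6 ∧ 8 / 3 * ρ < δ := by
    refine ⟨min ρ1 (min (1 / 6) (δ / 4)), lt_min hρ1 (lt_min (by norm_num) (by linarith)), min_le_left _ _,
      (min_le_right _ _).trans (min_le_left _ _), ?_⟩
    have : min ρ1 (min (1 / 6) (δ / 4)) ≤ δ / 4 := (min_le_right _ _).trans (min_le_right _ _)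
    linarith
  obtain ⟨ε1, hε1, hex⟩ := hEx ρ hρ0
  obtain ⟨C, hC, ε2, hε2, hlip⟩ := keyW_lip hS
  have hκ0 := abs_nonneg κ
  set K1 : ℝ := 6000 * (1 + |κ|) with hK1
  have hK1pos : 0 < K1 := by positivity
  set t₀ : ℝ := min (min (ε1 / 4) (ε2 / 2)) (min (1 / (12 * K1)) (min (1 / (12 * (C + 2 * |κ| + 1))) (1 / 4)))
    with ht₀
  have ht₀pos : 0 < t₀ := by
    rw [ht₀]
    refine lt_min (lt_min (by positivity) (by positivity)) (lt_min (by positivity) (lt_min (by positivity) (by norm_num)))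
  refine ⟨12 * 5 * K1, by positivity, t₀, ht₀pos, ?_⟩
  intro t s o ht htt hs ho1 ho2 hcub
  have t1 : t < ε1 / 4 := lt_of_lt_of_le htt ((min_le_left _ _).trans (min_le_left _ _))
  have t2 : t < ε2 / 2 := lt_of_lt_of_le htt ((min_le_left _ _).trans (min_le_right _ _))
  have t3 : t < 1 / (12 * K1) := lt_of_lt_of_le htt ((min_le_right _ _).trans (min_le_left _ _))
  have t4 : t < 1 / (12 * (C + 2 * |κ| + 1)) :=
    lt_of_lt_of_le htt ((min_le_right _ _).trans ((min_le_right _ _).trans (min_le_left _ _)))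
  have t5 : t < 1 / 4 :=
    lt_of_lt_of_le htt ((min_le_right _ _).trans ((min_le_right _ _).trans (min_le_right _ _)))
  have hst : ‖s‖ ≤ t := hs.trans (by nlinarith)
  have hs4 : ‖s‖ ≤ 1 / 4 := by linarith
  have hsn := norm_nonneg s
  have hhs : ‖h s‖ ≤ C * ‖s‖ := hlip s (by linarith)
  have hhk : ‖hκ κ s‖ ≤ 2 * |κ| * ‖s‖ := keyW_hκ κ hs4
  have t4' : (C + 2 * |κ| + 1) * t ≤ 1 / 12 := by
    have h1 : (0 : ℝ) < 12 * (C + 2 * |κ| + 1) := by positivity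
    rw [lt_div_iff₀ h1] at t4
    linarith
  have hsum : (C + 2 * |κ|) * ‖s‖ ≤ t / 12 := by
    calc (C + 2 * |κ|) * ‖s‖ ≤ (C + 2 * |κ| + 1) * t ^ 2 := by
          have : (C + 2 * |κ|) * ‖s‖ ≤ (C + 2 * |κ| + 1) * ‖s‖ := by nlinarith
          refine this.trans ?_
          gcongr
      _ = ((C + 2 * |κ| + 1) * t) * t := by ring
      _ ≤ 1 / 12 * t := by gcongr
      _ = t / 12 := by ring
  have hhk' : ‖hκ κ s‖ ≤ t / 12 := by nlinarith
  have hhs' : ‖h s‖ ≤ t / 12 := by nlinarith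
  have hKt : K1 * t ^ 2 ≤ t / 12 := by
    have h1 : (0 : ℝ) < 12 * K1 := by positivity
    rw [lt_div_iff₀ h1] at t3
    nlinarith
  obtain ⟨p, q, F, z₀, z₁, z₂, hpq, hqρ, hF1, hFρ, hz, e0, e1, e2⟩ := hex s o (by linarith) (by linarith)
  have hal := hConv s o p q F z₀ z₁ z₂ (by linarith) hpq hF1 hz e0 e1 e2 hcub
  have hpn := norm_nonneg p
  obtain ⟨z1, z2, z3, z4, z5⟩ := keyW_sizes hz (hqρ.le.trans (by gcongr)) (hFρ.le.trans hρb) e0 e1 e2 hst ho2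
  have ho0 : o ≠ 0 := by
    intro h0
    rw [h0, norm_zero] at ho1
    linarith
  have hF0 := z5 ho0
  obtain ⟨c, p', q', F', y₀, y₁, y₂, hc, hp', hq', hF', hy, g0, g1, g2⟩ := hReal p q F z₀ z₁ z₂ hpq hF0 hal hz
  have hp0 : 0 < p' := by rw [hp']; linarith
  have hqa : |q'| < p' := by rw [hq', hp']; exact hpq
  have hqb : |q'| < ρ * p' := by rw [hq', hp']; exact hqρ
  have hFa : |F'| < 1 := by rw [hF']; exact hF1
  have hFb : |F'| < ρ := by rw [hF']; exact hFρ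
  have hF0' : F' ≠ 0 := by
    intro h0
    rw [h0, abs_zero] at hF'
    exact hF0 (norm_eq_zero.1 hF'.symm)
  have hc0 : c ≠ 0 := by
    intro h0; rw [h0, norm_zero] at hc; exact zero_ne_one hc
  have key : ∀ f : ℂ → ℂ, Xh f (L p' q' y₀) (L p' q' y₁) (L p' q' y₂) = c * (f s - o) := by
    intro f
    rw [← g0, ← g1, ← g2, ← e0, ← e1, ← e2, Xh_smul _ _ _ _ _ hc0, Xh_sub, Xh_T]
  obtain ⟨a, b, c', ha, hb, hc', habc, hq⟩ := hlim p' q' F' hp0
    (lt_of_lt_of_le hqb (mul_le_mul_of_nonneg_right hρa hp0.le)) hF0' (lt_of_lt_of_le hFb hρa)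
  obtain ⟨v1, v2⟩ := real_pair hax hLoc hp0 hqa hFa (by linarith) hρc hqb.le hFb.le
  have hdiff := keyW_diff (κ := κ) (p := p') (q := q') (F := F') (t := t) (by rw [hp']; exact z1)
    (by rw [hp']; exact z2) ht.le (by rw [hq']; exact z4) (by rw [hF']; exact z3)
    (hqb.le.trans (by gcongr))
  have hfin := hLoc p' q' F' κ y₀ y₁ y₂ hqa hFa hy
  set x : ℝ := -(1 - κ) * (F' / 3) * (p' + q') + κ * p' * q' * (1 - F') / (p' + q') with hxdef
  set y : ℝ := -(1 - κ) * (F' / 3) * (p' - q') + κ * p' * q' * (1 + F') / (p' - q') with hydef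
  have r0 := hq y₀ y₁ y₂ hy
  have r1 := hq _ _ _ (tz_first hFa)
  have r2 := hq _ _ _ (tz_second hFa)
  rw [key h] at r0
  rw [v1, ofReal_re, ofReal_im] at r1
  rw [v2, re_ofReal_mul, im_ofReal_mul, I_re, I_im] at r2
  have hx : a * x ^ 2 = c' := by linarith
  have hy' : b * y ^ 2 = c' := by linarith
  have hlam := hy.lam_norm
  rw [key] at hfin
  set lam := y₀ * y₁ * y₂ with hlamdef
  have hlam2 : lam.re ^ 2 + lam.im ^ 2 = 1 := by
    have := nsq_re lam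
    rw [hlam] at this
    linarith
  have vre : (c * (hκ κ s - o)).re = lam.re * x := by
    rw [hfin]; simp
  have vim : (c * (hκ κ s - o)).im = lam.im * y := by
    rw [hfin]; simp
  have r3 : a * (c * (hκ κ s - o)).re ^ 2 + b * (c * (hκ κ s - o)).im ^ 2 = c' := by
    rw [vre, vim]
    linear_combination lam.re ^ 2 * hx + lam.im ^ 2 * hy' + c' * hlam2
  -- size of the axes
  have hvn : t / 3 ≤ ‖c * (hκ κ s - o)‖ := by
    rw [norm_mul, hc, one_mul]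
    have := norm_sub_norm_le o (hκ κ s)
    rw [norm_sub_rev] at this
    linarith
  have hvn2 : (t / 3) ^ 2 ≤ lam.re ^ 2 * x ^ 2 + lam.im ^ 2 * y ^ 2 := by
    have h1 := nsq_re (c * (hκ κ s - o))
    rw [vre, vim] at h1
    have h2 : (t / 3) ^ 2 ≤ ‖c * (hκ κ s - o)‖ ^ 2 := by gcongr
    have h3 : (lam.re * x) ^ 2 + (lam.im * y) ^ 2 = lam.re ^ 2 * x ^ 2 + lam.im ^ 2 * y ^ 2 := by ring
    linarith
  have hxy : t / 3 ≤ |x| ∨ t / 3 ≤ |y| := by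
    by_contra hcon
    push Not at hcon
    obtain ⟨h1, h2⟩ := hcon
    have h3 : x ^ 2 < (t / 3) ^ 2 := by rw [← sq_abs]; gcongr
    have h4 : y ^ 2 < (t / 3) ^ 2 := by rw [← sq_abs]; gcongr
    have h5 := sq_nonneg lam.re
    have h6 := sq_nonneg lam.im
    have h7 : lam.re ^ 2 * x ^ 2 ≤ lam.re ^ 2 * max (x ^ 2) (y ^ 2) := by
      gcongr; exact le_max_left _ _
    have h8 : lam.im ^ 2 * y ^ 2 ≤ lam.im ^ 2 * max (x ^ 2) (y ^ 2) := by
      gcongr; exact le_max_right _ _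
    have h9 : lam.re ^ 2 * max (x ^ 2) (y ^ 2) + lam.im ^ 2 * max (x ^ 2) (y ^ 2) = max (x ^ 2) (y ^ 2) := by
      rw [← add_mul, hlam2, one_mul]
    have h10 : max (x ^ 2) (y ^ 2) < (t / 3) ^ 2 := max_lt h3 h4
    linarith
  have hd12 : |x - y| ≤ t / 12 := hdiff.trans hKt
  have hxy4 : t / 4 ≤ |x| ∧ t / 4 ≤ |y| := by
    have h1 := abs_sub_abs_le_abs_sub x y
    have h2 := abs_sub_abs_le_abs_sub y x
    rw [abs_sub_comm y x] at h2
    rcases hxy with h3 | h3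
    · constructor <;> linarith
    · constructor <;> linarith
  have huv : ‖c * (h s - o) + c * (hκ κ s - o)‖ ≤ 5 * t := by
    have e : c * (h s - o) + c * (hκ κ s - o) = c * ((h s + hκ κ s) - 2 * o) := by ring
    rw [e, norm_mul, hc, one_mul]
    have h1 := norm_sub_le (h s + hκ κ s) (2 * o)
    have h2 := norm_add_le (h s) (hκ κ s)
    rw [norm_mul] at h1
    have h3 : ‖(2 : ℂ)‖ = 2 := by norm_num
    rw [h3] at h1
    linarith
  have hmain := keyW_ellipse (u := c * (h s - o)) (v := c * (hκ κ s - o)) hc' habc hx hy' r0 r3 ht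
    hK1pos.le hKt hdiff hxy4.1 hxy4.2 huv (by norm_num)
  have hcc : c * (starRingEnd ℂ) c = 1 := by rw [← nsq, hc]; norm_num
  have e3 : (starRingEnd ℂ) (c * (h s - o) - c * (hκ κ s - o)) * (c * (h s - o) + c * (hκ κ s - o))
      = (starRingEnd ℂ) (h s - hκ κ s) * (h s + hκ κ s - 2 * o) := by
    have e4 : c * (h s - o) - c * (hκ κ s - o) = c * (h s - hκ κ s) := by ring
    rw [e4, map_mul]
    linear_combination ((starRingEnd ℂ) (h s - hκ κ s) * (h s + hκ κ s - 2 * o)) * hcc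
  have e5 : ‖c * (h s - o) - c * (hκ κ s - o)‖ = ‖h s - hκ κ s‖ := by
    have e4 : c * (h s - o) - c * (hκ κ s - o) = c * (h s - hκ κ s) := by ring
    rw [e4, norm_mul, hc, one_mul]
  rw [e3, e5] at hmain
  exact hmain

end Pool.Agent.Pon30
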