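import Pool.Agent.Pon30.RealAxis34
import Pool.Agent.Pon30.StmtsW

/-!
# Row REALAXISW: the shape function on the real axis near the equilateral shape, weak hypothesis
-/

namespace Pool.Agent.Pon30

open Complex Filter Topology

theorem realAxisW34 (hJet : JetStmt) (hIso : IsoW) (hAlg : AlgW) : RealAxisW := by
  intro h hS hH
  obtain ⟨κ, η, C, ε, hε, hj⟩ := hJet h hS
  obtain ⟨ρ, hρ, hiso⟩ := hIso h hS hH κ η C ε hε hj
  obtain ⟨ε₁, hε₁, hconj⟩ := hS.conj
  have hreal : ∀ x : ℝ, |x| < ε₁ → (h x).im = 0 := by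
    intro x hx
    have := hconj x (by rw [norm_real, Real.norm_eq_abs]; exact hx)
    rw [conj_ofReal] at this
    exact Complex.conj_eq_iff_im.1 this.symm
  have hreal' : ∀ x : ℝ, |x| < ε₁ → h x = ((h x).re : ℝ) := by
    intro x hx
    apply Complex.ext
    · simp
    · simp [hreal x hx]
  set φ : ℝ → ℝ := fun x => (h x).re * (1 + x) / x with hφ
  set ψ : ℝ → ℝ := fun E => φ (xE34 E) with hψ
  -- the limit of `ψ`
  have hφlim : Tendsto φ (𝓝[>] 0) (𝓝 κ) := by
    have hb : ∀ᶠ x : ℝ in 𝓝[>] 0, |(h x).re / x - (κ + η * x)| ≤ |C| * x ^ 2 := by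
      have hm := Ioo_mem_nhdsGT hε
      filter_upwards [hm] with x hx
      have h1 := hj x (by rw [norm_real, Real.norm_eq_abs, abs_of_pos hx.1]; exact hx.2)
      have h2 : |(h x - (κ * (starRingEnd ℂ) x + η * (x : ℂ) ^ 2)).re| ≤ C * ‖(x : ℂ)‖ ^ 3 :=
        (Complex.abs_re_le_norm _).trans h1
      rw [norm_real, Real.norm_eq_abs, abs_of_pos hx.1] at h2
      have h3 : (h x - (κ * (starRingEnd ℂ) x + η * (x : ℂ) ^ 2)).re = (h x).re - (κ * x + η * x ^ 2) := by
        rw [conj_ofReal]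
        have : (κ * (x : ℂ) + η * (x : ℂ) ^ 2) = ((κ * x + η * x ^ 2 : ℝ) : ℂ) := by push_cast; ring
        rw [this, sub_re, ofReal_re]
      rw [h3] at h2
      have h4 : (h x).re / x - (κ + η * x) = ((h x).re - (κ * x + η * x ^ 2)) / x := by
        have := hx.1.ne'
        field_simp
      rw [h4, abs_div, abs_of_pos hx.1, div_le_iff₀ hx.1]
      calc |(h x).re - (κ * x + η * x ^ 2)| ≤ C * x ^ 3 := h2
        _ ≤ |C| * x ^ 3 := by
            apply mul_le_mul_of_nonneg_right (le_abs_self _)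
            have := hx.1
            positivity
        _ = |C| * x ^ 2 * x := by ring
    have hz : Tendsto (fun x : ℝ => (h x).re / x - (κ + η * x)) (𝓝[>] 0) (𝓝 0) := by
      apply squeeze_zero_norm' (a := fun x : ℝ => |C| * x ^ 2)
      · filter_upwards [hb] with x hx
        rw [Real.norm_eq_abs]; exact hx
      · have : Continuous (fun x : ℝ => |C| * x ^ 2) := by fun_prop
        have := this.tendsto 0
        simp only [ne_eq, OfNat.ofNat_ne_zero, not_false_eq_true, zero_pow, mul_zero] at this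
        exact this.mono_left nhdsWithin_le_nhds
    have hl : Tendsto (fun x : ℝ => κ + η * x) (𝓝[>] 0) (𝓝 κ) := by
      have : Continuous (fun x : ℝ => κ + η * x) := by fun_prop
      have := this.tendsto 0
      simp only [mul_zero, add_zero] at this
      exact this.mono_left nhdsWithin_le_nhds
    have h1x : Tendsto (fun x : ℝ => 1 + x) (𝓝[>] 0) (𝓝 1) := by
      have : Continuous (fun x : ℝ => 1 + x) := by fun_prop
      have := this.tendsto 0
      simp only [add_zero] at this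
      exact this.mono_left nhdsWithin_le_nhds
    have hs := (hz.add hl).mul h1x
    rw [zero_add, mul_one] at hs
    refine hs.congr ?_
    intro x
    rw [hφ]
    ring
  have hψlim : Tendsto ψ (𝓝[>] 0) (𝓝 κ) := hφlim.comp xE_tendsto34
  -- the relation
  have hxsmall : ∃ E₂ > 0, ∀ E : ℝ, 0 < E → E < E₂ → xE34 E < ε₁ := by
    have h1 : ∀ᶠ E in 𝓝[>] (0 : ℝ), xE34 E < ε₁ := by
      have h2 := xE_tendsto34.eventually (Ioo_mem_nhdsGT hε₁)
      filter_upwards [h2] with E hE
      exact hE.2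
    rw [eventually_nhdsWithin_iff, Metric.eventually_nhds_iff] at h1
    obtain ⟨E₂, hE₂, h1⟩ := h1
    refine ⟨E₂, hE₂, fun E h0 hE => h1 ?_ h0⟩
    rw [Real.dist_eq, sub_zero, abs_of_pos h0]
    exact hE
  obtain ⟨E₂, hE₂, hx₂⟩ := hxsmall
  have hR : ∃ E₀ > 0, ∀ E o : ℝ, 0 < E → E < E₀ → o ^ 2 + 2 * E * o - E = 0 →
      (1 + 2 * o * ψ E) ^ 2 * (1 - 4 * o - 8 * (η + κ) * o ^ 3) = (1 - 4 * o) * (1 + 2 * κ * o) ^ 2 := by
    refine ⟨min (min (ρ ^ 2 / (1 + 2 * ρ)) (1 / 8)) E₂, lt_min (lt_min (by positivity) (by norm_num)) hE₂, ?_⟩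
    intro E o hE0 hE1 ho
    have hEρ : E < ρ ^ 2 / (1 + 2 * ρ) :=
      lt_of_lt_of_le hE1 ((min_le_left _ _).trans (min_le_left _ _))
    have hE8 : E < 1 / 8 := lt_of_lt_of_le hE1 ((min_le_left _ _).trans (min_le_right _ _))
    have hEE : E < E₂ := lt_of_lt_of_le hE1 (min_le_right _ _)
    have ho0 : o ≠ 0 := by
      intro h0
      rw [h0] at ho
      have : E = 0 := by linarith
      linarith
    have hoρ : |o| < ρ := by
      by_contra hc
      rw [not_lt] at hc
      rw [lt_div_iff₀ (by positivity)] at hEρ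
      have h1 : |o| ^ 2 ≤ E * (1 + 2 * |o|) := by
        rw [sq_abs]
        have := neg_abs_le o
        nlinarith
      nlinarith [mul_nonneg (sub_nonneg.2 hc) hρ.le, mul_nonneg (sub_nonneg.2 hc) hE0.le,
        mul_pos hE0 hρ, sq_nonneg (|o| - ρ)]
    obtain ⟨x0, x1, xr⟩ := xE_pos34 hE0 hE8
    have h2o : (1 - 2 * o) ≠ 0 := by
      intro h0
      have h1 : o ^ 2 = 0 := by
        have : o ^ 2 = E * (1 - 2 * o) := by linarith
        rw [this, h0, mul_zero]
      exact ho0 (pow_eq_zero_iff (two_ne_zero)|>.1 h1)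
    apply hiso o (xE34 E) (ψ E) ho0 hoρ x0 x1
    · rw [xr, eq_div_iff h2o]
      linear_combination 8 * ho
    · have hx := hreal' (xE34 E) (by rw [abs_of_pos x0]; exact hx₂ E hE0 hEE)
      rw [hx]
      congr 1
      simp only [hψ, hφ]
      have := x0.ne'
      have h3 : (1 + xE34 E) ≠ 0 := by linarith
      field_simp
  obtain ⟨-, E₁, hE₁, hψE⟩ := hAlg κ (η + κ) ψ hψlim hR
  refine ⟨κ, ?_⟩
  · -- positive `x`
    have hpos : ∀ x : ℝ, 0 < x → x < min (min 1 (2 * E₁)) ε₁ → h x - (κ * x / (1 + x) : ℝ) = 0 := by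
      intro x hx0 hx
      have hx1 : x < 1 := lt_of_lt_of_le hx ((min_le_left _ _).trans (min_le_left _ _))
      have hx2 : x < 2 * E₁ := lt_of_lt_of_le hx ((min_le_left _ _).trans (min_le_right _ _))
      have hx3 : x < ε₁ := lt_of_lt_of_le hx (min_le_right _ _)
      have hE0 : 0 < x / (2 * (1 + x) ^ 2) := by positivity
      have hE1 : x / (2 * (1 + x) ^ 2) < E₁ := by
        rw [div_lt_iff₀ (by positivity)]
        have h1 : 1 < (1 + x) ^ 2 := by nlinarith
        nlinarith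
      have h1 := hψE _ hE0 hE1
      simp only [hψ, hφ] at h1
      rw [xE_inv34 hx0 hx1] at h1
      rw [hreal' x (by rw [abs_of_pos hx0]; exact hx3)]
      rw [div_eq_iff hx0.ne'] at h1
      have h2 : (h x).re = κ * x / (1 + x) := by
        rw [eq_div_iff (by linarith)]
        exact h1
      rw [h2, sub_self]
    -- identity theorem on the real line
    have han : AnalyticAt ℝ (fun x : ℝ => h x - (κ * x / (1 + x) : ℝ)) 0 := by
      have h1 : AnalyticAt ℝ (fun x : ℝ => h (x : ℂ)) 0 := by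
        apply AnalyticAt.comp_of_eq hS.an (Complex.ofRealCLM.analyticAt 0)
        simp
      have h2 : AnalyticAt ℝ (fun x : ℝ => κ * x / (1 + x)) 0 := by
        apply AnalyticAt.div
        · fun_prop
        · fun_prop
        · simp
      exact h1.sub ((Complex.ofRealCLM.analyticAt _).comp h2)
    have hfr : ∃ᶠ x : ℝ in 𝓝[≠] 0, h x - (κ * x / (1 + x) : ℝ) = 0 := by
      have hev : ∀ᶠ x : ℝ in 𝓝[>] 0, h x - (κ * x / (1 + x) : ℝ) = 0 := by
        have hm := Ioo_mem_nhdsGT (lt_min (lt_min one_pos (by positivity : 0 < 2 * E₁)) hε₁)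
        filter_upwards [hm] with x hx
        exact hpos x hx.1 hx.2
      have hle : (𝓝[>] (0 : ℝ)) ≤ 𝓝[≠] 0 :=
        nhdsWithin_mono 0 (fun x hx => (ne_of_gt hx : x ≠ 0))
      exact hev.frequently.filter_mono hle
    have hall := (han.frequently_zero_iff_eventually_zero).1 hfr
    rw [Metric.eventually_nhds_iff] at hall
    obtain ⟨δ, hδ, hall⟩ := hall
    refine ⟨min δ 1, lt_min hδ one_pos, ?_⟩
    intro x hx
    have hxδ : |x| < δ := lt_of_lt_of_le hx (min_le_left _ _)
    have hx1 : |x| < 1 := lt_of_lt_of_le hx (min_le_right _ _)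
    have h1 := hall (y := x) (by rw [Real.dist_eq, sub_zero]; exact hxδ)
    rw [sub_eq_zero] at h1
    rw [h1]
    unfold hκ
    rw [conj_ofReal, norm_real, Real.norm_eq_abs, sq_abs]
    obtain ⟨hxa, hxb⟩ := abs_lt.1 hx1
    have h2 : (1 + x) ≠ 0 := by linarith
    have h3 : (1 - x ^ 2) ≠ 0 := by nlinarith
    have h4 : κ * x / (1 + x) = κ * (x - x ^ 2) / (1 - x ^ 2) := by
      rw [div_eq_div_iff h2 h3]; ring
    rw [h4]
    push_cast
    ring

end Pool.Agent.Pon30
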