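import Pool.Agent.Pon30.All37
import Pool.Agent.Pon30.KeyW93
import Pool.Agent.Pon30.Conv37
import Pool.Agent.Pon30.CoreW46
import Pool.Agent.Pon30.Arc41
import Pool.Agent.Pon30.IsoW34
import Pool.Agent.Pon30.RealAxisW34
import Pool.Agent.Pon30.AlgW93
import Pool.Agent.Pon30.LimW93
import Pool.Agent.Pon30.PairW82
import Pool.Agent.Pon30.AsmW30

/-!
# The core theorem of MP_02df19_gt for the weak hypothesis, all rows together
-/

namespace Pool.Agent.Pon30

theorem coreStmtW : CoreW :=
  coreW46 (realAxisW34 jet34 (isoW34 limW93 fam41 locStmt93) algW93) arcStmt41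
    (keyW93 Cv37.conv37' E37.ex37 realStmt limW93 locStmt93)

end Pool.Agent.Pon30
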