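import Pool.Agent.Pon30.Basic

/-!
# MP_02df19_gt, stage 3: small pairs that contain an equilateral triangle satisfy the criterion of row (A)
-/

set_option autoImplicit false

namespace Pool.Agent.Pon30

open Complex

/-- small pairs through the equilateral shape: `q = -ζ`, `F = 3 (ζ - ζ̄²) / (1 - ζ̄³)` -/
theorem good92 (ζ F : ℂ) (h0 : ζ ≠ 0) (h : ‖ζ‖ ≤ 1 / 8)
    (hF : F = 3 * (ζ - (starRingEnd ℂ) ζ ^ 2) / (1 - (starRingEnd ℂ) ζ ^ 3)) :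
    F ≠ 0 ∧ ‖F‖ < 1 ∧ ‖F + 3 * (-ζ) + (‖-ζ‖ ^ 2 : ℝ) * F + (starRingEnd ℂ) (-ζ) * F ^ 2‖ < 2 * ‖-ζ‖ * ‖F‖ := by
  set t : ℝ := ‖ζ‖ with ht
  have t0 : 0 < t := norm_pos_iff.2 h0
  have hcz : ‖(starRingEnd ℂ) ζ‖ = t := by rw [Complex.norm_conj]
  set D : ℂ := 1 - (starRingEnd ℂ) ζ ^ 3 with hD
  have hDl : 1 - t ^ 3 ≤ ‖D‖ := by
    have := norm_sub_norm_le (1 : ℂ) ((starRingEnd ℂ) ζ ^ 3)
    rw [norm_one, norm_pow, hcz] at this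
    exact this
  have hDu : ‖D‖ ≤ 1 + t ^ 3 := by
    have := norm_sub_le (1 : ℂ) ((starRingEnd ℂ) ζ ^ 3)
    rw [norm_one, norm_pow, hcz] at this
    exact this
  have ht3 : t ^ 3 ≤ 1 / 512 := by
    have : t ^ 3 ≤ (1 / 8) ^ 3 := pow_le_pow_left₀ t0.le h 3
    linarith [this, show ((1 : ℝ) / 8) ^ 3 = 1 / 512 by norm_num]
  have hD0 : D ≠ 0 := by
    intro hd
    rw [hd, norm_zero] at hDl
    linarith
  have hDp : 0 < ‖D‖ := norm_pos_iff.2 hD0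
  have hE : F * D = 3 * (ζ - (starRingEnd ℂ) ζ ^ 2) := by
    rw [hF]
    field_simp
  have hel : t - t ^ 2 ≤ ‖ζ - (starRingEnd ℂ) ζ ^ 2‖ := by
    have := norm_sub_norm_le ζ ((starRingEnd ℂ) ζ ^ 2)
    rw [norm_pow, hcz] at this
    exact this
  have heu : ‖ζ - (starRingEnd ℂ) ζ ^ 2‖ ≤ t + t ^ 2 := by
    have := norm_sub_le ζ ((starRingEnd ℂ) ζ ^ 2)
    rw [norm_pow, hcz] at this
    exact this
  have hFD : ‖F‖ * ‖D‖ = 3 * ‖ζ - (starRingEnd ℂ) ζ ^ 2‖ := by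
    rw [← norm_mul, hE, norm_mul]
    norm_num
  have hFl : 3 * (t - t ^ 2) ≤ ‖F‖ * ‖D‖ := by rw [hFD]; linarith
  have hpos : 0 < t - t ^ 2 := by nlinarith
  have hF0 : F ≠ 0 := by
    rintro rfl
    rw [norm_zero, zero_mul] at hFl
    linarith
  refine ⟨hF0, ?_, ?_⟩
  · by_contra hc
    have hc' : 1 ≤ ‖F‖ := not_lt.1 hc
    have h1 : ‖D‖ ≤ ‖F‖ * ‖D‖ := by nlinarith
    rw [hFD] at h1
    nlinarith
  · -- multiply by the square of `D`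
    have hDD : D = 1 - (starRingEnd ℂ) ζ ^ 3 := rfl
    have hz : ((t ^ 2 : ℝ) : ℂ) = ζ * (starRingEnd ℂ) ζ := nsq ζ
    have key : (F + 3 * (-ζ) + (‖-ζ‖ ^ 2 : ℝ) * F + (starRingEnd ℂ) (-ζ) * F ^ 2) * D ^ 2 =
        -(3 * (starRingEnd ℂ) ζ ^ 2 * D) + 3 * ζ * (starRingEnd ℂ) ζ ^ 3 * D +
          3 * ζ * (starRingEnd ℂ) ζ * (ζ - (starRingEnd ℂ) ζ ^ 2) * D -
          9 * (starRingEnd ℂ) ζ * (ζ - (starRingEnd ℂ) ζ ^ 2) ^ 2 := by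
      rw [norm_neg, ← ht, hz, map_neg]
      have e1 : F ^ 2 * D ^ 2 = 9 * (ζ - (starRingEnd ℂ) ζ ^ 2) ^ 2 := by
        linear_combination (F * D + 3 * (ζ - (starRingEnd ℂ) ζ ^ 2)) * hE
      linear_combination (D + ζ * (starRingEnd ℂ) ζ * D) * hE - (starRingEnd ℂ) ζ * e1 - 3 * ζ * D * hDD
    have n1 : ‖-(3 * (starRingEnd ℂ) ζ ^ 2 * D)‖ = 3 * t ^ 2 * ‖D‖ := by
      rw [norm_neg, norm_mul, norm_mul, norm_pow, hcz]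
      norm_num
    have n2 : ‖3 * ζ * (starRingEnd ℂ) ζ ^ 3 * D‖ = 3 * t ^ 4 * ‖D‖ := by
      have e3 : ‖(3 : ℂ)‖ = 3 := by norm_num
      rw [norm_mul, norm_mul, norm_mul, norm_pow, hcz, ← ht, e3]
      ring
    have n3 : ‖3 * ζ * (starRingEnd ℂ) ζ * (ζ - (starRingEnd ℂ) ζ ^ 2) * D‖ ≤ 3 * t ^ 2 * (t + t ^ 2) * ‖D‖ := by
      rw [norm_mul, norm_mul, norm_mul, norm_mul, hcz, ← ht]
      norm_num
      have : 3 * t * t * ‖ζ - (starRingEnd ℂ) ζ ^ 2‖ ≤ 3 * t ^ 2 * (t + t ^ 2) := by nlinarith [sq_nonneg t]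
      exact mul_le_mul_of_nonneg_right this hDp.le
    have n4 : ‖9 * (starRingEnd ℂ) ζ * (ζ - (starRingEnd ℂ) ζ ^ 2) ^ 2‖ ≤ 9 * t * (t + t ^ 2) ^ 2 := by
      rw [norm_mul, norm_mul, norm_pow, hcz]
      norm_num
      have : ‖ζ - (starRingEnd ℂ) ζ ^ 2‖ ^ 2 ≤ (t + t ^ 2) ^ 2 := pow_le_pow_left₀ (norm_nonneg _) heu 2
      exact mul_le_mul_of_nonneg_left this (by positivity)
    have hle : ‖F + 3 * (-ζ) + (‖-ζ‖ ^ 2 : ℝ) * F + (starRingEnd ℂ) (-ζ) * F ^ 2‖ * ‖D‖ ^ 2 ≤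
        3 * t ^ 2 * ‖D‖ + 3 * t ^ 4 * ‖D‖ + 3 * t ^ 2 * (t + t ^ 2) * ‖D‖ + 9 * t * (t + t ^ 2) ^ 2 := by
      rw [← norm_pow D 2, ← norm_mul, key]
      refine (norm_sub_le _ _).trans ?_
      refine add_le_add ((norm_add_le _ _).trans (add_le_add ((norm_add_le _ _).trans ?_) n3)) n4
      rw [n1, n2]
    have hfin : 3 * t ^ 2 * ‖D‖ + 3 * t ^ 4 * ‖D‖ + 3 * t ^ 2 * (t + t ^ 2) * ‖D‖ + 9 * t * (t + t ^ 2) ^ 2 <
        2 * t * (3 * (t - t ^ 2)) * ‖D‖ := by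
      have d1 : 511 / 512 ≤ ‖D‖ := by linarith
      have a1 : 3 * t ^ 2 * ‖D‖ + 3 * t ^ 4 * ‖D‖ + 3 * t ^ 2 * (t + t ^ 2) * ‖D‖ + 9 * t * (t + t ^ 2) ^ 2 -
          2 * t * (3 * (t - t ^ 2)) * ‖D‖ =
          t ^ 2 * (‖D‖ * (9 * t + 6 * t ^ 2 - 3) + 9 * t * (1 + t) ^ 2) := by ring
      have a2 : ‖D‖ * (9 * t + 6 * t ^ 2 - 3) ≤ 511 / 512 * (9 * t + 6 * t ^ 2 - 3) := by
        have : 9 * t + 6 * t ^ 2 - 3 ≤ 0 := by nlinarith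
        nlinarith
      have a3 : 511 / 512 * (9 * t + 6 * t ^ 2 - 3) + 9 * t * (1 + t) ^ 2 < 0 := by
        nlinarith [sq_nonneg t, mul_pos t0 t0]
      have a4 : t ^ 2 * (‖D‖ * (9 * t + 6 * t ^ 2 - 3) + 9 * t * (1 + t) ^ 2) < 0 :=
        mul_neg_of_pos_of_neg (by positivity) (by linarith)
      linarith
    have hlow : 2 * t * (3 * (t - t ^ 2)) * ‖D‖ ≤ 2 * ‖-ζ‖ * ‖F‖ * ‖D‖ ^ 2 := by
      rw [norm_neg, ← ht]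
      have := mul_le_mul_of_nonneg_left hFl (show 0 ≤ 2 * t * ‖D‖ by positivity)
      nlinarith
    have hall := lt_of_le_of_lt hle (lt_of_lt_of_le hfin hlow)
    exact lt_of_mul_lt_mul_right hall (by positivity)

end Pool.Agent.Pon30
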