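import Pool.Agent.Pon30.Defs

/-!
# MP_02df19_gt: three members of a concentric pair determine the pair, the dual statement
-/

set_option autoImplicit false

namespace Pool.Agent.Pon30.Du37

open Complex

/-- the equation of one angle, with the conjugate quantities as independent variables -/
def eqt (z₀ z₁ z₂ y₀ y₁ y₂ q q' n n' s s' : ℂ) : ℂ :=
  n * ((z₁ + q * y₁) - (z₂ + q * y₂)) * (z₀ - q * y₀) - n' * ((y₁ + q' * z₁) - (y₂ + q' * z₂)) * (y₀ - q' * z₀) -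
    (s * z₀ * (z₁ + z₂) - s' * y₀ * (y₁ + y₂))

theorem sum_one (z₀ z₁ z₂ q q' n n' s s' : ℂ) (h₀ : z₀ ≠ 0) (h₁ : z₁ ≠ 0) (h₂ : z₂ ≠ 0) :
    eqt z₀ z₁ z₂ z₀⁻¹ z₁⁻¹ z₂⁻¹ q q' n n' s s' + eqt z₁ z₂ z₀ z₁⁻¹ z₂⁻¹ z₀⁻¹ q q' n n' s s' +
      eqt z₂ z₀ z₁ z₂⁻¹ z₀⁻¹ z₁⁻¹ q q' n n' s s' =
    -2 * (n * (z₀⁻¹ * (z₁ - z₂) + z₁⁻¹ * (z₂ - z₀) + z₂⁻¹ * (z₀ - z₁)) * q -
      n' * (z₀ * (z₁⁻¹ - z₂⁻¹) + z₁ * (z₂⁻¹ - z₀⁻¹) + z₂ * (z₀⁻¹ - z₁⁻¹)) * q') +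
    2 * (s * (-(z₀ * z₁ + z₀ * z₂ + z₁ * z₂)) - s' * (-(z₀⁻¹ * z₁⁻¹ + z₀⁻¹ * z₂⁻¹ + z₁⁻¹ * z₂⁻¹))) := by
  unfold eqt
  field_simp
  ring

theorem sum_two (z₀ z₁ z₂ q q' n n' s s' : ℂ) (h₀ : z₀ ≠ 0) (h₁ : z₁ ≠ 0) (h₂ : z₂ ≠ 0) :
    z₀ * eqt z₀ z₁ z₂ z₀⁻¹ z₁⁻¹ z₂⁻¹ q q' n n' s s' + z₁ * eqt z₁ z₂ z₀ z₁⁻¹ z₂⁻¹ z₀⁻¹ q q' n n' s s' +
      z₂ * eqt z₂ z₀ z₁ z₂⁻¹ z₀⁻¹ z₁⁻¹ q q' n n' s s' =
    (z₀ * z₁ * z₂) * (n * (z₀⁻¹ * (z₁ - z₂) + z₁⁻¹ * (z₂ - z₀) + z₂⁻¹ * (z₀ - z₁)) *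
        (1 + q * (-(z₀⁻¹ * z₁⁻¹ + z₀⁻¹ * z₂⁻¹ + z₁⁻¹ * z₂⁻¹))) -
      n' * (z₀ * (z₁⁻¹ - z₂⁻¹) + z₁ * (z₂⁻¹ - z₀⁻¹) + z₂ * (z₀⁻¹ - z₁⁻¹)) *
        (q' ^ 2 + q' * (-(z₀⁻¹ * z₁⁻¹ + z₀⁻¹ * z₂⁻¹ + z₁⁻¹ * z₂⁻¹))) +
      s * (3 - (z₀ * z₁ + z₀ * z₂ + z₁ * z₂) * (z₀⁻¹ * z₁⁻¹ + z₀⁻¹ * z₂⁻¹ + z₁⁻¹ * z₂⁻¹)) -
      2 * s' * (z₀⁻¹ * z₁⁻¹ * z₂⁻¹) ^ 2 * (-(z₀ * z₁ + z₀ * z₂ + z₁ * z₂))) := by
  unfold eqt
  field_simp
  ring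

theorem conj_inv (z : ℂ) (h : ‖z‖ = 1) : (starRingEnd ℂ) z = z⁻¹ := by
  rw [Complex.inv_def, Complex.normSq_eq_norm_sq, h]
  simp

theorem ne_of_one (z : ℂ) (h : ‖z‖ = 1) : z ≠ 0 := by
  intro h0
  rw [h0, norm_zero] at h
  exact zero_ne_one h

/-- the number `n` of a member -/
noncomputable def nn (ν z₀ z₁ z₂ : ℂ) : ℂ :=
  ν * ((starRingEnd ℂ) z₀ * (z₁ - z₂) + (starRingEnd ℂ) z₁ * (z₂ - z₀) + (starRingEnd ℂ) z₂ * (z₀ - z₁))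

theorem eqt_zero (q ν σ z₀ z₁ z₂ : ℂ) (n₀ : ‖z₀‖ = 1) (n₁ : ‖z₁‖ = 1) (n₂ : ‖z₂‖ = 1)
    (h : (ν * (L 1 q z₁ - L 1 q z₂) * (z₀ - q * (starRingEnd ℂ) z₀)).im = (σ * z₀ * (z₁ + z₂)).im) :
    eqt z₀ z₁ z₂ z₀⁻¹ z₁⁻¹ z₂⁻¹ q ((starRingEnd ℂ) q) ν ((starRingEnd ℂ) ν) σ ((starRingEnd ℂ) σ) = 0 := by
  have e : ∀ x y : ℂ, x.im = y.im → x - (starRingEnd ℂ) x - (y - (starRingEnd ℂ) y) = 0 := by
    intro x y hxy
    apply Complex.ext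
    · simp
    · simp [hxy]
  have h' := e _ _ h
  simp only [L, map_mul, map_sub, map_add, Complex.conj_conj, one_mul] at h'
  rw [← conj_inv z₀ n₀, ← conj_inv z₁ n₁, ← conj_inv z₂ n₂]
  unfold eqt
  linear_combination h'

theorem single (q F ν σ z₀ z₁ z₂ : ℂ) (hz : Tz F z₀ z₁ z₂)
    (h₀ : (ν * (L 1 q z₁ - L 1 q z₂) * (z₀ - q * (starRingEnd ℂ) z₀)).im = (σ * z₀ * (z₁ + z₂)).im)
    (h₁ : (ν * (L 1 q z₂ - L 1 q z₀) * (z₁ - q * (starRingEnd ℂ) z₁)).im = (σ * z₁ * (z₂ + z₀)).im)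
    (h₂ : (ν * (L 1 q z₀ - L 1 q z₁) * (z₂ - q * (starRingEnd ℂ) z₂)).im = (σ * z₂ * (z₀ + z₁)).im) :
    nn ν z₀ z₁ z₂ * q - (starRingEnd ℂ) (nn ν z₀ z₁ z₂) * (starRingEnd ℂ) q = σ * F - (starRingEnd ℂ) σ * (starRingEnd ℂ) F ∧
    nn ν z₀ z₁ z₂ * (1 + q * (starRingEnd ℂ) F) - (starRingEnd ℂ) (nn ν z₀ z₁ z₂) *
        ((starRingEnd ℂ) q ^ 2 + (starRingEnd ℂ) q * (starRingEnd ℂ) F) +
      σ * (3 - F * (starRingEnd ℂ) F) - 2 * (starRingEnd ℂ) σ * (starRingEnd ℂ) (z₀ * z₁ * z₂) ^ 2 * F = 0 := by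
  have c₀ := conj_inv z₀ hz.n₀
  have c₁ := conj_inv z₁ hz.n₁
  have c₂ := conj_inv z₂ hz.n₂
  have k₀ := ne_of_one z₀ hz.n₀
  have k₁ := ne_of_one z₁ hz.n₁
  have k₂ := ne_of_one z₂ hz.n₂
  have a₀ := eqt_zero q ν σ z₀ z₁ z₂ hz.n₀ hz.n₁ hz.n₂ h₀
  have a₁ := eqt_zero q ν σ z₁ z₂ z₀ hz.n₁ hz.n₂ hz.n₀ h₁
  have a₂ := eqt_zero q ν σ z₂ z₀ z₁ hz.n₂ hz.n₀ hz.n₁ h₂
  have hF : F = -(z₀ * z₁ + z₀ * z₂ + z₁ * z₂) := by linear_combination hz.s2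
  have hF' : (starRingEnd ℂ) F = -(z₀⁻¹ * z₁⁻¹ + z₀⁻¹ * z₂⁻¹ + z₁⁻¹ * z₂⁻¹) := by
    rw [hF]
    simp only [map_neg, map_add, map_mul, c₀, c₁, c₂]
  have hn : nn ν z₀ z₁ z₂ = ν * (z₀⁻¹ * (z₁ - z₂) + z₁⁻¹ * (z₂ - z₀) + z₂⁻¹ * (z₀ - z₁)) := by
    unfold nn
    rw [c₀, c₁, c₂]
  have hn' : (starRingEnd ℂ) (nn ν z₀ z₁ z₂) =
      (starRingEnd ℂ) ν * (z₀ * (z₁⁻¹ - z₂⁻¹) + z₁ * (z₂⁻¹ - z₀⁻¹) + z₂ * (z₀⁻¹ - z₁⁻¹)) := by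
    rw [← c₀, ← c₁, ← c₂]
    unfold nn
    simp only [map_mul, map_add, map_sub, Complex.conj_conj]
  constructor
  · have h := sum_one z₀ z₁ z₂ q ((starRingEnd ℂ) q) ν ((starRingEnd ℂ) ν) σ ((starRingEnd ℂ) σ) k₀ k₁ k₂
    rw [a₀, a₁, a₂, ← hn, ← hn', ← hF, ← hF'] at h
    linear_combination h / 2
  · have h := sum_two z₀ z₁ z₂ q ((starRingEnd ℂ) q) ν ((starRingEnd ℂ) ν) σ ((starRingEnd ℂ) σ) k₀ k₁ k₂
    rw [a₀, a₁, a₂, ← hn, ← hn', ← hF'] at h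
    have hl : (starRingEnd ℂ) (z₀ * z₁ * z₂) = z₀⁻¹ * z₁⁻¹ * z₂⁻¹ := by
      simp only [map_mul, c₀, c₁, c₂]
    rw [← hl] at h
    have hl0 : z₀ * z₁ * z₂ ≠ 0 := mul_ne_zero (mul_ne_zero k₀ k₁) k₂
    have h5 : (z₀ * z₁ + z₀ * z₂ + z₁ * z₂) * (z₀⁻¹ * z₁⁻¹ + z₀⁻¹ * z₂⁻¹ + z₁⁻¹ * z₂⁻¹) = F * (starRingEnd ℂ) F := by
      rw [hF', hF]; ring
    rw [h5, ← hF] at h
    have h6 := (mul_eq_zero.mp (by rw [← h]; ring : (z₀ * z₁ * z₂) * (nn ν z₀ z₁ z₂ * (1 + q * (starRingEnd ℂ) F) -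
      (starRingEnd ℂ) (nn ν z₀ z₁ z₂) *
        ((starRingEnd ℂ) q ^ 2 + (starRingEnd ℂ) q * (starRingEnd ℂ) F) +
      σ * (3 - F * (starRingEnd ℂ) F) - 2 * (starRingEnd ℂ) σ * (starRingEnd ℂ) (z₀ * z₁ * z₂) ^ 2 * F) = 0)).resolve_left hl0
    exact h6

/-- the constant part of the conormal -/
noncomputable def M0 (q F : ℂ) : ℂ := F + 3 * q + (‖q‖ ^ 2 : ℝ) * F + (starRingEnd ℂ) q * F ^ 2

/-- the conormal of the member with `m = λ²` -/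
noncomputable def Mm (q F m : ℂ) : ℂ := M0 q F + 2 * m * (starRingEnd ℂ) q * (starRingEnd ℂ) F

theorem two_eqs (q F ν σ z₀ z₁ z₂ : ℂ) (hz : Tz F z₀ z₁ z₂)
    (h₀ : (ν * (L 1 q z₁ - L 1 q z₂) * (z₀ - q * (starRingEnd ℂ) z₀)).im = (σ * z₀ * (z₁ + z₂)).im)
    (h₁ : (ν * (L 1 q z₂ - L 1 q z₀) * (z₁ - q * (starRingEnd ℂ) z₁)).im = (σ * z₁ * (z₂ + z₀)).im)
    (h₂ : (ν * (L 1 q z₀ - L 1 q z₁) * (z₂ - q * (starRingEnd ℂ) z₂)).im = (σ * z₂ * (z₀ + z₁)).im) :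
    (1 - (‖q‖ ^ 2 : ℝ)) * (nn ν z₀ z₁ z₂ * q - σ * F) =
      σ * (Mm q F ((z₀ * z₁ * z₂) ^ 2) - (F + 3 * q)) - (starRingEnd ℂ) (σ * (F + 3 * q)) ∧
    (starRingEnd ℂ) (σ * Mm q F ((z₀ * z₁ * z₂) ^ 2)) = σ * Mm q F ((z₀ * z₁ * z₂) ^ 2) := by
  obtain ⟨e1, e2⟩ := single q F ν σ z₀ z₁ z₂ hz h₀ h₁ h₂
  have e3 := congrArg (starRingEnd ℂ) e2
  simp only [map_mul, map_add, map_sub, map_pow, map_one, map_ofNat, map_zero, Complex.conj_conj] at e3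
  have hq : ((‖q‖ ^ 2 : ℝ) : ℂ) = q * (starRingEnd ℂ) q := by
    rw [Complex.mul_conj, Complex.normSq_eq_norm_sq]
  have hm : (starRingEnd ℂ) (Mm q F ((z₀ * z₁ * z₂) ^ 2)) = (starRingEnd ℂ) F + 3 * (starRingEnd ℂ) q +
      q * (starRingEnd ℂ) q * (starRingEnd ℂ) F + q * (starRingEnd ℂ) F ^ 2 +
      2 * (starRingEnd ℂ) (z₀ * z₁ * z₂) ^ 2 * q * F := by
    unfold Mm M0
    rw [hq]
    simp only [map_mul, map_add, map_pow, map_ofNat, Complex.conj_conj]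
    ring
  have hX : (1 - (‖q‖ ^ 2 : ℝ)) * (nn ν z₀ z₁ z₂ * q - σ * F) =
      σ * (Mm q F ((z₀ * z₁ * z₂) ^ 2) - (F + 3 * q)) - (starRingEnd ℂ) (σ * (F + 3 * q)) := by
    unfold Mm M0
    rw [hq]
    simp only [map_mul, map_add, map_ofNat]
    linear_combination (1 + (starRingEnd ℂ) q * F) * e1 + (starRingEnd ℂ) q * e3
  refine ⟨hX, ?_⟩
  have hXc := congrArg (starRingEnd ℂ) hX
  simp only [map_mul, map_add, map_sub, map_one, map_ofNat, Complex.conj_conj, Complex.conj_ofReal] at hX hXc ⊢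
  linear_combination hX - hXc - (1 - (‖q‖ ^ 2 : ℝ)) * e1

theorem delta_ne (F z₀ z₁ z₂ : ℂ) (hz : Tz F z₀ z₁ z₂) :
    (starRingEnd ℂ) z₀ * (z₁ - z₂) + (starRingEnd ℂ) z₁ * (z₂ - z₀) + (starRingEnd ℂ) z₂ * (z₀ - z₁) ≠ 0 := by
  intro h
  have hw : ω ^ 2 + ω + 1 = 0 := by
    apply Complex.ext
    · simp [ω, pow_two]
      ring_nf
      norm_num
    · simp [ω, pow_two]
      ring
  have hwc : (starRingEnd ℂ) ω = -1 - ω := by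
    apply Complex.ext
    · simp [ω]; norm_num
    · simp [ω]
  have hPR : Pc z₀ z₁ z₂ * (starRingEnd ℂ) (Pc z₀ z₁ z₂) = Rc z₀ z₁ z₂ * (starRingEnd ℂ) (Rc z₀ z₁ z₂) := by
    unfold Pc Rc
    simp only [map_div₀, map_add, map_mul, map_sub, map_neg, map_one, hwc, map_ofNat]
    linear_combination (-(2 * ω + 1) / 9) * h
  rw [Complex.mul_conj, Complex.mul_conj] at hPR
  have h2 : Complex.normSq (Pc z₀ z₁ z₂) = Complex.normSq (Rc z₀ z₁ z₂) := by exact_mod_cast hPR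
  rw [Complex.normSq_eq_norm_sq, Complex.normSq_eq_norm_sq] at h2
  have h3 := hz.or
  have h4 := norm_nonneg (Rc z₀ z₁ z₂)
  nlinarith

theorem real_mul (σ M : ℂ) (hM : M ≠ 0) (h : (starRingEnd ℂ) (σ * M) = σ * M) :
    ∃ r : ℝ, σ = r * (starRingEnd ℂ) M := by
  obtain ⟨r, hr⟩ := Complex.conj_eq_iff_real.mp h
  have hMc : (starRingEnd ℂ) M ≠ 0 := (map_ne_zero (starRingEnd ℂ)).mpr hM
  have hn : Complex.normSq M ≠ 0 := by rwa [Ne, Complex.normSq_eq_zero]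
  refine ⟨r / Complex.normSq M, ?_⟩
  have : σ = σ * M / M := by field_simp
  rw [this, hr]
  push_cast
  rw [← Complex.mul_conj]
  field_simp

theorem three (m r : Fin 3 → ℂ) (hr : ∀ k, (starRingEnd ℂ) (r k) = r k) (hm1 : ∀ k, ‖m k‖ = 1)
    (hm : ∀ i j, i ≠ j → m i ≠ m j) (h0 : r 0 + r 1 + r 2 = 0) (h1 : r 0 * m 0 + r 1 * m 1 + r 2 * m 2 = 0) :
    ∀ k, r k = 0 := by
  have hc : ∀ k, m k * (starRingEnd ℂ) (m k) = 1 := by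
    intro k
    rw [Complex.mul_conj, Complex.normSq_eq_norm_sq, hm1 k]
    simp
  have h2 := congrArg (starRingEnd ℂ) h1
  simp only [map_add, map_mul, hr, map_zero] at h2
  have h2' : r 0 * m 1 * m 2 + r 1 * m 0 * m 2 + r 2 * m 0 * m 1 = 0 := by
    linear_combination (m 0 * m 1 * m 2) * h2 - r 0 * m 1 * m 2 * hc 0 - r 1 * m 0 * m 2 * hc 1 -
      r 2 * m 0 * m 1 * hc 2
  have h3 : r 0 * ((m 0 - m 2) * (m 0 - m 1)) = 0 := by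
    linear_combination m 0 * (h1 - m 2 * h0) + (h2' - m 0 * m 1 * h0)
  have h4 : r 1 * ((m 1 - m 2) * (m 1 - m 0)) = 0 := by
    linear_combination m 1 * (h1 - m 2 * h0) + (h2' - m 0 * m 1 * h0)
  have k3 : r 0 = 0 := (mul_eq_zero.mp h3).resolve_right
    (mul_ne_zero (sub_ne_zero.mpr (hm 0 2 (by decide))) (sub_ne_zero.mpr (hm 0 1 (by decide))))
  have k4 : r 1 = 0 := (mul_eq_zero.mp h4).resolve_right
    (mul_ne_zero (sub_ne_zero.mpr (hm 1 2 (by decide))) (sub_ne_zero.mpr (hm 1 0 (by decide))))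
  have k5 : r 2 = 0 := by linear_combination h0 - k3 - k4
  intro k
  fin_cases k
  · exact k3
  · exact k4
  · exact k5

/-- three members: if the conormals cancel then they vanish -/
theorem dual_core (q F : ℂ) (hq : ‖q‖ < 1) (hq0 : q ≠ 0) (hF0 : F ≠ 0) (hM : ‖M0 q F‖ ≠ 2 * ‖q‖ * ‖F‖)
    (m s n : Fin 3 → ℂ) (hm1 : ∀ k, ‖m k‖ = 1) (hm : ∀ i j, i ≠ j → m i ≠ m j)
    (e1 : ∀ k, (1 - (‖q‖ ^ 2 : ℝ)) * (n k * q - s k * F) =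
      s k * (Mm q F (m k) - (F + 3 * q)) - (starRingEnd ℂ) (s k * (F + 3 * q)))
    (e2 : ∀ k, (starRingEnd ℂ) (s k * Mm q F (m k)) = s k * Mm q F (m k))
    (hn : n 0 + n 1 + n 2 = 0) (hs : s 0 + s 1 + s 2 = 0) : ∀ k, n k = 0 ∧ s k = 0 := by
  have hMm : ∀ k, Mm q F (m k) ≠ 0 := by
    intro k h
    apply hM
    have h1 : M0 q F = -(2 * m k * (starRingEnd ℂ) q * (starRingEnd ℂ) F) := by
      unfold Mm at h
      linear_combination h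
    rw [h1, norm_neg, norm_mul, norm_mul, norm_mul, RCLike.norm_conj, RCLike.norm_conj, hm1 k]
    simp
  have hc : ∀ k, m k * (starRingEnd ℂ) (m k) = 1 := by
    intro k
    rw [Complex.mul_conj, Complex.normSq_eq_norm_sq, hm1 k]
    simp
  choose r hr using fun k => real_mul (s k) (Mm q F (m k)) (hMm k) (e2 k)
  have hqq : ((‖q‖ ^ 2 : ℝ) : ℂ) = q * (starRingEnd ℂ) q := by
    rw [Complex.mul_conj, Complex.normSq_eq_norm_sq]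
  -- the sum of the `ρ` part
  have hrho : (1 - (‖q‖ ^ 2 : ℝ)) * ((n 0 * q - s 0 * F) + (n 1 * q - s 1 * F) + (n 2 * q - s 2 * F)) = 0 := by
    linear_combination (1 - (‖q‖ ^ 2 : ℝ)) * q * hn - (1 - (‖q‖ ^ 2 : ℝ)) * F * hs
  have cM : ∀ k, (starRingEnd ℂ) (Mm q F (m k)) =
      (starRingEnd ℂ) (M0 q F) + 2 * (starRingEnd ℂ) (m k) * q * F := by
    intro k
    unfold Mm
    simp only [map_add, map_mul, map_ofNat, Complex.conj_conj]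
  -- `Σ r = 0` and `Σ r m = 0`
  have g1 : ((r 0 : ℂ) + r 1 + r 2) * M0 q F + 2 * (starRingEnd ℂ) q * (starRingEnd ℂ) F * (r 0 * m 0 + r 1 * m 1 + r 2 * m 2) = 0 := by
    have h := congrArg (starRingEnd ℂ) hs
    rw [hr 0, hr 1, hr 2] at h
    simp only [map_add, map_mul, Complex.conj_conj, Complex.conj_ofReal, map_zero] at h
    unfold Mm at h
    linear_combination h
  have g2 : ((r 0 : ℂ) + r 1 + r 2) * ((Complex.normSq (M0 q F - (F + 3 * q)) : ℂ) +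
        4 * (q * (starRingEnd ℂ) q) * (F * (starRingEnd ℂ) F) - (Complex.normSq (F + 3 * q) : ℂ)) +
      (M0 q F - (F + 3 * q)) * (2 * q * F) * (r 0 * (starRingEnd ℂ) (m 0) + r 1 * (starRingEnd ℂ) (m 1) +
        r 2 * (starRingEnd ℂ) (m 2)) +
      (starRingEnd ℂ) (M0 q F - (F + 3 * q)) * (2 * (starRingEnd ℂ) q * (starRingEnd ℂ) F) *
        (r 0 * m 0 + r 1 * m 1 + r 2 * m 2) = 0 := by
    have h : ∀ k, s k * (Mm q F (m k) - (F + 3 * q)) - (starRingEnd ℂ) (s k * (F + 3 * q)) =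
        r k * ((Complex.normSq (M0 q F - (F + 3 * q)) : ℂ) +
        4 * (q * (starRingEnd ℂ) q) * (F * (starRingEnd ℂ) F) - (Complex.normSq (F + 3 * q) : ℂ) +
        (M0 q F - (F + 3 * q)) * (2 * q * F) * (starRingEnd ℂ) (m k) +
        (starRingEnd ℂ) (M0 q F - (F + 3 * q)) * (2 * (starRingEnd ℂ) q * (starRingEnd ℂ) F) * m k) := by
      intro k
      rw [hr k, map_mul, map_mul, Complex.conj_conj, Complex.conj_ofReal, cM k, ← Complex.mul_conj, ← Complex.mul_conj]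
      unfold Mm
      simp only [map_sub]
      linear_combination (4 * r k * q * (starRingEnd ℂ) q * F * (starRingEnd ℂ) F) * hc k
    linear_combination hrho - e1 0 - e1 1 - e1 2 - h 0 - h 1 - h 2
  have hR : (r 0 : ℂ) + r 1 + r 2 = 0 := by
    have g1c := congrArg (starRingEnd ℂ) g1
    simp only [map_add, map_mul, map_ofNat, Complex.conj_conj, Complex.conj_ofReal, map_zero] at g1c
    have g3 : ((r 0 : ℂ) + r 1 + r 2) * (4 * (q * (starRingEnd ℂ) q) * (F * (starRingEnd ℂ) F) -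
        M0 q F * (starRingEnd ℂ) (M0 q F)) = 0 := by
      rw [← Complex.mul_conj, ← Complex.mul_conj] at g2
      simp only [map_sub] at g2
      linear_combination g2 - (M0 q F - (F + 3 * q)) * g1c -
        ((starRingEnd ℂ) (M0 q F) - (starRingEnd ℂ) (F + 3 * q)) * g1
    refine (mul_eq_zero.mp g3).resolve_right ?_
    intro h
    apply hM
    rw [Complex.mul_conj, Complex.mul_conj, Complex.mul_conj] at h
    have h2 : 4 * Complex.normSq q * Complex.normSq F - Complex.normSq (M0 q F) = 0 := by exact_mod_cast h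
    rw [Complex.normSq_eq_norm_sq, Complex.normSq_eq_norm_sq, Complex.normSq_eq_norm_sq] at h2
    have h3 : ‖M0 q F‖ ^ 2 = (2 * ‖q‖ * ‖F‖) ^ 2 := by linear_combination -h2
    exact (sq_eq_sq₀ (norm_nonneg _) (by positivity)).mp h3
  have hW : (r 0 : ℂ) * m 0 + r 1 * m 1 + r 2 * m 2 = 0 := by
    rw [hR] at g1
    have h : 2 * (starRingEnd ℂ) q * (starRingEnd ℂ) F * (r 0 * m 0 + r 1 * m 1 + r 2 * m 2) = 0 := by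
      linear_combination g1
    exact (mul_eq_zero.mp h).resolve_left (mul_ne_zero (mul_ne_zero two_ne_zero
      ((map_ne_zero (starRingEnd ℂ)).mpr hq0)) ((map_ne_zero (starRingEnd ℂ)).mpr hF0))
  have hrk := three m (fun k => (r k : ℂ)) (fun k => Complex.conj_ofReal _) hm1 hm hR hW
  intro k
  have hsk : s k = 0 := by rw [hr k, hrk k, zero_mul]
  refine ⟨?_, hsk⟩
  have h := e1 k
  rw [hsk] at h
  simp only [zero_mul, map_zero, sub_zero] at h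
  have h1q : (1 - ((‖q‖ ^ 2 : ℝ) : ℂ)) ≠ 0 := by
    have : (1 : ℝ) - ‖q‖ ^ 2 ≠ 0 := by nlinarith [norm_nonneg q]
    exact_mod_cast this
  exact (mul_eq_zero.mp ((mul_eq_zero.mp h).resolve_left h1q)).resolve_right hq0

/-- three members of a pair: a functional that kills all motions vanishes -/
theorem dual37 (q F : ℂ) (hq : ‖q‖ < 1) (hq0 : q ≠ 0) (hF0 : F ≠ 0)
    (hM : ‖F + 3 * q + (‖q‖ ^ 2 : ℝ) * F + (starRingEnd ℂ) q * F ^ 2‖ ≠ 2 * ‖q‖ * ‖F‖)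
    (z : Fin 3 → Fin 3 → ℂ) (hz : ∀ k, Tz F (z k 0) (z k 1) (z k 2))
    (hm : ∀ i j, i ≠ j → (z i 0 * z i 1 * z i 2) ^ 2 ≠ (z j 0 * z j 1 * z j 2) ^ 2) (ν σ : Fin 3 → ℂ)
    (h0 : ∀ k, (ν k * (L 1 q (z k 1) - L 1 q (z k 2)) * (z k 0 - q * (starRingEnd ℂ) (z k 0))).im =
      (σ k * z k 0 * (z k 1 + z k 2)).im)
    (h1 : ∀ k, (ν k * (L 1 q (z k 2) - L 1 q (z k 0)) * (z k 1 - q * (starRingEnd ℂ) (z k 1))).im =
      (σ k * z k 1 * (z k 2 + z k 0)).im)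
    (h2 : ∀ k, (ν k * (L 1 q (z k 0) - L 1 q (z k 1)) * (z k 2 - q * (starRingEnd ℂ) (z k 2))).im =
      (σ k * z k 2 * (z k 0 + z k 1)).im)
    (hn : ∑ k, ν k * ((starRingEnd ℂ) (z k 0) * (z k 1 - z k 2) + (starRingEnd ℂ) (z k 1) * (z k 2 - z k 0) +
      (starRingEnd ℂ) (z k 2) * (z k 0 - z k 1)) = 0)
    (hs : ∑ k, σ k = 0) : ∀ k, ν k = 0 ∧ σ k = 0 := by
  rw [Fin.sum_univ_three] at hn hs
  have e := fun k => two_eqs q F (ν k) (σ k) (z k 0) (z k 1) (z k 2) (hz k) (h0 k) (h1 k) (h2 k)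
  have h := dual_core q F hq hq0 hF0 hM (fun k => (z k 0 * z k 1 * z k 2) ^ 2) σ
    (fun k => nn (ν k) (z k 0) (z k 1) (z k 2))
    (fun k => by simp [norm_pow, (hz k).n₀, (hz k).n₁, (hz k).n₂]) hm
    (fun k => (e k).1) (fun k => (e k).2) hn hs
  intro k
  refine ⟨?_, (h k).2⟩
  exact (mul_eq_zero.mp (h k).1).resolve_right (delta_ne F _ _ _ (hz k))

end Pool.Agent.Pon30.Du37
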