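import Pool.Agent.Pon30.Three92
import Pool.Agent.Pon30.Dual37

/-!
# MP_02df19_gt, stage 3, row (A): three members determine a nearby pair
-/

set_option autoImplicit false

namespace Pool.Agent.Pon30

open Complex Filter Topology

/-- **Three members determine a nearby pair.** -/
theorem threeA92 (q F : ℂ) (hq : ‖q‖ < 1) (hF : ‖F‖ < 1) (hq0 : q ≠ 0) (hF0 : F ≠ 0)
    (hM : ‖F + 3 * q + (‖q‖ ^ 2 : ℝ) * F + (starRingEnd ℂ) q * F ^ 2‖ ≠ 2 * ‖q‖ * ‖F‖)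
    (z : Fin 3 → Fin 3 → ℂ) (hz : ∀ k, Tz F (z k 0) (z k 1) (z k 2))
    (hm : ∀ i j, i ≠ j → (z i 0 * z i 1 * z i 2) ^ 2 ≠ (z j 0 * z j 1 * z j 2) ^ 2)
    (U : Set (ℂ × ℂ × (Fin 3 → Fin 3 → ℂ))) (hU : U ∈ 𝓝 (q, F, z)) :
    ∀ᶠ t : Fin 3 → ℂ in 𝓝 (fun k => Sh q (z k)), ∃ q' F' z', (q', F', z') ∈ U ∧ ‖q'‖ < 1 ∧ ‖F'‖ < 1 ∧
      (∀ k, Tz F' (z' k 0) (z' k 1) (z' k 2)) ∧ ∀ k, Sh q' (z' k) = t k :=
  three92 q F hq hF z hz (fun nu sg h0 h1 h2 hn hs =>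
    Du37.dual37 q F hq hq0 hF0 hM z hz hm nu sg h0 h1 h2 hn hs) U hU

end Pool.Agent.Pon30
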