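import Pool.Agent.Pon30.StmtsC
import Pool.Agent.Pon30.Fam41
import Pool.Agent.Pon30.LamC41
import Pool.Agent.Pon30.ThreeA92
import Pool.Agent.Pon30.Good92
import Pool.Agent.Pon30.StmtsS82
import Pool.Agent.Pon30.ParamP41

/-!
# MP_02df19_gt, arbitrary centre functions (helper46): the values near a shape are close to the conic, continuity at `0`
-/

set_option autoImplicit false

namespace Pool.Agent.Pon30

open Complex Filter Topology

/-- the condition under which three members determine the pair -/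
def GoodP (q F : ℂ) : Prop :=
  ‖F + 3 * q + (‖q‖ ^ 2 : ℝ) * F + (starRingEnd ℂ) q * F ^ 2‖ ≠ 2 * ‖q‖ * ‖F‖

namespace Cl46

/-- the determinant of two vectors -/
noncomputable def br (u v : ℂ) : ℝ := u.re * v.im - u.im * v.re
/-- the bilinear form -/
noncomputable def bf (α : ℝ) (β u v : ℂ) : ℝ := α * (u.re * v.re + u.im * v.im) + (β * u * v).re

lemma qf_bf (α : ℝ) (β u : ℂ) : qf α β u = bf α β u u := by
  unfold qf bf
  rw [nsq_re]
  simp only [pow_two, mul_re, mul_im]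
  ring

lemma br_rel (α : ℝ) (β u v w : ℂ) : qf α β w * br u v = bf α β w u * br w v - bf α β w v * br w u := by
  rw [qf_bf]
  unfold bf br
  simp only [mul_re, mul_im]
  ring

lemma cs (α : ℝ) (β u w : ℂ) : bf α β w u ^ 2 + (α ^ 2 - ‖β‖ ^ 2) * br w u ^ 2 = qf α β w * qf α β u := by
  rw [qf_bf, qf_bf, nsq_re]
  unfold bf br
  simp only [mul_re, mul_im]
  ring

lemma bf_le {α : ℝ} {β u w : ℂ} (hb : ‖β‖ < α) (hu : qf α β u = 1) (hw : qf α β w = 1) :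
    |bf α β w u| ≤ 1 := by
  have h := cs α β u w
  rw [hu, hw] at h
  have h1 : 0 ≤ (α ^ 2 - ‖β‖ ^ 2) * br w u ^ 2 := by
    apply mul_nonneg _ (sq_nonneg _)
    nlinarith [norm_nonneg β]
  rw [abs_le_one_iff_mul_self_le_one]
  nlinarith

/-- F1: the triangle inequality for the determinants of three vectors on an ellipse -/
lemma tri_ineq {α : ℝ} {β u v w : ℂ} (hb : ‖β‖ < α) (hu : qf α β u = 1) (hv : qf α β v = 1)
    (hw : qf α β w = 1) : |br u v| ≤ |br w v| + |br w u| := by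
  have h := br_rel α β u v w
  rw [hw, one_mul] at h
  rw [h]
  calc |bf α β w u * br w v - bf α β w v * br w u|
      ≤ |bf α β w u * br w v| + |bf α β w v * br w u| := abs_sub _ _
    _ = |bf α β w u| * |br w v| + |bf α β w v| * |br w u| := by rw [abs_mul, abs_mul]
    _ ≤ 1 * |br w v| + 1 * |br w u| := by
        gcongr
        · exact bf_le hb hu hw
        · exact bf_le hb hv hw
    _ = _ := by ring

/-! ### members of a pair -/

lemma Gc_cyc (w₀ w₁ w₂ : ℂ) : Gc w₁ w₂ w₀ = Gc w₀ w₁ w₂ := by unfold Gc; ring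
lemma Pc_cyc (w₀ w₁ w₂ : ℂ) : Pc w₁ w₂ w₀ = ω * Pc w₀ w₁ w₂ := by
  unfold Pc
  linear_combination (-w₁ / 3) * ω_mul_cj - (w₂ / 3) * ω_sq
lemma Rc_cyc (w₀ w₁ w₂ : ℂ) : Rc w₁ w₂ w₀ = (starRingEnd ℂ) ω * Rc w₀ w₁ w₂ := by
  unfold Rc
  linear_combination (-w₁ / 3) * ω_mul_cj - (w₂ / 3) * cjω_sq

lemma ω_ne : ω ≠ 0 := by
  intro h0
  have := ω_mul_cj
  rw [h0, zero_mul] at this
  exact zero_ne_one this

lemma shape_cyc {P R : ℂ} : (starRingEnd ℂ) ω * R / (ω * P) = ω * (R / P) := by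
  have h : (starRingEnd ℂ) ω = ω * ω := by rw [← ω_sq]; ring
  rw [h, mul_assoc, mul_div_mul_left _ _ ω_ne, mul_div_assoc]

lemma Xh_cyc {h : ℂ → ℂ} (hrot : ∀ s : ℂ, ‖s‖ < 1 → h (ω * s) = (starRingEnd ℂ) ω * h s) {w₀ w₁ w₂ : ℂ}
    (ho : ‖Rc w₀ w₁ w₂‖ < ‖Pc w₀ w₁ w₂‖) : Xh h w₁ w₂ w₀ = Xh h w₀ w₁ w₂ := by
  have hs : ‖Rc w₀ w₁ w₂ / Pc w₀ w₁ w₂‖ < 1 := by
    rw [norm_div, div_lt_one ((norm_nonneg _).trans_lt ho)]
    exact ho
  unfold Xh
  rw [Gc_cyc, Pc_cyc, Rc_cyc, shape_cyc, hrot _ hs]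
  linear_combination (Pc w₀ w₁ w₂ * h (Rc w₀ w₁ w₂ / Pc w₀ w₁ w₂)) * ω_mul_cj

lemma _root_.Pool.Agent.Pon30.Tz.cyc {F z₀ z₁ z₂ : ℂ} (h : Tz F z₀ z₁ z₂) : Tz F z₁ z₂ z₀ := by
  refine ⟨h.n₁, h.n₂, h.n₀, ?_, ?_⟩
  · rw [Pc_cyc, Rc_cyc, norm_mul, norm_mul, RCLike.norm_conj, ω_norm, one_mul, one_mul]
    exact h.or
  · rw [← h.s2]; ring

lemma _root_.Pool.Agent.Pon30.Tz.neg {F z₀ z₁ z₂ : ℂ} (h : Tz F z₀ z₁ z₂) : Tz F (-z₀) (-z₁) (-z₂) := by
  refine ⟨by rw [norm_neg]; exact h.n₀, by rw [norm_neg]; exact h.n₁, by rw [norm_neg]; exact h.n₂, ?_, ?_⟩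
  · have e1 : Pc (-z₀) (-z₁) (-z₂) = -Pc z₀ z₁ z₂ := by unfold Pc; ring
    have e2 : Rc (-z₀) (-z₁) (-z₂) = -Rc z₀ z₁ z₂ := by unfold Rc; ring
    rw [e1, e2, norm_neg, norm_neg]
    exact h.or
  · rw [← h.s2]; ring

lemma L_neg' (p q z : ℂ) : L p q (-z) = -L p q z := by simp [L]; ring

lemma Xh_neg (h : ℂ → ℂ) (w₀ w₁ w₂ : ℂ) : Xh h (-w₀) (-w₁) (-w₂) = -Xh h w₀ w₁ w₂ := by
  have := Xh_smul w₀ w₁ w₂ h (-1) (by norm_num)
  simpa using this

/-- two members with the same product are the same up to cyclic relabelling -/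
lemma memb_eq {h : ℂ → ℂ} (hrot : ∀ s : ℂ, ‖s‖ < 1 → h (ω * s) = (starRingEnd ℂ) ω * h s) {p q F : ℂ}
    (hqp : ‖q‖ < ‖p‖) (hF : ‖F‖ < 1) {z₀ z₁ z₂ y₀ y₁ y₂ : ℂ} (hz : Tz F z₀ z₁ z₂) (hy : Tz F y₀ y₁ y₂)
    (e : z₀ * z₁ * z₂ = y₀ * y₁ * y₂) :
    Xh h (L p q z₀) (L p q z₁) (L p q z₂) = Xh h (L p q y₀) (L p q y₁) (L p q y₂) := by
  have h1 : (y₀ - z₀) * (y₀ - z₁) * (y₀ - z₂) = 0 := by
    have a := hz.s1
    have b := hy.s1
    have c := hz.s2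
    have d := hy.s2
    rw [e, ← b] at a
    linear_combination (-y₀ ^ 2) * a + y₀ * c - y₀ * d - e
  have hc := Xh_cyc hrot (or_L hqp hz.or)
  have hc2 := Xh_cyc hrot (or_L hqp hz.cyc.or)
  rcases mul_eq_zero.mp h1 with h1 | h1
  · rcases mul_eq_zero.mp h1 with h1 | h1
    · rw [sub_eq_zero] at h1
      subst h1
      obtain ⟨e1, e2⟩ := famUniq41 F _ _ _ _ _ hF hz hy
      rw [e1, e2]
    · rw [sub_eq_zero] at h1
      subst h1
      obtain ⟨e1, e2⟩ := famUniq41 F _ _ _ _ _ hF hz.cyc hy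
      rw [← hc, e1, e2]
  · rw [sub_eq_zero] at h1
    subst h1
    obtain ⟨e1, e2⟩ := famUniq41 F _ _ _ _ _ hF hz.cyc.cyc hy
    rw [← hc, ← hc2, e1, e2]

/-- members with non parallel centres have different `λ²` -/
lemma memb_ne {h : ℂ → ℂ} (hrot : ∀ s : ℂ, ‖s‖ < 1 → h (ω * s) = (starRingEnd ℂ) ω * h s) {p q F : ℂ}
    (hqp : ‖q‖ < ‖p‖) (hF : ‖F‖ < 1) {z₀ z₁ z₂ y₀ y₁ y₂ : ℂ} (hz : Tz F z₀ z₁ z₂) (hy : Tz F y₀ y₁ y₂)
    (hb : br (Xh h (L p q z₀) (L p q z₁) (L p q z₂)) (Xh h (L p q y₀) (L p q y₁) (L p q y₂)) ≠ 0) :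
    (z₀ * z₁ * z₂) ^ 2 ≠ (y₀ * y₁ * y₂) ^ 2 := by
  intro e
  apply hb
  rcases sq_eq_sq_iff_eq_or_eq_neg.mp e with e | e
  · rw [memb_eq hrot hqp hF hz hy e]
    unfold br
    ring
  · have e' : z₀ * z₁ * z₂ = (-y₀) * (-y₁) * (-y₂) := by rw [e]; ring
    rw [memb_eq hrot hqp hF hz hy.neg e', L_neg', L_neg', L_neg', Xh_neg]
    unfold br
    simp only [neg_re, neg_im]
    ring

/-! ### abstract part -/

lemma br_smul_left (r : ℝ) (u v : ℂ) : br (r * u) v = r * br u v := by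
  unfold br
  simp only [mul_re, mul_im, ofReal_re, ofReal_im]
  ring
lemma br_smul_right (r : ℝ) (u v : ℂ) : br u (r * v) = r * br u v := by
  unfold br
  simp only [mul_re, mul_im, ofReal_re, ofReal_im]
  ring
lemma br_self (u : ℂ) : br u u = 0 := by unfold br; ring
lemma br_swap (u v : ℂ) : br u v = -br v u := by unfold br; ring
lemma abs_br_swap (u v : ℂ) : |br u v| = |br v u| := by rw [br_swap, abs_neg]
lemma br_cont : Continuous fun x : ℂ × ℂ => br x.1 x.2 := by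
  unfold br
  fun_prop

lemma qf_ofReal_mul (α : ℝ) (β : ℂ) (r : ℝ) (v : ℂ) : qf α β (r * v) = r ^ 2 * qf α β v := by
  rw [qf_bf, qf_bf]
  unfold bf
  simp only [mul_re, mul_im, ofReal_re, ofReal_im]
  ring

lemma qf_ge (α : ℝ) (β v : ℂ) : (α - ‖β‖) * ‖v‖ ^ 2 ≤ qf α β v := by
  unfold qf
  have h : -(‖β‖ * ‖v‖ ^ 2) ≤ (β * v ^ 2).re := by
    have h1 := Complex.abs_re_le_norm (β * v ^ 2)
    rw [norm_mul, norm_pow] at h1
    have h2 := neg_abs_le (β * v ^ 2).re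
    linarith
  linarith

lemma qf_pos' {α : ℝ} {β v : ℂ} (hb : ‖β‖ < α) (hv : v ≠ 0) : 0 < qf α β v := by
  have h1 := qf_ge α β v
  have h2 : 0 < ‖v‖ := norm_pos_iff.mpr hv
  have h3 : 0 < (α - ‖β‖) * ‖v‖ ^ 2 := by
    have : 0 < α - ‖β‖ := by linarith
    positivity
  linarith

lemma qf_cont (α : ℝ) (β : ℂ) : Continuous (qf α β) := by
  unfold qf
  fun_prop

/-- the point of the ellipse in the direction of `v` -/
noncomputable def nrm (α : ℝ) (β v : ℂ) : ℂ := ((√(qf α β v))⁻¹ : ℝ) * v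

lemma qf_nrm {α : ℝ} {β v : ℂ} (hb : ‖β‖ < α) (hv : v ≠ 0) : qf α β (nrm α β v) = 1 := by
  have h := qf_pos' hb hv
  unfold nrm
  rw [qf_ofReal_mul, inv_pow, Real.sq_sqrt h.le, inv_mul_cancel₀ h.ne']

lemma nrm_sqrt_pos {α : ℝ} {β v : ℂ} (hb : ‖β‖ < α) (hv : v ≠ 0) : 0 < (√(qf α β v))⁻¹ := by
  have h := qf_pos' hb hv
  positivity

lemma br_turn (a b : ℝ) (v : ℂ) : br ((1 + a * I) * v) ((1 + b * I) * v) = (b - a) * ‖v‖ ^ 2 := by
  rw [nsq_re]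
  unfold br
  simp only [mul_re, mul_im, add_re, add_im, one_re, one_im, ofReal_re, ofReal_im, I_re, I_im]
  ring

lemma br_turn' (a : ℝ) (v w : ℂ) : br ((1 + a * I) * v) w = br v w + a * br (I * v) w := by
  unfold br
  simp only [mul_re, mul_im, add_re, add_im, one_re, one_im, ofReal_re, ofReal_im, I_re, I_im]
  ring

lemma br_ne {v w : ℂ} (hv : v ≠ 0) (hw : w ≠ 0) (h : br v w = 0) : br (I * v) w ≠ 0 := by
  intro h1
  apply hw
  have hv2 : v.re ^ 2 + v.im ^ 2 ≠ 0 := by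
    rw [← nsq_re]
    have : 0 < ‖v‖ := norm_pos_iff.mpr hv
    positivity
  unfold br at h h1
  simp only [mul_re, mul_im, I_re, I_im] at h1
  apply Complex.ext
  · have : (v.re ^ 2 + v.im ^ 2) * w.re = 0 := by linear_combination (-v.im) * h - v.re * h1
    simpa using (mul_eq_zero.mp this).resolve_left hv2
  · have : (v.re ^ 2 + v.im ^ 2) * w.im = 0 := by linear_combination v.re * h - v.im * h1
    simpa using (mul_eq_zero.mp this).resolve_left hv2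

lemma turn_ne {v : ℂ} (a : ℝ) (hv : v ≠ 0) : (1 + a * I) * v ≠ 0 := by
  apply mul_ne_zero _ hv
  intro h
  have := congrArg Complex.re h
  simp at this

lemma final_alg {α : ℝ} {β X V : ℂ} {n : ℝ} (hb : ‖β‖ < α) (hX : qf α β X = 1)
    (hVn : ‖V‖ + n = 1)
    (h1 : ∀ Y Z : ℂ, qf α β Y = 1 → qf α β Z = 1 → br Y X ≠ 0 → br Z X ≠ 0 → br Y Z ≠ 0 →
      |br V Y| ≤ |br V Z| + n * |br Y Z|)
    (h2 : ∀ Y Z : ℂ, qf α β Y = 1 → qf α β Z = 1 → br Y X ≠ 0 → br Z X ≠ 0 → br Y Z ≠ 0 →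
      n * |br Y Z| ≤ |br V Y| + |br V Z|) : 0 < n ∧ qf α β V = n ^ 2 := by
  have hX0 : X ≠ 0 := by
    intro h
    rw [h] at hX
    unfold qf at hX
    simp at hX
  have hXn : 0 < ‖X‖ := norm_pos_iff.mpr hX0
  by_cases hV : V = 0
  · exfalso
    rw [hV, norm_zero, zero_add] at hVn
    have a1 := nrm_sqrt_pos hb (turn_ne 1 hX0)
    have a2 := nrm_sqrt_pos hb (turn_ne 2 hX0)
    have e1 : br ((1 + (1 : ℝ) * I) * X) X = -‖X‖ ^ 2 := by
      have := br_turn 1 0 X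
      simp only [ofReal_zero, zero_mul, add_zero, one_mul] at this
      rw [this]; ring
    have e2 : br ((1 + (2 : ℝ) * I) * X) X = -2 * ‖X‖ ^ 2 := by
      have := br_turn 2 0 X
      simp only [ofReal_zero, zero_mul, add_zero, one_mul] at this
      rw [this]; ring
    have e3 := br_turn 1 2 X
    have hX2 : 0 < ‖X‖ ^ 2 := by positivity
    have b1 : br (nrm α β ((1 + (1 : ℝ) * I) * X)) X ≠ 0 := by
      unfold nrm
      rw [br_smul_left, e1]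
      exact mul_ne_zero a1.ne' (by linarith)
    have b2 : br (nrm α β ((1 + (2 : ℝ) * I) * X)) X ≠ 0 := by
      unfold nrm
      rw [br_smul_left, e2]
      exact mul_ne_zero a2.ne' (by linarith)
    have b3 : br (nrm α β ((1 + (1 : ℝ) * I) * X)) (nrm α β ((1 + (2 : ℝ) * I) * X)) ≠ 0 := by
      unfold nrm
      rw [br_smul_left, br_smul_right, e3]
      exact mul_ne_zero a1.ne' (mul_ne_zero a2.ne' (by nlinarith))
    have := h2 _ _ (qf_nrm hb (turn_ne 1 hX0)) (qf_nrm hb (turn_ne 2 hX0)) b1 b2 b3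
    rw [hV] at this
    have z1 : ∀ w, br 0 w = 0 := by intro w; unfold br; simp
    rw [z1, z1, hVn] at this
    have h5 := abs_pos.mpr b3
    rw [abs_zero, add_zero, one_mul] at this
    linarith
  · have hVn0 : 0 < ‖V‖ := norm_pos_iff.mpr hV
    have hQ := qf_pos' hb hV
    -- choose `k`
    obtain ⟨k, hk0, hk⟩ : ∃ k : ℝ, 0 < k ∧ br ((1 + k * I) * V) X ≠ 0 := by
      by_cases h : br ((1 + (1 : ℝ) * I) * V) X = 0
      · refine ⟨2, by norm_num, ?_⟩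
        intro h'
        rw [br_turn'] at h h'
        have c1 : br V X = 0 := by linarith
        have c2 : br (I * V) X = 0 := by linarith
        exact br_ne hV hX0 c1 c2
      · exact ⟨1, one_pos, h⟩
    set Y := nrm α β ((1 + k * I) * V) with hY
    have hYQ : qf α β Y = 1 := qf_nrm hb (turn_ne k hV)
    have ak := nrm_sqrt_pos hb (turn_ne k hV)
    have hYX : br Y X ≠ 0 := by
      rw [hY]
      unfold nrm
      rw [br_smul_left]
      exact mul_ne_zero ak.ne' hk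
    have hYV : 0 < |br V Y| := by
      rw [hY]
      unfold nrm
      rw [br_smul_right, abs_mul, abs_of_pos ak]
      apply mul_pos ak
      have := br_turn 0 k V
      simp only [ofReal_zero, zero_mul, add_zero, one_mul] at this
      rw [this, abs_pos]
      have : 0 < (k - 0) * ‖V‖ ^ 2 := by
        rw [sub_zero]; positivity
      exact this.ne'
    -- the moving point
    set Z : ℝ → ℂ := fun τ => nrm α β ((1 + τ * I) * V) with hZ
    have hZc : Tendsto Z (𝓝[≠] 0) (𝓝 (Z 0)) := by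
      have hc : ContinuousAt Z 0 := by
        have c1 : ContinuousAt (fun τ : ℝ => ((1 + τ * I) * V : ℂ)) 0 := by fun_prop
        have c2 : ContinuousAt (fun τ : ℝ => qf α β ((1 + τ * I) * V)) 0 :=
          (qf_cont α β).continuousAt.comp c1
        have c3 : ContinuousAt (fun τ : ℝ => √(qf α β ((1 + τ * I) * V))) 0 :=
          Real.continuous_sqrt.continuousAt.comp c2
        have c4 : ContinuousAt (fun τ : ℝ => (√(qf α β ((1 + τ * I) * V)))⁻¹) 0 := by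
          apply c3.inv₀
          have := qf_pos' hb (turn_ne 0 hV)
          positivity
        have c5 : ContinuousAt (fun τ : ℝ => (((√(qf α β ((1 + τ * I) * V)))⁻¹ : ℝ) : ℂ)) 0 :=
          Complex.continuous_ofReal.continuousAt.comp c4
        exact c5.mul c1
      exact hc.tendsto.mono_left nhdsWithin_le_nhds
    have hZ0 : Z 0 = ((√(qf α β V))⁻¹ : ℝ) * V := by
      simp only [hZ]
      unfold nrm
      simp
    have hev1 : ∀ᶠ τ in 𝓝[≠] (0 : ℝ), br (Z τ) X ≠ 0 := by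
      have hev : ∀ᶠ τ : ℝ in 𝓝[≠] (0 : ℝ), br ((1 + τ * I) * V) X ≠ 0 := by
        by_cases h : br V X = 0
        · filter_upwards [self_mem_nhdsWithin] with τ hτ
          rw [br_turn', h, zero_add]
          exact mul_ne_zero hτ (br_ne hV hX0 h)
        · have hc : ContinuousAt (fun τ : ℝ => br ((1 + τ * I) * V) X) 0 := by
            unfold br
            fun_prop
          have := hc.eventually_ne (y := 0) (by simpa using h)
          exact this.filter_mono nhdsWithin_le_nhds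
      filter_upwards [hev] with τ hτ
      simp only [hZ]
      unfold nrm
      rw [br_smul_left]
      exact mul_ne_zero (nrm_sqrt_pos hb (turn_ne τ hV)).ne' hτ
    have hev2 : ∀ᶠ τ : ℝ in 𝓝[≠] (0 : ℝ), br Y (Z τ) ≠ 0 := by
      have : ∀ᶠ τ : ℝ in 𝓝[≠] (0 : ℝ), τ < k :=
        (gt_mem_nhds hk0 : ∀ᶠ τ in 𝓝 (0 : ℝ), τ < k).filter_mono nhdsWithin_le_nhds
      filter_upwards [this] with τ hτ
      simp only [hZ, hY]
      unfold nrm
      rw [br_smul_left, br_smul_right, br_turn]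
      refine mul_ne_zero ak.ne' (mul_ne_zero (nrm_sqrt_pos hb (turn_ne τ hV)).ne' ?_)
      exact mul_ne_zero (by linarith) (by positivity)
    have lim1 : Tendsto (fun τ => |br V (Z τ)|) (𝓝[≠] 0) (𝓝 |br V (Z 0)|) :=
      ((br_cont.tendsto (V, Z 0)).comp (tendsto_const_nhds.prodMk_nhds hZc)).abs
    have lim2 : Tendsto (fun τ => |br Y (Z τ)|) (𝓝[≠] 0) (𝓝 |br Y (Z 0)|) :=
      ((br_cont.tendsto (Y, Z 0)).comp (tendsto_const_nhds.prodMk_nhds hZc)).abs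
    have i1 : |br V Y| ≤ |br V (Z 0)| + n * |br Y (Z 0)| := by
      apply le_of_tendsto_of_tendsto tendsto_const_nhds (lim1.add (lim2.const_mul n))
      filter_upwards [hev1, hev2] with τ a1 a2
      exact h1 Y (Z τ) hYQ (qf_nrm hb (turn_ne τ hV)) hYX a1 a2
    have i2 : n * |br Y (Z 0)| ≤ |br V Y| + |br V (Z 0)| := by
      apply le_of_tendsto_of_tendsto (lim2.const_mul n) (tendsto_const_nhds.add lim1)
      filter_upwards [hev1, hev2] with τ a1 a2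
      exact h2 Y (Z τ) hYQ (qf_nrm hb (turn_ne τ hV)) hYX a1 a2
    have hs : 0 < √(qf α β V) := Real.sqrt_pos.mpr hQ
    have e1 : |br V (Z 0)| = 0 := by
      rw [hZ0, br_smul_right, br_self, mul_zero, abs_zero]
    have e2 : |br Y (Z 0)| = (√(qf α β V))⁻¹ * |br V Y| := by
      rw [hZ0, br_smul_right, abs_mul, abs_of_pos (inv_pos.mpr hs), abs_br_swap Y V]
    rw [e1, e2] at i1 i2
    have j1 : √(qf α β V) ≤ n := by
      have : |br V Y| * √(qf α β V) ≤ |br V Y| * n := by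
        calc |br V Y| * √(qf α β V) ≤ (0 + n * ((√(qf α β V))⁻¹ * |br V Y|)) * √(qf α β V) := by gcongr
          _ = |br V Y| * n := by field_simp; ring
      exact le_of_mul_le_mul_left this hYV
    have j2 : n ≤ √(qf α β V) := by
      have : |br V Y| * n ≤ |br V Y| * √(qf α β V) := by
        calc |br V Y| * n = (n * ((√(qf α β V))⁻¹ * |br V Y|)) * √(qf α β V) := by field_simp
          _ ≤ (|br V Y| + 0) * √(qf α β V) := by gcongr
          _ = _ := by ring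
      exact le_of_mul_le_mul_left this hYV
    have j : √(qf α β V) = n := le_antisymm j1 j2
    refine ⟨by rw [← j]; exact hs, ?_⟩
    rw [← j, Real.sq_sqrt hQ.le]

/-! ### the limit of the inequalities -/

lemma Xh_Sh (h : ℂ → ℂ) (q : ℂ) (z : Fin 3 → ℂ) : Xh h (L 1 q (z 0)) (L 1 q (z 1)) (L 1 q (z 2)) =
    Gc (L 1 q (z 0)) (L 1 q (z 1)) (L 1 q (z 2)) + Pc (L 1 q (z 0)) (L 1 q (z 1)) (L 1 q (z 2)) * h (Sh q z) := rfl

lemma two_ineq {h : ℂ → ℂ} (H : HH h) {q F : ℂ} (hq : ‖q‖ < 1) (hF : ‖F‖ < 1)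
    (hna : ((starRingEnd ℂ) q * F).im ≠ 0) (hG : GoodP q F) (z : Fin 3 → Fin 3 → ℂ)
    (hz : ∀ k, Tz F (z k 0) (z k 1) (z k 2))
    (hm : ∀ i j, i ≠ j → (z i 0 * z i 1 * z i 2) ^ 2 ≠ (z j 0 * z j 1 * z j 2) ^ 2)
    (l : Filter ℂ) [l.NeBot] (hl : l ≤ 𝓝 (Sh q (z 0))) (n : ℂ → ℝ) (V : ℂ → ℂ) (n' : ℝ) (V' : ℂ)
    (hn : Tendsto n l (𝓝 n')) (hV : Tendsto V l (𝓝 V')) (hn0 : ∀ s, 0 ≤ n s)
    (hVe : ∀ s, V s = n s * (Gc (L 1 q (z 0 0)) (L 1 q (z 0 1)) (L 1 q (z 0 2)) +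
      Pc (L 1 q (z 0 0)) (L 1 q (z 0 1)) (L 1 q (z 0 2)) * h s)) (X₁ X₂ : ℂ)
    (hX₁ : Xh h (L 1 q (z 1 0)) (L 1 q (z 1 1)) (L 1 q (z 1 2)) = X₁)
    (hX₂ : Xh h (L 1 q (z 2 0)) (L 1 q (z 2 1)) (L 1 q (z 2 2)) = X₂) :
    |br V' X₁| ≤ |br V' X₂| + n' * |br X₁ X₂| ∧ n' * |br X₁ X₂| ≤ |br V' X₁| + |br V' X₂| := by
  have hq0 : q ≠ 0 := by
    rintro rfl
    apply hna
    simp
  have hF0 : F ≠ 0 := by
    rintro rfl
    apply hna
    simp
  have hP0 : Pc (L 1 q (z 0 0)) (L 1 q (z 0 1)) (L 1 q (z 0 2)) ≠ 0 := by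
    intro h0
    have h1 := or_L (p := 1) (q := q) (by rw [norm_one]; exact hq) (hz 0).or
    rw [h0, norm_zero] at h1
    exact absurd h1 (not_lt.mpr (norm_nonneg _))
  set x₀ : ℂ × ℂ × (Fin 3 → Fin 3 → ℂ) := (q, F, z) with hx₀
  -- the relation
  set R : Set (ℂ × (ℂ × ℂ × (Fin 3 → Fin 3 → ℂ))) := {y | ‖y.2.1‖ < 1 ∧ ‖y.2.2.1‖ < 1 ∧
    (∀ k, Tz y.2.2.1 (y.2.2.2 k 0) (y.2.2.2 k 1) (y.2.2.2 k 2)) ∧ Sh y.2.1 (y.2.2.2 0) = y.1 ∧
    Sh y.2.1 (y.2.2.2 1) = Sh q (z 1) ∧ Sh y.2.1 (y.2.2.2 2) = Sh q (z 2)} with hR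
  set 𝓖 : Filter (ℂ × (ℂ × ℂ × (Fin 3 → Fin 3 → ℂ))) := (l ×ˢ 𝓝 x₀) ⊓ 𝓟 R with h𝓖
  have hne : 𝓖.NeBot := by
    rw [h𝓖, inf_principal_neBot_iff]
    intro W hW
    obtain ⟨A, hA, B, hB, hAB⟩ := mem_prod_iff.mp hW
    have hev := threeA92 q F hq hF hq0 hF0 hG z hz hm B hB
    have hc : ContinuousAt (fun s : ℂ => (fun k : Fin 3 => if k = 0 then s else Sh q (z k))) (Sh q (z 0)) := by
      rw [continuousAt_pi]
      intro k
      by_cases hk : k = 0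
      · simp only [hk, if_true]
        exact continuousAt_id
      · simp only [hk, if_false]
        exact continuousAt_const
    have hv : (fun k : Fin 3 => if k = 0 then Sh q (z 0) else Sh q (z k)) = fun k => Sh q (z k) := by
      funext k
      by_cases hk : k = 0
      · simp [hk]
      · simp [hk]
    have hev' := hc.tendsto.eventually (by rw [hv]; exact hev)
    obtain ⟨s, hsA, hs⟩ := ((eventually_mem_set.mpr hA).and (hev'.filter_mono hl)).exists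
    obtain ⟨q', F', z', hmem, hq', hF', hT, hS⟩ := hs
    refine ⟨(s, q', F', z'), hAB ⟨hsA, hmem⟩, hq', hF', hT, ?_, ?_, ?_⟩
    · have := hS 0
      simpa using this
    · have := hS 1
      simpa using this
    · have := hS 2
      simpa using this
  have t1 : Tendsto Prod.fst 𝓖 l := tendsto_fst.mono_left inf_le_left
  have t2 : Tendsto Prod.snd 𝓖 (𝓝 x₀) := tendsto_snd.mono_left inf_le_left
  have hRev : ∀ᶠ y in 𝓖, y ∈ R := (eventually_principal.mpr fun y hy => hy).filter_mono inf_le_right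
  -- continuity of `G` and `P`
  have hGc : ∀ k, Continuous fun x : ℂ × ℂ × (Fin 3 → Fin 3 → ℂ) =>
      Gc (L 1 x.1 (x.2.2 k 0)) (L 1 x.1 (x.2.2 k 1)) (L 1 x.1 (x.2.2 k 2)) := by
    intro k
    unfold Gc L
    fun_prop
  have hPc : ∀ k, Continuous fun x : ℂ × ℂ × (Fin 3 → Fin 3 → ℂ) =>
      Pc (L 1 x.1 (x.2.2 k 0)) (L 1 x.1 (x.2.2 k 1)) (L 1 x.1 (x.2.2 k 2)) := by
    intro k
    unfold Pc L
    fun_prop
  have cg := fun k => ((hGc k).tendsto x₀).comp t2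
  have cp := fun k => ((hPc k).tendsto x₀).comp t2
  have cn := hn.comp t1
  have cV := hV.comp t1
  have cnC : Tendsto (fun y => ((n y.1 : ℝ) : ℂ)) 𝓖 (𝓝 (n' : ℂ)) :=
    (Complex.continuous_ofReal.tendsto n').comp cn
  set G₀ := Gc (L 1 q (z 0 0)) (L 1 q (z 0 1)) (L 1 q (z 0 2)) with hG₀
  set P₀ := Pc (L 1 q (z 0 0)) (L 1 q (z 0 1)) (L 1 q (z 0 2)) with hP₀
  -- the three vectors
  set A : ℂ × (ℂ × ℂ × (Fin 3 → Fin 3 → ℂ)) → ℂ := fun y =>
    (n y.1 : ℂ) * Gc (L 1 y.2.1 (y.2.2.2 0 0)) (L 1 y.2.1 (y.2.2.2 0 1)) (L 1 y.2.1 (y.2.2.2 0 2)) +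
    Pc (L 1 y.2.1 (y.2.2.2 0 0)) (L 1 y.2.1 (y.2.2.2 0 1)) (L 1 y.2.1 (y.2.2.2 0 2)) *
      ((V y.1 - n y.1 * G₀) / P₀) with hA
  set B : ℂ × (ℂ × ℂ × (Fin 3 → Fin 3 → ℂ)) → ℂ := fun y =>
    Gc (L 1 y.2.1 (y.2.2.2 1 0)) (L 1 y.2.1 (y.2.2.2 1 1)) (L 1 y.2.1 (y.2.2.2 1 2)) +
    Pc (L 1 y.2.1 (y.2.2.2 1 0)) (L 1 y.2.1 (y.2.2.2 1 1)) (L 1 y.2.1 (y.2.2.2 1 2)) * h (Sh q (z 1)) with hB
  set C : ℂ × (ℂ × ℂ × (Fin 3 → Fin 3 → ℂ)) → ℂ := fun y =>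
    Gc (L 1 y.2.1 (y.2.2.2 2 0)) (L 1 y.2.1 (y.2.2.2 2 1)) (L 1 y.2.1 (y.2.2.2 2 2)) +
    Pc (L 1 y.2.1 (y.2.2.2 2 0)) (L 1 y.2.1 (y.2.2.2 2 1)) (L 1 y.2.1 (y.2.2.2 2 2)) * h (Sh q (z 2)) with hC
  have cA : Tendsto A 𝓖 (𝓝 V') := by
    have e : V' = (n' : ℂ) * G₀ + P₀ * ((V' - n' * G₀) / P₀) := by
      field_simp
      ring
    rw [e]
    exact (cnC.mul (cg 0)).add ((cp 0).mul ((cV.sub (cnC.mul tendsto_const_nhds)).div_const P₀))
  have cB : Tendsto B 𝓖 (𝓝 X₁) := by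
    rw [← hX₁]
    exact (cg 1).add ((cp 1).mul tendsto_const_nhds)
  have cC : Tendsto C 𝓖 (𝓝 X₂) := by
    rw [← hX₂]
    exact (cg 2).add ((cp 2).mul tendsto_const_nhds)
  have bAB : Tendsto (fun y => |br (A y) (B y)|) 𝓖 (𝓝 |br V' X₁|) :=
    ((br_cont.tendsto (V', X₁)).comp (cA.prodMk_nhds cB)).abs
  have bAC : Tendsto (fun y => |br (A y) (C y)|) 𝓖 (𝓝 |br V' X₂|) :=
    ((br_cont.tendsto (V', X₂)).comp (cA.prodMk_nhds cC)).abs
  have bBC : Tendsto (fun y => |br (B y) (C y)|) 𝓖 (𝓝 |br X₁ X₂|) :=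
    ((br_cont.tendsto (X₁, X₂)).comp (cB.prodMk_nhds cC)).abs
  -- nearby pairs are not aligned
  have hnaev : ∀ᶠ y in 𝓖, ((starRingEnd ℂ) y.2.1 * y.2.2.1).im ≠ 0 := by
    have hc : Continuous fun x : ℂ × ℂ × (Fin 3 → Fin 3 → ℂ) => ((starRingEnd ℂ) x.1 * x.2.1).im := by
      fun_prop
    exact t2.eventually (hc.continuousAt.eventually_ne hna)
  have key : ∀ᶠ y in 𝓖, |br (A y) (B y)| ≤ |br (A y) (C y)| + n y.1 * |br (B y) (C y)| ∧
      n y.1 * |br (B y) (C y)| ≤ |br (A y) (B y)| + |br (A y) (C y)| := by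
    filter_upwards [hRev, hnaev] with y hy hy2
    obtain ⟨s, q', F', z'⟩ := y
    obtain ⟨hq', hF', hT, hS0, hS1, hS2⟩ := hy
    simp only at hq' hF' hT hS0 hS1 hS2 hy2
    obtain ⟨α, β, hb, hall⟩ := H 1 q' F' (by rw [norm_one]; exact hq') hF' (by rw [one_mul]; exact hy2)
    have q0 := hall _ _ _ (hT 0)
    have q1 := hall _ _ _ (hT 1)
    have q2 := hall _ _ _ (hT 2)
    rw [Xh_Sh, hS0] at q0
    rw [Xh_Sh, hS1] at q1
    rw [Xh_Sh, hS2] at q2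
    have eA : A (s, q', F', z') = (n s : ℝ) * (Gc (L 1 q' (z' 0 0)) (L 1 q' (z' 0 1)) (L 1 q' (z' 0 2)) +
        Pc (L 1 q' (z' 0 0)) (L 1 q' (z' 0 1)) (L 1 q' (z' 0 2)) * h s) := by
      simp only [hA, hVe]
      field_simp
      ring
    have eB : B (s, q', F', z') = Gc (L 1 q' (z' 1 0)) (L 1 q' (z' 1 1)) (L 1 q' (z' 1 2)) +
        Pc (L 1 q' (z' 1 0)) (L 1 q' (z' 1 1)) (L 1 q' (z' 1 2)) * h (Sh q (z 1)) := rfl
    have eC : C (s, q', F', z') = Gc (L 1 q' (z' 2 0)) (L 1 q' (z' 2 1)) (L 1 q' (z' 2 2)) +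
        Pc (L 1 q' (z' 2 0)) (L 1 q' (z' 2 1)) (L 1 q' (z' 2 2)) * h (Sh q (z 2)) := rfl
    rw [← eB] at q1
    rw [← eC] at q2
    have i1 := tri_ineq hb q0 q1 q2
    have i2 := tri_ineq hb q1 q2 q0
    have hns := hn0 s
    simp only
    rw [eA, br_smul_left, br_smul_left, abs_mul, abs_mul, abs_of_nonneg hns]
    constructor
    · rw [abs_br_swap (C _) (B _), abs_br_swap (C _) (Gc _ _ _ + _)] at i1
      nlinarith [mul_le_mul_of_nonneg_left i1 hns]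
    · nlinarith [mul_le_mul_of_nonneg_left i2 hns]
  exact ⟨le_of_tendsto_of_tendsto bAB (bAC.add (cn.mul bBC)) (key.mono fun y hy => hy.1),
    le_of_tendsto_of_tendsto (cn.mul bBC) (bAB.add bAC) (key.mono fun y hy => hy.2)⟩

/-- **F2.** The values of `h` near the shape of a member of a good pair are close to the conic of the pair. -/
theorem clust46 {h : ℂ → ℂ} (H : HH h) (hrot : ∀ s : ℂ, ‖s‖ < 1 → h (ω * s) = (starRingEnd ℂ) ω * h s) {q F : ℂ}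
    (hq : ‖q‖ < 1) (hF : ‖F‖ < 1) (hna : ((starRingEnd ℂ) q * F).im ≠ 0) (hG : GoodP q F) {α : ℝ} {β : ℂ}
    (hb : ‖β‖ < α) (hall : ∀ z₀ z₁ z₂, Tz F z₀ z₁ z₂ → qf α β (Xh h (L 1 q z₀) (L 1 q z₁) (L 1 q z₂)) = 1)
    (hsurj : ∀ Y : ℂ, qf α β Y = 1 → ∃ z₀ z₁ z₂, Tz F z₀ z₁ z₂ ∧ Xh h (L 1 q z₀) (L 1 q z₁) (L 1 q z₂) = Y)
    {z₀ z₁ z₂ : ℂ} (hz : Tz F z₀ z₁ z₂) :
    Tendsto (fun s => qf α β (Gc (L 1 q z₀) (L 1 q z₁) (L 1 q z₂) + Pc (L 1 q z₀) (L 1 q z₁) (L 1 q z₂) * h s))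
      (𝓝 (Rc (L 1 q z₀) (L 1 q z₁) (L 1 q z₂) / Pc (L 1 q z₀) (L 1 q z₁) (L 1 q z₂))) (𝓝 1) := by
  rw [tendsto_iff_ultrafilter]
  intro g hg
  set G := Gc (L 1 q z₀) (L 1 q z₁) (L 1 q z₂) with hGG
  set P := Pc (L 1 q z₀) (L 1 q z₁) (L 1 q z₂) with hPP
  set n : ℂ → ℝ := fun s => (1 + ‖G + P * h s‖)⁻¹ with hn
  set V : ℂ → ℂ := fun s => (n s : ℂ) * (G + P * h s) with hV
  have hnpos : ∀ s, 0 < n s := fun s => by
    simp only [hn]
    have := norm_nonneg (G + P * h s)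
    positivity
  have hVn : ∀ s, ‖V s‖ + n s = 1 := by
    intro s
    have h1 := norm_nonneg (G + P * h s)
    simp only [hV]
    rw [norm_mul, Complex.norm_real, Real.norm_of_nonneg (hnpos s).le]
    have h2 : n s * (1 + ‖G + P * h s‖) = 1 := by
      simp only [hn]
      exact inv_mul_cancel₀ (by positivity)
    linear_combination h2
  -- the limits
  have hK : IsCompact (Metric.closedBall (0 : ℂ) 1 ×ˢ Set.Icc (0 : ℝ) 1) :=
    (isCompact_closedBall 0 1).prod isCompact_Icc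
  have hmem : ∀ s, (V s, n s) ∈ Metric.closedBall (0 : ℂ) 1 ×ˢ Set.Icc (0 : ℝ) 1 := by
    intro s
    have h1 := hVn s
    have h2 := hnpos s
    have h3 := norm_nonneg (V s)
    refine ⟨?_, ?_, ?_⟩
    · rw [mem_closedBall_zero_iff]
      linarith
    · exact h2.le
    · simp only
      linarith
  obtain ⟨⟨V', n'⟩, hx, hlim⟩ := hK.ultrafilter_le_nhds (g.map fun s => (V s, n s))
    (by rw [le_principal_iff]; exact Filter.mem_map.mpr (Filter.univ_mem' hmem))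
  have hlim' : Tendsto (fun s => (V s, n s)) g (𝓝 (V', n')) := hlim
  have lV : Tendsto V g (𝓝 V') := (continuous_fst.tendsto _).comp hlim'
  have ln : Tendsto n g (𝓝 n') := (continuous_snd.tendsto _).comp hlim'
  have hsum : ‖V'‖ + n' = 1 := by
    have h1 : Tendsto (fun s => ‖V s‖ + n s) g (𝓝 (‖V'‖ + n')) := lV.norm.add ln
    have h2 : (fun s => ‖V s‖ + n s) = fun _ => (1 : ℝ) := funext hVn
    rw [h2] at h1
    exact (tendsto_nhds_unique h1 tendsto_const_nhds)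
  have h1q : ‖q‖ < ‖(1 : ℂ)‖ := by rw [norm_one]; exact hq
  set X := Xh h (L 1 q z₀) (L 1 q z₁) (L 1 q z₂) with hX
  have hXQ : qf α β X = 1 := hall _ _ _ hz
  -- the inequalities
  have hin : ∀ Y Z : ℂ, qf α β Y = 1 → qf α β Z = 1 → br Y X ≠ 0 → br Z X ≠ 0 → br Y Z ≠ 0 →
      |br V' Y| ≤ |br V' Z| + n' * |br Y Z| ∧ n' * |br Y Z| ≤ |br V' Y| + |br V' Z| := by
    intro Y Z hY hZ hYX hZX hYZ
    obtain ⟨y₀, y₁, y₂, hy, eY⟩ := hsurj Y hY
    obtain ⟨x₀, x₁, x₂, hx, eZ⟩ := hsurj Z hZ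
    set z : Fin 3 → Fin 3 → ℂ := ![![z₀, z₁, z₂], ![y₀, y₁, y₂], ![x₀, x₁, x₂]] with hzz
    have m01 : (z₀ * z₁ * z₂) ^ 2 ≠ (y₀ * y₁ * y₂) ^ 2 := by
      apply memb_ne hrot h1q hF hz hy
      rw [eY, br_swap]
      exact neg_ne_zero.mpr hYX
    have m02 : (z₀ * z₁ * z₂) ^ 2 ≠ (x₀ * x₁ * x₂) ^ 2 := by
      apply memb_ne hrot h1q hF hz hx
      rw [eZ, br_swap]
      exact neg_ne_zero.mpr hZX
    have m12 : (y₀ * y₁ * y₂) ^ 2 ≠ (x₀ * x₁ * x₂) ^ 2 := by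
      apply memb_ne hrot h1q hF hy hx
      rw [eY, eZ]
      exact hYZ
    have hT : ∀ k, Tz F (z k 0) (z k 1) (z k 2) := by
      intro k
      fin_cases k
      · exact hz
      · exact hy
      · exact hx
    have hm : ∀ i j, i ≠ j → (z i 0 * z i 1 * z i 2) ^ 2 ≠ (z j 0 * z j 1 * z j 2) ^ 2 := by
      intro i j hij
      fin_cases i <;> fin_cases j
      · exact absurd rfl hij
      · exact m01
      · exact m02
      · exact m01.symm
      · exact absurd rfl hij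
      · exact m12
      · exact m02.symm
      · exact m12.symm
      · exact absurd rfl hij
    exact two_ineq H hq hF hna hG z hT hm g hg n V n' V' ln lV (fun s => (hnpos s).le) (fun s => rfl) Y Z eY eZ
  obtain ⟨hn'pos, hQ⟩ := final_alg hb hXQ hsum (fun Y Z a b c d e => (hin Y Z a b c d e).1)
    (fun Y Z a b c d e => (hin Y Z a b c d e).2)
  -- conclusion
  have e1 : ∀ s, qf α β (G + P * h s) = (n s ^ 2)⁻¹ * qf α β (V s) := by
    intro s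
    simp only [hV]
    rw [qf_ofReal_mul]
    have := (hnpos s).ne'
    field_simp
  have e2 : Tendsto (fun s => (n s ^ 2)⁻¹ * qf α β (V s)) g (𝓝 ((n' ^ 2)⁻¹ * qf α β V')) :=
    ((ln.pow 2).inv₀ (by positivity)).mul (((qf_cont α β).tendsto V').comp lV)
  rw [hQ, inv_mul_cancel₀ (by positivity)] at e2
  exact e2.congr fun s => (e1 s).symm

/-! ### continuity at `0` -/

lemma qf_three (α : ℝ) (β G v : ℂ) : qf α β (G + v) + qf α β (G + ω * v) + qf α β (G + (starRingEnd ℂ) ω * v) =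
    3 * qf α β G + 3 * α * ‖v‖ ^ 2 := by
  have h3 := sq3
  rw [qf_bf, qf_bf, qf_bf, qf_bf, nsq_re]
  unfold bf
  simp only [mul_re, mul_im, add_re, add_im, conj_re, conj_im, ω_re, ω_im]
  ring_nf
  rw [show (√3 : ℝ) ^ 2 = 3 from by rw [pow_two, h3]]
  ring

/-- `h` is continuous at `0` as soon as one good pair contains the equilateral triangle. -/
lemma cont_of_pair {h : ℂ → ℂ} (H : HHs h) (hrot : ∀ s : ℂ, ‖s‖ < 1 → h (ω * s) = (starRingEnd ℂ) ω * h s)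
    {q F : ℂ} (hq : ‖q‖ < 1) (hF : ‖F‖ < 1) (hna : ((starRingEnd ℂ) q * F).im ≠ 0) (hG : GoodP q F)
    {z₀ z₁ z₂ : ℂ} (hz : Tz F z₀ z₁ z₂) (h0 : Rc (L 1 q z₀) (L 1 q z₁) (L 1 q z₂) = 0) :
    h 0 = 0 ∧ ContinuousAt h 0 := by
  have h1q : ‖q‖ < ‖(1 : ℂ)‖ := by rw [norm_one]; exact hq
  have hh0 : h 0 = 0 := by
    have h1 := hrot 0 (by simp)
    rw [mul_zero] at h1
    have h2 : (starRingEnd ℂ) ω ≠ 1 := by
      intro h3
      have h4 := congrArg Complex.re h3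
      rw [conj_re, ω_re, one_re] at h4
      norm_num at h4
    have h3 : (1 - (starRingEnd ℂ) ω) * h 0 = 0 := by linear_combination h1
    exact (mul_eq_zero.mp h3).resolve_left (sub_ne_zero.mpr h2.symm)
  refine ⟨hh0, ?_⟩
  obtain ⟨α, β, hb, hall, hsurj⟩ := H 1 q F h1q hF (by rw [one_mul]; exact hna)
  have c0 := clust46 H.toHH hrot hq hF hna hG hb hall hsurj hz
  have c1 := clust46 H.toHH hrot hq hF hna hG hb hall hsurj hz.cyc
  have c2 := clust46 H.toHH hrot hq hF hna hG hb hall hsurj hz.cyc.cyc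
  rw [Gc_cyc (L 1 q z₀) (L 1 q z₁) (L 1 q z₂), Pc_cyc (L 1 q z₀) (L 1 q z₁) (L 1 q z₂),
    Rc_cyc (L 1 q z₀) (L 1 q z₁) (L 1 q z₂)] at c1
  rw [Gc_cyc (L 1 q z₁) (L 1 q z₂) (L 1 q z₀), Gc_cyc (L 1 q z₀) (L 1 q z₁) (L 1 q z₂),
    Pc_cyc (L 1 q z₁) (L 1 q z₂) (L 1 q z₀), Pc_cyc (L 1 q z₀) (L 1 q z₁) (L 1 q z₂),
    Rc_cyc (L 1 q z₁) (L 1 q z₂) (L 1 q z₀), Rc_cyc (L 1 q z₀) (L 1 q z₁) (L 1 q z₂)] at c2
  rw [h0] at c0 c1 c2
  simp only [mul_zero, zero_div] at c0 c1 c2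
  set G := Gc (L 1 q z₀) (L 1 q z₁) (L 1 q z₂) with hGG
  set P := Pc (L 1 q z₀) (L 1 q z₁) (L 1 q z₂) with hPP
  have hP0 : P ≠ 0 := by
    intro hp
    have h1 := or_L (p := 1) (q := q) h1q hz.or
    rw [← hPP, hp, norm_zero] at h1
    exact absurd h1 (not_lt.mpr (norm_nonneg _))
  have hQG : qf α β G = 1 := by
    have h1 := hall _ _ _ hz
    unfold Xh at h1
    rw [h0, zero_div, hh0, mul_zero, add_zero] at h1
    exact h1
  have hα : 0 < α := (norm_nonneg β).trans_lt hb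
  have hsum := (c0.add c1).add c2
  have e : ∀ s, qf α β (G + P * h s) + qf α β (G + ω * P * h s) + qf α β (G + ω * (ω * P) * h s) =
      3 + 3 * α * ‖P * h s‖ ^ 2 := by
    intro s
    have h1 := qf_three α β G (P * h s)
    rw [hQG, mul_one] at h1
    rw [← h1, ← ω_sq]
    ring_nf
  simp only [e] at hsum
  -- `‖P h‖² → 0`
  have l1 : Tendsto (fun s => ‖P * h s‖ ^ 2) (𝓝 0) (𝓝 0) := by
    have h1 : Tendsto (fun s => (3 + 3 * α * ‖P * h s‖ ^ 2 - 3) / (3 * α)) (𝓝 0) (𝓝 ((1 + 1 + 1 - 3) / (3 * α))) :=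
      (hsum.sub_const 3).div_const _
    have h2 : (fun s => (3 + 3 * α * ‖P * h s‖ ^ 2 - 3) / (3 * α)) = fun s => ‖P * h s‖ ^ 2 := by
      funext s
      field_simp
      ring
    rw [h2] at h1
    have h3 : ((1 : ℝ) + 1 + 1 - 3) / (3 * α) = 0 := by norm_num
    rwa [h3] at h1
  have l2 : Tendsto (fun s => ‖P * h s‖) (𝓝 0) (𝓝 0) := by
    have h1 := (Real.continuous_sqrt.tendsto 0).comp l1
    rw [Real.sqrt_zero] at h1
    refine h1.congr fun s => ?_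
    simp only [Function.comp]
    exact Real.sqrt_sq (norm_nonneg _)
  have l3 : Tendsto (fun s => ‖h s‖) (𝓝 0) (𝓝 0) := by
    have h1 : Tendsto (fun s => ‖P * h s‖ / ‖P‖) (𝓝 0) (𝓝 (0 / ‖P‖)) := l2.div_const _
    rw [zero_div] at h1
    refine h1.congr fun s => ?_
    have : ‖P‖ ≠ 0 := norm_ne_zero_iff.mpr hP0
    rw [norm_mul]
    field_simp
  have l4 := tendsto_zero_iff_norm_tendsto_zero.mpr l3
  unfold ContinuousAt
  rw [hh0]
  exact l4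

/-- **CONT0.** -/
theorem cont46 {h : ℂ → ℂ} (H : HHs h) (hrot : ∀ s : ℂ, ‖s‖ < 1 → h (ω * s) = (starRingEnd ℂ) ω * h s) :
    h 0 = 0 ∧ ContinuousAt h 0 := by
  set ζ : ℂ := I / 16 with hζ
  have hn : ‖ζ‖ = 1 / 16 := by
    rw [hζ, norm_div, Complex.norm_I]
    norm_num
  have hζ0 : ζ ≠ 0 := by
    rw [← norm_pos_iff, hn]
    norm_num
  obtain ⟨hqp, hF, hT, -, -, e0, e1, e2⟩ := paramP41 0 ζ (by simp) (by rw [hn]; norm_num)
  have hK : (0 : ℝ) < Kz ζ := by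
    unfold Kz
    have h1 := PP41.N_pos (ζ := ζ) (by rw [hn]; norm_num)
    rw [hn]
    positivity
  have hKC : ((Kz ζ : ℝ) : ℂ) ≠ 0 := by exact_mod_cast hK.ne'
  have eL : ∀ z, L (pz 0 ζ) (qz 0 ζ) z = (Kz ζ : ℝ) * L 1 (-ζ) z := by
    intro z
    unfold L pz qz
    ring
  obtain ⟨hF0, -, hM⟩ := good92 ζ (Fz ζ) hζ0 (by rw [hn]; norm_num) rfl
  have hq : ‖(-ζ : ℂ)‖ < 1 := by rw [norm_neg, hn]; norm_num
  have hR : Rc (L 1 (-ζ) (z0 ζ)) (L 1 (-ζ) (z1 ζ)) (L 1 (-ζ) (z2 ζ)) = 0 := by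
    have h1 := Rc_smul (L 1 (-ζ) (z0 ζ)) (L 1 (-ζ) (z1 ζ)) (L 1 (-ζ) (z2 ζ)) (Kz ζ : ℝ)
    rw [← eL, ← eL, ← eL, ← e0, ← e1, ← e2, Rc_sub, Rc_T] at h1
    exact (mul_eq_zero.mp h1.symm).resolve_left hKC
  refine cont_of_pair H hrot hq hF ?_ hM.ne hT hR
  -- the pair is not aligned
  have hc : (starRingEnd ℂ) ζ = -(I / 16) := by
    rw [hζ, map_div₀, conj_I, map_ofNat]
    ring
  have e : (starRingEnd ℂ) (-ζ) * Fz ζ = (-1 + I / 16) * (1 + I / 4096) * (3 / 256) / (1 + (1 / 4096) ^ 2) := by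
    have hd : (1 : ℂ) - I / 4096 ≠ 0 := by
      intro h
      have := congrArg Complex.re h
      simp at this
    have h1 : 1 - (starRingEnd ℂ) ζ ^ 3 = 1 - I / 4096 := by
      rw [hc]
      ring_nf
      rw [show (I : ℂ) ^ 3 = -I from by rw [pow_succ, I_sq]; ring]
      ring
    have h2 : (1 + (1 / 4096) ^ 2 : ℂ) = (1 - I / 4096) * (1 + I / 4096) := by
      linear_combination ((1 / 4096 : ℂ) ^ 2) * I_sq
    have h3 : (1 : ℂ) + (1 / 4096) ^ 2 ≠ 0 := by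
      intro h
      have := congrArg Complex.re h
      norm_num at this
    unfold Fz
    rw [h1, map_neg, hc, hζ, eq_div_iff h3, h2]
    have h5 : ∀ A B D E : ℂ, D ≠ 0 → A * (B / D) * (D * E) = A * B * E := by
      intro A B D E hD
      field_simp
    rw [h5 _ _ _ _ hd]
    linear_combination ((3 / 256 - 3 * I / 4096) * (1 + I / 4096)) * I_sq
  rw [e]
  have e' : (-1 + I / 16) * (1 + I / 4096) * (3 / 256) / (1 + (1 / 4096) ^ 2) =
      (((3 / 256) / (1 + (1 / 4096) ^ 2) : ℝ) : ℂ) * ((-1 + I / 16) * (1 + I / 4096)) := by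
    push_cast
    ring
  rw [e', Complex.im_ofReal_mul]
  norm_num

end Cl46

end Pool.Agent.Pon30
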