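import Pool.Agent.Pon30.StmtsP34
import Pool.Agent.Pon30.Basic

/-! Row SIGP of MP_02df19_gt (helper46): sum and difference of the squares of `P` and `R` over a pair. -/

set_option autoImplicit false

namespace Pool.Agent.Pon30

open Complex

theorem norm_PR_sum (p q P R : ℂ) :
    ‖p * P + q * (starRingEnd ℂ) R‖ ^ 2 + ‖p * R + q * (starRingEnd ℂ) P‖ ^ 2 =
      (‖p‖ ^ 2 + ‖q‖ ^ 2) * (‖P‖ ^ 2 + ‖R‖ ^ 2) + 4 * (p * (starRingEnd ℂ) q * (P * R)).re := by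
  simp only [nsq_re, add_re, add_im, mul_re, mul_im, conj_re, conj_im]
  ring

theorem Tz.PR_eq {F z₀ z₁ z₂ : ℂ} (h : Tz F z₀ z₁ z₂) :
    Pc z₀ z₁ z₂ * Rc z₀ z₁ z₂ = F / 3 + (z₀ * z₁ * z₂) ^ 2 * (starRingEnd ℂ) F ^ 2 / 9 := by
  have h1 := h.F_eq
  have h2 := h.G_eq
  rw [h2] at h1
  linear_combination (-1 / 3) * h1

theorem Tz.G_norm {F z₀ z₁ z₂ : ℂ} (h : Tz F z₀ z₁ z₂) : ‖Gc z₀ z₁ z₂‖ ^ 2 = ‖F‖ ^ 2 / 9 := by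
  rw [h.G_eq, norm_div, norm_mul, norm_neg, h.lam_norm, RCLike.norm_conj, one_mul]
  have : ‖(3 : ℂ)‖ = 3 := by norm_num
  rw [this]
  ring

theorem Tz.PR_sum {F z₀ z₁ z₂ : ℂ} (h : Tz F z₀ z₁ z₂) :
    ‖Pc z₀ z₁ z₂‖ ^ 2 + ‖Rc z₀ z₁ z₂‖ ^ 2 = 1 - ‖F‖ ^ 2 / 9 := by
  have h1 := h.parseval
  rw [h.G_norm] at h1
  linarith

/-- Row SIGP. -/
theorem sigP46 : SigP := by
  intro p q F z₀ z₁ z₂ h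
  rw [Pc_L, Rc_L]
  refine ⟨?_, ?_⟩
  · rw [norm_PR_sum, h.PR_sum, h.PR_eq]
  · rw [norm_PR_L, mul_pow]
    congr 1
    have h1 : (‖Pc z₀ z₁ z₂‖ ^ 2 - ‖Rc z₀ z₁ z₂‖ ^ 2) ^ 2 =
        (‖Pc z₀ z₁ z₂‖ ^ 2 + ‖Rc z₀ z₁ z₂‖ ^ 2) ^ 2 - 4 * ‖Pc z₀ z₁ z₂ * Rc z₀ z₁ z₂‖ ^ 2 := by
      rw [norm_mul]
      ring
    rw [h1, h.PR_sum, h.PR_eq]

end Pool.Agent.Pon30
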