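import Pool.Agent.Pon30.StmtsD30
import Pool.Agent.Pon30.Pair82
import Pool.Agent.Pon30.LamC41
import Pool.Agent.Pon30.SigP46
import Pool.Agent.Pon30.Clust46

/-!
# MP_02df19_gt, row D2: an explicit pair with an equilateral member whose locus is never degenerate
-/

set_option autoImplicit false

namespace Pool.Agent.Pon30

open Complex Filter Topology

namespace BD30

lemma t2 : √2 * √2 = (2 : ℝ) := Real.mul_self_sqrt (by norm_num)
lemma t2' : √2 ^ 2 = (2 : ℝ) := Real.sq_sqrt (by norm_num)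
lemma t3' : √2 ^ 3 = 2 * √2 := by rw [pow_succ, t2']
lemma t4' : √2 ^ 4 = 4 := by rw [show √2 ^ 4 = (√2 ^ 2) ^ 2 by ring, t2']; norm_num
lemma t_gt : 1 < √2 := by
  have h := t2
  have h0 : 0 < √2 := by positivity
  nlinarith
lemma t_lt : √2 < 3 / 2 := by
  have h := t2
  have h0 : 0 < √2 := by positivity
  nlinarith
lemma T2 : ((√2 : ℝ) : ℂ) * ((√2 : ℝ) : ℂ) = 2 := by
  rw [← ofReal_mul, t2]; norm_num
lemma T0' : ((√2 : ℝ) : ℂ) ≠ 0 := by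
  have : (√2 : ℝ) ≠ 0 := by positivity
  exact_mod_cast this

lemma qD_eq : qD = ((-(2 - √2) / 26 : ℝ) : ℂ) * (17 + 7 * I) := by
  have h0 := T0'
  unfold qD
  push_cast
  field_simp
  linear_combination (-(221 + 91 * I) : ℂ) * T2

lemma qD_re : qD.re = -(2 - √2) * 17 / 26 := by
  rw [qD_eq, re_ofReal_mul]; norm_num; ring
lemma qD_im : qD.im = -(2 - √2) * 7 / 26 := by
  rw [qD_eq, im_ofReal_mul]; norm_num; ring

lemma FD_eq : FD = ((3 / 13 : ℝ) : ℂ) * (3 + 2 * I) := by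
  unfold FD; push_cast; ring
lemma FD_re : FD.re = 9 / 13 := by
  rw [FD_eq, re_ofReal_mul]; norm_num
lemma FD_im : FD.im = 6 / 13 := by
  rw [FD_eq, im_ofReal_mul]; norm_num

lemma norm_qD_sq : ‖qD‖ ^ 2 = 3 - 2 * √2 := by
  rw [nsq_re, qD_re, qD_im]
  linear_combination (1 / 2 : ℝ) * t2

lemma norm_FD_sq : ‖FD‖ ^ 2 = 9 / 13 := by
  rw [nsq_re, FD_re, FD_im]
  norm_num

lemma qD_lt : ‖qD‖ < 1 := by
  have h := norm_qD_sq
  have h1 := t_gt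
  have h2 := norm_nonneg qD
  nlinarith

lemma FD_lt : ‖FD‖ < 1 := by
  have h := norm_FD_sq
  have h2 := norm_nonneg FD
  nlinarith

lemma qD_ne : qD ≠ 0 := by
  intro h
  have h1 := norm_qD_sq
  have h2 := t_lt
  rw [h, norm_zero] at h1
  nlinarith

lemma FD_ne : FD ≠ 0 := by
  intro h
  have h1 := norm_FD_sq
  rw [h, norm_zero] at h1
  norm_num at h1

lemma M_eq : FD + 3 * qD + (‖qD‖ ^ 2 : ℝ) * FD + (starRingEnd ℂ) qD * FD ^ 2 =
    ((-3 * (2 - √2) / 13 : ℝ) : ℂ) * (4 + I) := by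
  rw [norm_qD_sq, qD_eq, FD_eq]
  simp only [map_mul, conj_ofReal, map_add, map_ofNat, conj_I]
  push_cast
  have hI := I_mul_I
  linear_combination (144 / 2197 + 252 / 2197 * I - 126 / 2197 * ((√2 : ℝ) : ℂ) * I - 72 / 2197 * ((√2 : ℝ) : ℂ)) * hI

theorem gd : Gd qD FD := by
  refine ⟨qD_lt, FD_lt, qD_ne, FD_ne, ?_, ?_⟩
  · intro h
    have h1 : ‖FD + 3 * qD + (‖qD‖ ^ 2 : ℝ) * FD + (starRingEnd ℂ) qD * FD ^ 2‖ ^ 2 = (2 * ‖qD‖ * ‖FD‖) ^ 2 := by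
      rw [h]
    rw [M_eq, norm_mul, mul_pow, mul_pow, mul_pow, norm_qD_sq, norm_FD_sq, norm_real, Real.norm_eq_abs, sq_abs,
      nsq_re] at h1
    norm_num at h1
    have h2 := t_lt
    have h3 := t2'
    have h4 : (4 + I : ℂ).re = 4 := by simp
    nlinarith
  · rw [qD_eq, FD_eq]
    simp only [map_mul, conj_ofReal, map_add, map_ofNat, conj_I]
    rw [show ((-(2 - √2) / 26 : ℝ) : ℂ) * (17 + 7 * -I) * (((3 / 13 : ℝ) : ℂ) * (3 + 2 * I)) =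
      (((-(2 - √2) / 26) * (3 / 13) : ℝ) : ℂ) * ((17 + 7 * -I) * (3 + 2 * I)) by push_cast; ring, im_ofReal_mul]
    have h2 := t_lt
    have h3 : ((17 + 7 * -I) * (3 + 2 * I) : ℂ).im = 13 := by
      simp
      norm_num
    rw [h3]
    nlinarith

/-- the product of the equilateral member -/
noncomputable def lD : ℂ := ((√2 / 26 : ℝ) : ℂ) * (17 + 7 * I)

lemma norm_lD : ‖lD‖ = 1 := by
  have h : ‖lD‖ ^ 2 = 1 := by
    unfold lD
    rw [norm_mul, mul_pow, norm_real, Real.norm_eq_abs, sq_abs, nsq_re]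
    have h3 := t2'
    norm_num
    ring_nf
    rw [h3]
    norm_num
  nlinarith [norm_nonneg lD]

lemma lD_sq : lD ^ 2 = (120 + 119 * I) / 169 := by
  unfold lD
  push_cast
  linear_combination ((17 + 7 * I) ^ 2 / 676) * T2 + (49 / 338 : ℂ) * I_mul_I

lemma c_eq : FD / 3 + lD ^ 2 * (starRingEnd ℂ) FD ^ 2 / 9 = ((3 / 169 : ℝ) : ℂ) * (17 + 7 * I) := by
  rw [lD_sq, FD_eq]
  simp only [map_mul, conj_ofReal, map_add, map_ofNat, conj_I]
  push_cast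
  linear_combination ((-948 + 476 * I) / 28561 : ℂ) * I_mul_I

/-- a triple with product `lD` has an equilateral image -/
theorem member0 {z₀ z₁ z₂ : ℂ} (T : Tz FD z₀ z₁ z₂) (hl : z₀ * z₁ * z₂ = lD) :
    Rc (L 1 qD z₀) (L 1 qD z₁) (L 1 qD z₂) = 0 := by
  obtain ⟨h1, h2⟩ := sigP46 1 qD FD z₀ z₁ z₂ T
  have hor := or_L (p := 1) (q := qD) (by rw [norm_one]; exact qD_lt) T.or
  rw [hl, c_eq] at h1 h2
  have hc : (1 * (starRingEnd ℂ) qD * (((3 / 169 : ℝ) : ℂ) * (17 + 7 * I))).re = -3 * (2 - √2) / 13 := by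
    rw [qD_eq]
    simp only [map_mul, conj_ofReal, map_add, map_ofNat, conj_I]
    rw [show 1 * (((-(2 - √2) / 26 : ℝ) : ℂ) * (17 + 7 * -I)) * (((3 / 169 : ℝ) : ℂ) * (17 + 7 * I)) =
      (((-(2 - √2) / 26) * (3 / 169) : ℝ) : ℂ) * ((17 + 7 * -I) * (17 + 7 * I)) by push_cast; ring, re_ofReal_mul]
    have h3 : ((17 + 7 * -I) * (17 + 7 * I) : ℂ).re = 338 := by
      simp
      norm_num
    rw [h3]
    ring
  have hn : ‖(((3 / 169 : ℝ) : ℂ) * (17 + 7 * I))‖ ^ 2 = 18 / 169 := by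
    rw [norm_mul, mul_pow, norm_real, Real.norm_eq_abs, sq_abs, nsq_re]
    norm_num
  rw [hc, norm_one, norm_qD_sq, norm_FD_sq] at h1
  rw [norm_one, norm_qD_sq, norm_FD_sq, hn] at h2
  set a := ‖Pc (L 1 qD z₀) (L 1 qD z₁) (L 1 qD z₂)‖ with ha
  set b := ‖Rc (L 1 qD z₀) (L 1 qD z₁) (L 1 qD z₂)‖ with hb
  have hb0 : 0 ≤ b := norm_nonneg _
  have e1 : a ^ 2 + b ^ 2 = 12 * (2 - √2) / 13 := by rw [h1]; ring
  have e2 : (a ^ 2 - b ^ 2) ^ 2 = (12 * (2 - √2) / 13) ^ 2 := by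
    rw [h2]
    linear_combination (144 / 169 : ℝ) * t2
  have hpos : 0 < 12 * (2 - √2) / 13 := by
    have := t_lt
    have : 0 < 2 - √2 := by linarith
    positivity
  have hab : 0 ≤ a ^ 2 - b ^ 2 := by nlinarith
  have e3 : a ^ 2 - b ^ 2 = 12 * (2 - √2) / 13 := by
    exact (pow_left_inj₀ hab hpos.le two_ne_zero).1 e2
  have e4 : b ^ 2 = 0 := by linarith
  have e5 : b = 0 := pow_eq_zero_iff (two_ne_zero) |>.1 e4
  exact norm_eq_zero.1 e5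

/-! ### the isosceles member -/

lemma r3' : √3 ^ 2 = (3 : ℝ) := Real.sq_sqrt (by norm_num)

noncomputable def y1 : ℂ := ⟨(2 - 6 * √3) / 13, -(3 + 4 * √3) / 13⟩
noncomputable def y2 : ℂ := ⟨(2 + 6 * √3) / 13, -(3 - 4 * √3) / 13⟩

lemma Gy : Gc (-1) y1 y2 = ⟨-3 / 13, -2 / 13⟩ := by
  unfold Gc
  rw [div_eq_iff (by norm_num)]
  apply Complex.ext
  · simp [y1, y2]; ring
  · simp [y1, y2]; ring

lemma Py : Pc (-1) y1 y2 = ⟨-9 / 13, 7 / 13⟩ := by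
  have h := r3'
  unfold Pc
  rw [div_eq_iff (by norm_num)]
  apply Complex.ext
  · simp [y1, y2, ω]
    linear_combination (-4 / 13 : ℝ) * h
  · simp [y1, y2, ω]
    linear_combination (6 / 13 : ℝ) * h

lemma Ry : Rc (-1) y1 y2 = ⟨-1 / 13, -5 / 13⟩ := by
  have h := r3'
  unfold Rc
  rw [div_eq_iff (by norm_num)]
  apply Complex.ext
  · simp [y1, y2, ω]
    linear_combination (4 / 13 : ℝ) * h
  · simp [y1, y2, ω]
    linear_combination (-6 / 13 : ℝ) * h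

theorem tz_y : Tz FD (-1) y1 y2 := by
  have h := r3'
  refine ⟨by simp, ?_, ?_, ?_, ?_⟩
  · have h1 : ‖y1‖ ^ 2 = 1 := by
      rw [nsq_re]
      simp only [y1]
      linear_combination (52 / 169 : ℝ) * h
    nlinarith [norm_nonneg y1]
  · have h1 : ‖y2‖ ^ 2 = 1 := by
      rw [nsq_re]
      simp only [y2]
      linear_combination (52 / 169 : ℝ) * h
    nlinarith [norm_nonneg y2]
  · rw [Py, Ry]
    apply lt_of_pow_lt_pow_left₀ 2 (norm_nonneg _)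
    rw [nsq_re, nsq_re]
    norm_num
  · apply Complex.ext
    · simp [y1, y2, FD_re]
      linear_combination (-20 / 169 : ℝ) * h
    · simp [y1, y2, FD_im]
      linear_combination (-48 / 169 : ℝ) * h

/-- the centroid of the equilateral member -/
noncomputable def G0 : ℂ := ⟨(√2 - 6) / 26, (5 * √2 - 4) / 26⟩

lemma qD_mk : qD = ⟨-(2 - √2) * 17 / 26, -(2 - √2) * 7 / 26⟩ := Complex.ext qD_re qD_im
lemma FD_mk : FD = ⟨9 / 13, 6 / 13⟩ := Complex.ext FD_re FD_im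
lemma lD_mk : lD = ⟨17 * √2 / 26, 7 * √2 / 26⟩ := by
  apply Complex.ext
  · unfold lD
    rw [re_ofReal_mul]
    simp
    ring
  · unfold lD
    rw [im_ofReal_mul]
    simp
    ring

lemma G0_ne : G0 ≠ 0 := by
  intro h
  have h1 := congrArg Complex.re h
  have h2 := t_lt
  simp only [G0, zero_re] at h1
  linarith

/-- the centroid of a member with product `lD` -/
lemma G_mem0 {z₀ z₁ z₂ : ℂ} (T : Tz FD z₀ z₁ z₂) (hl : z₀ * z₁ * z₂ = lD) :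
    Gc (L 1 qD z₀) (L 1 qD z₁) (L 1 qD z₂) = G0 := by
  have h := t2'
  rw [Gc_L, T.G_eq, hl, qD_mk, lD_mk, FD_mk, G0, L, div_eq_mul_inv, show (3 : ℂ)⁻¹ = ((1 / 3 : ℝ) : ℂ) by push_cast; norm_num]
  apply Complex.ext
  · simp only [one_mul, add_re, mul_re, mul_im, neg_re, neg_im, conj_re, conj_im, ofReal_re, ofReal_im]
    linear_combination (-3 / 26 : ℝ) * h
  · simp only [one_mul, add_im, mul_re, mul_im, neg_re, neg_im, conj_re, conj_im, ofReal_re, ofReal_im]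
    linear_combination (-1 / 13 : ℝ) * h

lemma G_y : Gc (L 1 qD (-1)) (L 1 qD y1) (L 1 qD y2) = I * G0 := by
  have h := t2'
  rw [Gc_L, Gy, qD_mk, G0, L]
  apply Complex.ext
  · simp
    linear_combination (0 : ℝ) * h
  · simp
    linear_combination (0 : ℝ) * h

lemma P_y : Pc (L 1 qD (-1)) (L 1 qD y1) (L 1 qD y2) = ((2 + √2 : ℝ) : ℂ) * G0 := by
  have h := t2'
  rw [Pc_L, Py, Ry, qD_mk, G0]
  apply Complex.ext
  · simp
    linear_combination (-1 / 26 : ℝ) * h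
  · simp
    linear_combination (-5 / 26 : ℝ) * h

lemma R_y : Rc (L 1 qD (-1)) (L 1 qD y1) (L 1 qD y2) = ((-3 + 2 * √2 : ℝ) : ℂ) * (((2 + √2 : ℝ) : ℂ) * G0) := by
  have h := t2'
  rw [Rc_L, Py, Ry, qD_mk, G0]
  apply Complex.ext
  · simp
    linear_combination (11 / 26 - √2 / 13 : ℝ) * h
  · simp
    linear_combination (3 / 26 - 5 * √2 / 13 : ℝ) * h

/-- the form of a nondegenerate locus -/
theorem isForm_of_ne {h : ℂ → ℂ} {q F P Q : ℂ} (hne : ‖P‖ ≠ ‖Q‖)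
    (h1 : ∀ z₀ z₁ z₂, Tz F z₀ z₁ z₂ → ∃ u : ℂ, ‖u‖ = 1 ∧
      Xh h (L 1 q z₀) (L 1 q z₁) (L 1 q z₂) = P * u + Q * (starRingEnd ℂ) u)
    (h2 : ∀ u : ℂ, ‖u‖ = 1 → ∃ z₀ z₁ z₂, Tz F z₀ z₁ z₂ ∧
      Xh h (L 1 q z₀) (L 1 q z₁) (L 1 q z₂) = P * u + Q * (starRingEnd ℂ) u) :
    ∃ (α : ℝ) (β : ℂ), IsForm h q F α β := by
  have main : ∀ P Q : ℂ, ‖Q‖ < ‖P‖ →
      (∀ z₀ z₁ z₂, Tz F z₀ z₁ z₂ → ∃ u : ℂ, ‖u‖ = 1 ∧
        Xh h (L 1 q z₀) (L 1 q z₁) (L 1 q z₂) = P * u + Q * (starRingEnd ℂ) u) →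
      (∀ u : ℂ, ‖u‖ = 1 → ∃ z₀ z₁ z₂, Tz F z₀ z₁ z₂ ∧
        Xh h (L 1 q z₀) (L 1 q z₁) (L 1 q z₂) = P * u + Q * (starRingEnd ℂ) u) →
      ∃ (α : ℝ) (β : ℂ), IsForm h q F α β := by
    intro P Q hlt a1 a2
    refine ⟨P82.oa P Q, P82.ob P Q, P82.ob_lt hlt, ?_, ?_⟩
    · intro z₀ z₁ z₂ T
      obtain ⟨u, hu, e⟩ := a1 z₀ z₁ z₂ T
      rw [e]
      have := P82.qf_out hlt u
      rw [hu, one_pow] at this
      exact this
    · intro Y hY
      obtain ⟨u, rfl⟩ := P82.L_surj hlt Y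
      rw [P82.qf_out hlt] at hY
      have hu : ‖u‖ = 1 := by nlinarith [norm_nonneg u]
      obtain ⟨z₀, z₁, z₂, T, e⟩ := a2 u hu
      exact ⟨z₀, z₁, z₂, T, e⟩
  rcases lt_or_gt_of_ne hne with hlt | hgt
  · refine main Q P hlt ?_ ?_
    · intro z₀ z₁ z₂ T
      obtain ⟨u, hu, e⟩ := h1 z₀ z₁ z₂ T
      exact ⟨(starRingEnd ℂ) u, by rw [RCLike.norm_conj, hu], by rw [e, Complex.conj_conj]; ring⟩
    · intro u hu
      obtain ⟨z₀, z₁, z₂, T, e⟩ := h2 ((starRingEnd ℂ) u) (by rw [RCLike.norm_conj, hu])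
      exact ⟨z₀, z₁, z₂, T, by rw [e, Complex.conj_conj]; ring⟩
  · exact main P Q hgt h1 h2

lemma h_zero {h : ℂ → ℂ} (hS : SymD h) : h 0 = 0 := by
  have h1 := hS.rot 0 (by simp)
  rw [mul_zero] at h1
  have h2 : (starRingEnd ℂ) ω ≠ 1 := by
    intro h3
    have h4 := congrArg Complex.re h3
    rw [conj_re, ω_re, one_re] at h4
    norm_num at h4
  have h3 : (1 - (starRingEnd ℂ) ω) * h 0 = 0 := by linear_combination h1
  exact (mul_eq_zero.mp h3).resolve_left (sub_ne_zero.mpr h2.symm)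

/-- Row D2. -/
theorem baseD30 : BaseD := by
  obtain ⟨x₀, x₁, x₂, Tx, hx⟩ := lamC41 FD lD FD_lt norm_lD
  refine ⟨gd, ⟨x₀, x₁, x₂, Tx, member0 Tx hx⟩, ?_⟩
  intro h H hS
  obtain ⟨P, Q, h1, h2⟩ := H 1 qD FD (by rw [norm_one]; exact qD_lt) FD_lt (by rw [one_mul]; exact gd.2.2.2.2.2)
  refine isForm_of_ne ?_ h1 h2
  intro hPQ
  -- the two members
  obtain ⟨a, ha, e0⟩ := h1 _ _ _ Tx
  obtain ⟨b, hb, e1⟩ := h1 _ _ _ tz_y
  have hG := G0_ne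
  have X0 : Xh h (L 1 qD x₀) (L 1 qD x₁) (L 1 qD x₂) = G0 := by
    unfold Xh
    rw [member0 Tx hx, zero_div, h_zero hS, mul_zero, add_zero, G_mem0 Tx hx]
  have ht := t_gt
  have hP0 : ((2 + √2 : ℝ) : ℂ) * G0 ≠ 0 := by
    apply mul_ne_zero _ hG
    have : (2 + √2 : ℝ) ≠ 0 := by positivity
    exact_mod_cast this
  have hs : ‖((-3 + 2 * √2 : ℝ) : ℂ)‖ < 1 := by
    rw [norm_real, Real.norm_eq_abs, abs_lt]
    have := t_lt
    constructor <;> linarith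
  have hreal : (h ((-3 + 2 * √2 : ℝ) : ℂ)).im = 0 := by
    have h3 := hS.conj _ hs
    rw [conj_ofReal] at h3
    exact Complex.conj_eq_iff_im.1 h3.symm
  set y : ℝ := (h ((-3 + 2 * √2 : ℝ) : ℂ)).re with hy
  have hyy : h ((-3 + 2 * √2 : ℝ) : ℂ) = (y : ℂ) := Complex.ext (by simp [hy]) (by rw [hreal]; simp)
  have X1 : Xh h (L 1 qD (-1)) (L 1 qD y1) (L 1 qD y2) = (I + ((2 + √2 : ℝ) : ℂ) * (y : ℂ)) * G0 := by
    unfold Xh
    rw [R_y, P_y, G_y, mul_div_assoc, div_self hP0, mul_one, hyy]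
    ring
  have hb1 : Cl46.br (P * a + Q * (starRingEnd ℂ) a) (P * b + Q * (starRingEnd ℂ) b) =
      (‖P‖ ^ 2 - ‖Q‖ ^ 2) * (a.re * b.im - a.im * b.re) := by
    unfold Cl46.br
    rw [nsq_re, nsq_re]
    simp only [add_re, add_im, mul_re, mul_im, conj_re, conj_im]
    ring
  rw [← e0, ← e1, X0, X1, hPQ, sub_self, zero_mul] at hb1
  have hb2 : Cl46.br G0 ((I + ((2 + √2 : ℝ) : ℂ) * (y : ℂ)) * G0) = ‖G0‖ ^ 2 := by
    unfold Cl46.br
    rw [nsq_re]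
    simp only [add_re, add_im, mul_re, mul_im, ofReal_re, ofReal_im, I_re, I_im]
    ring
  rw [hb2] at hb1
  exact hG (norm_eq_zero.1 (pow_eq_zero_iff (two_ne_zero) |>.1 hb1))

end BD30

end Pool.Agent.Pon30
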