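import Pool.Agent.Pon30.StmtsS82
import Pool.Agent.Pon30.Fam41

/-! MP_02df19_gt, stage 3 (helper82): the conic of a pair depends continuously on the pair. -/

set_option autoImplicit false

namespace Pool.Agent.Pon30

open Complex Filter Topology

/-- the form of a pair `1`, `q`, `F`: contains all centres, and every point of the ellipse is a centre -/
def IsForm (h : ℂ → ℂ) (q F : ℂ) (α : ℝ) (β : ℂ) : Prop :=
  ‖β‖ < α ∧ (∀ z₀ z₁ z₂, Tz F z₀ z₁ z₂ → qf α β (Xh h (L 1 q z₀) (L 1 q z₁) (L 1 q z₂)) = 1) ∧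
    ∀ Y : ℂ, qf α β Y = 1 → ∃ z₀ z₁ z₂, Tz F z₀ z₁ z₂ ∧ Xh h (L 1 q z₀) (L 1 q z₁) (L 1 q z₂) = Y

/-- good pairs -/
def Gd (q F : ℂ) : Prop :=
  ‖q‖ < 1 ∧ ‖F‖ < 1 ∧ q ≠ 0 ∧ F ≠ 0 ∧
    ‖F + 3 * q + (‖q‖ ^ 2 : ℝ) * F + (starRingEnd ℂ) q * F ^ 2‖ ≠ 2 * ‖q‖ * ‖F‖ ∧ ((starRingEnd ℂ) q * F).im ≠ 0

/-- F2: cluster values lie on the conic -/
def F2P (h : ℂ → ℂ) : Prop := ∀ q F : ℂ, Gd q F → ∀ (α : ℝ) (β : ℂ), IsForm h q F α β → ∀ z₀ z₁ z₂, Tz F z₀ z₁ z₂ →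
  Tendsto (fun s : ℂ => qf α β (Gc (L 1 q z₀) (L 1 q z₁) (L 1 q z₂) + Pc (L 1 q z₀) (L 1 q z₁) (L 1 q z₂) * h s))
    (𝓝 (Rc (L 1 q z₀) (L 1 q z₁) (L 1 q z₂) / Pc (L 1 q z₀) (L 1 q z₁) (L 1 q z₂))) (𝓝 1)

namespace CcS

/-- the condition on a triple is closed -/
theorem tz_closed {F z₀ z₁ z₂ : ℂ} (hF : ‖F‖ < 1) (n0 : ‖z₀‖ = 1) (n1 : ‖z₁‖ = 1) (n2 : ‖z₂‖ = 1)
    (hle : ‖Rc z₀ z₁ z₂‖ ≤ ‖Pc z₀ z₁ z₂‖) (hs : z₀ * z₁ + z₀ * z₂ + z₁ * z₂ = -F) : Tz F z₀ z₁ z₂ := by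
  refine ⟨n0, n1, n2, lt_of_le_of_ne hle ?_, hs⟩
  intro he
  have c0 : z₀ * (starRingEnd ℂ) z₀ = 1 := by rw [← nsq, n0]; norm_num
  have c1 : z₁ * (starRingEnd ℂ) z₁ = 1 := by rw [← nsq, n1]; norm_num
  have c2 : z₂ * (starRingEnd ℂ) z₂ = 1 := by rw [← nsq, n2]; norm_num
  have h1 := or_formula c0 c1 c2
  rw [he, sub_self, ofReal_zero, mul_zero, zero_mul] at h1
  have key : ∀ x y : ℂ, ‖x‖ = 1 → ‖y‖ = 1 → x * x + x * y + x * y ≠ -F := by
    intro x y hx hy h2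
    have h3 : ‖x * x + x * y + x * y‖ = ‖F‖ := by rw [h2, norm_neg]
    have h4 : x * x + x * y + x * y = x * (x + 2 * y) := by ring
    rw [h4, norm_mul, hx, one_mul] at h3
    have h5 : ‖2 * y‖ - ‖x‖ ≤ ‖x + 2 * y‖ := by
      have := norm_sub_norm_le (2 * y) (-x)
      rw [norm_neg, sub_neg_eq_add, add_comm (2 * y) x] at this
      exact this
    rw [norm_mul, hx, hy] at h5
    norm_num at h5
    linarith
  have h6 := mul_eq_zero.1 h1.symm
  rcases h6 with h6 | h6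
  · exact ω_sub_cj h6
  · rcases mul_eq_zero.1 h6 with h7 | h7
    · rcases mul_eq_zero.1 h7 with h8 | h8
      · have : z₀ = z₁ := sub_eq_zero.1 h8
        subst this
        exact key z₀ z₂ n0 n2 (by rw [← hs])
      · have : z₁ = z₂ := sub_eq_zero.1 h8
        subst this
        exact key z₁ z₀ n1 n0 (by rw [← hs]; ring)
    · have : z₂ = z₀ := sub_eq_zero.1 h7
      subst this
      exact key z₂ z₁ n2 n1 (by rw [← hs]; ring)

theorem qf_low {α : ℝ} {β : ℂ} (Y : ℂ) : (α - ‖β‖) * ‖Y‖ ^ 2 ≤ qf α β Y := by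
  have h1 : -(‖β‖ * ‖Y‖ ^ 2) ≤ (β * Y ^ 2).re := by
    have := abs_re_le_norm (β * Y ^ 2)
    rw [norm_mul, norm_pow] at this
    exact neg_le_of_abs_le this
  unfold qf
  linarith

theorem qf_up {α : ℝ} {β : ℂ} (Y : ℂ) : qf α β Y ≤ (α + ‖β‖) * ‖Y‖ ^ 2 := by
  have h1 : (β * Y ^ 2).re ≤ ‖β‖ * ‖Y‖ ^ 2 := by
    have := abs_re_le_norm (β * Y ^ 2)
    rw [norm_mul, norm_pow] at this
    exact le_of_abs_le this
  unfold qf
  linarith

theorem qf_smul (α : ℝ) (β : ℂ) (t : ℝ) (Y : ℂ) : qf α β ((t : ℂ) * Y) = t ^ 2 * qf α β Y := by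
  unfold qf
  have e1 : ‖(t : ℂ) * Y‖ ^ 2 = t ^ 2 * ‖Y‖ ^ 2 := by
    rw [norm_mul, norm_real, mul_pow, Real.norm_eq_abs, sq_abs]
  have e2 : (β * ((t : ℂ) * Y) ^ 2).re = t ^ 2 * (β * Y ^ 2).re := by
    rw [← re_ofReal_mul]
    congr 1
    push_cast
    ring
  rw [e1, e2]
  ring

theorem cont_qf (α : ℝ) (β : ℂ) : Continuous (fun Y : ℂ => qf α β Y) := by
  unfold qf
  fun_prop

/-- **E_n lies near E** -/
theorem near (h : ℂ → ℂ) (hF2 : F2P h) {q₀ F : ℂ} (hg : Gd q₀ F) {α : ℝ} {β : ℂ} (hf : IsForm h q₀ F α β)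
    {ε : ℝ} (hε : 0 < ε) : ∃ δ > 0, ∀ q : ℂ, ‖q - q₀‖ < δ → ∀ (α' : ℝ) (β' : ℂ), IsForm h q F α' β' →
      ∀ Y : ℂ, qf α' β' Y = 1 → |qf α β Y - 1| ≤ ε := by
  by_contra hcon
  push Not at hcon
  choose q hq α' β' hf' Y hY hY' using fun n : ℕ => hcon (1 / ((n : ℝ) + 1)) (by positivity)
  choose z₀ z₁ z₂ hT hX using fun n : ℕ => (hf' n).2.2 (Y n) (hY n)
  have hF : ‖F‖ < 1 := hg.2.1
  have hqlim : Tendsto q atTop (𝓝 q₀) := by
    rw [tendsto_iff_norm_sub_tendsto_zero]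
    exact squeeze_zero (fun n => norm_nonneg _) (fun n => (hq n).le) tendsto_one_div_add_atTop_nhds_zero_nat
  -- compactness of the triples
  have hK : ∀ n, (z₀ n, z₁ n, z₂ n) ∈ Metric.closedBall (0 : ℂ × ℂ × ℂ) 1 := by
    intro n
    rw [mem_closedBall_zero_iff, Prod.norm_def, Prod.norm_def, max_le_iff, max_le_iff]
    exact ⟨(hT n).n₀.le, (hT n).n₁.le, (hT n).n₂.le⟩
  obtain ⟨⟨y₀, y₁, y₂⟩, -, φ, hφ, hφlim⟩ := (isCompact_closedBall (0 : ℂ × ℂ × ℂ) 1).tendsto_subseq hK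
  have l0 : Tendsto (fun n => z₀ (φ n)) atTop (𝓝 y₀) := (continuous_fst.tendsto _).comp hφlim
  have l1 : Tendsto (fun n => z₁ (φ n)) atTop (𝓝 y₁) := ((continuous_fst.comp continuous_snd).tendsto _).comp hφlim
  have l2 : Tendsto (fun n => z₂ (φ n)) atTop (𝓝 y₂) := ((continuous_snd.comp continuous_snd).tendsto _).comp hφlim
  have lq : Tendsto (fun n => q (φ n)) atTop (𝓝 q₀) := hqlim.comp hφ.tendsto_atTop
  have hPz : Tendsto (fun n => Pc (z₀ (φ n)) (z₁ (φ n)) (z₂ (φ n))) atTop (𝓝 (Pc y₀ y₁ y₂)) := by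
    unfold Pc
    exact ((l0.add (l1.const_mul _)).add (l2.const_mul _)).div_const _
  have hRz : Tendsto (fun n => Rc (z₀ (φ n)) (z₁ (φ n)) (z₂ (φ n))) atTop (𝓝 (Rc y₀ y₁ y₂)) := by
    unfold Rc
    exact ((l0.add (l1.const_mul _)).add (l2.const_mul _)).div_const _
  have hTy : Tz F y₀ y₁ y₂ := by
    refine tz_closed hF ?_ ?_ ?_ ?_ ?_
    · exact tendsto_nhds_unique l0.norm (tendsto_const_nhds.congr (fun n => ((hT (φ n)).n₀).symm))
    · exact tendsto_nhds_unique l1.norm (tendsto_const_nhds.congr (fun n => ((hT (φ n)).n₁).symm))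
    · exact tendsto_nhds_unique l2.norm (tendsto_const_nhds.congr (fun n => ((hT (φ n)).n₂).symm))
    · exact le_of_tendsto_of_tendsto' hRz.norm hPz.norm (fun n => ((hT (φ n)).or).le)
    · exact tendsto_nhds_unique (((l0.mul l1).add (l0.mul l2)).add (l1.mul l2))
        (tendsto_const_nhds.congr (fun n => ((hT (φ n)).s2).symm))
  -- the triangles
  have hL : ∀ {x : ℕ → ℂ} {x' : ℂ}, Tendsto (fun n => x (φ n)) atTop (𝓝 x') →
      Tendsto (fun n => L 1 (q (φ n)) (x (φ n))) atTop (𝓝 (L 1 q₀ x')) := by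
    intro x x' hx
    unfold L
    exact (hx.const_mul 1).add (lq.mul ((continuous_conj.tendsto _).comp hx))
  have w0 := hL l0
  have w1 := hL l1
  have w2 := hL l2
  have hG : Tendsto (fun n => Gc (L 1 (q (φ n)) (z₀ (φ n))) (L 1 (q (φ n)) (z₁ (φ n))) (L 1 (q (φ n)) (z₂ (φ n))))
      atTop (𝓝 (Gc (L 1 q₀ y₀) (L 1 q₀ y₁) (L 1 q₀ y₂))) := by
    unfold Gc
    exact ((w0.add w1).add w2).div_const _
  have hP : Tendsto (fun n => Pc (L 1 (q (φ n)) (z₀ (φ n))) (L 1 (q (φ n)) (z₁ (φ n))) (L 1 (q (φ n)) (z₂ (φ n))))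
      atTop (𝓝 (Pc (L 1 q₀ y₀) (L 1 q₀ y₁) (L 1 q₀ y₂))) := by
    unfold Pc
    exact ((w0.add (w1.const_mul _)).add (w2.const_mul _)).div_const _
  have hR : Tendsto (fun n => Rc (L 1 (q (φ n)) (z₀ (φ n))) (L 1 (q (φ n)) (z₁ (φ n))) (L 1 (q (φ n)) (z₂ (φ n))))
      atTop (𝓝 (Rc (L 1 q₀ y₀) (L 1 q₀ y₁) (L 1 q₀ y₂))) := by
    unfold Rc
    exact ((w0.add (w1.const_mul _)).add (w2.const_mul _)).div_const _
  set G := Gc (L 1 q₀ y₀) (L 1 q₀ y₁) (L 1 q₀ y₂) with hGd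
  set P := Pc (L 1 q₀ y₀) (L 1 q₀ y₁) (L 1 q₀ y₂) with hPd
  set R := Rc (L 1 q₀ y₀) (L 1 q₀ y₁) (L 1 q₀ y₂) with hRd
  have hor := or_L (p := 1) (q := q₀) (by rw [norm_one]; exact hg.1) hTy.or
  rw [← hPd, ← hRd] at hor
  have hPn : 0 < ‖P‖ := lt_of_le_of_lt (norm_nonneg _) hor
  have hP0 : P ≠ 0 := norm_pos_iff.1 hPn
  set s : ℕ → ℂ := fun n => Rc (L 1 (q (φ n)) (z₀ (φ n))) (L 1 (q (φ n)) (z₁ (φ n))) (L 1 (q (φ n)) (z₂ (φ n))) /
    Pc (L 1 (q (φ n)) (z₀ (φ n))) (L 1 (q (φ n)) (z₁ (φ n))) (L 1 (q (φ n)) (z₂ (φ n))) with hs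
  have hslim : Tendsto s atTop (𝓝 (R / P)) := hR.div hP hP0
  have hQ : Tendsto (fun n => qf α β (G + P * h (s n))) atTop (𝓝 1) :=
    (hF2 q₀ F hg α β hf y₀ y₁ y₂ hTy).comp hslim
  -- bounded
  have hαβ : 0 < α - ‖β‖ := sub_pos.2 hf.1
  have hbd : ∀ᶠ n in atTop, ‖h (s n)‖ ≤ (2 / (α - ‖β‖) + 1 + ‖G‖) / ‖P‖ := by
    have h2 := hQ.eventually_lt_const (show (1 : ℝ) < 2 by norm_num)
    filter_upwards [h2] with n hn
    have h3 := qf_low (α := α) (β := β) (G + P * h (s n))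
    have h4 : ‖G + P * h (s n)‖ ^ 2 ≤ 2 / (α - ‖β‖) := by
      rw [le_div_iff₀ hαβ]; linarith
    have h5 : ‖G + P * h (s n)‖ ≤ 2 / (α - ‖β‖) + 1 := by
      nlinarith [norm_nonneg (G + P * h (s n)), sq_nonneg (‖G + P * h (s n)‖ - 1)]
    have h6 : ‖P * h (s n)‖ ≤ ‖G + P * h (s n)‖ + ‖G‖ := by
      have := norm_sub_le (G + P * h (s n)) G
      rwa [add_sub_cancel_left] at this
    rw [norm_mul] at h6
    rw [le_div_iff₀ hPn]
    linarith
  set C := (2 / (α - ‖β‖) + 1 + ‖G‖) / ‖P‖ with hC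
  -- Y_n is close to G + P h (s n)
  have hYd : Tendsto (fun n => Y (φ n) - (G + P * h (s n))) atTop (𝓝 0) := by
    have e : ∀ n, Y (φ n) - (G + P * h (s n)) =
        (Gc (L 1 (q (φ n)) (z₀ (φ n))) (L 1 (q (φ n)) (z₁ (φ n))) (L 1 (q (φ n)) (z₂ (φ n))) - G) +
        (Pc (L 1 (q (φ n)) (z₀ (φ n))) (L 1 (q (φ n)) (z₁ (φ n))) (L 1 (q (φ n)) (z₂ (φ n))) - P) * h (s n) := by
      intro n
      rw [← hX (φ n)]
      unfold Xh
      rw [hs]
      ring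
    have t1 : Tendsto (fun n => Gc (L 1 (q (φ n)) (z₀ (φ n))) (L 1 (q (φ n)) (z₁ (φ n))) (L 1 (q (φ n)) (z₂ (φ n))) - G)
        atTop (𝓝 0) := by
      have := hG.sub_const G
      rwa [sub_self] at this
    have t2 : Tendsto (fun n => (Pc (L 1 (q (φ n)) (z₀ (φ n))) (L 1 (q (φ n)) (z₁ (φ n))) (L 1 (q (φ n)) (z₂ (φ n))) - P) *
        h (s n)) atTop (𝓝 0) := by
      have t3 : Tendsto (fun n => Pc (L 1 (q (φ n)) (z₀ (φ n))) (L 1 (q (φ n)) (z₁ (φ n))) (L 1 (q (φ n)) (z₂ (φ n))) - P)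
          atTop (𝓝 0) := by
        have := hP.sub_const P
        rwa [sub_self] at this
      have t4 : Tendsto (fun n => ‖Pc (L 1 (q (φ n)) (z₀ (φ n))) (L 1 (q (φ n)) (z₁ (φ n))) (L 1 (q (φ n)) (z₂ (φ n))) - P‖ * C)
          atTop (𝓝 0) := by
        have := t3.norm.mul_const C
        rwa [norm_zero, zero_mul] at this
      refine squeeze_zero_norm' ?_ t4
      filter_upwards [hbd] with n hn
      rw [norm_mul]
      exact mul_le_mul_of_nonneg_left hn (norm_nonneg _)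
    have := t1.add t2
    rw [add_zero] at this
    exact this.congr (fun n => (e n).symm)
  -- qf at Y_n tends to 1
  have hQY : Tendsto (fun n => qf α β (Y (φ n))) atTop (𝓝 1) := by
    have hdiff : ∀ x y : ℂ, qf α β (x + y) - qf α β y =
        qf α β x + 2 * (α * (x.re * y.re + x.im * y.im) + (β * x * y).re) := by
      intro x y
      unfold qf
      rw [nsq_re, nsq_re, nsq_re]
      simp only [pow_two, add_re, add_im, mul_re, mul_im]
      ring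
    set x : ℕ → ℂ := fun n => Y (φ n) - (G + P * h (s n)) with hx
    set y : ℕ → ℂ := fun n => G + P * h (s n) with hy
    have hyb : ∀ᶠ n in atTop, ‖y n‖ ≤ ‖G‖ + ‖P‖ * C := by
      filter_upwards [hbd] with n hn
      refine (norm_add_le _ _).trans ?_
      rw [norm_mul]
      exact add_le_add le_rfl (mul_le_mul_of_nonneg_left hn (norm_nonneg _))
    have t1 : Tendsto (fun n => qf α β (x n)) atTop (𝓝 0) := by
      have := ((cont_qf α β).tendsto 0).comp hYd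
      have e0 : qf α β 0 = 0 := by simp [qf]
      rw [e0] at this
      exact this
    have t2 : Tendsto (fun n => 2 * (α * ((x n).re * (y n).re + (x n).im * (y n).im) + (β * x n * y n).re))
        atTop (𝓝 0) := by
      have t3 : Tendsto (fun n => 2 * ((|α| * 2 + ‖β‖) * (‖x n‖ * (‖G‖ + ‖P‖ * C)))) atTop (𝓝 0) := by
        have := ((hYd.norm.mul_const (‖G‖ + ‖P‖ * C)).const_mul (|α| * 2 + ‖β‖)).const_mul 2
        simpa using this
      refine squeeze_zero_norm' ?_ t3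
      filter_upwards [hyb] with n hn
      have a1 := abs_re_le_norm (x n)
      have a2 := abs_im_le_norm (x n)
      have a3 := abs_re_le_norm (y n)
      have a4 := abs_im_le_norm (y n)
      have a5 : |(β * x n * y n).re| ≤ ‖β‖ * (‖x n‖ * ‖y n‖) := by
        have := abs_re_le_norm (β * x n * y n)
        rw [norm_mul, norm_mul] at this
        linarith
      have a6 : |(x n).re * (y n).re| ≤ ‖x n‖ * ‖y n‖ := by
        rw [abs_mul]; exact mul_le_mul a1 a3 (abs_nonneg _) (norm_nonneg _)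
      have a7 : |(x n).im * (y n).im| ≤ ‖x n‖ * ‖y n‖ := by
        rw [abs_mul]; exact mul_le_mul a2 a4 (abs_nonneg _) (norm_nonneg _)
      have a8 : ‖x n‖ * ‖y n‖ ≤ ‖x n‖ * (‖G‖ + ‖P‖ * C) := mul_le_mul_of_nonneg_left hn (norm_nonneg _)
      rw [Real.norm_eq_abs, abs_mul, abs_of_pos (show (0 : ℝ) < 2 by norm_num)]
      refine mul_le_mul_of_nonneg_left ?_ (by norm_num)
      calc |α * ((x n).re * (y n).re + (x n).im * (y n).im) + (β * x n * y n).re|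
          ≤ |α * ((x n).re * (y n).re + (x n).im * (y n).im)| + |(β * x n * y n).re| := abs_add_le _ _
        _ ≤ |α| * (‖x n‖ * ‖y n‖ + ‖x n‖ * ‖y n‖) + ‖β‖ * (‖x n‖ * ‖y n‖) := by
            rw [abs_mul]
            refine add_le_add (mul_le_mul_of_nonneg_left ((abs_add_le _ _).trans (add_le_add a6 a7)) (abs_nonneg _)) a5
        _ = (|α| * 2 + ‖β‖) * (‖x n‖ * ‖y n‖) := by ring
        _ ≤ (|α| * 2 + ‖β‖) * (‖x n‖ * (‖G‖ + ‖P‖ * C)) := mul_le_mul_of_nonneg_left a8 (by positivity)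
    have t4 := (hQ.add t1).add t2
    rw [add_zero, add_zero] at t4
    refine t4.congr (fun n => ?_)
    have e1 := hdiff (x n) (y n)
    have e2 : x n + y n = Y (φ n) := by simp [hx, hy]
    rw [e2] at e1
    have e3 : qf α β (y n) = qf α β (G + P * h (s n)) := rfl
    linarith
  have hfin := hQY.sub_const 1
  rw [sub_self] at hfin
  have hev := hfin.abs
  rw [abs_zero] at hev
  obtain ⟨n, hn⟩ := (hev.eventually_lt_const hε).exists
  exact absurd (hY' (φ n)) (not_lt.2 hn.le)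

/-- the forms converge -/
theorem conic (h : ℂ → ℂ) (hF2 : F2P h) {q₀ F : ℂ} (hg : Gd q₀ F) {α : ℝ} {β : ℂ} (hf : IsForm h q₀ F α β)
    {ε : ℝ} (hε : 0 < ε) : ∃ δ > 0, ∀ q : ℂ, ‖q - q₀‖ < δ → ∀ (α' : ℝ) (β' : ℂ), IsForm h q F α' β' →
      |α' - α| ≤ ε ∧ ‖β' - β‖ ≤ ε := by
  have hα : 0 < α := lt_of_le_of_lt (norm_nonneg _) hf.1
  set K := α + ‖β‖ with hK
  have hK0 : 0 < K := by positivity
  set ε' := min (1 / 2) (ε / (4 * K)) with hε'
  have hε'0 : 0 < ε' := lt_min (by norm_num) (by positivity)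
  obtain ⟨δ, hδ, hn⟩ := near h hF2 hg hf hε'0
  refine ⟨δ, hδ, ?_⟩
  intro q hq α' β' hf'
  have hαβ' : 0 < α' - ‖β'‖ := sub_pos.2 hf'.1
  -- for unit vectors
  have key : ∀ u : ℂ, ‖u‖ = 1 → |qf α' β' u - qf α β u| ≤ ε / 2 := by
    intro u hu
    have h1 := qf_low (α := α') (β := β') u
    rw [hu] at h1
    have hpos : 0 < qf α' β' u := by nlinarith
    set t := 1 / √(qf α' β' u) with ht
    have hsq : √(qf α' β' u) ^ 2 = qf α' β' u := Real.sq_sqrt hpos.le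
    have ht2 : t ^ 2 = 1 / qf α' β' u := by rw [ht, div_pow, hsq, one_pow]
    have h2 : qf α' β' ((t : ℂ) * u) = 1 := by
      rw [qf_smul, ht2]; field_simp
    have h3 := hn q hq α' β' hf' _ h2
    rw [qf_smul, ht2] at h3
    have h4 : |qf α β u - qf α' β' u| ≤ ε' * qf α' β' u := by
      have e : qf α β u - qf α' β' u = (1 / qf α' β' u * qf α β u - 1) * qf α' β' u := by
        field_simp
      rw [e, abs_mul, abs_of_pos hpos]
      exact mul_le_mul_of_nonneg_right h3 hpos.le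
    have h5 := qf_up (α := α) (β := β) u
    rw [hu] at h5
    have h6 := abs_le.1 h4
    have hε2 : ε' ≤ 1 / 2 := min_le_left _ _
    have h7 : qf α' β' u ≤ 2 * K := by nlinarith
    rw [abs_sub_comm]
    have h8 : ε' * (2 * K) ≤ ε / 2 := by
      have : ε' ≤ ε / (4 * K) := min_le_right _ _
      calc ε' * (2 * K) ≤ ε / (4 * K) * (2 * K) := mul_le_mul_of_nonneg_right this (by positivity)
        _ = ε / 2 := by field_simp; norm_num
    calc |qf α β u - qf α' β' u| ≤ ε' * qf α' β' u := h4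
      _ ≤ ε' * (2 * K) := mul_le_mul_of_nonneg_left h7 hε'0.le
      _ ≤ ε / 2 := h8
  have e : ∀ u : ℂ, ‖u‖ = 1 → qf α' β' u - qf α β u = (α' - α) + ((β' - β) * u ^ 2).re := by
    intro u hu
    unfold qf
    rw [hu, sub_mul, sub_re]
    ring
  have hα' : |α' - α| ≤ ε / 2 := by
    have k1 := key 1 (by simp)
    have k2 := key I (by simp)
    rw [e 1 (by simp)] at k1
    rw [e I (by simp), I_sq] at k2
    have m1 := abs_le.1 k1
    have m2 := abs_le.1 k2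
    simp only [one_pow, mul_one, mul_neg, neg_re] at m1 m2
    rw [abs_le]
    constructor <;> linarith [m1.1, m1.2, m2.1, m2.2]
  refine ⟨by linarith, ?_⟩
  by_cases hb : β' - β = 0
  · rw [hb, norm_zero]; exact hε.le
  · have hbn : 0 < ‖β' - β‖ := norm_pos_iff.2 hb
    obtain ⟨u, hu⟩ := IsAlgClosed.exists_pow_nat_eq ((starRingEnd ℂ) (β' - β) / (‖β' - β‖ : ℝ)) (n := 2) (by norm_num)
    have hun : ‖u‖ = 1 := by
      have h1 : ‖u‖ ^ 2 = 1 := by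
        rw [← norm_pow, hu, norm_div, RCLike.norm_conj, norm_real, norm_norm, div_self hbn.ne']
      nlinarith [norm_nonneg u]
    have k1 := key u hun
    rw [e u hun, hu] at k1
    have h2 : ((β' - β) * ((starRingEnd ℂ) (β' - β) / (‖β' - β‖ : ℝ))).re = ‖β' - β‖ := by
      have h3 : (β' - β) * ((starRingEnd ℂ) (β' - β) / (‖β' - β‖ : ℝ)) = ((‖β' - β‖ : ℝ) : ℂ) := by
        have h4 : (β' - β) * (starRingEnd ℂ) (β' - β) = ((‖β' - β‖ : ℝ) : ℂ) ^ 2 := (nsq' _).symm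
        have h5 : ((‖β' - β‖ : ℝ) : ℂ) ≠ 0 := by exact_mod_cast hbn.ne'
        field_simp
        linear_combination h4
      rw [h3, ofReal_re]
    rw [h2] at k1
    have m1 := abs_le.1 k1
    have m2 := abs_le.1 hα'
    linarith [m1.2, m2.1]

end CcS

end Pool.Agent.Pon30
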