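import Pool.Agent.Pon30.StmtsC
import Pool.Agent.Pon30.Center46

/-! Row CENTERC of MP_02df19_gt, continuous centre functions (helper46). -/

set_option autoImplicit false

namespace Pool.Agent.Pon30

open Complex Filter Topology

variable {f : ℝ → ℝ → ℝ → ℝ}

theorem isOpen_tri : IsOpen {p : ℝ × ℝ × ℝ | Tri p.1 p.2.1 p.2.2} := by
  have h : {p : ℝ × ℝ × ℝ | Tri p.1 p.2.1 p.2.2} = {p | 0 < p.1} ∩ ({p | 0 < p.2.1} ∩ ({p | 0 < p.2.2} ∩
      ({p | p.1 < p.2.1 + p.2.2} ∩ ({p | p.2.1 < p.2.2 + p.1} ∩ {p | p.2.2 < p.1 + p.2.1})))) := by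
    ext p
    simp only [Tri, Set.mem_ofPred_eq, Set.mem_inter_iff]
  rw [h]
  have c1 : Continuous fun p : ℝ × ℝ × ℝ => p.1 := continuous_fst
  have c2 : Continuous fun p : ℝ × ℝ × ℝ => p.2.1 := continuous_fst.comp continuous_snd
  have c3 : Continuous fun p : ℝ × ℝ × ℝ => p.2.2 := continuous_snd.comp continuous_snd
  exact (isOpen_lt continuous_const c1).inter ((isOpen_lt continuous_const c2).inter
    ((isOpen_lt continuous_const c3).inter ((isOpen_lt c1 (c2.add c3)).inter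
    ((isOpen_lt c2 (c3.add c1)).inter (isOpen_lt c3 (c1.add c2))))))

theorem contDiff_T (n : WithTop ℕ∞) : ContDiff ℝ n T0 ∧ ContDiff ℝ n T1 ∧ ContDiff ℝ n T2 := by
  refine ⟨?_, ?_, ?_⟩
  · unfold T0
    exact contDiff_const.add contDiff_id
  · unfold T1
    exact contDiff_const.add (contDiff_id.mul contDiff_const)
  · unfold T2
    exact contDiff_const.add (contDiff_id.mul contDiff_const)

/-- the shape function is continuous -/
theorem shp_continuousAt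
    (ha : ContinuousOn (fun p : ℝ × ℝ × ℝ => f p.1 p.2.1 p.2.2) {p | Tri p.1 p.2.1 p.2.2})
    {s : ℂ} (hs : ‖s‖ < 1) (hw : wsum f (T0 s) (T1 s) (T2 s) ≠ 0) :
    ContinuousAt (shp f) s := by
  have ht := isTriangle_T hs
  obtain ⟨d0, d1, d2⟩ := contDiff_T 0
  have a0 : ContinuousAt T0 s := d0.continuous.continuousAt
  have a1 : ContinuousAt T1 s := d1.continuous.continuousAt
  have a2 : ContinuousAt T2 s := d2.continuous.continuousAt
  have na : ContinuousAt (fun t => ‖T1 t - T2 t‖) s := (a1.sub a2).norm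
  have nb : ContinuousAt (fun t => ‖T2 t - T0 t‖) s := (a2.sub a0).norm
  have nc : ContinuousAt (fun t => ‖T0 t - T1 t‖) s := (a0.sub a1).norm
  have hF : ∀ {a b c : ℝ}, Tri a b c →
      ContinuousAt (fun p : ℝ × ℝ × ℝ => f p.1 p.2.1 p.2.2) (a, b, c) :=
    fun h => ha.continuousAt (isOpen_tri.mem_nhds h)
  have fa : ContinuousAt (fun t => f ‖T1 t - T2 t‖ ‖T2 t - T0 t‖ ‖T0 t - T1 t‖) s :=
    ContinuousAt.comp_of_eq (hF ht) (na.prodMk (nb.prodMk nc)) rfl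
  have fb : ContinuousAt (fun t => f ‖T2 t - T0 t‖ ‖T0 t - T1 t‖ ‖T1 t - T2 t‖) s :=
    ContinuousAt.comp_of_eq (hF ht.cyc) (nb.prodMk (nc.prodMk na)) rfl
  have fc : ContinuousAt (fun t => f ‖T0 t - T1 t‖ ‖T1 t - T2 t‖ ‖T2 t - T0 t‖) s :=
    ContinuousAt.comp_of_eq (hF ht.cyc.cyc) (nc.prodMk (na.prodMk nb)) rfl
  have wa := na.mul fa
  have wb := nb.mul fb
  have wc := nc.mul fc
  have cast : ∀ {g : ℂ → ℝ}, ContinuousAt g s → ContinuousAt (fun t => ((g t : ℝ) : ℂ)) s :=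
    fun hg => Complex.continuous_ofReal.continuousAt.comp hg
  have ws : ContinuousAt (fun t => wsum f (T0 t) (T1 t) (T2 t)) s := by
    unfold wsum
    exact (wa.add wb).add wc
  have num := (((cast wa).mul a0).add ((cast wb).mul a1)).add ((cast wc).mul a2)
  exact num.div (cast ws) (by exact_mod_cast hw)

/-- the centre function is twice differentiable at the triple of sides of the standard equilateral triangle -/
theorem contDiffAt_sqrt3 (hf : IsCenterFunction f)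
    (h2 : ContDiffAt ℝ 2 (fun p : ℝ × ℝ × ℝ => f p.1 p.2.1 p.2.2) (1, 1, 1)) :
    ContDiffAt ℝ 2 (fun p : ℝ × ℝ × ℝ => f p.1 p.2.1 p.2.2) (√3, √3, √3) := by
  obtain ⟨n, hn⟩ := hf.hom
  have h3 : (0 : ℝ) < √3 := by positivity
  set φ : ℝ × ℝ × ℝ → ℝ × ℝ × ℝ := fun p => (√3)⁻¹ • p with hφ
  have hφd : ContDiff ℝ 2 φ := contDiff_id.const_smul (√3)⁻¹
  have hφ1 : φ (√3, √3, √3) = (1, 1, 1) := by
    simp only [hφ, Prod.smul_mk, smul_eq_mul]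
    rw [inv_mul_cancel₀ h3.ne']
  have hc : ContDiffAt ℝ 2 ((fun p : ℝ × ℝ × ℝ => f p.1 p.2.1 p.2.2) ∘ φ) (√3, √3, √3) := by
    refine ContDiffAt.comp _ ?_ hφd.contDiffAt
    rw [hφ1]
    exact h2
  have hc' : ContDiffAt ℝ 2 (fun p => √3 ^ n * ((fun p : ℝ × ℝ × ℝ => f p.1 p.2.1 p.2.2) ∘ φ) p)
      (√3, √3, √3) := contDiffAt_const.mul hc
  refine hc'.congr_of_eventuallyEq ?_
  have hm : {p : ℝ × ℝ × ℝ | Tri p.1 p.2.1 p.2.2} ∈ 𝓝 ((√3, √3, √3) : ℝ × ℝ × ℝ) := by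
    apply isOpen_tri.mem_nhds
    exact ⟨h3, h3, h3, by simp only; linarith, by simp only; linarith, by simp only; linarith⟩
  filter_upwards [hm] with p hp
  obtain ⟨a, b, c⟩ := p
  obtain ⟨p1, p2, p3, p4, p5, p6⟩ := hp
  simp only at p1 p2 p3 p4 p5 p6
  have hi : 0 < (√3)⁻¹ := inv_pos.2 h3
  have ht : Tri ((√3)⁻¹ * a) ((√3)⁻¹ * b) ((√3)⁻¹ * c) := by
    refine ⟨mul_pos hi p1, mul_pos hi p2, mul_pos hi p3, ?_, ?_, ?_⟩
    · rw [← mul_add]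
      exact mul_lt_mul_of_pos_left p4 hi
    · rw [← mul_add]
      exact mul_lt_mul_of_pos_left p5 hi
    · rw [← mul_add]
      exact mul_lt_mul_of_pos_left p6 hi
  have h4 := hn _ _ _ √3 ht h3
  have e : ∀ x : ℝ, √3 * ((√3)⁻¹ * x) = x := fun x => by
    rw [← mul_assoc, mul_inv_cancel₀ h3.ne', one_mul]
  rw [e, e, e] at h4
  simp only [Function.comp, hφ, Prod.smul_mk, smul_eq_mul]
  exact h4

/-- the shape function is twice differentiable at the equilateral shape -/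
theorem shp_contDiffAt (hf : IsCenterFunction f)
    (h2 : ContDiffAt ℝ 2 (fun p : ℝ × ℝ × ℝ => f p.1 p.2.1 p.2.2) (1, 1, 1)) :
    ContDiffAt ℝ 2 (shp f) 0 := by
  have hF := contDiffAt_sqrt3 hf h2
  have hw := wsum_zero hf
  have ht := isTriangle_T (s := 0) (by rw [norm_zero]; norm_num)
  obtain ⟨t1, t2, t3⟩ := T_norms
  obtain ⟨d0, d1, d2⟩ := contDiff_T 2
  have a0 : ContDiffAt ℝ 2 T0 0 := d0.contDiffAt
  have a1 : ContDiffAt ℝ 2 T1 0 := d1.contDiffAt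
  have a2 : ContDiffAt ℝ 2 T2 0 := d2.contDiffAt
  have na : ContDiffAt ℝ 2 (fun t => ‖T1 t - T2 t‖) 0 := (a1.sub a2).norm ℝ (norm_pos_iff.1 ht.1)
  have nb : ContDiffAt ℝ 2 (fun t => ‖T2 t - T0 t‖) 0 := (a2.sub a0).norm ℝ (norm_pos_iff.1 ht.2.1)
  have nc : ContDiffAt ℝ 2 (fun t => ‖T0 t - T1 t‖) 0 := (a0.sub a1).norm ℝ (norm_pos_iff.1 ht.2.2.1)
  have hF' : ∀ {g₁ g₂ g₃ : ℂ → ℝ}, ContDiffAt ℝ 2 g₁ 0 → ContDiffAt ℝ 2 g₂ 0 → ContDiffAt ℝ 2 g₃ 0 →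
      g₁ 0 = √3 → g₂ 0 = √3 → g₃ 0 = √3 → ContDiffAt ℝ 2 (fun t => f (g₁ t) (g₂ t) (g₃ t)) 0 := by
    intro g₁ g₂ g₃ k1 k2 k3 e1 e2 e3
    have hk : ContDiffAt ℝ 2 (fun t => (g₁ t, g₂ t, g₃ t)) 0 := k1.prodMk (k2.prodMk k3)
    have : ContDiffAt ℝ 2 ((fun p : ℝ × ℝ × ℝ => f p.1 p.2.1 p.2.2) ∘ fun t => (g₁ t, g₂ t, g₃ t)) 0 := by
      refine ContDiffAt.comp _ ?_ hk
      rw [e1, e2, e3]
      exact hF
    exact this
  have fa : ContDiffAt ℝ 2 (fun t => f ‖T1 t - T2 t‖ ‖T2 t - T0 t‖ ‖T0 t - T1 t‖) 0 :=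
    hF' na nb nc t1 t2 t3
  have fb : ContDiffAt ℝ 2 (fun t => f ‖T2 t - T0 t‖ ‖T0 t - T1 t‖ ‖T1 t - T2 t‖) 0 :=
    hF' nb nc na t2 t3 t1
  have fc : ContDiffAt ℝ 2 (fun t => f ‖T0 t - T1 t‖ ‖T1 t - T2 t‖ ‖T2 t - T0 t‖) 0 :=
    hF' nc na nb t3 t1 t2
  have wa := na.mul fa
  have wb := nb.mul fb
  have wc := nc.mul fc
  have cast : ∀ {g : ℂ → ℝ}, ContDiffAt ℝ 2 g 0 → ContDiffAt ℝ 2 (fun t => ((g t : ℝ) : ℂ)) 0 :=
    fun hg => Complex.ofRealCLM.contDiff.contDiffAt.comp _ hg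
  have ws : ContDiffAt ℝ 2 (fun t => wsum f (T0 t) (T1 t) (T2 t)) 0 := by
    unfold wsum
    exact (wa.add wb).add wc
  have num := (((cast wa).mul a0).add ((cast wb).mul a1)).add ((cast wc).mul a2)
  have hinv := (cast ws).inv (by exact_mod_cast hw)
  have := num.mul hinv
  refine this.congr_of_eventuallyEq (Eventually.of_forall fun t => ?_)
  simp only [shp, center, div_eq_mul_inv]
  rfl

/-- Row CENTERC. -/
theorem centerC46 (hJet : JetC) : CenterC := by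
  intro f hf hc h2 hw
  have hcont : ∀ s : ℂ, ‖s‖ < 1 → ContinuousAt (shp f) s := fun s hs =>
    shp_continuousAt hc hs (hw s hs)
  have hconj : ∃ ε > 0, ∀ s : ℂ, ‖s‖ < ε → shp f ((starRingEnd ℂ) s) = (starRingEnd ℂ) (shp f s) :=
    ⟨1, one_pos, fun s hs => shp_conj hf hs⟩
  have hrot : ∃ ε > 0, ∀ s : ℂ, ‖s‖ < ε → shp f (ω * s) = (starRingEnd ℂ) ω * shp f s :=
    ⟨1, one_pos, fun s hs => shp_rot hf hs⟩
  refine ⟨⟨⟨1, one_pos, hcont⟩, hJet _ (shp_contDiffAt hf h2) hconj hrot, hconj, hrot⟩, ?_⟩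
  intro s hs
  exact (hcont s (by simpa using hs)).continuousWithinAt

end Pool.Agent.Pon30
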