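import Pool.Agent.Pon30.Clust46
import Pool.Agent.Pon30.StmtsD30

/-!
# MP_02df19_gt, degenerate loci allowed (helper46): the values near a shape are close to the conic
-/

set_option autoImplicit false

namespace Pool.Agent.Pon30

open Complex Filter Topology

namespace ClD46

open Cl46

/-- the triangle inequality for the determinants of the centres of three members -/
def BR (h : ℂ → ℂ) : Prop := ∀ q F : ℂ, ‖q‖ < 1 → ‖F‖ < 1 → ((starRingEnd ℂ) q * F).im ≠ 0 →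
  ∀ z₀ z₁ z₂ y₀ y₁ y₂ x₀ x₁ x₂, Tz F z₀ z₁ z₂ → Tz F y₀ y₁ y₂ → Tz F x₀ x₁ x₂ →
    |br (Xh h (L 1 q z₀) (L 1 q z₁) (L 1 q z₂)) (Xh h (L 1 q y₀) (L 1 q y₁) (L 1 q y₂))| ≤
      |br (Xh h (L 1 q x₀) (L 1 q x₁) (L 1 q x₂)) (Xh h (L 1 q y₀) (L 1 q y₁) (L 1 q y₂))| +
      |br (Xh h (L 1 q x₀) (L 1 q x₁) (L 1 q x₂)) (Xh h (L 1 q z₀) (L 1 q z₁) (L 1 q z₂))|

lemma br_PQ (P Q u v : ℂ) : br (P * u + Q * (starRingEnd ℂ) u) (P * v + Q * (starRingEnd ℂ) v) =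
    (‖P‖ ^ 2 - ‖Q‖ ^ 2) * br u v := by
  rw [nsq_re, nsq_re]
  unfold br
  simp only [mul_re, mul_im, add_re, add_im, conj_re, conj_im]
  ring

lemma qf_one (u : ℂ) (hu : ‖u‖ = 1) : qf 1 0 u = 1 := by
  unfold qf
  simp [hu]

lemma br_of_HHd {h : ℂ → ℂ} (H : HHd h) : BR h := by
  intro q F hq hF hna z₀ z₁ z₂ y₀ y₁ y₂ x₀ x₁ x₂ hz hy hx
  obtain ⟨P, Q, hall, -⟩ := H 1 q F (by rw [norm_one]; exact hq) hF (by rw [one_mul]; exact hna)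
  obtain ⟨u, hu, eu⟩ := hall _ _ _ hz
  obtain ⟨v, hv, ev⟩ := hall _ _ _ hy
  obtain ⟨w, hw, ew⟩ := hall _ _ _ hx
  rw [eu, ev, ew, br_PQ, br_PQ, br_PQ, abs_mul, abs_mul, abs_mul, ← mul_add]
  apply mul_le_mul_of_nonneg_left _ (abs_nonneg _)
  exact tri_ineq (α := 1) (β := 0) (by simp) (qf_one u hu) (qf_one v hv) (qf_one w hw)

lemma two_ineq {h : ℂ → ℂ} (H : BR h) {q F : ℂ} (hq : ‖q‖ < 1) (hF : ‖F‖ < 1)
    (hna : ((starRingEnd ℂ) q * F).im ≠ 0) (hG : GoodP q F) (z : Fin 3 → Fin 3 → ℂ)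
    (hz : ∀ k, Tz F (z k 0) (z k 1) (z k 2))
    (hm : ∀ i j, i ≠ j → (z i 0 * z i 1 * z i 2) ^ 2 ≠ (z j 0 * z j 1 * z j 2) ^ 2)
    (l : Filter ℂ) [l.NeBot] (hl : l ≤ 𝓝 (Sh q (z 0))) (n : ℂ → ℝ) (V : ℂ → ℂ) (n' : ℝ) (V' : ℂ)
    (hn : Tendsto n l (𝓝 n')) (hV : Tendsto V l (𝓝 V')) (hn0 : ∀ s, 0 ≤ n s)
    (hVe : ∀ s, V s = n s * (Gc (L 1 q (z 0 0)) (L 1 q (z 0 1)) (L 1 q (z 0 2)) +
      Pc (L 1 q (z 0 0)) (L 1 q (z 0 1)) (L 1 q (z 0 2)) * h s)) (X₁ X₂ : ℂ)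
    (hX₁ : Xh h (L 1 q (z 1 0)) (L 1 q (z 1 1)) (L 1 q (z 1 2)) = X₁)
    (hX₂ : Xh h (L 1 q (z 2 0)) (L 1 q (z 2 1)) (L 1 q (z 2 2)) = X₂) :
    |br V' X₁| ≤ |br V' X₂| + n' * |br X₁ X₂| ∧ n' * |br X₁ X₂| ≤ |br V' X₁| + |br V' X₂| := by
  have hq0 : q ≠ 0 := by
    rintro rfl
    apply hna
    simp
  have hF0 : F ≠ 0 := by
    rintro rfl
    apply hna
    simp
  have hP0 : Pc (L 1 q (z 0 0)) (L 1 q (z 0 1)) (L 1 q (z 0 2)) ≠ 0 := by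
    intro h0
    have h1 := or_L (p := 1) (q := q) (by rw [norm_one]; exact hq) (hz 0).or
    rw [h0, norm_zero] at h1
    exact absurd h1 (not_lt.mpr (norm_nonneg _))
  set x₀ : ℂ × ℂ × (Fin 3 → Fin 3 → ℂ) := (q, F, z) with hx₀
  -- the relation
  set R : Set (ℂ × (ℂ × ℂ × (Fin 3 → Fin 3 → ℂ))) := {y | ‖y.2.1‖ < 1 ∧ ‖y.2.2.1‖ < 1 ∧
    (∀ k, Tz y.2.2.1 (y.2.2.2 k 0) (y.2.2.2 k 1) (y.2.2.2 k 2)) ∧ Sh y.2.1 (y.2.2.2 0) = y.1 ∧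
    Sh y.2.1 (y.2.2.2 1) = Sh q (z 1) ∧ Sh y.2.1 (y.2.2.2 2) = Sh q (z 2)} with hR
  set 𝓖 : Filter (ℂ × (ℂ × ℂ × (Fin 3 → Fin 3 → ℂ))) := (l ×ˢ 𝓝 x₀) ⊓ 𝓟 R with h𝓖
  have hne : 𝓖.NeBot := by
    rw [h𝓖, inf_principal_neBot_iff]
    intro W hW
    obtain ⟨A, hA, B, hB, hAB⟩ := mem_prod_iff.mp hW
    have hev := threeA92 q F hq hF hq0 hF0 hG z hz hm B hB
    have hc : ContinuousAt (fun s : ℂ => (fun k : Fin 3 => if k = 0 then s else Sh q (z k))) (Sh q (z 0)) := by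
      rw [continuousAt_pi]
      intro k
      by_cases hk : k = 0
      · simp only [hk, if_true]
        exact continuousAt_id
      · simp only [hk, if_false]
        exact continuousAt_const
    have hv : (fun k : Fin 3 => if k = 0 then Sh q (z 0) else Sh q (z k)) = fun k => Sh q (z k) := by
      funext k
      by_cases hk : k = 0
      · simp [hk]
      · simp [hk]
    have hev' := hc.tendsto.eventually (by rw [hv]; exact hev)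
    obtain ⟨s, hsA, hs⟩ := ((eventually_mem_set.mpr hA).and (hev'.filter_mono hl)).exists
    obtain ⟨q', F', z', hmem, hq', hF', hT, hS⟩ := hs
    refine ⟨(s, q', F', z'), hAB ⟨hsA, hmem⟩, hq', hF', hT, ?_, ?_, ?_⟩
    · have := hS 0
      simpa using this
    · have := hS 1
      simpa using this
    · have := hS 2
      simpa using this
  have t1 : Tendsto Prod.fst 𝓖 l := tendsto_fst.mono_left inf_le_left
  have t2 : Tendsto Prod.snd 𝓖 (𝓝 x₀) := tendsto_snd.mono_left inf_le_left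
  have hRev : ∀ᶠ y in 𝓖, y ∈ R := (eventually_principal.mpr fun y hy => hy).filter_mono inf_le_right
  -- continuity of `G` and `P`
  have hGc : ∀ k, Continuous fun x : ℂ × ℂ × (Fin 3 → Fin 3 → ℂ) =>
      Gc (L 1 x.1 (x.2.2 k 0)) (L 1 x.1 (x.2.2 k 1)) (L 1 x.1 (x.2.2 k 2)) := by
    intro k
    unfold Gc L
    fun_prop
  have hPc : ∀ k, Continuous fun x : ℂ × ℂ × (Fin 3 → Fin 3 → ℂ) =>
      Pc (L 1 x.1 (x.2.2 k 0)) (L 1 x.1 (x.2.2 k 1)) (L 1 x.1 (x.2.2 k 2)) := by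
    intro k
    unfold Pc L
    fun_prop
  have cg := fun k => ((hGc k).tendsto x₀).comp t2
  have cp := fun k => ((hPc k).tendsto x₀).comp t2
  have cn := hn.comp t1
  have cV := hV.comp t1
  have cnC : Tendsto (fun y => ((n y.1 : ℝ) : ℂ)) 𝓖 (𝓝 (n' : ℂ)) :=
    (Complex.continuous_ofReal.tendsto n').comp cn
  set G₀ := Gc (L 1 q (z 0 0)) (L 1 q (z 0 1)) (L 1 q (z 0 2)) with hG₀
  set P₀ := Pc (L 1 q (z 0 0)) (L 1 q (z 0 1)) (L 1 q (z 0 2)) with hP₀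
  -- the three vectors
  set A : ℂ × (ℂ × ℂ × (Fin 3 → Fin 3 → ℂ)) → ℂ := fun y =>
    (n y.1 : ℂ) * Gc (L 1 y.2.1 (y.2.2.2 0 0)) (L 1 y.2.1 (y.2.2.2 0 1)) (L 1 y.2.1 (y.2.2.2 0 2)) +
    Pc (L 1 y.2.1 (y.2.2.2 0 0)) (L 1 y.2.1 (y.2.2.2 0 1)) (L 1 y.2.1 (y.2.2.2 0 2)) *
      ((V y.1 - n y.1 * G₀) / P₀) with hA
  set B : ℂ × (ℂ × ℂ × (Fin 3 → Fin 3 → ℂ)) → ℂ := fun y =>
    Gc (L 1 y.2.1 (y.2.2.2 1 0)) (L 1 y.2.1 (y.2.2.2 1 1)) (L 1 y.2.1 (y.2.2.2 1 2)) +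
    Pc (L 1 y.2.1 (y.2.2.2 1 0)) (L 1 y.2.1 (y.2.2.2 1 1)) (L 1 y.2.1 (y.2.2.2 1 2)) * h (Sh q (z 1)) with hB
  set C : ℂ × (ℂ × ℂ × (Fin 3 → Fin 3 → ℂ)) → ℂ := fun y =>
    Gc (L 1 y.2.1 (y.2.2.2 2 0)) (L 1 y.2.1 (y.2.2.2 2 1)) (L 1 y.2.1 (y.2.2.2 2 2)) +
    Pc (L 1 y.2.1 (y.2.2.2 2 0)) (L 1 y.2.1 (y.2.2.2 2 1)) (L 1 y.2.1 (y.2.2.2 2 2)) * h (Sh q (z 2)) with hC
  have cA : Tendsto A 𝓖 (𝓝 V') := by
    have e : V' = (n' : ℂ) * G₀ + P₀ * ((V' - n' * G₀) / P₀) := by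
      field_simp
      ring
    rw [e]
    exact (cnC.mul (cg 0)).add ((cp 0).mul ((cV.sub (cnC.mul tendsto_const_nhds)).div_const P₀))
  have cB : Tendsto B 𝓖 (𝓝 X₁) := by
    rw [← hX₁]
    exact (cg 1).add ((cp 1).mul tendsto_const_nhds)
  have cC : Tendsto C 𝓖 (𝓝 X₂) := by
    rw [← hX₂]
    exact (cg 2).add ((cp 2).mul tendsto_const_nhds)
  have bAB : Tendsto (fun y => |br (A y) (B y)|) 𝓖 (𝓝 |br V' X₁|) :=
    ((br_cont.tendsto (V', X₁)).comp (cA.prodMk_nhds cB)).abs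
  have bAC : Tendsto (fun y => |br (A y) (C y)|) 𝓖 (𝓝 |br V' X₂|) :=
    ((br_cont.tendsto (V', X₂)).comp (cA.prodMk_nhds cC)).abs
  have bBC : Tendsto (fun y => |br (B y) (C y)|) 𝓖 (𝓝 |br X₁ X₂|) :=
    ((br_cont.tendsto (X₁, X₂)).comp (cB.prodMk_nhds cC)).abs
  -- nearby pairs are not aligned
  have hnaev : ∀ᶠ y in 𝓖, ((starRingEnd ℂ) y.2.1 * y.2.2.1).im ≠ 0 := by
    have hc : Continuous fun x : ℂ × ℂ × (Fin 3 → Fin 3 → ℂ) => ((starRingEnd ℂ) x.1 * x.2.1).im := by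
      fun_prop
    exact t2.eventually (hc.continuousAt.eventually_ne hna)
  have key : ∀ᶠ y in 𝓖, |br (A y) (B y)| ≤ |br (A y) (C y)| + n y.1 * |br (B y) (C y)| ∧
      n y.1 * |br (B y) (C y)| ≤ |br (A y) (B y)| + |br (A y) (C y)| := by
    filter_upwards [hRev, hnaev] with y hy hy2
    obtain ⟨s, q', F', z'⟩ := y
    obtain ⟨hq', hF', hT, hS0, hS1, hS2⟩ := hy
    simp only at hq' hF' hT hS0 hS1 hS2 hy2
    have i1 := H q' F' hq' hF' hy2 _ _ _ _ _ _ _ _ _ (hT 0) (hT 1) (hT 2)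
    have i2 := H q' F' hq' hF' hy2 _ _ _ _ _ _ _ _ _ (hT 1) (hT 2) (hT 0)
    rw [Xh_Sh, Xh_Sh, Xh_Sh, hS0, hS1, hS2] at i1 i2
    have eA : A (s, q', F', z') = (n s : ℝ) * (Gc (L 1 q' (z' 0 0)) (L 1 q' (z' 0 1)) (L 1 q' (z' 0 2)) +
        Pc (L 1 q' (z' 0 0)) (L 1 q' (z' 0 1)) (L 1 q' (z' 0 2)) * h s) := by
      simp only [hA, hVe]
      field_simp
      ring
    have eB : B (s, q', F', z') = Gc (L 1 q' (z' 1 0)) (L 1 q' (z' 1 1)) (L 1 q' (z' 1 2)) +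
        Pc (L 1 q' (z' 1 0)) (L 1 q' (z' 1 1)) (L 1 q' (z' 1 2)) * h (Sh q (z 1)) := rfl
    have eC : C (s, q', F', z') = Gc (L 1 q' (z' 2 0)) (L 1 q' (z' 2 1)) (L 1 q' (z' 2 2)) +
        Pc (L 1 q' (z' 2 0)) (L 1 q' (z' 2 1)) (L 1 q' (z' 2 2)) * h (Sh q (z 2)) := rfl
    rw [← eB, ← eC] at i1 i2
    have hns := hn0 s
    simp only
    rw [eA, br_smul_left, br_smul_left, abs_mul, abs_mul, abs_of_nonneg hns]
    constructor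
    · rw [abs_br_swap (C _) (B _), abs_br_swap (C _) (Gc _ _ _ + _)] at i1
      nlinarith [mul_le_mul_of_nonneg_left i1 hns]
    · nlinarith [mul_le_mul_of_nonneg_left i2 hns]
  exact ⟨le_of_tendsto_of_tendsto bAB (bAC.add (cn.mul bBC)) (key.mono fun y hy => hy.1),
    le_of_tendsto_of_tendsto (cn.mul bBC) (bAB.add bAC) (key.mono fun y hy => hy.2)⟩

/-- **F2.** The values of `h` near the shape of a member of a good pair are close to the conic of the pair. -/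
theorem clustD46 {h : ℂ → ℂ} (H : BR h) (hrot : ∀ s : ℂ, ‖s‖ < 1 → h (ω * s) = (starRingEnd ℂ) ω * h s) {q F : ℂ}
    (hq : ‖q‖ < 1) (hF : ‖F‖ < 1) (hna : ((starRingEnd ℂ) q * F).im ≠ 0) (hG : GoodP q F) {α : ℝ} {β : ℂ}
    (hb : ‖β‖ < α) (hall : ∀ z₀ z₁ z₂, Tz F z₀ z₁ z₂ → qf α β (Xh h (L 1 q z₀) (L 1 q z₁) (L 1 q z₂)) = 1)
    (hsurj : ∀ Y : ℂ, qf α β Y = 1 → ∃ z₀ z₁ z₂, Tz F z₀ z₁ z₂ ∧ Xh h (L 1 q z₀) (L 1 q z₁) (L 1 q z₂) = Y)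
    {z₀ z₁ z₂ : ℂ} (hz : Tz F z₀ z₁ z₂) :
    Tendsto (fun s => qf α β (Gc (L 1 q z₀) (L 1 q z₁) (L 1 q z₂) + Pc (L 1 q z₀) (L 1 q z₁) (L 1 q z₂) * h s))
      (𝓝 (Rc (L 1 q z₀) (L 1 q z₁) (L 1 q z₂) / Pc (L 1 q z₀) (L 1 q z₁) (L 1 q z₂))) (𝓝 1) := by
  rw [tendsto_iff_ultrafilter]
  intro g hg
  set G := Gc (L 1 q z₀) (L 1 q z₁) (L 1 q z₂) with hGG
  set P := Pc (L 1 q z₀) (L 1 q z₁) (L 1 q z₂) with hPP
  set n : ℂ → ℝ := fun s => (1 + ‖G + P * h s‖)⁻¹ with hn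
  set V : ℂ → ℂ := fun s => (n s : ℂ) * (G + P * h s) with hV
  have hnpos : ∀ s, 0 < n s := fun s => by
    simp only [hn]
    have := norm_nonneg (G + P * h s)
    positivity
  have hVn : ∀ s, ‖V s‖ + n s = 1 := by
    intro s
    have h1 := norm_nonneg (G + P * h s)
    simp only [hV]
    rw [norm_mul, Complex.norm_real, Real.norm_of_nonneg (hnpos s).le]
    have h2 : n s * (1 + ‖G + P * h s‖) = 1 := by
      simp only [hn]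
      exact inv_mul_cancel₀ (by positivity)
    linear_combination h2
  -- the limits
  have hK : IsCompact (Metric.closedBall (0 : ℂ) 1 ×ˢ Set.Icc (0 : ℝ) 1) :=
    (isCompact_closedBall 0 1).prod isCompact_Icc
  have hmem : ∀ s, (V s, n s) ∈ Metric.closedBall (0 : ℂ) 1 ×ˢ Set.Icc (0 : ℝ) 1 := by
    intro s
    have h1 := hVn s
    have h2 := hnpos s
    have h3 := norm_nonneg (V s)
    refine ⟨?_, ?_, ?_⟩
    · rw [mem_closedBall_zero_iff]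
      linarith
    · exact h2.le
    · simp only
      linarith
  obtain ⟨⟨V', n'⟩, hx, hlim⟩ := hK.ultrafilter_le_nhds (g.map fun s => (V s, n s))
    (by rw [le_principal_iff]; exact Filter.mem_map.mpr (Filter.univ_mem' hmem))
  have hlim' : Tendsto (fun s => (V s, n s)) g (𝓝 (V', n')) := hlim
  have lV : Tendsto V g (𝓝 V') := (continuous_fst.tendsto _).comp hlim'
  have ln : Tendsto n g (𝓝 n') := (continuous_snd.tendsto _).comp hlim'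
  have hsum : ‖V'‖ + n' = 1 := by
    have h1 : Tendsto (fun s => ‖V s‖ + n s) g (𝓝 (‖V'‖ + n')) := lV.norm.add ln
    have h2 : (fun s => ‖V s‖ + n s) = fun _ => (1 : ℝ) := funext hVn
    rw [h2] at h1
    exact (tendsto_nhds_unique h1 tendsto_const_nhds)
  have h1q : ‖q‖ < ‖(1 : ℂ)‖ := by rw [norm_one]; exact hq
  set X := Xh h (L 1 q z₀) (L 1 q z₁) (L 1 q z₂) with hX
  have hXQ : qf α β X = 1 := hall _ _ _ hz
  -- the inequalities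
  have hin : ∀ Y Z : ℂ, qf α β Y = 1 → qf α β Z = 1 → br Y X ≠ 0 → br Z X ≠ 0 → br Y Z ≠ 0 →
      |br V' Y| ≤ |br V' Z| + n' * |br Y Z| ∧ n' * |br Y Z| ≤ |br V' Y| + |br V' Z| := by
    intro Y Z hY hZ hYX hZX hYZ
    obtain ⟨y₀, y₁, y₂, hy, eY⟩ := hsurj Y hY
    obtain ⟨x₀, x₁, x₂, hx, eZ⟩ := hsurj Z hZ
    set z : Fin 3 → Fin 3 → ℂ := ![![z₀, z₁, z₂], ![y₀, y₁, y₂], ![x₀, x₁, x₂]] with hzz
    have m01 : (z₀ * z₁ * z₂) ^ 2 ≠ (y₀ * y₁ * y₂) ^ 2 := by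
      apply memb_ne hrot h1q hF hz hy
      rw [eY, br_swap]
      exact neg_ne_zero.mpr hYX
    have m02 : (z₀ * z₁ * z₂) ^ 2 ≠ (x₀ * x₁ * x₂) ^ 2 := by
      apply memb_ne hrot h1q hF hz hx
      rw [eZ, br_swap]
      exact neg_ne_zero.mpr hZX
    have m12 : (y₀ * y₁ * y₂) ^ 2 ≠ (x₀ * x₁ * x₂) ^ 2 := by
      apply memb_ne hrot h1q hF hy hx
      rw [eY, eZ]
      exact hYZ
    have hT : ∀ k, Tz F (z k 0) (z k 1) (z k 2) := by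
      intro k
      fin_cases k
      · exact hz
      · exact hy
      · exact hx
    have hm : ∀ i j, i ≠ j → (z i 0 * z i 1 * z i 2) ^ 2 ≠ (z j 0 * z j 1 * z j 2) ^ 2 := by
      intro i j hij
      fin_cases i <;> fin_cases j
      · exact absurd rfl hij
      · exact m01
      · exact m02
      · exact m01.symm
      · exact absurd rfl hij
      · exact m12
      · exact m02.symm
      · exact m12.symm
      · exact absurd rfl hij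
    exact two_ineq H hq hF hna hG z hT hm g hg n V n' V' ln lV (fun s => (hnpos s).le) (fun s => rfl) Y Z eY eZ
  obtain ⟨hn'pos, hQ⟩ := final_alg hb hXQ hsum (fun Y Z a b c d e => (hin Y Z a b c d e).1)
    (fun Y Z a b c d e => (hin Y Z a b c d e).2)
  -- conclusion
  have e1 : ∀ s, qf α β (G + P * h s) = (n s ^ 2)⁻¹ * qf α β (V s) := by
    intro s
    simp only [hV]
    rw [qf_ofReal_mul]
    have := (hnpos s).ne'
    field_simp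
  have e2 : Tendsto (fun s => (n s ^ 2)⁻¹ * qf α β (V s)) g (𝓝 ((n' ^ 2)⁻¹ * qf α β V')) :=
    ((ln.pow 2).inv₀ (by positivity)).mul (((qf_cont α β).tendsto V').comp lV)
  rw [hQ, inv_mul_cancel₀ (by positivity)] at e2
  exact e2.congr fun s => (e1 s).symm

end ClD46

/-- **D1.** -/
theorem f2D46 : F2D := by
  intro h H hS q F hg α β hf z₀ z₁ z₂ hz
  exact ClD46.clustD46 (ClD46.br_of_HHd H) hS.rot hg.1 hg.2.1 hg.2.2.2.2.2 hg.2.2.2.2.1 hf.1 hf.2.1 hf.2.2 hz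

end Pool.Agent.Pon30
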