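import Pool.Agent.Pon30.StmtsS82
import Pool.Agent.Pon30.Basic

/-!
# MP_02df19_gt, stage 3: the conic of a pair depends continuously on the pair
-/

set_option autoImplicit false

namespace Pool.Agent.Pon30

open Complex Filter Topology

/-- `α`, `β` is the form of the locus of the pair `1`, `q`, `F` (all members on it, the whole ellipse attained) -/
structure Frm (h : ℂ → ℂ) (q F : ℂ) (α : ℝ) (β : ℂ) : Prop where
  pos : ‖β‖ < α
  mem : ∀ z₀ z₁ z₂, Tz F z₀ z₁ z₂ → qf α β (Xh h (L 1 q z₀) (L 1 q z₁) (L 1 q z₂)) = 1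
  surj : ∀ Y, qf α β Y = 1 → ∃ z₀ z₁ z₂, Tz F z₀ z₁ z₂ ∧ Xh h (L 1 q z₀) (L 1 q z₁) (L 1 q z₂) = Y

/-- the values of `h` near the shape of each member of the pair are on the conic of the pair in the limit (row F2) -/
def Lim1 (h : ℂ → ℂ) (q F : ℂ) (α : ℝ) (β : ℂ) : Prop := ∀ z₀ z₁ z₂, Tz F z₀ z₁ z₂ →
  Tendsto (fun s => qf α β (Gc (L 1 q z₀) (L 1 q z₁) (L 1 q z₂) + Pc (L 1 q z₀) (L 1 q z₁) (L 1 q z₂) * h s))
    (𝓝 (Rc (L 1 q z₀) (L 1 q z₁) (L 1 q z₂) / Pc (L 1 q z₀) (L 1 q z₁) (L 1 q z₂))) (𝓝 1)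

lemma qf_lower {α : ℝ} {β : ℂ} (v : ℂ) : (α - ‖β‖) * ‖v‖ ^ 2 ≤ qf α β v := by
  unfold qf
  have h1 : |(β * v ^ 2).re| ≤ ‖β‖ * ‖v‖ ^ 2 := by
    have := Complex.abs_re_le_norm (β * v ^ 2)
    rwa [norm_mul, norm_pow] at this
  have h2 := neg_le_of_abs_le h1
  nlinarith

lemma qf_pos' {α : ℝ} {β : ℂ} (h : ‖β‖ < α) {v : ℂ} (hv : v ≠ 0) : 0 < qf α β v := by
  have h1 := qf_lower (α := α) (β := β) v
  have h2 : 0 < ‖v‖ := norm_pos_iff.2 hv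
  have h3 : 0 < (α - ‖β‖) * ‖v‖ ^ 2 := mul_pos (by linarith) (by positivity)
  linarith

lemma qf_smul (α : ℝ) (β v : ℂ) (r : ℝ) : qf α β ((r : ℂ) * v) = r ^ 2 * qf α β v := by
  unfold qf
  rw [norm_mul, Complex.norm_real, Real.norm_eq_abs, mul_pow, sq_abs]
  have e : (β * ((r : ℂ) * v) ^ 2).re = r ^ 2 * (β * v ^ 2).re := by
    have : β * ((r : ℂ) * v) ^ 2 = ((r ^ 2 : ℝ) : ℂ) * (β * v ^ 2) := by
      push_cast
      ring
    rw [this, Complex.re_ofReal_mul]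
  rw [e]
  ring

lemma continuous_qf (α : ℝ) (β : ℂ) : Continuous (qf α β) := by
  unfold qf
  fun_prop

/-- forms converge if unit vectors of the forms converge to unit vectors of the limit form -/
lemma forms_lim {ι : Type} {l : Filter ι} (A : ι → ℝ) (B : ι → ℂ) (α : ℝ) (β : ℂ) (h0 : ‖β‖ < α)
    (hpos : ∀ᶠ i in l, ‖B i‖ < A i)
    (hY : ∀ Y : ι → ℂ, (∀ᶠ i in l, qf (A i) (B i) (Y i) = 1) → Tendsto (fun i => qf α β (Y i)) l (𝓝 1)) :
    Tendsto A l (𝓝 α) ∧ Tendsto B l (𝓝 β) := by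
  have key : ∀ v : ℂ, v ≠ 0 → Tendsto (fun i => qf (A i) (B i) v) l (𝓝 (qf α β v)) := by
    intro v hv
    have h1 := hY (fun i => ((1 / √(qf (A i) (B i) v) : ℝ) : ℂ) * v) (by
      filter_upwards [hpos] with i hi
      have hq := qf_pos' hi hv
      rw [qf_smul, div_pow, Real.sq_sqrt hq.le, one_pow]
      field_simp)
    have hv0 : qf α β v ≠ 0 := (qf_pos' h0 hv).ne'
    have h2 : Tendsto (fun i => qf α β v / (qf α β (((1 / √(qf (A i) (B i) v) : ℝ) : ℂ) * v))) l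
        (𝓝 (qf α β v / 1)) := tendsto_const_nhds.div h1 one_ne_zero
    rw [div_one] at h2
    refine h2.congr' ?_
    filter_upwards [hpos] with i hi
    have hq := qf_pos' hi hv
    rw [qf_smul, div_pow, Real.sq_sqrt hq.le, one_pow]
    field_simp
  have k1 := key 1 one_ne_zero
  have k2 := key I I_ne_zero
  have k3 := key (1 + I) (by
    intro h
    have := congrArg Complex.re h
    simp at this)
  have e1 : ∀ (a : ℝ) (b : ℂ), qf a b 1 = a + b.re := by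
    intro a b
    simp [qf]
  have e2 : ∀ (a : ℝ) (b : ℂ), qf a b I = a - b.re := by
    intro a b
    simp [qf]
    ring
  have e3 : ∀ (a : ℝ) (b : ℂ), qf a b (1 + I) = 2 * a - 2 * b.im := by
    intro a b
    have n : ‖(1 + I : ℂ)‖ ^ 2 = 2 := by
      rw [nsq_re]
      simp
      norm_num
    have m : (1 + I : ℂ) ^ 2 = 2 * I := by
      ring_nf
      rw [I_sq]
      ring
    unfold qf
    rw [n, m]
    simp
    ring
  simp only [e1, e2, e3] at k1 k2 k3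
  have hA : Tendsto A l (𝓝 α) := by
    have := (k1.add k2).div_const 2
    refine (this.congr fun i => ?_).trans_eq ?_
    · ring
    · congr 1
      ring
  have hre : Tendsto (fun i => (B i).re) l (𝓝 β.re) := by
    have := (k1.sub hA)
    refine (this.congr fun i => ?_).trans_eq ?_
    · ring
    · congr 1
      ring
  have him : Tendsto (fun i => (B i).im) l (𝓝 β.im) := by
    have := (hA.sub (k3.div_const 2))
    refine (this.congr fun i => ?_).trans_eq ?_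
    · ring
    · congr 1
      ring
  refine ⟨hA, ?_⟩
  have h5 : Tendsto (fun i => (((B i).re : ℝ) : ℂ) + (((B i).im : ℝ) : ℂ) * I) l
      (𝓝 ((β.re : ℂ) + (β.im : ℂ) * I)) :=
    ((Complex.continuous_ofReal.tendsto _).comp hre).add
      (((Complex.continuous_ofReal.tendsto _).comp him).mul_const I)
  simpa only [Complex.re_add_im] using h5

/-! ## limits of members -/

lemma PR_area {z₀ z₁ z₂ : ℂ} (n₀ : ‖z₀‖ = 1) (n₁ : ‖z₁‖ = 1) (n₂ : ‖z₂‖ = 1) :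
    ((‖Pc z₀ z₁ z₂‖ ^ 2 - ‖Rc z₀ z₁ z₂‖ ^ 2 : ℝ) : ℂ) * (9 * (z₀ * z₁ * z₂)) =
      (ω - (starRingEnd ℂ) ω) * ((z₀ - z₁) * (z₁ - z₂) * (z₂ - z₀)) := by
  have c0 : z₀ * (starRingEnd ℂ) z₀ = 1 := by rw [← nsq, n₀]; norm_num
  have c1 : z₁ * (starRingEnd ℂ) z₁ = 1 := by rw [← nsq, n₁]; norm_num
  have c2 : z₂ * (starRingEnd ℂ) z₂ = 1 := by rw [← nsq, n₂]; norm_num
  have w1 := ω_sq
  have w2 := cjω_sq
  have w3 := ω_mul_cj
  rw [Complex.ofReal_sub, nsq, nsq]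
  unfold Pc Rc
  simp only [map_div₀, map_add, map_mul, Complex.conj_conj, map_ofNat]
  generalize (starRingEnd ℂ) ω = v at *
  generalize (starRingEnd ℂ) z₀ = a at *
  generalize (starRingEnd ℂ) z₁ = b at *
  generalize (starRingEnd ℂ) z₂ = c at *
  have e : ((z₀ + v * z₁ + ω * z₂) / 3 * ((a + ω * b + v * c) / 3) -
      (z₀ + ω * z₁ + v * z₂) / 3 * ((a + v * b + ω * c) / 3)) * 9 =
      (ω - v) * (z₀ * b - z₁ * a + z₁ * c - z₂ * b + z₂ * a - z₀ * c) := by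
    linear_combination (z₂ * b - z₁ * c) * (w1 - w2)
  linear_combination (z₀ * z₁ * z₂) * e - (ω - v) * ((z₂ * z₁ ^ 2 - z₁ * z₂ ^ 2) * c0 +
    (z₀ * z₂ ^ 2 - z₂ * z₀ ^ 2) * c1 + (z₁ * z₀ ^ 2 - z₀ * z₁ ^ 2) * c2)

lemma Tz_of_limit {F z₀ z₁ z₂ : ℂ} (hF : ‖F‖ < 1) (n₀ : ‖z₀‖ = 1) (n₁ : ‖z₁‖ = 1) (n₂ : ‖z₂‖ = 1)
    (hor : ‖Rc z₀ z₁ z₂‖ ≤ ‖Pc z₀ z₁ z₂‖) (hs : z₀ * z₁ + z₀ * z₂ + z₁ * z₂ = - F) : Tz F z₀ z₁ z₂ := by
  refine ⟨n₀, n₁, n₂, lt_of_le_of_ne hor ?_, hs⟩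
  intro he
  have h1 := PR_area n₀ n₁ n₂
  rw [he, sub_self, Complex.ofReal_zero, zero_mul] at h1
  have h2 : (z₀ - z₁) * (z₁ - z₂) * (z₂ - z₀) = 0 := by
    rcases mul_eq_zero.1 h1.symm with h | h
    · exfalso
      have h3 := congrArg Complex.im h
      rw [Complex.sub_im, Complex.conj_im, ω_im, Complex.zero_im] at h3
      have h4 : (0 : ℝ) < √3 := Real.sqrt_pos.2 (by norm_num)
      linarith
    · exact h
  have key : ∀ a b : ℂ, ‖a‖ = 1 → ‖b‖ = 1 → a * a + a * b + a * b = - F → False := by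
    intro a b ha hb hab
    have h3 : ‖F‖ = ‖a‖ * ‖a + 2 * b‖ := by
      rw [← norm_neg F, ← hab, ← norm_mul]
      congr 1
      ring
    rw [ha, one_mul] at h3
    have h4 : ‖2 * b‖ ≤ ‖a + 2 * b‖ + ‖a‖ := by
      have := norm_sub_le (a + 2 * b) a
      rwa [add_sub_cancel_left] at this
    rw [norm_mul, hb, ha] at h4
    norm_num at h4
    linarith
  rcases mul_eq_zero.1 h2 with h | h
  · rcases mul_eq_zero.1 h with h | h
    · have e : z₀ = z₁ := sub_eq_zero.1 h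
      subst e
      exact key z₀ z₂ n₀ n₂ (by linear_combination hs)
    · have e : z₁ = z₂ := sub_eq_zero.1 h
      subst e
      exact key z₁ z₀ n₁ n₀ (by linear_combination hs)
  · have e : z₂ = z₀ := sub_eq_zero.1 h
    subst e
    exact key z₂ z₁ n₂ n₁ (by linear_combination hs)

/-- Fourier coordinates of the member `z` in the plane of the pair `1`, `q` -/
noncomputable def Gw (q : ℂ) (z : Fin 3 → ℂ) : ℂ := Gc (L 1 q (z 0)) (L 1 q (z 1)) (L 1 q (z 2))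
noncomputable def Pw (q : ℂ) (z : Fin 3 → ℂ) : ℂ := Pc (L 1 q (z 0)) (L 1 q (z 1)) (L 1 q (z 2))
noncomputable def Rw (q : ℂ) (z : Fin 3 → ℂ) : ℂ := Rc (L 1 q (z 0)) (L 1 q (z 1)) (L 1 q (z 2))

lemma Xh_w (h : ℂ → ℂ) (q : ℂ) (z : Fin 3 → ℂ) :
    Xh h (L 1 q (z 0)) (L 1 q (z 1)) (L 1 q (z 2)) = Gw q z + Pw q z * h (Rw q z / Pw q z) := rfl

lemma cont_G : Continuous fun x : ℂ × (Fin 3 → ℂ) => Gw x.1 x.2 := by
  unfold Gw Gc L
  have := Complex.continuous_conj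
  fun_prop

lemma cont_P : Continuous fun x : ℂ × (Fin 3 → ℂ) => Pw x.1 x.2 := by
  unfold Pw Pc L
  have := Complex.continuous_conj
  fun_prop

lemma cont_R : Continuous fun x : ℂ × (Fin 3 → ℂ) => Rw x.1 x.2 := by
  unfold Rw Rc L
  have := Complex.continuous_conj
  fun_prop

lemma Pw_ne {q F : ℂ} (hq : ‖q‖ < 1) {z : Fin 3 → ℂ} (hz : Tz F (z 0) (z 1) (z 2)) : Pw q z ≠ 0 := by
  intro h
  have h1 := or_L (p := 1) (q := q) (by simpa using hq) hz.or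
  unfold Pw at h
  rw [h, norm_zero] at h1
  exact absurd h1 (not_lt.2 (norm_nonneg _))

/-- limits of members are members -/
lemma Tz_lim {F : ℂ} (hF : ‖F‖ < 1) {z : ℕ → Fin 3 → ℂ} (hz : ∀ n, Tz F (z n 0) (z n 1) (z n 2)) :
    ∃ (y : Fin 3 → ℂ) (φ : ℕ → ℕ), StrictMono φ ∧ Tendsto (fun n => z (φ n)) atTop (𝓝 y) ∧
      Tz F (y 0) (y 1) (y 2) := by
  have hK : IsCompact (Set.univ.pi fun _ : Fin 3 => Metric.sphere (0 : ℂ) 1) :=
    isCompact_univ_pi fun _ => isCompact_sphere 0 1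
  have hzK : ∀ n, z n ∈ (Set.univ.pi fun _ : Fin 3 => Metric.sphere (0 : ℂ) 1) := by
    intro n i _
    rw [mem_sphere_zero_iff_norm]
    fin_cases i
    · exact (hz n).n₀
    · exact (hz n).n₁
    · exact (hz n).n₂
  obtain ⟨y, hyK, φ, hφ, hlim⟩ := hK.tendsto_subseq hzK
  have hyn : ∀ i, ‖y i‖ = 1 := fun i => by
    have := hyK i (Set.mem_univ i)
    rwa [mem_sphere_zero_iff_norm] at this
  refine ⟨y, φ, hφ, hlim, Tz_of_limit hF (hyn 0) (hyn 1) (hyn 2) ?_ ?_⟩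
  · have c1 : Continuous fun x : Fin 3 → ℂ => ‖Rc (x 0) (x 1) (x 2)‖ := by
      unfold Rc
      fun_prop
    have c2 : Continuous fun x : Fin 3 → ℂ => ‖Pc (x 0) (x 1) (x 2)‖ := by
      unfold Pc
      fun_prop
    exact le_of_tendsto_of_tendsto' ((c1.tendsto y).comp hlim) ((c2.tendsto y).comp hlim)
      (fun n => (hz (φ n)).or.le)
  · have c3 : Continuous fun x : Fin 3 → ℂ => x 0 * x 1 + x 0 * x 2 + x 1 * x 2 := by fun_prop
    have h1 := (c3.tendsto y).comp hlim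
    refine tendsto_nhds_unique h1 ?_
    refine tendsto_const_nhds.congr fun n => ?_
    exact ((hz (φ n)).s2).symm

/-- points of the conics of nearby pairs are near the conic of the pair -/
lemma star_seq (h : ℂ → ℂ) (q₀ F : ℂ) (hq : ‖q₀‖ < 1) (hF : ‖F‖ < 1) (α : ℝ) (β : ℂ) (h0 : ‖β‖ < α)
    (hL : ∀ z : Fin 3 → ℂ, Tz F (z 0) (z 1) (z 2) →
      Tendsto (fun s => qf α β (Gw q₀ z + Pw q₀ z * h s)) (𝓝 (Rw q₀ z / Pw q₀ z)) (𝓝 1))
    (qn : ℕ → ℂ) (hqn : Tendsto qn atTop (𝓝 q₀)) (z : ℕ → Fin 3 → ℂ)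
    (hz : ∀ n, Tz F (z n 0) (z n 1) (z n 2)) :
    ∃ ms : ℕ → ℕ, Tendsto (fun n => qf α β (Gw (qn (ms n)) (z (ms n)) + Pw (qn (ms n)) (z (ms n)) *
      h (Rw (qn (ms n)) (z (ms n)) / Pw (qn (ms n)) (z (ms n))))) atTop (𝓝 1) := by
  obtain ⟨y, φ, hφ, hlim, hTz⟩ := Tz_lim hF hz
  have hpair : Tendsto (fun n => ((qn (φ n), z (φ n)) : ℂ × (Fin 3 → ℂ))) atTop (𝓝 (q₀, y)) :=
    (hqn.comp hφ.tendsto_atTop).prodMk_nhds hlim
  have hP0 : Pw q₀ y ≠ 0 := Pw_ne hq hTz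
  have tG : Tendsto (fun n => Gw (qn (φ n)) (z (φ n))) atTop (𝓝 (Gw q₀ y)) := by
    have := (cont_G.tendsto (q₀, y)).comp hpair
    exact this
  have tP : Tendsto (fun n => Pw (qn (φ n)) (z (φ n))) atTop (𝓝 (Pw q₀ y)) := by
    have := (cont_P.tendsto (q₀, y)).comp hpair
    exact this
  have tR : Tendsto (fun n => Rw (qn (φ n)) (z (φ n))) atTop (𝓝 (Rw q₀ y)) := by
    have := (cont_R.tendsto (q₀, y)).comp hpair
    exact this
  have tS : Tendsto (fun n => Rw (qn (φ n)) (z (φ n)) / Pw (qn (φ n)) (z (φ n))) atTop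
      (𝓝 (Rw q₀ y / Pw q₀ y)) := tR.div tP hP0
  have t1 := (hL _ hTz).comp tS
  -- boundedness
  have hα : 0 < α - ‖β‖ := by linarith
  obtain ⟨N2, hN2⟩ := eventually_atTop.1 (t1.eventually (gt_mem_nhds (show (1 : ℝ) < 2 by norm_num)))
  have hball : ∀ n, Gw q₀ y + Pw q₀ y * h (Rw (qn (φ (n + N2))) (z (φ (n + N2))) /
      Pw (qn (φ (n + N2))) (z (φ (n + N2)))) ∈ Metric.closedBall (0 : ℂ) (√(2 / (α - ‖β‖))) := by
    intro n
    rw [mem_closedBall_zero_iff]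
    apply Real.le_sqrt_of_sq_le
    rw [le_div_iff₀ hα, mul_comm]
    exact (qf_lower _).trans (hN2 (n + N2) (by omega)).le
  obtain ⟨x, -, ψ, hψ, hx⟩ := (isCompact_closedBall (0 : ℂ) (√(2 / (α - ‖β‖)))).tendsto_subseq hball
  have hθ : Tendsto (fun n => ψ n + N2) atTop atTop :=
    tendsto_atTop_mono (fun n => Nat.le_add_right (ψ n) N2) hψ.tendsto_atTop
  have hxq : qf α β x = 1 := tendsto_nhds_unique (((continuous_qf α β).tendsto x).comp hx) (t1.comp hθ)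
  have hH : Tendsto (fun n => h (Rw (qn (φ (ψ n + N2))) (z (φ (ψ n + N2))) /
      Pw (qn (φ (ψ n + N2))) (z (φ (ψ n + N2))))) atTop (𝓝 ((x - Gw q₀ y) / Pw q₀ y)) := by
    have := (hx.sub_const (Gw q₀ y)).div_const (Pw q₀ y)
    refine this.congr fun n => ?_
    simp only [Function.comp_apply]
    rw [add_sub_cancel_left, mul_div_cancel_left₀ _ hP0]
  have hYlim := (tG.comp hθ).add ((tP.comp hθ).mul hH)
  have e : Gw q₀ y + Pw q₀ y * ((x - Gw q₀ y) / Pw q₀ y) = x := by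
    rw [mul_div_cancel₀ _ hP0]
    ring
  rw [e] at hYlim
  refine ⟨fun n => φ (ψ n + N2), ?_⟩
  rw [← hxq]
  exact ((continuous_qf α β).tendsto x).comp hYlim

lemma star92 (h : ℂ → ℂ) (q₀ F : ℂ) (hq : ‖q₀‖ < 1) (hF : ‖F‖ < 1) (α : ℝ) (β : ℂ) (h0 : ‖β‖ < α)
    (hL : Lim1 h q₀ F α β) (A : ℂ → ℝ) (B : ℂ → ℂ) (hAB : ∀ᶠ q in 𝓝 q₀, Frm h q F (A q) (B q))
    (Y : ℂ → ℂ) (hY : ∀ᶠ q in 𝓝 q₀, qf (A q) (B q) (Y q) = 1) :
    Tendsto (fun q => qf α β (Y q)) (𝓝 q₀) (𝓝 1) := by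
  apply tendsto_of_subseq_tendsto
  intro ns hns
  have hev := hns.eventually (hAB.and hY)
  obtain ⟨N, hN⟩ := eventually_atTop.1 hev
  have hch : ∀ n : ℕ, ∃ z : Fin 3 → ℂ, Tz F (z 0) (z 1) (z 2) ∧
      Gw (ns (n + N)) z + Pw (ns (n + N)) z * h (Rw (ns (n + N)) z / Pw (ns (n + N)) z) = Y (ns (n + N)) := by
    intro n
    obtain ⟨h1, h2⟩ := hN (n + N) (by omega)
    obtain ⟨z₀, z₁, z₂, hz, he⟩ := h1.surj _ h2
    exact ⟨![z₀, z₁, z₂], hz, he⟩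
  choose z hz hzY using hch
  have hns' : Tendsto (fun n => ns (n + N)) atTop (𝓝 q₀) := hns.comp (tendsto_add_atTop_nat N)
  obtain ⟨ms, hms⟩ := star_seq h q₀ F hq hF α β h0 (fun z hz => hL _ _ _ hz) (fun n => ns (n + N)) hns' z hz
  refine ⟨fun n => ms n + N, ?_⟩
  refine hms.congr fun n => ?_
  rw [hzY]

/-- **The conic of a pair is a continuous function of `q`** (row CONIC) -/
theorem conicS92 (h : ℂ → ℂ) (q₀ F : ℂ) (hq : ‖q₀‖ < 1) (hF : ‖F‖ < 1) (α : ℝ) (β : ℂ) (h0 : ‖β‖ < α)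
    (hL : Lim1 h q₀ F α β) (A : ℂ → ℝ) (B : ℂ → ℂ) (hAB : ∀ᶠ q in 𝓝 q₀, Frm h q F (A q) (B q)) :
    Tendsto A (𝓝 q₀) (𝓝 α) ∧ Tendsto B (𝓝 q₀) (𝓝 β) :=
  forms_lim A B α β h0 (hAB.mono fun _ hi => hi.pos) fun Y hY => star92 h q₀ F hq hF α β h0 hL A B hAB Y hY

end Pool.Agent.Pon30
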