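import Pool.Agent.Pon30.CcS82
import Pool.Agent.Pon30.Clust46

/-! MP_02df19_gt, stage 3 (helper82), row CONT: the shape function is continuous near the equilateral shape. -/

set_option autoImplicit false

namespace Pool.Agent.Pon30

open Complex Filter Topology

namespace CtS

theorem conj_ω_norm : ‖(starRingEnd ℂ) ω‖ = 1 := by rw [RCLike.norm_conj, ω_norm]

theorem key {K M₀ M₁ D : ℂ} (h0 : ‖M₀ - K‖ ≤ ‖K‖ / 8) (h1 : ‖M₁ - K‖ ≤ ‖K‖ / 8) :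
    ‖K‖ * ‖D‖ / 4 ≤ |(M₀ * D).re| + |(M₁ * ((starRingEnd ℂ) ω * D)).re| := by
  set W := K * D with hW
  have hWn : ‖W‖ = ‖K‖ * ‖D‖ := norm_mul _ _
  have a0 : |W.re| ≤ |(M₀ * D).re| + ‖K‖ / 8 * ‖D‖ := by
    have e : W = M₀ * D - (M₀ - K) * D := by rw [hW]; ring
    have h2 := abs_re_le_norm ((M₀ - K) * D)
    rw [norm_mul] at h2
    have h3 : ‖M₀ - K‖ * ‖D‖ ≤ ‖K‖ / 8 * ‖D‖ := mul_le_mul_of_nonneg_right h0 (norm_nonneg _)
    rw [e, sub_re]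
    refine (abs_sub _ _).trans ?_
    linarith
  have a1 : |((starRingEnd ℂ) ω * W).re| ≤ |(M₁ * ((starRingEnd ℂ) ω * D)).re| + ‖K‖ / 8 * ‖D‖ := by
    have e : (starRingEnd ℂ) ω * W = M₁ * ((starRingEnd ℂ) ω * D) - (M₁ - K) * ((starRingEnd ℂ) ω * D) := by
      rw [hW]; ring
    have h2 := abs_re_le_norm ((M₁ - K) * ((starRingEnd ℂ) ω * D))
    rw [norm_mul, norm_mul, conj_ω_norm, one_mul] at h2
    have h3 : ‖M₁ - K‖ * ‖D‖ ≤ ‖K‖ / 8 * ‖D‖ := mul_le_mul_of_nonneg_right h1 (norm_nonneg _)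
    rw [e, sub_re]
    refine (abs_sub _ _).trans ?_
    linarith
  have c : ‖W‖ / 2 ≤ |W.re| + |((starRingEnd ℂ) ω * W).re| := by
    have e1 : ((starRingEnd ℂ) ω * W).re = -W.re / 2 + √3 / 2 * W.im := by
      rw [mul_re, conj_re, conj_im, ω_re, ω_im]
      ring
    have h3 : √3 * √3 = 3 := Real.mul_self_sqrt (by norm_num)
    have e2 : ‖W‖ ^ 2 = W.re ^ 2 + W.im ^ 2 := nsq_re W
    have e3 : W.re ^ 2 + ((starRingEnd ℂ) ω * W).re ^ 2 =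
        5 / 4 * W.re ^ 2 - √3 / 2 * W.re * W.im + 3 / 4 * W.im ^ 2 := by
      rw [e1]
      linear_combination (W.im ^ 2 / 4) * h3
    have e4 : ‖W‖ ^ 2 / 4 ≤ W.re ^ 2 + ((starRingEnd ℂ) ω * W).re ^ 2 := by
      rw [e3, e2]
      have e5 : (W.re - √3 / 4 * W.im) ^ 2 = W.re ^ 2 - √3 / 2 * W.re * W.im + 3 / 16 * W.im ^ 2 := by
        linear_combination (W.im ^ 2 / 16) * h3
      nlinarith [sq_nonneg (W.re - √3 / 4 * W.im), sq_nonneg W.im]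
    have h5 : (‖W‖ / 2) ^ 2 ≤ (|W.re| + |((starRingEnd ℂ) ω * W).re|) ^ 2 := by
      have := mul_nonneg (abs_nonneg W.re) (abs_nonneg ((starRingEnd ℂ) ω * W).re)
      nlinarith [sq_abs W.re, sq_abs ((starRingEnd ℂ) ω * W).re]
    exact le_of_pow_le_pow_left₀ two_ne_zero (by positivity) h5
  rw [hWn] at c
  linarith

/-- the parameter of the pair through the shape `s` -/
noncomputable def qs (ζ s : ℂ) : ℂ := qz s ζ / pz s ζ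
noncomputable def Gs (ζ s : ℂ) : ℂ := -oz s ζ / pz s ζ
noncomputable def Ps (ζ s : ℂ) : ℂ := 1 / pz s ζ

theorem pz_ne {ζ s : ℂ} (hs : ‖s‖ < 1) (hζ : ‖ζ‖ < 1 / 8) : pz s ζ ≠ 0 := by
  obtain ⟨h1, -⟩ := paramP41 s ζ hs hζ
  exact norm_pos_iff.1 (lt_of_le_of_lt (norm_nonneg _) h1)

theorem qs_lt {ζ s : ℂ} (hs : ‖s‖ < 1) (hζ : ‖ζ‖ < 1 / 8) : ‖qs ζ s‖ < 1 := by
  obtain ⟨h1, -⟩ := paramP41 s ζ hs hζ
  have h2 : 0 < ‖pz s ζ‖ := lt_of_le_of_lt (norm_nonneg _) h1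
  rw [qs, norm_div, div_lt_one h2]
  exact h1

theorem memb {ζ s : ℂ} (hs : ‖s‖ < 1) (hζ : ‖ζ‖ < 1 / 8) :
    Gc (L 1 (qs ζ s) (z0 ζ)) (L 1 (qs ζ s) (z1 ζ)) (L 1 (qs ζ s) (z2 ζ)) = Gs ζ s ∧
    Pc (L 1 (qs ζ s) (z0 ζ)) (L 1 (qs ζ s) (z1 ζ)) (L 1 (qs ζ s) (z2 ζ)) = Ps ζ s ∧
    Rc (L 1 (qs ζ s) (z0 ζ)) (L 1 (qs ζ s) (z1 ζ)) (L 1 (qs ζ s) (z2 ζ)) /
      Pc (L 1 (qs ζ s) (z0 ζ)) (L 1 (qs ζ s) (z1 ζ)) (L 1 (qs ζ s) (z2 ζ)) = s := by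
  have hp := pz_ne hs hζ
  obtain ⟨-, -, -, -, -, h0, h1, h2⟩ := paramP41 s ζ hs hζ
  have e : ∀ z : ℂ, L 1 (qs ζ s) z = (pz s ζ)⁻¹ * L (pz s ζ) (qz s ζ) z := by
    intro z
    unfold L qs
    field_simp
  rw [e, e, e, ← h0, ← h1, ← h2, Gc_smul, Pc_smul, Rc_smul, Gc_sub, Pc_sub, Rc_sub, Gc_T, Pc_T, Rc_T, Gs, Ps]
  refine ⟨by ring, by ring, ?_⟩
  field_simp

theorem cont_pz (ζ : ℂ) : Continuous (fun s => pz s ζ) := by
  unfold pz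
  fun_prop

theorem cont_qs {ζ : ℂ} (hζ : ‖ζ‖ < 1 / 8) : ContinuousAt (qs ζ) 0 := by
  have hp := pz_ne (s := 0) (by simp) hζ
  unfold qs
  refine ContinuousAt.div ?_ (cont_pz ζ).continuousAt hp
  unfold qz
  fun_prop

theorem cont_Gs {ζ : ℂ} (hζ : ‖ζ‖ < 1 / 8) : ContinuousAt (Gs ζ) 0 := by
  have hp := pz_ne (s := 0) (by simp) hζ
  unfold Gs
  refine ContinuousAt.div ?_ (cont_pz ζ).continuousAt hp
  unfold oz
  fun_prop

theorem cont_Ps {ζ : ℂ} (hζ : ‖ζ‖ < 1 / 8) : ContinuousAt (Ps ζ) 0 := by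
  have hp := pz_ne (s := 0) (by simp) hζ
  unfold Ps
  exact ContinuousAt.div continuousAt_const (cont_pz ζ).continuousAt hp

/-- the differential of the form -/
noncomputable def Phi (α : ℝ) (β G P x : ℂ) : ℂ := (α * (starRingEnd ℂ) (2 * G + P * x) + β * (2 * G + P * x)) * P

theorem qf_diff (α : ℝ) (β G P x y : ℂ) :
    qf α β (G + P * x) - qf α β (G + P * y) = (Phi α β G P (x + y) * (x - y)).re := by
  unfold qf Phi
  rw [nsq_re, nsq_re]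
  simp only [map_add, map_mul, map_ofNat, pow_two, add_re, add_im, sub_re, sub_im, mul_re, mul_im, conj_re, conj_im,
    ofReal_re, ofReal_im]
  norm_num
  ring

theorem cont_Phi (v : ℝ × ℂ × ℂ × ℂ × ℂ) {ε : ℝ} (hε : 0 < ε) :
    ∃ δ > 0, ∀ (α : ℝ) (β G P x : ℂ), |α - v.1| < δ → ‖β - v.2.1‖ < δ → ‖G - v.2.2.1‖ < δ → ‖P - v.2.2.2.1‖ < δ →
      ‖x - v.2.2.2.2‖ < δ → ‖Phi α β G P x - Phi v.1 v.2.1 v.2.2.1 v.2.2.2.1 v.2.2.2.2‖ ≤ ε := by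
  have hc : Continuous (fun u : ℝ × ℂ × ℂ × ℂ × ℂ => Phi u.1 u.2.1 u.2.2.1 u.2.2.2.1 u.2.2.2.2) := by
    unfold Phi
    fun_prop
  obtain ⟨δ, hδ, h⟩ := Metric.continuousAt_iff.1 (hc.continuousAt (x := v)) ε hε
  refine ⟨δ, hδ, fun α β G P x h1 h2 h3 h4 h5 => ?_⟩
  have h6 := @h (α, β, G, P, x) (by
    rw [Prod.dist_eq, Prod.dist_eq, Prod.dist_eq, Prod.dist_eq, Real.dist_eq, dist_eq_norm, dist_eq_norm, dist_eq_norm,
      dist_eq_norm]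
    exact max_lt h1 (max_lt h2 (max_lt h3 (max_lt h4 h5))))
  rw [dist_eq_norm] at h6
  exact h6.le

/-- the base pair is good -/
theorem base : Gd (qs (I / 16) 0) (Fz (I / 16)) := by
  set ζ : ℂ := I / 16 with hζ
  have hn : ‖ζ‖ = 1 / 16 := by
    rw [hζ, norm_div, Complex.norm_I]
    norm_num
  have hn8 : ‖ζ‖ < 1 / 8 := by rw [hn]; norm_num
  have hζ0 : ζ ≠ 0 := by
    rw [← norm_pos_iff, hn]
    norm_num
  have hq : qs ζ 0 = -ζ := by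
    have hp := pz_ne (s := 0) (by simp) hn8
    unfold qs
    rw [div_eq_iff hp]
    unfold qz pz
    ring
  rw [hq]
  obtain ⟨hF0, hF1, hM⟩ := good92 ζ (Fz ζ) hζ0 (by rw [hn]; norm_num) rfl
  refine ⟨by rw [norm_neg, hn]; norm_num, hF1, neg_ne_zero.2 hζ0, hF0, hM.ne, ?_⟩
  have hc : (starRingEnd ℂ) ζ = -(I / 16) := by
    rw [hζ, map_div₀, conj_I, map_ofNat]
    ring
  have e : (starRingEnd ℂ) (-ζ) * Fz ζ = (-1 + I / 16) * (1 + I / 4096) * (3 / 256) / (1 + (1 / 4096) ^ 2) := by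
    have hd : (1 : ℂ) - I / 4096 ≠ 0 := by
      intro h
      have := congrArg Complex.re h
      simp at this
    have h1 : 1 - (starRingEnd ℂ) ζ ^ 3 = 1 - I / 4096 := by
      rw [hc]
      ring_nf
      rw [show (I : ℂ) ^ 3 = -I from by rw [pow_succ, I_sq]; ring]
      ring
    have h2 : (1 + (1 / 4096) ^ 2 : ℂ) = (1 - I / 4096) * (1 + I / 4096) := by
      linear_combination ((1 / 4096 : ℂ) ^ 2) * I_sq
    have h3 : (1 : ℂ) + (1 / 4096) ^ 2 ≠ 0 := by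
      intro h
      have := congrArg Complex.re h
      norm_num at this
    unfold Fz
    rw [h1, map_neg, hc, hζ, eq_div_iff h3, h2]
    have h5 : ∀ A B D E : ℂ, D ≠ 0 → A * (B / D) * (D * E) = A * B * E := by
      intro A B D E hD
      field_simp
    rw [h5 _ _ _ _ hd]
    linear_combination ((3 / 256 - 3 * I / 4096) * (1 + I / 4096)) * I_sq
  rw [e]
  have e' : (-1 + I / 16) * (1 + I / 4096) * (3 / 256) / (1 + (1 / 4096) ^ 2) =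
      (((3 / 256) / (1 + (1 / 4096) ^ 2) : ℝ) : ℂ) * ((-1 + I / 16) * (1 + I / 4096)) := by
    push_cast
    ring
  rw [e', Complex.im_ofReal_mul]
  norm_num

/-- good pairs form an open set -/
theorem gd_open {q F : ℂ} (hg : Gd q F) : ∀ᶠ q' in 𝓝 q, Gd q' F := by
  obtain ⟨h1, h2, h3, h4, h5, h6⟩ := hg
  have c1 : Continuous (fun q : ℂ => ‖q‖) := continuous_norm
  have c2 : Continuous (fun q : ℂ => ‖F + 3 * q + (‖q‖ ^ 2 : ℝ) * F + (starRingEnd ℂ) q * F ^ 2‖ - 2 * ‖q‖ * ‖F‖) := by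
    fun_prop
  have c3 : Continuous (fun q : ℂ => ((starRingEnd ℂ) q * F).im) := by fun_prop
  have e1 := c1.continuousAt.eventually_lt_const h1
  have e2 := c2.continuousAt.eventually_ne (sub_ne_zero.2 h5)
  have e3 := c3.continuousAt.eventually_ne h6
  have e4 := (continuous_id (X := ℂ)).continuousAt.eventually_ne h3
  filter_upwards [e1, e2, e3, e4] with q' a1 a2 a3 a4
  exact ⟨a1, h2, a4, h4, sub_ne_zero.1 a2, a3⟩

end CtS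

/-- **CONT.** -/
theorem contS82 {h : ℂ → ℂ} (H : HHs h) (hrot : ∀ s : ℂ, ‖s‖ < 1 → h (ω * s) = (starRingEnd ℂ) ω * h s) :
    ∃ ε > 0, ∀ s : ℂ, ‖s‖ < ε → ContinuousAt h s := by
  obtain ⟨hh0, hc0⟩ := Cl46.cont46 H hrot
  have hF2 : F2P h := fun q F hg α β hf z₀ z₁ z₂ hz =>
    Cl46.clust46 H.toHH hrot hg.1 hg.2.1 hg.2.2.2.2.2 hg.2.2.2.2.1 hf.1 hf.2.1 hf.2.2 hz
  set ζ : ℂ := I / 16 with hζ
  have hn : ‖ζ‖ = 1 / 16 := by
    rw [hζ, norm_div, Complex.norm_I]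
    norm_num
  have hn8 : ‖ζ‖ < 1 / 8 := by rw [hn]; norm_num
  have hT : Tz (Fz ζ) (z0 ζ) (z1 ζ) (z2 ζ) := (paramP41 0 ζ (by simp) hn8).2.2.1
  have hb : Gd (CtS.qs ζ 0) (Fz ζ) := CtS.base
  set F := Fz ζ with hF
  -- forms exist
  have hex : ∀ q : ℂ, Gd q F → ∃ (α : ℝ) (β : ℂ), IsForm h q F α β := by
    intro q hg
    obtain ⟨α, β, h1, h2, h3⟩ := H 1 q F (by rw [norm_one]; exact hg.1) hg.2.1 (by rw [one_mul]; exact hg.2.2.2.2.2)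
    exact ⟨α, β, h1, h2, h3⟩
  obtain ⟨α, β, hf⟩ := hex _ hb
  -- the point of the form at the equilateral triangle
  have hG1 : qf α β (CtS.Gs ζ 0) = 1 := by
    have h1 := hf.2.1 _ _ _ hT
    obtain ⟨m1, m2, m3⟩ := CtS.memb (s := 0) (by simp) hn8
    unfold Xh at h1
    rw [m3, m1, m2, hh0, mul_zero, add_zero] at h1
    exact h1
  have hG0 : CtS.Gs ζ 0 ≠ 0 := by
    intro h0
    rw [h0] at hG1
    simp [qf] at hG1
  have hP0 : CtS.Ps ζ 0 ≠ 0 := by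
    unfold CtS.Ps
    exact one_div_ne_zero (CtS.pz_ne (by simp) hn8)
  set K := CtS.Phi α β (CtS.Gs ζ 0) (CtS.Ps ζ 0) 0 with hK
  have hK0 : 0 < ‖K‖ := by
    rw [norm_pos_iff, hK]
    unfold CtS.Phi
    refine mul_ne_zero ?_ hP0
    intro h1
    rw [mul_zero, add_zero] at h1
    have h2 : (α : ℂ) * (starRingEnd ℂ) (2 * CtS.Gs ζ 0) = -(β * (2 * CtS.Gs ζ 0)) := eq_neg_of_add_eq_zero_left h1
    have h3 := congrArg norm h2
    rw [norm_neg, norm_mul, norm_mul, RCLike.norm_conj, norm_real, Real.norm_eq_abs] at h3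
    have h4 : 0 < ‖2 * CtS.Gs ζ 0‖ := norm_pos_iff.2 (mul_ne_zero two_ne_zero hG0)
    have h5 := mul_right_cancel₀ h4.ne' h3
    have h6 := le_abs_self α
    linarith [hf.1]
  obtain ⟨δ, hδ, hPhi⟩ := CtS.cont_Phi (α, β, CtS.Gs ζ 0, CtS.Ps ζ 0, 0) (ε := ‖K‖ / 8) (by positivity)
  obtain ⟨δ₁, hδ₁, hcon⟩ := CcS.conic h hF2 hb hf (ε := δ / 2) (by positivity)
  -- choose ε
  have ev : ∀ᶠ s in 𝓝 (0 : ℂ), ‖s‖ < 1 ∧ ‖CtS.Gs ζ s - CtS.Gs ζ 0‖ < δ ∧ ‖CtS.Ps ζ s - CtS.Ps ζ 0‖ < δ ∧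
      ‖h s‖ < δ / 2 ∧ ‖CtS.qs ζ s - CtS.qs ζ 0‖ < δ₁ ∧ Gd (CtS.qs ζ s) F := by
    have e1 : ∀ᶠ s in 𝓝 (0 : ℂ), ‖s‖ < 1 :=
      (continuous_norm (E := ℂ)).continuousAt.eventually_lt_const (by simp)
    have e2 := (Metric.tendsto_nhds.1 (CtS.cont_Gs hn8)) δ hδ
    have e3 := (Metric.tendsto_nhds.1 (CtS.cont_Ps hn8)) δ hδ
    have e4 := (Metric.tendsto_nhds.1 hc0) (δ / 2) (by positivity)
    have e5 := (Metric.tendsto_nhds.1 (CtS.cont_qs hn8)) δ₁ hδ₁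
    have e6 := (CtS.cont_qs hn8).eventually (CtS.gd_open hb)
    filter_upwards [e1, e2, e3, e4, e5, e6] with s a1 a2 a3 a4 a5 a6
    rw [dist_eq_norm] at a2 a3 a4 a5
    rw [hh0, sub_zero] at a4
    exact ⟨a1, a2, a3, a4, a5, a6⟩
  obtain ⟨ε, hε, hε'⟩ := Metric.eventually_nhds_iff.1 ev
  have hε2 : ∀ s : ℂ, ‖s‖ < ε → _ := fun s hs => hε' (y := s) (by rwa [dist_zero_right])
  refine ⟨ε, hε, ?_⟩
  intro s hs
  have hωs : ‖ω * s‖ < ε := by rw [norm_mul, ω_norm, one_mul]; exact hs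
  obtain ⟨a1, a2, a3, a4, a5, a6⟩ := hε2 s hs
  obtain ⟨b1, b2, b3, b4, b5, b6⟩ := hε2 (ω * s) hωs
  obtain ⟨α₀, β₀, f0⟩ := hex _ a6
  obtain ⟨α₁, β₁, f1⟩ := hex _ b6
  obtain ⟨c1, c2⟩ := hcon _ a5 _ _ f0
  obtain ⟨d1, d2⟩ := hcon _ b5 _ _ f1
  obtain ⟨m1, m2, m3⟩ := CtS.memb (s := s) a1 hn8
  obtain ⟨n1, n2, n3⟩ := CtS.memb (s := ω * s) b1 hn8
  have t0 := hF2 _ F a6 _ _ f0 _ _ _ hT
  have t1 := hF2 _ F b6 _ _ f1 _ _ _ hT
  rw [m3, m1, m2] at t0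
  rw [n3, n1, n2] at t1
  have v0 : qf α₀ β₀ (CtS.Gs ζ s + CtS.Ps ζ s * h s) = 1 := by
    have h1 := f0.2.1 _ _ _ hT
    unfold Xh at h1
    rwa [m3, m1, m2] at h1
  have v1 : qf α₁ β₁ (CtS.Gs ζ (ω * s) + CtS.Ps ζ (ω * s) * h (ω * s)) = 1 := by
    have h1 := f1.2.1 _ _ _ hT
    unfold Xh at h1
    rwa [n3, n1, n2] at h1
  have hmul : Tendsto (fun s' : ℂ => ω * s') (𝓝 s) (𝓝 (ω * s)) :=
    (continuous_const.mul continuous_id).tendsto s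
  have t1' := t1.comp hmul
  have u0 : Tendsto (fun s' => |qf α₀ β₀ (CtS.Gs ζ s + CtS.Ps ζ s * h s') - 1|) (𝓝 s) (𝓝 0) := by
    have := (t0.sub_const 1).abs
    rwa [sub_self, abs_zero] at this
  have u1 : Tendsto (fun s' => |qf α₁ β₁ (CtS.Gs ζ (ω * s) + CtS.Ps ζ (ω * s) * h (ω * s')) - 1|) (𝓝 s) (𝓝 0) := by
    have := (t1'.sub_const 1).abs
    rwa [sub_self, abs_zero] at this
  have u2 := ((u0.add u1).const_mul (4 / ‖K‖))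
  rw [add_zero, mul_zero] at u2
  have hlt : ∀ᶠ s' in 𝓝 s, ‖s'‖ < ε := (continuous_norm (E := ℂ)).continuousAt.eventually_lt_const hs
  unfold ContinuousAt
  rw [tendsto_iff_norm_sub_tendsto_zero]
  refine squeeze_zero' (Eventually.of_forall fun s' => norm_nonneg _) ?_ u2
  filter_upwards [hlt] with s' hs'
  obtain ⟨g1, -, -, g4, -, -⟩ := hε2 s' hs'
  have hωs' : ‖ω * s'‖ < ε := by rw [norm_mul, ω_norm, one_mul]; exact hs'
  obtain ⟨-, -, -, k4, -, -⟩ := hε2 (ω * s') hωs'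
  have w0 := hPhi α₀ β₀ (CtS.Gs ζ s) (CtS.Ps ζ s) (h s' + h s) (by simpa using by linarith) (by simpa using by linarith)
    a2 a3 (by rw [sub_zero]; exact (norm_add_le _ _).trans_lt (by linarith))
  have w1 := hPhi α₁ β₁ (CtS.Gs ζ (ω * s)) (CtS.Ps ζ (ω * s)) (h (ω * s') + h (ω * s)) (by simpa using by linarith)
    (by simpa using by linarith) b2 b3 (by rw [sub_zero]; exact (norm_add_le _ _).trans_lt (by linarith))
  have x0 := CtS.qf_diff α₀ β₀ (CtS.Gs ζ s) (CtS.Ps ζ s) (h s') (h s)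
  have x1 := CtS.qf_diff α₁ β₁ (CtS.Gs ζ (ω * s)) (CtS.Ps ζ (ω * s)) (h (ω * s')) (h (ω * s))
  rw [v0] at x0
  rw [v1, hrot s' g1, hrot s a1, ← mul_sub] at x1
  rw [hrot s' g1, hrot s a1] at w1
  have y := CtS.key w0 w1 (D := h s' - h s)
  rw [← x0, ← x1] at y
  rw [hrot s' g1]
  calc ‖h s' - h s‖ = 4 / ‖K‖ * (‖K‖ * ‖h s' - h s‖ / 4) := by field_simp
    _ ≤ _ := mul_le_mul_of_nonneg_left y (by positivity)

end Pool.Agent.Pon30
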