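import Pool.Agent.Pon30.StmtsD30
import Pool.Agent.Pon30.ContS82

/-! MP_02df19_gt, degenerate loci allowed, row CONTD (helper82): continuity near the equilateral shape from one good
pair that contains the equilateral triangle. -/

set_option autoImplicit false

namespace Pool.Agent.Pon30

open Complex Filter Topology

namespace CdS

open Cl46

/-- `h` is continuous at `0` as soon as one good pair with a form contains the equilateral triangle. -/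
theorem cont_zero {h : ℂ → ℂ} (hrot : ∀ s : ℂ, ‖s‖ < 1 → h (ω * s) = (starRingEnd ℂ) ω * h s) (hF2 : F2P h)
    {q F : ℂ} (hg : Gd q F) {α : ℝ} {β : ℂ} (hf : IsForm h q F α β)
    {z₀ z₁ z₂ : ℂ} (hz : Tz F z₀ z₁ z₂) (h0 : Rc (L 1 q z₀) (L 1 q z₁) (L 1 q z₂) = 0) :
    h 0 = 0 ∧ ContinuousAt h 0 := by
  have h1q : ‖q‖ < ‖(1 : ℂ)‖ := by rw [norm_one]; exact hg.1
  have hh0 : h 0 = 0 := by
    have h1 := hrot 0 (by simp)
    rw [mul_zero] at h1
    have h2 : (starRingEnd ℂ) ω ≠ 1 := by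
      intro h3
      have h4 := congrArg Complex.re h3
      rw [conj_re, ω_re, one_re] at h4
      norm_num at h4
    have h3 : (1 - (starRingEnd ℂ) ω) * h 0 = 0 := by linear_combination h1
    exact (mul_eq_zero.mp h3).resolve_left (sub_ne_zero.mpr h2.symm)
  refine ⟨hh0, ?_⟩
  have hb := hf.1
  have hall := hf.2.1
  have c0 := hF2 q F hg α β hf _ _ _ hz
  have c1 := hF2 q F hg α β hf _ _ _ hz.cyc
  have c2 := hF2 q F hg α β hf _ _ _ hz.cyc.cyc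
  rw [Gc_cyc (L 1 q z₀) (L 1 q z₁) (L 1 q z₂), Pc_cyc (L 1 q z₀) (L 1 q z₁) (L 1 q z₂),
    Rc_cyc (L 1 q z₀) (L 1 q z₁) (L 1 q z₂)] at c1
  rw [Gc_cyc (L 1 q z₁) (L 1 q z₂) (L 1 q z₀), Gc_cyc (L 1 q z₀) (L 1 q z₁) (L 1 q z₂),
    Pc_cyc (L 1 q z₁) (L 1 q z₂) (L 1 q z₀), Pc_cyc (L 1 q z₀) (L 1 q z₁) (L 1 q z₂),
    Rc_cyc (L 1 q z₁) (L 1 q z₂) (L 1 q z₀), Rc_cyc (L 1 q z₀) (L 1 q z₁) (L 1 q z₂)] at c2
  rw [h0] at c0 c1 c2
  simp only [mul_zero, zero_div] at c0 c1 c2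
  set G := Gc (L 1 q z₀) (L 1 q z₁) (L 1 q z₂) with hGG
  set P := Pc (L 1 q z₀) (L 1 q z₁) (L 1 q z₂) with hPP
  have hP0 : P ≠ 0 := by
    intro hp
    have h1 := or_L (p := 1) (q := q) h1q hz.or
    rw [← hPP, hp, norm_zero] at h1
    exact absurd h1 (not_lt.mpr (norm_nonneg _))
  have hQG : qf α β G = 1 := by
    have h1 := hall _ _ _ hz
    unfold Xh at h1
    rw [h0, zero_div, hh0, mul_zero, add_zero] at h1
    exact h1
  have hα : 0 < α := (norm_nonneg β).trans_lt hb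
  have hsum := (c0.add c1).add c2
  have e : ∀ s, qf α β (G + P * h s) + qf α β (G + ω * P * h s) + qf α β (G + ω * (ω * P) * h s) =
      3 + 3 * α * ‖P * h s‖ ^ 2 := by
    intro s
    have h1 := qf_three α β G (P * h s)
    rw [hQG, mul_one] at h1
    rw [← h1, ← ω_sq]
    ring_nf
  simp only [e] at hsum
  -- `‖P h‖² → 0`
  have l1 : Tendsto (fun s => ‖P * h s‖ ^ 2) (𝓝 0) (𝓝 0) := by
    have h1 : Tendsto (fun s => (3 + 3 * α * ‖P * h s‖ ^ 2 - 3) / (3 * α)) (𝓝 0) (𝓝 ((1 + 1 + 1 - 3) / (3 * α))) :=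
      (hsum.sub_const 3).div_const _
    have h2 : (fun s => (3 + 3 * α * ‖P * h s‖ ^ 2 - 3) / (3 * α)) = fun s => ‖P * h s‖ ^ 2 := by
      funext s
      field_simp
      ring
    rw [h2] at h1
    have h3 : ((1 : ℝ) + 1 + 1 - 3) / (3 * α) = 0 := by norm_num
    rwa [h3] at h1
  have l2 : Tendsto (fun s => ‖P * h s‖) (𝓝 0) (𝓝 0) := by
    have h1 := (Real.continuous_sqrt.tendsto 0).comp l1
    rw [Real.sqrt_zero] at h1
    refine h1.congr fun s => ?_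
    simp only [Function.comp]
    exact Real.sqrt_sq (norm_nonneg _)
  have l3 : Tendsto (fun s => ‖h s‖) (𝓝 0) (𝓝 0) := by
    have h1 : Tendsto (fun s => ‖P * h s‖ / ‖P‖) (𝓝 0) (𝓝 (0 / ‖P‖)) := l2.div_const _
    rw [zero_div] at h1
    refine h1.congr fun s => ?_
    have : ‖P‖ ≠ 0 := norm_ne_zero_iff.mpr hP0
    rw [norm_mul]
    field_simp
  have l4 := tendsto_zero_iff_norm_tendsto_zero.mpr l3
  unfold ContinuousAt
  rw [hh0]
  exact l4

/-- the parameter of the pair in which the triple `z` has the shape `s` -/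
noncomputable def qg (P R s : ℂ) : ℂ := (s * P - R) / ((starRingEnd ℂ) P - s * (starRingEnd ℂ) R)

theorem den_ne {P R s : ℂ} (hPR : ‖R‖ < ‖P‖) (hs : ‖s‖ < 1) : (starRingEnd ℂ) P - s * (starRingEnd ℂ) R ≠ 0 := by
  intro h0
  have h1 : (starRingEnd ℂ) P = s * (starRingEnd ℂ) R := sub_eq_zero.1 h0
  have h2 : ‖P‖ = ‖s‖ * ‖R‖ := by
    rw [← RCLike.norm_conj P, h1, norm_mul, RCLike.norm_conj]
  nlinarith [norm_nonneg R, norm_nonneg s]

theorem memb {P R s : ℂ} (hPR : ‖R‖ < ‖P‖) (hs : ‖s‖ < 1) :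
    P + qg P R s * (starRingEnd ℂ) R ≠ 0 ∧
      (R + qg P R s * (starRingEnd ℂ) P) / (P + qg P R s * (starRingEnd ℂ) R) = s := by
  have hD := den_ne hPR hs
  set D := (starRingEnd ℂ) P - s * (starRingEnd ℂ) R with hDd
  have hE : P * (starRingEnd ℂ) P - R * (starRingEnd ℂ) R ≠ 0 := by
    rw [← nsq, ← nsq, ← ofReal_sub]
    have : 0 < ‖P‖ ^ 2 - ‖R‖ ^ 2 := by nlinarith [norm_nonneg R]
    exact_mod_cast this.ne'
  have e1 : P + qg P R s * (starRingEnd ℂ) R = (P * (starRingEnd ℂ) P - R * (starRingEnd ℂ) R) / D := by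
    unfold qg
    rw [eq_div_iff hD, add_mul, mul_assoc, mul_comm ((starRingEnd ℂ) R) _, ← mul_assoc, div_mul_cancel₀ _ hD, hDd]
    ring
  have e2 : R + qg P R s * (starRingEnd ℂ) P = s * (P * (starRingEnd ℂ) P - R * (starRingEnd ℂ) R) / D := by
    unfold qg
    rw [eq_div_iff hD, add_mul, mul_assoc, mul_comm ((starRingEnd ℂ) P) _, ← mul_assoc, div_mul_cancel₀ _ hD, hDd]
    ring
  rw [e1, e2]
  refine ⟨div_ne_zero hE hD, ?_⟩
  field_simp

theorem cont_qg {P R : ℂ} (hP : P ≠ 0) : ContinuousAt (qg P R) 0 := by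
  unfold qg
  refine ContinuousAt.div (by fun_prop) (by fun_prop) ?_
  rw [zero_mul, sub_zero]
  exact (map_ne_zero _).2 hP

end CdS

/-- Row CONTD -/
theorem contD82 : ContD := by
  intro h q₀ F z₀ z₁ z₂ hS hF2 hg hT hR0 hex'
  have hrot := hS.rot
  obtain ⟨α, β, hf⟩ := hex'.self_of_nhds
  obtain ⟨hh0, hc0⟩ := CdS.cont_zero hrot hF2 hg hf hT hR0
  set P := Pc z₀ z₁ z₂ with hP
  set R := Rc z₀ z₁ z₂ with hR
  set G := Gc z₀ z₁ z₂ with hG
  have hPR : ‖R‖ < ‖P‖ := hT.or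
  have hPne : P ≠ 0 := norm_pos_iff.1 ((norm_nonneg _).trans_lt hPR)
  -- the member in the pair `1`, `q`, `F`
  have mG : ∀ q : ℂ, Gc (L 1 q z₀) (L 1 q z₁) (L 1 q z₂) = G + q * (starRingEnd ℂ) G := by
    intro q; rw [Gc_L, L, one_mul]
  have mP : ∀ q : ℂ, Pc (L 1 q z₀) (L 1 q z₁) (L 1 q z₂) = P + q * (starRingEnd ℂ) R := by
    intro q; rw [Pc_L, one_mul]
  have mR : ∀ q : ℂ, Rc (L 1 q z₀) (L 1 q z₁) (L 1 q z₂) = R + q * (starRingEnd ℂ) P := by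
    intro q; rw [Rc_L, one_mul]
  rw [mR] at hR0
  have hq0 : CdS.qg P R 0 = q₀ := by
    unfold CdS.qg
    have hcP : (starRingEnd ℂ) P ≠ 0 := (map_ne_zero _).2 hPne
    rw [zero_mul, zero_mul, sub_zero, zero_sub, div_eq_iff hcP]
    linear_combination -hR0
  have hcq := CdS.cont_qg (R := R) hPne
  set Gs : ℂ → ℂ := fun s => G + CdS.qg P R s * (starRingEnd ℂ) G with hGs
  set Ps : ℂ → ℂ := fun s => P + CdS.qg P R s * (starRingEnd ℂ) R with hPs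
  have hcG : ContinuousAt Gs 0 := by
    rw [hGs]
    exact continuousAt_const.add (hcq.mul continuousAt_const)
  have hcP : ContinuousAt Ps 0 := by
    rw [hPs]
    exact continuousAt_const.add (hcq.mul continuousAt_const)
  have hP0 : Ps 0 ≠ 0 := (CdS.memb hPR (s := 0) (by simp)).1
  -- the point of the form at the equilateral triangle
  have hG1 : qf α β (Gs 0) = 1 := by
    have h1 := hf.2.1 _ _ _ hT
    unfold Xh at h1
    rw [mR, hR0, zero_div, hh0, mul_zero, add_zero, mG] at h1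
    rw [hGs]
    show qf α β (G + CdS.qg P R 0 * (starRingEnd ℂ) G) = 1
    rw [hq0]
    exact h1
  have hG0 : Gs 0 ≠ 0 := by
    intro h0
    rw [h0] at hG1
    simp [qf] at hG1
  set K := CtS.Phi α β (Gs 0) (Ps 0) 0 with hK
  have hK0 : 0 < ‖K‖ := by
    rw [norm_pos_iff, hK]
    unfold CtS.Phi
    refine mul_ne_zero ?_ hP0
    intro h1
    rw [mul_zero, add_zero] at h1
    have h2 : (α : ℂ) * (starRingEnd ℂ) (2 * Gs 0) = -(β * (2 * Gs 0)) := eq_neg_of_add_eq_zero_left h1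
    have h3 := congrArg norm h2
    rw [norm_neg, norm_mul, norm_mul, RCLike.norm_conj, norm_real, Real.norm_eq_abs] at h3
    have h4 : 0 < ‖2 * Gs 0‖ := norm_pos_iff.2 (mul_ne_zero two_ne_zero hG0)
    have h5 := mul_right_cancel₀ h4.ne' h3
    have h6 := le_abs_self α
    linarith [hf.1]
  obtain ⟨δ, hδ, hPhi⟩ := CtS.cont_Phi (α, β, Gs 0, Ps 0, 0) (ε := ‖K‖ / 8) (by positivity)
  obtain ⟨δ₁, hδ₁, hcon⟩ := CcS.conic h hF2 hg hf (ε := δ / 2) (by positivity)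
  -- choose ε
  have ev : ∀ᶠ s in 𝓝 (0 : ℂ), ‖s‖ < 1 ∧ ‖Gs s - Gs 0‖ < δ ∧ ‖Ps s - Ps 0‖ < δ ∧
      ‖h s‖ < δ / 2 ∧ ‖CdS.qg P R s - q₀‖ < δ₁ ∧ Gd (CdS.qg P R s) F ∧
      ∃ (α : ℝ) (β : ℂ), IsForm h (CdS.qg P R s) F α β := by
    have e1 : ∀ᶠ s in 𝓝 (0 : ℂ), ‖s‖ < 1 :=
      (continuous_norm (E := ℂ)).continuousAt.eventually_lt_const (by simp)
    have e2 := (Metric.tendsto_nhds.1 hcG) δ hδ
    have e3 := (Metric.tendsto_nhds.1 hcP) δ hδ
    have e4 := (Metric.tendsto_nhds.1 hc0) (δ / 2) (by positivity)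
    have e5 := (Metric.tendsto_nhds.1 hcq) δ₁ hδ₁
    have hcq' : Tendsto (CdS.qg P R) (𝓝 0) (𝓝 q₀) := by rw [← hq0]; exact hcq
    have e6 := hcq'.eventually (CtS.gd_open hg)
    have e7 := hcq'.eventually hex'
    filter_upwards [e1, e2, e3, e4, e5, e6, e7] with s a1 a2 a3 a4 a5 a6 a7
    rw [dist_eq_norm] at a2 a3 a4 a5
    rw [hh0, sub_zero] at a4
    rw [hq0] at a5
    exact ⟨a1, a2, a3, a4, a5, a6, a7⟩
  obtain ⟨ε, hε, hε'⟩ := Metric.eventually_nhds_iff.1 ev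
  have hε2 : ∀ s : ℂ, ‖s‖ < ε → _ := fun s hs => hε' (y := s) (by rwa [dist_zero_right])
  refine ⟨ε, hε, ?_⟩
  intro s hs
  have hωs : ‖ω * s‖ < ε := by rw [norm_mul, ω_norm, one_mul]; exact hs
  obtain ⟨a1, a2, a3, a4, a5, a6, α₀, β₀, f0⟩ := hε2 s hs
  obtain ⟨b1, b2, b3, b4, b5, b6, α₁, β₁, f1⟩ := hε2 (ω * s) hωs
  obtain ⟨c1, c2⟩ := hcon _ a5 _ _ f0
  obtain ⟨d1, d2⟩ := hcon _ b5 _ _ f1
  have m3 := (CdS.memb hPR a1).2
  have n3 := (CdS.memb hPR b1).2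
  have t0 := hF2 _ F a6 _ _ f0 _ _ _ hT
  have t1 := hF2 _ F b6 _ _ f1 _ _ _ hT
  rw [mG, mP, mR, m3] at t0
  rw [mG, mP, mR, n3] at t1
  have v0 : qf α₀ β₀ (Gs s + Ps s * h s) = 1 := by
    have h1 := f0.2.1 _ _ _ hT
    unfold Xh at h1
    rwa [mG, mP, mR, m3] at h1
  have v1 : qf α₁ β₁ (Gs (ω * s) + Ps (ω * s) * h (ω * s)) = 1 := by
    have h1 := f1.2.1 _ _ _ hT
    unfold Xh at h1
    rwa [mG, mP, mR, n3] at h1
  have hmul : Tendsto (fun s' : ℂ => ω * s') (𝓝 s) (𝓝 (ω * s)) :=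
    (continuous_const.mul continuous_id).tendsto s
  have t1' := t1.comp hmul
  have u0 : Tendsto (fun s' => |qf α₀ β₀ (Gs s + Ps s * h s') - 1|) (𝓝 s) (𝓝 0) := by
    have := (t0.sub_const 1).abs
    rwa [sub_self, abs_zero] at this
  have u1 : Tendsto (fun s' => |qf α₁ β₁ (Gs (ω * s) + Ps (ω * s) * h (ω * s')) - 1|) (𝓝 s) (𝓝 0) := by
    have := (t1'.sub_const 1).abs
    rwa [sub_self, abs_zero] at this
  have u2 := ((u0.add u1).const_mul (4 / ‖K‖))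
  rw [add_zero, mul_zero] at u2
  have hlt : ∀ᶠ s' in 𝓝 s, ‖s'‖ < ε := (continuous_norm (E := ℂ)).continuousAt.eventually_lt_const hs
  unfold ContinuousAt
  rw [tendsto_iff_norm_sub_tendsto_zero]
  refine squeeze_zero' (Eventually.of_forall fun s' => norm_nonneg _) ?_ u2
  filter_upwards [hlt] with s' hs'
  obtain ⟨g1, -, -, g4, -, -, -⟩ := hε2 s' hs'
  have hωs' : ‖ω * s'‖ < ε := by rw [norm_mul, ω_norm, one_mul]; exact hs'
  obtain ⟨-, -, -, k4, -, -, -⟩ := hε2 (ω * s') hωs'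
  have w0 := hPhi α₀ β₀ (Gs s) (Ps s) (h s' + h s) (by simpa using by linarith) (by simpa using by linarith)
    a2 a3 (by rw [sub_zero]; exact (norm_add_le _ _).trans_lt (by linarith))
  have w1 := hPhi α₁ β₁ (Gs (ω * s)) (Ps (ω * s)) (h (ω * s') + h (ω * s)) (by simpa using by linarith)
    (by simpa using by linarith) b2 b3 (by rw [sub_zero]; exact (norm_add_le _ _).trans_lt (by linarith))
  have x0 := CtS.qf_diff α₀ β₀ (Gs s) (Ps s) (h s') (h s)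
  have x1 := CtS.qf_diff α₁ β₁ (Gs (ω * s)) (Ps (ω * s)) (h (ω * s')) (h (ω * s))
  rw [v0] at x0
  rw [v1, hrot s' g1, hrot s a1, ← mul_sub] at x1
  rw [hrot s' g1, hrot s a1] at w1
  have y := CtS.key w0 w1 (D := h s' - h s)
  rw [← x0, ← x1] at y
  rw [hrot s' g1]
  calc ‖h s' - h s‖ = 4 / ‖K‖ * (‖K‖ * ‖h s' - h s‖ / 4) := by field_simp
    _ ≤ _ := mul_le_mul_of_nonneg_left y (by positivity)

end Pool.Agent.Pon30
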