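import Pool.Agent.Pon30.StmtsS30
import Pool.Agent.Pon30.ContS82

/-! MP_02df19_gt (helper82): row CONTS in the form of the interface file. -/

set_option autoImplicit false

namespace Pool.Agent.Pon30

theorem contP82 : ContS := fun _ H _ hrot => contS82 H hrot

end Pool.Agent.Pon30
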