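import Mathlib

/-!
# Triangle centres and concentric Poncelet pairs (MP_02df19_gt): definitions

Points are complex numbers. A quadratic form on the plane is written `α ‖v‖² + Re (β v²)` with `α` real and `β`
complex; it is positive definite exactly when `‖β‖ < α`, and every quadratic form on the plane is of this form.
-/

namespace Pool.Agent.Pon30

open Complex

/-- `a`, `b`, `c` are the side lengths of a nondegenerate triangle. -/
def Tri (a b c : ℝ) : Prop := 0 < a ∧ 0 < b ∧ 0 < c ∧ a < b + c ∧ b < c + a ∧ c < a + b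

/-- `f` is a (Kimberling) centre function. -/
structure IsCenterFunction (f : ℝ → ℝ → ℝ → ℝ) : Prop where
  hom : ∃ n : ℝ, ∀ a b c t : ℝ, Tri a b c → 0 < t → f (t * a) (t * b) (t * c) = t ^ n * f a b c
  symm : ∀ a b c : ℝ, Tri a b c → f a b c = f a c b
  ne : ∀ a b c : ℝ, Tri a b c → ¬ (f a b c = 0 ∧ f b c a = 0 ∧ f c a b = 0)

/-- `A`, `B`, `C` are the vertices of a nondegenerate triangle. -/
def IsTriangle (A B C : ℂ) : Prop := Tri ‖B - C‖ ‖C - A‖ ‖A - B‖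

/-- The sum of the barycentric coordinates `a f(a,b,c)`, `b f(b,c,a)`, `c f(c,a,b)` of the centre. -/
noncomputable def wsum (f : ℝ → ℝ → ℝ → ℝ) (A B C : ℂ) : ℝ :=
  ‖B - C‖ * f ‖B - C‖ ‖C - A‖ ‖A - B‖ + ‖C - A‖ * f ‖C - A‖ ‖A - B‖ ‖B - C‖ +
    ‖A - B‖ * f ‖A - B‖ ‖B - C‖ ‖C - A‖

/-- The centre of the triangle `A B C` with trilinear coordinates `f(a,b,c) : f(b,c,a) : f(c,a,b)`, where `a`, `b`, `c`
are the lengths of the sides opposite to `A`, `B`, `C`. It is a point of the plane if `wsum f A B C ≠ 0`. -/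
noncomputable def center (f : ℝ → ℝ → ℝ → ℝ) (A B C : ℂ) : ℂ :=
  ((‖B - C‖ * f ‖B - C‖ ‖C - A‖ ‖A - B‖ : ℝ) * A + (‖C - A‖ * f ‖C - A‖ ‖A - B‖ ‖B - C‖ : ℝ) * B +
    (‖A - B‖ * f ‖A - B‖ ‖B - C‖ ‖C - A‖ : ℝ) * C) / (wsum f A B C : ℝ)

/-- The quadratic form `α ‖v‖² + Re (β v²)`. -/
noncomputable def qf (α : ℝ) (β v : ℂ) : ℝ := α * ‖v‖ ^ 2 + (β * v ^ 2).re

/-- The curve `qf α β (z - o) = 1`; for `‖β‖ < α` it is an ellipse with centre `o`, and every ellipse with centre `o`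
is of this form. -/
def Ell (o : ℂ) (α : ℝ) (β : ℂ) : Set ℂ := {z | qf α β (z - o) = 1}

/-- `A B C` is a triangle inscribed in the outer curve `Ell o α β` whose three sides are tangent to the inner curve
`Ell o α' β'`: each of the three side lines meets the inner ellipse in exactly one point. -/
structure Periodic (o : ℂ) (α : ℝ) (β : ℂ) (α' : ℝ) (β' : ℂ) (A B C : ℂ) : Prop where
  tri : IsTriangle A B C
  memA : A ∈ Ell o α β
  memB : B ∈ Ell o α β
  memC : C ∈ Ell o α β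
  tanAB : ∃! t : ℝ, A + t * (B - A) ∈ Ell o α' β'
  tanBC : ∃! t : ℝ, B + t * (C - B) ∈ Ell o α' β'
  tanCA : ∃! t : ℝ, C + t * (A - C) ∈ Ell o α' β'

/-- Concentric Poncelet pair: two ellipses with the same centre `o`, the second strictly inside the first, such that
some triangle is inscribed in the first and circumscribed about the second. -/
structure PonceletPair (o : ℂ) (α : ℝ) (β : ℂ) (α' : ℝ) (β' : ℂ) : Prop where
  outer : ‖β‖ < α
  inner : ‖β'‖ < α'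
  inside : ∀ z ∈ Ell o α' β', qf α β (z - o) < 1
  periodic : ∃ A B C, Periodic o α β α' β' A B C

/-- The axes of the ellipses with forms `(α, β)` and `(α', β')` are not parallel. The axes of the first have the
directions `v` with `β v²` real; so this excludes circles as well. -/
def NonAligned (β β' : ℂ) : Prop := (β * (starRingEnd ℂ) β').im ≠ 0

/-- The locus of the centre over the 3-periodics of the pair is an ellipse (and the centre is a point of the plane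
for every 3-periodic). -/
def EllipticLocus (f : ℝ → ℝ → ℝ → ℝ) (o : ℂ) (α : ℝ) (β : ℂ) (α' : ℝ) (β' : ℂ) : Prop :=
  (∀ A B C, Periodic o α β α' β' A B C → wsum f A B C ≠ 0) ∧
  ∃ (o₁ : ℂ) (α₁ : ℝ) (β₁ : ℂ), ‖β₁‖ < α₁ ∧
    {X | ∃ A B C, Periodic o α β α' β' A B C ∧ X = center f A B C} = Ell o₁ α₁ β₁

/-! ## Working objects -/

/-- the cube root of unity `-1/2 + (√3/2) i` -/
noncomputable def ω : ℂ := ⟨-1 / 2, √3 / 2⟩


/-- discrete Fourier coordinates of a triple: centroid, `P` and `R`; `w₀ = G + P + R`, `w₁ = G + P ω + R ω̄`,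
`w₂ = G + P ω̄ + R ω`. -/
noncomputable def Gc (w₀ w₁ w₂ : ℂ) : ℂ := (w₀ + w₁ + w₂) / 3
noncomputable def Pc (w₀ w₁ w₂ : ℂ) : ℂ := (w₀ + (starRingEnd ℂ) ω * w₁ + ω * w₂) / 3
noncomputable def Rc (w₀ w₁ w₂ : ℂ) : ℂ := (w₀ + ω * w₁ + (starRingEnd ℂ) ω * w₂) / 3

/-- the centre of the triple `w` for a function `h` on shapes: `X = G + P h(R / P)`; to be used if `‖R‖ < ‖P‖`. -/
noncomputable def Xh (h : ℂ → ℂ) (w₀ w₁ w₂ : ℂ) : ℂ :=
  Gc w₀ w₁ w₂ + Pc w₀ w₁ w₂ * h (Rc w₀ w₁ w₂ / Pc w₀ w₁ w₂)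

/-- the affine (real linear) map `z ↦ p z + q z̄` -/
noncomputable def L (p q z : ℂ) : ℂ := p * z + q * (starRingEnd ℂ) z

/-- a positively oriented triple of points of the unit circle with `σ₂ = - F` -/
structure Tz (F z₀ z₁ z₂ : ℂ) : Prop where
  n₀ : ‖z₀‖ = 1
  n₁ : ‖z₁‖ = 1
  n₂ : ‖z₂‖ = 1
  or : ‖Rc z₀ z₁ z₂‖ < ‖Pc z₀ z₁ z₂‖
  s2 : z₀ * z₁ + z₀ * z₂ + z₁ * z₂ = - F

/-- the property of the shape function `h` of a centre that is used: for every non aligned concentric pair (given by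
`p`, `q` and `F`, the centre moved to `0`) the centres of all 3-periodics lie on one ellipse with centre `0`. -/
def HH (h : ℂ → ℂ) : Prop :=
  ∀ p q F : ℂ, ‖q‖ < ‖p‖ → ‖F‖ < 1 → (p * (starRingEnd ℂ) q * F).im ≠ 0 →
    ∃ (α : ℝ) (β : ℂ), ‖β‖ < α ∧ ∀ z₀ z₁ z₂, Tz F z₀ z₁ z₂ →
      qf α β (Xh h (L p q z₀) (L p q z₁) (L p q z₂)) = 1

/-- the shape function of `X₂ + κ (X₃ - X₂)` -/
noncomputable def hκ (κ : ℝ) (s : ℂ) : ℂ := κ * ((starRingEnd ℂ) s - s ^ 2) / (1 - ‖s‖ ^ 2 : ℝ)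

/-- the shape function of a centre near the equilateral shape -/
structure Shape (h : ℂ → ℂ) : Prop where
  an : AnalyticAt ℝ h 0
  conj : ∃ ε > 0, ∀ s : ℂ, ‖s‖ < ε → h ((starRingEnd ℂ) s) = (starRingEnd ℂ) (h s)
  rot : ∃ ε > 0, ∀ s : ℂ, ‖s‖ < ε → h (ω * s) = (starRingEnd ℂ) ω * h s

end Pool.Agent.Pon30
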