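import Pool.Agent.Pon30.Basic
import Pool.Agent.Pon30.StmtsC

/-!
# MP_02df19_gt, C-version, row DIRC (helper82): first order in `F` of the tangent direction
-/

set_option autoImplicit false

namespace Pool.Agent.Pon30.D82

open Complex Filter Topology

lemma s3 : √3 ≠ (0 : ℝ) := by positivity

lemma sqrt_at : HasDerivAt (fun F : ℝ => √((1 - F) * (3 + F))) (-1 / √3) 0 := by
  have h1 : HasDerivAt (fun F : ℝ => (1 - F) * (3 + F)) (-2) 0 := by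
    have a := ((hasDerivAt_id (0 : ℝ)).const_sub 1).mul ((hasDerivAt_id (0 : ℝ)).const_add 3)
    have e : (-1 * (3 + id (0 : ℝ)) + (1 - id (0 : ℝ)) * 1) = -2 := by simp; norm_num
    rw [e] at a
    exact a
  have h2 := h1.sqrt (by norm_num)
  have e : (-2 : ℝ) / (2 * √((1 - 0) * (3 + 0))) = -1 / √3 := by
    rw [show ((1 : ℝ) - 0) * (3 + 0) = 3 by norm_num]
    have := s3
    field_simp
  rw [e] at h2
  exact h2

lemma Pm_at : HasDerivAt Pm 0 0 := by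
  have h1 : HasDerivAt (fun F : ℝ => ((3 + F) / 2 + √3 * (√((1 - F) * (3 + F)) / 2)) / 3)
      ((1 / 2 + √3 * ((-1 / √3) / 2)) / 3) 0 :=
    ((((hasDerivAt_id (0 : ℝ)).const_add 3).div_const 2).add ((sqrt_at.div_const 2).const_mul √3)).div_const 3
  have e : (1 / 2 + √3 * ((-1 / √3) / 2)) / 3 = (0 : ℝ) := by
    have := s3
    field_simp
    norm_num
  rw [e] at h1
  exact h1

lemma Rm_at : HasDerivAt Rm (1 / 3) 0 := by
  have h1 : HasDerivAt (fun F : ℝ => ((3 + F) / 2 - √3 * (√((1 - F) * (3 + F)) / 2)) / 3)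
      ((1 / 2 - √3 * ((-1 / √3) / 2)) / 3) 0 :=
    ((((hasDerivAt_id (0 : ℝ)).const_add 3).div_const 2).sub ((sqrt_at.div_const 2).const_mul √3)).div_const 3
  have e : (1 / 2 - √3 * ((-1 / √3) / 2)) / 3 = (1 / 3 : ℝ) := by
    have := s3
    field_simp
    norm_num
  rw [e] at h1
  exact h1

lemma Pm_0 : Pm 0 = 1 := by
  unfold Pm
  rw [show ((1 : ℝ) - 0) * (3 + 0) = 3 by norm_num]
  have := sq3
  linarith

lemma Rm_0 : Rm 0 = 0 := by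
  unfold Rm
  rw [show ((1 : ℝ) - 0) * (3 + 0) = 3 by norm_num]
  have := sq3
  linarith

lemma qm_0 (s : ℂ) : qm s 0 = s := by
  unfold qm
  rw [Pm_0, Rm_0]
  simp

lemma qm_at (s : ℂ) : HasDerivAt (fun F : ℝ => qm s F) (-(1 - s ^ 2) / 3) 0 := by
  have hP := Pm_at.ofReal_comp
  have hR := Rm_at.ofReal_comp
  have h1 := ((hP.const_mul s).sub hR).div (hP.sub (hR.const_mul s)) (by
    show ((Pm 0 : ℝ) : ℂ) - s * ((Rm 0 : ℝ) : ℂ) ≠ 0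
    rw [Pm_0, Rm_0]; simp)
  have e : ((s * ((0 : ℝ) : ℂ) - ((1 / 3 : ℝ) : ℂ)) * (((Pm 0 : ℝ) : ℂ) - s * ((Rm 0 : ℝ) : ℂ)) -
      (s * ((Pm 0 : ℝ) : ℂ) - ((Rm 0 : ℝ) : ℂ)) * (((0 : ℝ) : ℂ) - s * ((1 / 3 : ℝ) : ℂ))) /
      (((Pm 0 : ℝ) : ℂ) - s * ((Rm 0 : ℝ) : ℂ)) ^ 2 = -(1 - s ^ 2) / 3 := by
    rw [Pm_0, Rm_0]
    push_cast
    ring
  rw [← e]
  exact h1

lemma Uc_eq (κ : ℝ) (q : ℂ) (F : ℝ) : Uc κ 1 q F =
    -(1 - κ) * F / 3 + κ * ((starRingEnd ℂ) q + F * (q * (starRingEnd ℂ) q)) / (1 - q * (starRingEnd ℂ) q) := by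
  unfold Uc
  rw [ofReal_sub, nsq, nsq, conj_ofReal, map_one]
  ring

lemma Vc_eq (κ : ℝ) (q : ℂ) (F : ℝ) : Vc κ 1 q F =
    -(1 - κ) * F * q / 3 - κ * (q ^ 2 + F * q) / (1 - q * (starRingEnd ℂ) q) := by
  unfold Vc
  rw [ofReal_sub, nsq, nsq, map_one]
  ring

lemma den_ne {s : ℂ} (hs : ‖s‖ < 1) : 1 - s * (starRingEnd ℂ) s ≠ 0 := by
  rw [← nsq]
  have h : (1 - ‖s‖ ^ 2 : ℝ) ≠ 0 := by
    have := norm_nonneg s
    nlinarith
  exact_mod_cast h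

lemma Dm_at (κ : ℝ) {s : ℂ} (hs : ‖s‖ < 1) : HasDerivAt (fun F : ℝ => Dm κ s F) (-(1 - s) / 3) 0 := by
  have hq := qm_at s
  have hqc : HasDerivAt (fun F : ℝ => (starRingEnd ℂ) (qm s F)) ((starRingEnd ℂ) (-(1 - s ^ 2) / 3)) 0 := hq.star
  have hP := Pm_at.ofReal_comp
  have hR := Rm_at.ofReal_comp
  have hF : HasDerivAt (fun F : ℝ => (F : ℂ)) ((1 : ℝ) : ℂ) 0 := (hasDerivAt_id (0 : ℝ)).ofReal_comp
  have hd : 1 - qm s 0 * (starRingEnd ℂ) (qm s 0) ≠ 0 := by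
    rw [qm_0]; exact den_ne hs
  have hp : ((Pm 0 : ℝ) : ℂ) + qm s 0 * ((Rm 0 : ℝ) : ℂ) ≠ 0 := by
    rw [Pm_0, Rm_0]; simp
  have hden : HasDerivAt (fun F : ℝ => 1 - qm s F * (starRingEnd ℂ) (qm s F)) _ 0 := (hq.mul hqc).const_sub 1
  have hU : HasDerivAt (fun F : ℝ => -(1 - (κ : ℂ)) * (F : ℂ) / 3 +
      κ * ((starRingEnd ℂ) (qm s F) + F * (qm s F * (starRingEnd ℂ) (qm s F))) / (1 - qm s F * (starRingEnd ℂ) (qm s F))) _ 0 :=
    ((hF.const_mul (-(1 - (κ : ℂ)))).div_const 3).add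
      (((hqc.add (hF.mul (hq.mul hqc))).const_mul (κ : ℂ)).div hden hd)
  have hV : HasDerivAt (fun F : ℝ => -(1 - (κ : ℂ)) * (F : ℂ) * qm s F / 3 -
      κ * (qm s F ^ 2 + F * qm s F) / (1 - qm s F * (starRingEnd ℂ) (qm s F))) _ 0 :=
    (((hF.const_mul (-(1 - (κ : ℂ)))).mul hq).div_const 3).sub
      ((((hq.pow 2).add (hF.mul hq)).const_mul (κ : ℂ)).div hden hd)
  have hD := (hU.sub hV).div (hP.add (hq.mul hR)) hp
  have hfun : (fun F : ℝ => Dm κ s F) = fun F : ℝ => ((-(1 - (κ : ℂ)) * (F : ℂ) / 3 +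
      κ * ((starRingEnd ℂ) (qm s F) + F * (qm s F * (starRingEnd ℂ) (qm s F))) / (1 - qm s F * (starRingEnd ℂ) (qm s F))) -
      (-(1 - (κ : ℂ)) * (F : ℂ) * qm s F / 3 -
      κ * (qm s F ^ 2 + F * qm s F) / (1 - qm s F * (starRingEnd ℂ) (qm s F)))) / ((Pm F : ℝ) + qm s F * (Rm F : ℝ)) := by
    funext F
    rw [Dm, Uc_eq, Vc_eq]
  rw [hfun]
  refine hD.congr_deriv ?_
  have hd' := den_ne hs
  simp only [Pi.add_apply, Pi.mul_apply, Pi.sub_apply, Pi.pow_apply, Nat.cast_ofNat, qm_0, Pm_0, Rm_0, ofReal_zero, ofReal_one, map_div₀, map_neg,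
    map_sub, map_one, map_pow, map_ofNat]
  push_cast
  clear hD hV hU hden hfun hp hd hF hR hP hqc hq
  generalize (starRingEnd ℂ) s = t at *
  have hd2 : 1 - t * s ≠ 0 := by rwa [mul_comm t s]
  simp only [mul_zero, zero_mul, add_zero, zero_add, mul_one, one_mul, zero_div, zero_sub, one_pow, div_one, pow_one]
  field_simp
  ring

lemma tends (κ : ℝ) {s : ℂ} (hs : ‖s‖ < 1) :
    Tendsto (fun F : ℝ => (Dm κ s F - κ * ((starRingEnd ℂ) s + s ^ 2) / (1 - ‖s‖ ^ 2 : ℝ)) / F) (𝓝[>] 0)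
      (𝓝 (-(1 - s) / 3)) := by
  have h1 := hasDerivAt_iff_tendsto_slope_zero.1 (Dm_at κ hs)
  have h2 := h1.mono_left (nhdsWithin_mono (0 : ℝ) (fun x (hx : 0 < x) => (ne_of_gt hx : x ≠ 0)))
  refine h2.congr fun F => ?_
  have e : Dm κ s 0 = κ * ((starRingEnd ℂ) s + s ^ 2) / (1 - ‖s‖ ^ 2 : ℝ) := by
    rw [Dm, qm_0, Pm_0, Rm_0]
    rw [Uc_eq κ s 0, Vc_eq κ s 0, ofReal_sub, nsq]
    push_cast
    ring
  rw [zero_add, e, real_smul, ofReal_inv, mul_comm, ← div_eq_mul_inv]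

lemma qm_cont (s : ℂ) : ContinuousAt (fun F : ℝ => qm s F) 0 := (qm_at s).continuousAt

lemma norms (κ : ℝ) {s : ℂ} (hs : ‖s‖ < 1) (hs0 : s ≠ 0) :
    ∀ᶠ F : ℝ in 𝓝[>] 0, ‖Uc κ 1 (qm s F) F‖ ≠ ‖Vc κ 1 (qm s F) F‖ := by
  have hq := qm_cont s
  have hqc : ContinuousAt (fun F : ℝ => (starRingEnd ℂ) (qm s F)) 0 := (qm_at s).star.continuousAt
  have hF : ContinuousAt (fun F : ℝ => (F : ℂ)) 0 := Complex.continuous_ofReal.continuousAt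
  by_cases hκ : κ = 0
  · have hlt : ∀ᶠ F : ℝ in 𝓝[>] 0, ‖qm s F‖ < 1 := by
      have h1 : ∀ᶠ F : ℝ in 𝓝 0, ‖qm s F‖ < 1 := by
        have h0 : ‖qm s 0‖ < 1 := by rw [qm_0]; exact hs
        exact hq.norm.eventually_lt_const h0
      exact h1.filter_mono nhdsWithin_le_nhds
    filter_upwards [hlt, self_mem_nhdsWithin] with F h1 h2
    have hF0 : (0 : ℝ) < F := h2
    rw [hκ, Uc_eq, Vc_eq]
    have e1 : -(1 - ((0 : ℝ) : ℂ)) * (F : ℂ) / 3 + ((0 : ℝ) : ℂ) * ((starRingEnd ℂ) (qm s F) +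
        F * (qm s F * (starRingEnd ℂ) (qm s F))) / (1 - qm s F * (starRingEnd ℂ) (qm s F)) = ((-F / 3 : ℝ) : ℂ) := by
      push_cast; ring
    have e2 : -(1 - ((0 : ℝ) : ℂ)) * (F : ℂ) * qm s F / 3 - ((0 : ℝ) : ℂ) * (qm s F ^ 2 + F * qm s F) /
        (1 - qm s F * (starRingEnd ℂ) (qm s F)) = ((-F / 3 : ℝ) : ℂ) * qm s F := by
      push_cast; ring
    rw [e1, e2, norm_mul]
    have h3 : 0 < ‖((-F / 3 : ℝ) : ℂ)‖ := by
      rw [norm_real]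
      apply norm_pos_iff.2
      have := hF0.ne'
      intro h0
      apply this
      linarith
    intro h4
    have h5 : ‖((-F / 3 : ℝ) : ℂ)‖ * ‖qm s F‖ < ‖((-F / 3 : ℝ) : ℂ)‖ * 1 := mul_lt_mul_of_pos_left h1 h3
    rw [mul_one, ← h4] at h5
    exact lt_irrefl _ h5
  · have hd : 1 - qm s 0 * (starRingEnd ℂ) (qm s 0) ≠ 0 := by
      rw [qm_0]; exact den_ne hs
    have hU : ContinuousAt (fun F : ℝ => ‖Uc κ 1 (qm s F) F‖) 0 := by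
      have h1 : ContinuousAt (fun F : ℝ => -(1 - (κ : ℂ)) * (F : ℂ) / 3 +
          κ * ((starRingEnd ℂ) (qm s F) + F * (qm s F * (starRingEnd ℂ) (qm s F))) /
            (1 - qm s F * (starRingEnd ℂ) (qm s F))) 0 :=
        ((continuousAt_const.mul hF).div_const 3).add
          ((continuousAt_const.mul (hqc.add (hF.mul (hq.mul hqc)))).div (continuousAt_const.sub (hq.mul hqc)) hd)
      have h2 := h1.norm
      refine h2.congr (Filter.Eventually.of_forall fun F => ?_)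
      show ‖_‖ = ‖_‖
      rw [Uc_eq]
    have hV : ContinuousAt (fun F : ℝ => ‖Vc κ 1 (qm s F) F‖) 0 := by
      have h1 : ContinuousAt (fun F : ℝ => -(1 - (κ : ℂ)) * (F : ℂ) * qm s F / 3 -
          κ * (qm s F ^ 2 + F * qm s F) / (1 - qm s F * (starRingEnd ℂ) (qm s F))) 0 :=
        (((continuousAt_const.mul hF).mul hq).div_const 3).sub
          ((continuousAt_const.mul ((hq.pow 2).add (hF.mul hq))).div (continuousAt_const.sub (hq.mul hqc)) hd)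
      have h2 := h1.norm
      refine h2.congr (Filter.Eventually.of_forall fun F => ?_)
      show ‖_‖ = ‖_‖
      rw [Vc_eq]
    have h0 : ‖Uc κ 1 (qm s 0) (0 : ℝ)‖ - ‖Vc κ 1 (qm s 0) (0 : ℝ)‖ ≠ 0 := by
      have hs1 : 0 < ‖s‖ := norm_pos_iff.2 hs0
      have hdp : 0 < 1 - ‖s‖ ^ 2 := by nlinarith
      have eU : ‖Uc κ 1 (qm s 0) (0 : ℝ)‖ = |κ| * ‖s‖ / (1 - ‖s‖ ^ 2) := by
        rw [qm_0, Uc_eq, ← nsq]
        have : -(1 - (κ : ℂ)) * ((0 : ℝ) : ℂ) / 3 + κ * ((starRingEnd ℂ) s + ((0 : ℝ) : ℂ) * ((‖s‖ ^ 2 : ℝ) : ℂ)) /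
            (1 - ((‖s‖ ^ 2 : ℝ) : ℂ)) = (κ : ℂ) * (starRingEnd ℂ) s / ((1 - ‖s‖ ^ 2 : ℝ) : ℂ) := by
          push_cast; ring
        rw [this, norm_div, norm_mul, norm_real, norm_real, RCLike.norm_conj, Real.norm_eq_abs,
          Real.norm_of_nonneg hdp.le]
      have eV : ‖Vc κ 1 (qm s 0) (0 : ℝ)‖ = |κ| * ‖s‖ ^ 2 / (1 - ‖s‖ ^ 2) := by
        rw [qm_0, Vc_eq, ← nsq]
        have : -(1 - (κ : ℂ)) * ((0 : ℝ) : ℂ) * s / 3 - κ * (s ^ 2 + ((0 : ℝ) : ℂ) * s) /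
            (1 - ((‖s‖ ^ 2 : ℝ) : ℂ)) = -((κ : ℂ) * s ^ 2 / ((1 - ‖s‖ ^ 2 : ℝ) : ℂ)) := by
          push_cast; ring
        rw [this, norm_neg, norm_div, norm_mul, norm_real, norm_real, norm_pow, Real.norm_eq_abs,
          Real.norm_of_nonneg hdp.le]
      rw [eU, eV, ← sub_div, ← mul_sub]
      apply div_ne_zero _ hdp.ne'
      apply mul_ne_zero (abs_ne_zero.2 hκ)
      nlinarith
    have h1 : ∀ᶠ F : ℝ in 𝓝 0, ‖Uc κ 1 (qm s F) F‖ - ‖Vc κ 1 (qm s F) F‖ ≠ 0 :=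
      (hU.sub hV).eventually_ne h0
    filter_upwards [h1.filter_mono nhdsWithin_le_nhds] with F h2 h3
    exact h2 (sub_eq_zero.2 h3)

end Pool.Agent.Pon30.D82

namespace Pool.Agent.Pon30

theorem dirC82 : DirC := fun κ _ hs => ⟨D82.tends κ hs, fun hs0 => D82.norms κ hs hs0⟩

end Pool.Agent.Pon30
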