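import Pool.Agent.Pon30.StmtsV30
import Pool.Agent.Pon30.Basic

/-!
# MP_02df19_gt, the converse: rows ABV and ELLV (helper92)
-/

set_option autoImplicit false

namespace Pool.Agent.Pon30

open Complex P82

theorem ellV92 : EllV := by
  intro o a b hab
  have hJ := norm_sq_pos hab
  have ha0 : 0 ≤ ‖a‖ := norm_nonneg a
  have hb0 : 0 ≤ ‖b‖ := norm_nonneg b
  refine ⟨oa a b, ob a b, ?_, ?_⟩
  · have e1 : ‖ob a b‖ = (1 / (normSq a - normSq b) ^ 2) * (2 * ‖a‖ * ‖b‖) := by
      unfold ob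
      rw [norm_mul, Complex.norm_real, Real.norm_of_nonneg (by positivity), norm_mul, norm_mul,
        Complex.norm_conj, Complex.norm_conj]
      norm_num
    have e2 : oa a b = (1 / (normSq a - normSq b) ^ 2) * (‖a‖ ^ 2 + ‖b‖ ^ 2) := by
      unfold oa
      rw [normSq_eq_norm_sq, normSq_eq_norm_sq, normSq_eq_norm_sq, Complex.norm_conj]
    rw [e1, e2]
    apply mul_lt_mul_of_pos_left _ (by positivity)
    have : 0 < (‖a‖ - ‖b‖) ^ 2 := pow_pos (by linarith) 2
    nlinarith
  · ext X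
    rw [Ell, Set.mem_ofPred_eq, Set.mem_ofPred_eq]
    constructor
    · rintro ⟨u, hu, rfl⟩
      have e : o + (a * u + b * (starRingEnd ℂ) u) - o = L a b u := by
        unfold L
        ring
      rw [e, qf_out hab, hu]
      norm_num
    · intro hX
      obtain ⟨z, hz⟩ := L_surj hab (X - o)
      refine ⟨z, ?_, ?_⟩
      · rw [← hz, qf_out hab] at hX
        have h1 : ‖z‖ ^ 2 = 1 ^ 2 := by rw [hX]; norm_num
        exact (pow_left_inj₀ (norm_nonneg z) zero_le_one two_ne_zero).1 h1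
      · unfold L at hz
        rw [hz]
        ring

theorem abV92 : AbV := by
  intro κ p q F hκ hpq hF him
  have hp : p ≠ 0 := by
    rintro rfl
    simp at him
  have hq : q ≠ 0 := by
    rintro rfl
    simp at him
  have hF0 : F ≠ 0 := by
    rintro rfl
    simp at him
  have hpn : 0 < ‖p‖ := norm_pos_iff.2 hp
  have hqn : 0 < ‖q‖ := norm_pos_iff.2 hq
  have hFn : 0 < ‖F‖ := norm_pos_iff.2 hF0
  have hD : 0 < ‖p‖ ^ 2 - ‖q‖ ^ 2 := by nlinarith
  have hDc : p * (starRingEnd ℂ) p - q * (starRingEnd ℂ) q = ((‖p‖ ^ 2 - ‖q‖ ^ 2 : ℝ) : ℂ) := by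
    rw [Complex.ofReal_sub, nsq, nsq]
  have hD0 : p * (starRingEnd ℂ) p - q * (starRingEnd ℂ) q ≠ 0 := by
    rw [hDc]
    exact_mod_cast hD.ne'
  have hDn : ‖p * (starRingEnd ℂ) p - q * (starRingEnd ℂ) q‖ = ‖p‖ ^ 2 - ‖q‖ ^ 2 := by
    rw [hDc, Complex.norm_real, Real.norm_of_nonneg hD.le]
  rcases hκ with rfl | rfl | rfl
  · -- centroid
    have e1 : aκ 0 p q F = -(p * (starRingEnd ℂ) F / 3) := by
      unfold aκ
      push_cast
      ring
    have e2 : bκ 0 p q F = -(q * F / 3) := by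
      unfold bκ
      push_cast
      ring
    rw [e1, e2, norm_neg, norm_neg, norm_div, norm_div, norm_mul, norm_mul, Complex.norm_conj]
    have : ‖(3 : ℂ)‖ = 3 := by norm_num
    rw [this]
    have := mul_lt_mul_of_pos_right hpq hFn
    linarith
  · -- circumcentre
    have e1 : aκ 1 p q F = p * (starRingEnd ℂ) q * (p + (starRingEnd ℂ) F * q) /
        (p * (starRingEnd ℂ) p - q * (starRingEnd ℂ) q) := by
      unfold aκ
      push_cast
      ring
    have e2 : bκ 1 p q F = -((starRingEnd ℂ) p * q * (q + F * p) /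
        (p * (starRingEnd ℂ) p - q * (starRingEnd ℂ) q)) := by
      unfold bκ
      push_cast
      ring
    rw [e1, e2, norm_neg, norm_div, norm_div, hDn, norm_mul, norm_mul, norm_mul, norm_mul, Complex.norm_conj,
      Complex.norm_conj]
    have key : ‖p + (starRingEnd ℂ) F * q‖ ^ 2 - ‖q + F * p‖ ^ 2 = (‖p‖ ^ 2 - ‖q‖ ^ 2) * (1 - ‖F‖ ^ 2) := by
      have h1 : ((‖p + (starRingEnd ℂ) F * q‖ ^ 2 - ‖q + F * p‖ ^ 2 : ℝ) : ℂ) =
          (((‖p‖ ^ 2 - ‖q‖ ^ 2) * (1 - ‖F‖ ^ 2) : ℝ) : ℂ) := by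
        rw [Complex.ofReal_sub, Complex.ofReal_mul, Complex.ofReal_sub, Complex.ofReal_sub, nsq, nsq, nsq, nsq, nsq]
        simp only [map_add, map_mul, Complex.conj_conj, Complex.ofReal_one]
        ring
      exact_mod_cast h1
    have hlt : ‖q + F * p‖ < ‖p + (starRingEnd ℂ) F * q‖ := by
      have : 0 < (‖p‖ ^ 2 - ‖q‖ ^ 2) * (1 - ‖F‖ ^ 2) := mul_pos hD (by nlinarith)
      by_contra hc
      have hc' := not_lt.1 hc
      nlinarith [norm_nonneg (p + (starRingEnd ℂ) F * q), norm_nonneg (q + F * p)]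
    apply div_lt_div_of_pos_right _ hD
    exact mul_lt_mul_of_pos_left hlt (mul_pos hpn hqn)
  · -- orthocentre
    set M : ℂ := (starRingEnd ℂ) F * (p * (starRingEnd ℂ) p + q * (starRingEnd ℂ) q) +
      2 * p * (starRingEnd ℂ) q with hM
    have hM0 : M ≠ 0 := by
      intro h
      apply him
      have h1 : 2 * (p * (starRingEnd ℂ) q * F) = ((-(‖F‖ ^ 2 * (‖p‖ ^ 2 + ‖q‖ ^ 2)) : ℝ) : ℂ) := by
        rw [Complex.ofReal_neg, Complex.ofReal_mul, Complex.ofReal_add, nsq, nsq, nsq]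
        linear_combination F * h
      have h2 := congrArg Complex.im h1
      rw [Complex.ofReal_im] at h2
      have h3 : (2 * (p * (starRingEnd ℂ) q * F)).im = 2 * (p * (starRingEnd ℂ) q * F).im := by
        rw [Complex.mul_im]
        norm_num
      rw [h3] at h2
      linarith
    have e1 : aκ (-2) p q F = -(p * M / (p * (starRingEnd ℂ) p - q * (starRingEnd ℂ) q)) := by
      unfold aκ
      rw [hM, div_eq_mul_inv, div_eq_mul_inv, div_eq_mul_inv]
      have hi := mul_inv_cancel₀ hD0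
      push_cast
      linear_combination (p * (starRingEnd ℂ) F) * hi
    have e2 : bκ (-2) p q F = q * (starRingEnd ℂ) M / (p * (starRingEnd ℂ) p - q * (starRingEnd ℂ) q) := by
      unfold bκ
      rw [hM]
      simp only [map_add, map_mul, Complex.conj_conj, map_ofNat]
      rw [div_eq_mul_inv, div_eq_mul_inv, div_eq_mul_inv]
      have hi := mul_inv_cancel₀ hD0
      push_cast
      linear_combination (q * F) * hi
    rw [e1, e2, norm_neg, norm_div, norm_div, hDn, norm_mul, norm_mul, Complex.norm_conj]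
    apply div_lt_div_of_pos_right _ hD
    exact mul_lt_mul_of_pos_right hpq (norm_pos_iff.2 hM0)

end Pool.Agent.Pon30
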