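import Pool.Agent.Pon30.Basic

/-!
Explicit triples: the equilateral triangle and the second isosceles triangle of the aligned pair with parameter `o`.
-/

namespace Pool.Agent.Pon30

open Complex

lemma L_real_re (p q : ℝ) (z : ℂ) : (L p q z).re = (p + q) * z.re := by
  simp [L]; ring
lemma L_real_im (p q : ℝ) (z : ℂ) : (L p q z).im = (p - q) * z.im := by
  simp [L]; ring

/-- orientation can be pulled back -/
lemma or_of_L {p q z₀ z₁ z₂ : ℂ} (hpq : ‖q‖ < ‖p‖)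
    (hw : ‖Rc (L p q z₀) (L p q z₁) (L p q z₂)‖ < ‖Pc (L p q z₀) (L p q z₁) (L p q z₂)‖) :
    ‖Rc z₀ z₁ z₂‖ < ‖Pc z₀ z₁ z₂‖ := by
  rw [Rc_L, Pc_L] at hw
  have h := norm_PR_L p q (Pc z₀ z₁ z₂) (Rc z₀ z₁ z₂)
  have h1 : 0 < (‖p‖ ^ 2 - ‖q‖ ^ 2) := by nlinarith [norm_nonneg q, norm_nonneg p]
  have h2 : 0 < ‖p * Pc z₀ z₁ z₂ + q * (starRingEnd ℂ) (Rc z₀ z₁ z₂)‖ ^ 2 - ‖p * Rc z₀ z₁ z₂ + q * (starRingEnd ℂ) (Pc z₀ z₁ z₂)‖ ^ 2 := by
    nlinarith [norm_nonneg (p * Pc z₀ z₁ z₂ + q * (starRingEnd ℂ) (Rc z₀ z₁ z₂)),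
      norm_nonneg (p * Rc z₀ z₁ z₂ + q * (starRingEnd ℂ) (Pc z₀ z₁ z₂))]
  rw [h] at h2
  have h3 : 0 < ‖Pc z₀ z₁ z₂‖ ^ 2 - ‖Rc z₀ z₁ z₂‖ ^ 2 := by
    by_contra hc
    push_neg at hc
    nlinarith
  exact lt_of_pow_lt_pow_left₀ 2 (norm_nonneg _) (by linarith)

/-- parameters of the aligned pair that contains the equilateral triangle and has the centre `o` -/
structure Par (o t p q F : ℝ) : Prop where
  o0 : o ≠ 0
  o1 : |o| < 1 / 8
  t0 : 0 < t
  t2 : t ^ 2 = 1 - 4 * o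
  hp : p = (1 - o) * (t + 1) / (2 * t)
  hq : q = (1 - o) * (t - 1) / (2 * t)
  hF : F = 3 * o / (1 - o)

section
variable {o t p q F : ℝ}

lemma Par.olt (h : Par o t p q F) : o < 1 / 8 := (abs_lt.1 h.o1).2
lemma Par.ogt (h : Par o t p q F) : -(1 / 8) < o := (abs_lt.1 h.o1).1
lemma Par.o1' (h : Par o t p q F) : 0 < 1 - o := by linarith [h.olt]
lemma Par.p0 (h : Par o t p q F) : 0 < p := by
  rw [h.hp]; have := h.o1'; have := h.t0; positivity
lemma Par.add (h : Par o t p q F) : p + q = 1 - o := by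
  rw [h.hp, h.hq]; have := h.t0.ne'; field_simp; ring
lemma Par.sub (h : Par o t p q F) : p - q = (1 - o) / t := by
  rw [h.hp, h.hq]; have := h.t0.ne'; field_simp; ring
lemma Par.mulpq (h : Par o t p q F) : p * q = - (1 - o) ^ 2 * o / t ^ 2 := by
  have h1 := h.t2
  have : t ^ 2 - 1 = -4 * o := by rw [h1]; ring
  rw [h.hp, h.hq]; have := h.t0.ne'; field_simp
  linear_combination (1 - o) ^ 2 * ‹t ^ 2 - 1 = -4 * o›
lemma Par.q4 (h : Par o t p q F) : |q| ≤ 4 * |o| * p := by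
  have e1 : q * (t + 1) = p * (t - 1) := by
    rw [h.hp, h.hq]; ring
  have e2 : (t - 1) * (t + 1) = -4 * o := by have := h.t2; nlinarith
  have t1 : 0 < t + 1 := by linarith [h.t0]
  have e3 : |q| * (t + 1) ^ 2 = p * (4 * |o|) := by
    have : q * (t + 1) ^ 2 = p * (-4 * o) := by
      calc q * (t + 1) ^ 2 = q * (t + 1) * (t + 1) := by ring
        _ = p * ((t - 1) * (t + 1)) := by rw [e1]; ring
        _ = _ := by rw [e2]
    have h2 := congrArg abs this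
    rw [abs_mul, abs_mul, abs_mul, abs_of_pos (pow_pos t1 2), abs_of_pos h.p0] at h2
    simpa using h2
  have e4 : 1 ≤ (t + 1) ^ 2 := by nlinarith [h.t0]
  nlinarith [abs_nonneg q]
lemma Par.qlt (h : Par o t p q F) : |q| < p := by
  have := h.q4; have := h.o1; have := h.p0; nlinarith [abs_nonneg o]
lemma Par.Fbd (h : Par o t p q F) : |F| ≤ 4 * |o| := by
  rw [h.hF, abs_div, abs_mul, abs_of_pos h.o1', abs_of_pos (by norm_num : (0:ℝ) < 3), div_le_iff₀ h.o1']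
  have := h.olt
  nlinarith [abs_nonneg o]
lemma Par.F1 (h : Par o t p q F) : |F| < 1 := by
  have := h.Fbd; have := h.o1; linarith
lemma Par.F0 (h : Par o t p q F) : F ≠ 0 := by
  rw [h.hF]; exact div_ne_zero (mul_ne_zero (by norm_num) h.o0) h.o1'.ne'
lemma Par.F1o (h : Par o t p q F) : F * (1 - o) = 3 * o := by
  rw [h.hF]; field_simp [h.o1'.ne']

/-- the equilateral triple -/
noncomputable def zb (o t : ℝ) : ℂ := ⟨-(1 + 2 * o) / (2 * (1 - o)), √3 * t / (2 * (1 - o))⟩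

lemma Par.L0 (h : Par o t p q F) : L p q 1 = T0 0 - o := by
  apply Complex.ext
  · rw [L_real_re, h.add]; simp [T0]
  · rw [L_real_im]; simp [T0]

lemma Par.L1 (h : Par o t p q F) : L p q (zb o t) = T1 0 - o := by
  have h1 := h.o1'.ne'
  have h2 := h.t0.ne'
  apply Complex.ext
  · rw [L_real_re, h.add]; simp [T1, zb, ω_re]; field_simp; ring
  · rw [L_real_im, h.sub]; simp [T1, zb, ω_im]; field_simp

lemma Par.L2 (h : Par o t p q F) : L p q ((starRingEnd ℂ) (zb o t)) = T2 0 - o := by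
  have h1 := h.o1'.ne'
  have h2 := h.t0.ne'
  apply Complex.ext
  · rw [L_real_re, h.add]; simp [T2, zb, ω_re]; field_simp; ring
  · rw [L_real_im, h.sub]; simp [T2, zb, ω_im]; field_simp

lemma Par.normpq (h : Par o t p q F) : ‖(q : ℂ)‖ < ‖(p : ℂ)‖ := by
  rw [norm_real, norm_real, Real.norm_eq_abs, Real.norm_eq_abs, abs_of_pos h.p0]; exact h.qlt

lemma Par.tz_base (h : Par o t p q F) : Tz F 1 (zb o t) ((starRingEnd ℂ) (zb o t)) := by
  have h1 := h.o1'.ne'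
  have h3 := sq3
  have hn : ‖zb o t‖ = 1 := by
    have : ‖zb o t‖ ^ 2 = 1 := by
      rw [nsq_re]
      show (-(1 + 2 * o) / (2 * (1 - o))) ^ 2 + (√3 * t / (2 * (1 - o))) ^ 2 = 1
      have e3 : (√3 * t) ^ 2 = 3 * (1 - 4 * o) := by
        rw [mul_pow, h.t2, Real.sq_sqrt (by norm_num : (0:ℝ) ≤ 3)]
      rw [div_pow, div_pow, e3, ← add_div, div_eq_one_iff_eq]
      · ring
      · have := h.o1'; positivity
    nlinarith [norm_nonneg (zb o t)]
  refine ⟨by simp, hn, by rw [RCLike.norm_conj]; exact hn, ?_, ?_⟩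
  · apply or_of_L h.normpq
    rw [h.L0, h.L1, h.L2, Rc_sub, Pc_sub, Rc_T, Pc_T]; simp
  · have e : zb o t * (starRingEnd ℂ) (zb o t) = 1 := by rw [← nsq, hn]; norm_num
    have e2 : zb o t + (starRingEnd ℂ) (zb o t) = -(F : ℂ) - 1 := by
      rw [Complex.add_conj]
      have : 2 * (zb o t).re = -F - 1 := by
        show 2 * (-(1 + 2 * o) / (2 * (1 - o))) = -F - 1
        rw [h.hF]; field_simp; ring
      rw [this]; push_cast; ring
    rw [e]
    linear_combination e2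
end

end Pool.Agent.Pon30
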