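import Pool.Agent.Pon30.IsoA30

/-!
The second isosceles triangle of an aligned pair.
-/

namespace Pool.Agent.Pon30

open Complex

/-- right vertex of the triple with apex `-i` -/
noncomputable def zr (F : ℝ) : ℂ := ⟨√((1 + F) * (3 - F)) / 2, (1 - F) / 2⟩
noncomputable def zl (F : ℝ) : ℂ := ⟨-(√((1 + F) * (3 - F)) / 2), (1 - F) / 2⟩

lemma zr_norm {F : ℝ} (hF : |F| < 1) : ‖zr F‖ = 1 := by
  have h1 := abs_lt.1 hF
  have h2 : 0 ≤ (1 + F) * (3 - F) := by nlinarith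
  have : ‖zr F‖ ^ 2 = 1 := by
    rw [nsq_re]
    show (√((1 + F) * (3 - F)) / 2) ^ 2 + ((1 - F) / 2) ^ 2 = 1
    rw [div_pow, Real.sq_sqrt h2]; ring
  nlinarith [norm_nonneg (zr F)]

lemma zl_norm {F : ℝ} (hF : |F| < 1) : ‖zl F‖ = 1 := by
  have h1 := abs_lt.1 hF
  have h2 : 0 ≤ (1 + F) * (3 - F) := by nlinarith
  have : ‖zl F‖ ^ 2 = 1 := by
    rw [nsq_re]
    show (-(√((1 + F) * (3 - F)) / 2)) ^ 2 + ((1 - F) / 2) ^ 2 = 1
    rw [neg_sq, div_pow, Real.sq_sqrt h2]; ring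
  nlinarith [norm_nonneg (zl F)]

section
variable (a b d : ℝ)
/-- Fourier coordinates of a triangle with vertices `-i a`, `±b + i d` -/
lemma iso_P : Pc (⟨0, -a⟩ : ℂ) ⟨b, d⟩ ⟨-b, d⟩ = ⟨0, -((a + d) + √3 * b) / 3⟩ := by
  unfold Pc
  apply Complex.ext
  · simp [ω_re, ω_im]
  · simp [ω_re, ω_im]; ring

lemma iso_R : Rc (⟨0, -a⟩ : ℂ) ⟨b, d⟩ ⟨-b, d⟩ = ⟨0, -((a + d) - √3 * b) / 3⟩ := by
  unfold Rc
  apply Complex.ext
  · simp [ω_re, ω_im]
  · simp [ω_re, ω_im]; ring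

lemma iso_G : Gc (⟨0, -a⟩ : ℂ) ⟨b, d⟩ ⟨-b, d⟩ = ⟨0, (-a + 2 * d) / 3⟩ := by
  unfold Gc
  apply Complex.ext
  · simp
  · simp; ring
end

lemma im_div_im (x y : ℝ) : (⟨0, x⟩ : ℂ) / ⟨0, y⟩ = ((x / y : ℝ) : ℂ) := by
  rcases eq_or_ne y 0 with h | h
  · subst h
    have : (⟨0, 0⟩ : ℂ) = 0 := rfl
    rw [this]; simp
  · have e : (⟨0, y⟩ : ℂ) ≠ 0 := by
      intro hc; have := congrArg Complex.im hc; simp at this; exact h this
    rw [div_eq_iff e]
    apply Complex.ext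
    · simp
    · simp; field_simp

lemma tz_second {F : ℝ} (hF : |F| < 1) : Tz F (-I) (zr F) (zl F) := by
  have h1 := abs_lt.1 hF
  have h2 : 0 < (1 + F) * (3 - F) := by nlinarith
  have h4 : 0 < √((1 + F) * (3 - F)) := Real.sqrt_pos.2 h2
  have hI : (-I : ℂ) = ⟨0, -1⟩ := by apply Complex.ext <;> simp
  have hs3 : 0 < √3 := Real.sqrt_pos.2 (by norm_num)
  refine ⟨by simp, zr_norm hF, zl_norm hF, ?_, ?_⟩
  · rw [hI]
    unfold zr zl
    rw [iso_P, iso_R]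
    have n1 : ∀ y : ℝ, ‖(⟨0, y⟩ : ℂ)‖ = |y| := by
      intro y
      have : (⟨0, y⟩ : ℂ) = I * y := by apply Complex.ext <;> simp
      rw [this]; simp
    rw [n1, n1, abs_div, abs_div, abs_neg, abs_neg]
    apply div_lt_div_of_pos_right _ (by norm_num)
    set u := √3 * (√((1 + F) * (3 - F)) / 2) with hu
    have hu0 : 0 < u := by positivity
    have hv : 0 < 1 + (1 - F) / 2 := by linarith
    rw [abs_of_pos (by linarith : 0 < 1 + (1 - F) / 2 + u), abs_lt]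
    constructor <;> linarith
  · have h5 : √((1 + F) * (3 - F)) ^ 2 = (1 + F) * (3 - F) := Real.sq_sqrt h2.le
    apply Complex.ext
    · simp [zr, zl]; nlinarith
    · simp [zr, zl]; ring

/-- value of the centre at the second isosceles triangle, in terms of the shape -/
lemma second_value {o t p q F : ℝ} (h : Par o t p q F) (f : ℂ → ℂ) (x ψ : ℝ) (hx0 : 0 < x) (hx1 : x < 1)
    (hx : ((1 - x) / (1 + x)) ^ 2 = (1 - 4 * o) * (1 + 2 * o) / (1 - 2 * o))
    (hf : f x = (ψ * x / (1 + x) : ℝ)) :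
    Xh f (L p q (-I)) (L p q (zr F)) (L p q (zl F)) = ⟨0, - (o / t) * (1 + 2 * o * ψ)⟩ := by
  have h1 := h.o1'
  have h2 := h.t0
  have hF1 := abs_lt.1 h.F1
  have hlt := h.olt
  have hgt := h.ogt
  set y : ℝ := √((1 + F) * (3 - F)) / 2 with hy
  have hpos : 0 < (1 + F) * (3 - F) := by nlinarith
  have hy2 : y ^ 2 = (1 + F) * (3 - F) / 4 := by
    rw [hy, div_pow, Real.sq_sqrt hpos.le]; norm_num
  have hy0 : 0 < y := by have := Real.sqrt_pos.2 hpos; positivity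
  have hs3 : 0 < √3 := Real.sqrt_pos.2 (by norm_num)
  have e0 : L p q (-I) = ⟨0, -((1 - o) / t)⟩ := by
    apply Complex.ext
    · rw [L_real_re]; simp
    · rw [L_real_im, h.sub]; simp
  have e1 : L p q (zr F) = ⟨(1 - o) * y, (1 - o) / t * ((1 - F) / 2)⟩ := by
    apply Complex.ext
    · rw [L_real_re, h.add]; rfl
    · rw [L_real_im, h.sub]; rfl
  have e2 : L p q (zl F) = ⟨-((1 - o) * y), (1 - o) / t * ((1 - F) / 2)⟩ := by
    apply Complex.ext
    · rw [L_real_re, h.add]; show (1 - o) * -y = _; ring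
    · rw [L_real_im, h.sub]; rfl
  -- H, Y
  set H : ℝ := (1 - o) / t + (1 - o) / t * ((1 - F) / 2) with hH
  set Y : ℝ := √3 * ((1 - o) * y) with hY
  have hH0 : 0 < H := by
    have : 0 < (1 - o) / t := by positivity
    rw [hH]; nlinarith
  have hY0 : 0 < Y := by positivity
  have eF : F * (1 - o) = 3 * o := h.F1o
  have hHval : H = 3 * (1 - 2 * o) / (2 * t) := by
    rw [hH]; field_simp; nlinarith
  have hY2 : Y ^ 2 = 9 * (1 + 2 * o) * (1 - 2 * o) / 4 := by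
    rw [hY, mul_pow, mul_pow, hy2, Real.sq_sqrt (by norm_num : (0:ℝ) ≤ 3)]
    have a1 : (1 - o) * (1 + F) = 1 + 2 * o := by linarith
    have a2 : (1 - o) * (3 - F) = 3 * (1 - 2 * o) := by linarith
    calc 3 * ((1 - o) ^ 2 * ((1 + F) * (3 - F) / 4)) = 3 * (((1 - o) * (1 + F)) * ((1 - o) * (3 - F))) / 4 := by ring
      _ = _ := by rw [a1, a2]; ring
  have hH2 : H ^ 2 = 9 * (1 - 2 * o) ^ 2 / (4 * (1 - 4 * o)) := by
    rw [hHval, div_pow, mul_pow, mul_pow, h.t2]; norm_num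
  have h14 : 0 < 1 - 4 * o := by linarith
  have h12 : 0 < 1 - 2 * o := by linarith
  have h12' : 0 < 1 + 2 * o := by linarith
  have n14 : 1 - 4 * o ≠ 0 := h14.ne'
  have n12 : 1 - 2 * o ≠ 0 := h12.ne'
  -- the shape
  have hxx : x = (H - Y) / (H + Y) := by
    have r1 : (Y / H) ^ 2 = ((1 - x) / (1 + x)) ^ 2 := by
      rw [hx, div_pow, hY2, hH2]; field_simp
    have r2 : Y / H = (1 - x) / (1 + x) := by
      have p1 : 0 < Y / H := by positivity
      have p2 : 0 < (1 - x) / (1 + x) := div_pos (by linarith) (by linarith)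
      exact (pow_left_inj₀ p1.le p2.le two_ne_zero).1 r1
    rw [div_eq_div_iff hH0.ne' (by linarith)] at r2
    rw [eq_div_iff (by linarith)]
    linarith
  rw [Xh, e0, e1, e2, iso_P, iso_R, iso_G, im_div_im]
  have e5 : (-((1 - o) / t + (1 - o) / t * ((1 - F) / 2) - √3 * ((1 - o) * y)) / 3) /
      (-((1 - o) / t + (1 - o) / t * ((1 - F) / 2) + √3 * ((1 - o) * y)) / 3) = x := by
    rw [← hH, ← hY, hxx]
    field_simp
  rw [e5, hf]
  rw [← hH, ← hY]
  have e6 : x / (1 + x) = (H - Y) / (2 * H) := by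
    rw [hxx]
    have : 1 + (H - Y) / (H + Y) = 2 * H / (H + Y) := by field_simp; ring
    rw [this]; field_simp
  have e7 : (H - Y) * (H + Y) = 18 * o ^ 2 * (1 - 2 * o) / (1 - 4 * o) := by
    have : (H - Y) * (H + Y) = H ^ 2 - Y ^ 2 := by ring
    rw [this, hH2, hY2]
    obtain ⟨D, hD⟩ : ∃ D, D = 1 - 4 * o := ⟨_, rfl⟩
    rw [← hD] at n14 ⊢
    field_simp
    rw [hD]; ring
  have e8 : ψ * x / (1 + x) = ψ * ((H - Y) / (2 * H)) := by rw [← e6]; ring
  rw [e8]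
  apply Complex.ext
  · simp only [add_re, mul_re, ofReal_re, ofReal_im, mul_zero, zero_mul, sub_zero, add_zero]
  · have t2 := h.t2
    simp only [add_im, mul_im, ofReal_re, ofReal_im, mul_zero, zero_add]
    have e9 : -(H + Y) / 3 * (ψ * ((H - Y) / (2 * H))) = -ψ * ((H - Y) * (H + Y)) / (6 * H) := by
      field_simp; ring
    rw [e9, e7, hHval, ← t2]
    have ht := h.t0.ne'
    have e10 : -ψ * (18 * o ^ 2 * (1 - 2 * o) / t ^ 2) / (6 * (3 * (1 - 2 * o) / (2 * t))) = -2 * ψ * o ^ 2 / t := by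
      obtain ⟨M, hM⟩ : ∃ M, M = 1 - 2 * o := ⟨_, rfl⟩
      rw [← hM] at n12 ⊢
      field_simp; ring
    rw [e10]
    field_simp
    linear_combination (-1 : ℝ) * eF
end Pool.Agent.Pon30
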