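import Pool.Agent.Pon30.IsoB30

/-!
Triangles of an aligned pair that tend to the equilateral triangle of the pair.
-/

namespace Pool.Agent.Pon30

open Complex Filter Topology

/-- tracking of the roots of a quadratic polynomial by their size -/
lemma track {ι : Type*} {l : Filter ι} {P R : ι → ℂ} {P0 R0 : ℂ}
    (hs : Tendsto (fun i => P i + R i) l (𝓝 (P0 + R0))) (hp : Tendsto (fun i => P i * R i) l (𝓝 (P0 * R0)))
    (hlt : ∀ i, ‖R i‖ < ‖P i‖) (hb : ∀ i, ‖P i‖ ≤ 1) (h0 : ‖R0‖ < ‖P0‖) :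
    Tendsto P l (𝓝 P0) ∧ Tendsto R l (𝓝 R0) := by
  have hP : Tendsto P l (𝓝 P0) := by
    rw [tendsto_iff_norm_sub_tendsto_zero]
    have hs' := tendsto_iff_norm_sub_tendsto_zero.1 hs
    have hp' := tendsto_iff_norm_sub_tendsto_zero.1 hp
    set m := (‖P0‖ - ‖R0‖) / 2 with hm
    have hm0 : 0 < m := by rw [hm]; linarith
    have hg : Tendsto (fun i => (‖P i + R i - (P0 + R0)‖ + ‖P i * R i - P0 * R0‖) * (2 / m)) l (𝓝 0) := by
      have := (hs'.add hp').mul_const (2 / m)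
      simpa using this
    refine squeeze_zero' (Eventually.of_forall fun _ => norm_nonneg _) ?_ hg
    have ev : ∀ᶠ i in l, ‖P i + R i - (P0 + R0)‖ < m / 2 := hs'.eventually_lt_const (by linarith)
    filter_upwards [ev] with i hi
    have key : m / 2 ≤ ‖P i - R0‖ := by
      by_contra hc
      push_neg at hc
      have e1 : R i - P0 = (P i + R i - (P0 + R0)) - (P i - R0) := by ring
      have e2 : ‖R i - P0‖ < m := by
        rw [e1]; calc _ ≤ _ := norm_sub_le _ _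
          _ < m := by linarith
      have e3 : ‖P0‖ ≤ ‖R i‖ + ‖R i - P0‖ := by
        have : P0 = R i - (R i - P0) := by ring
        conv_lhs => rw [this]
        exact norm_sub_le _ _
      have e4 : ‖P i‖ ≤ ‖R0‖ + ‖P i - R0‖ := by
        have : P i = R0 + (P i - R0) := by ring
        conv_lhs => rw [this]
        exact norm_add_le _ _
      have := hlt i
      linarith
    have e5 : (P i - P0) * (P i - R0) = (P i + R i - (P0 + R0)) * P i - (P i * R i - P0 * R0) := by ring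
    have e6 : ‖P i - P0‖ * ‖P i - R0‖ ≤ ‖P i + R i - (P0 + R0)‖ + ‖P i * R i - P0 * R0‖ := by
      rw [← norm_mul, e5]
      calc _ ≤ _ := norm_sub_le _ _
        _ ≤ _ := by
          rw [norm_mul]
          have := mul_le_mul_of_nonneg_left (hb i) (norm_nonneg (P i + R i - (P0 + R0)))
          linarith
    have e7 : ‖P i - P0‖ * (m / 2) ≤ ‖P i + R i - (P0 + R0)‖ + ‖P i * R i - P0 * R0‖ :=
      (mul_le_mul_of_nonneg_left key (norm_nonneg _)).trans e6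
    calc ‖P i - P0‖ = ‖P i - P0‖ * (m / 2) * (2 / m) := by field_simp
      _ ≤ _ := mul_le_mul_of_nonneg_right e7 (by positivity)
  refine ⟨hP, ?_⟩
  have := hs.sub hP
  simpa using this

/-- for real `F` the product `λ` of the vertices is a function of one vertex -/
lemma Tz.lam_eq {F : ℝ} {z₀ z₁ z₂ : ℂ} (h : Tz F z₀ z₁ z₂) :
    z₀ * z₁ * z₂ * (1 - F * z₀ ^ 2) = z₀ ^ 3 - F * z₀ := by
  have h1 := h.s1
  have h2 := h.s2
  rw [Complex.conj_ofReal] at h1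
  linear_combination z₀ * h2 - z₀ ^ 2 * h1

lemma Tz.Pnorm_le {F z₀ z₁ z₂ : ℂ} (h : Tz F z₀ z₁ z₂) : ‖Pc z₀ z₁ z₂‖ ≤ 1 := by
  have := h.parseval
  nlinarith [norm_nonneg (Pc z₀ z₁ z₂), sq_nonneg ‖Rc z₀ z₁ z₂‖, sq_nonneg ‖Gc z₀ z₁ z₂‖]

section
variable {o t p q F : ℝ}

lemma Par.x1 (h : Par o t p q F) (κ : ℝ) :
    -(1 - κ) * (F / 3) * (p + q) + κ * p * q * (1 - F) / (p + q) = -o := by
  have e1 := h.mulpq
  have e2 := h.F1o
  have e3 := h.t2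
  have n1 := h.o1'.ne'
  have n2 := h.t0.ne'
  have e4 : κ * p * q = κ * (- (1 - o) ^ 2 * o / t ^ 2) := by rw [← e1]; ring
  rw [e4, h.add]
  have e5 : (1 - o) * (1 - F) = t ^ 2 := by rw [e3]; linarith
  have e6 : κ * (-(1 - o) ^ 2 * o / t ^ 2) * (1 - F) / (1 - o) = κ * (-o) * ((1 - o) * (1 - F)) / t ^ 2 := by
    field_simp
  rw [e6, e5]
  field_simp
  linear_combination (-(1 - κ)) * e2

lemma Par.y2 (h : Par o t p q F) (κ : ℝ) :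
    -(1 - κ) * (F / 3) * (p - q) + κ * p * q * (1 + F) / (p - q) = -(o / t) * (1 + 2 * κ * o) := by
  have e1 := h.mulpq
  have e2 := h.F1o
  have n1 := h.o1'.ne'
  have n2 := h.t0.ne'
  have e4 : κ * p * q = κ * (- (1 - o) ^ 2 * o / t ^ 2) := by rw [← e1]; ring
  rw [e4, h.sub]
  have e5 : (1 - o) * (1 + F) = 1 + 2 * o := by linarith
  have e6 : κ * (-(1 - o) ^ 2 * o / t ^ 2) * (1 + F) / ((1 - o) / t) = κ * (-o) * ((1 - o) * (1 + F)) / t := by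
    field_simp
  rw [e6, e5]
  field_simp
  linear_combination (-(1 - κ)) * e2

/-- the base triple in Fourier coordinates -/
lemma Par.base_facts (h : Par o t p q F) :
    p * Pc 1 (zb o t) ((starRingEnd ℂ) (zb o t)) + q * (starRingEnd ℂ) (Rc 1 (zb o t) ((starRingEnd ℂ) (zb o t))) = 1 ∧
    p * Rc 1 (zb o t) ((starRingEnd ℂ) (zb o t)) + q * (starRingEnd ℂ) (Pc 1 (zb o t) ((starRingEnd ℂ) (zb o t))) = 0 ∧
    Gc 1 (zb o t) ((starRingEnd ℂ) (zb o t)) = -(F : ℂ) / 3 := by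
  refine ⟨?_, ?_, ?_⟩
  · rw [← Pc_L, h.L0, h.L1, h.L2, Pc_sub, Pc_T]
  · rw [← Rc_L, h.L0, h.L1, h.L2, Rc_sub, Rc_T]
  · rw [h.tz_base.G_eq]
    have hn := h.tz_base.n₁
    have : (1 : ℂ) * zb o t * (starRingEnd ℂ) (zb o t) = 1 := by rw [one_mul, ← nsq, hn]; norm_num
    rw [this, Complex.conj_ofReal]; ring
end

/-- third order comparison with `hκ` -/
lemma jet_cmp {f : ℂ → ℂ} {κ η C ε : ℝ} (hε : 0 < ε)
    (hj : ∀ s : ℂ, ‖s‖ < ε → ‖f s - (κ * (starRingEnd ℂ) s + η * s ^ 2)‖ ≤ C * ‖s‖ ^ 3) :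
    ∃ C' ε' : ℝ, 0 < ε' ∧ ε' ≤ 1 / 2 ∧ ∀ s : ℂ, ‖s‖ < ε' →
      ‖f s - hκ κ s - (η + κ) * s ^ 2‖ ≤ C' * ‖s‖ ^ 3 := by
  refine ⟨|C| + 4 * |κ|, min ε (1 / 2), lt_min hε (by norm_num), min_le_right _ _, ?_⟩
  intro s hs
  have h1 : ‖s‖ < ε := lt_of_lt_of_le hs (min_le_left _ _)
  have h2 : ‖s‖ < 1 / 2 := lt_of_lt_of_le hs (min_le_right _ _)
  have h0 := norm_nonneg s
  have hd : 0 < 1 - ‖s‖ ^ 2 := by nlinarith
  have hd' : 3 / 4 ≤ 1 - ‖s‖ ^ 2 := by nlinarith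
  have e : f s - hκ κ s - (η + κ) * s ^ 2 =
      (f s - (κ * (starRingEnd ℂ) s + η * s ^ 2)) - κ * ((starRingEnd ℂ) s - s ^ 2) * ((‖s‖ ^ 2 / (1 - ‖s‖ ^ 2) : ℝ) : ℂ) := by
    unfold hκ
    have hdc : ((1 - ‖s‖ ^ 2 : ℝ) : ℂ) ≠ 0 := by exact_mod_cast hd.ne'
    have : ((‖s‖ ^ 2 / (1 - ‖s‖ ^ 2) : ℝ) : ℂ) = ((‖s‖ ^ 2 : ℝ) : ℂ) / ((1 - ‖s‖ ^ 2 : ℝ) : ℂ) := by push_cast; rfl
    rw [this]
    field_simp
    push_cast
    ring
  rw [e]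
  have n1 : ‖(κ : ℂ) * ((starRingEnd ℂ) s - s ^ 2) * ((‖s‖ ^ 2 / (1 - ‖s‖ ^ 2) : ℝ) : ℂ)‖ ≤ 4 * |κ| * ‖s‖ ^ 3 := by
    rw [norm_mul, norm_mul, norm_real, norm_real, Real.norm_eq_abs, Real.norm_eq_abs,
      abs_of_nonneg (by positivity : 0 ≤ ‖s‖ ^ 2 / (1 - ‖s‖ ^ 2))]
    have a1 : ‖(starRingEnd ℂ) s - s ^ 2‖ ≤ 2 * ‖s‖ := by
      calc _ ≤ ‖(starRingEnd ℂ) s‖ + ‖s ^ 2‖ := norm_sub_le _ _
        _ = ‖s‖ + ‖s‖ ^ 2 := by rw [RCLike.norm_conj, norm_pow]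
        _ ≤ _ := by nlinarith
    have a2 : ‖s‖ ^ 2 / (1 - ‖s‖ ^ 2) ≤ 2 * ‖s‖ ^ 2 := by
      rw [div_le_iff₀ hd]; nlinarith [sq_nonneg ‖s‖]
    calc |κ| * ‖(starRingEnd ℂ) s - s ^ 2‖ * (‖s‖ ^ 2 / (1 - ‖s‖ ^ 2)) ≤ |κ| * (2 * ‖s‖) * (2 * ‖s‖ ^ 2) := by
          gcongr
      _ = _ := by ring
  calc _ ≤ _ := norm_sub_le _ _
    _ ≤ C * ‖s‖ ^ 3 + 4 * |κ| * ‖s‖ ^ 3 := add_le_add (hj s h1) n1
    _ ≤ _ := by
      have : C * ‖s‖ ^ 3 ≤ |C| * ‖s‖ ^ 3 := mul_le_mul_of_nonneg_right (le_abs_self C) (by positivity)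
      linarith

end Pool.Agent.Pon30
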