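import Pool.Agent.Pon30.IsoC30

namespace Pool.Agent.Pon30

open Complex Filter Topology

theorem approach (hFam : FamStmt) (hLoc : LocStmt) {o t p q F : ℝ} (h : Par o t p q F) {f : ℂ → ℂ}
    {κ η C ε : ℝ} (hε : 0 < ε)
    (hj : ∀ s : ℂ, ‖s‖ < ε → ‖f s - (κ * (starRingEnd ℂ) s + η * s ^ 2)‖ ≤ C * ‖s‖ ^ 3) {a b c : ℝ} (hc : a * o ^ 2 = c)
    (hab : ∀ z₀ z₁ z₂, Tz F z₀ z₁ z₂ →
        a * (Xh f (L p q z₀) (L p q z₁) (L p q z₂)).re ^ 2 +
          b * (Xh f (L p q z₀) (L p q z₁) (L p q z₂)).im ^ 2 = c) :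
    b * (1 + 2 * κ * o) ^ 2 = a * (1 - 4 * o - 8 * (η + κ) * o ^ 3) := by
  obtain ⟨C', ε', hε', hε2, hjc⟩ := jet_cmp hε hj
  have hF1 : ‖(F : ℂ)‖ < 1 := by rw [norm_real, Real.norm_eq_abs]; exact h.F1
  choose z1 z2 hz using fun θ : ℝ => hFam F (Complex.exp (θ * I)) hF1 (Complex.norm_exp_ofReal_mul_I θ)
  set z0 : ℝ → ℂ := fun θ => Complex.exp (θ * I) with hz0
  set l : Filter ℝ := 𝓝[>] 0 with hl
  have tz0 : Tendsto z0 l (𝓝 1) := by
    have hcont : Continuous z0 := by rw [hz0]; fun_prop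
    have := hcont.tendsto 0
    have e : z0 0 = 1 := by simp [hz0]
    rw [e] at this
    exact this.mono_left nhdsWithin_le_nhds
  set lam : ℝ → ℂ := fun θ => z0 θ * z1 θ * z2 θ with hlam
  have F1 := abs_lt.1 h.F1
  have n1F : (1 : ℂ) - F ≠ 0 := by
    have : (1 - F : ℝ) ≠ 0 := by linarith
    have h2 : ((1 - F : ℝ) : ℂ) ≠ 0 := by exact_mod_cast this
    simpa using h2
  have tden : Tendsto (fun θ => 1 - F * z0 θ ^ 2) l (𝓝 (1 - (F : ℂ))) := by
    have := ((tz0.pow 2).const_mul (F : ℂ)).const_sub 1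
    simpa using this
  have evden : ∀ᶠ θ in l, 1 - F * z0 θ ^ 2 ≠ 0 := tden.eventually_ne n1F
  have tlam : Tendsto lam l (𝓝 1) := by
    have e : ∀ᶠ θ in l, (z0 θ ^ 3 - F * z0 θ) / (1 - F * z0 θ ^ 2) = lam θ := by
      filter_upwards [evden] with θ hθ
      rw [div_eq_iff hθ]
      exact (hz θ).lam_eq.symm
    refine Tendsto.congr' e ?_
    have := ((tz0.pow 3).sub (tz0.const_mul (F : ℂ))).div tden n1F
    have e2 : ((1 : ℂ) ^ 3 - F * 1) / (1 - F) = 1 := by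
      rw [one_pow, mul_one]; exact div_self n1F
    rwa [e2] at this
  have hlamn : ∀ θ, ‖lam θ‖ = 1 := fun θ => (hz θ).lam_norm
  set σ : ℝ → ℝ := fun θ => (lam θ).im with hσ
  set cc : ℝ → ℝ := fun θ => (lam θ).re with hcc
  have tσ : Tendsto σ l (𝓝 0) := by
    have := (Complex.continuous_im.tendsto 1).comp tlam
    rw [Complex.one_im] at this
    exact this
  have tc : Tendsto cc l (𝓝 1) := by
    have := (Complex.continuous_re.tendsto 1).comp tlam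
    rw [Complex.one_re] at this
    exact this
  have hcσ : ∀ θ, cc θ ^ 2 + σ θ ^ 2 = 1 := by
    intro θ
    have := nsq_re (lam θ)
    rw [hlamn θ] at this
    simp only [hcc, hσ]; linarith
  -- σ is not zero
  have evσ : ∀ᶠ θ in l, σ θ ≠ 0 := by
    have t1 : Tendsto (fun θ => z0 θ ^ 2 + (1 + F) * z0 θ + 1) l (𝓝 (3 + (F : ℂ))) := by
      have := ((tz0.pow 2).add (tz0.const_mul (1 + F : ℂ))).add_const 1
      have e2 : (1 : ℂ) ^ 2 + (1 + F) * 1 + 1 = 3 + F := by ring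
      rwa [e2] at this
    have n3 : (3 : ℂ) + F ≠ 0 := by
      have : (3 + F : ℝ) ≠ 0 := by linarith
      have h2 : ((3 + F : ℝ) : ℂ) ≠ 0 := by exact_mod_cast this
      simpa using h2
    have ev1 := t1.eventually_ne n3
    have ev2 : ∀ᶠ θ in l, (0 : ℝ) < cc θ := tc.eventually_const_lt one_pos
    have ev3 : ∀ᶠ θ in l, θ ∈ Set.Ioo (0 : ℝ) 1 := Ioo_mem_nhdsGT one_pos
    filter_upwards [ev1, ev2, ev3, evden] with θ h1 h2 h3 h4 h0
    have hc2 : cc θ = 1 := by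
      have := hcσ θ
      rw [h0] at this
      nlinarith
    have hl1 : lam θ = 1 := by
      apply Complex.ext
      · simpa using hc2
      · simpa using h0
    have e := (hz θ).lam_eq
    have e' : lam θ * (1 - F * z0 θ ^ 2) = z0 θ ^ 3 - F * z0 θ := e
    rw [hl1] at e'
    have e3 : (z0 θ - 1) * (z0 θ ^ 2 + (1 + F) * z0 θ + 1) = 0 := by linear_combination -e'
    rcases mul_eq_zero.1 e3 with h5 | h5
    · have h6 : (z0 θ).im = 0 := by
        have : z0 θ = 1 := by linear_combination h5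
        rw [this]; simp
      have h7 : (z0 θ).im = Real.sin θ := by
        simp only [hz0]; exact Complex.exp_ofReal_mul_I_im θ
      have h8 : 0 < Real.sin θ := Real.sin_pos_of_pos_of_lt_pi h3.1 (by have := Real.pi_gt_three; linarith [h3.2])
      linarith
    · exact h1 h5
  -- Fourier coordinates
  obtain ⟨b1, b2, b3⟩ := h.base_facts
  set P0 := Pc 1 (zb o t) ((starRingEnd ℂ) (zb o t)) with hP0
  set R0 := Rc 1 (zb o t) ((starRingEnd ℂ) (zb o t)) with hR0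
  have hor : ‖R0‖ < ‖P0‖ := h.tz_base.or
  have hsum0 : P0 + R0 = 1 + F / 3 := by
    have := w0_eq 1 (zb o t) ((starRingEnd ℂ) (zb o t))
    rw [b3, ← hP0, ← hR0] at this
    linear_combination -this
  have hprod0 : P0 * R0 = F ^ 2 / 9 + F / 3 := by
    have := h.tz_base.F_eq
    rw [b3, ← hP0, ← hR0] at this
    linear_combination -(1 / 3) * this
  set P : ℝ → ℂ := fun θ => Pc (z0 θ) (z1 θ) (z2 θ) with hP
  set R : ℝ → ℂ := fun θ => Rc (z0 θ) (z1 θ) (z2 θ) with hR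
  have hG : ∀ θ, Gc (z0 θ) (z1 θ) (z2 θ) = -(lam θ) * F / 3 := by
    intro θ
    rw [(hz θ).G_eq, Complex.conj_ofReal]
  have tG : Tendsto (fun θ => -(lam θ) * F / 3) l (𝓝 (-(F : ℂ) / 3)) := by
    have := ((tlam.neg).mul_const (F : ℂ)).div_const 3
    simpa using this
  obtain ⟨tP, tR⟩ : Tendsto P l (𝓝 P0) ∧ Tendsto R l (𝓝 R0) := by
    apply track _ _ (fun θ => (hz θ).or) (fun θ => (hz θ).Pnorm_le) hor
    · have e : ∀ θ, z0 θ - -(lam θ) * F / 3 = P θ + R θ := by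
        intro θ
        have := w0_eq (z0 θ) (z1 θ) (z2 θ)
        rw [hG θ] at this
        linear_combination this
      refine Tendsto.congr e ?_
      rw [hsum0]
      have := tz0.sub tG
      have e2 : (1 : ℂ) - -F / 3 = 1 + F / 3 := by ring
      rwa [e2] at this
    · have e : ∀ θ, (-(lam θ) * F / 3) ^ 2 + F / 3 = P θ * R θ := by
        intro θ
        have := (hz θ).F_eq
        rw [hG θ] at this
        linear_combination (1 / 3) * this
      refine Tendsto.congr e ?_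
      rw [hprod0]
      have := (tG.pow 2).add_const ((F : ℂ) / 3)
      have e2 : (-(F : ℂ) / 3) ^ 2 + F / 3 = F ^ 2 / 9 + F / 3 := by ring
      rwa [e2] at this
  set Pw : ℝ → ℂ := fun θ => p * P θ + q * (starRingEnd ℂ) (R θ) with hPw
  set Rw : ℝ → ℂ := fun θ => p * R θ + q * (starRingEnd ℂ) (P θ) with hRw
  have tcjP : Tendsto (fun θ => (starRingEnd ℂ) (P θ)) l (𝓝 ((starRingEnd ℂ) P0)) := (Complex.continuous_conj.tendsto P0).comp tP
  have tcjR : Tendsto (fun θ => (starRingEnd ℂ) (R θ)) l (𝓝 ((starRingEnd ℂ) R0)) := (Complex.continuous_conj.tendsto R0).comp tR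
  have tPw : Tendsto Pw l (𝓝 1) := by
    have := (tP.const_mul (p : ℂ)).add (tcjR.const_mul (q : ℂ))
    rwa [b1] at this
  have tRw : Tendsto Rw l (𝓝 0) := by
    have := (tR.const_mul (p : ℂ)).add (tcjP.const_mul (q : ℂ))
    rwa [b2] at this
  set s : ℝ → ℂ := fun θ => Rw θ / Pw θ with hs
  have ts : Tendsto s l (𝓝 0) := by
    have := tRw.div tPw one_ne_zero
    rw [zero_div] at this
    exact this
  have evP : ∀ᶠ θ in l, Pw θ ≠ 0 := tPw.eventually_ne one_ne_zero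
  have evs : ∀ᶠ θ in l, ‖s θ‖ < ε' := by
    have := ts.norm
    rw [norm_zero] at this
    exact this.eventually_lt_const hε'
  -- the points
  have hXf : ∀ (g : ℂ → ℂ) θ, Xh g (L p q (z0 θ)) (L p q (z1 θ)) (L p q (z2 θ)) =
      L p q (-(lam θ) * F / 3) + Pw θ * g (s θ) := by
    intro g θ
    unfold Xh
    rw [Gc_L, Pc_L, Rc_L, hG θ]
  have hloc : ∀ (k : ℝ) θ, L p q (-(lam θ) * F / 3) + Pw θ * hκ k (s θ) =
      ((cc θ * -o : ℝ) : ℂ) + ((σ θ * (-(o / t) * (1 + 2 * k * o)) : ℝ) : ℂ) * I := by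
    intro k θ
    rw [← hXf]
    have := hLoc p q F k (z0 θ) (z1 θ) (z2 θ) h.qlt h.F1 (hz θ)
    rw [this, h.x1 k, h.y2 k]
  have hk1 : ∀ θ, Pw θ * hκ 1 (s θ) = ((-(2 * o ^ 2 / t) * σ θ : ℝ) : ℂ) * I := by
    intro θ
    have e1 := hloc 1 θ
    have e0 := hloc 0 θ
    have e00 : hκ 0 (s θ) = 0 := by simp [hκ]
    rw [e00, mul_zero, add_zero] at e0
    rw [e0] at e1
    have e2 : Pw θ * hκ 1 (s θ) = (((cc θ * -o : ℝ) : ℂ) + ((σ θ * (-(o / t) * (1 + 2 * 1 * o)) : ℝ) : ℂ) * I) -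
        (((cc θ * -o : ℝ) : ℂ) + ((σ θ * (-(o / t) * (1 + 2 * 0 * o)) : ℝ) : ℂ) * I) := by
      rw [← e1]; ring
    rw [e2]
    push_cast
    ring
  -- s / σ
  set S : ℝ → ℂ := fun θ => s θ / σ θ with hS
  set K : ℝ → ℂ := fun θ => (-(2 * o ^ 2 / t) : ℝ) * I / Pw θ with hK
  have tK : Tendsto K l (𝓝 ((-(2 * o ^ 2 / t) : ℝ) * I)) := by
    have := (tendsto_const_nhds (x := ((-(2 * o ^ 2 / t) : ℝ) : ℂ) * I) (f := l)).div tPw one_ne_zero
    rw [div_one] at this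
    exact this
  have eS : ∀ᶠ θ in l, (starRingEnd ℂ) (S θ) = K θ * (1 - ‖s θ‖ ^ 2 : ℝ) + s θ * S θ := by
    filter_upwards [evP, evσ, evs] with θ hP1 hσ1 hs1
    have hs2 : ‖s θ‖ < 1 / 2 := lt_of_lt_of_le hs1 hε2
    have hd : (1 - ‖s θ‖ ^ 2 : ℝ) ≠ 0 := by nlinarith [norm_nonneg (s θ)]
    have hdc : ((1 - ‖s θ‖ ^ 2 : ℝ) : ℂ) ≠ 0 := by exact_mod_cast hd
    have hσc : ((σ θ : ℝ) : ℂ) ≠ 0 := by exact_mod_cast hσ1
    have e1 := hk1 θ
    unfold hκ at e1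
    have e2 : Pw θ * ((starRingEnd ℂ) (s θ) - s θ ^ 2) = ((-(2 * o ^ 2 / t) * σ θ : ℝ) : ℂ) * I * (1 - ‖s θ‖ ^ 2 : ℝ) := by
      rw [← e1]; push_cast at hdc ⊢; field_simp
    have e3 : (starRingEnd ℂ) (S θ) = (starRingEnd ℂ) (s θ) / σ θ := by simp only [hS]; rw [map_div₀, Complex.conj_ofReal]
    rw [e3]
    simp only [hK, hS]
    rw [div_eq_iff hσc]
    have e4 : (starRingEnd ℂ) (s θ) = (((-(2 * o ^ 2 / t) * σ θ : ℝ) : ℂ) * I * (1 - ‖s θ‖ ^ 2 : ℝ)) / Pw θ + s θ ^ 2 := by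
      rw [← e2]; field_simp; ring
    rw [e4]
    push_cast
    field_simp
  have bS : ∀ᶠ θ in l, ‖S θ‖ ≤ 2 * ‖K θ‖ := by
    filter_upwards [eS, evs] with θ h1 h2
    have hs2 : ‖s θ‖ < 1 / 2 := lt_of_lt_of_le h2 hε2
    have h3 : ‖S θ‖ = ‖(starRingEnd ℂ) (S θ)‖ := (RCLike.norm_conj _).symm
    have h4 : ‖((1 - ‖s θ‖ ^ 2 : ℝ) : ℂ)‖ ≤ 1 := by
      rw [norm_real, Real.norm_eq_abs, abs_le]
      constructor <;> nlinarith [norm_nonneg (s θ)]
    have h5 : ‖S θ‖ ≤ ‖K θ‖ + ‖s θ‖ * ‖S θ‖ := by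
      conv_lhs => rw [h3, h1]
      calc _ ≤ _ := norm_add_le _ _
        _ ≤ _ := by
          rw [norm_mul, norm_mul]
          have := mul_le_mul_of_nonneg_left h4 (norm_nonneg (K θ))
          linarith
    nlinarith [norm_nonneg (S θ), norm_nonneg (K θ)]
  have tsS : Tendsto (fun θ => s θ * S θ) l (𝓝 0) := by
    rw [tendsto_zero_iff_norm_tendsto_zero]
    have hg : Tendsto (fun θ => ‖s θ‖ * (2 * ‖K θ‖)) l (𝓝 0) := by
      have := ts.norm.mul (tK.norm.const_mul 2)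
      simpa using this
    refine squeeze_zero' (Eventually.of_forall fun _ => norm_nonneg _) ?_ hg
    filter_upwards [bS] with θ h1
    rw [norm_mul]
    exact mul_le_mul_of_nonneg_left h1 (norm_nonneg _)
  have tn : Tendsto (fun θ => ((1 - ‖s θ‖ ^ 2 : ℝ) : ℂ)) l (𝓝 1) := by
    have h1 : Tendsto (fun θ => (1 - ‖s θ‖ ^ 2 : ℝ)) l (𝓝 1) := by
      have := (ts.norm.pow 2).const_sub 1
      simpa using this
    have := (Complex.continuous_ofReal.tendsto 1).comp h1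
    rw [Complex.ofReal_one] at this
    exact this
  have tcS : Tendsto (fun θ => (starRingEnd ℂ) (S θ)) l (𝓝 ((-(2 * o ^ 2 / t) : ℝ) * I)) := by
    refine Tendsto.congr' (eS.mono fun θ hθ => hθ.symm) ?_
    have := (tK.mul tn).add tsS
    simpa using this
  have tS : Tendsto S l (𝓝 (((2 * o ^ 2 / t) : ℝ) * I)) := by
    have := (Complex.continuous_conj.tendsto ((-(2 * o ^ 2 / t) : ℝ) * I)).comp tcS
    have e1 : (starRingEnd ℂ) ((-(2 * o ^ 2 / t) : ℝ) * I) = ((2 * o ^ 2 / t) : ℝ) * I := by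
      rw [map_mul, Complex.conj_ofReal, Complex.conj_I]; push_cast; ring
    rw [e1] at this
    refine Tendsto.congr (fun θ => ?_) this
    simp
  -- U
  set U : ℝ → ℂ := fun θ => Pw θ * (f (s θ) - hκ κ (s θ)) / (σ θ) ^ 2 with hU
  have tU : Tendsto U l (𝓝 ((-(4 * (η + κ) * o ^ 4 / t ^ 2) : ℝ) : ℂ)) := by
    have t1 : Tendsto (fun θ => (f (s θ) - hκ κ (s θ) - (η + κ) * s θ ^ 2) / (σ θ) ^ 2) l (𝓝 0) := by
      rw [tendsto_zero_iff_norm_tendsto_zero]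
      have hg : Tendsto (fun θ => |C'| * (‖s θ‖ * (2 * ‖K θ‖) ^ 2)) l (𝓝 0) := by
        have := (ts.norm.mul ((tK.norm.const_mul 2).pow 2)).const_mul |C'|
        simpa using this
      refine squeeze_zero' (Eventually.of_forall fun _ => norm_nonneg _) ?_ hg
      filter_upwards [bS, evs, evσ] with θ h1 h2 h3
      have h4 := hjc (s θ) h2
      have hσ0 : 0 < |σ θ| := abs_pos.2 h3
      have e0 : ‖((σ θ : ℝ) : ℂ) ^ 2‖ = |σ θ| ^ 2 := by rw [norm_pow, norm_real, Real.norm_eq_abs]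
      have e1 : ‖S θ‖ = ‖s θ‖ / |σ θ| := by simp only [hS]; rw [norm_div, norm_real, Real.norm_eq_abs]
      rw [norm_div, e0, div_le_iff₀ (by positivity)]
      calc _ ≤ C' * ‖s θ‖ ^ 3 := h4
        _ ≤ |C'| * ‖s θ‖ ^ 3 := mul_le_mul_of_nonneg_right (le_abs_self _) (by positivity)
        _ = |C'| * (‖s θ‖ * ‖S θ‖ ^ 2) * |σ θ| ^ 2 := by rw [e1]; field_simp
        _ ≤ _ := by
          apply mul_le_mul_of_nonneg_right _ (by positivity)
          apply mul_le_mul_of_nonneg_left _ (abs_nonneg _)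
          apply mul_le_mul_of_nonneg_left _ (norm_nonneg _)
          exact pow_le_pow_left₀ (norm_nonneg _) h1 2
    have t2 := tPw.mul ((((tS.pow 2).const_mul ((η : ℂ) + κ)).add t1))
    have e2 : (1 : ℂ) * ((η + κ) * (((2 * o ^ 2 / t : ℝ) : ℂ) * I) ^ 2 + 0) =
        ((-(4 * (η + κ) * o ^ 4 / t ^ 2) : ℝ) : ℂ) := by
      rw [mul_pow, I_sq]; push_cast; ring
    rw [e2] at t2
    refine Tendsto.congr' ?_ t2
    filter_upwards [evσ] with θ h3
    have hσc : ((σ θ : ℝ) : ℂ) ≠ 0 := by exact_mod_cast h3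
    simp only [hU, hS]
    field_simp
    ring
  -- final relation
  have rel : ∀ᶠ θ in l, a * (-o ^ 2 - 2 * o * cc θ * (U θ).re + σ θ ^ 2 * (U θ).re ^ 2) +
      b * (-(o / t) * (1 + 2 * κ * o) + σ θ * (U θ).im) ^ 2 = 0 := by
    filter_upwards [evσ] with θ h3
    have hσc : ((σ θ : ℝ) : ℂ) ≠ 0 := by exact_mod_cast h3
    have e1 := hab _ _ _ (hz θ)
    have e2 : Xh f (L p q (z0 θ)) (L p q (z1 θ)) (L p q (z2 θ)) =
        ((cc θ * -o : ℝ) : ℂ) + ((σ θ * (-(o / t) * (1 + 2 * κ * o)) : ℝ) : ℂ) * I + (σ θ : ℂ) ^ 2 * U θ := by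
      rw [hXf, ← hloc κ θ]
      simp only [hU]
      field_simp
      ring
    have e2' : Xh f (L p q (Complex.exp (θ * I))) (L p q (z1 θ)) (L p q (z2 θ)) =
        ((cc θ * -o : ℝ) : ℂ) + ((σ θ * (-(o / t) * (1 + 2 * κ * o)) : ℝ) : ℂ) * I + (σ θ : ℂ) ^ 2 * U θ := e2
    rw [e2'] at e1
    have e3 : (((cc θ * -o : ℝ) : ℂ) + ((σ θ * (-(o / t) * (1 + 2 * κ * o)) : ℝ) : ℂ) * I +
        (σ θ : ℂ) ^ 2 * U θ).re = -o * cc θ + σ θ ^ 2 * (U θ).re := by
      rw [← ofReal_pow]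
      simp only [add_re, mul_re, ofReal_re, ofReal_im, I_re, I_im, mul_zero, mul_one, zero_mul, sub_zero, add_zero]
      ring
    have e4 : (((cc θ * -o : ℝ) : ℂ) + ((σ θ * (-(o / t) * (1 + 2 * κ * o)) : ℝ) : ℂ) * I +
        (σ θ : ℂ) ^ 2 * U θ).im = σ θ * (-(o / t) * (1 + 2 * κ * o)) + σ θ ^ 2 * (U θ).im := by
      rw [← ofReal_pow]
      simp only [add_im, mul_im, ofReal_re, ofReal_im, I_re, I_im, mul_zero, mul_one, zero_mul, zero_add, add_zero]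
    rw [e3, e4, ← hc] at e1
    have e5 := hcσ θ
    have hσ2 : σ θ ^ 2 ≠ 0 := pow_ne_zero _ h3
    apply mul_left_cancel₀ hσ2
    rw [mul_zero]
    linear_combination e1 - a * o ^ 2 * e5
  have tUr : Tendsto (fun θ => (U θ).re) l (𝓝 (-(4 * (η + κ) * o ^ 4 / t ^ 2))) := by
    have := (Complex.continuous_re.tendsto _).comp tU
    rw [Complex.ofReal_re] at this
    exact this
  have tUi : Tendsto (fun θ => (U θ).im) l (𝓝 0) := by
    have := (Complex.continuous_im.tendsto _).comp tU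
    rw [Complex.ofReal_im] at this
    exact this
  have lim : Tendsto (fun θ => a * (-o ^ 2 - 2 * o * cc θ * (U θ).re + σ θ ^ 2 * (U θ).re ^ 2) +
      b * (-(o / t) * (1 + 2 * κ * o) + σ θ * (U θ).im) ^ 2) l
      (𝓝 (a * (-o ^ 2 - 2 * o * 1 * (-(4 * (η + κ) * o ^ 4 / t ^ 2)) + 0 ^ 2 * (-(4 * (η + κ) * o ^ 4 / t ^ 2)) ^ 2) +
      b * (-(o / t) * (1 + 2 * κ * o) + 0 * 0) ^ 2)) := by
    have c1 : Tendsto (fun _ : ℝ => -o ^ 2) l (𝓝 (-o ^ 2)) := tendsto_const_nhds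
    have c2 : Tendsto (fun _ : ℝ => -(o / t) * (1 + 2 * κ * o)) l (𝓝 (-(o / t) * (1 + 2 * κ * o))) :=
      tendsto_const_nhds
    exact (((c1.sub ((tc.const_mul (2 * o)).mul tUr)).add ((tσ.pow 2).mul (tUr.pow 2))).const_mul a).add
      (((c2.add (tσ.mul tUi)).pow 2).const_mul b)
  have := tendsto_nhds_unique (lim.congr' rel) tendsto_const_nhds
  have ht := h.t0.ne'
  have ho := h.o0
  have ht2 := h.t2
  have e9 : o ^ 2 * (b * (1 + 2 * κ * o) ^ 2 - a * (t ^ 2 - 8 * (η + κ) * o ^ 3)) = 0 := by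
    have e10 : o ^ 2 * (b * (1 + 2 * κ * o) ^ 2 - a * (t ^ 2 - 8 * (η + κ) * o ^ 3)) =
        (a * (-o ^ 2 - 2 * o * 1 * (-(4 * (η + κ) * o ^ 4 / t ^ 2)) + 0 ^ 2 * (-(4 * (η + κ) * o ^ 4 / t ^ 2)) ^ 2) +
        b * (-(o / t) * (1 + 2 * κ * o) + 0 * 0) ^ 2) * t ^ 2 := by
      field_simp; ring
    rw [e10, this, zero_mul]
  rcases mul_eq_zero.1 e9 with h9 | h9
  · exact absurd h9 (pow_ne_zero _ ho)
  · rw [ht2] at h9; linarith

end Pool.Agent.Pon30
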