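import Pool.Agent.Pon30.Basic

/-! # MP_02df19_gt, row LIM -/

set_option autoImplicit false

namespace Pool.Agent.Pon30

open Complex Filter Topology

/-- size of the Fourier coordinates of a triple of the unit circle with small `F` -/
lemma lim93_size {F z₀ z₁ z₂ : ℂ} (h : Tz F z₀ z₁ z₂) (hF : ‖F‖ ≤ 1) :
    2 / 3 ≤ ‖Pc z₀ z₁ z₂‖ ∧ ‖Rc z₀ z₁ z₂‖ ≤ 3 / 4 * ‖F‖ ∧ ‖Pc z₀ z₁ z₂‖ ≤ 1 := by
  have hP := h.parseval
  have hG : ‖Gc z₀ z₁ z₂‖ = ‖F‖ / 3 := by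
    rw [h.G_eq, norm_div, norm_mul, norm_neg, h.lam_norm, RCLike.norm_conj]
    simp
  have hor := h.or
  have hPR : ‖Pc z₀ z₁ z₂‖ * ‖Rc z₀ z₁ z₂‖ ≤ ‖F‖ / 2 := by
    have e : Pc z₀ z₁ z₂ * Rc z₀ z₁ z₂ = F / 3 + Gc z₀ z₁ z₂ ^ 2 := by
      linear_combination (-1 / 3 : ℂ) * h.F_eq
    rw [← norm_mul, e]
    calc ‖F / 3 + Gc z₀ z₁ z₂ ^ 2‖ ≤ ‖F / 3‖ + ‖Gc z₀ z₁ z₂ ^ 2‖ := norm_add_le _ _
      _ = ‖F‖ / 3 + (‖F‖ / 3) ^ 2 := by rw [norm_div, norm_pow, hG]; simp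
      _ ≤ ‖F‖ / 2 := by nlinarith [norm_nonneg F]
  rw [hG] at hP
  have h0 := norm_nonneg F
  have hR0 := norm_nonneg (Rc z₀ z₁ z₂)
  have hP0 := norm_nonneg (Pc z₀ z₁ z₂)
  have h1 : 4 / 9 ≤ ‖Pc z₀ z₁ z₂‖ ^ 2 := by nlinarith
  have h2 : 2 / 3 ≤ ‖Pc z₀ z₁ z₂‖ := by nlinarith
  refine ⟨h2, ?_, ?_⟩
  · nlinarith
  · nlinarith

/-- the shape of the image triple is small -/
lemma lim93_shape {F p q z₀ z₁ z₂ : ℂ} {r ρ : ℝ} (h : Tz F z₀ z₁ z₂) (hr : 0 < r)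
    (hρ1 : ρ ≤ 1 / 6) (hρ2 : ρ ≤ r / 4) (hp : 0 < ‖p‖) (hq : ‖q‖ ≤ ρ * ‖p‖) (hF : ‖F‖ ≤ ρ) :
    Pc (L p q z₀) (L p q z₁) (L p q z₂) ≠ 0 ∧
      ‖Rc (L p q z₀) (L p q z₁) (L p q z₂) / Pc (L p q z₀) (L p q z₁) (L p q z₂)‖ < r := by
  obtain ⟨s1, s2, s3⟩ := lim93_size h (by linarith)
  rw [Pc_L, Rc_L]
  set P := Pc z₀ z₁ z₂
  set R := Rc z₀ z₁ z₂
  have hρ0 : 0 ≤ ρ := le_trans (norm_nonneg F) hF
  have hR : ‖R‖ ≤ 3 / 4 * ρ := by linarith
  have hq0 := norm_nonneg q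
  have hR0 := norm_nonneg R
  have hPw : ‖p‖ / 2 ≤ ‖p * P + q * (starRingEnd ℂ) R‖ := by
    have h1 : ‖p * P‖ - ‖q * (starRingEnd ℂ) R‖ ≤ ‖p * P + q * (starRingEnd ℂ) R‖ := by
      have := norm_sub_norm_le (p * P) (-(q * (starRingEnd ℂ) R))
      rw [norm_neg, sub_neg_eq_add] at this
      exact this
    rw [norm_mul, norm_mul, RCLike.norm_conj] at h1
    have h2 : ‖p‖ * (2 / 3) ≤ ‖p‖ * ‖P‖ := by gcongr
    have h3 : ‖q‖ * ‖R‖ ≤ (1 / 6 * ‖p‖) * 1 := by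
      gcongr
      · nlinarith
      · nlinarith
    linarith
  have hRw : ‖p * R + q * (starRingEnd ℂ) P‖ ≤ 7 / 4 * ρ * ‖p‖ := by
    have h1 : ‖p * R + q * (starRingEnd ℂ) P‖ ≤ ‖p * R‖ + ‖q * (starRingEnd ℂ) P‖ := norm_add_le _ _
    rw [norm_mul, norm_mul, RCLike.norm_conj] at h1
    have h2 : ‖p‖ * ‖R‖ ≤ ‖p‖ * (3 / 4 * ρ) := by gcongr
    have h3 : ‖q‖ * ‖P‖ ≤ (ρ * ‖p‖) * 1 := by gcongr
    linarith
  have hpos : 0 < ‖p * P + q * (starRingEnd ℂ) R‖ := by linarith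
  refine ⟨norm_pos_iff.1 hpos, ?_⟩
  rw [norm_div, div_lt_iff₀ hpos]
  have h5 : r * (‖p‖ / 2) ≤ r * ‖p * P + q * (starRingEnd ℂ) R‖ := by gcongr
  have h6 : 7 / 4 * ρ * ‖p‖ ≤ 7 / 4 * (r / 4) * ‖p‖ := by gcongr
  nlinarith [mul_pos hr hp]

/-- continuity in `q` of the centre -/
lemma lim93_cont (h : ℂ → ℂ) (p q z₀ z₁ z₂ : ℂ)
    (hP : Pc (L p q z₀) (L p q z₁) (L p q z₂) ≠ 0)
    (hc : ContinuousAt h (Rc (L p q z₀) (L p q z₁) (L p q z₂) / Pc (L p q z₀) (L p q z₁) (L p q z₂))) :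
    ContinuousAt (fun q' : ℂ => Xh h (L p q' z₀) (L p q' z₁) (L p q' z₂)) q := by
  unfold Xh
  have hL : ∀ z : ℂ, Continuous (fun q' : ℂ => L p q' z) := by
    intro z; unfold L; fun_prop
  have h1 : Continuous (fun q' : ℂ => Gc (L p q' z₀) (L p q' z₁) (L p q' z₂)) := by
    unfold Gc
    have := hL z₀; have := hL z₁; have := hL z₂
    fun_prop
  have h2 : Continuous (fun q' : ℂ => Pc (L p q' z₀) (L p q' z₁) (L p q' z₂)) := by
    unfold Pc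
    have := hL z₀; have := hL z₁; have := hL z₂
    fun_prop
  have h3 : Continuous (fun q' : ℂ => Rc (L p q' z₀) (L p q' z₁) (L p q' z₂)) := by
    unfold Rc
    have := hL z₀; have := hL z₁; have := hL z₂
    fun_prop
  refine h1.continuousAt.add (h2.continuousAt.mul ?_)
  exact ContinuousAt.comp (f := fun q' : ℂ => Rc (L p q' z₀) (L p q' z₁) (L p q' z₂) /
    Pc (L p q' z₀) (L p q' z₁) (L p q' z₂)) (g := h) hc (h3.continuousAt.div h2.continuousAt hP)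

/-- mirror image of a triple -/
lemma lim93_mirror {F : ℝ} {z₀ z₁ z₂ : ℂ} (h : Tz F z₀ z₁ z₂) :
    Tz F ((starRingEnd ℂ) z₀) ((starRingEnd ℂ) z₂) ((starRingEnd ℂ) z₁) := by
  refine ⟨by rw [RCLike.norm_conj, h.n₀], by rw [RCLike.norm_conj, h.n₂],
    by rw [RCLike.norm_conj, h.n₁], ?_, ?_⟩
  · have e1 : Rc ((starRingEnd ℂ) z₀) ((starRingEnd ℂ) z₂) ((starRingEnd ℂ) z₁)
        = (starRingEnd ℂ) (Rc z₀ z₁ z₂) := by
      unfold Rc
      simp only [map_div₀, map_add, map_mul, map_ofNat, Complex.conj_conj]; ring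
    have e2 : Pc ((starRingEnd ℂ) z₀) ((starRingEnd ℂ) z₂) ((starRingEnd ℂ) z₁)
        = (starRingEnd ℂ) (Pc z₀ z₁ z₂) := by
      unfold Pc
      simp only [map_div₀, map_add, map_mul, map_ofNat, Complex.conj_conj]; ring
    rw [e1, e2, RCLike.norm_conj, RCLike.norm_conj]
    exact h.or
  · have h2 := congrArg (starRingEnd ℂ) h.s2
    simp only [map_add, map_mul, map_neg, Complex.conj_ofReal] at h2
    rw [← h2]; ring

lemma lim93_mirror_X (h : ℂ → ℂ) (p q : ℝ) (z₀ z₁ z₂ : ℂ)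
    (hc : h ((starRingEnd ℂ) (Rc (L p q z₀) (L p q z₁) (L p q z₂) / Pc (L p q z₀) (L p q z₁) (L p q z₂)))
      = (starRingEnd ℂ) (h (Rc (L p q z₀) (L p q z₁) (L p q z₂) / Pc (L p q z₀) (L p q z₁) (L p q z₂)))) :
    Xh h (L p q ((starRingEnd ℂ) z₀)) (L p q ((starRingEnd ℂ) z₂)) (L p q ((starRingEnd ℂ) z₁))
      = (starRingEnd ℂ) (Xh h (L p q z₀) (L p q z₁) (L p q z₂)) := by
  have eL : ∀ z : ℂ, L p q ((starRingEnd ℂ) z) = (starRingEnd ℂ) (L p q z) := by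
    intro z; unfold L; simp only [map_add, map_mul, Complex.conj_ofReal, Complex.conj_conj]
  rw [eL, eL, eL]
  set w₀ := L p q z₀
  set w₁ := L p q z₁
  set w₂ := L p q z₂
  have e0 : Gc ((starRingEnd ℂ) w₀) ((starRingEnd ℂ) w₂) ((starRingEnd ℂ) w₁)
      = (starRingEnd ℂ) (Gc w₀ w₁ w₂) := by
    unfold Gc
    simp only [map_div₀, map_add, map_ofNat]; ring
  have e1 : Rc ((starRingEnd ℂ) w₀) ((starRingEnd ℂ) w₂) ((starRingEnd ℂ) w₁)
      = (starRingEnd ℂ) (Rc w₀ w₁ w₂) := by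
    unfold Rc
    simp only [map_div₀, map_add, map_mul, map_ofNat, Complex.conj_conj]; ring
  have e2 : Pc ((starRingEnd ℂ) w₀) ((starRingEnd ℂ) w₂) ((starRingEnd ℂ) w₁)
      = (starRingEnd ℂ) (Pc w₀ w₁ w₂) := by
    unfold Pc
    simp only [map_div₀, map_add, map_mul, map_ofNat, Complex.conj_conj]; ring
  unfold Xh
  rw [e0, e1, e2, ← map_div₀, hc, map_add, map_mul]

theorem limStmt93 : LimStmt := by
  intro h hSh hH
  obtain ⟨ε, hε, hconj⟩ := hSh.conj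
  obtain ⟨r, hr, hcont⟩ : ∃ r > 0, ∀ s : ℂ, ‖s‖ < r → ContinuousAt h s := by
    have h1 := hSh.an.eventually_analyticAt
    rw [Metric.eventually_nhds_iff] at h1
    obtain ⟨r, hr, h2⟩ := h1
    exact ⟨r, hr, fun s hs => (h2 (by simpa [dist_zero_right] using hs)).continuousAt⟩
  set r' := min r ε with hr'
  have hr'0 : 0 < r' := lt_min hr hε
  refine ⟨min (1 / 6) (r' / 4), lt_min (by norm_num) (by positivity), ?_⟩
  intro p q F hp hq hF0 hF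
  set ρ := min (1 / 6 : ℝ) (r' / 4) with hρ
  have hρ1 : ρ ≤ 1 / 6 := min_le_left _ _
  have hρ2 : ρ ≤ r' / 4 := min_le_right _ _
  have hpn : ‖(p : ℂ)‖ = p := by rw [Complex.norm_real, Real.norm_eq_abs, abs_of_pos hp]
  have hqn : ‖(q : ℂ)‖ = |q| := by rw [Complex.norm_real, Real.norm_eq_abs]
  have hFn : ‖(F : ℂ)‖ = |F| := by rw [Complex.norm_real, Real.norm_eq_abs]
  have hshape : ∀ z₀ z₁ z₂, Tz F z₀ z₁ z₂ →
      Pc (L p q z₀) (L p q z₁) (L p q z₂) ≠ 0 ∧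
      ‖Rc (L p q z₀) (L p q z₁) (L p q z₂) / Pc (L p q z₀) (L p q z₁) (L p q z₂)‖ < r' := by
    intro z₀ z₁ z₂ hz
    exact lim93_shape hz hr'0 hρ1 hρ2 (by rw [hpn]; exact hp) (by rw [hpn, hqn]; exact hq.le)
      (by rw [hFn]; exact hF.le)
  -- the perturbed pairs
  set qn : ℕ → ℂ := fun n => (q : ℂ) + ((1 / ((n : ℝ) + 1) : ℝ) : ℂ) * I with hqn'
  have hqlim : Tendsto qn atTop (𝓝 (q : ℂ)) := by
    have h1 : Tendsto (fun n : ℕ => (1 / ((n : ℝ) + 1) : ℝ)) atTop (𝓝 0) :=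
      tendsto_one_div_add_atTop_nhds_zero_nat
    have h2 : Tendsto (fun n : ℕ => ((1 / ((n : ℝ) + 1) : ℝ) : ℂ)) atTop (𝓝 ((0 : ℝ) : ℂ)) :=
      (Complex.continuous_ofReal.tendsto 0).comp h1
    have h3 := (h2.mul_const I).const_add (q : ℂ)
    simpa [hqn'] using h3
  have hev : ∀ᶠ n : ℕ in atTop, ‖qn n‖ < ‖(p : ℂ)‖ := by
    have h1 : Tendsto (fun n => ‖qn n‖) atTop (𝓝 ‖(q : ℂ)‖) := hqlim.norm
    apply h1.eventually_lt_const
    rw [hpn, hqn]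
    nlinarith
  have hnon : ∀ n : ℕ, ((p : ℂ) * (starRingEnd ℂ) (qn n) * (F : ℂ)).im ≠ 0 := by
    intro n
    have e : ((p : ℂ) * (starRingEnd ℂ) (qn n) * (F : ℂ)).im = -(p * F * (1 / ((n : ℝ) + 1))) := by
      simp only [hqn', map_add, map_mul, Complex.conj_ofReal, Complex.conj_I]
      generalize (1 / ((n : ℝ) + 1)) = x
      simp
      ring
    rw [e]
    have h1 : (1 / ((n : ℝ) + 1)) ≠ 0 := by positivity
    simp only [ne_eq, neg_eq_zero]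
    exact mul_ne_zero (mul_ne_zero hp.ne' hF0) h1
  have hF1 : ‖(F : ℂ)‖ < 1 := by rw [hFn]; linarith
  -- choose the forms
  obtain ⟨N, hN⟩ := eventually_atTop.1 hev
  have hch : ∀ n : ℕ, ∃ (α : ℝ) (β : ℂ), ‖β‖ < α ∧ ∀ z₀ z₁ z₂, Tz F z₀ z₁ z₂ →
      qf α β (Xh h (L p (qn (n + N)) z₀) (L p (qn (n + N)) z₁) (L p (qn (n + N)) z₂)) = 1 := by
    intro n
    exact hH p (qn (n + N)) F (hN _ (by omega)) hF1 (hnon _)
  choose α β hαβ hαq using hch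
  have hα0 : ∀ n, 0 < α n := fun n => lt_of_le_of_lt (norm_nonneg _) (hαβ n)
  -- normalised data in a compact set
  set v : ℕ → ℝ × ℂ := fun n => (α n / (α n + 1), β n / ((α n + 1 : ℝ) : ℂ)) with hv
  have hvK : ∀ n, v n ∈ Metric.closedBall (0 : ℝ × ℂ) 1 := by
    intro n
    have h1 : 0 < α n + 1 := by linarith [hα0 n]
    rw [mem_closedBall_zero_iff, Prod.norm_def, max_le_iff]
    constructor
    · simp only [hv]
      rw [Real.norm_eq_abs, abs_of_pos (div_pos (hα0 n) h1), div_le_one h1]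
      linarith
    · simp only [hv]
      rw [norm_div, Complex.norm_real, Real.norm_eq_abs, abs_of_pos h1, div_le_one h1]
      linarith [hαβ n]
  obtain ⟨⟨A, B⟩, hAB, φ, hφ, hφlim⟩ :=
    (isCompact_closedBall (0 : ℝ × ℂ) 1).tendsto_subseq hvK
  have hAlim : Tendsto (fun n => α (φ n) / (α (φ n) + 1)) atTop (𝓝 A) := by
    have := (continuous_fst.tendsto (A, B)).comp hφlim
    simpa [Function.comp_def, hv] using this
  have hBlim : Tendsto (fun n => β (φ n) / ((α (φ n) + 1 : ℝ) : ℂ)) atTop (𝓝 B) := by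
    have := (continuous_snd.tendsto (A, B)).comp hφlim
    simpa only [Function.comp_def, hv] using this
  have hA0 : 0 ≤ A := ge_of_tendsto' hAlim (fun n => by
    have := hα0 (φ n); positivity)
  have hA1 : A ≤ 1 := le_of_tendsto' hAlim (fun n => by
    have := hα0 (φ n)
    rw [div_le_one (by linarith)]; linarith)
  have hBA : ‖B‖ ≤ A := by
    refine le_of_tendsto_of_tendsto' hBlim.norm hAlim (fun n => ?_)
    have h1 : 0 < α (φ n) + 1 := by linarith [hα0 (φ n)]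
    rw [norm_div, Complex.norm_real, Real.norm_eq_abs, abs_of_pos h1]
    gcongr
    exact (hαβ (φ n)).le
  have hClim : Tendsto (fun n => 1 / (α (φ n) + 1)) atTop (𝓝 (1 - A)) := by
    refine (hAlim.const_sub 1).congr (fun n => ?_)
    have h1 : α (φ n) + 1 ≠ 0 := by linarith [hα0 (φ n)]
    field_simp
    ring
  -- the limit relation
  have hmain : ∀ z₀ z₁ z₂, Tz F z₀ z₁ z₂ →
      A * ‖Xh h (L p q z₀) (L p q z₁) (L p q z₂)‖ ^ 2 +
        (B * Xh h (L p q z₀) (L p q z₁) (L p q z₂) ^ 2).re = 1 - A := by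
    intro z₀ z₁ z₂ hz
    obtain ⟨hP, hs⟩ := hshape z₀ z₁ z₂ hz
    have hc := lim93_cont h p q z₀ z₁ z₂ hP (hcont _ (lt_of_lt_of_le hs (min_le_left _ _)))
    have hφN : Tendsto (fun n => φ n + N) atTop atTop :=
      tendsto_atTop_mono (fun n => Nat.le_add_right (φ n) N) hφ.tendsto_atTop
    have hXlim : Tendsto (fun n => Xh h (L p (qn (φ n + N)) z₀) (L p (qn (φ n + N)) z₁)
        (L p (qn (φ n + N)) z₂)) atTop (𝓝 (Xh h (L p q z₀) (L p q z₁) (L p q z₂))) := by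
      have h1 : Tendsto (fun n => qn (φ n + N)) atTop (𝓝 (q : ℂ)) := hqlim.comp hφN
      exact (hc.tendsto).comp h1
    have h1 : Tendsto (fun n => α (φ n) / (α (φ n) + 1) * ‖Xh h (L p (qn (φ n + N)) z₀)
          (L p (qn (φ n + N)) z₁) (L p (qn (φ n + N)) z₂)‖ ^ 2 +
        (β (φ n) / ((α (φ n) + 1 : ℝ) : ℂ) * (Xh h (L p (qn (φ n + N)) z₀)
          (L p (qn (φ n + N)) z₁) (L p (qn (φ n + N)) z₂)) ^ 2).re) atTop
        (𝓝 (A * ‖Xh h (L p q z₀) (L p q z₁) (L p q z₂)‖ ^ 2 +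
        (B * Xh h (L p q z₀) (L p q z₁) (L p q z₂) ^ 2).re)) := by
      refine (hAlim.mul (hXlim.norm.pow 2)).add ?_
      exact (Complex.continuous_re.tendsto _).comp (hBlim.mul (hXlim.pow 2))
    refine tendsto_nhds_unique (h1.congr (fun n => ?_)) hClim
    have h2 := hαq (φ n) z₀ z₁ z₂ hz
    have h3 : 0 < α (φ n) + 1 := by linarith [hα0 (φ n)]
    unfold qf at h2
    set X := Xh h (L p (qn (φ n + N)) z₀) (L p (qn (φ n + N)) z₁) (L p (qn (φ n + N)) z₂)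
    have e : (β (φ n) / ((α (φ n) + 1 : ℝ) : ℂ) * X ^ 2).re
        = (β (φ n) * X ^ 2).re / (α (φ n) + 1) := by
      rw [div_mul_eq_mul_div, Complex.div_ofReal_re]
    rw [e, div_mul_eq_mul_div, ← add_div, h2]
  -- average with the mirror image
  refine ⟨A + B.re, A - B.re, 1 - A, ?_, ?_, by linarith, ?_, ?_⟩
  · have := Complex.abs_re_le_norm B
    have := abs_le.1 this
    linarith
  · have := Complex.abs_re_le_norm B
    have := abs_le.1 this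
    linarith
  · linarith
  · intro z₀ z₁ z₂ hz
    obtain ⟨hP, hs⟩ := hshape z₀ z₁ z₂ hz
    have m1 := hmain z₀ z₁ z₂ hz
    have m2 := hmain _ _ _ (lim93_mirror hz)
    rw [lim93_mirror_X h p q z₀ z₁ z₂ (hconj _ (lt_of_lt_of_le hs (min_le_right _ _)))] at m2
    set X := Xh h (L p q z₀) (L p q z₁) (L p q z₂)
    rw [RCLike.norm_conj] at m2
    rw [nsq_re] at m1 m2
    simp only [pow_two, Complex.mul_re, Complex.mul_im, Complex.conj_re, Complex.conj_im] at m1 m2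
    nlinarith [m1, m2]

end Pool.Agent.Pon30
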