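import Pool.Agent.Pon30.Core30
import Pool.Agent.Pon30.StmtsC

/-!
# Row LOCALC: the local step of the propagation
-/

namespace Pool.Agent.Pon30

open Complex Filter Topology

section basics
variable {F : ℝ}

lemma sqF_pos (hF : |F| < 1) : 0 < √((1 - F) * (3 + F)) := by
  have h1 := abs_lt.1 hF
  apply Real.sqrt_pos.2; nlinarith

lemma Pm_sub_Rm (hF : |F| < 1) : 0 < Pm F - Rm F := by
  have h1 := sqF_pos hF
  have h2 : 0 < √3 := Real.sqrt_pos.2 (by norm_num)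
  unfold Pm Rm
  have : 0 < √3 * √((1 - F) * (3 + F)) := mul_pos h2 h1
  linarith

lemma Pm_add_Rm : Pm F + Rm F = (3 + F) / 3 := by
  unfold Pm Rm; ring

lemma Pm_add_pos (hF : |F| < 1) : 0 < Pm F + Rm F := by
  have h1 := abs_lt.1 hF
  rw [Pm_add_Rm]; linarith

lemma Pm_pos (hF : |F| < 1) : 0 < Pm F := by
  have := Pm_sub_Rm hF; have := Pm_add_pos hF; linarith

lemma Rm_lt (hF : |F| < 1) : |Rm F| < Pm F := by
  have := Pm_sub_Rm hF; have := Pm_add_pos hF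
  rw [abs_lt]; constructor <;> linarith

lemma Pm_eq : Pc 1 (zu F) ((starRingEnd ℂ) (zu F)) = Pm F := by
  rw [zu_conj]
  unfold zu
  have e1 : (1 : ℂ) = ((1 : ℝ) : ℂ) := by simp
  rw [e1, sym_P]
  unfold Pm
  congr 1; ring

lemma Rm_eq : Rc 1 (zu F) ((starRingEnd ℂ) (zu F)) = Rm F := by
  rw [zu_conj]
  unfold zu
  have e1 : (1 : ℂ) = ((1 : ℝ) : ℂ) := by simp
  rw [e1, sym_R]
  unfold Rm
  congr 1; ring

variable {s : ℂ}

lemma den_ne (hF : |F| < 1) (hs : ‖s‖ < 1) : (Pm F : ℂ) - s * Rm F ≠ 0 := by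
  intro h0
  have h1 : (Pm F : ℂ) = s * Rm F := sub_eq_zero.1 h0
  have h2 := congrArg norm h1
  rw [norm_mul, norm_real, norm_real, Real.norm_eq_abs, Real.norm_eq_abs, abs_of_pos (Pm_pos hF)] at h2
  have h3 := Rm_lt hF
  have h4 := abs_nonneg (Rm F)
  nlinarith [norm_nonneg s]

lemma qm_norm (hF : |F| < 1) (hs : ‖s‖ < 1) : ‖qm s F‖ < 1 := by
  unfold qm
  rw [norm_div, div_lt_one (norm_pos_iff.2 (den_ne hF hs))]
  apply lt_of_pow_lt_pow_left₀ 2 (norm_nonneg _)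
  have h1 := nsq_re (s * Pm F - Rm F)
  have h2 := nsq_re ((Pm F : ℂ) - s * Rm F)
  have h3 := nsq_re s
  have hs2 : ‖s‖ ^ 2 < 1 := by nlinarith [norm_nonneg s]
  simp only [sub_re, sub_im, mul_re, mul_im, ofReal_re, ofReal_im, mul_zero, sub_zero, add_zero, zero_add] at h1 h2
  have h4 := Pm_sub_Rm hF
  have h5 := Pm_add_pos hF
  have h6 : 0 < (Pm F - Rm F) * (Pm F + Rm F) := mul_pos h4 h5
  rw [h1, h2]
  have h7 : 0 < (1 - (s.re ^ 2 + s.im ^ 2)) * ((Pm F - Rm F) * (Pm F + Rm F)) := by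
    apply mul_pos _ h6; rw [← h3]; linarith
  nlinarith

lemma Pw_eq (hF : |F| < 1) (hs : ‖s‖ < 1) : (Pm F : ℂ) + qm s F * Rm F = (Pm F ^ 2 - Rm F ^ 2) / (Pm F - s * Rm F) := by
  have := den_ne hF hs
  unfold qm; field_simp; ring

lemma Rw_eq (hF : |F| < 1) (hs : ‖s‖ < 1) : (Rm F : ℂ) + qm s F * Pm F = s * (Pm F + qm s F * Rm F) := by
  have := den_ne hF hs
  rw [Pw_eq hF hs]
  unfold qm
  have e : (Rm F : ℂ) + (s * Pm F - Rm F) / (Pm F - s * Rm F) * Pm F =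
      (Rm F * (Pm F - s * Rm F) + (s * Pm F - Rm F) * Pm F) / (Pm F - s * Rm F) := by
    rw [add_div, mul_div_assoc (Rm F : ℂ), div_self this, mul_one]; ring
  rw [e]
  ring

lemma Pw_ne (hF : |F| < 1) (hs : ‖s‖ < 1) : (Pm F : ℂ) + qm s F * Rm F ≠ 0 := by
  rw [Pw_eq hF hs]
  apply div_ne_zero _ (den_ne hF hs)
  have h6 : 0 < (Pm F - Rm F) * (Pm F + Rm F) := mul_pos (Pm_sub_Rm hF) (Pm_add_pos hF)
  have h7 : (Pm F ^ 2 - Rm F ^ 2 : ℝ) ≠ 0 := by nlinarith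
  exact_mod_cast h7

lemma qm_im (hF : |F| < 1) (hs : ‖s‖ < 1) (hi : s.im ≠ 0) : (qm s F).im ≠ 0 := by
  have h6 : 0 < (Pm F - Rm F) * (Pm F + Rm F) := mul_pos (Pm_sub_Rm hF) (Pm_add_pos hF)
  have hd := den_ne hF hs
  have hn : 0 < normSq ((Pm F : ℂ) - s * Rm F) := normSq_pos.2 hd
  have e : (qm s F).im = (Pm F - Rm F) * (Pm F + Rm F) * s.im / normSq ((Pm F : ℂ) - s * Rm F) := by
    unfold qm
    rw [div_im]
    simp only [sub_re, sub_im, mul_re, mul_im, ofReal_re, ofReal_im, mul_zero, sub_zero, add_zero, zero_add]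
    field_simp
    ring
  rw [e]
  exact div_ne_zero (mul_ne_zero h6.ne' hi) hn.ne'

/-- the triangle of shape `s` -/
lemma shape_m (hF : |F| < 1) (hs : ‖s‖ < 1) :
    Pc (L 1 (qm s F) 1) (L 1 (qm s F) (zu F)) (L 1 (qm s F) ((starRingEnd ℂ) (zu F))) = Pm F + qm s F * Rm F ∧
    Rc (L 1 (qm s F) 1) (L 1 (qm s F) (zu F)) (L 1 (qm s F) ((starRingEnd ℂ) (zu F))) /
      Pc (L 1 (qm s F) 1) (L 1 (qm s F) (zu F)) (L 1 (qm s F) ((starRingEnd ℂ) (zu F))) = s := by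
  have e1 : Pc (L 1 (qm s F) 1) (L 1 (qm s F) (zu F)) (L 1 (qm s F) ((starRingEnd ℂ) (zu F))) = Pm F + qm s F * Rm F := by
    rw [Pc_L, Pm_eq, Rm_eq, conj_ofReal, one_mul]
  refine ⟨e1, ?_⟩
  rw [e1, Rc_L, Pm_eq, Rm_eq, conj_ofReal, one_mul, Rw_eq hF hs, mul_div_assoc, div_self (Pw_ne hF hs), mul_one]

end basics

lemma Uc_cont {κ F : ℝ} {q₀ : ℂ} (hq : ‖q₀‖ < 1) : ContinuousAt (fun q : ℂ => Uc κ 1 q F) q₀ := by
  unfold Uc
  have hd : ((‖(1 : ℂ)‖ ^ 2 - ‖q₀‖ ^ 2 : ℝ) : ℂ) ≠ 0 := by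
    have : (‖(1 : ℂ)‖ ^ 2 - ‖q₀‖ ^ 2 : ℝ) ≠ 0 := by
      rw [norm_one]; nlinarith [norm_nonneg q₀]
    exact_mod_cast this
  refine ContinuousAt.add continuousAt_const (ContinuousAt.div ?_ ?_ ?_)
  · fun_prop
  · fun_prop
  · exact hd

lemma Vc_cont {κ F : ℝ} {q₀ : ℂ} (hq : ‖q₀‖ < 1) : ContinuousAt (fun q : ℂ => Vc κ 1 q F) q₀ := by
  unfold Vc
  have hd : ((‖(1 : ℂ)‖ ^ 2 - ‖q₀‖ ^ 2 : ℝ) : ℂ) ≠ 0 := by
    have : (‖(1 : ℂ)‖ ^ 2 - ‖q₀‖ ^ 2 : ℝ) ≠ 0 := by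
      rw [norm_one]; nlinarith [norm_nonneg q₀]
    exact_mod_cast this
  refine ContinuousAt.sub ?_ (ContinuousAt.div ?_ ?_ ?_)
  · fun_prop
  · fun_prop
  · fun_prop
  · exact hd

lemma hκ_cont {κ : ℝ} {s₀ : ℂ} (hs : ‖s₀‖ < 1) : ContinuousAt (hκ κ) s₀ := by
  unfold hκ
  have hd : ((1 - ‖s₀‖ ^ 2 : ℝ) : ℂ) ≠ 0 := by
    have : (1 - ‖s₀‖ ^ 2 : ℝ) ≠ 0 := by nlinarith [norm_nonneg s₀]
    exact_mod_cast this
  refine ContinuousAt.div ?_ ?_ ?_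
  · fun_prop
  · fun_prop
  · exact hd

lemma qm_cont {F : ℝ} {s₀ : ℂ} (hF : |F| < 1) (hs : ‖s₀‖ < 1) : ContinuousAt (fun s : ℂ => qm s F) s₀ := by
  unfold qm
  refine ContinuousAt.div ?_ ?_ ?_
  · fun_prop
  · fun_prop
  · exact den_ne hF hs

/-- the equation for one pair -/
lemma one_pair (hLam : LamC) (hLoc : LocC) (hCon : ConicC) {h : ℂ → ℂ} {κ : ℝ} (hH : HHw h) {F : ℝ} (hF : |F| < 1)
    (hF0 : 0 < F) {s : ℂ} (hs : ‖s‖ < 1) (hi : s.im ≠ 0) {r : ℝ} (hr : ∀ x : ℂ, ‖x‖ < r → h x = hκ κ x)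
    (hUV : ‖Uc κ 1 (qm s F) F‖ ≠ ‖Vc κ 1 (qm s F) F‖) {l₁ l₂ l₃ : ℂ} (n₁ : ‖l₁‖ = 1) (n₂ : ‖l₂‖ = 1) (n₃ : ‖l₃‖ = 1)
    (d₁ : l₁ ^ 2 ≠ l₂ ^ 2) (d₂ : l₂ ^ 2 ≠ l₃ ^ 2) (d₃ : l₁ ^ 2 ≠ l₃ ^ 2)
    (hen : ∀ z₀ z₁ z₂ : ℂ, Tz F z₀ z₁ z₂ →
      (z₀ * z₁ * z₂ = l₁ ∨ z₀ * z₁ * z₂ = l₂ ∨ z₀ * z₁ * z₂ = l₃) →
      ‖Rc (L 1 (qm s F) z₀) (L 1 (qm s F) z₁) (L 1 (qm s F) z₂) /
        Pc (L 1 (qm s F) z₀) (L 1 (qm s F) z₁) (L 1 (qm s F) z₂)‖ < r) :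
    let U := Uc κ 1 (qm s F) F
    let V := Vc κ 1 (qm s F) F
    let d := (Pm F + qm s F * Rm F) * (h s - hκ κ s)
    2 * (‖U‖ ^ 2 - ‖V‖ ^ 2) * ((starRingEnd ℂ) U * d - V * (starRingEnd ℂ) d).re +
      ‖(starRingEnd ℂ) U * d - V * (starRingEnd ℂ) d‖ ^ 2 = 0 := by
  intro U V d
  have hq := qm_norm hF hs
  have hq1 : ‖qm s F‖ < ‖(1 : ℂ)‖ := by rw [norm_one]; exact hq
  have hFc : ‖(F : ℂ)‖ < 1 := by rw [norm_real, Real.norm_eq_abs]; exact hF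
  have hna : ((1 : ℂ) * (starRingEnd ℂ) (qm s F) * F).im ≠ 0 := by
    rw [one_mul, mul_comm, im_ofReal_mul, conj_im]
    exact mul_ne_zero hF0.ne' (neg_ne_zero.2 (qm_im hF hs hi))
  obtain ⟨α, β, c, hβ, hc, hαc, hall⟩ := hH 1 (qm s F) F hq1 hFc hna
  have hpt : ∀ l : ℂ, ‖l‖ = 1 → (l = l₁ ∨ l = l₂ ∨ l = l₃) → qf α β (U * l + V * (starRingEnd ℂ) l) = c := by
    intro l hl hl'
    obtain ⟨z₀, z₁, z₂, hz, hzl⟩ := hLam F l hFc hl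
    have h1 := hall z₀ z₁ z₂ hz
    have h2 := hen z₀ z₁ z₂ hz (by rw [hzl]; exact hl')
    rw [Xh_congr (h' := hκ κ) (hr _ h2), hLoc 1 (qm s F) F κ z₀ z₁ z₂ hq1 hFc hz, hzl] at h1
    exact h1
  have hT := tz_first hF
  have hY := hall _ _ _ hT
  obtain ⟨eP, eS⟩ := shape_m hF hs
  have eY' := hLoc 1 (qm s F) F κ _ _ _ hq1 hFc hT
  rw [lam_first hF, map_one, mul_one, mul_one] at eY'
  have eY : Xh h (L 1 (qm s F) 1) (L 1 (qm s F) (zu F)) (L 1 (qm s F) ((starRingEnd ℂ) (zu F))) = U + V + d := by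
    have e1 : Xh h (L 1 (qm s F) 1) (L 1 (qm s F) (zu F)) (L 1 (qm s F) ((starRingEnd ℂ) (zu F))) =
        Xh (hκ κ) (L 1 (qm s F) 1) (L 1 (qm s F) (zu F)) (L 1 (qm s F) ((starRingEnd ℂ) (zu F))) + d := by
      unfold Xh
      rw [eS, eP]; simp only [d]; ring
    rw [e1, eY']
  have hfin := hCon α c β U V l₁ l₂ l₃ hβ hc hαc hUV n₁ n₂ n₃ d₁ d₂ d₃
    (hpt l₁ n₁ (Or.inl rfl)) (hpt l₂ n₂ (Or.inr (Or.inl rfl))) (hpt l₃ n₃ (Or.inr (Or.inr rfl))) _ hY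
  rw [eY] at hfin
  set B := (starRingEnd ℂ) U * d - V * (starRingEnd ℂ) d with hB
  have e2 : (starRingEnd ℂ) U * (U + V + d) - V * (starRingEnd ℂ) (U + V + d) = ((‖U‖ ^ 2 - ‖V‖ ^ 2 : ℝ) : ℂ) + B := by
    have a1 := nsq' U
    have a2 := nsq' V
    rw [hB]
    simp only [map_add]
    push_cast
    linear_combination a2 - a1
  rw [e2] at hfin
  have h3 := congrArg (fun x : ℝ => x ^ 2) hfin
  simp only [sq_abs] at h3
  rw [nsq_re] at h3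
  have h4 := nsq_re B
  simp only [add_re, add_im, ofReal_re, ofReal_im, zero_add] at h3
  rw [h4]
  linarith

theorem localC30 (hLam : LamC) (hLoc : LocC) (hCon : ConicC) (hEnter : EnterC) (hDir : DirC) : LocalC := by
  intro h κ s₀ δ s hH hs₀ hi₀ hcont hin h0 hs hne hδ
  obtain ⟨F₀, hF₀, hF₀1, hen⟩ := hEnter s₀ hs₀ hi₀
  obtain ⟨hD, hUVev⟩ := hDir κ s₀ hs₀
  have hs₀ne : s₀ ≠ 0 := by
    intro h; rw [h] at hi₀; simp at hi₀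
  have hUVev := hUVev hs₀ne
  -- the relation for small F
  have key : ∀ᶠ F : ℝ in 𝓝[>] 0, ((starRingEnd ℂ) δ * Dm κ s₀ F).re = 0 := by
    have hm : ∀ᶠ F : ℝ in 𝓝[>] 0, F ∈ Set.Ioo 0 F₀ := Ioo_mem_nhdsGT hF₀
    filter_upwards [hm, hUVev] with F hFm hUV
    obtain ⟨hF0, hFl⟩ := hFm
    have hF : |F| < 1 := by rw [abs_of_pos hF0]; linarith
    obtain ⟨ε, hε, l₁, l₂, l₃, n₁, n₂, n₃, d₁, d₂, d₃, hen'⟩ := hen F hF0 hFl
    have tq : Tendsto (fun n => qm (s n) F) atTop (𝓝 (qm s₀ F)) := (qm_cont hF hs₀).tendsto.comp hs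
    have hq₀ := qm_norm hF hs₀
    have tU : Tendsto (fun n => Uc κ 1 (qm (s n) F) F) atTop (𝓝 (Uc κ 1 (qm s₀ F) F)) :=
      (Uc_cont hq₀).tendsto.comp tq
    have tV : Tendsto (fun n => Vc κ 1 (qm (s n) F) F) atTop (𝓝 (Vc κ 1 (qm s₀ F) F)) :=
      (Vc_cont hq₀).tendsto.comp tq
    have tP : Tendsto (fun n => (Pm F : ℂ) + qm (s n) F * Rm F) atTop (𝓝 ((Pm F : ℂ) + qm s₀ F * Rm F)) :=
      tendsto_const_nhds.add (tq.mul_const _)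
    have td : Tendsto (fun n => h (s n) - hκ κ (s n)) atTop (𝓝 0) := by
      have h1 := (hcont.tendsto.comp hs).sub ((hκ_cont (κ := κ) hs₀).tendsto.comp hs)
      rw [h0, sub_self] at h1
      exact h1
    have ev1 : ∀ᶠ n in atTop, ‖s n‖ < 1 := hs.norm.eventually_lt_const hs₀
    have ev2 : ∀ᶠ n in atTop, (s n).im ≠ 0 := ((continuous_im.tendsto _).comp hs).eventually_ne hi₀
    have ev3 : ∀ᶠ n in atTop, ‖s n - s₀‖ < ε := by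
      have := (tendsto_iff_norm_sub_tendsto_zero.1 hs).eventually_lt_const hε
      exact this
    have ev4 : ∀ᶠ n in atTop, ‖Uc κ 1 (qm (s n) F) F‖ ≠ ‖Vc κ 1 (qm (s n) F) F‖ := by
      have := (tU.norm.sub tV.norm).eventually_ne (sub_ne_zero.2 hUV)
      filter_upwards [this] with n hn
      exact sub_ne_zero.1 hn
    set U₀ := Uc κ 1 (qm s₀ F) F with hU₀
    set V₀ := Vc κ 1 (qm s₀ F) F with hV₀
    set P₀ := (Pm F : ℂ) + qm s₀ F * Rm F with hP₀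
    -- normalised difference
    set e : ℕ → ℂ := fun n => ((Pm F : ℂ) + qm (s n) F * Rm F) *
      ((h (s n) - hκ κ (s n)) / (‖h (s n) - hκ κ (s n)‖ : ℝ)) with he
    have te : Tendsto e atTop (𝓝 (P₀ * δ)) := tP.mul hδ
    set Bn : ℕ → ℂ := fun n => (starRingEnd ℂ) (Uc κ 1 (qm (s n) F) F) * e n -
      Vc κ 1 (qm (s n) F) F * (starRingEnd ℂ) (e n) with hBn
    have tB : Tendsto Bn atTop (𝓝 ((starRingEnd ℂ) U₀ * (P₀ * δ) - V₀ * (starRingEnd ℂ) (P₀ * δ))) :=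
      (((continuous_conj.tendsto _).comp tU).mul te).sub (tV.mul ((continuous_conj.tendsto _).comp te))
    have rel : ∀ᶠ n in atTop, 2 * (‖Uc κ 1 (qm (s n) F) F‖ ^ 2 - ‖Vc κ 1 (qm (s n) F) F‖ ^ 2) * (Bn n).re +
        ‖h (s n) - hκ κ (s n)‖ * ‖Bn n‖ ^ 2 = 0 := by
      filter_upwards [ev1, ev2, ev3, ev4] with n k1 k2 k3 k4
      have h1 := one_pair hLam hLoc hCon hH hF hF0 k1 k2 hin k4 n₁ n₂ n₃ d₁ d₂ d₃ (hen' (s n) k3)
      simp only at h1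
      set m : ℝ := ‖h (s n) - hκ κ (s n)‖ with hm
      have hm0 : 0 < m := norm_pos_iff.2 (sub_ne_zero.2 (hne n))
      have hmc : (m : ℂ) ≠ 0 := by exact_mod_cast hm0.ne'
      have e1 : ((Pm F : ℂ) + qm (s n) F * Rm F) * (h (s n) - hκ κ (s n)) = m * e n := by
        simp only [he]; rw [← hm]; field_simp
      rw [e1] at h1
      have e2 : (starRingEnd ℂ) (Uc κ 1 (qm (s n) F) F) * (m * e n) -
          Vc κ 1 (qm (s n) F) F * (starRingEnd ℂ) (m * e n) = m * Bn n := by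
        simp only [hBn, map_mul, conj_ofReal]; ring
      rw [e2, re_ofReal_mul, norm_mul, norm_real, Real.norm_eq_abs, abs_of_pos hm0] at h1
      apply mul_left_cancel₀ hm0.ne'
      rw [mul_zero, ← h1]
      ring
    have lim1 : Tendsto (fun n => 2 * (‖Uc κ 1 (qm (s n) F) F‖ ^ 2 - ‖Vc κ 1 (qm (s n) F) F‖ ^ 2) * (Bn n).re +
        ‖h (s n) - hκ κ (s n)‖ * ‖Bn n‖ ^ 2) atTop
        (𝓝 (2 * (‖U₀‖ ^ 2 - ‖V₀‖ ^ 2) * ((starRingEnd ℂ) U₀ * (P₀ * δ) - V₀ * (starRingEnd ℂ) (P₀ * δ)).re +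
          ‖(0 : ℂ)‖ * ‖(starRingEnd ℂ) U₀ * (P₀ * δ) - V₀ * (starRingEnd ℂ) (P₀ * δ)‖ ^ 2)) :=
      ((((tU.norm.pow 2).sub (tV.norm.pow 2)).const_mul 2).mul ((continuous_re.tendsto _).comp tB)).add
        (td.norm.mul (tB.norm.pow 2))
    have h5 := tendsto_nhds_unique (lim1.congr' rel) tendsto_const_nhds
    rw [norm_zero, zero_mul, add_zero] at h5
    have hJ : (‖U₀‖ ^ 2 - ‖V₀‖ ^ 2 : ℝ) ≠ 0 := by
      intro h6
      apply hUV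
      have h7 : ‖U₀‖ ^ 2 = ‖V₀‖ ^ 2 := by linarith
      exact (pow_left_inj₀ (norm_nonneg _) (norm_nonneg _) two_ne_zero).1 h7
    have h8 : ((starRingEnd ℂ) U₀ * (P₀ * δ) - V₀ * (starRingEnd ℂ) (P₀ * δ)).re = 0 := by
      rcases mul_eq_zero.1 h5 with h9 | h9
      · rcases mul_eq_zero.1 h9 with h10 | h10
        · norm_num at h10
        · exact absurd h10 hJ
      · exact h9
    -- rewrite
    have hPne : P₀ ≠ 0 := Pw_ne hF hs₀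
    have h9 : ((starRingEnd ℂ) δ * ((starRingEnd ℂ) P₀ * (U₀ - V₀))).re = 0 := by
      rw [← h8]
      simp only [mul_re, mul_im, sub_re, sub_im, conj_re, conj_im]
      ring
    have h10 : (starRingEnd ℂ) δ * ((starRingEnd ℂ) P₀ * (U₀ - V₀)) = ((‖P₀‖ ^ 2 : ℝ) : ℂ) * ((starRingEnd ℂ) δ * Dm κ s₀ F) := by
      unfold Dm
      rw [← hU₀, ← hV₀, ← hP₀, nsq]
      field_simp
    rw [h10, re_ofReal_mul] at h9
    rcases mul_eq_zero.1 h9 with h11 | h11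
    · exact absurd h11 (pow_ne_zero 2 (norm_ne_zero_iff.2 hPne))
    · exact h11
  -- the limits
  set D0 : ℂ := κ * ((starRingEnd ℂ) s₀ + s₀ ^ 2) / (1 - ‖s₀‖ ^ 2 : ℝ) with hD0
  have evF : ∀ᶠ F : ℝ in 𝓝[>] 0, 0 < F := eventually_mem_nhdsWithin
  have tF : Tendsto (fun F : ℝ => (F : ℂ)) (𝓝[>] 0) (𝓝 0) := by
    have : Continuous (fun F : ℝ => (F : ℂ)) := continuous_ofReal
    have := this.tendsto 0
    rw [ofReal_zero] at this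
    exact this.mono_left nhdsWithin_le_nhds
  have hre : ∀ {g : ℝ → ℂ} {a : ℂ}, Tendsto g (𝓝[>] 0) (𝓝 a) → (∀ᶠ F : ℝ in 𝓝[>] 0, ((starRingEnd ℂ) δ * g F).re = 0) →
      ((starRingEnd ℂ) δ * a).re = 0 := by
    intro g a hg he
    have h1 : Tendsto (fun F => ((starRingEnd ℂ) δ * g F).re) (𝓝[>] 0) (𝓝 ((starRingEnd ℂ) δ * a).re) :=
      (continuous_re.tendsto _).comp (hg.const_mul _)
    exact tendsto_nhds_unique (h1.congr' he) tendsto_const_nhds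
  have tD : Tendsto (fun F : ℝ => Dm κ s₀ F) (𝓝[>] 0) (𝓝 D0) := by
    have h1 := (tF.mul hD).add_const D0
    rw [zero_mul, zero_add] at h1
    refine h1.congr' ?_
    filter_upwards [evF] with F hF
    have : (F : ℂ) ≠ 0 := by exact_mod_cast hF.ne'
    field_simp
    ring
  have hA := hre tD key
  have key2 : ∀ᶠ F : ℝ in 𝓝[>] 0, ((starRingEnd ℂ) δ * ((Dm κ s₀ F - D0) / F)).re = 0 := by
    filter_upwards [key, evF] with F h1 h2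
    have e1 : (starRingEnd ℂ) δ * ((Dm κ s₀ F - D0) / F) =
        ((F⁻¹ : ℝ) : ℂ) * ((starRingEnd ℂ) δ * Dm κ s₀ F - (starRingEnd ℂ) δ * D0) := by
      push_cast
      have : (F : ℂ) ≠ 0 := by exact_mod_cast h2.ne'
      field_simp
    rw [e1, re_ofReal_mul, sub_re, h1, hA, sub_zero, mul_zero]
  have hB := hre hD key2
  have e3 : (starRingEnd ℂ) δ * (-(1 - s₀) / 3) = ((-(1 / 3) : ℝ) : ℂ) * ((starRingEnd ℂ) δ * (1 - s₀)) := by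
    push_cast; ring
  rw [e3, re_ofReal_mul] at hB
  rcases mul_eq_zero.1 hB with h | h
  · norm_num at h
  · exact h

end Pool.Agent.Pon30
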