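import Pool.Agent.Pon30.StmtsD30

/-!
# MP_02df19_gt, degenerate loci allowed (helper46): pairs near a good pair with a nondegenerate locus
-/

set_option autoImplicit false

namespace Pool.Agent.Pon30

open Complex Filter Topology

namespace NrD46

open CcS

/-- all members of nearby pairs have centres near the conic -/
theorem nearAll (h : ℂ → ℂ) (hF2 : F2P h) {q₀ F : ℂ} (hg : Gd q₀ F) {α : ℝ} {β : ℂ} (hf : IsForm h q₀ F α β)
    {ε : ℝ} (hε : 0 < ε) : ∃ δ > 0, ∀ q : ℂ, ‖q - q₀‖ < δ → ∀ z₀ z₁ z₂ : ℂ, Tz F z₀ z₁ z₂ →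
      |qf α β (Xh h (L 1 q z₀) (L 1 q z₁) (L 1 q z₂)) - 1| ≤ ε := by
  by_contra hcon
  push Not at hcon
  choose q hq z₀ z₁ z₂ hT hY' using fun n : ℕ => hcon (1 / ((n : ℝ) + 1)) (by positivity)
  obtain ⟨Y, hX⟩ : ∃ Y : ℕ → ℂ, ∀ n, Xh h (L 1 (q n) (z₀ n)) (L 1 (q n) (z₁ n)) (L 1 (q n) (z₂ n)) = Y n :=
    ⟨_, fun n => rfl⟩
  simp only [hX] at hY'
  have hF : ‖F‖ < 1 := hg.2.1
  have hqlim : Tendsto q atTop (𝓝 q₀) := by
    rw [tendsto_iff_norm_sub_tendsto_zero]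
    exact squeeze_zero (fun n => norm_nonneg _) (fun n => (hq n).le) tendsto_one_div_add_atTop_nhds_zero_nat
  -- compactness of the triples
  have hK : ∀ n, (z₀ n, z₁ n, z₂ n) ∈ Metric.closedBall (0 : ℂ × ℂ × ℂ) 1 := by
    intro n
    rw [mem_closedBall_zero_iff, Prod.norm_def, Prod.norm_def, max_le_iff, max_le_iff]
    exact ⟨(hT n).n₀.le, (hT n).n₁.le, (hT n).n₂.le⟩
  obtain ⟨⟨y₀, y₁, y₂⟩, -, φ, hφ, hφlim⟩ := (isCompact_closedBall (0 : ℂ × ℂ × ℂ) 1).tendsto_subseq hK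
  have l0 : Tendsto (fun n => z₀ (φ n)) atTop (𝓝 y₀) := (continuous_fst.tendsto _).comp hφlim
  have l1 : Tendsto (fun n => z₁ (φ n)) atTop (𝓝 y₁) := ((continuous_fst.comp continuous_snd).tendsto _).comp hφlim
  have l2 : Tendsto (fun n => z₂ (φ n)) atTop (𝓝 y₂) := ((continuous_snd.comp continuous_snd).tendsto _).comp hφlim
  have lq : Tendsto (fun n => q (φ n)) atTop (𝓝 q₀) := hqlim.comp hφ.tendsto_atTop
  have hPz : Tendsto (fun n => Pc (z₀ (φ n)) (z₁ (φ n)) (z₂ (φ n))) atTop (𝓝 (Pc y₀ y₁ y₂)) := by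
    unfold Pc
    exact ((l0.add (l1.const_mul _)).add (l2.const_mul _)).div_const _
  have hRz : Tendsto (fun n => Rc (z₀ (φ n)) (z₁ (φ n)) (z₂ (φ n))) atTop (𝓝 (Rc y₀ y₁ y₂)) := by
    unfold Rc
    exact ((l0.add (l1.const_mul _)).add (l2.const_mul _)).div_const _
  have hTy : Tz F y₀ y₁ y₂ := by
    refine tz_closed hF ?_ ?_ ?_ ?_ ?_
    · exact tendsto_nhds_unique l0.norm (tendsto_const_nhds.congr (fun n => ((hT (φ n)).n₀).symm))
    · exact tendsto_nhds_unique l1.norm (tendsto_const_nhds.congr (fun n => ((hT (φ n)).n₁).symm))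
    · exact tendsto_nhds_unique l2.norm (tendsto_const_nhds.congr (fun n => ((hT (φ n)).n₂).symm))
    · exact le_of_tendsto_of_tendsto' hRz.norm hPz.norm (fun n => ((hT (φ n)).or).le)
    · exact tendsto_nhds_unique (((l0.mul l1).add (l0.mul l2)).add (l1.mul l2))
        (tendsto_const_nhds.congr (fun n => ((hT (φ n)).s2).symm))
  -- the triangles
  have hL : ∀ {x : ℕ → ℂ} {x' : ℂ}, Tendsto (fun n => x (φ n)) atTop (𝓝 x') →
      Tendsto (fun n => L 1 (q (φ n)) (x (φ n))) atTop (𝓝 (L 1 q₀ x')) := by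
    intro x x' hx
    unfold L
    exact (hx.const_mul 1).add (lq.mul ((continuous_conj.tendsto _).comp hx))
  have w0 := hL l0
  have w1 := hL l1
  have w2 := hL l2
  have hG : Tendsto (fun n => Gc (L 1 (q (φ n)) (z₀ (φ n))) (L 1 (q (φ n)) (z₁ (φ n))) (L 1 (q (φ n)) (z₂ (φ n))))
      atTop (𝓝 (Gc (L 1 q₀ y₀) (L 1 q₀ y₁) (L 1 q₀ y₂))) := by
    unfold Gc
    exact ((w0.add w1).add w2).div_const _
  have hP : Tendsto (fun n => Pc (L 1 (q (φ n)) (z₀ (φ n))) (L 1 (q (φ n)) (z₁ (φ n))) (L 1 (q (φ n)) (z₂ (φ n))))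
      atTop (𝓝 (Pc (L 1 q₀ y₀) (L 1 q₀ y₁) (L 1 q₀ y₂))) := by
    unfold Pc
    exact ((w0.add (w1.const_mul _)).add (w2.const_mul _)).div_const _
  have hR : Tendsto (fun n => Rc (L 1 (q (φ n)) (z₀ (φ n))) (L 1 (q (φ n)) (z₁ (φ n))) (L 1 (q (φ n)) (z₂ (φ n))))
      atTop (𝓝 (Rc (L 1 q₀ y₀) (L 1 q₀ y₁) (L 1 q₀ y₂))) := by
    unfold Rc
    exact ((w0.add (w1.const_mul _)).add (w2.const_mul _)).div_const _
  set G := Gc (L 1 q₀ y₀) (L 1 q₀ y₁) (L 1 q₀ y₂) with hGd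
  set P := Pc (L 1 q₀ y₀) (L 1 q₀ y₁) (L 1 q₀ y₂) with hPd
  set R := Rc (L 1 q₀ y₀) (L 1 q₀ y₁) (L 1 q₀ y₂) with hRd
  have hor := or_L (p := 1) (q := q₀) (by rw [norm_one]; exact hg.1) hTy.or
  rw [← hPd, ← hRd] at hor
  have hPn : 0 < ‖P‖ := lt_of_le_of_lt (norm_nonneg _) hor
  have hP0 : P ≠ 0 := norm_pos_iff.1 hPn
  set s : ℕ → ℂ := fun n => Rc (L 1 (q (φ n)) (z₀ (φ n))) (L 1 (q (φ n)) (z₁ (φ n))) (L 1 (q (φ n)) (z₂ (φ n))) /
    Pc (L 1 (q (φ n)) (z₀ (φ n))) (L 1 (q (φ n)) (z₁ (φ n))) (L 1 (q (φ n)) (z₂ (φ n))) with hs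
  have hslim : Tendsto s atTop (𝓝 (R / P)) := hR.div hP hP0
  have hQ : Tendsto (fun n => qf α β (G + P * h (s n))) atTop (𝓝 1) :=
    (hF2 q₀ F hg α β hf y₀ y₁ y₂ hTy).comp hslim
  -- bounded
  have hαβ : 0 < α - ‖β‖ := sub_pos.2 hf.1
  have hbd : ∀ᶠ n in atTop, ‖h (s n)‖ ≤ (2 / (α - ‖β‖) + 1 + ‖G‖) / ‖P‖ := by
    have h2 := hQ.eventually_lt_const (show (1 : ℝ) < 2 by norm_num)
    filter_upwards [h2] with n hn
    have h3 := qf_low (α := α) (β := β) (G + P * h (s n))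
    have h4 : ‖G + P * h (s n)‖ ^ 2 ≤ 2 / (α - ‖β‖) := by
      rw [le_div_iff₀ hαβ]; linarith
    have h5 : ‖G + P * h (s n)‖ ≤ 2 / (α - ‖β‖) + 1 := by
      nlinarith [norm_nonneg (G + P * h (s n)), sq_nonneg (‖G + P * h (s n)‖ - 1)]
    have h6 : ‖P * h (s n)‖ ≤ ‖G + P * h (s n)‖ + ‖G‖ := by
      have := norm_sub_le (G + P * h (s n)) G
      rwa [add_sub_cancel_left] at this
    rw [norm_mul] at h6
    rw [le_div_iff₀ hPn]
    linarith
  set C := (2 / (α - ‖β‖) + 1 + ‖G‖) / ‖P‖ with hC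
  -- Y_n is close to G + P h (s n)
  have hYd : Tendsto (fun n => Y (φ n) - (G + P * h (s n))) atTop (𝓝 0) := by
    have e : ∀ n, Y (φ n) - (G + P * h (s n)) =
        (Gc (L 1 (q (φ n)) (z₀ (φ n))) (L 1 (q (φ n)) (z₁ (φ n))) (L 1 (q (φ n)) (z₂ (φ n))) - G) +
        (Pc (L 1 (q (φ n)) (z₀ (φ n))) (L 1 (q (φ n)) (z₁ (φ n))) (L 1 (q (φ n)) (z₂ (φ n))) - P) * h (s n) := by
      intro n
      rw [← hX (φ n)]
      unfold Xh
      rw [hs]
      ring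
    have t1 : Tendsto (fun n => Gc (L 1 (q (φ n)) (z₀ (φ n))) (L 1 (q (φ n)) (z₁ (φ n))) (L 1 (q (φ n)) (z₂ (φ n))) - G)
        atTop (𝓝 0) := by
      have := hG.sub_const G
      rwa [sub_self] at this
    have t2 : Tendsto (fun n => (Pc (L 1 (q (φ n)) (z₀ (φ n))) (L 1 (q (φ n)) (z₁ (φ n))) (L 1 (q (φ n)) (z₂ (φ n))) - P) *
        h (s n)) atTop (𝓝 0) := by
      have t3 : Tendsto (fun n => Pc (L 1 (q (φ n)) (z₀ (φ n))) (L 1 (q (φ n)) (z₁ (φ n))) (L 1 (q (φ n)) (z₂ (φ n))) - P)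
          atTop (𝓝 0) := by
        have := hP.sub_const P
        rwa [sub_self] at this
      have t4 : Tendsto (fun n => ‖Pc (L 1 (q (φ n)) (z₀ (φ n))) (L 1 (q (φ n)) (z₁ (φ n))) (L 1 (q (φ n)) (z₂ (φ n))) - P‖ * C)
          atTop (𝓝 0) := by
        have := t3.norm.mul_const C
        rwa [norm_zero, zero_mul] at this
      refine squeeze_zero_norm' ?_ t4
      filter_upwards [hbd] with n hn
      rw [norm_mul]
      exact mul_le_mul_of_nonneg_left hn (norm_nonneg _)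
    have := t1.add t2
    rw [add_zero] at this
    exact this.congr (fun n => (e n).symm)
  -- qf at Y_n tends to 1
  have hQY : Tendsto (fun n => qf α β (Y (φ n))) atTop (𝓝 1) := by
    have hdiff : ∀ x y : ℂ, qf α β (x + y) - qf α β y =
        qf α β x + 2 * (α * (x.re * y.re + x.im * y.im) + (β * x * y).re) := by
      intro x y
      unfold qf
      rw [nsq_re, nsq_re, nsq_re]
      simp only [pow_two, add_re, add_im, mul_re, mul_im]
      ring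
    set x : ℕ → ℂ := fun n => Y (φ n) - (G + P * h (s n)) with hx
    set y : ℕ → ℂ := fun n => G + P * h (s n) with hy
    have hyb : ∀ᶠ n in atTop, ‖y n‖ ≤ ‖G‖ + ‖P‖ * C := by
      filter_upwards [hbd] with n hn
      refine (norm_add_le _ _).trans ?_
      rw [norm_mul]
      exact add_le_add le_rfl (mul_le_mul_of_nonneg_left hn (norm_nonneg _))
    have t1 : Tendsto (fun n => qf α β (x n)) atTop (𝓝 0) := by
      have := ((cont_qf α β).tendsto 0).comp hYd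
      have e0 : qf α β 0 = 0 := by simp [qf]
      rw [e0] at this
      exact this
    have t2 : Tendsto (fun n => 2 * (α * ((x n).re * (y n).re + (x n).im * (y n).im) + (β * x n * y n).re))
        atTop (𝓝 0) := by
      have t3 : Tendsto (fun n => 2 * ((|α| * 2 + ‖β‖) * (‖x n‖ * (‖G‖ + ‖P‖ * C)))) atTop (𝓝 0) := by
        have := ((hYd.norm.mul_const (‖G‖ + ‖P‖ * C)).const_mul (|α| * 2 + ‖β‖)).const_mul 2
        simpa using this
      refine squeeze_zero_norm' ?_ t3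
      filter_upwards [hyb] with n hn
      have a1 := abs_re_le_norm (x n)
      have a2 := abs_im_le_norm (x n)
      have a3 := abs_re_le_norm (y n)
      have a4 := abs_im_le_norm (y n)
      have a5 : |(β * x n * y n).re| ≤ ‖β‖ * (‖x n‖ * ‖y n‖) := by
        have := abs_re_le_norm (β * x n * y n)
        rw [norm_mul, norm_mul] at this
        linarith
      have a6 : |(x n).re * (y n).re| ≤ ‖x n‖ * ‖y n‖ := by
        rw [abs_mul]; exact mul_le_mul a1 a3 (abs_nonneg _) (norm_nonneg _)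
      have a7 : |(x n).im * (y n).im| ≤ ‖x n‖ * ‖y n‖ := by
        rw [abs_mul]; exact mul_le_mul a2 a4 (abs_nonneg _) (norm_nonneg _)
      have a8 : ‖x n‖ * ‖y n‖ ≤ ‖x n‖ * (‖G‖ + ‖P‖ * C) := mul_le_mul_of_nonneg_left hn (norm_nonneg _)
      rw [Real.norm_eq_abs, abs_mul, abs_of_pos (show (0 : ℝ) < 2 by norm_num)]
      refine mul_le_mul_of_nonneg_left ?_ (by norm_num)
      calc |α * ((x n).re * (y n).re + (x n).im * (y n).im) + (β * x n * y n).re|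
          ≤ |α * ((x n).re * (y n).re + (x n).im * (y n).im)| + |(β * x n * y n).re| := abs_add_le _ _
        _ ≤ |α| * (‖x n‖ * ‖y n‖ + ‖x n‖ * ‖y n‖) + ‖β‖ * (‖x n‖ * ‖y n‖) := by
            rw [abs_mul]
            refine add_le_add (mul_le_mul_of_nonneg_left ((abs_add_le _ _).trans (add_le_add a6 a7)) (abs_nonneg _)) a5
        _ = (|α| * 2 + ‖β‖) * (‖x n‖ * ‖y n‖) := by ring
        _ ≤ (|α| * 2 + ‖β‖) * (‖x n‖ * (‖G‖ + ‖P‖ * C)) := mul_le_mul_of_nonneg_left a8 (by positivity)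
    have t4 := (hQ.add t1).add t2
    rw [add_zero, add_zero] at t4
    refine t4.congr (fun n => ?_)
    have e1 := hdiff (x n) (y n)
    have e2 : x n + y n = Y (φ n) := by simp [hx, hy]
    rw [e2] at e1
    have e3 : qf α β (y n) = qf α β (G + P * h (s n)) := rfl
    linarith
  have hfin := hQY.sub_const 1
  rw [sub_self] at hfin
  have hev := hfin.abs
  rw [abs_zero] at hev
  obtain ⟨n, hn⟩ := (hev.eventually_lt_const hε).exists
  exact absurd (hY' (φ n)) (not_lt.2 hn.le)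


lemma nsqC (x : ℂ) : ((‖x‖ ^ 2 : ℝ) : ℂ) = x * (starRingEnd ℂ) x := by
  rw [Complex.mul_conj, Complex.normSq_eq_norm_sq]

/-- the form of the ellipse `{P u + Q ū}` -/
lemma form_iff {P Q : ℂ} (hPQ : ‖P‖ ≠ ‖Q‖) : ∃ (α : ℝ) (β : ℂ), ‖β‖ < α ∧
    ∀ Y : ℂ, qf α β Y = 1 ↔ ∃ u : ℂ, ‖u‖ = 1 ∧ Y = P * u + Q * (starRingEnd ℂ) u := by
  set D : ℝ := ‖P‖ ^ 2 - ‖Q‖ ^ 2 with hD
  have hD0 : D ≠ 0 := by
    intro h
    apply hPQ
    have h1 : ‖P‖ ^ 2 = ‖Q‖ ^ 2 := by linarith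
    exact (sq_eq_sq₀ (norm_nonneg _) (norm_nonneg _)).mp h1
  have hDC : (D : ℂ) ≠ 0 := by exact_mod_cast hD0
  have hD2 : 0 < D ^ 2 := by positivity
  have eD : (D : ℂ) = P * (starRingEnd ℂ) P - Q * (starRingEnd ℂ) Q := by
    rw [← nsqC, ← nsqC, hD]
    push_cast
    ring
  refine ⟨(‖P‖ ^ 2 + ‖Q‖ ^ 2) / D ^ 2, -(2 * (starRingEnd ℂ) P * (starRingEnd ℂ) Q) / (D ^ 2 : ℝ), ?_, ?_⟩
  · rw [norm_div, norm_neg, norm_mul, norm_mul, RCLike.norm_conj, RCLike.norm_conj, Complex.norm_real,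
      Real.norm_of_nonneg hD2.le, Complex.norm_ofNat]
    apply (div_lt_div_iff_of_pos_right hD2).mpr
    have h1 : 0 < (‖P‖ - ‖Q‖) ^ 2 := by
      have : ‖P‖ - ‖Q‖ ≠ 0 := sub_ne_zero.mpr hPQ
      positivity
    nlinarith
  · have key : ∀ Y : ℂ, qf ((‖P‖ ^ 2 + ‖Q‖ ^ 2) / D ^ 2) (-(2 * (starRingEnd ℂ) P * (starRingEnd ℂ) Q) / (D ^ 2 : ℝ)) Y =
        ‖((starRingEnd ℂ) P * Y - Q * (starRingEnd ℂ) Y) / D‖ ^ 2 := by
      intro Y
      have e1 : ‖((starRingEnd ℂ) P * Y - Q * (starRingEnd ℂ) Y) / D‖ ^ 2 =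
          ‖(starRingEnd ℂ) P * Y - Q * (starRingEnd ℂ) Y‖ ^ 2 / D ^ 2 := by
        rw [norm_div, div_pow, Complex.norm_real, Real.norm_eq_abs, sq_abs]
      have e2 : (-(2 * (starRingEnd ℂ) P * (starRingEnd ℂ) Q) / (D ^ 2 : ℝ) * Y ^ 2).re =
          -(2 * (starRingEnd ℂ) P * (starRingEnd ℂ) Q * Y ^ 2).re / D ^ 2 := by
        rw [div_mul_eq_mul_div, Complex.div_ofReal_re, neg_mul, neg_re]
      unfold qf
      rw [e1, e2, div_mul_eq_mul_div, ← add_div]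
      congr 1
      rw [nsq_re, nsq_re, nsq_re, nsq_re]
      simp only [pow_two, mul_re, mul_im, sub_re, sub_im, conj_re, conj_im, re_ofNat, im_ofNat]
      ring
    intro Y
    rw [key]
    constructor
    · intro h
      refine ⟨((starRingEnd ℂ) P * Y - Q * (starRingEnd ℂ) Y) / D, ?_, ?_⟩
      · have h1 := norm_nonneg (((starRingEnd ℂ) P * Y - Q * (starRingEnd ℂ) Y) / (D : ℂ))
        nlinarith
      · rw [map_div₀, map_sub, map_mul, map_mul, conj_conj, conj_conj, conj_ofReal]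
        field_simp
        rw [eD]
        ring
    · rintro ⟨u, hu, rfl⟩
      have e : ((starRingEnd ℂ) P * (P * u + Q * (starRingEnd ℂ) u) -
          Q * (starRingEnd ℂ) (P * u + Q * (starRingEnd ℂ) u)) / D = u := by
        rw [map_add, map_mul, map_mul, conj_conj]
        rw [div_eq_iff hDC, eD]
        ring
      rw [e, hu, one_pow]

/-- a degenerate locus contains `0` -/
lemma zero_mem {P Q : ℂ} (hPQ : ‖P‖ = ‖Q‖) : ∃ u : ℂ, ‖u‖ = 1 ∧ P * u + Q * (starRingEnd ℂ) u = 0 := by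
  by_cases hP : P = 0
  · rw [hP, norm_zero] at hPQ
    have hQ : Q = 0 := norm_eq_zero.mp hPQ.symm
    exact ⟨1, by simp, by rw [hP, hQ]; simp⟩
  · obtain ⟨u, hu⟩ := IsAlgClosed.exists_pow_nat_eq (-Q / P) (n := 2) (by norm_num)
    have hP' : ‖P‖ ≠ 0 := norm_ne_zero_iff.mpr hP
    have hun : ‖u‖ = 1 := by
      have h1 : ‖u‖ ^ 2 = 1 := by
        rw [← norm_pow, hu, norm_div, norm_neg, ← hPQ, div_self hP']
      nlinarith [norm_nonneg u]
    refine ⟨u, hun, ?_⟩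
    have h2 : P * u ^ 2 = -Q := by rw [hu]; field_simp
    have h3 : u * (starRingEnd ℂ) u = 1 := by rw [← nsqC, hun]; norm_num
    linear_combination (starRingEnd ℂ) u * h2 - P * u * h3

end NrD46

open NrD46 in
/-- **D3.** -/
theorem nearD46 : NearD := by
  intro h q₀ F α β H hS hF2 hg hf
  obtain ⟨δ, hδ, hn⟩ := nearAll h hF2 hg hf (ε := 1 / 2) (by norm_num)
  have e1 : ∀ᶠ q in 𝓝 q₀, ‖q - q₀‖ < δ := by
    have := Metric.ball_mem_nhds q₀ hδ
    filter_upwards [this] with q hq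
    rwa [← dist_eq_norm]
  have e2 : ∀ᶠ q in 𝓝 q₀, ‖q‖ < 1 := continuous_norm.continuousAt.eventually_lt_const hg.1
  have e3 : ∀ᶠ q in 𝓝 q₀, ((starRingEnd ℂ) q * F).im ≠ 0 := by
    have hc : Continuous fun q : ℂ => ((starRingEnd ℂ) q * F).im := by fun_prop
    exact hc.continuousAt.eventually_ne hg.2.2.2.2.2
  filter_upwards [e1, e2, e3] with q a1 a2 a3
  obtain ⟨P, Q, hall, hsur⟩ := H 1 q F (by rw [norm_one]; exact a2) hg.2.1 (by rw [one_mul]; exact a3)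
  have hPQ : ‖P‖ ≠ ‖Q‖ := by
    intro hPQ
    obtain ⟨u, hu, h0⟩ := zero_mem hPQ
    obtain ⟨z₀, z₁, z₂, hz, hX⟩ := hsur u hu
    have h1 := hn q a1 z₀ z₁ z₂ hz
    rw [hX, h0] at h1
    have e0 : qf α β 0 = 0 := by simp [qf]
    rw [e0] at h1
    norm_num at h1
  obtain ⟨α', β', hb, hiff⟩ := form_iff hPQ
  refine ⟨α', β', hb, ?_, ?_⟩
  · intro z₀ z₁ z₂ hz
    exact (hiff _).mpr (hall _ _ _ hz)
  · intro Y hY
    obtain ⟨u, hu, hYu⟩ := (hiff _).mp hY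
    obtain ⟨z₀, z₁, z₂, hz, hX⟩ := hsur u hu
    exact ⟨z₀, z₁, z₂, hz, by rw [hX, hYu]⟩

end Pool.Agent.Pon30
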