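import Pool.Agent.Pon30.StmtsD30
import Pool.Agent.Pon30.PairS82

/-! MP_02df19_gt, row D5: from the centre function to the shape function, degenerate loci allowed. -/

set_option autoImplicit false

namespace Pool.Agent.Pon30

open Complex

/-- a set `{o₁ + P u + Q ū : |u| = 1}` that is symmetric about `0` has the centre `0` -/
lemma center_zeroD30 {S : Set ℂ} {o₁ P Q : ℂ}
    (hset : S = {X | ∃ u : ℂ, ‖u‖ = 1 ∧ X = o₁ + (P * u + Q * (starRingEnd ℂ) u)})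
    (hneg : ∀ X ∈ S, -X ∈ S) : o₁ = 0 := by
  have hmem : ∀ u : ℂ, ‖u‖ = 1 → o₁ + (P * u + Q * (starRingEnd ℂ) u) ∈ S := by
    intro u hu
    rw [hset]
    exact ⟨u, hu, rfl⟩
  have hbd : ∀ X ∈ S, ‖X‖ ≤ ‖o₁‖ + (‖P‖ + ‖Q‖) := by
    intro X hX
    rw [hset] at hX
    obtain ⟨u, hu, rfl⟩ := hX
    refine (norm_add_le _ _).trans (add_le_add le_rfl ((norm_add_le _ _).trans ?_))
    rw [norm_mul, norm_mul, RCLike.norm_conj, hu, mul_one, mul_one]
  have hstep : ∀ X ∈ S, X + 2 * o₁ ∈ S := by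
    intro X hX
    have h1 := hneg X hX
    rw [hset] at h1
    obtain ⟨u, hu, e⟩ := h1
    have h2 := hmem (-u) (by rw [norm_neg, hu])
    have e2 : X + 2 * o₁ = o₁ + (P * -u + Q * (starRingEnd ℂ) (-u)) := by
      rw [map_neg]
      linear_combination -e
    rw [e2]
    exact h2
  have hX0 := hmem 1 (by simp)
  set X0 : ℂ := o₁ + (P * 1 + Q * (starRingEnd ℂ) 1) with hX0d
  have hn : ∀ n : ℕ, X0 + (n : ℂ) * (2 * o₁) ∈ S := by
    intro n
    induction n with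
    | zero => simpa using hX0
    | succ n ih =>
      have := hstep _ ih
      rw [show X0 + (n : ℂ) * (2 * o₁) + 2 * o₁ = X0 + ((n + 1 : ℕ) : ℂ) * (2 * o₁) by push_cast; ring] at this
      exact this
  by_contra hne
  have hpos : 0 < ‖2 * o₁‖ := norm_pos_iff.2 (mul_ne_zero two_ne_zero hne)
  obtain ⟨n, hN⟩ := exists_nat_gt ((‖o₁‖ + (‖P‖ + ‖Q‖) + ‖X0‖) / ‖2 * o₁‖)
  rw [div_lt_iff₀ hpos] at hN
  have h1 := hbd _ (hn n)
  have h2 : (n : ℝ) * ‖2 * o₁‖ ≤ ‖X0 + (n : ℂ) * (2 * o₁)‖ + ‖X0‖ := by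
    have h3 := norm_sub_le (X0 + (n : ℂ) * (2 * o₁)) X0
    rw [add_sub_cancel_left, norm_mul, Complex.norm_natCast] at h3
    exact h3
  linarith

open PS82 P82 in
/-- Row D5. -/
theorem pairD30 : PairD := by
  intro f hf hyp p q F h hF hn
  obtain ⟨y₁, y₂, T⟩ := fam41 F 1 hF (by simp)
  obtain ⟨hw, o₁, P, Q, hset⟩ := hyp _ _ _ _ _ (pair_L h hF T) (nonal h hF hn)
  have ho : o₁ = 0 := by
    apply center_zeroD30 hset
    rintro X ⟨A, B, C, hP, rfl⟩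
    exact ⟨_, _, _, periodic_neg hP, (center_neg f A B C).symm⟩
  subst ho
  have hX : ∀ z₀ z₁ z₂, Tz F z₀ z₁ z₂ →
      center f (L p q z₀) (L p q z₁) (L p q z₂) = Xh (shp f) (L p q z₀) (L p q z₁) (L p q z₂) := by
    intro z₀ z₁ z₂ T'
    exact center_Xh hf (or_L h T'.or) (hw _ _ _ (periodic_L h hF T'))
  refine ⟨P, Q, ?_, ?_⟩
  · intro z₀ z₁ z₂ T'
    have h1 : center f (L p q z₀) (L p q z₁) (L p q z₂) ∈
        {X | ∃ A B C, Periodic 0 (oa p q) (ob p q) (ia p q F) (ib p q F) A B C ∧ X = center f A B C} :=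
      ⟨_, _, _, periodic_L h hF T', rfl⟩
    rw [hset] at h1
    obtain ⟨u, hu, e⟩ := h1
    exact ⟨u, hu, by rw [← hX _ _ _ T', e, zero_add]⟩
  · intro u hu
    have h1 : (0 : ℂ) + (P * u + Q * (starRingEnd ℂ) u) ∈
        {X | ∃ A B C, Periodic 0 (oa p q) (ob p q) (ia p q F) (ib p q F) A B C ∧ X = center f A B C} := by
      rw [hset]
      exact ⟨u, hu, rfl⟩
    obtain ⟨A, B, C, hP, e⟩ := h1
    rw [zero_add] at e
    obtain ⟨z₀, z₁, z₂, n0, n1, n2, rfl, rfl, rfl, d01, d12, d20, hs⟩ := conv h hF hP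
    rcases orient n0 n1 n2 d01 d12 d20 hs with T' | T'
    · exact ⟨z₀, z₁, z₂, T', by rw [← hX _ _ _ T', e]⟩
    · refine ⟨z₀, z₂, z₁, T', ?_⟩
      rw [← hX _ _ _ T', center_swap hf hP.tri, e]

end Pool.Agent.Pon30
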