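import Pool.Agent.Pon30.MainS30
import Pool.Agent.Pon30.AllD30
import Pool.Agent.Pon30.BaseD30
import Pool.Agent.Pon30.ClustD46
import Pool.Agent.Pon30.NearD46
import Pool.Agent.Pon30.ContD82
import Pool.Agent.Pon30.PairD30

/-!
# MP_02df19_gt: arbitrary centre functions, loci are ellipses, segments or points
-/

set_option autoImplicit false

namespace Pool.Agent.Pon30

/-- The loci of a centre over all non-aligned pairs are ellipses, segments or points exactly for the fixed combinations
of the centroid and the circumcentre. -/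
theorem mainD30 (f : ℝ → ℝ → ℝ → ℝ) (hf : IsCenterFunction f) :
    (∀ (o : ℂ) (α : ℝ) (β : ℂ) (α' : ℝ) (β' : ℂ), PonceletPair o α β α' β' → NonAligned β β' →
      DegLocus f o α β α' β') ↔
    ∃ κ : ℝ, ∀ A B C : ℂ, IsTriangle A B C → wsum f A B C ≠ 0 ∧
      ∀ O : ℂ, ‖O - A‖ = ‖O - B‖ → ‖O - B‖ = ‖O - C‖ →
        center f A B C = (1 - κ) * ((A + B + C) / 3) + κ * O :=
  iff_of_D realPosS30 f2D46 BD30.baseD30 nearD46 contD82 pairD30 normV82 f hf

end Pool.Agent.Pon30
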