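import Pool.Agent.Pon30.StmtsV30
import Pool.Agent.Pon30.PairS82
import Pool.Agent.Pon30.CcS82

/-! Row NORMV of MP_02df19_gt (helper82): every non-aligned concentric Poncelet pair has the normal form of `pair_L`. -/

set_option autoImplicit false

namespace Pool.Agent.Pon30

open Complex

namespace Nv82

open P82 PS82

/-- the bilinear form -/
noncomputable def bf (a : ℝ) (b u v : ℂ) : ℝ := a * (u.re * v.re + u.im * v.im) + (b * u * v).re

theorem qf_line (a : ℝ) (b u v : ℂ) (t : ℝ) :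
    qf a b (u + t * v) = qf a b v * t ^ 2 + 2 * bf a b u v * t + qf a b u := by
  unfold qf bf
  rw [nsq_re, nsq_re, nsq_re]
  simp only [pow_two, add_re, add_im, mul_re, mul_im, ofReal_re, ofReal_im]
  ring

theorem gram (a : ℝ) (b u v : ℂ) : qf a b u * qf a b v - bf a b u v ^ 2 =
    (a ^ 2 - ‖b‖ ^ 2) * ((starRingEnd ℂ) u * v).im ^ 2 := by
  unfold qf bf
  rw [nsq_re, nsq_re, nsq_re]
  simp only [pow_two, mul_re, mul_im, conj_re, conj_im]
  ring

/-- a form vanishing at two independent vectors and mixed is zero -/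
theorem form_zero {a : ℝ} {b u v : ℂ} (h1 : qf a b u = 0) (h2 : qf a b v = 0) (h3 : bf a b u v = 0)
    (hd : ((starRingEnd ℂ) u * v).im ≠ 0) : a = 0 ∧ b = 0 := by
  set d := ((starRingEnd ℂ) u * v).im with hdd
  have hd' : d = u.re * v.im - u.im * v.re := by
    rw [hdd, mul_im, conj_re, conj_im]
    ring
  have e1 : (a + b.re) * d ^ 2 = 0 := by
    have : (a + b.re) * d ^ 2 = v.im ^ 2 * qf a b u - 2 * u.im * v.im * bf a b u v + u.im ^ 2 * qf a b v := by
      rw [hd']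
      unfold qf bf
      rw [nsq_re, nsq_re]
      simp only [pow_two, mul_re, mul_im]
      ring
    rw [this, h1, h2, h3]
    ring
  have e2 : (a - b.re) * d ^ 2 = 0 := by
    have : (a - b.re) * d ^ 2 = v.re ^ 2 * qf a b u - 2 * u.re * v.re * bf a b u v + u.re ^ 2 * qf a b v := by
      rw [hd']
      unfold qf bf
      rw [nsq_re, nsq_re]
      simp only [pow_two, mul_re, mul_im]
      ring
    rw [this, h1, h2, h3]
    ring
  have e3 : (-b.im) * d ^ 2 = 0 := by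
    have : (-b.im) * d ^ 2 = -(v.re * v.im) * qf a b u + (u.re * v.im + v.re * u.im) * bf a b u v -
        u.re * u.im * qf a b v := by
      rw [hd']
      unfold qf bf
      rw [nsq_re, nsq_re]
      simp only [pow_two, mul_re, mul_im]
      ring
    rw [this, h1, h2, h3]
    ring
  have hd2 : d ^ 2 ≠ 0 := pow_ne_zero _ hd
  have f1 := (mul_eq_zero.1 e1).resolve_right hd2
  have f2 := (mul_eq_zero.1 e2).resolve_right hd2
  have f3 := (mul_eq_zero.1 e3).resolve_right hd2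
  refine ⟨by linarith, ?_⟩
  apply Complex.ext
  · rw [zero_re]; linarith
  · rw [zero_im]; linarith

/-- tangent lines -/
theorem tangent {a : ℝ} {b u v : ℂ} (hv : 0 < qf a b v) (ht : ∃! t : ℝ, qf a b (u + t * v) = 1) :
    qf a b v = (a ^ 2 - ‖b‖ ^ 2) * ((starRingEnd ℂ) u * v).im ^ 2 := by
  rw [← gram]
  obtain ⟨t₀, h0, hu⟩ := ht
  simp only [qf_line] at h0 hu
  set B := bf a b u v with hB
  set V := qf a b v with hV
  set U := qf a b u with hU
  have h1 := hu (-2 * B / V - t₀) (by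
    have : V * (-2 * B / V - t₀) ^ 2 + 2 * B * (-2 * B / V - t₀) + U = V * t₀ ^ 2 + 2 * B * t₀ + U := by
      field_simp
      ring
    rw [this, h0])
  have h2 : t₀ * V = -B := by
    have h3 : 2 * t₀ = -2 * B / V := by linarith
    have h4 : 2 * t₀ * V = -2 * B := by rw [h3]; field_simp
    linarith
  have h5 : V * (V * t₀ ^ 2 + 2 * B * t₀ + U) = V * 1 := by rw [h0]
  linear_combination -h5 + (t₀ * V + B) * h2

/-- the outer form -/
theorem outer {α : ℝ} {β : ℂ} (h : ‖β‖ < α) : ∃ p q : ℂ, ‖q‖ < ‖p‖ ∧ α = oa p q ∧ β = ob p q := by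
  have hb := norm_nonneg β
  have hα : 0 < α := lt_of_le_of_lt hb h
  have hD : 0 < α ^ 2 - ‖β‖ ^ 2 := by nlinarith
  set J : ℝ := 1 / √(α ^ 2 - ‖β‖ ^ 2) with hJ
  have hs : 0 < √(α ^ 2 - ‖β‖ ^ 2) := Real.sqrt_pos.2 hD
  have hJ0 : 0 < J := by positivity
  have hJ2 : J ^ 2 * (α ^ 2 - ‖β‖ ^ 2) = 1 := by
    rw [hJ, div_pow, one_pow, Real.sq_sqrt hD.le]
    field_simp
  set p : ℝ := √((α * J ^ 2 + J) / 2) with hp
  have hpp : 0 < (α * J ^ 2 + J) / 2 := by positivity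
  have hp0 : 0 < p := Real.sqrt_pos.2 hpp
  have hp2 : p ^ 2 = (α * J ^ 2 + J) / 2 := Real.sq_sqrt hpp.le
  set q : ℂ := -((J ^ 2 / (2 * p) : ℝ) : ℂ) * (starRingEnd ℂ) β with hq
  have hqn : normSq q = J ^ 4 * ‖β‖ ^ 2 / (4 * p ^ 2) := by
    rw [hq, normSq_mul, normSq_neg, normSq_ofReal, normSq_conj, normSq_eq_norm_sq]
    ring
  have hpn : normSq (p : ℂ) = p ^ 2 := by rw [normSq_ofReal]; ring
  have hβ2 : J ^ 4 * ‖β‖ ^ 2 = α ^ 2 * J ^ 4 - J ^ 2 := by
    linear_combination (-J ^ 2) * hJ2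
  have hdiff : normSq (p : ℂ) - normSq q = J := by
    rw [hqn, hpn, hβ2, hp2]
    field_simp
    ring
  have hsum : normSq (p : ℂ) + normSq q = α * J ^ 2 := by
    have : normSq (p : ℂ) + normSq q = 2 * p ^ 2 - (normSq (p : ℂ) - normSq q) := by rw [hpn]; ring
    rw [this, hdiff, hp2]
    ring
  refine ⟨(p : ℂ), q, ?_, ?_, ?_⟩
  · have h1 : ‖q‖ ^ 2 < ‖(p : ℂ)‖ ^ 2 := by
      rw [← normSq_eq_norm_sq, ← normSq_eq_norm_sq]
      linarith
    exact lt_of_pow_lt_pow_left₀ 2 (norm_nonneg _) h1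
  · rw [oa, normSq_conj, hdiff, hsum]
    field_simp
  · rw [ob, hdiff, conj_ofReal, hq]
    simp only [map_mul, map_neg, conj_ofReal, conj_conj]
    push_cast
    have h1 : (J : ℂ) ≠ 0 := by exact_mod_cast hJ0.ne'
    have h2 : (p : ℂ) ≠ 0 := by exact_mod_cast hp0.ne'
    field_simp

/-- a positive form -/
theorem pos_form {a : ℝ} {b : ℂ} (h : ∀ z : ℂ, z ≠ 0 → 0 < qf a b z) : ‖b‖ < a := by
  by_cases hb : b = 0
  · have := h 1 one_ne_zero
    rw [hb] at this ⊢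
    simpa [qf] using this
  · have hbn : 0 < ‖b‖ := norm_pos_iff.2 hb
    obtain ⟨u, hu⟩ := IsAlgClosed.exists_pow_nat_eq (-((starRingEnd ℂ) b) / (‖b‖ : ℝ)) (n := 2) (by norm_num)
    have hun : ‖u‖ ^ 2 = 1 := by
      rw [← norm_pow, hu, norm_div, norm_neg, RCLike.norm_conj, norm_real, norm_norm, div_self hbn.ne']
    have hu0 : u ≠ 0 := by
      rintro rfl
      rw [norm_zero] at hun
      norm_num at hun
    have h1 := h u hu0
    unfold qf at h1
    rw [hun, hu] at h1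
    have h2 : (b * (-((starRingEnd ℂ) b) / (‖b‖ : ℝ))).re = -‖b‖ := by
      have h3 : b * (-((starRingEnd ℂ) b) / (‖b‖ : ℝ)) = ((-‖b‖ : ℝ) : ℂ) := by
        have h4 : b * (starRingEnd ℂ) b = ((‖b‖ : ℝ) : ℂ) ^ 2 := (nsq' _).symm
        have h5 : ((‖b‖ : ℝ) : ℂ) ≠ 0 := by exact_mod_cast hbn.ne'
        push_cast
        field_simp
        linear_combination -h4
      rw [h3, ofReal_re]
    rw [h2] at h1
    linarith

/-- the coefficients of a pulled back form -/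
theorem pull (α : ℝ) (β p q z : ℂ) : qf α β (L p q z) =
    qf (α * (‖p‖ ^ 2 + ‖q‖ ^ 2) + 2 * (β * p * q).re)
      (2 * α * p * (starRingEnd ℂ) q + β * p ^ 2 + (starRingEnd ℂ) β * (starRingEnd ℂ) q ^ 2) z := by
  unfold qf L
  rw [nsq_re, nsq_re, nsq_re, nsq_re]
  simp only [pow_two, add_re, add_im, mul_re, mul_im, conj_re, conj_im, ofReal_re, ofReal_im]
  norm_num
  ring

theorem qf_inj {a a' : ℝ} {b b' : ℂ} (h : ∀ z, qf a b z = qf a' b' z) : a = a' ∧ b = b' := by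
  have h1 := h 1
  have h2 := h I
  have h3 := h (1 + I)
  unfold qf at h1 h2 h3
  have e : (1 + I) ^ 2 = 2 * I := by linear_combination I_sq
  have en : ‖(1 : ℂ) + I‖ ^ 2 = 2 := by
    rw [nsq_re]
    simp
    norm_num
  rw [e, en] at h3
  simp only [norm_one, one_pow, mul_one, norm_I, I_sq, mul_neg, neg_re] at h1 h2
  have h4 : (b * (2 * I)).re = -2 * b.im := by
    simp only [mul_re, mul_im, I_re, I_im]
    norm_num
    ring
  have h5 : (b' * (2 * I)).re = -2 * b'.im := by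
    simp only [mul_re, mul_im, I_re, I_im]
    norm_num
    ring
  rw [h4, h5] at h3
  refine ⟨by linarith, ?_⟩
  apply Complex.ext <;> linarith

/-- the differences of the vertices -/
theorem side {x y z : ℂ} (hx : ‖x‖ = 1) (hy : ‖y‖ = 1) (hz : ‖z‖ = 1) :
    ‖(y - x) + (x * y + x * z + y * z) * (starRingEnd ℂ) (y - x)‖ ^ 2 = 4 * ((starRingEnd ℂ) x * y).im ^ 2 := by
  have cx := cj1 hx
  have cy := cj1 hy
  have cz := cj1 hz
  have e1 : (y - x) + (x * y + x * z + y * z) * (starRingEnd ℂ) (y - x) =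
      (x + y) * z * ((starRingEnd ℂ) y - (starRingEnd ℂ) x) := by
    rw [map_sub]
    linear_combination x * cy - y * cx
  have e2 : ((x + y) * ((starRingEnd ℂ) y - (starRingEnd ℂ) x)) =
      ((-2 * ((starRingEnd ℂ) x * y).im : ℝ) : ℂ) * I := by
    have h1 : (x + y) * ((starRingEnd ℂ) y - (starRingEnd ℂ) x) = x * (starRingEnd ℂ) y - y * (starRingEnd ℂ) x := by
      linear_combination cy - cx
    rw [h1]
    apply Complex.ext
    · simp only [sub_re, mul_re, mul_im, conj_re, conj_im, ofReal_re, ofReal_im, I_re, I_im]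
      ring
    · simp only [sub_im, mul_im, conj_re, conj_im, ofReal_re, ofReal_im, I_re, I_im]
      ring
  have e3 : (x + y) * z * ((starRingEnd ℂ) y - (starRingEnd ℂ) x) =
      z * (((-2 * ((starRingEnd ℂ) x * y).im : ℝ) : ℂ) * I) := by rw [← e2]; ring
  rw [e1, e3, norm_mul, norm_mul, norm_I, hz, norm_real, one_mul, mul_one, Real.norm_eq_abs, sq_abs]
  ring

/-- two different points of the unit circle that are not antipodal are independent -/
theorem indep {x y z : ℂ} (hx : ‖x‖ = 1) (hy : ‖y‖ = 1) (hz : ‖z‖ = 1) (h1 : x ≠ y) (h2 : y ≠ z) (h3 : z ≠ x) :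
    ((starRingEnd ℂ) (y - x) * (z - y)).im ≠ 0 := by
  have cx := cj1 hx
  have cy := cj1 hy
  have cz := cj1 hz
  intro h0
  have e : (starRingEnd ℂ) (y - x) * (z - y) = (y - x) * (starRingEnd ℂ) (z - y) := by
    have : (starRingEnd ℂ) ((starRingEnd ℂ) (y - x) * (z - y)) = (starRingEnd ℂ) (y - x) * (z - y) :=
      conj_eq_iff_im.2 h0
    rw [map_mul, conj_conj] at this
    exact this.symm
  rw [map_sub, map_sub] at e
  have e2 : (y - x) * (z - y) * (z - x) * 1 = 0 := by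
    have f1 : ((starRingEnd ℂ) y - (starRingEnd ℂ) x) * (x * y) = x - y := by
      linear_combination x * cy - y * cx
    have f2 : ((starRingEnd ℂ) z - (starRingEnd ℂ) y) * (y * z) = y - z := by
      linear_combination y * cz - z * cy
    linear_combination (-(x * y * z)) * e + (z * (z - y)) * f1 - (x * (y - x)) * f2
  have e3 := mul_ne_zero (mul_ne_zero (mul_ne_zero (sub_ne_zero.2 (Ne.symm h1)) (sub_ne_zero.2 (Ne.symm h2)))
    (sub_ne_zero.2 h3)) (one_ne_zero (α := ℂ))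
  exact e3 e2

/-- the inner form in the coordinate `z` -/
theorem inner {a : ℝ} {b : ℂ} (hpos : ∀ z : ℂ, z ≠ 0 → 0 < qf a b z) {z₀ z₁ z₂ : ℂ} (n0 : ‖z₀‖ = 1) (n1 : ‖z₁‖ = 1)
    (n2 : ‖z₂‖ = 1) (d01 : z₀ ≠ z₁) (d12 : z₁ ≠ z₂) (d20 : z₂ ≠ z₀)
    (t01 : ∃! t : ℝ, qf a b (z₀ + t * (z₁ - z₀)) = 1) (t12 : ∃! t : ℝ, qf a b (z₁ + t * (z₂ - z₁)) = 1)
    (t20 : ∃! t : ℝ, qf a b (z₂ + t * (z₀ - z₂)) = 1) {F : ℂ} (hF : F = -(z₀ * z₁ + z₀ * z₂ + z₁ * z₂)) :
    ‖F‖ ≠ 1 ∧ ∀ z, qf a b z = 4 * ‖z - F * (starRingEnd ℂ) z‖ ^ 2 / (1 - normSq F) ^ 2 := by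
  have hab := pos_form hpos
  set D := a ^ 2 - ‖b‖ ^ 2 with hD
  have hD0 : 0 < D := by
    rw [hD]
    nlinarith [norm_nonneg b]
  -- the three sides
  have im1 : ∀ x y : ℂ, ((starRingEnd ℂ) x * (y - x)).im = ((starRingEnd ℂ) x * y).im := by
    intro x y
    simp only [mul_im, sub_re, sub_im, conj_re, conj_im]
    ring
  have s01 := tangent (hpos _ (sub_ne_zero.2 (Ne.symm d01))) t01
  have s12 := tangent (hpos _ (sub_ne_zero.2 (Ne.symm d12))) t12
  have s20 := tangent (hpos _ (sub_ne_zero.2 (Ne.symm d20))) t20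
  rw [im1, ← hD] at s01 s12 s20
  have g01 := side n0 n1 n2
  have g12 := side n1 n2 n0
  have g20 := side n2 n0 n1
  rw [show z₀ * z₁ + z₀ * z₂ + z₁ * z₂ = -F by rw [hF]; ring] at g01
  rw [show z₁ * z₂ + z₁ * z₀ + z₂ * z₀ = -F by rw [hF]; ring] at g12
  rw [show z₂ * z₀ + z₂ * z₁ + z₀ * z₁ = -F by rw [hF]; ring] at g20
  -- the form `D / 4 * ‖v - F v̄‖²`
  have hform : ∀ v : ℂ, ‖v + -F * (starRingEnd ℂ) v‖ ^ 2 = qf (1 + ‖F‖ ^ 2) (-2 * (starRingEnd ℂ) F) v := by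
    intro v
    unfold qf
    rw [nsq_re, nsq_re, nsq_re]
    simp only [pow_two, add_re, add_im, mul_re, mul_im, neg_re, neg_im, conj_re, conj_im]
    norm_num
    ring
  set a' := a - D / 4 * (1 + ‖F‖ ^ 2) with ha'
  set b' := b - ((D / 4 : ℝ) : ℂ) * (-2 * (starRingEnd ℂ) F) with hb'
  have hsub : ∀ v : ℂ, qf a' b' v = qf a b v - D / 4 * ‖v + -F * (starRingEnd ℂ) v‖ ^ 2 := by
    intro v
    rw [hform, ha', hb']
    unfold qf
    rw [sub_mul b, sub_re, mul_assoc ((D / 4 : ℝ) : ℂ), re_ofReal_mul]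
    ring
  have v01 : qf a' b' (z₁ - z₀) = 0 := by rw [hsub, s01, g01]; ring
  have v12 : qf a' b' (z₂ - z₁) = 0 := by rw [hsub, s12, g12]; ring
  have v20 : qf a' b' (z₀ - z₂) = 0 := by rw [hsub, s20, g20]; ring
  have vb : bf a' b' (z₁ - z₀) (z₂ - z₁) = 0 := by
    have h1 := qf_line a' b' (z₁ - z₀) (z₂ - z₁) 1
    rw [ofReal_one, one_mul, show z₁ - z₀ + (z₂ - z₁) = -(z₀ - z₂) by ring, qf_neg, v01, v12, v20] at h1
    linarith
  obtain ⟨k1, k2⟩ := form_zero v01 v12 vb (indep n0 n1 n2 d01 d12 d20)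
  have hall : ∀ z, qf a b z = D / 4 * ‖z - F * (starRingEnd ℂ) z‖ ^ 2 := by
    intro z
    have h1 := hsub z
    rw [k1, k2] at h1
    have h2 : qf 0 0 z = 0 := by simp [qf]
    rw [h2] at h1
    rw [sub_eq_add_neg, ← neg_mul]
    linarith
  -- the value of `D`
  have ea : a = D / 4 * (1 + ‖F‖ ^ 2) := by linarith
  have eb : b = ((D / 4 : ℝ) : ℂ) * (-2 * (starRingEnd ℂ) F) := sub_eq_zero.1 k2
  have ebn : ‖b‖ = D / 2 * ‖F‖ := by
    rw [eb, norm_mul, norm_mul, norm_neg, RCLike.norm_conj, norm_real, Real.norm_of_nonneg (by positivity)]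
    norm_num
    ring
  have eD : D = D ^ 2 / 16 * (1 - ‖F‖ ^ 2) ^ 2 := by
    conv_lhs => rw [hD]
    rw [ea, ebn]
    ring
  have eD1 : D * (1 - ‖F‖ ^ 2) ^ 2 = 16 := by
    have : D * (D * (1 - ‖F‖ ^ 2) ^ 2) = D * 16 := by linear_combination -16 * eD
    exact mul_left_cancel₀ hD0.ne' this
  have hne : ‖F‖ ≠ 1 := by
    intro h0
    rw [h0] at eD1
    norm_num at eD1
  refine ⟨hne, fun z => ?_⟩
  rw [hall, normSq_eq_norm_sq]
  have h1 : (1 - ‖F‖ ^ 2) ^ 2 ≠ 0 := by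
    intro h0
    rw [h0, mul_zero] at eD1
    norm_num at eD1
  rw [eq_div_iff h1]
  linear_combination (‖z - F * (starRingEnd ℂ) z‖ ^ 2 / 4) * eD1

/-- `|F| < 1` -/
theorem F_lt {F : ℂ} (h1 : ‖F‖ ≠ 1)
    (h : ∀ z : ℂ, 4 * ‖z - F * (starRingEnd ℂ) z‖ ^ 2 / (1 - normSq F) ^ 2 = 1 → ‖z‖ < 1) : ‖F‖ < 1 := by
  have hF0 := norm_nonneg F
  obtain ⟨v, hv, hFv⟩ : ∃ v : ℂ, ‖v‖ = 1 ∧ F * (starRingEnd ℂ) v = (‖F‖ : ℝ) * v := by
    by_cases hF : F = 0
    · exact ⟨1, by simp, by simp [hF]⟩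
    · have hFn : 0 < ‖F‖ := norm_pos_iff.2 hF
      obtain ⟨u, hu⟩ := IsAlgClosed.exists_pow_nat_eq (F / (‖F‖ : ℝ)) (n := 2) (by norm_num)
      have hun : ‖u‖ = 1 := by
        have h1 : ‖u‖ ^ 2 = 1 := by
          rw [← norm_pow, hu, norm_div, norm_real, norm_norm, div_self hFn.ne']
        nlinarith [norm_nonneg u]
      refine ⟨u, hun, ?_⟩
      have hc := cj1 hun
      have h5 : ((‖F‖ : ℝ) : ℂ) ≠ 0 := by exact_mod_cast hFn.ne'
      have h6 : u ^ 2 * (‖F‖ : ℝ) = F := by rw [hu]; field_simp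
      linear_combination (-(starRingEnd ℂ) u) * h6 + ((‖F‖ : ℝ) * u) * hc
  have hk := h (((1 + ‖F‖) / 2 : ℝ) * v) (by
    have e : (((1 + ‖F‖) / 2 : ℝ) : ℂ) * v - F * (starRingEnd ℂ) ((((1 + ‖F‖) / 2 : ℝ) : ℂ) * v) =
        (((1 + ‖F‖) / 2 * (1 - ‖F‖) : ℝ) : ℂ) * v := by
      rw [map_mul, conj_ofReal]
      push_cast
      linear_combination (-((1 + (‖F‖ : ℂ)) / 2)) * hFv
    rw [e, norm_mul, hv, mul_one, norm_real, Real.norm_eq_abs, sq_abs, normSq_eq_norm_sq]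
    have h2 : (1 - ‖F‖ ^ 2) ^ 2 ≠ 0 := by
      intro h0
      have h3 : 1 - ‖F‖ ^ 2 = 0 := by simpa using h0
      apply h1
      nlinarith
    rw [div_eq_one_iff_eq h2]
    ring)
  rw [norm_mul, hv, mul_one, norm_real, Real.norm_of_nonneg (by positivity)] at hk
  linarith

end Nv82

open Nv82 P82 PS82 in
/-- Row NORMV -/
theorem normV82 : NormV := by
  intro o α β α' β' hP hN
  obtain ⟨p, q, hqp, hα, hβ⟩ := outer hP.outer
  obtain ⟨A, B, C, T⟩ := hP.periodic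
  -- preimages
  have hm : ∀ A : ℂ, A ∈ Ell o α β → ∃ z, ‖z‖ = 1 ∧ A = L p q z + o := by
    intro A hA
    obtain ⟨z, hz⟩ := L_surj hqp (A - o)
    refine ⟨z, ?_, by rw [hz]; ring⟩
    rw [Ell, Set.mem_ofPred_eq, ← hz, hα, hβ, qf_out hqp] at hA
    nlinarith [norm_nonneg z]
  obtain ⟨z₀, n0, rfl⟩ := hm A T.memA
  obtain ⟨z₁, n1, rfl⟩ := hm B T.memB
  obtain ⟨z₂, n2, rfl⟩ := hm C T.memC
  obtain ⟨t1, t2, t3, -⟩ := T.tri
  have d01 : z₀ ≠ z₁ := by
    rintro rfl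
    rw [sub_self, norm_zero] at t3
    exact lt_irrefl _ t3
  have d12 : z₁ ≠ z₂ := by
    rintro rfl
    rw [sub_self, norm_zero] at t1
    exact lt_irrefl _ t1
  have d20 : z₂ ≠ z₀ := by
    rintro rfl
    rw [sub_self, norm_zero] at t2
    exact lt_irrefl _ t2
  -- the pulled back inner form
  set a := α' * (‖p‖ ^ 2 + ‖q‖ ^ 2) + 2 * (β' * p * q).re with ha
  set b := 2 * α' * p * (starRingEnd ℂ) q + β' * p ^ 2 + (starRingEnd ℂ) β' * (starRingEnd ℂ) q ^ 2 with hb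
  have hpull : ∀ z, qf α' β' (L p q z) = qf a b z := fun z => pull α' β' p q z
  have hpos : ∀ z : ℂ, z ≠ 0 → 0 < qf a b z := by
    intro z hz
    rw [← hpull]
    have h1 : L p q z ≠ 0 := by
      intro h0
      apply hz
      apply L_inj hqp
      rw [h0]
      simp [L]
    have h2 := CcS.qf_low (α := α') (β := β') (L p q z)
    have h3 : 0 < ‖L p q z‖ := norm_pos_iff.2 h1
    have h4 := hP.inner
    have : 0 < (α' - ‖β'‖) * ‖L p q z‖ ^ 2 := mul_pos (by linarith) (by positivity)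
    linarith
  have ht : ∀ x y : ℂ, (∃! t : ℝ, L p q x + o + t * (L p q y + o - (L p q x + o)) ∈ Ell o α' β') →
      ∃! t : ℝ, qf a b (x + t * (y - x)) = 1 := by
    intro x y h
    have e : ∀ t : ℝ, (L p q x + o + t * (L p q y + o - (L p q x + o)) ∈ Ell o α' β') ↔
        qf a b (x + t * (y - x)) = 1 := by
      intro t
      rw [Ell, Set.mem_ofPred_eq, ← hpull, ← L_line]
      have : L p q x + o + t * (L p q y + o - (L p q x + o)) - o = L p q x + t * (L p q y - L p q x) := by ring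
      rw [this]
    simpa only [e] using h
  set F := -(z₀ * z₁ + z₀ * z₂ + z₁ * z₂) with hF
  obtain ⟨hF1, hall⟩ := inner hpos n0 n1 n2 d01 d12 d20 (ht _ _ T.tanAB) (ht _ _ T.tanBC) (ht _ _ T.tanCA) hF
  have hFlt : ‖F‖ < 1 := by
    apply F_lt hF1
    intro z hz
    rw [← hall, ← hpull] at hz
    have h1 := hP.inside (L p q z + o) (by rw [Ell, Set.mem_ofPred_eq, add_sub_cancel_right]; exact hz)
    rw [add_sub_cancel_right, hα, hβ, qf_out hqp] at h1
    nlinarith [norm_nonneg z]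
  have hinner : ∀ w, qf α' β' w = qf (ia p q F) (ib p q F) w := by
    intro w
    obtain ⟨z, rfl⟩ := L_surj hqp w
    rw [qf_in hqp F z hFlt, hpull, hall]
  obtain ⟨hα', hβ'⟩ := qf_inj hinner
  refine ⟨p, q, F, hqp, hFlt, ?_, hα, hβ, hα', hβ'⟩
  intro h0
  apply hN
  rw [hβ, hβ']
  have hJ := norm_sq_pos hqp
  have hF' : 0 < 1 - normSq F := by
    rw [normSq_eq_norm_sq]
    have := norm_nonneg F; nlinarith
  have e : ob p q * (starRingEnd ℂ) (ib p q F) = ((16 / ((normSq p - normSq q) ^ 4 * (1 - normSq F) ^ 2) : ℝ) : ℂ) *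
      ((starRingEnd ℂ) p * (starRingEnd ℂ) q * (p + (starRingEnd ℂ) F * q) * (q + F * p)) := by
    simp only [ob, ib, map_mul, map_add, conj_conj, conj_ofReal, map_neg]
    have : (starRingEnd ℂ) (2 : ℂ) = 2 := Complex.conj_ofNat 2
    rw [this]
    push_cast
    have h1 : ((normSq p : ℂ) - normSq q) ≠ 0 := by exact_mod_cast hJ.ne'
    have h2 : (1 - (normSq F : ℂ)) ≠ 0 := by exact_mod_cast hF'.ne'
    field_simp
    ring
  rw [e, im_ofReal_mul]
  have e3 : ((starRingEnd ℂ) p * (starRingEnd ℂ) q * (p + (starRingEnd ℂ) F * q) * (q + F * p)).im =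
      (normSq p - normSq q) * (p * (starRingEnd ℂ) q * F).im := by
    simp only [normSq_apply, add_re, add_im, mul_re, mul_im, conj_re, conj_im]
    ring
  rw [e3, h0]
  ring

end Pool.Agent.Pon30
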