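import Pool.Agent.Pon30.PreS30
import Pool.Agent.Pon30.AllL30
import Pool.Agent.Pon30.NormV82
import Pool.Agent.Pon30.EllV92
import Pool.Agent.Pon30.AlgR37
import Pool.Agent.Pon30.AbsAll6

/-!
# MP_02df19_gt: the final theorems
-/

set_option autoImplicit false

namespace Pool.Agent.Pon30

open Complex Filter Topology

theorem relS30 : RelS34 := fun h hS hlim => Ar37.algR37 h hS.conj hlim

theorem realPosS30 : RealPosS := realPosS34 relS30 absRfin6

/-- The full answer and its converse: the loci are ellipses exactly for centroid, circumcentre and orthocentre. -/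
theorem mainS30 (f : ℝ → ℝ → ℝ → ℝ) (hf : IsCenterFunction f) :
    (∀ (o : ℂ) (α : ℝ) (β : ℂ) (α' : ℝ) (β' : ℂ), PonceletPair o α β α' β' → NonAligned β β' →
      EllipticLocus f o α β α' β') ↔
    ∃ κ : ℝ, (κ = 0 ∨ κ = 1 ∨ κ = -2) ∧ ∀ A B C : ℂ, IsTriangle A B C → wsum f A B C ≠ 0 ∧
      ∀ O : ℂ, ‖O - A‖ = ‖O - B‖ → ‖O - B‖ = ‖O - C‖ →
        center f A B C = (1 - κ) * ((A + B + C) / 3) + κ * O :=
  preS30 relS30 absRfin6 normV82 abV92 ellV92 f hf

/-- Loci that may be degenerate, for centre functions that are continuous near `(1, 1, 1)`. -/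
theorem mainL30 (f : ℝ → ℝ → ℝ → ℝ) (hf : IsCenterFunction f)
    (hc : ∀ᶠ x in 𝓝 ((1, 1, 1) : ℝ × ℝ × ℝ), ContinuousAt (fun p : ℝ × ℝ × ℝ => f p.1 p.2.1 p.2.2) x) :
    (∀ (o : ℂ) (α : ℝ) (β : ℂ) (α' : ℝ) (β' : ℂ), PonceletPair o α β α' β' → NonAligned β β' →
      OnEllipse f o α β α' β') ↔
    ∃ κ : ℝ, ∀ A B C : ℂ, IsTriangle A B C → wsum f A B C ≠ 0 ∧
      ∀ O : ℂ, ‖O - A‖ = ‖O - B‖ → ‖O - B‖ = ‖O - C‖ →
        center f A B C = (1 - κ) * ((A + B + C) / 3) + κ * O :=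
  iff_of_L realPosS30 normV82 f hf hc

end Pool.Agent.Pon30
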