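import Pool.Agent.Pon30.StmtsD30
import Pool.Agent.Pon30.ContS82
import Pool.Agent.Pon30.Pair82

/-! MP_02df19_gt, degenerate loci allowed, row NEARD (helper82): near a good pair with a nondegenerate locus the loci
are nondegenerate. -/

set_option autoImplicit false

namespace Pool.Agent.Pon30

open Complex Filter Topology

namespace NdS

open CcS

/-- the centres over a nearby pair are close to the ellipse -/
theorem nearM (h : ℂ → ℂ) (hF2 : F2P h) {q₀ F : ℂ} (hg : Gd q₀ F) {α : ℝ} {β : ℂ} (hf : IsForm h q₀ F α β)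
    {ε : ℝ} (hε : 0 < ε) : ∃ δ > 0, ∀ q : ℂ, ‖q - q₀‖ < δ → ∀ z₀ z₁ z₂, Tz F z₀ z₁ z₂ →
      |qf α β (Xh h (L 1 q z₀) (L 1 q z₁) (L 1 q z₂)) - 1| ≤ ε := by
  by_contra hcon
  push Not at hcon
  choose q hq z₀ z₁ z₂ hT hY' using fun n : ℕ => hcon (1 / ((n : ℝ) + 1)) (by positivity)
  obtain ⟨Y, hX⟩ : ∃ Y : ℕ → ℂ, ∀ n, Xh h (L 1 (q n) (z₀ n)) (L 1 (q n) (z₁ n)) (L 1 (q n) (z₂ n)) = Y n :=
    ⟨_, fun n => rfl⟩
  simp only [hX] at hY'
  have hF : ‖F‖ < 1 := hg.2.1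
  have hqlim : Tendsto q atTop (𝓝 q₀) := by
    rw [tendsto_iff_norm_sub_tendsto_zero]
    exact squeeze_zero (fun n => norm_nonneg _) (fun n => (hq n).le) tendsto_one_div_add_atTop_nhds_zero_nat
  -- compactness of the triples
  have hK : ∀ n, (z₀ n, z₁ n, z₂ n) ∈ Metric.closedBall (0 : ℂ × ℂ × ℂ) 1 := by
    intro n
    rw [mem_closedBall_zero_iff, Prod.norm_def, Prod.norm_def, max_le_iff, max_le_iff]
    exact ⟨(hT n).n₀.le, (hT n).n₁.le, (hT n).n₂.le⟩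
  obtain ⟨⟨y₀, y₁, y₂⟩, -, φ, hφ, hφlim⟩ := (isCompact_closedBall (0 : ℂ × ℂ × ℂ) 1).tendsto_subseq hK
  have l0 : Tendsto (fun n => z₀ (φ n)) atTop (𝓝 y₀) := (continuous_fst.tendsto _).comp hφlim
  have l1 : Tendsto (fun n => z₁ (φ n)) atTop (𝓝 y₁) := ((continuous_fst.comp continuous_snd).tendsto _).comp hφlim
  have l2 : Tendsto (fun n => z₂ (φ n)) atTop (𝓝 y₂) := ((continuous_snd.comp continuous_snd).tendsto _).comp hφlim
  have lq : Tendsto (fun n => q (φ n)) atTop (𝓝 q₀) := hqlim.comp hφ.tendsto_atTop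
  have hPz : Tendsto (fun n => Pc (z₀ (φ n)) (z₁ (φ n)) (z₂ (φ n))) atTop (𝓝 (Pc y₀ y₁ y₂)) := by
    unfold Pc
    exact ((l0.add (l1.const_mul _)).add (l2.const_mul _)).div_const _
  have hRz : Tendsto (fun n => Rc (z₀ (φ n)) (z₁ (φ n)) (z₂ (φ n))) atTop (𝓝 (Rc y₀ y₁ y₂)) := by
    unfold Rc
    exact ((l0.add (l1.const_mul _)).add (l2.const_mul _)).div_const _
  have hTy : Tz F y₀ y₁ y₂ := by
    refine tz_closed hF ?_ ?_ ?_ ?_ ?_
    · exact tendsto_nhds_unique l0.norm (tendsto_const_nhds.congr (fun n => ((hT (φ n)).n₀).symm))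
    · exact tendsto_nhds_unique l1.norm (tendsto_const_nhds.congr (fun n => ((hT (φ n)).n₁).symm))
    · exact tendsto_nhds_unique l2.norm (tendsto_const_nhds.congr (fun n => ((hT (φ n)).n₂).symm))
    · exact le_of_tendsto_of_tendsto' hRz.norm hPz.norm (fun n => ((hT (φ n)).or).le)
    · exact tendsto_nhds_unique (((l0.mul l1).add (l0.mul l2)).add (l1.mul l2))
        (tendsto_const_nhds.congr (fun n => ((hT (φ n)).s2).symm))
  -- the triangles
  have hL : ∀ {x : ℕ → ℂ} {x' : ℂ}, Tendsto (fun n => x (φ n)) atTop (𝓝 x') →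
      Tendsto (fun n => L 1 (q (φ n)) (x (φ n))) atTop (𝓝 (L 1 q₀ x')) := by
    intro x x' hx
    unfold L
    exact (hx.const_mul 1).add (lq.mul ((continuous_conj.tendsto _).comp hx))
  have w0 := hL l0
  have w1 := hL l1
  have w2 := hL l2
  have hG : Tendsto (fun n => Gc (L 1 (q (φ n)) (z₀ (φ n))) (L 1 (q (φ n)) (z₁ (φ n))) (L 1 (q (φ n)) (z₂ (φ n))))
      atTop (𝓝 (Gc (L 1 q₀ y₀) (L 1 q₀ y₁) (L 1 q₀ y₂))) := by
    unfold Gc
    exact ((w0.add w1).add w2).div_const _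
  have hP : Tendsto (fun n => Pc (L 1 (q (φ n)) (z₀ (φ n))) (L 1 (q (φ n)) (z₁ (φ n))) (L 1 (q (φ n)) (z₂ (φ n))))
      atTop (𝓝 (Pc (L 1 q₀ y₀) (L 1 q₀ y₁) (L 1 q₀ y₂))) := by
    unfold Pc
    exact ((w0.add (w1.const_mul _)).add (w2.const_mul _)).div_const _
  have hR : Tendsto (fun n => Rc (L 1 (q (φ n)) (z₀ (φ n))) (L 1 (q (φ n)) (z₁ (φ n))) (L 1 (q (φ n)) (z₂ (φ n))))
      atTop (𝓝 (Rc (L 1 q₀ y₀) (L 1 q₀ y₁) (L 1 q₀ y₂))) := by
    unfold Rc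
    exact ((w0.add (w1.const_mul _)).add (w2.const_mul _)).div_const _
  set G := Gc (L 1 q₀ y₀) (L 1 q₀ y₁) (L 1 q₀ y₂) with hGd
  set P := Pc (L 1 q₀ y₀) (L 1 q₀ y₁) (L 1 q₀ y₂) with hPd
  set R := Rc (L 1 q₀ y₀) (L 1 q₀ y₁) (L 1 q₀ y₂) with hRd
  have hor := or_L (p := 1) (q := q₀) (by rw [norm_one]; exact hg.1) hTy.or
  rw [← hPd, ← hRd] at hor
  have hPn : 0 < ‖P‖ := lt_of_le_of_lt (norm_nonneg _) hor
  have hP0 : P ≠ 0 := norm_pos_iff.1 hPn
  set s : ℕ → ℂ := fun n => Rc (L 1 (q (φ n)) (z₀ (φ n))) (L 1 (q (φ n)) (z₁ (φ n))) (L 1 (q (φ n)) (z₂ (φ n))) /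
    Pc (L 1 (q (φ n)) (z₀ (φ n))) (L 1 (q (φ n)) (z₁ (φ n))) (L 1 (q (φ n)) (z₂ (φ n))) with hs
  have hslim : Tendsto s atTop (𝓝 (R / P)) := hR.div hP hP0
  have hQ : Tendsto (fun n => qf α β (G + P * h (s n))) atTop (𝓝 1) :=
    (hF2 q₀ F hg α β hf y₀ y₁ y₂ hTy).comp hslim
  -- bounded
  have hαβ : 0 < α - ‖β‖ := sub_pos.2 hf.1
  have hbd : ∀ᶠ n in atTop, ‖h (s n)‖ ≤ (2 / (α - ‖β‖) + 1 + ‖G‖) / ‖P‖ := by
    have h2 := hQ.eventually_lt_const (show (1 : ℝ) < 2 by norm_num)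
    filter_upwards [h2] with n hn
    have h3 := qf_low (α := α) (β := β) (G + P * h (s n))
    have h4 : ‖G + P * h (s n)‖ ^ 2 ≤ 2 / (α - ‖β‖) := by
      rw [le_div_iff₀ hαβ]; linarith
    have h5 : ‖G + P * h (s n)‖ ≤ 2 / (α - ‖β‖) + 1 := by
      nlinarith [norm_nonneg (G + P * h (s n)), sq_nonneg (‖G + P * h (s n)‖ - 1)]
    have h6 : ‖P * h (s n)‖ ≤ ‖G + P * h (s n)‖ + ‖G‖ := by
      have := norm_sub_le (G + P * h (s n)) G
      rwa [add_sub_cancel_left] at this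
    rw [norm_mul] at h6
    rw [le_div_iff₀ hPn]
    linarith
  set C := (2 / (α - ‖β‖) + 1 + ‖G‖) / ‖P‖ with hC
  -- Y_n is close to G + P h (s n)
  have hYd : Tendsto (fun n => Y (φ n) - (G + P * h (s n))) atTop (𝓝 0) := by
    have e : ∀ n, Y (φ n) - (G + P * h (s n)) =
        (Gc (L 1 (q (φ n)) (z₀ (φ n))) (L 1 (q (φ n)) (z₁ (φ n))) (L 1 (q (φ n)) (z₂ (φ n))) - G) +
        (Pc (L 1 (q (φ n)) (z₀ (φ n))) (L 1 (q (φ n)) (z₁ (φ n))) (L 1 (q (φ n)) (z₂ (φ n))) - P) * h (s n) := by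
      intro n
      rw [← hX (φ n)]
      unfold Xh
      rw [hs]
      ring
    have t1 : Tendsto (fun n => Gc (L 1 (q (φ n)) (z₀ (φ n))) (L 1 (q (φ n)) (z₁ (φ n))) (L 1 (q (φ n)) (z₂ (φ n))) - G)
        atTop (𝓝 0) := by
      have := hG.sub_const G
      rwa [sub_self] at this
    have t2 : Tendsto (fun n => (Pc (L 1 (q (φ n)) (z₀ (φ n))) (L 1 (q (φ n)) (z₁ (φ n))) (L 1 (q (φ n)) (z₂ (φ n))) - P) *
        h (s n)) atTop (𝓝 0) := by
      have t3 : Tendsto (fun n => Pc (L 1 (q (φ n)) (z₀ (φ n))) (L 1 (q (φ n)) (z₁ (φ n))) (L 1 (q (φ n)) (z₂ (φ n))) - P)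
          atTop (𝓝 0) := by
        have := hP.sub_const P
        rwa [sub_self] at this
      have t4 : Tendsto (fun n => ‖Pc (L 1 (q (φ n)) (z₀ (φ n))) (L 1 (q (φ n)) (z₁ (φ n))) (L 1 (q (φ n)) (z₂ (φ n))) - P‖ * C)
          atTop (𝓝 0) := by
        have := t3.norm.mul_const C
        rwa [norm_zero, zero_mul] at this
      refine squeeze_zero_norm' ?_ t4
      filter_upwards [hbd] with n hn
      rw [norm_mul]
      exact mul_le_mul_of_nonneg_left hn (norm_nonneg _)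
    have := t1.add t2
    rw [add_zero] at this
    exact this.congr (fun n => (e n).symm)
  -- qf at Y_n tends to 1
  have hQY : Tendsto (fun n => qf α β (Y (φ n))) atTop (𝓝 1) := by
    have hdiff : ∀ x y : ℂ, qf α β (x + y) - qf α β y =
        qf α β x + 2 * (α * (x.re * y.re + x.im * y.im) + (β * x * y).re) := by
      intro x y
      unfold qf
      rw [nsq_re, nsq_re, nsq_re]
      simp only [pow_two, add_re, add_im, mul_re, mul_im]
      ring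
    set x : ℕ → ℂ := fun n => Y (φ n) - (G + P * h (s n)) with hx
    set y : ℕ → ℂ := fun n => G + P * h (s n) with hy
    have hyb : ∀ᶠ n in atTop, ‖y n‖ ≤ ‖G‖ + ‖P‖ * C := by
      filter_upwards [hbd] with n hn
      refine (norm_add_le _ _).trans ?_
      rw [norm_mul]
      exact add_le_add le_rfl (mul_le_mul_of_nonneg_left hn (norm_nonneg _))
    have t1 : Tendsto (fun n => qf α β (x n)) atTop (𝓝 0) := by
      have := ((cont_qf α β).tendsto 0).comp hYd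
      have e0 : qf α β 0 = 0 := by simp [qf]
      rw [e0] at this
      exact this
    have t2 : Tendsto (fun n => 2 * (α * ((x n).re * (y n).re + (x n).im * (y n).im) + (β * x n * y n).re))
        atTop (𝓝 0) := by
      have t3 : Tendsto (fun n => 2 * ((|α| * 2 + ‖β‖) * (‖x n‖ * (‖G‖ + ‖P‖ * C)))) atTop (𝓝 0) := by
        have := ((hYd.norm.mul_const (‖G‖ + ‖P‖ * C)).const_mul (|α| * 2 + ‖β‖)).const_mul 2
        simpa using this
      refine squeeze_zero_norm' ?_ t3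
      filter_upwards [hyb] with n hn
      have a1 := abs_re_le_norm (x n)
      have a2 := abs_im_le_norm (x n)
      have a3 := abs_re_le_norm (y n)
      have a4 := abs_im_le_norm (y n)
      have a5 : |(β * x n * y n).re| ≤ ‖β‖ * (‖x n‖ * ‖y n‖) := by
        have := abs_re_le_norm (β * x n * y n)
        rw [norm_mul, norm_mul] at this
        linarith
      have a6 : |(x n).re * (y n).re| ≤ ‖x n‖ * ‖y n‖ := by
        rw [abs_mul]; exact mul_le_mul a1 a3 (abs_nonneg _) (norm_nonneg _)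
      have a7 : |(x n).im * (y n).im| ≤ ‖x n‖ * ‖y n‖ := by
        rw [abs_mul]; exact mul_le_mul a2 a4 (abs_nonneg _) (norm_nonneg _)
      have a8 : ‖x n‖ * ‖y n‖ ≤ ‖x n‖ * (‖G‖ + ‖P‖ * C) := mul_le_mul_of_nonneg_left hn (norm_nonneg _)
      rw [Real.norm_eq_abs, abs_mul, abs_of_pos (show (0 : ℝ) < 2 by norm_num)]
      refine mul_le_mul_of_nonneg_left ?_ (by norm_num)
      calc |α * ((x n).re * (y n).re + (x n).im * (y n).im) + (β * x n * y n).re|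
          ≤ |α * ((x n).re * (y n).re + (x n).im * (y n).im)| + |(β * x n * y n).re| := abs_add_le _ _
        _ ≤ |α| * (‖x n‖ * ‖y n‖ + ‖x n‖ * ‖y n‖) + ‖β‖ * (‖x n‖ * ‖y n‖) := by
            rw [abs_mul]
            refine add_le_add (mul_le_mul_of_nonneg_left ((abs_add_le _ _).trans (add_le_add a6 a7)) (abs_nonneg _)) a5
        _ = (|α| * 2 + ‖β‖) * (‖x n‖ * ‖y n‖) := by ring
        _ ≤ (|α| * 2 + ‖β‖) * (‖x n‖ * (‖G‖ + ‖P‖ * C)) := mul_le_mul_of_nonneg_left a8 (by positivity)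
    have t4 := (hQ.add t1).add t2
    rw [add_zero, add_zero] at t4
    refine t4.congr (fun n => ?_)
    have e1 := hdiff (x n) (y n)
    have e2 : x n + y n = Y (φ n) := by simp [hx, hy]
    rw [e2] at e1
    have e3 : qf α β (y n) = qf α β (G + P * h (s n)) := rfl
    linarith
  have hfin := hQY.sub_const 1
  rw [sub_self] at hfin
  have hev := hfin.abs
  rw [abs_zero] at hev
  obtain ⟨n, hn⟩ := (hev.eventually_lt_const hε).exists
  exact absurd (hY' (φ n)) (not_lt.2 hn.le)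

/-- the image of the unit circle is an ellipse if it does not contain `0` -/
theorem form_of {P Q : ℂ} (h : ∀ u : ℂ, ‖u‖ = 1 → P * u + Q * (starRingEnd ℂ) u ≠ 0) :
    ∃ (α : ℝ) (β : ℂ), ‖β‖ < α ∧ ∀ Y : ℂ, qf α β Y = 1 ↔ ∃ u : ℂ, ‖u‖ = 1 ∧ Y = P * u + Q * (starRingEnd ℂ) u := by
  have key : ∀ {P Q : ℂ}, ‖Q‖ < ‖P‖ → ∃ (α : ℝ) (β : ℂ), ‖β‖ < α ∧
      ∀ Y : ℂ, qf α β Y = 1 ↔ ∃ u : ℂ, ‖u‖ = 1 ∧ Y = P * u + Q * (starRingEnd ℂ) u := by
    intro P Q hPQ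
    refine ⟨P82.oa P Q, P82.ob P Q, P82.ob_lt hPQ, fun Y => ⟨fun hY => ?_, ?_⟩⟩
    · obtain ⟨z, rfl⟩ := P82.L_surj hPQ Y
      rw [P82.qf_out hPQ] at hY
      exact ⟨z, by nlinarith [norm_nonneg z], rfl⟩
    · rintro ⟨u, hu, rfl⟩
      have := P82.qf_out hPQ u
      rw [hu] at this
      rw [show P * u + Q * (starRingEnd ℂ) u = L P Q u from rfl, this]
      norm_num
  rcases lt_trichotomy ‖Q‖ ‖P‖ with hlt | heq | hgt
  · exact key hlt
  · exfalso
    by_cases hP : P = 0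
    · have hQ : Q = 0 := by
        rw [← norm_eq_zero, heq, hP, norm_zero]
      exact h 1 (by simp) (by rw [hP, hQ]; simp)
    · have hPn : 0 < ‖P‖ := norm_pos_iff.2 hP
      obtain ⟨u, hu⟩ := IsAlgClosed.exists_pow_nat_eq (-Q / P) (n := 2) (by norm_num)
      have hun : ‖u‖ = 1 := by
        have h1 : ‖u‖ ^ 2 = 1 := by
          rw [← norm_pow, hu, norm_div, norm_neg, heq, div_self hPn.ne']
        nlinarith [norm_nonneg u]
      apply h u hun
      have hc : u * (starRingEnd ℂ) u = 1 := by rw [← nsq, hun]; norm_num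
      have h2 : u ^ 2 * P = -Q := by rw [hu]; field_simp
      linear_combination (starRingEnd ℂ) u * h2 - P * u * hc
  · obtain ⟨α, β, hb, hY⟩ := key hgt
    refine ⟨α, β, hb, fun Y => (hY Y).trans ⟨?_, ?_⟩⟩
    · rintro ⟨u, hu, rfl⟩
      exact ⟨(starRingEnd ℂ) u, by rw [RCLike.norm_conj, hu], by rw [conj_conj]; ring⟩
    · rintro ⟨u, hu, rfl⟩
      exact ⟨(starRingEnd ℂ) u, by rw [RCLike.norm_conj, hu], by rw [conj_conj]; ring⟩

end NdS

/-- Row NEARD -/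
theorem nearD82 : NearD := by
  intro h q₀ F α β hH _ hF2 hg hf
  obtain ⟨δ, hδ, hn⟩ := NdS.nearM h hF2 hg hf (ε := 1 / 2) (by norm_num)
  have hball : ∀ᶠ q in 𝓝 q₀, ‖q - q₀‖ < δ := by
    have := Metric.ball_mem_nhds q₀ hδ
    filter_upwards [this] with q hq
    rwa [Metric.mem_ball, dist_eq_norm] at hq
  filter_upwards [hball, CtS.gd_open hg] with q hq hgq
  obtain ⟨P, Q, h1, h2⟩ := hH 1 q F (by rw [norm_one]; exact hgq.1) hgq.2.1 (by rw [one_mul]; exact hgq.2.2.2.2.2)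
  have hne : ∀ u : ℂ, ‖u‖ = 1 → P * u + Q * (starRingEnd ℂ) u ≠ 0 := by
    intro u hu h0
    obtain ⟨z₀, z₁, z₂, hT, hX⟩ := h2 u hu
    have h3 := hn q hq z₀ z₁ z₂ hT
    rw [hX, h0] at h3
    have e0 : qf α β 0 = 0 := by simp [qf]
    rw [e0] at h3
    norm_num at h3
  obtain ⟨α', β', hb, hY⟩ := NdS.form_of hne
  refine ⟨α', β', hb, fun z₀ z₁ z₂ hT => (hY _).2 (h1 z₀ z₁ z₂ hT), fun Y hYq => ?_⟩
  obtain ⟨u, hu, rfl⟩ := (hY Y).1 hYq
  exact h2 u hu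

end Pool.Agent.Pon30
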