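import Pool.Agent.Pon30.StmtsD30
import Pool.Agent.Pon30.PairS82

/-! Row D5 of MP_02df19_gt (helper92): from the centre function to the shape function, degenerate loci allowed. -/

set_option autoImplicit false

namespace Pool.Agent.Pon30

open Complex

/-- a set `{o₁ + P u + Q ū : |u| = 1}` that is symmetric about `0` has `o₁ = 0` -/
theorem ctrD92 {o₁ P Q : ℂ}
    (hs : ∀ x ∈ {X : ℂ | ∃ u : ℂ, ‖u‖ = 1 ∧ X = o₁ + (P * u + Q * (starRingEnd ℂ) u)},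
      -x ∈ {X : ℂ | ∃ u : ℂ, ‖u‖ = 1 ∧ X = o₁ + (P * u + Q * (starRingEnd ℂ) u)}) : o₁ = 0 := by
  have hstep : ∀ x ∈ {X : ℂ | ∃ u : ℂ, ‖u‖ = 1 ∧ X = o₁ + (P * u + Q * (starRingEnd ℂ) u)},
      2 * o₁ + x ∈ {X : ℂ | ∃ u : ℂ, ‖u‖ = 1 ∧ X = o₁ + (P * u + Q * (starRingEnd ℂ) u)} := by
    intro x hx
    obtain ⟨u, hu, he⟩ := hs x hx
    refine ⟨-u, by rw [norm_neg, hu], ?_⟩
    have hx' : x = -(o₁ + (P * u + Q * (starRingEnd ℂ) u)) := by rw [← he, neg_neg]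
    rw [hx', map_neg]
    ring
  have h0 : o₁ + (P * 1 + Q * (starRingEnd ℂ) 1) ∈
      {X : ℂ | ∃ u : ℂ, ‖u‖ = 1 ∧ X = o₁ + (P * u + Q * (starRingEnd ℂ) u)} := ⟨1, by simp, rfl⟩
  have hn : ∀ n : ℕ, (n : ℂ) * (2 * o₁) + (o₁ + (P * 1 + Q * (starRingEnd ℂ) 1)) ∈
      {X : ℂ | ∃ u : ℂ, ‖u‖ = 1 ∧ X = o₁ + (P * u + Q * (starRingEnd ℂ) u)} := by
    intro n
    induction n with
    | zero => simpa using h0
    | succ k ih =>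
      have h1 := hstep _ ih
      have h2 : ((k + 1 : ℕ) : ℂ) * (2 * o₁) + (o₁ + (P * 1 + Q * (starRingEnd ℂ) 1)) =
          2 * o₁ + ((k : ℂ) * (2 * o₁) + (o₁ + (P * 1 + Q * (starRingEnd ℂ) 1))) := by
        push_cast
        ring
      rw [h2]
      exact h1
  have hb : ∀ x ∈ {X : ℂ | ∃ u : ℂ, ‖u‖ = 1 ∧ X = o₁ + (P * u + Q * (starRingEnd ℂ) u)},
      ‖x‖ ≤ ‖o₁‖ + (‖P‖ + ‖Q‖) := by
    rintro x ⟨u, hu, rfl⟩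
    calc ‖o₁ + (P * u + Q * (starRingEnd ℂ) u)‖ ≤ ‖o₁‖ + ‖P * u + Q * (starRingEnd ℂ) u‖ := norm_add_le _ _
      _ ≤ ‖o₁‖ + (‖P * u‖ + ‖Q * (starRingEnd ℂ) u‖) := by gcongr; exact norm_add_le _ _
      _ = ‖o₁‖ + (‖P‖ + ‖Q‖) := by rw [norm_mul, norm_mul, RCLike.norm_conj, hu, mul_one, mul_one]
  by_contra hne
  have hp : 0 < ‖o₁‖ := norm_pos_iff.2 hne
  obtain ⟨n, hn'⟩ := exists_nat_gt ((2 * (‖o₁‖ + (‖P‖ + ‖Q‖))) / (2 * ‖o₁‖))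
  have h1 : 2 * (‖o₁‖ + (‖P‖ + ‖Q‖)) < n * (2 * ‖o₁‖) := by
    rwa [div_lt_iff₀ (by positivity)] at hn'
  have h2 := hb _ (hn n)
  have h3 := hb _ h0
  have h4 : ‖(n : ℂ) * (2 * o₁)‖ = n * (2 * ‖o₁‖) := by
    rw [norm_mul, norm_mul, Complex.norm_natCast, Complex.norm_ofNat]
  have h5 : ‖(n : ℂ) * (2 * o₁)‖ ≤ ‖(n : ℂ) * (2 * o₁) + (o₁ + (P * 1 + Q * (starRingEnd ℂ) 1))‖ +
      ‖o₁ + (P * 1 + Q * (starRingEnd ℂ) 1)‖ := by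
    have h6 := norm_sub_le ((n : ℂ) * (2 * o₁) + (o₁ + (P * 1 + Q * (starRingEnd ℂ) 1)))
      (o₁ + (P * 1 + Q * (starRingEnd ℂ) 1))
    rwa [add_sub_cancel_right] at h6
  linarith

open PS82 P82 in
/-- Row D5. -/
theorem pairD92 : PairD := by
  intro f hf hyp p q F h hF hn
  obtain ⟨y₁, y₂, T⟩ := fam41 F 1 hF (by simp)
  obtain ⟨hw, o₁, P, Q, hset⟩ := hyp _ _ _ _ _ (pair_L h hF T) (nonal h hF hn)
  have hmem : ∀ z₀ z₁ z₂, Tz F z₀ z₁ z₂ → center f (L p q z₀) (L p q z₁) (L p q z₂) ∈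
      {X : ℂ | ∃ u : ℂ, ‖u‖ = 1 ∧ X = o₁ + (P * u + Q * (starRingEnd ℂ) u)} := by
    intro z₀ z₁ z₂ T
    rw [← hset]
    exact ⟨_, _, _, periodic_L h hF T, rfl⟩
  have ho : o₁ = 0 := by
    apply ctrD92 (P := P) (Q := Q)
    intro z hz
    rw [← hset] at hz ⊢
    obtain ⟨A, B, C, hP, rfl⟩ := hz
    exact ⟨_, _, _, periodic_neg hP, (center_neg f A B C).symm⟩
  subst ho
  have hX : ∀ z₀ z₁ z₂, Tz F z₀ z₁ z₂ →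
      center f (L p q z₀) (L p q z₁) (L p q z₂) = Xh (shp f) (L p q z₀) (L p q z₁) (L p q z₂) := by
    intro z₀ z₁ z₂ T'
    exact center_Xh hf (or_L h T'.or) (hw _ _ _ (periodic_L h hF T'))
  refine ⟨P, Q, ?_, ?_⟩
  · intro z₀ z₁ z₂ T'
    obtain ⟨u, hu, he⟩ := hmem _ _ _ T'
    refine ⟨u, hu, ?_⟩
    rw [← hX _ _ _ T', he, zero_add]
  · intro u hu
    have hY' : P * u + Q * (starRingEnd ℂ) u ∈
        {X : ℂ | ∃ u : ℂ, ‖u‖ = 1 ∧ X = 0 + (P * u + Q * (starRingEnd ℂ) u)} := ⟨u, hu, by rw [zero_add]⟩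
    rw [← hset] at hY'
    obtain ⟨A, B, C, hP, he⟩ := hY'
    rw [he]
    obtain ⟨z₀, z₁, z₂, n0, n1, n2, rfl, rfl, rfl, d01, d12, d20, hs⟩ := conv h hF hP
    rcases orient n0 n1 n2 d01 d12 d20 hs with T' | T'
    · exact ⟨z₀, z₁, z₂, T', (hX _ _ _ T').symm⟩
    · refine ⟨z₀, z₂, z₁, T', ?_⟩
      rw [← hX _ _ _ T', center_swap hf hP.tri]

end Pool.Agent.Pon30
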