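import Pool.Agent.Pon30.StmtsR34
import Pool.Agent.Pon30.AlgW93

/-!
# MP_02df19_gt: from the relation on the real axis to the positive real axis
-/

set_option autoImplicit false

namespace Pool.Agent.Pon30

open Complex Filter Topology

theorem xi_of34 {x : ℝ} (h0 : 0 ≤ x) (h1 : x < 1) : xi (x / (1 + x) ^ 2) = x := by
  have hx : 0 < 1 + x := by linarith
  have e : √(1 - 4 * (x / (1 + x) ^ 2)) = (1 - x) / (1 + x) := by
    rw [show 1 - 4 * (x / (1 + x) ^ 2) = ((1 - x) / (1 + x)) ^ 2 by field_simp; ring]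
    exact Real.sqrt_sq (div_nonneg (by linarith) hx.le)
  unfold xi
  rw [e]
  field_simp
  ring

/-- the positive real axis -/
theorem realR34 {h : ℂ → ℂ} (h0 : h 0 = 0)
    (hcj : ∃ ε > 0, ∀ s : ℂ, ‖s‖ < ε → h ((starRingEnd ℂ) s) = (starRingEnd ℂ) (h s)) {κ Δ : ℝ}
    (hlim : Tendsto (fun v : ℝ => Mv h v / v) (𝓝[≠] 0) (𝓝 κ))
    (hrel : ∃ ρ > 0, ∀ F : ℝ, F ≠ 0 → |F| < ρ →
      (1 + Mv h (2 * F ^ 2 / (9 - F ^ 2)) * (3 - F) / F) ^ 2 * ((3 + F) ^ 2 - 8 * Δ * F ^ 3 / (3 * (1 - F))) =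
        (3 + F + 2 * κ * F) ^ 2) :
    ∃ δ > 0, ∀ x : ℝ, 0 ≤ x → x < δ → h x = hκ κ x := by
  obtain ⟨ρ, hρ, hrel⟩ := hrel
  obtain ⟨ε, hε, hconj⟩ := hcj
  -- the function for `AlgW`
  have hψ : Tendsto (fun E : ℝ => Mv h (2 * E) / (2 * E)) (𝓝[>] 0) (𝓝 κ) := by
    have h2 : Tendsto (fun E : ℝ => 2 * E) (𝓝[>] 0) (𝓝[≠] 0) := by
      refine tendsto_nhdsWithin_iff.2 ⟨?_, ?_⟩
      · have : Tendsto (fun E : ℝ => 2 * E) (𝓝 0) (𝓝 (2 * 0)) := tendsto_id.const_mul 2
        rw [mul_zero] at this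
        exact this.mono_left nhdsWithin_le_nhds
      · filter_upwards [self_mem_nhdsWithin] with E hE
        have : (0 : ℝ) < E := hE
        simp only [Set.mem_compl_iff, Set.mem_singleton_iff]
        positivity
    exact hlim.comp h2
  obtain ⟨r, hr, hr1, hr2⟩ : ∃ r : ℝ, 0 < r ∧ r ≤ 1 / 4 ∧ r ≤ ρ / 5 :=
    ⟨min (1 / 4) (ρ / 5), by positivity, min_le_left _ _, min_le_right _ _⟩
  obtain ⟨-, E₁, hE₁, hκe⟩ := algW93 κ Δ (fun E : ℝ => Mv h (2 * E) / (2 * E)) hψ
    ⟨r ^ 2 / (1 + 2 * r), by positivity, by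
      intro E o hE0 hE ho
      have hr3 : 0 < 1 + 2 * r := by positivity
      rw [lt_div_iff₀ hr3] at hE
      have ho0 : o ≠ 0 := by
        intro h; rw [h] at ho; simp at ho; linarith
      have hor : |o| < r := by
        by_contra hcon
        push Not at hcon
        have h1 : o ^ 2 = |o| ^ 2 := (sq_abs o).symm
        have h2 : o ^ 2 ≤ E + 2 * E * |o| := by
          have := neg_abs_le o
          nlinarith
        rw [h1] at h2
        have h3 : r * |o| ^ 2 ≤ r * (E + 2 * E * |o|) := by gcongr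
        have h4 : r * (E + 2 * E * |o|) ≤ E * (1 + 2 * r) * |o| := by nlinarith
        have h5 : E * (1 + 2 * r) * |o| < r ^ 2 * |o| := by
          have : 0 < |o| := abs_pos.2 ho0
          gcongr
        have h6 : r ^ 2 * |o| ≤ r * |o| ^ 2 := by nlinarith [abs_nonneg o, mul_le_mul_of_nonneg_left hcon (abs_nonneg o)]
        linarith
      obtain ⟨ho1, ho2⟩ := abs_lt.1 hor
      have hone : 0 < 1 - o := by linarith
      have h12 : 0 < 1 - 2 * o := by linarith
      have h14 : 0 < 1 - 4 * o := by linarith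
      have hone' : 1 - o ≠ 0 := hone.ne'
      have h12' : 1 - 2 * o ≠ 0 := h12.ne'
      have h14' : 1 - 4 * o ≠ 0 := h14.ne'
      have hEe : E = o ^ 2 / (1 - 2 * o) := by
        rw [eq_div_iff h12.ne']; linarith
      have hF0 : 3 * o / (1 - o) ≠ 0 := by
        have : 3 * o ≠ 0 := by simpa using ho0
        exact div_ne_zero this hone.ne'
      have hFρ : |3 * o / (1 - o)| < ρ := by
        rw [abs_div, abs_of_pos hone, div_lt_iff₀ hone, abs_mul, abs_of_pos (by norm_num : (0 : ℝ) < 3)]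
        nlinarith
      have key := hrel (3 * o / (1 - o)) hF0 hFρ
      have e1 : 2 * (3 * o / (1 - o)) ^ 2 / (9 - (3 * o / (1 - o)) ^ 2) = 2 * E := by
        rw [hEe]
        have : 9 - (3 * o / (1 - o)) ^ 2 = 9 * (1 - 2 * o) / (1 - o) ^ 2 := by
          field_simp; ring
        rw [this]
        field_simp
        ring
      rw [e1] at key
      set m := Mv h (2 * E) with hm
      have e2 : 1 + m * (3 - 3 * o / (1 - o)) / (3 * o / (1 - o)) = 1 + 2 * o * (m / (2 * E)) := by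
        rw [hEe]
        field_simp
        ring
      rw [e2] at key
      have e3 : (3 + 3 * o / (1 - o)) ^ 2 - 8 * Δ * (3 * o / (1 - o)) ^ 3 / (3 * (1 - 3 * o / (1 - o))) =
          9 / ((1 - o) ^ 2 * (1 - 4 * o)) * (1 - 4 * o - 8 * Δ * o ^ 3) := by
        have h5 : 1 - 3 * o / (1 - o) = (1 - 4 * o) / (1 - o) := by field_simp; ring
        have h6 : 3 + 3 * o / (1 - o) = 3 / (1 - o) := by field_simp; ring
        have h7 : 8 * Δ * (3 * o / (1 - o)) ^ 3 / (3 * ((1 - 4 * o) / (1 - o))) =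
            72 * Δ * o ^ 3 / ((1 - o) ^ 2 * (1 - 4 * o)) := by
          rw [div_pow, div_eq_div_iff (by positivity) (by positivity)]
          field_simp
          ring
        rw [h5, h6, h7, div_pow, div_mul_eq_mul_div, div_sub_div _ _ (by positivity) (by positivity),
          div_eq_div_iff (by positivity) (by positivity)]
        ring
      have e4 : (3 + 3 * o / (1 - o) + 2 * κ * (3 * o / (1 - o))) ^ 2 =
          9 / ((1 - o) ^ 2 * (1 - 4 * o)) * ((1 - 4 * o) * (1 + 2 * κ * o) ^ 2) := by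
        have h6 : 3 + 3 * o / (1 - o) + 2 * κ * (3 * o / (1 - o)) = 3 * (1 + 2 * κ * o) / (1 - o) := by
          field_simp; ring
        rw [h6, div_pow, div_mul_eq_mul_div, div_eq_div_iff (by positivity) (by positivity)]
        ring
      rw [e3, e4] at key
      have e5 : 9 / ((1 - o) ^ 2 * (1 - 4 * o)) ≠ 0 := by positivity
      refine mul_left_cancel₀ e5 ?_
      linear_combination key⟩
  refine ⟨min (min ε 1) (2 * E₁), by positivity, fun x hx0 hx => ?_⟩
  have hx1 : x < ε := hx.trans_le ((min_le_left _ _).trans (min_le_left _ _))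
  have hx2 : x < 1 := hx.trans_le ((min_le_left _ _).trans (min_le_right _ _))
  have hx3 : x < 2 * E₁ := hx.trans_le (min_le_right _ _)
  rcases hx0.eq_or_lt with hx4 | hx4
  · rw [← hx4, Complex.ofReal_zero, h0]
    simp [hκ]
  have h1x : 0 < 1 + x := by linarith
  have hu0 : 0 < x / (1 + x) ^ 2 := by positivity
  have hu1 : x / (1 + x) ^ 2 ≤ x := by
    rw [div_le_iff₀ (by positivity)]
    have h2 := pow_pos hx4 2
    have h3 := pow_pos hx4 3
    nlinarith
  have k1 := hκe (x / (1 + x) ^ 2 / 2) (by positivity) (by linarith)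
  rw [show 2 * (x / (1 + x) ^ 2 / 2) = x / (1 + x) ^ 2 by ring] at k1
  unfold Mv at k1
  rw [xi_of34 hx0 hx2] at k1
  have k2 : (h x).re = κ * x / (1 + x) := by
    field_simp at k1
    rw [eq_div_iff h1x.ne']
    linarith
  have k3 : (h x).im = 0 := by
    have h1 := hconj x (by rw [Complex.norm_real, Real.norm_eq_abs, abs_of_pos hx4]; exact hx1)
    rw [Complex.conj_ofReal] at h1
    exact Complex.conj_eq_iff_im.1 h1.symm
  have k4 : hκ κ (x : ℂ) = ((κ * x / (1 + x) : ℝ) : ℂ) := by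
    unfold hκ
    have h2 : (1 - ‖(x : ℂ)‖ ^ 2 : ℝ) = (1 - x) * (1 + x) := by
      rw [Complex.norm_real, Real.norm_eq_abs, sq_abs]; ring
    have h3 : (1 - (x : ℂ)) ≠ 0 := by
      have : (1 - x : ℝ) ≠ 0 := by linarith
      exact_mod_cast this
    have h4 : (1 + (x : ℂ)) ≠ 0 := by exact_mod_cast h1x.ne'
    rw [Complex.conj_ofReal]
    push_cast [h2]
    field_simp
  rw [k4]
  apply Complex.ext
  · rw [k2, Complex.ofReal_re]
  · rw [k3, Complex.ofReal_im]

end Pool.Agent.Pon30
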