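import Pool.Agent.Pon30.StmtsA41
import Pool.Agent.Pon30.StmtsS30
import Pool.Agent.Pon30.LimS82
import Pool.Agent.Pon30.RealR34

/-!
# MP_02df19_gt, row REALPOSS from RELR and ABSR
-/

set_option autoImplicit false

namespace Pool.Agent.Pon30

open Complex Filter Topology

/-- the function on the real axis is continuous near `0` -/
theorem Mv_contS34 {h : ℂ → ℂ} (hc : ∃ ε > 0, ∀ s : ℂ, ‖s‖ < ε → ContinuousAt h s) :
    ∃ ρ > 0, ContinuousOn (Mv h) (Set.Ioo (-ρ) ρ) := by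
  obtain ⟨ε, hε, hc⟩ := hc
  have hx0 : xi 0 = 0 := by simp [xi]
  have hxc : ContinuousAt xi 0 := by
    unfold xi
    refine ContinuousAt.div ?_ ?_ ?_
    · fun_prop
    · fun_prop
    · simp
  have h1 : ∀ᶠ u in 𝓝 (0 : ℝ), |xi u| < ε := by
    have := hxc.abs
    rw [ContinuousAt, hx0, abs_zero] at this
    exact this.eventually (gt_mem_nhds hε)
  obtain ⟨r, hr, hr2⟩ := Metric.eventually_nhds_iff.1 h1
  refine ⟨min r (1 / 5), by positivity, fun u hu => ?_⟩
  have hu1 : |u| < min r (1 / 5) := abs_lt.2 hu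
  have hu2 : |u| < r := hu1.trans_le (min_le_left _ _)
  have hx1 : |xi u| < ε := hr2 (by rwa [Real.dist_eq, sub_zero])
  have hx2 : ContinuousAt xi u := by
    unfold xi
    refine ContinuousAt.div ?_ ?_ ?_
    · fun_prop
    · fun_prop
    · positivity
  have hx3 : 1 + xi u ≠ 0 := by
    have : 1 + xi u = 2 / (1 + √(1 - 4 * u)) := by
      unfold xi
      have : 1 + √(1 - 4 * u) ≠ 0 := by positivity
      field_simp
      ring
    rw [this]
    positivity
  refine ContinuousAt.continuousWithinAt ?_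
  unfold Mv
  refine ContinuousAt.div ?_ (continuousAt_const.add hx2) hx3
  have h3 : ContinuousAt h ((xi u : ℝ) : ℂ) := hc _ (by rwa [Complex.norm_real, Real.norm_eq_abs])
  have h4 : ContinuousAt (fun u : ℝ => ((xi u : ℝ) : ℂ)) u := Complex.continuous_ofReal.continuousAt.comp hx2
  have h5 : ContinuousAt (fun u : ℝ => h ((xi u : ℝ) : ℂ)) u := ContinuousAt.comp (f := fun u : ℝ => ((xi u : ℝ) : ℂ)) h3 h4
  exact Complex.continuous_re.continuousAt.comp h5

theorem zeroS34 {h : ℂ → ℂ} (hS : Shape0 h) : h 0 = 0 := by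
  obtain ⟨ε, hε, hr⟩ := hS.rot
  have h1 := hr 0 (by simpa using hε)
  rw [mul_zero] at h1
  have h2 : (1 - (starRingEnd ℂ) ω) * h 0 = 0 := by linear_combination h1
  rcases mul_eq_zero.1 h2 with h3 | h3
  · exfalso
    have := congrArg Complex.im h3
    rw [Complex.sub_im, Complex.one_im, Complex.conj_im, ω_im, Complex.zero_im] at this
    have h4 : (0 : ℝ) < √3 := by positivity
    linarith
  · exact h3

/-- the three triangle relation for all real pairs -/
def RelS34 : Prop := ∀ h : ℂ → ℂ, Shape0 h →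
  (∃ ρ > 0, ∀ p q F : ℝ, 0 < p → |q| < ρ * p → F ≠ 0 → |F| < ρ →
    ∃ a b c : ℝ, 0 ≤ a ∧ 0 ≤ b ∧ 0 ≤ c ∧ 0 < a + b + c ∧
      ∀ z₀ z₁ z₂, Tz F z₀ z₁ z₂ →
        a * (Xh h (L p q z₀) (L p q z₁) (L p q z₂)).re ^ 2 +
          b * (Xh h (L p q z₀) (L p q z₁) (L p q z₂)).im ^ 2 = c) →
  ∃ ρ > 0, ∀ F e : ℝ, F ≠ 0 → |F| < ρ → |e| < ρ → RR (Mv h) F e

/-- Row REALPOSS from the algebraic and the analytic row -/
theorem realPosS34 (hRel : RelS34) (hAbs : AbsR) : RealPosS := by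
  intro h hS hH
  obtain ⟨ρ₁, hρ₁, hR⟩ := hRel h hS (limS82 h hS hH)
  obtain ⟨ρ₂, hρ₂, hM⟩ := Mv_contS34 hS.cont
  obtain ⟨κ, Δ, hκt, hκr⟩ := hAbs (Mv h) (min ρ₁ ρ₂) (by positivity)
    (hM.mono (Set.Ioo_subset_Ioo (neg_le_neg (min_le_right _ _)) (min_le_right _ _)))
    (by simp [Mv, xi, zeroS34 hS])
    (fun F e hF hF1 he => hR F e hF (hF1.trans_le (min_le_left _ _)) (he.trans_le (min_le_left _ _)))
  exact ⟨κ, realR34 (zeroS34 hS) hS.conj hκt hκr⟩

end Pool.Agent.Pon30
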