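import Pool.Agent.Pon30.AllS30
import Pool.Agent.Pon30.ContP82
import Pool.Agent.Pon30.RealPosS34
import Pool.Agent.Pon30.ConvV30

/-!
# MP_02df19_gt: the full answer with its converse, from the open rows
-/

set_option autoImplicit false

namespace Pool.Agent.Pon30

open Complex

/-- both directions -/
theorem preS30 (hRel : RelS34) (hAbs : AbsR) (hN : NormV) (hA : AbV) (hE : EllV) (f : ℝ → ℝ → ℝ → ℝ)
    (hf : IsCenterFunction f) :
    (∀ (o : ℂ) (α : ℝ) (β : ℂ) (α' : ℝ) (β' : ℂ), PonceletPair o α β α' β' → NonAligned β β' →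
      EllipticLocus f o α β α' β') ↔
    ∃ κ : ℝ, (κ = 0 ∨ κ = 1 ∨ κ = -2) ∧ ∀ A B C : ℂ, IsTriangle A B C → wsum f A B C ≠ 0 ∧
      ∀ O : ℂ, ‖O - A‖ = ‖O - B‖ → ‖O - B‖ = ‖O - C‖ →
        center f A B C = (1 - κ) * ((A + B + C) / 3) + κ * O := by
  constructor
  · exact main_of_S contP82 (realPosS34 hRel hAbs) f hf
  · rintro ⟨κ, hκ3, hform⟩
    exact convV30 hN hA hE f κ hf hκ3 hform

end Pool.Agent.Pon30
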