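import Pool.Agent.Pon30.AlgR37
import Pool.Agent.Pon30.RealPosS34

/-!
# MP_02df19_gt: the relation of the isosceles members, in the form used by `realPosS34`
-/

set_option autoImplicit false

namespace Pool.Agent.Pon30

theorem relS37 : RelS34 := fun h hS hlim => Ar37.algR37 h hS.conj hlim

end Pool.Agent.Pon30
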