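import Pool.Agent.Pon30.Defs

/-!
# Interface statements for MP_02df19_gt (analytic centres)
-/

namespace Pool.Agent.Pon30

open Complex

/-- vertices of the standard triangle with shape `s` (centroid `0`, `P = 1`, `R = s`) -/
noncomputable def T0 (s : ℂ) : ℂ := 1 + s
noncomputable def T1 (s : ℂ) : ℂ := ω + s * (starRingEnd ℂ) ω
noncomputable def T2 (s : ℂ) : ℂ := (starRingEnd ℂ) ω + s * ω

/-- the shape function of the centre `f` -/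
noncomputable def shp (f : ℝ → ℝ → ℝ → ℝ) (s : ℂ) : ℂ := center f (T0 s) (T1 s) (T2 s)

/-- W1a: the shape function is a `Shape`, and the centre of any positively oriented triple is given by `Xh`. -/
def CenterStmt : Prop := ∀ f : ℝ → ℝ → ℝ → ℝ, IsCenterFunction f →
  AnalyticOnNhd ℝ (fun p : ℝ × ℝ × ℝ => f p.1 p.2.1 p.2.2) {p | Tri p.1 p.2.1 p.2.2} →
  Shape (shp f) ∧
  ∀ w₀ w₁ w₂ : ℂ, ‖Rc w₀ w₁ w₂‖ < ‖Pc w₀ w₁ w₂‖ → wsum f w₀ w₁ w₂ ≠ 0 →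
    center f w₀ w₁ w₂ = Xh (shp f) w₀ w₁ w₂

/-- W2: the hypothesis of the theorem gives, for each non aligned pair, one quadratic form. -/
def PairStmt : Prop := ∀ f : ℝ → ℝ → ℝ → ℝ, IsCenterFunction f →
  (∀ o α β α' β', PonceletPair o α β α' β' → NonAligned β β' → EllipticLocus f o α β α' β') →
  ∀ p q F : ℂ, ‖q‖ < ‖p‖ → ‖F‖ < 1 → (p * (starRingEnd ℂ) q * F).im ≠ 0 →
    ∃ (α : ℝ) (β : ℂ), ‖β‖ < α ∧ ∀ z₀ z₁ z₂, Tz F z₀ z₁ z₂ →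
      wsum f (L p q z₀) (L p q z₁) (L p q z₂) ≠ 0 ∧
      qf α β (center f (L p q z₀) (L p q z₁) (L p q z₂)) = 1

/-- W3: from the shape function near `0` to all triangles (identity theorem). -/
def FinalStmt : Prop := ∀ f : ℝ → ℝ → ℝ → ℝ, IsCenterFunction f →
  AnalyticOnNhd ℝ (fun p : ℝ × ℝ × ℝ => f p.1 p.2.1 p.2.2) {p | Tri p.1 p.2.1 p.2.2} →
  ∀ κ : ℝ, (∃ ε > 0, ∀ s : ℂ, ‖s‖ < ε → shp f s = hκ κ s) →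
  ∀ A B C : ℂ, IsTriangle A B C → wsum f A B C ≠ 0 ∧
    ∀ O : ℂ, ‖O - A‖ = ‖O - B‖ → ‖O - B‖ = ‖O - C‖ →
      center f A B C = (1 - κ) * ((A + B + C) / 3) + κ * O

/-- the core theorem -/
def CoreStmt : Prop := ∀ h : ℂ → ℂ, Shape h → HH h →
  ∃ κ : ℝ, (κ = 0 ∨ κ = 1 ∨ κ = -2) ∧ ∃ ε > 0, ∀ s : ℂ, ‖s‖ < ε → h s = hκ κ s

/-- K1: the family of 3-periodics is not empty, every point of the circle is a vertex. -/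
def FamStmt : Prop := ∀ F z₀ : ℂ, ‖F‖ < 1 → ‖z₀‖ = 1 → ∃ z₁ z₂, Tz F z₀ z₁ z₂

/-- K1': the other two vertices are determined. -/
def FamUniqStmt : Prop := ∀ F z₀ z₁ z₂ z₁' z₂' : ℂ, ‖F‖ < 1 → Tz F z₀ z₁ z₂ → Tz F z₀ z₁' z₂' →
  z₁ = z₁' ∧ z₂ = z₂'

/-- K4: second order expansion of the shape function at the equilateral shape. -/
def JetStmt : Prop := ∀ h : ℂ → ℂ, Shape h →
  ∃ (κ η C ε : ℝ), 0 < ε ∧ ∀ s : ℂ, ‖s‖ < ε → ‖h s - (κ * (starRingEnd ℂ) s + η * s ^ 2)‖ ≤ C * ‖s‖ ^ 3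

/-- K2: limit of the ellipses at an aligned pair `p`, `q`, `F` real, `F ≠ 0`, near the equilateral pair. -/
def LimStmt : Prop := ∀ h : ℂ → ℂ, Shape h → HH h →
  ∃ ρ > 0, ∀ p q F : ℝ, 0 < p → |q| < ρ * p → F ≠ 0 → |F| < ρ →
    ∃ a b c : ℝ, 0 ≤ a ∧ 0 ≤ b ∧ 0 ≤ c ∧ 0 < a + b + c ∧
      ∀ z₀ z₁ z₂, Tz F z₀ z₁ z₂ →
        a * (Xh h (L p q z₀) (L p q z₁) (L p q z₂)).re ^ 2 +
          b * (Xh h (L p q z₀) (L p q z₁) (L p q z₂)).im ^ 2 = c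

/-- K3: a triangle near the equilateral one and a point near its centroid form a concentric pair. -/
def ExStmt : Prop := ∀ ρ > (0 : ℝ), ∃ ε > 0, ∀ s o : ℂ, ‖s‖ < ε → ‖o‖ < ε →
  ∃ p q F z₀ z₁ z₂ : ℂ, ‖q‖ < ‖p‖ ∧ ‖q‖ < ρ * ‖p‖ ∧ ‖F‖ < 1 ∧ ‖F‖ < ρ ∧ Tz F z₀ z₁ z₂ ∧
    T0 s - o = L p q z₀ ∧ T1 s - o = L p q z₁ ∧ T2 s - o = L p q z₂

/-- K3'': an aligned pair can be turned into a real one. -/
def RealStmt : Prop := ∀ p q F z₀ z₁ z₂ : ℂ, ‖q‖ < ‖p‖ → F ≠ 0 → (p * (starRingEnd ℂ) q * F).im = 0 → Tz F z₀ z₁ z₂ →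
  ∃ (c : ℂ) (p' q' F' : ℝ) (y₀ y₁ y₂ : ℂ), ‖c‖ = 1 ∧ p' = ‖p‖ ∧ |q'| = ‖q‖ ∧ |F'| = ‖F‖ ∧ Tz F' y₀ y₁ y₂ ∧
    c * L p q z₀ = L p' q' y₀ ∧ c * L p q z₁ = L p' q' y₁ ∧ c * L p q z₂ = L p' q' y₂

/-- K5a: if the pair of the triangle with shape `s` and the centre `o` is aligned then `o` lies on the Thomson cubic. -/
def CubicStmt : Prop := ∀ s o p q F z₀ z₁ z₂ : ℂ, ‖s‖ < 1 → Tz F z₀ z₁ z₂ → (p * (starRingEnd ℂ) q * F).im = 0 →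
  T0 s - o = L p q z₀ → T1 s - o = L p q z₁ → T2 s - o = L p q z₂ →
  -(1 + ‖s‖ ^ 2) * ((o - s * (starRingEnd ℂ) o) ^ 3).im +
    ((1 - ‖s‖ ^ 2) ^ 2 - 2 * ‖o - s * (starRingEnd ℂ) o‖ ^ 2) * (s * (o - s * (starRingEnd ℂ) o)).im +
    (1 - ‖s‖ ^ 2) * (s * (starRingEnd ℂ) (o - s * (starRingEnd ℂ) o) ^ 2).im = 0

/-- K5: the relation between the first two coefficients. -/
def RelStmt : Prop := ∀ h : ℂ → ℂ, Shape h → HH h → ∀ κ η C ε : ℝ, 0 < ε →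
  (∀ s : ℂ, ‖s‖ < ε → ‖h s - (κ * (starRingEnd ℂ) s + η * s ^ 2)‖ ≤ C * ‖s‖ ^ 3) →
  η + κ = -κ * (κ - 1) * (κ + 2)

/-- Loc: the points `X₂ + κ (X₃ - X₂)` over a real (aligned) pair. -/
def LocStmt : Prop := ∀ (p q F κ : ℝ) (z₀ z₁ z₂ : ℂ), |q| < p → |F| < 1 → Tz F z₀ z₁ z₂ →
  Xh (hκ κ) (L p q z₀) (L p q z₁) (L p q z₂) =
    ((z₀ * z₁ * z₂).re * (-(1 - κ) * (F / 3) * (p + q) + κ * p * q * (1 - F) / (p + q)) : ℝ) +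
    ((z₀ * z₁ * z₂).im * (-(1 - κ) * (F / 3) * (p - q) + κ * p * q * (1 + F) / (p - q)) : ℝ) * I

/-- K6: relation from the aligned pairs that contain an equilateral triangle. `x` is the shape of the second isosceles
triangle of the pair with parameter `o`. -/
def IsoStmt : Prop := ∀ h : ℂ → ℂ, Shape h → HH h → ∀ κ η C ε : ℝ, 0 < ε →
  (∀ s : ℂ, ‖s‖ < ε → ‖h s - (κ * (starRingEnd ℂ) s + η * s ^ 2)‖ ≤ C * ‖s‖ ^ 3) →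
  ∃ ρ > 0, ∀ o x ψ : ℝ, o ≠ 0 → |o| < ρ → 0 < x → x < 1 →
    ((1 - x) / (1 + x)) ^ 2 = (1 - 4 * o) * (1 + 2 * o) / (1 - 2 * o) →
    h x = (ψ * x / (1 + x) : ℝ) →
    (1 + 2 * o * ψ) ^ 2 * (1 - 4 * o - 8 * (η + κ) * o ^ 3) = (1 - 4 * o) * (1 + 2 * κ * o) ^ 2

/-- K7: elementary consequence of the relation for the two roots `o` of `o² + 2 E o - E = 0`. -/
def AlgStmt : Prop := ∀ (κ Δ : ℝ) (ψ : ℝ → ℝ), Δ = -κ * (κ - 1) * (κ + 2) →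
  Filter.Tendsto ψ (nhdsWithin 0 (Set.Ioi 0)) (nhds κ) →
  (∃ E₀ > 0, ∀ E o : ℝ, 0 < E → E < E₀ → o ^ 2 + 2 * E * o - E = 0 →
    (1 + 2 * o * ψ E) ^ 2 * (1 - 4 * o - 8 * Δ * o ^ 3) = (1 - 4 * o) * (1 + 2 * κ * o) ^ 2) →
  (κ = 0 ∨ κ = 1 ∨ κ = -2) ∧ ∃ E₁ > 0, ∀ E : ℝ, 0 < E → E < E₁ → ψ E = κ

/-- K8: the shape function on the real axis near `0`. -/
def RealAxisStmt : Prop := ∀ h : ℂ → ℂ, Shape h → HH h →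
  ∃ κ : ℝ, (κ = 0 ∨ κ = 1 ∨ κ = -2) ∧ (∃ δ > 0, ∀ x : ℝ, |x| < δ → h x = hκ κ x) ∧
    ∃ C ε : ℝ, 0 < ε ∧ ∀ s : ℂ, ‖s‖ < ε → ‖h s - κ * (starRingEnd ℂ) s‖ ≤ C * ‖s‖ ^ 2

end Pool.Agent.Pon30
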