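import Pool.Agent.Pon30.StmtsR34

/-!
# MP_02df19_gt, real axis: asymptotic form of the exact relation (definitions and rows, helper41)
-/

set_option autoImplicit false

namespace Pool.Agent.Pon30

open Filter Topology Set

/-- the exact relation between the positions on the three isosceles members of a real aligned pair -/
def RRm (F e m1 m2 m3 : ℝ) : Prop :=
  (1 + m2 * (3 - F) / F) ^ 2 * ((3 + F) / F * (m3 + 2 * m1) - 6 * e * m3 / F +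
      m3 ^ 2 * ((3 + F) * (3 - 2 * F) / F ^ 2 + 6 * e / F) - m1 ^ 2 * ((3 + F) / F) ^ 2) =
    ((1 + m2 * (3 - F) / F) ^ 2 - (1 - m1 * (3 + F) / F) ^ 2) *
      ((3 + F - 2 * e) / (1 - F + 2 * F * e)) *
      (e - m3 * (3 * (1 - F) + 2 * F * e) / (2 * F)) ^ 2

/-- the second isosceles shape at the equilateral position -/
noncomputable def gF (F : ℝ) : ℝ := 2 * F ^ 2 / (9 - F ^ 2)

/-- the third isosceles shape as a function of the first one, `= -2 v + (9 (1 - F²) / F²) v² / (1 - 4 v)` for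
`g = gF F` -/
noncomputable def U3 (g v : ℝ) : ℝ := -2 * v * (g - v) / (g * (1 - 4 * v))

noncomputable def wF (F : ℝ) : ℝ := 9 * (1 - F ^ 2) / F ^ 2

noncomputable def XiF (M : ℝ → ℝ) (F k : ℝ) : ℝ :=
  9 * (1 - F) / (4 * F ^ 3) * ((3 + F) ^ 2 - (3 + F + 2 * k * F) ^ 2 / (1 + M (gF F) * (3 - F) / F) ^ 2)

/-- row ROUGHA (helper41) -/
def RoughA : Prop := ∀ (M : ℝ → ℝ) (ρ F : ℝ), 0 < ρ → ContinuousOn M (Ioo (-ρ) ρ) → M 0 = 0 →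
  (∀ F e : ℝ, F ≠ 0 → |F| < ρ → |e| < ρ → RR M F e) →
  F ≠ 0 → |F| < ρ → |F| < 1 / 2 → gF F < ρ → 1 + M (gF F) * (3 - F) / F ≠ 0 →
  ∃ C > 0, ∃ r > 0, ∀ v : ℝ, v ≠ 0 → |v| < r →
    |M (U3 (gF F) v) + 2 * M v| ≤ C * (v ^ 2 + M v ^ 2 + M (U3 (gF F) v) ^ 2)

/-- row ASYA (helper41) -/
def AsyA : Prop := ∀ (M : ℝ → ℝ) (ρ F K : ℝ), 0 < ρ → ContinuousOn M (Ioo (-ρ) ρ) → M 0 = 0 →
  (∀ F e : ℝ, F ≠ 0 → |F| < ρ → |e| < ρ → RR M F e) →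
  (∀ v : ℝ, |v| < ρ → |M v| ≤ K * |v|) →
  F ≠ 0 → |F| < ρ → |F| < 1 / 2 → gF F < ρ → 1 + M (gF F) * (3 - F) / F ≠ 0 →
  Tendsto (fun v : ℝ => (M (U3 (gF F) v) + 2 * M v) / v ^ 2 - ((M v / v) * wF F + XiF M F (M v / v)))
    (𝓝[≠] 0) (𝓝 0)

/-- final form ABSR -/
def AbsR : Prop := ∀ (M : ℝ → ℝ) (ρ : ℝ), 0 < ρ → ContinuousOn M (Ioo (-ρ) ρ) → M 0 = 0 →
  (∀ F e : ℝ, F ≠ 0 → |F| < ρ → |e| < ρ → RR M F e) →
  ∃ κ Δ : ℝ, Tendsto (fun v => M v / v) (𝓝[≠] 0) (𝓝 κ) ∧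
    ∃ ρ' > 0, ∀ F : ℝ, F ≠ 0 → |F| < ρ' →
      (1 + M (2 * F ^ 2 / (9 - F ^ 2)) * (3 - F) / F) ^ 2 * ((3 + F) ^ 2 - 8 * Δ * F ^ 3 / (3 * (1 - F))) =
        (3 + F + 2 * κ * F) ^ 2

end Pool.Agent.Pon30
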