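import Pool.Agent.Pon30.Pair82
import Pool.Agent.Pon30.StmtsP34

/-!
# MP_02df19_gt, the converse: the loci of `X₂`, `X₃` and `X₄` over all non-aligned concentric pairs are ellipses
-/

set_option autoImplicit false

namespace Pool.Agent.Pon30

open Complex P82

/-- NORMV: every non-aligned concentric Poncelet pair has the forms of `pair_L` -/
def NormV : Prop := ∀ (o : ℂ) (α : ℝ) (β : ℂ) (α' : ℝ) (β' : ℂ), PonceletPair o α β α' β' → NonAligned β β' →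
  ∃ p q F : ℂ, ‖q‖ < ‖p‖ ∧ ‖F‖ < 1 ∧ (p * (starRingEnd ℂ) q * F).im ≠ 0 ∧
    α = oa p q ∧ β = ob p q ∧ α' = ia p q F ∧ β' = ib p q F

/-- ABV: the loci are not degenerate -/
def AbV : Prop := ∀ (κ : ℝ) (p q F : ℂ), κ = 0 ∨ κ = 1 ∨ κ = -2 → ‖q‖ < ‖p‖ → ‖F‖ < 1 →
  (p * (starRingEnd ℂ) q * F).im ≠ 0 → ‖bκ κ p q F‖ < ‖aκ κ p q F‖

/-- ELLV: an affine image of the unit circle is an ellipse -/
def EllV : Prop := ∀ o a b : ℂ, ‖b‖ < ‖a‖ → ∃ (α : ℝ) (β : ℂ), ‖β‖ < α ∧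
  {X | ∃ u : ℂ, ‖u‖ = 1 ∧ X = o + (a * u + b * (starRingEnd ℂ) u)} = Ell o α β

/-- CONVV: the converse -/
def ConvV : Prop := ∀ (f : ℝ → ℝ → ℝ → ℝ) (κ : ℝ), IsCenterFunction f → κ = 0 ∨ κ = 1 ∨ κ = -2 →
  (∀ A B C : ℂ, IsTriangle A B C → wsum f A B C ≠ 0 ∧
    ∀ O : ℂ, ‖O - A‖ = ‖O - B‖ → ‖O - B‖ = ‖O - C‖ →
      center f A B C = (1 - κ) * ((A + B + C) / 3) + κ * O) →
  ∀ (o : ℂ) (α : ℝ) (β : ℂ) (α' : ℝ) (β' : ℂ), PonceletPair o α β α' β' → NonAligned β β' →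
    EllipticLocus f o α β α' β'

end Pool.Agent.Pon30
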