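import Pool.Agent.Pon30.StmtsC
import Pool.Agent.Pon30.Cubic37
import Pool.Agent.Pon30.Ex37

/-! MP_02df19_gt, arbitrary centre functions (helper46): the centre lies on the Thomson cubic. -/

set_option autoImplicit false

namespace Pool.Agent.Pon30

open Complex

/-- THOMSON: near the equilateral shape the value of the shape function lies on the Thomson cubic of the triangle. -/
def ThomsonS : Prop := ∀ h : ℂ → ℂ, HH h → ∃ ε > 0, ∀ s : ℂ, ‖s‖ < ε → ‖h s‖ < ε → cub s (h s) = 0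

theorem thomson46 : ThomsonS := by
  intro h hH
  obtain ⟨ε, hε, hEx⟩ := E37.ex37 1 one_pos
  refine ⟨min ε 1, by positivity, fun s hs ho => ?_⟩
  have hs1 : ‖s‖ < 1 := hs.trans_le (min_le_right _ _)
  obtain ⟨p, q, F, z₀, z₁, z₂, hqp, -, hF, -, hT, e0, e1, e2⟩ :=
    hEx s (h s) (hs.trans_le (min_le_left _ _)) (ho.trans_le (min_le_left _ _))
  by_contra hcub
  have hna : (p * (starRingEnd ℂ) q * F).im ≠ 0 := by
    intro h0
    exact hcub (C37.cubic37 s (h s) p q F z₀ z₁ z₂ hs1 hT h0 e0 e1 e2)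
  obtain ⟨α, β, -, hall⟩ := hH p q F hqp hF hna
  have h1 := hall z₀ z₁ z₂ hT
  rw [← e0, ← e1, ← e2, Xh_sub, Xh_T, sub_self] at h1
  unfold qf at h1
  simp at h1

end Pool.Agent.Pon30
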