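import Pool.Agent.Pon30.Basic

/-!
# MP_02df19_gt, stage 3, row (A): three members determine a nearby pair (analysis half)
-/

set_option autoImplicit false

namespace Pool.Agent.Pon30

open Complex Filter Topology

/-- the functional of a pair that kills the motions of three members is zero (statement of dual37) -/
def Dual92 (q : ℂ) (z : Fin 3 → Fin 3 → ℂ) : Prop := ∀ (nu sg : Fin 3 → ℂ),
  (∀ k, (nu k * (L 1 q (z k 1) - L 1 q (z k 2)) * (z k 0 - q * (starRingEnd ℂ) (z k 0))).im =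
    (sg k * z k 0 * (z k 1 + z k 2)).im) →
  (∀ k, (nu k * (L 1 q (z k 2) - L 1 q (z k 0)) * (z k 1 - q * (starRingEnd ℂ) (z k 1))).im =
    (sg k * z k 1 * (z k 2 + z k 0)).im) →
  (∀ k, (nu k * (L 1 q (z k 0) - L 1 q (z k 1)) * (z k 2 - q * (starRingEnd ℂ) (z k 2))).im =
    (sg k * z k 2 * (z k 0 + z k 1)).im) →
  (∑ k, nu k * ((starRingEnd ℂ) (z k 0) * (z k 1 - z k 2) + (starRingEnd ℂ) (z k 1) * (z k 2 - z k 0) +
    (starRingEnd ℂ) (z k 2) * (z k 0 - z k 1)) = 0) →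
  (∑ k, sg k = 0) → ∀ k, nu k = 0 ∧ sg k = 0

/-- second elementary symmetric function -/
noncomputable def s2 (z : Fin 3 → ℂ) : ℂ := z 0 * z 1 + z 0 * z 2 + z 1 * z 2

/-- shape of the member `z` of the pair with `p = 1` and `q` -/
noncomputable def Sh (q : ℂ) (z : Fin 3 → ℂ) : ℂ :=
  Rc (L 1 q (z 0)) (L 1 q (z 1)) (L 1 q (z 2)) / Pc (L 1 q (z 0)) (L 1 q (z 1)) (L 1 q (z 2))

/-- the member `z` turned by the angles `τ` -/
noncomputable def tn (z : Fin 3 → ℂ) (τ : Fin 3 → ℝ) : Fin 3 → ℂ := fun j => z j * cexp (τ j * I)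

lemma tn_zero (z : Fin 3 → ℂ) : tn z 0 = z := by
  funext j
  simp [tn]

lemma norm_tn (z : Fin 3 → ℂ) (τ : Fin 3 → ℝ) (j : Fin 3) : ‖tn z τ j‖ = ‖z j‖ := by
  unfold tn
  rw [norm_mul, Complex.norm_exp_ofReal_mul_I, mul_one]

/-- the map: pair and three members to the differences of `s2` and the three shapes -/
noncomputable def Psi (z : Fin 3 → Fin 3 → ℂ) (v : ℂ × (Fin 3 → Fin 3 → ℝ)) : ℂ × ℂ × (Fin 3 → ℂ) :=
  (s2 (tn (z 1) (v.2 1)) - s2 (tn (z 0) (v.2 0)), s2 (tn (z 2) (v.2 2)) - s2 (tn (z 0) (v.2 0)),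
    fun k => Sh v.1 (tn (z k) (v.2 k)))

lemma der_tn (z : Fin 3 → ℂ) (τ : Fin 3 → ℝ) (j : Fin 3) :
    HasDerivAt (fun t : ℝ => tn z (t • τ) j) (I * τ j * z j) 0 := by
  have h1 : HasDerivAt (fun t : ℝ => ((t * τ j : ℝ) : ℂ) * I) ((τ j : ℂ) * I) 0 := by
    have h2 : HasDerivAt (fun t : ℝ => t * τ j) (τ j) 0 := by
      simpa using (hasDerivAt_id (0 : ℝ)).mul_const (τ j)
    exact h2.ofReal_comp.mul_const I
  have h3 := h1.cexp.const_mul (z j)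
  have e : z j * (cexp (((0 * τ j : ℝ) : ℂ) * I) * ((τ j : ℂ) * I)) = I * τ j * z j := by
    simp
    ring
  rw [e] at h3
  exact h3

lemma der_s2 (z : Fin 3 → ℂ) (τ : Fin 3 → ℝ) :
    HasDerivAt (fun t : ℝ => s2 (tn z (t • τ)))
      (I * (τ 0 * z 0 * (z 1 + z 2) + τ 1 * z 1 * (z 2 + z 0) + τ 2 * z 2 * (z 0 + z 1))) 0 := by
  have h0 := der_tn z τ 0
  have h1 := der_tn z τ 1
  have h2 := der_tn z τ 2
  have h := ((h0.mul h1).add (h0.mul h2)).add (h1.mul h2)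
  have e0 : tn z ((0 : ℝ) • τ) 0 = z 0 := by rw [zero_smul, tn_zero]
  have e1 : tn z ((0 : ℝ) • τ) 1 = z 1 := by rw [zero_smul, tn_zero]
  have e2 : tn z ((0 : ℝ) • τ) 2 = z 2 := by rw [zero_smul, tn_zero]
  rw [e0, e1, e2] at h
  refine (h.congr_deriv ?_).congr_of_eventuallyEq ?_
  · ring
  · filter_upwards with t
    rfl

/-- derivative of a vertex in the plane of the pair -/
lemma der_w (q dq : ℂ) (z : Fin 3 → ℂ) (τ : Fin 3 → ℝ) (j : Fin 3) :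
    HasDerivAt (fun t : ℝ => L 1 (q + t * dq) (tn z (t • τ) j))
      (I * τ j * (z j - q * (starRingEnd ℂ) (z j)) + (starRingEnd ℂ) (z j) * dq) 0 := by
  have h0 := der_tn z τ j
  have h1 : HasDerivAt (fun t : ℝ => (starRingEnd ℂ) (tn z (t • τ) j)) ((starRingEnd ℂ) (I * τ j * z j)) 0 :=
    h0.star
  have h2 : HasDerivAt (fun t : ℝ => q + (t : ℂ) * dq) dq 0 := by
    have := ((hasDerivAt_id (0 : ℝ)).ofReal_comp.mul_const dq).const_add q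
    simpa using this
  have h := (h0.const_mul (1 : ℂ)).add (h2.mul h1)
  have e0 : tn z ((0 : ℝ) • τ) j = z j := by rw [zero_smul, tn_zero]
  rw [e0] at h
  refine (h.congr_deriv ?_).congr_of_eventuallyEq ?_
  · simp only [map_mul, Complex.conj_I, Complex.conj_ofReal, Complex.ofReal_zero, zero_mul, add_zero]
    ring
  · filter_upwards with t
    rfl

lemma der_quot (w d : Fin 3 → ℂ) (f : ℝ → Fin 3 → ℂ) (hf : ∀ j, HasDerivAt (fun t => f t j) (d j) 0)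
    (h0 : ∀ j, f 0 j = w j) (hP : Pc (w 0) (w 1) (w 2) ≠ 0) :
    HasDerivAt (fun t => Rc (f t 0) (f t 1) (f t 2) / Pc (f t 0) (f t 1) (f t 2))
      (((starRingEnd ℂ) ω - ω) / (9 * Pc (w 0) (w 1) (w 2) ^ 2) *
        ((w 1 - w 2) * d 0 + (w 2 - w 0) * d 1 + (w 0 - w 1) * d 2)) 0 := by
  have hP' : HasDerivAt (fun t => Pc (f t 0) (f t 1) (f t 2))
      ((d 0 + (starRingEnd ℂ) ω * d 1 + ω * d 2) / 3) 0 :=
    (((hf 0).add ((hf 1).const_mul _)).add ((hf 2).const_mul _)).div_const 3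
  have hR' : HasDerivAt (fun t => Rc (f t 0) (f t 1) (f t 2))
      ((d 0 + ω * d 1 + (starRingEnd ℂ) ω * d 2) / 3) 0 :=
    (((hf 0).add ((hf 1).const_mul _)).add ((hf 2).const_mul _)).div_const 3
  have hP0 : Pc (f 0 0) (f 0 1) (f 0 2) ≠ 0 := by
    rw [h0, h0, h0]
    exact hP
  have h := hR'.div hP' hP0
  rw [h0, h0, h0] at h
  refine h.congr_deriv ?_
  have w1 := ω_sq
  have w2 := cjω_sq
  rw [div_eq_iff (pow_ne_zero 2 hP)]
  have key : 9 * ((d 0 + ω * d 1 + (starRingEnd ℂ) ω * d 2) / 3 * Pc (w 0) (w 1) (w 2) -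
      Rc (w 0) (w 1) (w 2) * ((d 0 + (starRingEnd ℂ) ω * d 1 + ω * d 2) / 3)) =
      ((starRingEnd ℂ) ω - ω) * ((w 1 - w 2) * d 0 + (w 2 - w 0) * d 1 + (w 0 - w 1) * d 2) := by
    unfold Pc Rc
    linear_combination (w 1 * d 2 - w 2 * d 1) * (w2 - w1)
  have e9 : ((starRingEnd ℂ) ω - ω) / (9 * Pc (w 0) (w 1) (w 2) ^ 2) *
      ((w 1 - w 2) * d 0 + (w 2 - w 0) * d 1 + (w 0 - w 1) * d 2) * Pc (w 0) (w 1) (w 2) ^ 2 =
      ((starRingEnd ℂ) ω - ω) * ((w 1 - w 2) * d 0 + (w 2 - w 0) * d 1 + (w 0 - w 1) * d 2) / 9 := by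
    field_simp
  rw [e9]
  linear_combination key / 9

lemma der_Sh (q dq : ℂ) (z : Fin 3 → ℂ) (τ : Fin 3 → ℝ)
    (hP : Pc (L 1 q (z 0)) (L 1 q (z 1)) (L 1 q (z 2)) ≠ 0) :
    HasDerivAt (fun t : ℝ => Sh (q + t * dq) (tn z (t • τ)))
      (((starRingEnd ℂ) ω - ω) / (9 * Pc (L 1 q (z 0)) (L 1 q (z 1)) (L 1 q (z 2)) ^ 2) *
        ((L 1 q (z 1) - L 1 q (z 2)) * (I * τ 0 * (z 0 - q * (starRingEnd ℂ) (z 0)) + (starRingEnd ℂ) (z 0) * dq) +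
        (L 1 q (z 2) - L 1 q (z 0)) * (I * τ 1 * (z 1 - q * (starRingEnd ℂ) (z 1)) + (starRingEnd ℂ) (z 1) * dq) +
        (L 1 q (z 0) - L 1 q (z 1)) * (I * τ 2 * (z 2 - q * (starRingEnd ℂ) (z 2)) + (starRingEnd ℂ) (z 2) * dq)))
      0 := by
  have h := der_quot (fun j => L 1 q (z j))
    (fun j => I * τ j * (z j - q * (starRingEnd ℂ) (z j)) + (starRingEnd ℂ) (z j) * dq)
    (fun t j => L 1 (q + t * dq) (tn z (t • τ) j))
    (fun j => der_w q dq z τ j) (fun j => by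
      show L 1 (q + ((0 : ℝ) : ℂ) * dq) (tn z ((0 : ℝ) • τ) j) = L 1 q (z j)
      rw [zero_smul, tn_zero, Complex.ofReal_zero, zero_mul, add_zero]) hP
  exact h

/-! ## smoothness -/

lemma cd_tn (z : Fin 3 → ℂ) (k j : Fin 3) :
    ContDiff ℝ 1 (fun v : ℂ × (Fin 3 → Fin 3 → ℝ) => tn z (v.2 k) j) := by
  have h1 : ContDiff ℝ 1 (fun v : ℂ × (Fin 3 → Fin 3 → ℝ) => v.2 k j) := by fun_prop
  have h2 : ContDiff ℝ 1 (fun v : ℂ × (Fin 3 → Fin 3 → ℝ) => ((v.2 k j : ℝ) : ℂ)) :=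
    Complex.ofRealCLM.contDiff.comp h1
  exact contDiff_const.mul ((h2.mul contDiff_const).cexp)

lemma cd_w (z : Fin 3 → ℂ) (k j : Fin 3) :
    ContDiff ℝ 1 (fun v : ℂ × (Fin 3 → Fin 3 → ℝ) => L 1 v.1 (tn z (v.2 k) j)) := by
  have h1 := cd_tn z k j
  have h2 : ContDiff ℝ 1 (fun v : ℂ × (Fin 3 → Fin 3 → ℝ) => (starRingEnd ℂ) (tn z (v.2 k) j)) :=
    Complex.conjCLE.contDiff.comp h1
  have h3 : ContDiff ℝ 1 (fun v : ℂ × (Fin 3 → Fin 3 → ℝ) => v.1) := contDiff_fst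
  exact (contDiff_const.mul h1).add (h3.mul h2)

lemma cd_Pc (z : Fin 3 → ℂ) (k : Fin 3) :
    ContDiff ℝ 1 (fun v : ℂ × (Fin 3 → Fin 3 → ℝ) => Pc (L 1 v.1 (tn z (v.2 k) 0)) (L 1 v.1 (tn z (v.2 k) 1))
      (L 1 v.1 (tn z (v.2 k) 2))) :=
  (((cd_w z k 0).add (contDiff_const.mul (cd_w z k 1))).add (contDiff_const.mul (cd_w z k 2))).div_const 3

lemma cd_Rc (z : Fin 3 → ℂ) (k : Fin 3) :
    ContDiff ℝ 1 (fun v : ℂ × (Fin 3 → Fin 3 → ℝ) => Rc (L 1 v.1 (tn z (v.2 k) 0)) (L 1 v.1 (tn z (v.2 k) 1))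
      (L 1 v.1 (tn z (v.2 k) 2))) :=
  (((cd_w z k 0).add (contDiff_const.mul (cd_w z k 1))).add (contDiff_const.mul (cd_w z k 2))).div_const 3

lemma cd_s2 (z : Fin 3 → ℂ) (k : Fin 3) :
    ContDiff ℝ 1 (fun v : ℂ × (Fin 3 → Fin 3 → ℝ) => s2 (tn z (v.2 k))) :=
  (((cd_tn z k 0).mul (cd_tn z k 1)).add ((cd_tn z k 0).mul (cd_tn z k 2))).add
    ((cd_tn z k 1).mul (cd_tn z k 2))

lemma cd_Psi (q : ℂ) (z : Fin 3 → Fin 3 → ℂ)
    (hP : ∀ k, Pc (L 1 q (z k 0)) (L 1 q (z k 1)) (L 1 q (z k 2)) ≠ 0) :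
    ContDiffAt ℝ 1 (Psi z) (q, 0) := by
  have hS : ∀ k, ContDiffAt ℝ 1 (fun v : ℂ × (Fin 3 → Fin 3 → ℝ) => Sh v.1 (tn (z k) (v.2 k))) (q, 0) := by
    intro k
    have hne : (fun v : ℂ × (Fin 3 → Fin 3 → ℝ) => Pc (L 1 v.1 (tn (z k) (v.2 k) 0))
        (L 1 v.1 (tn (z k) (v.2 k) 1)) (L 1 v.1 (tn (z k) (v.2 k) 2))) (q, 0) ≠ 0 := by
      show Pc (L 1 q (tn (z k) 0 0)) (L 1 q (tn (z k) 0 1)) (L 1 q (tn (z k) 0 2)) ≠ 0
      rw [tn_zero]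
      exact hP k
    have h := (cd_Rc (z k) k).contDiffAt.mul ((cd_Pc (z k) k).contDiffAt.inv hne)
    refine h.congr_of_eventuallyEq ?_
    filter_upwards with v
    exact div_eq_mul_inv _ _
  exact ((cd_s2 (z 1) 1).sub (cd_s2 (z 0) 0)).contDiffAt.prodMk
    (((cd_s2 (z 2) 2).sub (cd_s2 (z 0) 0)).contDiffAt.prodMk (contDiffAt_pi.2 hS))

/-- derivative of `s2` -/
noncomputable def dS2 (z : Fin 3 → ℂ) (τ : Fin 3 → ℝ) : ℂ :=
  I * (τ 0 * z 0 * (z 1 + z 2) + τ 1 * z 1 * (z 2 + z 0) + τ 2 * z 2 * (z 0 + z 1))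

/-- derivative of the shape, without the factor -/
noncomputable def dW (q dq : ℂ) (z : Fin 3 → ℂ) (τ : Fin 3 → ℝ) : ℂ :=
  (L 1 q (z 1) - L 1 q (z 2)) * (I * τ 0 * (z 0 - q * (starRingEnd ℂ) (z 0)) + (starRingEnd ℂ) (z 0) * dq) +
  (L 1 q (z 2) - L 1 q (z 0)) * (I * τ 1 * (z 1 - q * (starRingEnd ℂ) (z 1)) + (starRingEnd ℂ) (z 1) * dq) +
  (L 1 q (z 0) - L 1 q (z 1)) * (I * τ 2 * (z 2 - q * (starRingEnd ℂ) (z 2)) + (starRingEnd ℂ) (z 2) * dq)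

lemma fder_Psi (q : ℂ) (z : Fin 3 → Fin 3 → ℂ)
    (hP : ∀ k, Pc (L 1 q (z k 0)) (L 1 q (z k 1)) (L 1 q (z k 2)) ≠ 0) (dq : ℂ) (τ : Fin 3 → Fin 3 → ℝ) :
    fderiv ℝ (Psi z) (q, 0) (dq, τ) =
      (dS2 (z 1) (τ 1) - dS2 (z 0) (τ 0), dS2 (z 2) (τ 2) - dS2 (z 0) (τ 0),
        fun k => ((starRingEnd ℂ) ω - ω) / (9 * Pc (L 1 q (z k 0)) (L 1 q (z k 1)) (L 1 q (z k 2)) ^ 2) *
          dW q dq (z k) (τ k)) := by
  have h1 : HasFDerivAt (Psi z) (fderiv ℝ (Psi z) (q, 0)) (q, 0) :=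
    ((cd_Psi q z hP).differentiableAt (by norm_num)).hasFDerivAt
  have hl : HasDerivAt (fun t : ℝ => ((q, 0) : ℂ × (Fin 3 → Fin 3 → ℝ)) + t • (dq, τ)) (dq, τ) 0 := by
    have := ((hasDerivAt_id (0 : ℝ)).smul_const ((dq, τ) : ℂ × (Fin 3 → Fin 3 → ℝ))).const_add
      ((q, 0) : ℂ × (Fin 3 → Fin 3 → ℝ))
    simpa using this
  have hA : HasDerivAt (fun t : ℝ => Psi z (((q, 0) : ℂ × (Fin 3 → Fin 3 → ℝ)) + t • (dq, τ)))
      (fderiv ℝ (Psi z) (q, 0) (dq, τ)) 0 := by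
    refine HasFDerivAt.comp_hasDerivAt_of_eq 0 h1 hl ?_
    simp
  have hB : HasDerivAt (fun t : ℝ => Psi z (((q, 0) : ℂ × (Fin 3 → Fin 3 → ℝ)) + t • (dq, τ)))
      (dS2 (z 1) (τ 1) - dS2 (z 0) (τ 0), dS2 (z 2) (τ 2) - dS2 (z 0) (τ 0),
        fun k => ((starRingEnd ℂ) ω - ω) / (9 * Pc (L 1 q (z k 0)) (L 1 q (z k 1)) (L 1 q (z k 2)) ^ 2) *
          dW q dq (z k) (τ k)) 0 := by
    have e : (fun t : ℝ => Psi z (((q, 0) : ℂ × (Fin 3 → Fin 3 → ℝ)) + t • (dq, τ))) =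
        fun t : ℝ => (s2 (tn (z 1) (t • τ 1)) - s2 (tn (z 0) (t • τ 0)),
          s2 (tn (z 2) (t • τ 2)) - s2 (tn (z 0) (t • τ 0)),
          fun k => Sh (q + t * dq) (tn (z k) (t • τ k))) := by
      funext t
      have e1 : ∀ k, (((q, 0) : ℂ × (Fin 3 → Fin 3 → ℝ)) + t • (dq, τ)).2 k = t • τ k := by
        intro k
        simp
      have e2 : (((q, 0) : ℂ × (Fin 3 → Fin 3 → ℝ)) + t • (dq, τ)).1 = q + t * dq := by
        simp
      unfold Psi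
      simp only [e1, e2]
    rw [e]
    refine HasDerivAt.prodMk ((der_s2 (z 1) (τ 1)).sub (der_s2 (z 0) (τ 0))) (HasDerivAt.prodMk
      ((der_s2 (z 2) (τ 2)).sub (der_s2 (z 0) (τ 0))) (hasDerivAt_pi.2 fun k => ?_))
    exact der_Sh q dq (z k) (τ k) (hP k)
  exact hA.unique hB

lemma lin_re (g : ℂ →ₗ[ℝ] ℝ) : ∃ c : ℂ, ∀ u, g u = (c * u).re := by
  refine ⟨⟨g 1, - g I⟩, fun u => ?_⟩
  have e : u = u.re • (1 : ℂ) + u.im • I := by
    apply Complex.ext <;> simp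
  conv_lhs => rw [e]
  rw [map_add, map_smul, map_smul, Complex.mul_re, smul_eq_mul, smul_eq_mul]
  ring

lemma fun_rep (f : (ℂ × ℂ × (Fin 3 → ℂ)) →ₗ[ℝ] ℝ) : ∃ (a b : ℂ) (c : Fin 3 → ℂ), ∀ u v t,
    f (u, v, t) = (a * u).re + (b * v).re + ((c 0 * t 0).re + (c 1 * t 1).re + (c 2 * t 2).re) := by
  obtain ⟨a, ha⟩ := lin_re (f.comp (LinearMap.inl ℝ ℂ (ℂ × (Fin 3 → ℂ))))
  obtain ⟨b, hb⟩ := lin_re (f.comp ((LinearMap.inr ℝ ℂ (ℂ × (Fin 3 → ℂ))).comp (LinearMap.inl ℝ ℂ (Fin 3 → ℂ))))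
  have hc : ∀ k : Fin 3, ∃ c : ℂ, ∀ u, (f.comp ((LinearMap.inr ℝ ℂ (ℂ × (Fin 3 → ℂ))).comp
      ((LinearMap.inr ℝ ℂ (Fin 3 → ℂ)).comp (LinearMap.single ℝ (fun _ : Fin 3 => ℂ) k)))) u = (c * u).re :=
    fun k => lin_re _
  choose c hc using hc
  refine ⟨a, b, c, fun u v t => ?_⟩
  have e : ((u, v, t) : ℂ × ℂ × (Fin 3 → ℂ)) = (u, 0) + ((0, (v, 0)) +
      ((0, (0, Pi.single 0 (t 0))) + (0, (0, Pi.single 1 (t 1))) + (0, (0, Pi.single 2 (t 2))))) := by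
    refine Prod.ext ?_ (Prod.ext ?_ ?_)
    · simp
    · simp
    · funext k
      fin_cases k <;> simp
  rw [e, map_add, map_add, map_add, map_add]
  rw [show f (u, 0) = (a * u).re from ha u, show f (0, (v, 0)) = (b * v).re from hb v,
    show f (0, (0, Pi.single 0 (t 0))) = (c 0 * t 0).re from hc 0 (t 0),
    show f (0, (0, Pi.single 1 (t 1))) = (c 1 * t 1).re from hc 1 (t 1),
    show f (0, (0, Pi.single 2 (t 2))) = (c 2 * t 2).re from hc 2 (t 2)]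
  ring

lemma cjω_ne : (starRingEnd ℂ) ω - ω ≠ 0 := by
  intro h
  have h1 := congrArg Complex.im h
  rw [Complex.sub_im, Complex.conj_im, ω_im, Complex.zero_im] at h1
  have h2 : (0 : ℝ) < √3 := Real.sqrt_pos.2 (by norm_num)
  linarith

/-- the total derivative in closed form -/
lemma total_eq (q dq : ℂ) (z : Fin 3 → Fin 3 → ℂ) (τ : Fin 3 → Fin 3 → ℝ) (a b : ℂ) (nu : Fin 3 → ℂ) :
    a * (dS2 (z 1) (τ 1) - dS2 (z 0) (τ 0)) + b * (dS2 (z 2) (τ 2) - dS2 (z 0) (τ 0)) +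
      (nu 0 * dW q dq (z 0) (τ 0) + nu 1 * dW q dq (z 1) (τ 1) + nu 2 * dW q dq (z 2) (τ 2)) =
    I * ((τ 0 0 : ℂ) * (nu 0 * (L 1 q (z 0 1) - L 1 q (z 0 2)) * (z 0 0 - q * (starRingEnd ℂ) (z 0 0)) -
          (a + b) * z 0 0 * (z 0 1 + z 0 2)) +
      (τ 0 1 : ℂ) * (nu 0 * (L 1 q (z 0 2) - L 1 q (z 0 0)) * (z 0 1 - q * (starRingEnd ℂ) (z 0 1)) -
          (a + b) * z 0 1 * (z 0 2 + z 0 0)) +
      (τ 0 2 : ℂ) * (nu 0 * (L 1 q (z 0 0) - L 1 q (z 0 1)) * (z 0 2 - q * (starRingEnd ℂ) (z 0 2)) -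
          (a + b) * z 0 2 * (z 0 0 + z 0 1)) +
      (τ 1 0 : ℂ) * (nu 1 * (L 1 q (z 1 1) - L 1 q (z 1 2)) * (z 1 0 - q * (starRingEnd ℂ) (z 1 0)) -
          (-a) * z 1 0 * (z 1 1 + z 1 2)) +
      (τ 1 1 : ℂ) * (nu 1 * (L 1 q (z 1 2) - L 1 q (z 1 0)) * (z 1 1 - q * (starRingEnd ℂ) (z 1 1)) -
          (-a) * z 1 1 * (z 1 2 + z 1 0)) +
      (τ 1 2 : ℂ) * (nu 1 * (L 1 q (z 1 0) - L 1 q (z 1 1)) * (z 1 2 - q * (starRingEnd ℂ) (z 1 2)) -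
          (-a) * z 1 2 * (z 1 0 + z 1 1)) +
      (τ 2 0 : ℂ) * (nu 2 * (L 1 q (z 2 1) - L 1 q (z 2 2)) * (z 2 0 - q * (starRingEnd ℂ) (z 2 0)) -
          (-b) * z 2 0 * (z 2 1 + z 2 2)) +
      (τ 2 1 : ℂ) * (nu 2 * (L 1 q (z 2 2) - L 1 q (z 2 0)) * (z 2 1 - q * (starRingEnd ℂ) (z 2 1)) -
          (-b) * z 2 1 * (z 2 2 + z 2 0)) +
      (τ 2 2 : ℂ) * (nu 2 * (L 1 q (z 2 0) - L 1 q (z 2 1)) * (z 2 2 - q * (starRingEnd ℂ) (z 2 2)) -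
          (-b) * z 2 2 * (z 2 0 + z 2 1))) +
      dq * (nu 0 * ((starRingEnd ℂ) (z 0 0) * (z 0 1 - z 0 2) + (starRingEnd ℂ) (z 0 1) * (z 0 2 - z 0 0) +
          (starRingEnd ℂ) (z 0 2) * (z 0 0 - z 0 1)) +
        nu 1 * ((starRingEnd ℂ) (z 1 0) * (z 1 1 - z 1 2) + (starRingEnd ℂ) (z 1 1) * (z 1 2 - z 1 0) +
          (starRingEnd ℂ) (z 1 2) * (z 1 0 - z 1 1)) +
        nu 2 * ((starRingEnd ℂ) (z 2 0) * (z 2 1 - z 2 2) + (starRingEnd ℂ) (z 2 1) * (z 2 2 - z 2 0) +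
          (starRingEnd ℂ) (z 2 2) * (z 2 0 - z 2 1))) := by
  have e : ∀ k, nu k * dW q dq (z k) (τ k) =
      I * ((τ k 0 : ℂ) * (nu k * (L 1 q (z k 1) - L 1 q (z k 2)) * (z k 0 - q * (starRingEnd ℂ) (z k 0))) +
        (τ k 1 : ℂ) * (nu k * (L 1 q (z k 2) - L 1 q (z k 0)) * (z k 1 - q * (starRingEnd ℂ) (z k 1))) +
        (τ k 2 : ℂ) * (nu k * (L 1 q (z k 0) - L 1 q (z k 1)) * (z k 2 - q * (starRingEnd ℂ) (z k 2)))) +
      dq * (nu k * ((starRingEnd ℂ) (z k 0) * (z k 1 - z k 2) + (starRingEnd ℂ) (z k 1) * (z k 2 - z k 0) +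
          (starRingEnd ℂ) (z k 2) * (z k 0 - z k 1))) := by
    intro k
    unfold dW L
    ring
  rw [e 0, e 1, e 2]
  unfold dS2
  ring

lemma range_Psi (q : ℂ) (z : Fin 3 → Fin 3 → ℂ)
    (hP : ∀ k, Pc (L 1 q (z k 0)) (L 1 q (z k 1)) (L 1 q (z k 2)) ≠ 0) (hd : Dual92 q z) :
    (fderiv ℝ (Psi z) (q, 0)).range = ⊤ := by
  by_contra hne
  obtain ⟨f, hf0, hf⟩ := Submodule.exists_le_ker_of_lt_top _ (lt_top_iff_ne_top.2 hne)
  obtain ⟨a, b, c, hrep⟩ := fun_rep f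
  set W : Fin 3 → ℂ := fun k =>
    ((starRingEnd ℂ) ω - ω) / (9 * Pc (L 1 q (z k 0)) (L 1 q (z k 1)) (L 1 q (z k 2)) ^ 2) with hW
  have hW0 : ∀ k, W k ≠ 0 := fun k =>
    div_ne_zero cjω_ne (mul_ne_zero (by norm_num) (pow_ne_zero 2 (hP k)))
  set nu : Fin 3 → ℂ := fun k => c k * W k with hnu
  have hmain : ∀ (dq : ℂ) (τ : Fin 3 → Fin 3 → ℝ),
      (a * (dS2 (z 1) (τ 1) - dS2 (z 0) (τ 0)) + b * (dS2 (z 2) (τ 2) - dS2 (z 0) (τ 0)) +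
      (nu 0 * dW q dq (z 0) (τ 0) + nu 1 * dW q dq (z 1) (τ 1) + nu 2 * dW q dq (z 2) (τ 2))).re = 0 := by
    intro dq τ
    have h1 : f (fderiv ℝ (Psi z) (q, 0) (dq, τ)) = 0 := hf ⟨(dq, τ), rfl⟩
    rw [fder_Psi q z hP, hrep] at h1
    simp only [Complex.add_re]
    rw [← h1, hnu, hW]
    simp only [mul_assoc]
  -- the nine coefficients
  set E : Fin 3 → Fin 3 → ℂ := fun k => ![
      nu k * (L 1 q (z k 1) - L 1 q (z k 2)) * (z k 0 - q * (starRingEnd ℂ) (z k 0)) -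
        (![a + b, -a, -b] k) * z k 0 * (z k 1 + z k 2),
      nu k * (L 1 q (z k 2) - L 1 q (z k 0)) * (z k 1 - q * (starRingEnd ℂ) (z k 1)) -
        (![a + b, -a, -b] k) * z k 1 * (z k 2 + z k 0),
      nu k * (L 1 q (z k 0) - L 1 q (z k 1)) * (z k 2 - q * (starRingEnd ℂ) (z k 2)) -
        (![a + b, -a, -b] k) * z k 2 * (z k 0 + z k 1)] with hE
  set S : ℂ := nu 0 * ((starRingEnd ℂ) (z 0 0) * (z 0 1 - z 0 2) + (starRingEnd ℂ) (z 0 1) * (z 0 2 - z 0 0) +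
          (starRingEnd ℂ) (z 0 2) * (z 0 0 - z 0 1)) +
        nu 1 * ((starRingEnd ℂ) (z 1 0) * (z 1 1 - z 1 2) + (starRingEnd ℂ) (z 1 1) * (z 1 2 - z 1 0) +
          (starRingEnd ℂ) (z 1 2) * (z 1 0 - z 1 1)) +
        nu 2 * ((starRingEnd ℂ) (z 2 0) * (z 2 1 - z 2 2) + (starRingEnd ℂ) (z 2 1) * (z 2 2 - z 2 0) +
          (starRingEnd ℂ) (z 2 2) * (z 2 0 - z 2 1)) with hS
  have hsum : ∀ (dq : ℂ) (τ : Fin 3 → Fin 3 → ℝ),
      (I * ((τ 0 0 : ℂ) * E 0 0 + (τ 0 1 : ℂ) * E 0 1 + (τ 0 2 : ℂ) * E 0 2 + (τ 1 0 : ℂ) * E 1 0 +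
        (τ 1 1 : ℂ) * E 1 1 + (τ 1 2 : ℂ) * E 1 2 + (τ 2 0 : ℂ) * E 2 0 + (τ 2 1 : ℂ) * E 2 1 +
        (τ 2 2 : ℂ) * E 2 2) + dq * S).re = 0 := by
    intro dq τ
    have h1 := hmain dq τ
    rw [total_eq] at h1
    exact h1
  have hEi : ∀ k j, (E k j).im = 0 := by
    have h1 := hsum 0 (fun k j => (E k j).im)
    simp only [zero_mul, add_zero, Complex.I_mul_re, Complex.add_im, Complex.im_ofReal_mul] at h1
    have n : ∀ k j, 0 ≤ (E k j).im * (E k j).im := fun k j => mul_self_nonneg _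
    have z0 : ∀ k j, (E k j).im * (E k j).im = 0 := by
      intro k j
      have a1 := n 0 0
      have a2 := n 0 1
      have a3 := n 0 2
      have a4 := n 1 0
      have a5 := n 1 1
      have a6 := n 1 2
      have a7 := n 2 0
      have a8 := n 2 1
      have a9 := n 2 2
      fin_cases k <;> fin_cases j <;> simp only [Fin.mk_zero, Fin.mk_one, Fin.isValue, Fin.reduceFinMk] <;> linarith
    intro k j
    exact mul_self_eq_zero.1 (z0 k j)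
  have hS0 : S = 0 := by
    have h1 := hsum ((starRingEnd ℂ) S) 0
    simp only [Pi.zero_apply, Complex.ofReal_zero, zero_mul, add_zero, mul_zero, zero_add] at h1
    rw [mul_comm, ← nsq, Complex.ofReal_re] at h1
    exact norm_eq_zero.1 (pow_eq_zero_iff (two_ne_zero) |>.1 h1)
  have hfin := hd nu ![a + b, -a, -b] (fun k => by
      have := hEi k 0
      rw [hE] at this
      simp only [Matrix.cons_val_zero, Complex.sub_im] at this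
      linarith) (fun k => by
      have := hEi k 1
      rw [hE] at this
      simp only [Matrix.cons_val_one, Matrix.cons_val_zero, Complex.sub_im] at this
      linarith) (fun k => by
      have := hEi k 2
      rw [hE] at this
      simp only [Matrix.cons_val_two, Matrix.tail_cons, Matrix.head_cons, Complex.sub_im] at this
      linarith) (by
      rw [Fin.sum_univ_three]
      exact hS0) (by
      rw [Fin.sum_univ_three]
      simp)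
  have ha : a = 0 := by
    have := (hfin 1).2
    simpa using this
  have hb : b = 0 := by
    have := (hfin 2).2
    simpa using this
  have hc : ∀ k, c k = 0 := by
    intro k
    have := (hfin k).1
    rw [hnu] at this
    exact (mul_eq_zero.1 this).resolve_right (hW0 k)
  apply hf0
  refine LinearMap.ext fun x => ?_
  obtain ⟨u, v, t⟩ := x
  rw [hrep, ha, hb, hc 0, hc 1, hc 2]
  simp

lemma continuous_tn (z : Fin 3 → ℂ) : Continuous (tn z) := by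
  refine continuous_pi fun j => ?_
  have h1 : Continuous fun τ : Fin 3 → ℝ => ((τ j : ℝ) : ℂ) := Complex.continuous_ofReal.comp (continuous_apply j)
  exact continuous_const.mul ((h1.mul continuous_const).cexp)

lemma continuous_s2 : Continuous s2 := by
  unfold s2
  fun_prop

lemma continuous_orient : Continuous fun z : Fin 3 → ℂ => ‖Pc (z 0) (z 1) (z 2)‖ - ‖Rc (z 0) (z 1) (z 2)‖ := by
  unfold Pc Rc
  fun_prop

/-- **Three members determine a nearby pair.** If the only functional of the pair `1`, `q`, `F` that kills the motions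
of the three members `z k` is zero, then for all shapes `t k` near the shapes of the members there is a pair near the
given one with members near the given ones that have the shapes `t k`. -/
theorem three92 (q F : ℂ) (hq : ‖q‖ < 1) (hF : ‖F‖ < 1) (z : Fin 3 → Fin 3 → ℂ)
    (hz : ∀ k, Tz F (z k 0) (z k 1) (z k 2)) (hd : Dual92 q z)
    (U : Set (ℂ × ℂ × (Fin 3 → Fin 3 → ℂ))) (hU : U ∈ 𝓝 (q, F, z)) :
    ∀ᶠ t : Fin 3 → ℂ in 𝓝 (fun k => Sh q (z k)), ∃ q' F' z', (q', F', z') ∈ U ∧ ‖q'‖ < 1 ∧ ‖F'‖ < 1 ∧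
      (∀ k, Tz F' (z' k 0) (z' k 1) (z' k 2)) ∧ ∀ k, Sh q' (z' k) = t k := by
  have hP : ∀ k, Pc (L 1 q (z k 0)) (L 1 q (z k 1)) (L 1 q (z k 2)) ≠ 0 := by
    intro k h
    have h1 := or_L (p := 1) (q := q) (by simpa using hq) (hz k).or
    rw [h, norm_zero] at h1
    exact absurd h1 (not_lt.2 (norm_nonneg _))
  have hst : HasStrictFDerivAt (Psi z) (fderiv ℝ (Psi z) (q, 0)) (q, 0) :=
    (cd_Psi q z hP).hasStrictFDerivAt (by norm_num)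
  have hmap := hst.map_nhds_eq_of_surj (range_Psi q z hP hd)
  -- the neighbourhood
  have hs2 : ∀ k, s2 (z k) = - F := fun k => (hz k).s2
  have hx0 : (q, - s2 (tn (z 0) ((0 : Fin 3 → Fin 3 → ℝ) 0)), fun k => tn (z k) ((0 : Fin 3 → Fin 3 → ℝ) k)) =
      (q, F, z) := by
    refine Prod.ext rfl (Prod.ext ?_ ?_)
    · show - s2 (tn (z 0) 0) = F
      rw [tn_zero, hs2, neg_neg]
    · funext k
      show tn (z k) 0 = z k
      exact tn_zero _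
  have hcont : Continuous fun v : ℂ × (Fin 3 → Fin 3 → ℝ) =>
      (v.1, - s2 (tn (z 0) (v.2 0)), fun k => tn (z k) (v.2 k)) := by
    have c1 : ∀ k, Continuous fun v : ℂ × (Fin 3 → Fin 3 → ℝ) => tn (z k) (v.2 k) := fun k =>
      (continuous_tn (z k)).comp ((continuous_apply k).comp continuous_snd)
    exact continuous_fst.prodMk ((continuous_s2.comp (c1 0)).neg.prodMk (continuous_pi c1))
  set O : Set (ℂ × ℂ × (Fin 3 → Fin 3 → ℂ)) := {x | ‖x.1‖ < 1 ∧ ‖x.2.1‖ < 1 ∧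
    ∀ k, 0 < ‖Pc (x.2.2 k 0) (x.2.2 k 1) (x.2.2 k 2)‖ - ‖Rc (x.2.2 k 0) (x.2.2 k 1) (x.2.2 k 2)‖} with hO
  have hOo : IsOpen O := by
    have a1 : IsOpen {x : ℂ × ℂ × (Fin 3 → Fin 3 → ℂ) | ‖x.1‖ < 1} :=
      isOpen_lt (continuous_norm.comp continuous_fst) continuous_const
    have a2 : IsOpen {x : ℂ × ℂ × (Fin 3 → Fin 3 → ℂ) | ‖x.2.1‖ < 1} :=
      isOpen_lt (continuous_norm.comp (continuous_fst.comp continuous_snd)) continuous_const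
    have a3 : ∀ k : Fin 3, IsOpen {x : ℂ × ℂ × (Fin 3 → Fin 3 → ℂ) |
        0 < ‖Pc (x.2.2 k 0) (x.2.2 k 1) (x.2.2 k 2)‖ - ‖Rc (x.2.2 k 0) (x.2.2 k 1) (x.2.2 k 2)‖} := fun k =>
      isOpen_lt continuous_const (continuous_orient.comp ((continuous_apply k).comp
        (continuous_snd.comp continuous_snd)))
    have e : O = {x | ‖x.1‖ < 1} ∩ ({x | ‖x.2.1‖ < 1} ∩ ⋂ k, {x |
        0 < ‖Pc (x.2.2 k 0) (x.2.2 k 1) (x.2.2 k 2)‖ - ‖Rc (x.2.2 k 0) (x.2.2 k 1) (x.2.2 k 2)‖}) := by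
      ext x
      simp [hO]
    rw [e]
    exact a1.inter (a2.inter (isOpen_iInter_of_finite a3))
  have hUO : U ∩ O ∈ 𝓝 (q, F, z) := by
    refine inter_mem hU (hOo.mem_nhds ⟨hq, hF, fun k => ?_⟩)
    have := (hz k).or
    show 0 < ‖Pc (z k 0) (z k 1) (z k 2)‖ - ‖Rc (z k 0) (z k 1) (z k 2)‖
    linarith
  have hpre : (fun v : ℂ × (Fin 3 → Fin 3 → ℝ) =>
      (v.1, - s2 (tn (z 0) (v.2 0)), fun k => tn (z k) (v.2 k))) ⁻¹' (U ∩ O) ∈
      𝓝 ((q, 0) : ℂ × (Fin 3 → Fin 3 → ℝ)) := by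
    apply hcont.continuousAt.preimage_mem_nhds
    show U ∩ O ∈ 𝓝 (q, - s2 (tn (z 0) ((0 : Fin 3 → Fin 3 → ℝ) 0)), fun k => tn (z k) ((0 : Fin 3 → Fin 3 → ℝ) k))
    rw [hx0]
    exact hUO
  have himg := Filter.image_mem_map (m := Psi z) hpre
  rw [hmap] at himg
  have hP0 : Psi z (q, 0) = (0, 0, fun k => Sh q (z k)) := by
    unfold Psi
    refine Prod.ext ?_ (Prod.ext ?_ ?_)
    · show s2 (tn (z 1) 0) - s2 (tn (z 0) 0) = 0
      rw [tn_zero, tn_zero, hs2, hs2, sub_self]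
    · show s2 (tn (z 2) 0) - s2 (tn (z 0) 0) = 0
      rw [tn_zero, tn_zero, hs2, hs2, sub_self]
    · funext k
      show Sh q (tn (z k) 0) = Sh q (z k)
      rw [tn_zero]
  rw [hP0] at himg
  have hct : Continuous fun t : Fin 3 → ℂ => ((0, 0, t) : ℂ × ℂ × (Fin 3 → ℂ)) := by fun_prop
  have hev := hct.continuousAt.preimage_mem_nhds (x := fun k => Sh q (z k)) himg
  filter_upwards [hev] with t ht
  obtain ⟨⟨q', τ⟩, ⟨hvU, hvO⟩, hv⟩ := ht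
  have e1 : s2 (tn (z 1) (τ 1)) - s2 (tn (z 0) (τ 0)) = 0 := congrArg Prod.fst hv
  have e2 : s2 (tn (z 2) (τ 2)) - s2 (tn (z 0) (τ 0)) = 0 := congrArg (fun x => x.2.1) hv
  have e3 : (fun k => Sh q' (tn (z k) (τ k))) = t := congrArg (fun x => x.2.2) hv
  refine ⟨q', - s2 (tn (z 0) (τ 0)), fun k => tn (z k) (τ k), hvU, hvO.1, hvO.2.1, fun k => ?_,
    fun k => congrFun e3 k⟩
  have hk : s2 (tn (z k) (τ k)) = s2 (tn (z 0) (τ 0)) := by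
    fin_cases k
    · rfl
    · exact sub_eq_zero.1 e1
    · exact sub_eq_zero.1 e2
  have ho := hvO.2.2 k
  refine ⟨by rw [norm_tn, (hz k).n₀], by rw [norm_tn, (hz k).n₁], by rw [norm_tn, (hz k).n₂], ?_, ?_⟩
  · exact sub_pos.1 ho
  · rw [neg_neg]
    exact hk

end Pool.Agent.Pon30
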