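import Pool.Agent.Pon30.Basic
import Pool.Agent.Pon30.StmtsP34

/-!
# Row TABS: abstract transversality
-/

set_option autoImplicit false

namespace Pool.Agent.Pon30

open Complex

lemma aux34 (X : ℂ) (c : ℝ) (h : X.re = -c) : X = I * (X.im : ℝ) - (c : ℝ) := by
  apply Complex.ext <;> simp [h]

lemma unit_diff34 {ν ν' : ℂ} (h : ‖ν‖ = 1) (h' : ‖ν'‖ = 1) :
    ∃ τ : ℝ, ν' - ν = ν * (I * τ - (‖ν' - ν‖ ^ 2 / 2 : ℝ)) := by
  refine ⟨((starRingEnd ℂ) ν * (ν' - ν)).im, ?_⟩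
  have e1 : ν * (starRingEnd ℂ) ν = 1 := by rw [← nsq, h]; norm_num
  have e2 : ν' * (starRingEnd ℂ) ν' = 1 := by rw [← nsq, h']; norm_num
  have hre : ((starRingEnd ℂ) ν * (ν' - ν)).re = -(‖ν' - ν‖ ^ 2 / 2) := by
    have h3 : ((‖ν' - ν‖ ^ 2 : ℝ) : ℂ) = 2 - ((starRingEnd ℂ) ν * ν' + ν * (starRingEnd ℂ) ν') := by
      rw [nsq, map_sub]; linear_combination e1 + e2
    have h4 := congrArg Complex.re h3
    rw [ofReal_re] at h4
    rw [h4]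
    have h5 : ((starRingEnd ℂ) ν * ν' + ν * (starRingEnd ℂ) ν').re = 2 * ((starRingEnd ℂ) ν * ν').re := by
      simp only [add_re, mul_re, conj_re, conj_im]; ring
    have h6 : ((starRingEnd ℂ) ν * (ν' - ν)).re = ((starRingEnd ℂ) ν * ν').re - 1 := by
      rw [mul_sub, sub_re]
      have : ((starRingEnd ℂ) ν * ν).re = 1 := by rw [mul_comm, e1]; simp
      rw [this]
    rw [h6, sub_re, h5]
    norm_num
    ring
  have h7 : (starRingEnd ℂ) ν * (ν' - ν) = I * (((starRingEnd ℂ) ν * (ν' - ν)).im : ℝ) -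
      (‖ν' - ν‖ ^ 2 / 2 : ℝ) := aux34 _ _ hre
  calc ν' - ν = ν * ((starRingEnd ℂ) ν * (ν' - ν)) := by rw [← mul_assoc, e1, one_mul]
    _ = _ := by rw [← h7]

theorem trans34 : TransP := by
  intro s η hs hη h20 A B ζ₀ r hr hBA hLip D hD
  by_contra hD0
  obtain ⟨ν, hν, hDν⟩ := hD ζ₀ (by simpa using hr)
  set g : ℂ := ν - 1 with hg
  have hgc : (starRingEnd ℂ) ν - 1 = (starRingEnd ℂ) g := by rw [hg]; simp
  rw [hgc] at hDν
  have hg0 : g ≠ 0 := by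
    intro h0
    apply hD0
    rw [hDν, h0]; simp
  set m : ℝ := ‖g‖ with hm
  have hm0 : 0 < m := norm_pos_iff.2 hg0
  have hm2 : m ≤ 2 := by
    calc m ≤ ‖ν‖ + ‖(1 : ℂ)‖ := norm_sub_le _ _
      _ = 2 := by rw [hν, norm_one]; norm_num
  have hgcn : ‖(starRingEnd ℂ) g‖ = m := Complex.norm_conj g
  set a : ℝ := ‖A ζ₀‖ with ha
  set b : ℝ := ‖B ζ₀‖ with hb
  have ha0 : 0 ≤ a := norm_nonneg _
  have hb0 : 0 ≤ b := norm_nonneg _
  set k : ℝ := a - b with hk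
  have hk0 : 0 < k := by rw [hk]; linarith
  have hη20 : η < 1 / 20 := by nlinarith [norm_nonneg s]
  set M : ℝ := 36 * (a + b) / k ^ 2 + 18 / k with hM
  have hM0 : 0 < M := by positivity
  obtain ⟨d₀, hd0, hdr, hdk, hdM⟩ : ∃ d₀ : ℝ, 0 < d₀ ∧ d₀ < r ∧ d₀ ≤ k / 6 ∧ M * d₀ ≤ η := by
    refine ⟨min (r / 2) (min (k / 6) (η / M)), lt_min (by positivity) (lt_min (by positivity) (by positivity)),
      lt_of_le_of_lt (min_le_left _ _) (by linarith), (min_le_right _ _).trans (min_le_left _ _), ?_⟩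
    calc M * min (r / 2) (min (k / 6) (η / M)) ≤ M * (η / M) :=
          mul_le_mul_of_nonneg_left ((min_le_right _ _).trans (min_le_right _ _)) hM0.le
      _ = η := by field_simp
  set U : ℂ := A ζ₀ * ν - B ζ₀ * (starRingEnd ℂ) ν with hU
  have key : ∀ d : ℂ, ‖d‖ = d₀ → ∃ τ : ℝ,
      ‖((starRingEnd ℂ) d * g + s * d * (starRingEnd ℂ) g) - I * τ * U‖ ≤ 3 * η * d₀ * m := by
    intro d hd
    have hin : ‖(ζ₀ + d) - ζ₀‖ < r := by rw [add_sub_cancel_left, hd]; exact hdr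
    obtain ⟨ν', hν', hDν'⟩ := hD (ζ₀ + d) hin
    obtain ⟨hA, hB⟩ := hLip (ζ₀ + d) ζ₀ hin (by simpa using hr)
    rw [add_sub_cancel_left, hd] at hA hB
    set EA : ℂ := A (ζ₀ + d) - A ζ₀ + (starRingEnd ℂ) d with hEA
    set EB : ℂ := B (ζ₀ + d) - B ζ₀ + s * d with hEB
    set Δ : ℂ := ν' - ν with hΔ
    have eA : A (ζ₀ + d) = A ζ₀ + EA - (starRingEnd ℂ) d := by rw [hEA]; ring
    have eB : B (ζ₀ + d) = B ζ₀ + EB - s * d := by rw [hEB]; ring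
    have eν : ν' - 1 = g + Δ := by rw [hg, hΔ]; ring
    have eνc : (starRingEnd ℂ) ν' - 1 = (starRingEnd ℂ) g + (starRingEnd ℂ) Δ := by
      rw [hg, hΔ]; simp
    have hΔc : ‖(starRingEnd ℂ) Δ‖ = ‖Δ‖ := Complex.norm_conj Δ
    have heq : A ζ₀ * g + B ζ₀ * (starRingEnd ℂ) g =
        (A ζ₀ + EA - (starRingEnd ℂ) d) * (g + Δ) +
          (B ζ₀ + EB - s * d) * ((starRingEnd ℂ) g + (starRingEnd ℂ) Δ) := by
      rw [← hDν, hDν', eν, eνc, eA, eB]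
    have hdc : ‖(starRingEnd ℂ) d‖ = d₀ := by rw [Complex.norm_conj, hd]
    have hsd : ‖s * d‖ ≤ d₀ := by
      rw [norm_mul, hd]
      nlinarith
    -- bound for `Δ`
    have n1 : ‖EA - (starRingEnd ℂ) d‖ ≤ (1 + η) * d₀ := by
      calc ‖EA - (starRingEnd ℂ) d‖ ≤ ‖EA‖ + ‖(starRingEnd ℂ) d‖ := norm_sub_le _ _
        _ ≤ (1 + η) * d₀ := by rw [hdc]; linarith
    have n2 : ‖EB - s * d‖ ≤ (1 + η) * d₀ := by
      calc ‖EB - s * d‖ ≤ ‖EB‖ + ‖s * d‖ := norm_sub_le _ _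
        _ ≤ (1 + η) * d₀ := by linarith
    have hbound : (k / 2) * ‖Δ‖ ≤ 3 * d₀ * m := by
      have h1 : (A ζ₀ + (EA - (starRingEnd ℂ) d)) * Δ + (B ζ₀ + (EB - s * d)) * (starRingEnd ℂ) Δ =
          -((EA - (starRingEnd ℂ) d) * g + (EB - s * d) * (starRingEnd ℂ) g) := by
        linear_combination -heq
      have h2 : ‖(A ζ₀ + (EA - (starRingEnd ℂ) d)) * Δ + (B ζ₀ + (EB - s * d)) * (starRingEnd ℂ) Δ‖ ≤
          3 * d₀ * m := by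
        rw [h1, norm_neg]
        calc ‖(EA - (starRingEnd ℂ) d) * g + (EB - s * d) * (starRingEnd ℂ) g‖
            ≤ ‖(EA - (starRingEnd ℂ) d) * g‖ + ‖(EB - s * d) * (starRingEnd ℂ) g‖ := norm_add_le _ _
          _ = ‖EA - (starRingEnd ℂ) d‖ * m + ‖EB - s * d‖ * m := by rw [norm_mul, norm_mul, hgcn]
          _ ≤ (1 + η) * d₀ * m + (1 + η) * d₀ * m := by
              gcongr
          _ ≤ 3 * d₀ * m := by nlinarith [mul_pos hd0 hm0]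
      have h3 : (k - 2 * (1 + η) * d₀) * ‖Δ‖ ≤
          ‖(A ζ₀ + (EA - (starRingEnd ℂ) d)) * Δ + (B ζ₀ + (EB - s * d)) * (starRingEnd ℂ) Δ‖ := by
        have h4 : ‖A ζ₀ + (EA - (starRingEnd ℂ) d)‖ ≥ a - (1 + η) * d₀ := by
          have := norm_sub_le (A ζ₀ + (EA - (starRingEnd ℂ) d)) (EA - (starRingEnd ℂ) d)
          rw [add_sub_cancel_right] at this
          linarith
        have h5 : ‖B ζ₀ + (EB - s * d)‖ ≤ b + (1 + η) * d₀ := by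
          have := norm_add_le (B ζ₀) (EB - s * d)
          linarith
        have h6 := norm_sub_le ((A ζ₀ + (EA - (starRingEnd ℂ) d)) * Δ +
          (B ζ₀ + (EB - s * d)) * (starRingEnd ℂ) Δ) ((B ζ₀ + (EB - s * d)) * (starRingEnd ℂ) Δ)
        rw [add_sub_cancel_right, norm_mul, norm_mul, hΔc] at h6
        have h7 := norm_nonneg Δ
        have h8 := mul_le_mul_of_nonneg_right h4.le h7
        have h9 := mul_le_mul_of_nonneg_right h5 h7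
        rw [hk]
        nlinarith
      have h10 : k / 2 ≤ k - 2 * (1 + η) * d₀ := by nlinarith
      have h11 := mul_le_mul_of_nonneg_right h10 (norm_nonneg Δ)
      linarith
    have hΔb : ‖Δ‖ ≤ 6 * d₀ * m / k := by
      rw [le_div_iff₀ hk0]; linarith
    obtain ⟨τ, hτ⟩ := unit_diff34 hν hν'
    rw [← hΔ] at hτ
    refine ⟨τ, ?_⟩
    have hτc : (starRingEnd ℂ) Δ = (starRingEnd ℂ) ν * (-(I * τ) - (‖Δ‖ ^ 2 / 2 : ℝ)) := by
      have := congrArg (starRingEnd ℂ) hτ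
      rw [this]
      simp only [map_mul, map_sub, conj_I, conj_ofReal]
      ring
    have hAB : A ζ₀ * Δ + B ζ₀ * (starRingEnd ℂ) Δ = I * τ * U -
        (‖Δ‖ ^ 2 / 2 : ℝ) * (A ζ₀ * ν + B ζ₀ * (starRingEnd ℂ) ν) := by
      have e1 : A ζ₀ * Δ = A ζ₀ * (ν * (I * τ - (‖Δ‖ ^ 2 / 2 : ℝ))) := by rw [← hτ]
      have e2 : B ζ₀ * (starRingEnd ℂ) Δ =
          B ζ₀ * ((starRingEnd ℂ) ν * (-(I * τ) - (‖Δ‖ ^ 2 / 2 : ℝ))) := by rw [← hτc]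
      rw [e1, e2, hU]; ring
    have hE : ((starRingEnd ℂ) d * g + s * d * (starRingEnd ℂ) g) - I * τ * U =
        (EA * g + EB * (starRingEnd ℂ) g) -
          (‖Δ‖ ^ 2 / 2 : ℝ) * (A ζ₀ * ν + B ζ₀ * (starRingEnd ℂ) ν) +
          ((EA - (starRingEnd ℂ) d) * Δ + (EB - s * d) * (starRingEnd ℂ) Δ) := by
      linear_combination heq + hAB
    rw [hE]
    have t1 : ‖EA * g + EB * (starRingEnd ℂ) g‖ ≤ 2 * η * d₀ * m := by
      calc ‖EA * g + EB * (starRingEnd ℂ) g‖ ≤ ‖EA * g‖ + ‖EB * (starRingEnd ℂ) g‖ := norm_add_le _ _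
        _ = ‖EA‖ * m + ‖EB‖ * m := by rw [norm_mul, norm_mul, hgcn]
        _ ≤ η * d₀ * m + η * d₀ * m := by gcongr
        _ = 2 * η * d₀ * m := by ring
    have t2 : ‖((‖Δ‖ ^ 2 / 2 : ℝ) : ℂ) * (A ζ₀ * ν + B ζ₀ * (starRingEnd ℂ) ν)‖ ≤
        (‖Δ‖ ^ 2 / 2) * (a + b) := by
      rw [norm_mul, norm_real, Real.norm_of_nonneg (by positivity)]
      apply mul_le_mul_of_nonneg_left _ (by positivity)
      calc ‖A ζ₀ * ν + B ζ₀ * (starRingEnd ℂ) ν‖ ≤ ‖A ζ₀ * ν‖ + ‖B ζ₀ * (starRingEnd ℂ) ν‖ := norm_add_le _ _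
        _ = a + b := by rw [norm_mul, norm_mul, Complex.norm_conj, hν, mul_one, mul_one]
    have t3 : ‖(EA - (starRingEnd ℂ) d) * Δ + (EB - s * d) * (starRingEnd ℂ) Δ‖ ≤ 3 * d₀ * ‖Δ‖ := by
      calc ‖(EA - (starRingEnd ℂ) d) * Δ + (EB - s * d) * (starRingEnd ℂ) Δ‖
          ≤ ‖(EA - (starRingEnd ℂ) d) * Δ‖ + ‖(EB - s * d) * (starRingEnd ℂ) Δ‖ := norm_add_le _ _
        _ = ‖EA - (starRingEnd ℂ) d‖ * ‖Δ‖ + ‖EB - s * d‖ * ‖Δ‖ := by rw [norm_mul, norm_mul, hΔc]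
        _ ≤ (1 + η) * d₀ * ‖Δ‖ + (1 + η) * d₀ * ‖Δ‖ := by gcongr
        _ ≤ 3 * d₀ * ‖Δ‖ := by nlinarith [mul_nonneg hd0.le (norm_nonneg Δ)]
    have hΔ2 : ‖Δ‖ ^ 2 ≤ 72 * d₀ ^ 2 * m / k ^ 2 := by
      calc ‖Δ‖ ^ 2 ≤ (6 * d₀ * m / k) ^ 2 := pow_le_pow_left₀ (norm_nonneg _) hΔb 2
        _ = 36 * d₀ ^ 2 * m * m / k ^ 2 := by ring
        _ ≤ 36 * d₀ ^ 2 * m * 2 / k ^ 2 := by gcongr
        _ = 72 * d₀ ^ 2 * m / k ^ 2 := by ring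
    calc ‖(EA * g + EB * (starRingEnd ℂ) g) -
          (‖Δ‖ ^ 2 / 2 : ℝ) * (A ζ₀ * ν + B ζ₀ * (starRingEnd ℂ) ν) +
          ((EA - (starRingEnd ℂ) d) * Δ + (EB - s * d) * (starRingEnd ℂ) Δ)‖
        ≤ ‖EA * g + EB * (starRingEnd ℂ) g‖ +
          ‖((‖Δ‖ ^ 2 / 2 : ℝ) : ℂ) * (A ζ₀ * ν + B ζ₀ * (starRingEnd ℂ) ν)‖ +
          ‖(EA - (starRingEnd ℂ) d) * Δ + (EB - s * d) * (starRingEnd ℂ) Δ‖ := by
            refine (norm_add_le _ _).trans ?_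
            gcongr
            exact norm_sub_le _ _
      _ ≤ 2 * η * d₀ * m + (‖Δ‖ ^ 2 / 2) * (a + b) + 3 * d₀ * ‖Δ‖ := by linarith
      _ ≤ 2 * η * d₀ * m + (72 * d₀ ^ 2 * m / k ^ 2 / 2) * (a + b) + 3 * d₀ * (6 * d₀ * m / k) := by
          gcongr
      _ = 2 * η * d₀ * m + M * d₀ * (d₀ * m) := by rw [hM]; field_simp; ring
      _ ≤ 2 * η * d₀ * m + η * (d₀ * m) := by
          gcongr
      _ = 3 * η * d₀ * m := by ring
  -- two directions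
  obtain ⟨τ₁, h1⟩ := key (d₀ : ℂ) (by rw [norm_real, Real.norm_of_nonneg hd0.le])
  obtain ⟨τ₂, h2⟩ := key (I * d₀) (by rw [norm_mul, norm_I, one_mul, norm_real, Real.norm_of_nonneg hd0.le])
  set J₁ : ℂ := (starRingEnd ℂ) (d₀ : ℂ) * g + s * (d₀ : ℂ) * (starRingEnd ℂ) g with hJ1
  set J₂ : ℂ := (starRingEnd ℂ) (I * d₀) * g + s * (I * d₀) * (starRingEnd ℂ) g with hJ2
  have e1 : J₁ = d₀ * (g + s * (starRingEnd ℂ) g) := by rw [hJ1, conj_ofReal]; ring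
  have e2 : J₂ = -I * d₀ * (g - s * (starRingEnd ℂ) g) := by
    rw [hJ2, map_mul, conj_I, conj_ofReal]; ring
  have him : ((starRingEnd ℂ) J₁ * J₂).im = -(d₀ ^ 2 * ((1 - ‖s‖ ^ 2) * m ^ 2)) := by
    rw [e1, e2]
    have hs2 : ‖s‖ ^ 2 = s.re ^ 2 + s.im ^ 2 := nsq_re s
    have hm2' : m ^ 2 = g.re ^ 2 + g.im ^ 2 := nsq_re g
    rw [hs2, hm2']
    simp only [map_mul, map_add, Complex.conj_conj, conj_ofReal, mul_im, mul_re, add_re, add_im, sub_re,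
      sub_im, neg_re, neg_im, I_re, I_im, conj_re, conj_im, ofReal_re, ofReal_im]
    ring
  set E₁ : ℂ := J₁ - I * τ₁ * U with hE1
  set E₂ : ℂ := J₂ - I * τ₂ * U with hE2
  have hsplit : ((starRingEnd ℂ) J₁ * J₂).im = ((starRingEnd ℂ) J₁ * E₂).im -
      ((starRingEnd ℂ) E₁ * E₂).im + ((starRingEnd ℂ) E₁ * J₂).im := by
    have e3 : J₂ = E₂ + I * τ₂ * U := by rw [hE2]; ring
    have e4 : (starRingEnd ℂ) J₁ - (starRingEnd ℂ) E₁ = -(I * τ₁ * (starRingEnd ℂ) U) := by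
      rw [hE1]
      simp only [map_sub, map_mul, conj_I, conj_ofReal]
      ring
    have e5 : (starRingEnd ℂ) J₁ * J₂ = (starRingEnd ℂ) J₁ * E₂ - (starRingEnd ℂ) E₁ * E₂ +
        (starRingEnd ℂ) E₁ * J₂ + ((starRingEnd ℂ) J₁ - (starRingEnd ℂ) E₁) * (J₂ - E₂) := by ring
    have e6 : ((starRingEnd ℂ) J₁ - (starRingEnd ℂ) E₁) * (J₂ - E₂) = ((τ₁ * τ₂ * ‖U‖ ^ 2 : ℝ) : ℂ) := by
      rw [e4, e3]
      push_cast
      rw [nsq']
      have := I_mul_I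
      linear_combination (-(τ₁ : ℂ) * τ₂ * U * (starRingEnd ℂ) U) * this
    rw [e6] at e5
    rw [e5]
    simp only [add_im, sub_im, ofReal_im, add_zero]
  have nJ1 : ‖J₁‖ ≤ 2 * d₀ * m := by
    rw [e1, norm_mul, norm_real, Real.norm_of_nonneg hd0.le]
    have : ‖g + s * (starRingEnd ℂ) g‖ ≤ 2 * m := by
      calc ‖g + s * (starRingEnd ℂ) g‖ ≤ ‖g‖ + ‖s * (starRingEnd ℂ) g‖ := norm_add_le _ _
        _ = m + ‖s‖ * m := by rw [norm_mul, hgcn]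
        _ ≤ 2 * m := by nlinarith
    calc d₀ * ‖g + s * (starRingEnd ℂ) g‖ ≤ d₀ * (2 * m) := by gcongr
      _ = 2 * d₀ * m := by ring
  have nJ2 : ‖J₂‖ ≤ 2 * d₀ * m := by
    rw [e2, norm_mul, norm_mul, norm_neg, norm_I, one_mul, norm_real, Real.norm_of_nonneg hd0.le]
    have : ‖g - s * (starRingEnd ℂ) g‖ ≤ 2 * m := by
      calc ‖g - s * (starRingEnd ℂ) g‖ ≤ ‖g‖ + ‖s * (starRingEnd ℂ) g‖ := norm_sub_le _ _
        _ = m + ‖s‖ * m := by rw [norm_mul, hgcn]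
        _ ≤ 2 * m := by nlinarith
    calc d₀ * ‖g - s * (starRingEnd ℂ) g‖ ≤ d₀ * (2 * m) := by gcongr
      _ = 2 * d₀ * m := by ring
  have b1 : |((starRingEnd ℂ) J₁ * E₂).im| ≤ (2 * d₀ * m) * (3 * η * d₀ * m) := by
    calc |((starRingEnd ℂ) J₁ * E₂).im| ≤ ‖(starRingEnd ℂ) J₁ * E₂‖ := Complex.abs_im_le_norm _
      _ = ‖J₁‖ * ‖E₂‖ := by rw [norm_mul, Complex.norm_conj]
      _ ≤ _ := by gcongr
  have b2 : |((starRingEnd ℂ) E₁ * E₂).im| ≤ (3 * η * d₀ * m) * (3 * η * d₀ * m) := by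
    calc |((starRingEnd ℂ) E₁ * E₂).im| ≤ ‖(starRingEnd ℂ) E₁ * E₂‖ := Complex.abs_im_le_norm _
      _ = ‖E₁‖ * ‖E₂‖ := by rw [norm_mul, Complex.norm_conj]
      _ ≤ _ := by gcongr
  have b3 : |((starRingEnd ℂ) E₁ * J₂).im| ≤ (3 * η * d₀ * m) * (2 * d₀ * m) := by
    calc |((starRingEnd ℂ) E₁ * J₂).im| ≤ ‖(starRingEnd ℂ) E₁ * J₂‖ := Complex.abs_im_le_norm _
      _ = ‖E₁‖ * ‖J₂‖ := by rw [norm_mul, Complex.norm_conj]
      _ ≤ _ := by gcongr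
  have hfin : d₀ ^ 2 * m ^ 2 * (1 - ‖s‖ ^ 2) ≤ d₀ ^ 2 * m ^ 2 * (12 * η + 9 * η ^ 2) := by
    have c1 := (abs_le.1 b1).1
    have c2 := (abs_le.1 b2).2
    have c3 := (abs_le.1 b3).1
    nlinarith
  have hpos : 0 < d₀ ^ 2 * m ^ 2 := by positivity
  have := le_of_mul_le_mul_left hfin hpos
  nlinarith

end Pool.Agent.Pon30
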